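import Pool.Agent.CO30.F4

/-!
# Bounded classes and bounded rank give an abelian subgroup of bounded index
-/

namespace Pool.Agent.CO30

theorem pn_center (M B1 : ℕ) : ∃ B : ℕ, ∀ (G : Type) [Group G] [Fintype G] (x : Fin 4 → G),
    Subgroup.closure (Set.range x) = ⊤ → ∀ H : Subgroup G, H.Normal → H.index ≤ B1 →
    (∀ h ∈ H, (Subgroup.centralizer {h}).index ≤ M) →
    ∃ T : Subgroup G, T.Normal ∧ (∀ a ∈ T, ∀ b ∈ T, a * b = b * a) ∧ T.index ≤ B := by
  refine ⟨B1 * (M + 1) ^ (B1 * 4), fun G _ _ x hx H hN hB hM => ?_⟩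
  classical
  have hS : Subgroup.closure ((Finset.univ.image x : Finset G) : Set G) = ⊤ := by
    rw [Finset.coe_image, Finset.coe_univ, Set.image_univ]
    exact hx
  obtain ⟨S, hS1, hS2⟩ := Subgroup.exists_finset_card_le_mul H hS
  have hcard : S.card ≤ B1 * 4 := by
    refine hS1.trans (Nat.mul_le_mul hB ?_)
    exact Finset.card_image_le.trans (by simp)
  have hcl : Subgroup.closure ((fun h : H => (h : G)) '' (S : Set H)) = H := by
    have h1 := congrArg (Subgroup.map H.subtype) hS2
    rw [MonoidHom.map_closure, ← MonoidHom.range_eq_map, Subgroup.range_subtype] at h1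
    exact h1
  have hcent : Subgroup.centralizer (H : Set G) =
      ⨅ h : S, Subgroup.centralizer {((h : H) : G)} := by
    conv_lhs => rw [← hcl]
    rw [Subgroup.centralizer_closure, Subgroup.centralizer_eq_iInf, iInf_image, iInf_subtype']
    rfl
  refine ⟨H ⊓ Subgroup.centralizer (H : Set G), ?_, ?_, ?_⟩
  · have : (Subgroup.centralizer (H : Set G)).Normal := inferInstance
    exact Subgroup.normal_inf_normal H _
  · intro a ha b hb
    exact (Subgroup.mem_centralizer_iff.1 hb.2 a ha.1)
  · refine (Subgroup.index_inf_le).trans (Nat.mul_le_mul hB ?_)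
    rw [hcent]
    refine (Subgroup.index_iInf_le _).trans ?_
    calc ∏ h : S, (Subgroup.centralizer {((h : H) : G)}).index ≤ ∏ _h : S, (M + 1) :=
          Finset.prod_le_prod' fun h _ => (hM _ (h : H).2).trans (Nat.le_succ M)
      _ = (M + 1) ^ S.card := by
          rw [Finset.prod_const, Finset.card_univ, Fintype.card_coe]
      _ ≤ (M + 1) ^ (B1 * 4) := Nat.pow_le_pow_right (Nat.succ_pos M) hcard

end Pool.Agent.CO30
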