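import Pool.Agent.CO30.Pn1
import Pool.Agent.CO30.Pn2

/-!
Groups with four generators and many commuting pairs have an abelian normal subgroup of bounded index.
-/

namespace Pool.Agent.CO30

open Finset

open Classical in
theorem pn (c : ℝ) (hc : 0 < c) : ∃ B : ℕ, ∀ (G : Type) [Group G] [Fintype G] (x : Fin 4 → G),
    Subgroup.closure (Set.range x) = ⊤ →
    c * (Fintype.card G : ℝ) ^ 2 ≤ ((univ.filter fun p : G × G => p.1 * p.2 = p.2 * p.1).card : ℝ) →
    ∃ T : Subgroup G, T.Normal ∧ (∀ a ∈ T, ∀ b ∈ T, a * b = b * a) ∧ T.index ≤ B := by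
  obtain ⟨M, B1, h1⟩ := pn_closed c hc
  obtain ⟨B, h2⟩ := pn_center M B1
  refine ⟨B, ?_⟩
  intro G _ _ x hx h
  obtain ⟨H, hH1, hH2, hH3⟩ := h1 G h
  exact h2 G x hx H hH1 hH2 hH3

end Pool.Agent.CO30
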