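import Pool.Agent.CO30.F4

/-!
# Scott's inequality for the regular representation, and spherical quotients
-/

namespace Pool.Agent.CO30

open Matrix Finset Pool.Agent.CO75

section SCO

/-- right translation -/
private noncomputable def scoA {Q : Type} [Group Q] (g : Q) : (Q → ℂ) →ₗ[ℂ] (Q → ℂ) :=
  LinearMap.funLeft ℂ ℂ (fun h => h * g)

private theorem scoA_apply {Q : Type} [Group Q] (g : Q) (v : Q → ℂ) (h : Q) :
    scoA g v h = v (h * g) := rfl

private theorem scoA_mul {Q : Type} [Group Q] (g k : Q) (v : Q → ℂ) :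
    scoA (g * k) v = scoA g (scoA k v) := by
  ext h
  simp only [scoA_apply, mul_assoc]

private theorem scoA_one {Q : Type} [Group Q] (v : Q → ℂ) : scoA (1 : Q) v = v := by
  ext h
  simp only [scoA_apply, mul_one]

/-- the partial products -/
private noncomputable def scoP {Q : Type} [Group Q] {r : ℕ} (x : Fin r → Q) (i : ℕ) : Q :=
  ((List.ofFn x).take i).prod

private theorem scoP_succ {Q : Type} [Group Q] {r : ℕ} (x : Fin r → Q) (i : Fin r) :
    scoP x (i + 1) = scoP x i * x i := by
  rw [scoP, scoP, List.prod_take_succ _ _ (by simp)]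
  simp

private theorem scoP_zero {Q : Type} [Group Q] {r : ℕ} (x : Fin r → Q) : scoP x 0 = 1 := by
  simp [scoP]

private theorem scoP_last {Q : Type} [Group Q] {r : ℕ} (x : Fin r → Q) :
    scoP x r = (List.ofFn x).prod := by
  rw [scoP, List.take_of_length_le (by simp)]

private theorem sco_ker {Q : Type} [Group Q] [Fintype Q] (x : Q) :
    (Fintype.card Q : ℝ) / (orderOf x : ℝ) ≤
      (Module.finrank ℂ (LinearMap.ker (1 - scoA x)) : ℝ) := by
  classical
  have : Fintype (Q ⧸ Subgroup.zpowers x) := Fintype.ofFinite _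
  let Φ : ((Q ⧸ Subgroup.zpowers x) → ℂ) →ₗ[ℂ] (Q → ℂ) :=
    LinearMap.funLeft ℂ ℂ (fun h : Q => (h : Q ⧸ Subgroup.zpowers x))
  have hinj : Function.Injective Φ :=
    LinearMap.funLeft_injective_of_surjective ℂ ℂ _ (QuotientGroup.mk_surjective)
  have hle : LinearMap.range Φ ≤ LinearMap.ker (1 - scoA x) := by
    rintro _ ⟨u, rfl⟩
    rw [LinearMap.mem_ker, LinearMap.sub_apply, Module.End.one_apply, sub_eq_zero]
    ext h
    rw [scoA_apply]
    change u (h : Q ⧸ Subgroup.zpowers x) = u ((h * x : Q) : Q ⧸ Subgroup.zpowers x)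
    congr 1
    rw [QuotientGroup.eq]
    simp
  have h1 : Module.finrank ℂ (LinearMap.range Φ) = Fintype.card (Q ⧸ Subgroup.zpowers x) := by
    rw [LinearMap.finrank_range_of_inj hinj, Module.finrank_fintype_fun_eq_card]
  have h2 := Submodule.finrank_mono hle
  rw [h1] at h2
  have h3 := Subgroup.card_eq_card_quotient_mul_card_subgroup (Subgroup.zpowers x)
  rw [Nat.card_zpowers, Nat.card_eq_fintype_card, Nat.card_eq_fintype_card] at h3
  have h4 : (0 : ℝ) < (orderOf x : ℝ) := by exact_mod_cast orderOf_pos x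
  rw [div_le_iff₀ h4, h3]
  push_cast
  exact mul_le_mul_of_nonneg_right (by exact_mod_cast h2) h4.le

/-- the genus of a quotient is not negative -/
theorem scott {Q : Type} [Group Q] [Fintype Q] {r : ℕ} (x : Fin r → Q)
    (hprod : (List.ofFn x).prod = 1) (hgen : Subgroup.closure (Set.range x) = ⊤) :
    2 * ((Fintype.card Q : ℝ) - 1) ≤
      (Fintype.card Q : ℝ) * ∑ i, (1 - 1 / (orderOf (x i) : ℝ)) := by
  classical
  let β : (Q → ℂ) →ₗ[ℂ] ((i : Fin r) → LinearMap.range (1 - scoA (x i))) :=
    LinearMap.pi fun i => (1 - scoA (x i)).rangeRestrict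
  let δ : ((i : Fin r) → LinearMap.range (1 - scoA (x i))) →ₗ[ℂ] (Q → ℂ) :=
    ∑ i : Fin r, (scoA (scoP x i)) ∘ₗ (Submodule.subtype _) ∘ₗ (LinearMap.proj i)
  have hδ : ∀ w, δ w = ∑ i : Fin r, scoA (scoP x i) (w i : Q → ℂ) := by
    intro w
    simp only [δ, LinearMap.sum_apply, LinearMap.comp_apply, LinearMap.proj_apply,
      Submodule.subtype_apply]
  have hβ : ∀ v i, ((β v i : LinearMap.range (1 - scoA (x i))) : Q → ℂ) = v - scoA (x i) v := by
    intro v i
    rfl
  -- the composition
  have hδβ : ∀ v, δ (β v) = 0 := by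
    intro v
    rw [hδ]
    have h1 : ∀ i : Fin r, scoA (scoP x i) ((β v i : LinearMap.range (1 - scoA (x i))) : Q → ℂ) =
        scoA (scoP x i) v - scoA (scoP x (i + 1)) v := by
      intro i
      rw [hβ, map_sub, scoP_succ, scoA_mul]
    rw [Finset.sum_congr rfl fun i _ => h1 i,
      Fin.sum_univ_eq_sum_range (fun i => scoA (scoP x i) v - scoA (scoP x (i + 1)) v) r,
      Finset.sum_range_sub', scoP_zero, scoP_last, hprod, sub_self]
  have hle : LinearMap.range β ≤ LinearMap.ker δ := by
    rintro _ ⟨v, rfl⟩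
    exact hδβ v
  -- the kernel of `β`
  have hkerβ : Module.finrank ℂ (LinearMap.ker β) ≤ 1 := by
    have h1 : LinearMap.ker β ≤ Submodule.span ℂ {(fun _ => 1 : Q → ℂ)} := by
      intro v hv
      rw [LinearMap.mem_ker] at hv
      have h2 : ∀ i, scoA (x i) v = v := by
        intro i
        have h3 := congrFun hv i
        have h4 := hβ v i
        rw [h3] at h4
        have h5 : (0 : Q → ℂ) = v - scoA (x i) v := h4
        exact (sub_eq_zero.1 h5.symm).symm
      let H : Subgroup Q :=
        { carrier := {g | scoA g v = v}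
          mul_mem' := by
            intro g k hg hk
            simp only [Set.mem_setOf_eq] at hg hk ⊢
            rw [scoA_mul, hk, hg]
          one_mem' := scoA_one v
          inv_mem' := by
            intro g hg
            simp only [Set.mem_setOf_eq] at hg ⊢
            have h6 : scoA g⁻¹ (scoA g v) = v := by rw [← scoA_mul, inv_mul_cancel, scoA_one]
            rw [hg] at h6
            exact h6 }
      have h7 : H = ⊤ := by
        rw [← top_le_iff, ← hgen, Subgroup.closure_le]
        rintro _ ⟨i, rfl⟩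
        exact h2 i
      have h8 : ∀ g : Q, v g = v 1 := by
        intro g
        have h9 : g ∈ H := by rw [h7]; exact Subgroup.mem_top g
        have h10 : scoA g v = v := h9
        have h11 := congrFun h10 1
        rwa [scoA_apply, one_mul] at h11
      rw [Submodule.mem_span_singleton]
      refine ⟨v 1, ?_⟩
      ext g
      simp [h8 g]
    calc Module.finrank ℂ (LinearMap.ker β) ≤ _ := Submodule.finrank_mono h1
      _ ≤ 1 := by
        have h2 := finrank_span_le_card (R := ℂ) ({(fun _ => 1 : Q → ℂ)} : Set (Q → ℂ))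
        simpa using h2
  -- the range of `δ`
  have hrδ : Fintype.card Q ≤ Module.finrank ℂ (LinearMap.range δ) + 1 := by
    have h1 : ∀ (j : Fin r) (v : Q → ℂ), scoA (scoP x j) (v - scoA (x j) v) ∈
        LinearMap.range δ := by
      intro j v
      refine ⟨Pi.single j ((1 - scoA (x j)).rangeRestrict v), ?_⟩
      rw [hδ, Finset.sum_eq_single j]
      · rw [Pi.single_eq_same]
        rfl
      · intro i _ hij
        rw [Pi.single_eq_of_ne hij]
        simp
      · intro hj
        exact absurd (Finset.mem_univ j) hj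
    have h2 : ∀ (j : ℕ), j ≤ r → ∀ v : Q → ℂ, v - scoA (scoP x j) v ∈ LinearMap.range δ := by
      intro j
      induction j with
      | zero =>
        intro _ v
        rw [scoP_zero, scoA_one, sub_self]
        exact Submodule.zero_mem _
      | succ j ih =>
        intro hj v
        have h3 := scoP_succ x ⟨j, hj⟩
        have h4 := h1 ⟨j, hj⟩ v
        simp only at h3 h4
        have h5 : v - scoA (scoP x (j + 1)) v = (v - scoA (scoP x j) v) +
            scoA (scoP x j) (v - scoA (x ⟨j, hj⟩) v) := by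
          rw [h3, scoA_mul, map_sub]
          abel
        rw [h5]
        exact Submodule.add_mem _ (ih (by omega) v) h4
    have h3 : ∀ (j : Fin r) (v : Q → ℂ), v - scoA (x j) v ∈ LinearMap.range δ := by
      intro j v
      have h4 := h2 (j + 1) (by omega) v
      have h5 := h2 j (by omega) (scoA (x j) v)
      rw [scoP_succ, scoA_mul] at h4
      have h6 := Submodule.sub_mem _ h4 h5
      have h7 : v - scoA (scoP x j) (scoA (x j) v) -
          (scoA (x j) v - scoA (scoP x j) (scoA (x j) v)) = v - scoA (x j) v := by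
        abel
      rwa [h7] at h6
    let H : Subgroup Q :=
      { carrier := {g | ∀ v : Q → ℂ, v - scoA g v ∈ LinearMap.range δ}
        mul_mem' := by
          intro g k hg hk v
          have h4 := hg (scoA k v)
          have h5 := hk v
          have h6 : v - scoA (g * k) v = (v - scoA k v) + (scoA k v - scoA g (scoA k v)) := by
            rw [scoA_mul]
            abel
          rw [h6]
          exact Submodule.add_mem _ h5 h4
        one_mem' := by
          intro v
          rw [scoA_one, sub_self]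
          exact Submodule.zero_mem _
        inv_mem' := by
          intro g hg v
          have h4 := hg (scoA g⁻¹ v)
          rw [← scoA_mul, mul_inv_cancel, scoA_one] at h4
          have h5 := Submodule.neg_mem _ h4
          rwa [neg_sub] at h5 }
    have h7 : H = ⊤ := by
      rw [← top_le_iff, ← hgen, Subgroup.closure_le]
      rintro _ ⟨i, rfl⟩
      exact h3 i
    have h8 : ∀ (g : Q) (v : Q → ℂ), v - scoA g v ∈ LinearMap.range δ := by
      intro g
      have h9 : g ∈ H := by rw [h7]; exact Subgroup.mem_top g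
      exact h9
    have h9 : (⊤ : Submodule ℂ (Q → ℂ)) ≤
        LinearMap.range δ ⊔ Submodule.span ℂ {(Pi.single (1 : Q) (1 : ℂ) : Q → ℂ)} := by
      intro v _
      have h10 : v = ∑ h : Q, v h • (Pi.single h (1 : ℂ) : Q → ℂ) := by
        ext t
        simp [Finset.sum_apply, Pi.single_apply]
      rw [h10]
      refine Submodule.sum_mem _ fun h _ => Submodule.smul_mem _ _ ?_
      have h11 := h8 h (Pi.single h (1 : ℂ))
      have h12 : scoA h (Pi.single h (1 : ℂ)) = (Pi.single (1 : Q) (1 : ℂ) : Q → ℂ) := by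
        ext t
        rw [scoA_apply, Pi.single_apply, Pi.single_apply]
        simp
      rw [h12] at h11
      have h13 : (Pi.single h (1 : ℂ) : Q → ℂ) =
          ((Pi.single h (1 : ℂ) : Q → ℂ) - Pi.single (1 : Q) (1 : ℂ)) +
            Pi.single (1 : Q) (1 : ℂ) := by abel
      rw [h13]
      exact Submodule.add_mem_sup h11 (Submodule.mem_span_singleton_self _)
    have h10 := Submodule.finrank_mono h9
    rw [finrank_top, Module.finrank_fintype_fun_eq_card] at h10
    have h11 := Submodule.finrank_add_le_finrank_add_finrank (LinearMap.range δ)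
      (Submodule.span ℂ {(Pi.single (1 : Q) (1 : ℂ) : Q → ℂ)})
    have h12 : Module.finrank ℂ (Submodule.span ℂ {(Pi.single (1 : Q) (1 : ℂ) : Q → ℂ)}) ≤ 1 := by
      have h2 := finrank_span_le_card (R := ℂ) ({(Pi.single (1 : Q) (1 : ℂ) : Q → ℂ)} : Set (Q → ℂ))
      simpa using h2
    omega
  -- dimensions
  have e1 := LinearMap.finrank_range_add_finrank_ker β
  rw [Module.finrank_fintype_fun_eq_card] at e1
  have e2 := LinearMap.finrank_range_add_finrank_ker δ
  rw [Module.finrank_pi_fintype] at e2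
  have e3 := Submodule.finrank_mono hle
  have e4 : 2 * Fintype.card Q ≤ ∑ i : Fin r, Module.finrank ℂ (LinearMap.range (1 - scoA (x i))) +
      2 := by
    omega
  have e5 : ∀ i : Fin r, (Module.finrank ℂ (LinearMap.range (1 - scoA (x i))) : ℝ) ≤
      (Fintype.card Q : ℝ) * (1 - 1 / (orderOf (x i) : ℝ)) := by
    intro i
    have h1 := LinearMap.finrank_range_add_finrank_ker (1 - scoA (x i))
    rw [Module.finrank_fintype_fun_eq_card] at h1
    have h2 := sco_ker (x i)
    have h3 : (Module.finrank ℂ (LinearMap.range (1 - scoA (x i))) : ℝ) +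
        (Module.finrank ℂ (LinearMap.ker (1 - scoA (x i))) : ℝ) = (Fintype.card Q : ℝ) := by
      exact_mod_cast h1
    have h4 : (Fintype.card Q : ℝ) * (1 - 1 / (orderOf (x i) : ℝ)) =
        (Fintype.card Q : ℝ) - (Fintype.card Q : ℝ) / (orderOf (x i) : ℝ) := by ring
    rw [h4]
    linarith
  have e6 : (2 : ℝ) * (Fintype.card Q : ℝ) ≤
      ∑ i : Fin r, (Module.finrank ℂ (LinearMap.range (1 - scoA (x i))) : ℝ) + 2 := by
    exact_mod_cast e4
  have e7 := Finset.sum_le_sum fun i (_ : i ∈ (Finset.univ : Finset (Fin r))) => e5 i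
  rw [← Finset.mul_sum] at e7
  linarith

private theorem sco_index {G : Type} [Group G] [Fintype G] (s : G) (M : ℕ)
    (h : (open Classical in (univ.image fun g : G => g * s * g⁻¹).card) ≤ M) :
    (Subgroup.centralizer {s}).index ≤ M := by
  classical
  refine le_trans ?_ h
  let F : G ⧸ Subgroup.centralizer {s} → {y // y ∈ univ.image fun g : G => g * s * g⁻¹} :=
    Quotient.lift (fun g : G => ⟨g * s * g⁻¹, Finset.mem_image_of_mem _ (Finset.mem_univ g)⟩) (by
      intro a b hab
      have h1 : a⁻¹ * b ∈ Subgroup.centralizer {s} := QuotientGroup.leftRel_apply.1 hab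
      rw [Subgroup.mem_centralizer_iff] at h1
      have h2 := h1 s (Set.mem_singleton s)
      apply Subtype.ext
      change a * s * a⁻¹ = b * s * b⁻¹
      have h3 : a * (s * (a⁻¹ * b)) = a * (a⁻¹ * b * s) := by rw [h2]
      have h4 : a * s * a⁻¹ * b = b * s := by
        calc a * s * a⁻¹ * b = a * (s * (a⁻¹ * b)) := by group
          _ = a * (a⁻¹ * b * s) := h3
          _ = b * s := by group
      calc a * s * a⁻¹ = a * s * a⁻¹ * b * b⁻¹ := by group
        _ = b * s * b⁻¹ := by rw [h4])
  have hF : Function.Injective F := by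
    rintro ⟨a⟩ ⟨b⟩ hab
    have h1 : a * s * a⁻¹ = b * s * b⁻¹ := congrArg Subtype.val hab
    apply Quotient.sound
    refine QuotientGroup.leftRel_apply.2 ?_
    rw [Subgroup.mem_centralizer_iff]
    intro y hy
    rw [Set.mem_singleton_iff] at hy
    subst hy
    have h2 : a⁻¹ * (a * y * a⁻¹) * b = a⁻¹ * (b * y * b⁻¹) * b := by rw [h1]
    calc y * (a⁻¹ * b) = a⁻¹ * (a * y * a⁻¹) * b := by group
      _ = a⁻¹ * (b * y * b⁻¹) * b := h2
      _ = a⁻¹ * b * y := by group
  have h1 := Nat.card_le_card_of_injective F hF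
  rw [Nat.card_eq_fintype_card (α := {y // y ∈ univ.image fun g : G => g * s * g⁻¹}),
    Fintype.card_coe] at h1
  exact h1

open Classical in
/-- `I` a set of indices, the classes of the `x i ^ o i`, `i ∈ I`, are of size at most `M`, `∑ 1 / o i > 2` -/
theorem spherical (M R₀ : ℕ) : ∃ B : ℕ, ∀ (G : Type) [Group G] [Fintype G] (x : Fin 4 → G),
    IsGenVec x → ∀ (I : Finset (Fin 4)) (o : Fin 4 → ℕ), (∀ i ∈ I, 0 < o i ∧ o i ≤ R₀) →
    (2 < ∑ i ∈ I, 1 / (o i : ℝ)) →
    (∀ i ∈ I, (univ.image fun g : G => g * x i ^ o i * g⁻¹).card ≤ M) →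
    ∃ T : Subgroup G, T.Normal ∧ (∀ a ∈ T, ∀ b ∈ T, a * b = b * a) ∧ T.index ≤ B := by
  refine ⟨2 * R₀ ^ 4 * (M + 1) ^ (4 * M), fun G _ _ x hx I o ho hsum hM => ?_⟩
  set L : Subgroup G := Subgroup.normalClosure {y | ∃ i ∈ I, y = x i ^ o i} with hL
  have hLn : L.Normal := Subgroup.normalClosure_normal
  -- the quotient
  have hquo : L.index ≤ 2 * R₀ ^ 4 := by
    have : Fintype (G ⧸ L) := Fintype.ofFinite _
    set xb : Fin 4 → G ⧸ L := fun i => QuotientGroup.mk' L (x i) with hxb
    have h1 := scott xb (by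
        have h2 : (List.ofFn xb) = (List.ofFn x).map (QuotientGroup.mk' L) := by
          rw [List.map_ofFn]
          rfl
        rw [h2, ← map_list_prod, hx.prod_eq, map_one]) (by
        have h2 : Set.range xb = (QuotientGroup.mk' L) '' Set.range x := by
          rw [← Set.range_comp]
          rfl
        rw [h2, ← MonoidHom.map_closure, hx.gen, ← MonoidHom.range_eq_map]
        exact MonoidHom.range_eq_top.2 (QuotientGroup.mk'_surjective L))
    have h2 : ∀ i ∈ I, 1 / (o i : ℝ) ≤ 1 / (orderOf (xb i) : ℝ) := by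
      intro i hi
      have h3 : xb i ^ o i = 1 := by
        rw [hxb, ← map_pow]
        refine (QuotientGroup.eq_one_iff _).2 ?_
        exact Subgroup.subset_normalClosure ⟨i, hi, rfl⟩
      have h4 := Nat.le_of_dvd (ho i hi).1 (orderOf_dvd_of_pow_eq_one h3)
      have h5 : (0 : ℝ) < (orderOf (xb i) : ℝ) := by exact_mod_cast orderOf_pos (xb i)
      exact one_div_le_one_div_of_le h5 (by exact_mod_cast h4)
    have h3 : ∑ i : Fin 4, (1 - 1 / (orderOf (xb i) : ℝ)) ≤ 4 - ∑ i ∈ I, 1 / (o i : ℝ) := by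
      rw [Finset.sum_sub_distrib]
      have h4 : ∑ i ∈ I, 1 / (o i : ℝ) ≤ ∑ i : Fin 4, 1 / (orderOf (xb i) : ℝ) :=
        (Finset.sum_le_sum h2).trans (Finset.sum_le_sum_of_subset_of_nonneg (Finset.subset_univ I)
          fun i _ _ => by positivity)
      simp only [Finset.sum_const, Finset.card_univ, Fintype.card_fin, nsmul_eq_mul, mul_one]
      push_cast
      linarith
    have hQ : (0 : ℝ) < (Fintype.card (G ⧸ L) : ℝ) := by exact_mod_cast Fintype.card_pos
    have h4 : (Fintype.card (G ⧸ L) : ℝ) * (∑ i ∈ I, 1 / (o i : ℝ) - 2) ≤ 2 := by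
      have h5 := mul_le_mul_of_nonneg_left h3 hQ.le
      linarith
    -- the denominator
    have hoprod : 0 < ∏ i ∈ I, o i := Finset.prod_pos fun i hi => (ho i hi).1
    have h5 : (1 : ℝ) ≤ (∑ i ∈ I, 1 / (o i : ℝ) - 2) * ((∏ i ∈ I, o i : ℕ) : ℝ) := by
      have h6 : (∑ i ∈ I, 1 / (o i : ℝ)) * ((∏ i ∈ I, o i : ℕ) : ℝ) =
          ((∑ i ∈ I, (∏ i ∈ I, o i) / o i : ℕ) : ℝ) := by
        rw [Finset.sum_mul]
        push_cast
        refine Finset.sum_congr rfl fun i hi => ?_
        have h7 : o i ∣ ∏ i ∈ I, o i := Finset.dvd_prod_of_mem _ hi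
        have h8 : (o i : ℝ) ≠ 0 := by exact_mod_cast (ho i hi).1.ne'
        rw [Nat.cast_div h7 h8]
        push_cast
        ring
      have h7 : (2 : ℝ) * ((∏ i ∈ I, o i : ℕ) : ℝ) < ((∑ i ∈ I, (∏ i ∈ I, o i) / o i : ℕ) : ℝ) := by
        rw [← h6]
        exact mul_lt_mul_of_pos_right hsum (by exact_mod_cast hoprod)
      have h8 : 2 * (∏ i ∈ I, o i) + 1 ≤ ∑ i ∈ I, (∏ i ∈ I, o i) / o i := by
        have : 2 * (∏ i ∈ I, o i) < ∑ i ∈ I, (∏ i ∈ I, o i) / o i := by exact_mod_cast h7
        omega
      have h9 : (2 : ℝ) * ((∏ i ∈ I, o i : ℕ) : ℝ) + 1 ≤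
          ((∑ i ∈ I, (∏ i ∈ I, o i) / o i : ℕ) : ℝ) := by exact_mod_cast h8
      rw [sub_mul, h6]
      linarith
    have h6 : (Fintype.card (G ⧸ L) : ℝ) ≤ 2 * ((∏ i ∈ I, o i : ℕ) : ℝ) := by
      have h7 : (Fintype.card (G ⧸ L) : ℝ) * 1 ≤ (Fintype.card (G ⧸ L) : ℝ) *
          ((∑ i ∈ I, 1 / (o i : ℝ) - 2) * ((∏ i ∈ I, o i : ℕ) : ℝ)) :=
        mul_le_mul_of_nonneg_left h5 hQ.le
      have h8 : (Fintype.card (G ⧸ L) : ℝ) * (∑ i ∈ I, 1 / (o i : ℝ) - 2) *
          ((∏ i ∈ I, o i : ℕ) : ℝ) ≤ 2 * ((∏ i ∈ I, o i : ℕ) : ℝ) :=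
        mul_le_mul_of_nonneg_right h4 (by positivity)
      linarith
    have h7 : Fintype.card (G ⧸ L) ≤ 2 * ∏ i ∈ I, o i := by exact_mod_cast h6
    have h8 : ∏ i ∈ I, o i ≤ R₀ ^ 4 := by
      rcases I.eq_empty_or_nonempty with hI | hI
      · subst hI
        norm_num at hsum
      · obtain ⟨i, hi⟩ := hI
        have hR : 1 ≤ R₀ := (ho i hi).1.trans_le (ho i hi).2
        calc ∏ i ∈ I, o i ≤ R₀ ^ I.card := Finset.prod_le_pow_card _ _ _ fun i hi => (ho i hi).2
          _ ≤ R₀ ^ 4 := Nat.pow_le_pow_right hR (by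
            simpa using Finset.card_le_univ I)
    rw [Subgroup.index, Nat.card_eq_fintype_card]
    exact h7.trans (Nat.mul_le_mul_left 2 h8)
  -- the centraliser
  set S : Finset G := I.biUnion fun i => univ.image fun g : G => g * x i ^ o i * g⁻¹ with hS
  have hScard : S.card ≤ 4 * M := by
    refine (Finset.card_biUnion_le_card_mul _ _ M hM).trans ?_
    exact Nat.mul_le_mul_right M (by simpa using Finset.card_le_univ I)
  have hSL : L = Subgroup.closure (S : Set G) := by
    rw [hL, Subgroup.normalClosure]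
    congr 1
    ext y
    rw [Group.mem_conjugatesOfSet_iff, hS]
    simp only [Finset.coe_biUnion, Set.mem_iUnion, Finset.coe_image, Finset.coe_univ,
      Set.image_univ, Set.mem_range, Set.mem_setOf_eq, isConj_iff, Finset.mem_coe]
    constructor
    · rintro ⟨a, ⟨i, hi, rfl⟩, c, hc⟩
      exact ⟨i, hi, c, hc⟩
    · rintro ⟨i, hi, c, hc⟩
      exact ⟨_, ⟨i, hi, rfl⟩, c, hc⟩
  have hcent : (Subgroup.centralizer (L : Set G)).index ≤ (M + 1) ^ (4 * M) := by
    have h1 : (⨅ s : S, Subgroup.centralizer {(s : G)}) ≤ Subgroup.centralizer (L : Set G) := by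
      intro g hg
      rw [Subgroup.mem_iInf] at hg
      rw [Subgroup.mem_centralizer_iff]
      intro y hy
      have h2 : L ≤ Subgroup.centralizer {g} := by
        rw [hSL, Subgroup.closure_le]
        intro s hs
        rw [SetLike.mem_coe, Subgroup.mem_centralizer_iff]
        intro z hz
        rw [Set.mem_singleton_iff] at hz
        subst hz
        have h3 := hg ⟨s, hs⟩
        rw [Subgroup.mem_centralizer_iff] at h3
        exact (h3 s (Set.mem_singleton s)).symm
      have h3 := h2 hy
      rw [Subgroup.mem_centralizer_iff] at h3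
      exact (h3 g (Set.mem_singleton g)).symm
    have h2 : (⨅ s : S, Subgroup.centralizer {(s : G)}).index ≤
        ∏ s : S, (Subgroup.centralizer {(s : G)}).index := Subgroup.index_iInf_le _
    have h3 : ∀ s : S, (Subgroup.centralizer {(s : G)}).index ≤ M + 1 := by
      rintro ⟨s, hs⟩
      rw [hS, Finset.mem_biUnion] at hs
      obtain ⟨i, hi, hs⟩ := hs
      rw [Finset.mem_image] at hs
      obtain ⟨c, -, hc⟩ := hs
      have h4 := sco_index s M (by
        refine le_trans (Finset.card_le_card ?_) (hM i hi)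
        intro y hy
        rw [Finset.mem_image] at hy ⊢
        obtain ⟨g, -, rfl⟩ := hy
        refine ⟨g * c, Finset.mem_univ _, ?_⟩
        rw [← hc]
        group)
      exact h4.trans (Nat.le_succ M)
    calc (Subgroup.centralizer (L : Set G)).index ≤
          (⨅ s : S, Subgroup.centralizer {(s : G)}).index :=
          Nat.le_of_dvd (Nat.pos_of_ne_zero Subgroup.index_ne_zero_of_finite)
            (Subgroup.index_dvd_of_le h1)
      _ ≤ ∏ s : S, (Subgroup.centralizer {(s : G)}).index := h2
      _ ≤ ∏ _s : S, (M + 1) := Finset.prod_le_prod' fun s _ => h3 s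
      _ = (M + 1) ^ S.card := by
          rw [Finset.prod_const, Finset.card_univ, Fintype.card_coe]
      _ ≤ (M + 1) ^ (4 * M) := Nat.pow_le_pow_right (Nat.succ_pos M) hScard
  refine ⟨L ⊓ Subgroup.centralizer (L : Set G), inferInstance, ?_, ?_⟩
  · intro a ha b hb
    have h1 := (Subgroup.mem_inf.1 hb).2
    rw [Subgroup.mem_centralizer_iff] at h1
    exact h1 a (Subgroup.mem_inf.1 ha).1
  · exact Subgroup.index_inf_le.trans (Nat.mul_le_mul hquo hcent)

end SCO

end Pool.Agent.CO30
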