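import Pool.Agent.CO30.EGp
import Pool.Agent.CO30.Sco
import Pool.Agent.CO30.Pn

/-!
# An abelian normal subgroup of bounded index
-/

namespace Pool.Agent.CO30

open Matrix Finset Pool.Agent.CO75

open Classical in
theorem abe_pairs {G : Type} [Group G] [Fintype G] (W : Wedd G) :
    ((univ.filter fun p : G × G => p.1 * p.2 = p.2 * p.1).card : ℂ) =
      (Fintype.card G : ℂ) * W.N := by
  have h1 : ((univ.filter fun p : G × G => p.1 * p.2 = p.2 * p.1).card : ℂ) =
      ∑ g : G, ((univ.filter fun h : G => h * g = g * h).card : ℂ) := by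
    rw [Finset.card_filter, Fintype.sum_prod_type_right]
    push_cast
    refine Finset.sum_congr rfl fun g _ => ?_
    rw [Finset.card_filter]
    push_cast
    rfl
  rw [h1]
  have h2 : ∀ g : G, ((univ.filter fun h : G => h * g = g * h).card : ℂ) =
      ∑ j, (W.R j g).trace * (W.R j g⁻¹).trace := fun g => (col_orth W g).symm
  simp only [h2]
  rw [Finset.sum_comm]
  have h3 : ∀ j : Fin W.N, ∑ g : G, (W.R j g).trace * (W.R j g⁻¹).trace =
      (Fintype.card G : ℂ) := fun j => orth_same (W.R j) (irr_wedd W j)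
  simp only [h3]
  rw [Finset.sum_const, Finset.card_univ, Fintype.card_fin, nsmul_eq_mul, mul_comm]

theorem exists_abelian : ∃ B : ℕ, ∀ (G : Type) [Group G] [Fintype G] (x : Fin 4 → G),
    IsGenVec x → 0 < area x → numN x = 1 →
    ∃ T : Subgroup G, T.Normal ∧ (∀ a ∈ T, ∀ b ∈ T, a * b = b * a) ∧ T.index ≤ B := by
  classical
  obtain ⟨c₀, hc₀, M, R₀, hdich⟩ := energy_dichotomy
  obtain ⟨B₁, hB₁⟩ := spherical M R₀
  obtain ⟨B₂, hB₂⟩ := pn (c₀ / 8) (by positivity)
  refine ⟨B₁ + B₂ + ⌈32 / c₀⌉₊, fun G _ _ x hx hA hN => ?_⟩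
  rcases hdich G x hx hA with h | ⟨I, o, h1, h2, h3⟩
  · by_cases hn : (Fintype.card G : ℝ) ≤ 32 / c₀
    · refine ⟨⊥, inferInstance, ?_, ?_⟩
      · intro a ha b hb
        rw [Subgroup.mem_bot] at ha hb
        rw [ha, hb]
      · rw [Subgroup.index_bot, Nat.card_eq_fintype_card]
        have h4 : (Fintype.card G : ℝ) ≤ (⌈32 / c₀⌉₊ : ℝ) := hn.trans (Nat.le_ceil _)
        have h5 : Fintype.card G ≤ ⌈32 / c₀⌉₊ := by exact_mod_cast h4
        omega
    · push Not at hn
      obtain ⟨W⟩ := exists_wedd G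
      have hkey := key_ineq W x (natMult x hx) (by rw [hN]; norm_num)
      have hQ : (W.Q.card : ℝ) ≤ W.N := by
        have := Finset.card_le_univ W.Q
        rw [Fintype.card_fin] at this
        exact_mod_cast this
      have hpairs : ((univ.filter fun p : G × G => p.1 * p.2 = p.2 * p.1).card : ℝ) =
          (Fintype.card G : ℝ) * W.N := by
        exact_mod_cast abe_pairs W
      have hn0 : (0 : ℝ) < Fintype.card G := by exact_mod_cast Fintype.card_pos
      obtain ⟨T, hT1, hT2, hT3⟩ := hB₂ G x hx.gen (by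
        rw [hpairs]
        have h4 : 32 < c₀ * (Fintype.card G : ℝ) := by
          rw [div_lt_iff₀ hc₀] at hn
          linarith
        have h5 : c₀ * (Fintype.card G : ℝ) ≤ 16 + 4 * W.N := by
          have h6 : (((4 : ℕ) : ℝ)) = 4 := by norm_num
          rw [h6] at hkey
          linarith
        have h7 : c₀ / 8 * (Fintype.card G : ℝ) ≤ W.N := by linarith
        nlinarith)
      exact ⟨T, hT1, hT2, hT3.trans (by omega)⟩
  · obtain ⟨T, hT1, hT2, hT3⟩ := hB₁ G x hx I o h1 h2 (fun i hi => by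
      convert! h3 i hi)
    exact ⟨T, hT1, hT2, hT3.trans (by omega)⟩

end Pool.Agent.CO30
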