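import Pool.Agent.CO30.Rp

/-!
# The multiplicities for a normal subgroup
-/

namespace Pool.Agent.CO30

open Matrix Finset Pool.Agent.CO75

variable {G : Type} [Group G] [Fintype G] {r d : ℕ}

open Classical in
private theorem agc_split (x : Fin r → G) (γ : G) :
    eichler x γ = 1 + (∑ i, (1 / (orderOf (x i) : ℂ)) * ∑ g : G, ∑ s ∈ Finset.Ico 1 (orderOf (x i)),
      if γ = g * x i ^ s * g⁻¹ then rotTerm (orderOf (x i)) s else 0) +
      if γ = 1 then (genus x : ℂ) - 1 else 0 := by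
  unfold eichler
  by_cases hγ : γ = 1
  · rw [if_pos hγ, if_pos hγ]
    have h : (∑ i, (1 / (orderOf (x i) : ℂ)) * ∑ g : G, ∑ s ∈ Finset.Ico 1 (orderOf (x i)),
        if γ = g * x i ^ s * g⁻¹ then rotTerm (orderOf (x i)) s else 0) = 0 := by
      refine Finset.sum_eq_zero fun i _ => ?_
      rw [Finset.sum_eq_zero, mul_zero]
      intro g _
      refine Finset.sum_eq_zero fun s hs => ?_
      rw [if_neg]
      intro h0
      rw [hγ] at h0
      rw [Finset.mem_Ico] at hs
      have h1 : x i ^ s = 1 := by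
        have h2 : x i ^ s = g⁻¹ * (g * x i ^ s * g⁻¹) * g := by group
        rw [h2, ← h0]
        group
      exact absurd (Nat.le_of_dvd (by omega) (orderOf_dvd_of_pow_eq_one h1)) (not_le.2 hs.2)
    rw [h]
    ring
  · rw [if_neg hγ, if_neg hγ, add_zero]

private theorem agc_oC_pos (C : Subgroup G) [C.Normal] (x : Fin r → G) (i : Fin r) :
    0 < oC C x i := orderOf_pos _

omit [Fintype G] in
private theorem agc_oC_dvd (C : Subgroup G) [C.Normal] (x : Fin r → G) (i : Fin r) :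
    oC C x i ∣ orderOf (x i) := orderOf_map_dvd _ _

omit [Fintype G] in
private theorem agc_mem_iff (C : Subgroup G) [C.Normal] (x : Fin r → G) (i : Fin r) (s : ℕ) :
    x i ^ s ∈ C ↔ oC C x i ∣ s := by
  unfold oC
  rw [orderOf_dvd_iff_pow_eq_one, ← map_pow]
  exact (QuotientGroup.eq_one_iff _).symm

private theorem agc_order (C : Subgroup G) [C.Normal] (x : Fin r → G) (i : Fin r) :
    orderOf (x i) = oC C x i * orderOf (yC C x i) := by
  have h1 : orderOf (yC C x i) = orderOf (x i ^ oC C x i) := by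
    rw [← Subgroup.orderOf_coe]
    rfl
  rw [h1, orderOf_pow_of_dvd (agc_oC_pos C x i).ne' (agc_oC_dvd C x i),
    Nat.mul_div_cancel' (agc_oC_dvd C x i)]

omit [Fintype G] in
private theorem agc_yg_pow (C : Subgroup G) [C.Normal] (x : Fin r → G) (i : Fin r) (g : G) (t : ℕ) :
    ((yg C x i g ^ t : C) : G) = g * x i ^ (oC C x i * t) * g⁻¹ := by
  rw [yg, ← map_pow, MulAut.conjNormal_apply, Subgroup.coe_pow, yC, ← pow_mul]

omit [Fintype G] in
private theorem agc_yg_ord (C : Subgroup G) [C.Normal] (x : Fin r → G) (i : Fin r) (g : G) :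
    yg C x i g ^ orderOf (yC C x i) = 1 := by
  rw [yg, ← map_pow, pow_orderOf_eq_one, map_one]

private theorem agc_rot {o w t : ℕ} (ho : 0 < o) : rotTerm (o * w) (o * t) = rotTerm w t := by
  unfold rotTerm
  have h : (((o * t : ℕ) : ℂ)) / ((o * w : ℕ) : ℂ) = (t : ℂ) / (w : ℂ) := by
    have hoC : (o : ℂ) ≠ 0 := by exact_mod_cast ho.ne'
    push_cast
    rw [mul_div_mul_left _ _ hoC]
  rw [h]

private theorem agc_reindex {o w : ℕ} (ho : 0 < o) (f : ℕ → ℂ) (hf : ∀ s, ¬ o ∣ s → f s = 0) :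
    ∑ s ∈ Ico 1 (o * w), f s = ∑ t ∈ Ico 1 w, f (o * t) := by
  symm
  refine Finset.sum_of_injOn (fun t => o * t) ?_ ?_ ?_ ?_
  · intro a _ b _ hab
    exact Nat.eq_of_mul_eq_mul_left ho hab
  · intro t ht
    rw [Finset.mem_coe, mem_Ico] at ht ⊢
    refine ⟨?_, Nat.mul_lt_mul_of_pos_left ht.2 ho⟩
    exact Nat.mul_pos ho ht.1
  · intro s hs hs'
    apply hf
    rintro ⟨t, rfl⟩
    apply hs'
    rw [mem_Ico] at hs
    refine ⟨t, ?_, rfl⟩
    rw [Finset.mem_coe, mem_Ico]
    constructor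
    · rcases Nat.eq_zero_or_pos t with h | h
      · subst h
        simp at hs
      · exact h
    · exact lt_of_mul_lt_mul_left hs.2 (Nat.zero_le _)
  · intro t _
    rfl

open Classical in
private theorem agc_local (C : Subgroup G) [C.Normal] [Fintype C] (x : Fin r → G)
    (R : C →* Matrix (Fin d) (Fin d) ℂ) (i : Fin r) (g : G) :
    ∑ c : C, ∑ s ∈ Finset.Ico 1 (orderOf (x i)),
      (if (c : G) = g * x i ^ s * g⁻¹ then rotTerm (orderOf (x i)) s * (R c⁻¹).trace else 0) =
      (orderOf (yC C x i) : ℂ) * (age (R (yg C x i g)⁻¹) : ℂ) -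
        (d : ℂ) * (((orderOf (yC C x i) : ℂ) - 1) / 2) := by
  have hw : 0 < orderOf (yC C x i) := orderOf_pos _
  have hpow : R (yg C x i g)⁻¹ ^ orderOf (yC C x i) = 1 := by
    rw [← map_pow, inv_pow, agc_yg_ord, inv_one, map_one]
  rw [Finset.sum_comm, ← sum_trace _ hw hpow]
  have h1 : ∀ s, ¬ oC C x i ∣ s → ∑ c : C, (if (c : G) = g * x i ^ s * g⁻¹ then
      rotTerm (orderOf (x i)) s * (R c⁻¹).trace else 0) = 0 := by
    intro s hs
    refine Finset.sum_eq_zero fun c _ => ?_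
    rw [if_neg]
    intro h0
    apply hs
    rw [← agc_mem_iff]
    have h2 : x i ^ s = g⁻¹ * (c : G) * g⁻¹⁻¹ := by
      rw [h0]
      group
    rw [h2]
    exact Subgroup.Normal.conj_mem inferInstance _ c.2 _
  have h2 := agc_reindex (agc_oC_pos C x i) (w := orderOf (yC C x i)) (fun s => ∑ c : C,
    (if (c : G) = g * x i ^ s * g⁻¹ then
      rotTerm (orderOf (x i)) s * (R c⁻¹).trace else 0)) h1
  rw [← agc_order] at h2
  rw [h2]
  refine Finset.sum_congr rfl fun t _ => ?_
  have h3 : ∀ c : C, ((c : G) = g * x i ^ (oC C x i * t) * g⁻¹) ↔ (c = yg C x i g ^ t) := by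
    intro c
    rw [← agc_yg_pow, Subtype.coe_inj]
  simp only [h3]
  rw [Finset.sum_ite_eq' univ (yg C x i g ^ t), if_pos (Finset.mem_univ _), ← inv_pow, map_pow]
  congr 1
  conv_lhs => rw [agc_order C x i]
  exact agc_rot (agc_oC_pos C x i)

theorem mC_formula (C : Subgroup G) [C.Normal] [Fintype C] (x : Fin r → G)
    (R : C →* Matrix (Fin d) (Fin d) ℂ) :
    mC C x R = 1 / (Fintype.card C : ℂ) * ∑ c : C, (R c).trace +
      (((d : ℝ) * hh C x + Fa C x R : ℝ) : ℂ) := by
  classical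
  have h0 : ∑ c : C, (R c⁻¹).trace = ∑ c : C, (R c).trace :=
    Fintype.sum_equiv (Equiv.inv C) _ _ (fun _ => rfl)
  have h1 : ∀ c : C, eichler x (c : G) * (R c⁻¹).trace = (R c⁻¹).trace +
      (∑ i, (1 / (orderOf (x i) : ℂ)) * ∑ g : G, ∑ s ∈ Finset.Ico 1 (orderOf (x i)),
        if (c : G) = g * x i ^ s * g⁻¹ then rotTerm (orderOf (x i)) s * (R c⁻¹).trace else 0) +
      if c = 1 then ((genus x : ℂ) - 1) * (d : ℂ) else 0 := by
    intro c
    rw [agc_split x c, add_mul, add_mul, one_mul, Finset.sum_mul]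
    congr 1
    · congr 1
      refine Finset.sum_congr rfl fun i _ => ?_
      rw [mul_assoc, Finset.sum_mul]
      congr 1
      refine Finset.sum_congr rfl fun g _ => ?_
      rw [Finset.sum_mul]
      refine Finset.sum_congr rfl fun s _ => ?_
      rw [ite_mul, zero_mul]
    · by_cases hc : c = 1
      · rw [if_pos hc, if_pos (by rw [hc]; rfl), hc, inv_one, map_one, Matrix.trace_one,
          Fintype.card_fin]
      · have hc' : ¬ (c : G) = 1 := fun h => hc (Subtype.ext h)
        rw [if_neg hc, if_neg hc', zero_mul]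
  have h2 : ∑ c : C, (∑ i, (1 / (orderOf (x i) : ℂ)) * ∑ g : G,
      ∑ s ∈ Finset.Ico 1 (orderOf (x i)),
        if (c : G) = g * x i ^ s * g⁻¹ then rotTerm (orderOf (x i)) s * (R c⁻¹).trace else 0) =
      ∑ i, (1 / (oC C x i : ℂ) * ∑ g : G, (age (R (yg C x i g)⁻¹) : ℂ) -
        (Fintype.card G : ℂ) * (d : ℂ) / 2 * (1 / (oC C x i : ℂ) - 1 / (orderOf (x i) : ℂ))) := by
    rw [Finset.sum_comm]
    refine Finset.sum_congr rfl fun i _ => ?_
    have hoC : (oC C x i : ℂ) ≠ 0 := by exact_mod_cast (agc_oC_pos C x i).ne'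
    have hwC : (orderOf (yC C x i) : ℂ) ≠ 0 := by exact_mod_cast (orderOf_pos (yC C x i)).ne'
    have hmC : (orderOf (x i) : ℂ) = (oC C x i : ℂ) * (orderOf (yC C x i) : ℂ) := by
      exact_mod_cast agc_order C x i
    rw [← Finset.mul_sum, Finset.sum_comm]
    rw [Finset.sum_congr rfl fun g _ => agc_local C x R i g, Finset.sum_sub_distrib,
      ← Finset.mul_sum, Finset.sum_const, Finset.card_univ, nsmul_eq_mul, hmC]
    field_simp
  have hcard : (Fintype.card G : ℂ) = (C.index : ℂ) * (Fintype.card C : ℂ) := by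
    have h := Subgroup.index_mul_card C
    rw [Nat.card_eq_fintype_card, Nat.card_eq_fintype_card] at h
    exact_mod_cast h.symm
  have hC0 : (Fintype.card C : ℂ) ≠ 0 := by exact_mod_cast Fintype.card_ne_zero
  have hFa : ((Fa C x R : ℝ) : ℂ) = 1 / (Fintype.card C : ℂ) *
      ∑ i, 1 / (oC C x i : ℂ) * ∑ g : G, (age (R (yg C x i g)⁻¹) : ℂ) := by
    unfold Fa pts
    push_cast
    rw [Finset.mul_sum]
    refine Finset.sum_congr rfl fun i _ => ?_
    rw [Nat.card_eq_fintype_card]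
    have hoC : (oC C x i : ℂ) ≠ 0 := by exact_mod_cast (agc_oC_pos C x i).ne'
    field_simp
  have hgen : (genus x : ℂ) = 1 + (Fintype.card G : ℂ) / 2 * ((r : ℂ) - 2 -
      ∑ i, 1 / (orderOf (x i) : ℂ)) := by
    rw [genus_eq]
    unfold area
    push_cast
    rfl
  have hhh : ((hh C x : ℝ) : ℂ) = (C.index : ℂ) / 2 * ((r : ℂ) - 2 - ∑ i, 1 / (oC C x i : ℂ)) := by
    unfold hh areaN
    push_cast
    rfl
  unfold mC
  rw [Finset.sum_congr rfl fun c _ => h1 c, Finset.sum_add_distrib, Finset.sum_add_distrib, h0, h2,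
    Finset.sum_ite_eq' univ (1 : C), if_pos (Finset.mem_univ _), Complex.ofReal_add, hFa,
    Complex.ofReal_mul, hhh, hgen, Finset.sum_sub_distrib, ← Finset.mul_sum,
    Finset.sum_sub_distrib, hcard]
  push_cast
  field_simp
  ring

theorem mC_dual_formula (C : Subgroup G) [C.Normal] [Fintype C] (x : Fin r → G)
    (R : C →* Matrix (Fin d) (Fin d) ℂ) :
    mC C x (dual R) = 1 / (Fintype.card C : ℂ) * ∑ c : C, (R c).trace +
      (((d : ℝ) * hh C x + Fb C x R : ℝ) : ℂ) := by
  have h1 : ∑ c : C, (dual R c).trace = ∑ c : C, (R c).trace := by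
    refine Fintype.sum_equiv (Equiv.inv C) _ _ fun c => ?_
    change ((R c⁻¹)ᵀ).trace = (R c⁻¹).trace
    rw [Matrix.trace_transpose]
  have h2 : Fa C x (dual R) = Fb C x R := by
    unfold Fa Fb pts
    refine Finset.sum_congr rfl fun i _ => ?_
    congr 1
    refine Finset.sum_congr rfl fun g _ => ?_
    change age ((R (yg C x i g)⁻¹⁻¹)ᵀ) = age (R (yg C x i g))
    unfold age
    rw [inv_inv, Matrix.charpoly_transpose]
  rw [mC_formula, h1, h2]

theorem mC_nat (C : Subgroup G) [Fintype C] (x : Fin r → G) (hx : IsGenVec x)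
    (R : C →* Matrix (Fin d) (Fin d) ℂ) (hR : Irr R) : ∃ a : ℕ, mC C x R = a := by
  classical
  obtain ⟨W⟩ := exists_wedd G
  have hcG : (Fintype.card G : ℂ) ≠ 0 := by exact_mod_cast Fintype.card_ne_zero
  have hcC : (Fintype.card C : ℂ) ≠ 0 := by exact_mod_cast Fintype.card_ne_zero
  have h1 : ∀ j, ∃ a : ℕ, ∑ h : G, eichler x h * (W.R j h).trace = (Fintype.card G : ℂ) * a := by
    intro j
    obtain ⟨a, ha⟩ := natMult x hx (W.d j) (dual (W.R j)) (W.pos j) (span_dual _ (W.span_R j))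
    refine ⟨a, ?_⟩
    rw [← ha]
    refine Finset.sum_congr rfl fun h _ => ?_
    congr 1
    change (W.R j h).trace = ((W.R j h⁻¹⁻¹)ᵀ).trace
    rw [inv_inv, Matrix.trace_transpose]
  choose a ha using h1
  have h2 : ∀ g : G, eichler x g = ∑ j, (a j : ℂ) * (dual (W.R j) g).trace := by
    intro g
    have h3 := W.class_expand (eichler x) (fun g h => eichler_conj x g h) g
    have h4 : (Fintype.card G : ℂ) * eichler x g =
        (Fintype.card G : ℂ) * ∑ j, (a j : ℂ) * (dual (W.R j) g).trace := by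
      rw [h3, Finset.mul_sum]
      refine Finset.sum_congr rfl fun j _ => ?_
      rw [ha j]
      change (W.R j g⁻¹).trace * _ = _ * (_ * ((W.R j g⁻¹)ᵀ).trace)
      rw [Matrix.trace_transpose]
      ring
    exact mul_left_cancel₀ hcG h4
  have h5 : ∀ j, ∃ m : ℕ, ∑ c : C, (dual (W.R j) (c : G)).trace * (R c⁻¹).trace =
      (Fintype.card C : ℂ) * m := fun j => mult_nat ((dual (W.R j)).comp C.subtype) R hR
  choose m hm using h5
  refine ⟨∑ j, a j * m j, ?_⟩
  unfold mC
  have h6 : ∑ c : C, eichler x (c : G) * (R c⁻¹).trace =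
      (Fintype.card C : ℂ) * ∑ j, (a j : ℂ) * (m j : ℂ) := by
    simp only [h2, Finset.sum_mul]
    rw [Finset.sum_comm, Finset.mul_sum]
    refine Finset.sum_congr rfl fun j _ => ?_
    have h7 : (Fintype.card C : ℂ) * ((a j : ℂ) * (m j : ℂ)) =
        (a j : ℂ) * ((Fintype.card C : ℂ) * (m j : ℂ)) := by ring
    rw [h7, ← hm j, Finset.mul_sum]
    refine Finset.sum_congr rfl fun c _ => ?_
    ring
  rw [h6]
  push_cast
  field_simp

/-- the genus of the quotient is a natural number -/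
theorem hh_nat (C : Subgroup G) [C.Normal] (x : Fin r → G) (hx : IsGenVec x) :
    ∃ a : ℕ, hh C x = (a : ℝ) - 1 := by
  classical
  have : Fintype C := Fintype.ofFinite C
  obtain ⟨a, ha⟩ := mC_nat C x hx (trivR C) irr_triv
  refine ⟨a, ?_⟩
  rw [mC_formula] at ha
  have hFa : Fa C x (trivR C) = 0 := by
    unfold Fa pts
    refine Finset.sum_eq_zero fun i _ => ?_
    rw [Finset.sum_eq_zero, mul_zero]
    intro g _
    exact age_one
  have htr : ∑ c : C, (trivR C c).trace = (Fintype.card C : ℂ) := by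
    have h1 : ∀ c : C, (trivR C c).trace = 1 := by
      intro c
      change (1 : Matrix (Fin 1) (Fin 1) ℂ).trace = 1
      simp
    simp [h1]
  have hcC : (Fintype.card C : ℂ) ≠ 0 := by exact_mod_cast Fintype.card_ne_zero
  rw [hFa, htr, one_div, inv_mul_cancel₀ hcC] at ha
  have h2 : (((1 : ℝ) + hh C x : ℝ) : ℂ) = ((a : ℝ) : ℂ) := by
    push_cast
    push_cast at ha
    rw [← ha]
    ring
  have h3 := Complex.ofReal_injective h2
  linarith

end Pool.Agent.CO30
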