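import Pool.Agent.CO30.AgeInd

/-!
# The sum of the ages of unitary matrices with product one and without common fixed vector
-/

set_option autoImplicit false

namespace Pool.Agent.CO30

open Finset Matrix
open scoped ComplexConjugate

variable {d : ℕ}

/-- Conjugated diagonal matrices. -/
noncomputable def conjDiag {U : Matrix (Fin d) (Fin d) ℂ} (hU : U ∈ unitaryGroup (Fin d) ℂ) :
    (Fin d → ℂ) →* Matrix (Fin d) (Fin d) ℂ where
  toFun l := U * diagonal l * star U
  map_one' := by
    have h1 : diagonal (1 : Fin d → ℂ) = 1 := diagonal_one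
    rw [h1, mul_one, mem_unitaryGroup_iff.1 hU]
  map_mul' l m := by
    have h1 : star U * U = 1 := mem_unitaryGroup_iff'.1 hU
    have h2 : diagonal (l * m) = diagonal l * diagonal m := (diagonal_mul_diagonal l m).symm
    rw [h2]
    calc U * (diagonal l * diagonal m) * star U
        = U * diagonal l * 1 * diagonal m * star U := by simp only [mul_one, mul_assoc]
      _ = U * diagonal l * (star U * U) * diagonal m * star U := by rw [h1]
      _ = U * diagonal l * star U * (U * diagonal m * star U) := by simp only [mul_assoc]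

/-- A unitary matrix is a product of rank one rotations. -/
theorem exists_list {X : Matrix (Fin d) (Fin d) ℂ} (hX : X ∈ unitaryGroup (Fin d) ℂ) :
    ∃ L : List (Matrix (Fin d) (Fin d) ℂ), (∀ R ∈ L, Rot R) ∧ L.prod = X ∧
      (L.map fun R => ang R.det).sum = age X := by
  obtain ⟨U, hU, l, hl, rfl⟩ := exists_diag hX
  have hdetU : U.det * (star U).det = 1 := by
    rw [← det_mul, mem_unitaryGroup_iff.1 hU, det_one]
  have hdet : ∀ m : Fin d → ℂ, (conjDiag hU m).det = ∏ k, m k := by
    intro m
    show (U * diagonal m * star U).det = _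
    rw [det_mul, det_mul, det_diagonal]
    linear_combination (∏ k, m k) * hdetU
  have hdet1 : ∀ k, (conjDiag hU (Pi.mulSingle k (l k))).det = l k := by
    intro k
    rw [hdet, Finset.prod_eq_single k]
    · simp
    · intro b _ hb
      simp [hb]
    · simp
  refine ⟨List.ofFn fun k => conjDiag hU (Pi.mulSingle k (l k)), ?_, ?_, ?_⟩
  · intro R hR
    rw [List.mem_ofFn] at hR
    obtain ⟨k, rfl⟩ := hR
    refine ⟨?_, ?_, ?_⟩
    · rw [mem_unitaryGroup_iff]
      have h1 : star (conjDiag hU (Pi.mulSingle k (l k))) =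
          conjDiag hU (star (Pi.mulSingle k (l k))) := by
        show star (U * diagonal _ * star U) = U * diagonal _ * star U
        rw [star_mul, star_mul, star_star]
        rw [star_eq_conjTranspose (diagonal _), diagonal_conjTranspose]
        simp only [mul_assoc]
      rw [h1, ← map_mul]
      have h2 : (Pi.mulSingle k (l k) : Fin d → ℂ) * star (Pi.mulSingle k (l k) : Fin d → ℂ) = 1 := by
        ext b
        rw [Pi.mul_apply, Pi.star_apply, Pi.one_apply, Pi.mulSingle_apply]
        split_ifs with h
        · rw [Complex.star_def, Complex.mul_conj, Complex.normSq_eq_norm_sq, hl]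
          simp
        · simp
      rw [h2, map_one]
    · refine ⟨(LinearMap.proj k).comp (Matrix.mulVecLin (star U)), ?_⟩
      intro w hw
      have hw' : (star U *ᵥ w) k = 0 := hw
      show (U * diagonal _ * star U) *ᵥ w = w
      rw [← mulVec_mulVec, ← mulVec_mulVec]
      have h1 : diagonal (Pi.mulSingle k (l k) : Fin d → ℂ) *ᵥ (star U *ᵥ w) = star U *ᵥ w := by
        ext b
        rw [mulVec_diagonal, Pi.mulSingle_apply]
        split_ifs with h
        · subst h
          rw [hw', mul_zero]
        · rw [one_mul]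
      rw [h1, mulVec_mulVec, mem_unitaryGroup_iff.1 hU, one_mulVec]
    · intro h
      rw [hdet1] at h
      have h1 : l k = 1 := by
        rw [← exp_ang (hl k), h]
        simp
      rw [h1, Pi.mulSingle_one, map_one]
  · have h1 : (List.ofFn fun k => conjDiag hU (Pi.mulSingle k (l k))) =
        (List.ofFn fun k => (Pi.mulSingle k (l k) : Fin d → ℂ)).map (conjDiag hU) := by
      rw [List.map_ofFn]
      rfl
    rw [h1, ← map_list_prod, List.prod_ofFn, Finset.univ_prod_mulSingle]
    rfl
  · rw [List.map_ofFn, List.sum_ofFn, age_diag hU]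
    refine Finset.sum_congr rfl fun k _ => ?_
    show ang (conjDiag hU (Pi.mulSingle k (l k))).det = _
    rw [hdet1]

/-- **The sum of the ages.** -/
theorem age_ge {d r : ℕ} (X : Fin r → Matrix (Fin d) (Fin d) ℂ)
    (hU : ∀ i, X i ∈ Matrix.unitaryGroup (Fin d) ℂ) (hprod : (List.ofFn X).prod = 1)
    (hfix : ∀ v : Fin d → ℂ, (∀ i, (X i).mulVec v = v) → v = 0) :
    ∃ a : ℕ, ∑ i, age (X i) = (d : ℝ) + a := by
  choose L hL hLprod hLsum using fun i => exists_list (hU i)
  set M : List (Matrix (Fin d) (Fin d) ℂ) := (List.ofFn L).flatten with hM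
  have hMmem : ∀ i, ∀ R ∈ L i, R ∈ M := by
    intro i R hR
    rw [hM, List.mem_flatten]
    exact ⟨L i, List.mem_ofFn.2 ⟨i, rfl⟩, hR⟩
  have hMrot : ∀ R ∈ M, Rot R := by
    intro R hR
    rw [hM, List.mem_flatten] at hR
    obtain ⟨L', hL', hR⟩ := hR
    obtain ⟨i, rfl⟩ := List.mem_ofFn.1 hL'
    exact hL i R hR
  have hMprod : M.prod = 1 := by
    rw [hM, List.prod_flatten, List.map_ofFn, ← hprod]
    congr 1
    congr 1
    ext i : 1
    exact hLprod i
  have hMsum : (M.map fun R => ang R.det).sum = ∑ i, age (X i) := by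
    rw [hM, List.map_flatten, List.sum_flatten, List.map_map, List.map_ofFn, List.sum_ofFn]
    exact Finset.sum_congr rfl fun i _ => hLsum i
  obtain ⟨-, a, ha, hdim⟩ := list_age M hMrot
  have hage1 : age (1 : Matrix (Fin d) (Fin d) ℂ) = 0 := by
    have := age_diag (d := d) (U := 1) (unitaryGroup (Fin d) ℂ).one_mem (fun _ => 1)
    simp only [ang_one, sum_const_zero] at this
    rw [← this]
    congr 1
    simp
  have hfix1 : fixS (1 : Matrix (Fin d) (Fin d) ℂ) = ⊤ := by
    ext w
    simp [mem_fixS]
  have hcom : comS M = ⊥ := by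
    rw [eq_bot_iff]
    intro w hw
    rw [Submodule.mem_bot]
    apply hfix w
    intro i
    have h1 : w ∈ comS (L i) := fun R hR => hw R (hMmem i R hR)
    have h2 := comS_le (L i) h1
    rw [hLprod i] at h2
    exact h2
  rw [hMprod, hfix1, hcom, finrank_top, finrank_bot, Module.finrank_fintype_fun_eq_card,
    Fintype.card_fin] at hdim
  rw [hMprod, hage1, zero_add, hMsum] at ha
  have hda : (d : ℤ) ≤ a := by simpa using hdim
  refine ⟨(a - d).toNat, ?_⟩
  rw [ha]
  have h3 : ((a - d).toNat : ℤ) = a - d := Int.toNat_of_nonneg (by omega)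
  have h4 : (((a - d).toNat : ℤ) : ℝ) = ((a - d : ℤ) : ℝ) := by rw [h3]
  push_cast at h4
  rw [h4]
  ring

end Pool.Agent.CO30
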