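import Pool.Agent.CO30.AgeSpec

/-!
# Products of rank one rotations
-/

set_option autoImplicit false

namespace Pool.Agent.CO30

open Finset Matrix MeasureTheory
open scoped ComplexConjugate

variable {d : ℕ}

theorem integral_step {a : ℝ} (ha0 : 0 ≤ a) (ha1 : a ≤ 1) :
    IntervalIntegrable (fun s : ℝ => if s < a then (1 : ℝ) else 0) volume 0 1 ∧
      ∫ s in (0 : ℝ)..1, (if s < a then (1 : ℝ) else 0) = a := by
  have h1 : IntervalIntegrable (fun s : ℝ => if s < a then (1 : ℝ) else 0) volume 0 a := by
    have h : IntervalIntegrable (fun _ : ℝ => (1 : ℝ)) volume 0 a := intervalIntegrable_const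
    refine h.congr_ae ?_
    rw [Filter.EventuallyEq, ae_restrict_iff' measurableSet_uIoc]
    have h2 : ∀ᵐ x : ℝ ∂volume, x ≠ a := by
      have : volume ({a} : Set ℝ) = 0 := Real.volume_singleton
      exact (measure_eq_zero_iff_ae_notMem.1 this).mono fun x hx h => hx h
    filter_upwards [h2] with x hx hx'
    rw [Set.uIoc_of_le ha0] at hx'
    rw [if_pos (lt_of_le_of_ne hx'.2 hx)]
  have h2 : IntervalIntegrable (fun s : ℝ => if s < a then (1 : ℝ) else 0) volume a 1 := by
    have h : IntervalIntegrable (fun _ : ℝ => (0 : ℝ)) volume a 1 := intervalIntegrable_const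
    refine h.congr ?_
    intro x hx
    rw [Set.uIoc_of_le ha1] at hx
    simp only
    rw [if_neg (not_lt.2 hx.1.le)]
  refine ⟨h1.trans h2, ?_⟩
  rw [← intervalIntegral.integral_add_adjacent_intervals h1 h2]
  have h3 : ∫ s in (0 : ℝ)..a, (if s < a then (1 : ℝ) else 0) = ∫ _ in (0 : ℝ)..a, (1 : ℝ) := by
    apply intervalIntegral.integral_congr_ae
    have h2 : ∀ᵐ x : ℝ ∂volume, x ≠ a := by
      have : volume ({a} : Set ℝ) = 0 := Real.volume_singleton
      exact (measure_eq_zero_iff_ae_notMem.1 this).mono fun x hx h => hx h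
    filter_upwards [h2] with x hx hx'
    rw [Set.uIoc_of_le ha0] at hx'
    rw [if_pos (lt_of_le_of_ne hx'.2 hx)]
  have h4 : ∫ s in a..(1 : ℝ), (if s < a then (1 : ℝ) else 0) = ∫ _ in a..(1 : ℝ), (0 : ℝ) := by
    apply intervalIntegral.integral_congr_ae
    refine Filter.Eventually.of_forall fun x hx => ?_
    rw [Set.uIoc_of_le ha1] at hx
    rw [if_neg (not_lt.2 hx.1.le)]
  rw [h3, h4]
  simp

theorem integral_cnt (l : Fin d → ℂ) :
    IntervalIntegrable (fun s : ℝ => (cnt s l : ℝ)) volume 0 1 ∧
      ∫ s in (0 : ℝ)..1, (cnt s l : ℝ) = ∑ k, ang (l k) := by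
  have h0 : (fun s : ℝ => (cnt s l : ℝ)) = fun s : ℝ => ∑ k, (if s < ang (l k) then (1 : ℝ) else 0) := by
    ext s
    rw [cnt, Finset.card_filter]
    push_cast
    rfl
  rw [h0]
  constructor
  · have := IntervalIntegrable.sum (Finset.univ : Finset (Fin d))
      (f := fun k (s : ℝ) => (if s < ang (l k) then (1 : ℝ) else 0)) (μ := volume) (a := 0) (b := 1)
      (fun k _ => (integral_step (ang_nonneg _) (ang_lt_one _).le).1)
    convert! this using 1
    ext s
    simp
  · rw [intervalIntegral.integral_finsetSum fun k _ =>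
      (integral_step (ang_nonneg _) (ang_lt_one _).le).1]
    exact Finset.sum_congr rfl fun k _ => (integral_step (ang_nonneg _) (ang_lt_one _).le).2

theorem sum_ang_le' {l m : Fin d → ℂ} {c : ℕ}
    (h : ∀ s : ℝ, 0 ≤ s → s < 1 → cnt s m ≤ cnt s l + c) :
    ∑ k, ang (m k) ≤ ∑ k, ang (l k) + c := by
  have h1 := integral_cnt l
  have h2 := integral_cnt m
  have h3 : ∫ s in (0 : ℝ)..1, (cnt s m : ℝ) ≤ ∫ s in (0 : ℝ)..1, ((cnt s l : ℝ) + c) := by
    apply intervalIntegral.integral_mono_on_of_le_Ioo zero_le_one h2.1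
      (h1.1.add intervalIntegrable_const)
    intro s hs
    exact_mod_cast h s hs.1.le hs.2
  rw [h2.2, intervalIntegral.integral_add h1.1 intervalIntegrable_const, h1.2] at h3
  simpa using h3

theorem exp_age' {X : Matrix (Fin d) (Fin d) ℂ} (hX : X ∈ unitaryGroup (Fin d) ℂ) :
    Complex.exp ((2 * Real.pi * age X : ℝ) * Complex.I) = X.det := by
  obtain ⟨U, hU, l, hl, rfl⟩ := exists_diag hX
  have h1 : U.det * (star U).det = 1 := by
    rw [← det_mul, mem_unitaryGroup_iff.1 hU, det_one]
  have h2 : (U * diagonal l * star U).det = ∏ k, l k := by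
    rw [det_mul, det_mul, det_diagonal]
    linear_combination (∏ k, l k) * h1
  rw [age_diag hU, h2, Finset.mul_sum]
  push_cast
  rw [Finset.sum_mul, Complex.exp_sum]
  refine Finset.prod_congr rfl fun k _ => ?_
  have := exp_ang (hl k)
  push_cast at this
  exact this

/-- fixed space -/
def fixS (X : Matrix (Fin d) (Fin d) ℂ) : Submodule ℂ (Fin d → ℂ) where
  carrier := {w | X *ᵥ w = w}
  add_mem' := by
    intro a b ha hb
    show X *ᵥ (a + b) = a + b
    rw [mulVec_add, ha, hb]
  zero_mem' := by simp
  smul_mem' := by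
    intro c x hx
    show X *ᵥ (c • x) = c • x
    rw [mulVec_smul, hx]

theorem mem_fixS {X : Matrix (Fin d) (Fin d) ℂ} {w : Fin d → ℂ} : w ∈ fixS X ↔ X *ᵥ w = w :=
  Iff.rfl

/-- common fixed space -/
def comS (L : List (Matrix (Fin d) (Fin d) ℂ)) : Submodule ℂ (Fin d → ℂ) where
  carrier := {w | ∀ R ∈ L, R *ᵥ w = w}
  add_mem' := by
    intro a b ha hb R hR
    rw [mulVec_add, ha R hR, hb R hR]
  zero_mem' := by simp
  smul_mem' := by
    intro c x hx R hR
    rw [mulVec_smul, hx R hR]

theorem mem_comS {L : List (Matrix (Fin d) (Fin d) ℂ)} {w : Fin d → ℂ} :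
    w ∈ comS L ↔ ∀ R ∈ L, R *ᵥ w = w := Iff.rfl

theorem comS_le (L : List (Matrix (Fin d) (Fin d) ℂ)) : comS L ≤ fixS L.prod := by
  intro w hw
  rw [mem_fixS]
  induction L with
  | nil => simp
  | cons R L ih =>
    rw [List.prod_cons, ← mulVec_mulVec, ih (fun R' hR' => hw R' (List.mem_cons_of_mem _ hR'))]
    exact hw R List.mem_cons_self

/-- rank one rotations -/
structure Rot (R : Matrix (Fin d) (Fin d) ℂ) : Prop where
  mem : R ∈ unitaryGroup (Fin d) ℂ
  fix : ∃ φ : (Fin d → ℂ) →ₗ[ℂ] ℂ, ∀ w, φ w = 0 → R *ᵥ w = w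
  one : ang R.det = 0 → R = 1

theorem list_age (L : List (Matrix (Fin d) (Fin d) ℂ)) (hL : ∀ R ∈ L, Rot R) :
    L.prod ∈ unitaryGroup (Fin d) ℂ ∧ ∃ a : ℤ, (L.map fun R => ang R.det).sum = age L.prod + a ∧
      (Module.finrank ℂ (fixS L.prod) : ℤ) ≤ a + Module.finrank ℂ (comS L) := by
  induction L with
  | nil =>
    refine ⟨by simp, 0, ?_, ?_⟩
    · have h1 : age (1 : Matrix (Fin d) (Fin d) ℂ) = 0 := by
        have := age_diag (d := d) (U := 1) (unitaryGroup (Fin d) ℂ).one_mem (fun _ => 1)
        simp only [ang_one, sum_const_zero] at this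
        rw [← this]
        congr 1
        simp
      simp [h1]
    · have h1 : fixS (([] : List (Matrix (Fin d) (Fin d) ℂ)).prod) = comS [] := by
        ext w
        simp [mem_fixS, mem_comS]
      rw [h1]
      simp
  | cons R L ih =>
    obtain ⟨hQ, a, ha, hdim⟩ := ih (fun R' hR' => hL R' (List.mem_cons_of_mem _ hR'))
    have hR := hL R List.mem_cons_self
    set Q := L.prod with hQdef
    have hQ' : R * Q ∈ unitaryGroup (Fin d) ℂ := (unitaryGroup (Fin d) ℂ).mul_mem hR.mem hQ
    rw [List.prod_cons, ← hQdef]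
    refine ⟨hQ', ?_⟩
    -- the integer
    have hdet : ‖R.det‖ = 1 := by
      have h1 : R.det ∈ unitary ℂ := Matrix.det_of_mem_unitary hR.mem
      exact CStarRing.norm_of_mem_unitary h1
    obtain ⟨δ, hδ⟩ : ∃ δ : ℤ, ang R.det + age Q - age (R * Q) = δ := by
      have h1 : Complex.exp ((2 * Real.pi * (ang R.det + age Q - age (R * Q)) : ℝ) * Complex.I) = 1 := by
        have e1 : ((2 * Real.pi * (ang R.det + age Q - age (R * Q)) : ℝ) : ℂ) * Complex.I =
            ((2 * Real.pi * ang R.det : ℝ) : ℂ) * Complex.I +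
              ((2 * Real.pi * age Q : ℝ) : ℂ) * Complex.I -
              ((2 * Real.pi * age (R * Q) : ℝ) : ℂ) * Complex.I := by
          push_cast
          ring
        rw [e1, Complex.exp_sub, Complex.exp_add, exp_ang hdet, exp_age' hQ, exp_age' hQ', det_mul]
        have h2 : R.det * Q.det ≠ 0 := by
          rw [← det_mul]
          intro h0
          have h3 : ‖(R * Q).det‖ = 1 :=
            CStarRing.norm_of_mem_unitary (Matrix.det_of_mem_unitary hQ')
          rw [h0, norm_zero] at h3
          exact zero_ne_one h3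
        rw [div_self h2]
      rw [Complex.exp_eq_one_iff] at h1
      obtain ⟨n, hn⟩ := h1
      refine ⟨n, ?_⟩
      have hpi : (Real.pi : ℂ) ≠ 0 := by exact_mod_cast Real.pi_ne_zero
      have h2 : ((ang R.det + age Q - age (R * Q) : ℝ) : ℂ) = n := by
        have h3 : (2 * (Real.pi : ℂ) * Complex.I) ≠ 0 := by
          simp [Complex.I_ne_zero, Real.pi_ne_zero]
        apply mul_left_cancel₀ h3
        push_cast at hn ⊢
        linear_combination hn
      exact_mod_cast h2
    refine ⟨a + δ, ?_, ?_⟩
    · rw [List.map_cons, List.sum_cons, ha]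
      push_cast
      linarith
    · by_cases hone : ang R.det = 0
      · -- trivial rotation
        have h1 := hR.one hone
        subst h1
        rw [one_mul] at hδ ⊢
        have h2 : δ = 0 := by
          have : (δ : ℝ) = 0 := by rw [← hδ, hone]; ring
          exact_mod_cast this
        have h3 : comS (1 :: L) = comS L := by
          ext w
          simp [mem_comS]
        rw [h2, h3, add_zero]
        exact hdim
      · have hpos : 0 < ang R.det := lt_of_le_of_ne (ang_nonneg _) (Ne.symm hone)
        obtain ⟨φ, hφ⟩ := hR.fix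
        obtain ⟨U, hU, l, hl, hQU⟩ := exists_diag hQ
        obtain ⟨V, hV, m, hm, hQV⟩ := exists_diag hQ'
        set ψ : (Fin d → ℂ) →ₗ[ℂ] ℂ := φ.comp (Matrix.mulVecLin Q) with hψ
        have hψ0 : ∀ w, ψ w = 0 → (R * Q) *ᵥ w = Q *ᵥ w := by
          intro w hw
          rw [← mulVec_mulVec]
          exact hφ _ hw
        have hψ' : ∀ w, ψ w = 0 → (V * diagonal m * star V) *ᵥ w = (U * diagonal l * star U) *ᵥ w := by
          intro w hw
          rw [← hQU, ← hQV]
          exact hψ0 w hw
        have hageQ : age Q = ∑ k, ang (l k) := by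
          conv_lhs => rw [hQU]
          exact age_diag hU l
        have hageQ' : age (R * Q) = ∑ k, ang (m k) := by
          conv_lhs => rw [hQV]
          exact age_diag hV m
        have hδ0 : 0 ≤ δ := by
          have h1 : age (R * Q) ≤ age Q + 1 := by
            rw [hageQ, hageQ']
            exact_mod_cast sum_ang_le' (c := 1) fun s hs0 hs1 =>
              cnt_le_succ hU hV hl hm ψ hψ' hs0 hs1
          have h2 : (-1 : ℝ) < δ := by rw [← hδ]; linarith
          have h3 : (-1 : ℤ) < δ := by exact_mod_cast h2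
          omega
        set K := LinearMap.ker ψ with hK
        have hinf : fixS (R * Q) ⊓ K = fixS Q ⊓ K := by
          ext w
          rw [Submodule.mem_inf, Submodule.mem_inf, mem_fixS, mem_fixS, hK, LinearMap.mem_ker]
          constructor
          · rintro ⟨h1, h2⟩
            rw [hψ0 w h2] at h1
            exact ⟨h1, h2⟩
          · rintro ⟨h1, h2⟩
            rw [hψ0 w h2]
            exact ⟨h1, h2⟩
        have hA : (Module.finrank ℂ (fixS (R * Q)) : ℤ) ≤
            Module.finrank ℂ ↥(fixS (R * Q) ⊓ K) + δ := by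
          by_cases hu : ∃ u, (R * Q) *ᵥ u = u ∧ ψ u ≠ 0
          · obtain ⟨u, hu1, hu2⟩ := hu
            have h1 : age (R * Q) ≤ age Q := by
              rw [hageQ, hageQ']
              have := sum_ang_le' (c := 0) (l := l) (m := m) fun s hs0 hs1 => by
                rw [add_zero]
                exact cnt_le hU hV hl hm ψ hψ' (u := u) (by rw [← hQV]; exact hu1) hu2 hs0 hs1
              simpa using this
            have h2 : (0 : ℝ) < δ := by rw [← hδ]; linarith
            have h3 : (0 : ℤ) < δ := by exact_mod_cast h2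
            have h4 := Submodule.finrank_sup_add_finrank_inf_eq (fixS (R * Q)) K
            have h5 : Module.finrank ℂ ↥(fixS (R * Q) ⊔ K) ≤ d := by
              have := Submodule.finrank_le (fixS (R * Q) ⊔ K)
              simpa using this
            have h6 := LinearMap.finrank_range_add_finrank_ker ψ
            have h7 : Module.finrank ℂ (LinearMap.range ψ) ≤ 1 := by
              have := Submodule.finrank_le (LinearMap.range ψ)
              simpa using this
            rw [Module.finrank_fintype_fun_eq_card, Fintype.card_fin, ← hK] at h6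
            omega
          · push Not at hu
            have h1 : fixS (R * Q) ⊓ K = fixS (R * Q) := by
              apply inf_eq_left.2
              intro w hw
              rw [hK, LinearMap.mem_ker]
              exact hu w hw
            rw [h1]
            omega
        have hcom : comS L ⊓ K ≤ comS (R :: L) := by
          intro w hw
          rw [Submodule.mem_inf] at hw
          intro R' hR'
          rcases List.mem_cons.1 hR' with h1 | h1
          · subst h1
            have h2 : Q *ᵥ w = w := comS_le L hw.1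
            have h3 : ψ w = 0 := hw.2
            have h4 := hψ0 w h3
            rw [← mulVec_mulVec, h2] at h4
            exact h4
          · exact hw.1 R' h1
        have hB : Module.finrank ℂ ↥(comS L ⊓ K) ≤ Module.finrank ℂ (comS (R :: L)) :=
          Submodule.finrank_mono hcom
        have hC : Module.finrank ℂ ↥(fixS Q ⊓ K) + Module.finrank ℂ (comS L) ≤
            Module.finrank ℂ (fixS Q) + Module.finrank ℂ ↥(comS L ⊓ K) := by
          have h1 := Submodule.finrank_sup_add_finrank_inf_eq (fixS Q ⊓ K) (comS L)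
          have h2 : (fixS Q ⊓ K) ⊓ comS L = comS L ⊓ K := by
            apply le_antisymm
            · exact fun w hw => ⟨hw.2, hw.1.2⟩
            · exact fun w hw => ⟨⟨comS_le L hw.1, hw.2⟩, hw.1⟩
          have h3 : Module.finrank ℂ ↥((fixS Q ⊓ K) ⊔ comS L) ≤ Module.finrank ℂ (fixS Q) :=
            Submodule.finrank_mono (sup_le inf_le_left (comS_le L))
          rw [h2] at h1
          omega
        rw [hinf] at hA
        omega

end Pool.Agent.CO30
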