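import Pool.Agent.CO30.Defs

/-!
# Comparison of the ages of two unitary matrices which agree on a hyperplane
-/

set_option autoImplicit false

namespace Pool.Agent.CO30

open Finset Matrix
open scoped ComplexConjugate

variable {d : ℕ}

/-- A form of signature given by the eigenangles. -/
noncomputable def hform (s : ℝ) (X : Matrix (Fin d) (Fin d) ℂ) (w : Fin d → ℂ) : ℝ :=
  (Complex.exp ((-(Real.pi * s) : ℝ) * Complex.I) * (star w ⬝ᵥ (X *ᵥ w))).re -
    Real.cos (Real.pi * s) * (star w ⬝ᵥ w).re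

theorem ang_nonneg (z : ℂ) : 0 ≤ ang z := Int.fract_nonneg _

theorem ang_lt_one (z : ℂ) : ang z < 1 := Int.fract_lt_one _

theorem exp_ang {z : ℂ} (hz : ‖z‖ = 1) : Complex.exp ((2 * Real.pi * ang z : ℝ) * Complex.I) = z := by
  have h1 : z = Complex.exp ((Complex.arg z : ℝ) * Complex.I) := by
    conv_lhs => rw [← Complex.norm_mul_exp_arg_mul_I z, hz]
    simp
  conv_rhs => rw [h1]
  rw [Complex.exp_eq_exp_iff_exists_int]
  refine ⟨-⌊Complex.arg z / (2 * Real.pi)⌋, ?_⟩
  have h2 : ang z = Complex.arg z / (2 * Real.pi) - ⌊Complex.arg z / (2 * Real.pi)⌋ := rfl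
  have hpi : (Real.pi : ℂ) ≠ 0 := by exact_mod_cast Real.pi_ne_zero
  rw [h2]
  push_cast
  field_simp
  ring

theorem ang_one : ang 1 = 0 := by
  simp [ang]

/-- The weight of an eigenvalue in `hform`. -/
theorem re_exp_mul {z : ℂ} (hz : ‖z‖ = 1) (s : ℝ) :
    (Complex.exp ((-(Real.pi * s) : ℝ) * Complex.I) * z).re - Real.cos (Real.pi * s) =
      -2 * (Real.sin (Real.pi * ang z) * Real.sin (Real.pi * (ang z - s))) := by
  conv_lhs => rw [← exp_ang hz]
  rw [← Complex.exp_add, ← add_mul, ← Complex.ofReal_add, Complex.exp_ofReal_mul_I_re,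
    Real.cos_sub_cos]
  have h1 : (-(Real.pi * s) + 2 * Real.pi * ang z + Real.pi * s) / 2 = Real.pi * ang z := by ring
  have h2 : (-(Real.pi * s) + 2 * Real.pi * ang z - Real.pi * s) / 2 =
      Real.pi * (ang z - s) := by ring
  rw [h1, h2]
  ring

theorem hform_diag {U : Matrix (Fin d) (Fin d) ℂ} (hU : U ∈ unitaryGroup (Fin d) ℂ)
    {l : Fin d → ℂ} (hl : ∀ k, ‖l k‖ = 1) (s : ℝ) (w : Fin d → ℂ) :
    hform s (U * diagonal l * star U) w = -2 * ∑ k, ‖(star U *ᵥ w) k‖ ^ 2 *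
      (Real.sin (Real.pi * ang (l k)) * Real.sin (Real.pi * (ang (l k) - s))) := by
  set b := star U *ᵥ w with hb
  have h1 : star w ⬝ᵥ ((U * diagonal l * star U) *ᵥ w) = star b ⬝ᵥ (diagonal l *ᵥ b) := by
    rw [← mulVec_mulVec, ← mulVec_mulVec, ← hb, dotProduct_mulVec, hb, star_mulVec]
    simp [star_eq_conjTranspose]
  have h2 : star w ⬝ᵥ w = star b ⬝ᵥ b := by
    rw [hb, star_mulVec, dotProduct_mulVec, vecMul_vecMul]
    have h3 := (mem_unitaryGroup_iff.1 hU)
    rw [star_eq_conjTranspose] at h3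
    simp [star_eq_conjTranspose, h3]
  have h4 : ∀ k, star (b k) * b k = ((‖b k‖ ^ 2 : ℝ) : ℂ) := by
    intro k
    rw [Complex.star_def, ← Complex.normSq_eq_conj_mul_self, Complex.normSq_eq_norm_sq]
  rw [hform, h1, h2]
  simp only [dotProduct, mulVec_diagonal, Pi.star_apply]
  rw [Finset.mul_sum, Complex.re_sum, Complex.re_sum, Finset.mul_sum, Finset.mul_sum,
    ← Finset.sum_sub_distrib]
  refine Finset.sum_congr rfl fun k _ => ?_
  have h5 : Complex.exp ((-(Real.pi * s) : ℝ) * Complex.I) * (star (b k) * (l k * b k)) =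
      ((‖b k‖ ^ 2 : ℝ) : ℂ) * (Complex.exp ((-(Real.pi * s) : ℝ) * Complex.I) * l k) := by
    rw [← h4]
    ring
  rw [h5, h4, Complex.re_ofReal_mul, Complex.ofReal_re]
  have h6 := re_exp_mul (hl k) s
  linear_combination (‖b k‖ ^ 2) * h6

theorem hform_congr {Q Q' : Matrix (Fin d) (Fin d) ℂ} {w : Fin d → ℂ} (h : Q' *ᵥ w = Q *ᵥ w)
    (s : ℝ) : hform s Q' w = hform s Q w := by
  rw [hform, hform, h]

theorem weight_pos {a s : ℝ} (ha1 : a < 1) (hs : 0 ≤ s) (h : s < a) :
    0 < Real.sin (Real.pi * a) * Real.sin (Real.pi * (a - s)) := by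
  have hpi := Real.pi_pos
  apply mul_pos
  · apply Real.sin_pos_of_pos_of_lt_pi
    · exact mul_pos hpi (lt_of_le_of_lt hs h)
    · nlinarith
  · apply Real.sin_pos_of_pos_of_lt_pi
    · exact mul_pos hpi (by linarith)
    · nlinarith

theorem weight_nonpos {a s : ℝ} (ha0 : 0 ≤ a) (ha1 : a < 1) (hs : s < 1) (h : a ≤ s) :
    Real.sin (Real.pi * a) * Real.sin (Real.pi * (a - s)) ≤ 0 := by
  have hpi := Real.pi_pos
  apply mul_nonpos_of_nonneg_of_nonpos
  · apply Real.sin_nonneg_of_nonneg_of_le_pi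
    · exact mul_nonneg hpi.le ha0
    · nlinarith
  · apply Real.sin_nonpos_of_nonpos_of_neg_pi_le
    · exact mul_nonpos_of_nonneg_of_nonpos hpi.le (by linarith)
    · nlinarith

/-- The number of eigenangles beyond `s`. -/
noncomputable def cnt (s : ℝ) (l : Fin d → ℂ) : ℕ := (univ.filter fun k => s < ang (l k)).card

/-- extension by zero -/
noncomputable def ext0 (s : ℝ) (l : Fin d → ℂ) :
    ({k // k ∈ univ.filter fun k => s < ang (l k)} → ℂ) →ₗ[ℂ] (Fin d → ℂ) where
  toFun c k := if h : k ∈ univ.filter fun k => s < ang (l k) then c ⟨k, h⟩ else 0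
  map_add' c c' := by
    ext k
    by_cases h : k ∈ univ.filter fun k => s < ang (l k)
    · simp only [h, ↓reduceDIte, Pi.add_apply]
    · simp only [h, ↓reduceDIte, Pi.add_apply, add_zero]
  map_smul' a c := by
    ext k
    by_cases h : k ∈ univ.filter fun k => s < ang (l k)
    · simp only [h, ↓reduceDIte, Pi.smul_apply, RingHom.id_apply]
    · simp only [h, ↓reduceDIte, Pi.smul_apply, RingHom.id_apply, smul_zero]

/-- Nonnegativity of the form on the complement of the negative space. -/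
theorem hform_nonneg {U : Matrix (Fin d) (Fin d) ℂ} (hU : U ∈ unitaryGroup (Fin d) ℂ)
    {l : Fin d → ℂ} (hl : ∀ k, ‖l k‖ = 1) {s : ℝ} (hs1 : s < 1) {w : Fin d → ℂ}
    (hw : ∀ k, s < ang (l k) → (star U *ᵥ w) k = 0) :
    0 ≤ hform s (U * diagonal l * star U) w := by
  rw [hform_diag hU hl]
  have : ∑ k, ‖(star U *ᵥ w) k‖ ^ 2 *
      (Real.sin (Real.pi * ang (l k)) * Real.sin (Real.pi * (ang (l k) - s))) ≤ 0 := by
    refine Finset.sum_nonpos fun k _ => ?_
    by_cases h : s < ang (l k)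
    · rw [hw k h]
      simp
    · exact mul_nonpos_of_nonneg_of_nonpos (by positivity)
        (weight_nonpos (ang_nonneg _) (ang_lt_one _) hs1 (not_lt.1 h))
  linarith

/-- Negativity of the form. -/
theorem hform_neg {U : Matrix (Fin d) (Fin d) ℂ} (hU : U ∈ unitaryGroup (Fin d) ℂ)
    {l : Fin d → ℂ} (hl : ∀ k, ‖l k‖ = 1) {s : ℝ} (hs0 : 0 ≤ s) {w : Fin d → ℂ}
    (hw : ∀ k, ¬ s < ang (l k) → (star U *ᵥ w) k ≠ 0 → ang (l k) = 0)
    (hw' : ∃ k, s < ang (l k) ∧ (star U *ᵥ w) k ≠ 0) :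
    hform s (U * diagonal l * star U) w < 0 := by
  rw [hform_diag hU hl]
  have hnn : ∀ k ∈ univ, 0 ≤ ‖(star U *ᵥ w) k‖ ^ 2 *
      (Real.sin (Real.pi * ang (l k)) * Real.sin (Real.pi * (ang (l k) - s))) := by
    intro k _
    by_cases h : s < ang (l k)
    · exact mul_nonneg (by positivity) (weight_pos (ang_lt_one _) hs0 h).le
    · by_cases h' : (star U *ᵥ w) k = 0
      · rw [h']
        simp
      · rw [hw k h h']
        simp
  obtain ⟨k₀, hk₀, hk₀'⟩ := hw'
  have : 0 < ∑ k, ‖(star U *ᵥ w) k‖ ^ 2 *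
      (Real.sin (Real.pi * ang (l k)) * Real.sin (Real.pi * (ang (l k) - s))) := by
    refine Finset.sum_pos' hnn ⟨k₀, mem_univ _, ?_⟩
    have h1 : 0 < ‖(star U *ᵥ w) k₀‖ := norm_pos_iff.2 hk₀'
    exact mul_pos (by positivity) (weight_pos (ang_lt_one _) hs0 hk₀)
  linarith

theorem star_mulVec_mulVec {U : Matrix (Fin d) (Fin d) ℂ} (hU : U ∈ unitaryGroup (Fin d) ℂ)
    (w : Fin d → ℂ) : star U *ᵥ (U *ᵥ w) = w := by
  rw [mulVec_mulVec, mem_unitaryGroup_iff'.1 hU, one_mulVec]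

theorem cnt_le_succ {U V : Matrix (Fin d) (Fin d) ℂ} (hU : U ∈ unitaryGroup (Fin d) ℂ)
    (hV : V ∈ unitaryGroup (Fin d) ℂ) {l m : Fin d → ℂ} (hl : ∀ k, ‖l k‖ = 1)
    (hm : ∀ k, ‖m k‖ = 1) (φ : (Fin d → ℂ) →ₗ[ℂ] ℂ)
    (hφ : ∀ w, φ w = 0 → (V * diagonal m * star V) *ᵥ w = (U * diagonal l * star U) *ᵥ w)
    {s : ℝ} (hs0 : 0 ≤ s) (hs1 : s < 1) : cnt s m ≤ cnt s l + 1 := by
  by_contra hcon
  push Not at hcon
  set W : ({k // k ∈ univ.filter fun k => s < ang (m k)} → ℂ) →ₗ[ℂ] (Fin d → ℂ) :=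
    (Matrix.mulVecLin V).comp (ext0 s m) with hW
  set T : ({k // k ∈ univ.filter fun k => s < ang (m k)} → ℂ) →ₗ[ℂ]
      (({k // k ∈ univ.filter fun k => s < ang (l k)} → ℂ) × ℂ) :=
    (((LinearMap.funLeft ℂ ℂ (fun k : {k // k ∈ univ.filter fun k => s < ang (l k)} => (k : Fin d))).comp
      (Matrix.mulVecLin (star U))).comp W).prod (φ.comp W) with hT
  have hker : LinearMap.ker T ≠ ⊥ := by
    apply LinearMap.ker_ne_bot_of_finrank_lt
    rw [Module.finrank_prod, Module.finrank_fintype_fun_eq_card, Module.finrank_fintype_fun_eq_card,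
      Module.finrank_self, Fintype.card_coe, Fintype.card_coe]
    exact hcon
  obtain ⟨c, hc, hc0⟩ := Submodule.exists_mem_ne_zero_of_ne_bot hker
  rw [LinearMap.mem_ker, hT] at hc
  have hc1 := congrArg Prod.fst hc
  have hc2 := congrArg Prod.snd hc
  have h1 : hform s (V * diagonal m * star V) (W c) = hform s (U * diagonal l * star U) (W c) :=
    hform_congr (hφ _ hc2) s
  have h2 : 0 ≤ hform s (U * diagonal l * star U) (W c) := by
    apply hform_nonneg hU hl hs1
    intro k hk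
    have := congrFun hc1 ⟨k, by simp [hk]⟩
    exact this
  have h3 : star V *ᵥ (W c) = ext0 s m c := by
    rw [hW, LinearMap.comp_apply, Matrix.mulVecLin_apply, star_mulVec_mulVec hV]
  have h4 : hform s (V * diagonal m * star V) (W c) < 0 := by
    apply hform_neg hV hm hs0
    · intro k hk hk'
      exfalso
      apply hk'
      rw [h3]
      simp [ext0, hk]
    · by_contra hcon2
      push Not at hcon2
      apply hc0
      ext ⟨k, hk⟩
      have h5 := hcon2 k (by simpa using hk)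
      rw [h3] at h5
      simpa [ext0, (by simpa using hk : s < ang (m k))] using h5
  linarith

theorem cnt_le {U V : Matrix (Fin d) (Fin d) ℂ} (hU : U ∈ unitaryGroup (Fin d) ℂ)
    (hV : V ∈ unitaryGroup (Fin d) ℂ) {l m : Fin d → ℂ} (hl : ∀ k, ‖l k‖ = 1)
    (hm : ∀ k, ‖m k‖ = 1) (φ : (Fin d → ℂ) →ₗ[ℂ] ℂ)
    (hφ : ∀ w, φ w = 0 → (V * diagonal m * star V) *ᵥ w = (U * diagonal l * star U) *ᵥ w)
    {u : Fin d → ℂ} (hu : (V * diagonal m * star V) *ᵥ u = u) (hφu : φ u ≠ 0)
    {s : ℝ} (hs0 : 0 ≤ s) (hs1 : s < 1) : cnt s m ≤ cnt s l := by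
  by_contra hcon
  push Not at hcon
  -- the support of `u`
  have hsupp : ∀ k, (star V *ᵥ u) k ≠ 0 → ang (m k) = 0 := by
    intro k hk
    have h1 : star V *ᵥ ((V * diagonal m * star V) *ᵥ u) = star V *ᵥ u := by rw [hu]
    rw [← mulVec_mulVec, ← mulVec_mulVec, star_mulVec_mulVec hV] at h1
    have h2 := congrFun h1 k
    rw [mulVec_diagonal] at h2
    have h3 : m k = 1 := by
      have h4 : (m k - 1) * (star V *ᵥ u) k = 0 := by linear_combination h2
      rcases mul_eq_zero.1 h4 with h5 | h5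
      · linear_combination h5
      · exact absurd h5 hk
    rw [h3, ang_one]
  set W₀ : ({k // k ∈ univ.filter fun k => s < ang (m k)} → ℂ) →ₗ[ℂ] (Fin d → ℂ) :=
    (Matrix.mulVecLin V).comp (ext0 s m) with hW₀
  set W : ({k // k ∈ univ.filter fun k => s < ang (m k)} → ℂ) →ₗ[ℂ] (Fin d → ℂ) :=
    W₀ - ((φ u)⁻¹ • (LinearMap.toSpanSingleton ℂ (Fin d → ℂ) u).comp (φ.comp W₀)) with hW
  have hWapp : ∀ c, W c = W₀ c - ((φ u)⁻¹ * φ (W₀ c)) • u := by
    intro c
    rw [hW]
    show W₀ c - (φ u)⁻¹ • (φ (W₀ c) • u) = _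
    rw [smul_smul]
  have hφW : ∀ c, φ (W c) = 0 := by
    intro c
    rw [hWapp, map_sub, map_smul, smul_eq_mul]
    field_simp
    ring
  set T : ({k // k ∈ univ.filter fun k => s < ang (m k)} → ℂ) →ₗ[ℂ]
      ({k // k ∈ univ.filter fun k => s < ang (l k)} → ℂ) :=
    ((LinearMap.funLeft ℂ ℂ (fun k : {k // k ∈ univ.filter fun k => s < ang (l k)} => (k : Fin d))).comp
      (Matrix.mulVecLin (star U))).comp W with hT
  have hker : LinearMap.ker T ≠ ⊥ := by
    apply LinearMap.ker_ne_bot_of_finrank_lt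
    rw [Module.finrank_fintype_fun_eq_card, Module.finrank_fintype_fun_eq_card,
      Fintype.card_coe, Fintype.card_coe]
    exact hcon
  obtain ⟨c, hc, hc0⟩ := Submodule.exists_mem_ne_zero_of_ne_bot hker
  rw [LinearMap.mem_ker] at hc
  have h1 : hform s (V * diagonal m * star V) (W c) = hform s (U * diagonal l * star U) (W c) :=
    hform_congr (hφ _ (hφW c)) s
  have h2 : 0 ≤ hform s (U * diagonal l * star U) (W c) := by
    apply hform_nonneg hU hl hs1
    intro k hk
    have := congrFun hc ⟨k, by simp [hk]⟩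
    exact this
  have h3 : ∀ k, (star V *ᵥ (W c)) k = ext0 s m c k -
      ((φ u)⁻¹ * φ (W₀ c)) * (star V *ᵥ u) k := by
    intro k
    rw [hWapp, mulVec_sub, mulVec_smul, hW₀, LinearMap.comp_apply, Matrix.mulVecLin_apply,
      star_mulVec_mulVec hV]
    rfl
  have hext : ∀ k, ¬ s < ang (m k) → ext0 s m c k = 0 := by
    intro k hk
    simp [ext0, hk]
  have h4 : hform s (V * diagonal m * star V) (W c) < 0 := by
    apply hform_neg hV hm hs0
    · intro k hk hk'
      apply hsupp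
      intro h0
      apply hk'
      rw [h3, hext k hk, h0]
      ring
    · by_contra hcon2
      push Not at hcon2
      apply hc0
      ext ⟨k, hk⟩
      have hk' : s < ang (m k) := by simpa using hk
      have h5 := hcon2 k hk'
      have h6 : (star V *ᵥ u) k = 0 := by
        by_contra h7
        have := hsupp k h7
        rw [this] at hk'
        exact absurd hk' (not_lt.2 hs0)
      rw [h3, h6, mul_zero, sub_zero] at h5
      simpa [ext0, hk'] using h5
  linarith

end Pool.Agent.CO30
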