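import Pool.Agent.CO30.AgeKey

/-!
# Unitary matrices are diagonalisable
-/

set_option autoImplicit false

namespace Pool.Agent.CO30

open Finset Matrix
open scoped ComplexConjugate

theorem exists_eigenbasis (n : ℕ) : ∀ (V : Type) [NormedAddCommGroup V] [InnerProductSpace ℂ V]
    [FiniteDimensional ℂ V], Module.finrank ℂ V = n → ∀ T : V →ₗᵢ[ℂ] V,
    ∃ (b : OrthonormalBasis (Fin n) ℂ V) (l : Fin n → ℂ), (∀ k, ‖l k‖ = 1) ∧
      ∀ k, T (b k) = l k • b k := by
  induction n with
  | zero =>
    intro V _ _ _ hV T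
    exact ⟨(stdOrthonormalBasis ℂ V).reindex (finCongr hV), Fin.elim0, fun k => k.elim0,
      fun k => k.elim0⟩
  | succ n ih =>
    intro V _ _ _ hV T
    have hnt : Nontrivial V := Module.nontrivial_of_finrank_pos (R := ℂ) (by omega)
    obtain ⟨c, hc⟩ := Module.End.exists_eigenvalue T.toLinearMap
    obtain ⟨v, hv⟩ := hc.exists_hasEigenvector
    have hv0 : v ≠ 0 := hv.2
    have hTv : T v = c • v := hv.apply_eq_smul
    have hcn : ‖c‖ = 1 := by
      have h1 : ‖T v‖ = ‖v‖ := T.norm_map v
      rw [hTv, norm_smul] at h1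
      exact mul_right_cancel₀ (norm_ne_zero_iff.2 hv0) (by rw [h1, one_mul])
    have hc0 : c ≠ 0 := by
      intro h
      rw [h] at hcn
      simp at hcn
    set v' : V := ((‖v‖ : ℂ)⁻¹) • v with hv'
    have hvn : (‖v‖ : ℂ) ≠ 0 := by exact_mod_cast norm_ne_zero_iff.2 hv0
    have hv'n : ‖v'‖ = 1 := by
      rw [hv', norm_smul, norm_inv, Complex.norm_real, norm_norm,
        inv_mul_cancel₀ (norm_ne_zero_iff.2 hv0)]
    have hTv' : T v' = c • v' := by rw [hv', map_smul, hTv, smul_comm]
    set W : Submodule ℂ V := (Submodule.span ℂ {v'})ᗮ with hW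
    have hmem : ∀ w, w ∈ W ↔ inner ℂ v' w = 0 := by
      intro w
      rw [hW, Submodule.mem_orthogonal_singleton_iff_inner_right]
    have hTW : ∀ w ∈ W, T w ∈ W := by
      intro w hw
      rw [hmem] at hw ⊢
      have h1 : inner ℂ (T v') (T w) = inner ℂ v' w := T.inner_map_map v' w
      rw [hTv', inner_smul_left, hw] at h1
      rcases mul_eq_zero.1 h1 with h2 | h2
      · exact absurd ((map_eq_zero _).1 h2) hc0
      · exact h2
    have hv'0 : v' ≠ 0 := by
      intro h
      rw [h, norm_zero] at hv'n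
      exact zero_ne_one hv'n
    have hWfin : Module.finrank ℂ W = n := by
      have h1 := Submodule.finrank_add_finrank_orthogonal (Submodule.span ℂ {v'})
      rw [finrank_span_singleton hv'0, hV] at h1
      rw [hW]
      omega
    set TW : W →ₗᵢ[ℂ] W :=
      { toLinearMap := T.toLinearMap.restrict hTW
        norm_map' := fun w => T.norm_map (w : V) } with hTWdef
    obtain ⟨b, l, hl, hb⟩ := ih W hWfin TW
    have hbT : ∀ k, T (b k : V) = l k • (b k : V) := by
      intro k
      have := congrArg Subtype.val (hb k)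
      exact this
    have hon : Orthonormal ℂ (Fin.cons v' (fun k => (b k : V)) : Fin (n + 1) → V) := by
      rw [orthonormal_iff_ite]
      intro i j
      refine Fin.cases ?_ (fun i => ?_) i <;> refine Fin.cases ?_ (fun j => ?_) j
      · simp [inner_self_eq_norm_sq_to_K, hv'n]
      · rw [Fin.cons_zero, Fin.cons_succ, if_neg (Fin.succ_ne_zero j).symm]
        exact (hmem _).1 (b j).2
      · rw [Fin.cons_zero, Fin.cons_succ, if_neg (Fin.succ_ne_zero i)]
        rw [← inner_conj_symm, (hmem _).1 (b i).2, map_zero]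
      · rw [Fin.cons_succ, Fin.cons_succ]
        have := (orthonormal_iff_ite.1 b.orthonormal) i j
        rw [Submodule.coe_inner] at this
        rw [this]
        simp [Fin.succ_inj]
    have hcard : Fintype.card (Fin (n + 1)) = Module.finrank ℂ V := by rw [hV, Fintype.card_fin]
    set B := basisOfOrthonormalOfCardEqFinrank hon hcard with hB
    have hBapp : ∀ k, B k = (Fin.cons v' (fun k => (b k : V)) : Fin (n + 1) → V) k := by
      intro k
      rw [hB, coe_basisOfOrthonormalOfCardEqFinrank]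
    have hBon : Orthonormal ℂ B := by
      rw [hB, coe_basisOfOrthonormalOfCardEqFinrank]
      exact hon
    refine ⟨B.toOrthonormalBasis hBon, Fin.cons c l, ?_, ?_⟩
    · intro k
      refine Fin.cases ?_ (fun k => ?_) k
      · rw [Fin.cons_zero]
        exact hcn
      · rw [Fin.cons_succ]
        exact hl k
    · intro k
      rw [Module.Basis.coe_toOrthonormalBasis, hBapp]
      refine Fin.cases ?_ (fun k => ?_) k
      · rw [Fin.cons_zero, Fin.cons_zero]
        exact hTv'
      · rw [Fin.cons_succ, Fin.cons_succ]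
        exact hbT k

/-- Diagonalisation of unitary matrices. -/
theorem exists_diag {d : ℕ} {X : Matrix (Fin d) (Fin d) ℂ} (hX : X ∈ unitaryGroup (Fin d) ℂ) :
    ∃ U ∈ unitaryGroup (Fin d) ℂ, ∃ l : Fin d → ℂ, (∀ k, ‖l k‖ = 1) ∧
      X = U * diagonal l * star U := by
  have hnorm : ∀ w : EuclideanSpace ℂ (Fin d), ‖Matrix.toEuclideanLin X w‖ = ‖w‖ := by
    intro w
    have h1 : star (X *ᵥ w.ofLp) ⬝ᵥ (X *ᵥ w.ofLp) = star w.ofLp ⬝ᵥ w.ofLp := by
      rw [star_mulVec, dotProduct_mulVec, vecMul_vecMul]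
      have h3 := (mem_unitaryGroup_iff'.1 hX)
      rw [star_eq_conjTranspose] at h3
      rw [h3, vecMul_one]
    have h2 : ∀ z : EuclideanSpace ℂ (Fin d), ((‖z‖ ^ 2 : ℝ) : ℂ) = star z.ofLp ⬝ᵥ z.ofLp := by
      intro z
      rw [EuclideanSpace.norm_sq_eq, dotProduct]
      push_cast
      refine Finset.sum_congr rfl fun k _ => ?_
      rw [Pi.star_apply, Complex.star_def, ← Complex.normSq_eq_conj_mul_self,
        Complex.normSq_eq_norm_sq]
      push_cast
      rfl
    have h3 := h2 (Matrix.toEuclideanLin X w)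
    have h4 : (Matrix.toEuclideanLin X w).ofLp = X *ᵥ w.ofLp := rfl
    rw [h4, h1, ← h2 w] at h3
    have h5 : ‖Matrix.toEuclideanLin X w‖ ^ 2 = ‖w‖ ^ 2 := by exact_mod_cast h3
    exact (sq_eq_sq₀ (norm_nonneg _) (norm_nonneg _)).1 h5
  obtain ⟨b, l, hl, hb⟩ := exists_eigenbasis d (EuclideanSpace ℂ (Fin d)) (by simp)
    { toLinearMap := Matrix.toEuclideanLin X, norm_map' := hnorm }
  set U : Matrix (Fin d) (Fin d) ℂ := Matrix.of fun i k => (b k).ofLp i with hU
  have hUU : star U * U = 1 := by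
    ext i j
    rw [Matrix.mul_apply, Matrix.one_apply]
    have h1 := (orthonormal_iff_ite.1 b.orthonormal) i j
    rw [← h1, PiLp.inner_apply]
    refine Finset.sum_congr rfl fun k _ => ?_
    rw [star_eq_conjTranspose, conjTranspose_apply, hU, of_apply, of_apply, RCLike.inner_apply]
    rw [mul_comm]
    rfl
  have hUm : U ∈ unitaryGroup (Fin d) ℂ := mem_unitaryGroup_iff'.2 hUU
  refine ⟨U, hUm, l, hl, ?_⟩
  have hXU : X * U = U * diagonal l := by
    ext i k
    rw [mul_diagonal, Matrix.mul_apply]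
    have h1 := congrArg (fun z : EuclideanSpace ℂ (Fin d) => z.ofLp i) (hb k)
    have h2 : (X *ᵥ (b k).ofLp) i = l k * (b k).ofLp i := h1
    rw [mulVec, dotProduct] at h2
    rw [hU]
    simp only [of_apply]
    rw [h2, mul_comm]
  rw [← hXU, mul_assoc, mem_unitaryGroup_iff.1 hUm, mul_one]

theorem age_diag {d : ℕ} {U : Matrix (Fin d) (Fin d) ℂ} (hU : U ∈ unitaryGroup (Fin d) ℂ)
    (l : Fin d → ℂ) : age (U * diagonal l * star U) = ∑ k, ang (l k) := by
  have h1 : (U * diagonal l * star U).charpoly = ∏ k, (Polynomial.X - Polynomial.C (l k)) := by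
    rw [Matrix.charpoly_mul_comm, ← mul_assoc, mem_unitaryGroup_iff'.1 hU, one_mul,
      Matrix.charpoly_diagonal]
  rw [age, h1]
  have h2 : (∏ k, (Polynomial.X - Polynomial.C (l k))).roots = (Finset.univ.val.map l) := by
    have := Polynomial.roots_multiset_prod_X_sub_C (Finset.univ.val.map l)
    rw [← this, Multiset.map_map]
    rfl
  rw [h2, Multiset.map_map]
  rfl

end Pool.Agent.CO30
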