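import Pool.Agent.CO30.Defs
import Pool.Agent.CO75.Formula

/-!
# The formula of Chevalley and Weil

For `A` with `A ^ m = 1` the sum `(1/m) ∑_{0 < s < m} ζ^s / (1 - ζ^s) tr (A^s)`, `ζ = exp (2 π i / m)`, is
`age A - d/2 (1 - 1/m)`.
-/

namespace Pool.Agent.CO30

open Pool.Agent.CO75 Finset

private theorem cw_telescope (w : ℂ) (N : ℕ) :
    (∑ j ∈ range N, (j : ℂ) * w ^ j) * (w - 1) + w * ∑ j ∈ range N, w ^ j = N * w ^ N := by
  induction N with
  | zero => simp
  | succ n ih =>
    rw [sum_range_succ, sum_range_succ, pow_succ]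
    push_cast
    linear_combination ih

private theorem cw_geom {w : ℂ} {N : ℕ} (hw : w ^ N = 1) (hw1 : w ≠ 1) :
    ∑ j ∈ range N, w ^ j = 0 := by
  have h2 := geom_sum_mul w N
  rw [hw, sub_self] at h2
  exact (mul_eq_zero.1 h2).resolve_right (sub_ne_zero.2 hw1)

private theorem cw_lin {w : ℂ} {N : ℕ} (hw : w ^ N = 1) (hw1 : w ≠ 1) :
    ∑ j ∈ range N, (j : ℂ) * w ^ j = N / (w - 1) := by
  have h := cw_telescope w N
  rw [cw_geom hw hw1, hw, mul_zero, add_zero, mul_one] at h
  rw [eq_div_iff (sub_ne_zero.2 hw1)]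
  exact h

private theorem cw_id (N : ℕ) : ∑ j ∈ range N, (j : ℂ) = (N : ℂ) * (N - 1) / 2 := by
  induction N with
  | zero => simp
  | succ n ih =>
    rw [sum_range_succ, ih]
    push_cast
    ring

/-- The basic root of unity. -/
private noncomputable def cz (N : ℕ) : ℂ := Complex.exp (2 * Real.pi * Complex.I / N)

private theorem cz_prim {N : ℕ} (hN : 0 < N) : IsPrimitiveRoot (cz N) N :=
  Complex.isPrimitiveRoot_exp N hN.ne'

private theorem cz_pow (N s : ℕ) :
    Complex.exp (2 * Real.pi * Complex.I * ((s : ℂ) / (N : ℂ))) = cz N ^ s := by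
  unfold cz
  rw [← Complex.exp_nat_mul]
  congr 1
  ring

private theorem rot_expand {N s : ℕ} (hs : 1 ≤ s) (hsN : s < N) :
    rotTerm N s = 1 / (N : ℂ) * ∑ j ∈ range N, (j : ℂ) * ((cz N ^ s)⁻¹) ^ j := by
  have hN : 0 < N := by omega
  have hNC : (N : ℂ) ≠ 0 := by exact_mod_cast hN.ne'
  have hz := cz_prim hN
  have hz0 : cz N ≠ 0 := hz.ne_zero hN.ne'
  have hne : cz N ^ s ≠ 1 := hz.pow_ne_one_of_pos_of_lt (by omega) hsN
  have hp0 : cz N ^ s ≠ 0 := pow_ne_zero _ hz0
  have hne' : (cz N ^ s)⁻¹ ≠ 1 := fun h => hne (inv_eq_one.1 h)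
  rw [cw_lin _ hne']
  · unfold rotTerm
    rw [cz_pow]
    have h1 : 1 - cz N ^ s ≠ 0 := sub_ne_zero.2 (Ne.symm hne)
    have h2 : (cz N ^ s)⁻¹ - 1 ≠ 0 := sub_ne_zero.2 hne'
    field_simp
  · rw [inv_pow, ← pow_mul, Nat.mul_comm, pow_mul, hz.pow_eq_one, one_pow, inv_one]

/-- The sum over the powers of a root of unity. -/
private theorem sum_rot {N k : ℕ} (hk : k < N) :
    ∑ s ∈ Ico 1 N, rotTerm N s * (cz N ^ k) ^ s = (k : ℂ) - ((N : ℂ) - 1) / 2 := by
  have hN : 0 < N := by omega
  have hNC : (N : ℂ) ≠ 0 := by exact_mod_cast hN.ne'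
  have hz := cz_prim hN
  have hz0 : cz N ≠ 0 := hz.ne_zero hN.ne'
  have h1 : ∀ s ∈ Ico 1 N, rotTerm N s * (cz N ^ k) ^ s =
      ∑ j ∈ range N, 1 / (N : ℂ) * (j : ℂ) * (cz N ^ k * (cz N ^ j)⁻¹) ^ s := by
    intro s hs
    rw [mem_Ico] at hs
    rw [rot_expand hs.1 hs.2, mul_sum, sum_mul]
    refine sum_congr rfl fun j _ => ?_
    rw [mul_pow, inv_pow, inv_pow, ← pow_mul (cz N) s j, ← pow_mul (cz N) j s, Nat.mul_comm s j]
    ring
  rw [sum_congr rfl h1, sum_comm]
  have h2 : ∀ j ∈ range N, ∑ s ∈ Ico 1 N, 1 / (N : ℂ) * (j : ℂ) * (cz N ^ k * (cz N ^ j)⁻¹) ^ s =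
      1 / (N : ℂ) * (j : ℂ) * ((if j = k then (N : ℂ) else 0) - 1) := by
    intro j hj
    rw [← mul_sum]
    congr 1
    have h3 : ∑ s ∈ range N, (cz N ^ k * (cz N ^ j)⁻¹) ^ s = if j = k then (N : ℂ) else 0 := by
      by_cases hjk : j = k
      · subst hjk
        rw [if_pos rfl, mul_inv_cancel₀ (pow_ne_zero _ hz0)]
        simp
      · rw [if_neg hjk]
        apply cw_geom
        · rw [mul_pow, inv_pow, ← pow_mul, ← pow_mul, Nat.mul_comm k N, Nat.mul_comm j N, pow_mul,
            pow_mul, hz.pow_eq_one]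
          simp
        · intro h
          apply hjk
          rw [← div_eq_mul_inv, div_eq_one_iff_eq (pow_ne_zero _ hz0)] at h
          exact (hz.pow_inj hk (mem_range.1 hj) h).symm
    have h4 := sum_eq_sum_Ico_succ_bot hN (fun s => (cz N ^ k * (cz N ^ j)⁻¹) ^ s)
    rw [← range_eq_Ico, h3] at h4
    rw [h4, pow_zero]
    simp
  rw [sum_congr rfl h2]
  have h5 : ∀ j ∈ range N, 1 / (N : ℂ) * (j : ℂ) * ((if j = k then (N : ℂ) else 0) - 1) =
      (if j = k then (j : ℂ) else 0) - 1 / (N : ℂ) * (j : ℂ) := by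
    intro j _
    split_ifs
    · field_simp
    · ring
  rw [sum_congr rfl h5, sum_sub_distrib, ← mul_sum, cw_id, sum_ite_eq' (range N) k,
    if_pos (mem_range.2 hk)]
  field_simp

theorem ang_exp (t : ℝ) : ang (Complex.exp (2 * Real.pi * Complex.I * (t : ℂ))) = Int.fract t := by
  have h0 : (2 * Real.pi * Complex.I * (t : ℂ) : ℂ) = ((2 * Real.pi * t : ℝ) : ℂ) * Complex.I := by
    push_cast
    ring
  unfold ang
  rw [h0, Complex.arg_exp_mul_I, toIocMod]
  have hpi := Real.pi_pos
  have h1 : (2 * Real.pi * t - toIocDiv Real.two_pi_pos (-Real.pi) (2 * Real.pi * t) • (2 * Real.pi)) /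
      (2 * Real.pi) = t - (toIocDiv Real.two_pi_pos (-Real.pi) (2 * Real.pi * t) : ℤ) := by
    rw [zsmul_eq_mul]
    field_simp
  rw [h1, Int.fract_sub_intCast]

private theorem ang_root {N k : ℕ} (hk : k < N) : ang (cz N ^ k) = (k : ℝ) / (N : ℝ) := by
  have hN : (0 : ℝ) < (N : ℝ) := by exact_mod_cast (show 0 < N by omega)
  rw [← cz_pow]
  have h := ang_exp ((k : ℝ) / (N : ℝ))
  push_cast at h
  rw [h, Int.fract_eq_self]
  exact ⟨by positivity, by rw [div_lt_one hN]; exact_mod_cast hk⟩

private theorem sum_rot_root {N : ℕ} (hN : 0 < N) {z : ℂ} (hz : z ^ N = 1) :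
    ∑ s ∈ Ico 1 N, rotTerm N s * z ^ s = (N : ℂ) * (ang z : ℂ) - ((N : ℂ) - 1) / 2 := by
  have : NeZero N := ⟨hN.ne'⟩
  obtain ⟨k, hk, rfl⟩ := (cz_prim hN).eq_pow_of_pow_eq_one hz
  have hNC : (N : ℂ) ≠ 0 := by exact_mod_cast hN.ne'
  rw [sum_rot hk, ang_root hk]
  push_cast
  field_simp

section Trace

open Polynomial

variable {d : ℕ} (A : Matrix (Fin d) (Fin d) ℂ)

private theorem card_roots : A.charpoly.roots.card = d := by
  rw [← (IsAlgClosed.splits A.charpoly).natDegree_eq_card_roots, Matrix.charpoly_natDegree_eq_dim,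
    Fintype.card_fin]

private theorem da_C (c : ℂ) :
    (aeval A (C c)).det = (A.charpoly.roots.map fun z => (C c).eval z).prod := by
  simp only [eval_C, Multiset.map_const', Multiset.prod_replicate, card_roots]
  rw [aeval_C, Algebra.algebraMap_eq_smul_one, Matrix.det_smul, Matrix.det_one, mul_one,
    Fintype.card_fin]

private theorem da_X (a : ℂ) :
    (aeval A (X - C a)).det = (A.charpoly.roots.map fun z => (X - C a).eval z).prod := by
  have h1 : aeval A (X - C a) = -(Matrix.scalar (Fin d) a - A) := by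
    rw [map_sub, aeval_X, aeval_C, neg_sub]
    rfl
  have h2 : A.charpoly.eval a = (A.charpoly.roots.map fun z => a - z).prod := by
    conv_lhs => rw [(IsAlgClosed.splits A.charpoly).eq_prod_roots_of_monic A.charpoly_monic]
    rw [eval_multiset_prod, Multiset.map_map]
    simp
  have h3 : (A.charpoly.roots.map fun z => (X - C a).eval z).prod =
      (-1) ^ d * (A.charpoly.roots.map fun z => a - z).prod := by
    have h4 : (A.charpoly.roots.map fun z => (X - C a).eval z) =
        A.charpoly.roots.map fun z => (-1 : ℂ) * (a - z) := by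
      refine Multiset.map_congr rfl fun z _ => ?_
      simp
    rw [h4, Multiset.prod_map_mul, Multiset.map_const', Multiset.prod_replicate, card_roots]
  rw [h1, Matrix.det_neg, ← Matrix.eval_charpoly, h3, h2, Fintype.card_fin]

private theorem da_mul {f g : ℂ[X]}
    (hf : (aeval A f).det = (A.charpoly.roots.map fun z => f.eval z).prod)
    (hg : (aeval A g).det = (A.charpoly.roots.map fun z => g.eval z).prod) :
    (aeval A (f * g)).det = (A.charpoly.roots.map fun z => (f * g).eval z).prod := by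
  rw [map_mul, Matrix.det_mul, hf, hg, ← Multiset.prod_map_mul]
  simp only [eval_mul]

theorem det_aeval (f : ℂ[X]) :
    (aeval A f).det = (A.charpoly.roots.map fun z => f.eval z).prod := by
  rw [(IsAlgClosed.splits f).eq_prod_roots]
  refine da_mul A (da_C A _) ?_
  generalize f.roots = s
  induction s using Multiset.induction with
  | empty =>
    simp
  | cons a s ih =>
    rw [Multiset.map_cons, Multiset.prod_cons]
    exact da_mul A (da_X A a) ih

theorem charpoly_pow_roots (s : ℕ) :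
    (A ^ s).charpoly = ((A.charpoly.roots.map fun z => z ^ s).map fun z => X - C z).prod := by
  refine Polynomial.funext fun t => ?_
  rw [eval_multiset_prod, Multiset.map_map, Multiset.map_map, Matrix.eval_charpoly]
  have h := det_aeval A (C t - X ^ s)
  rw [map_sub, aeval_C, map_pow, aeval_X] at h
  rw [show (Matrix.scalar (Fin d) t : Matrix (Fin d) (Fin d) ℂ) =
    algebraMap ℂ (Matrix (Fin d) (Fin d) ℂ) t from rfl, h]
  congr 1
  refine Multiset.map_congr rfl fun z _ => ?_
  simp

theorem trace_pow_roots (s : ℕ) : (A ^ s).trace = (A.charpoly.roots.map fun z => z ^ s).sum := by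
  rw [Matrix.trace_eq_sum_roots_charpoly, charpoly_pow_roots, roots_multiset_prod_X_sub_C]

theorem root_pow {m : ℕ} (hA : A ^ m = 1) {z : ℂ} (hz : z ∈ A.charpoly.roots) : z ^ m = 1 := by
  have h1 : (Matrix.scalar (Fin d) z - A).det = 0 := by
    rw [← Matrix.eval_charpoly]
    exact (Polynomial.mem_roots'.1 hz).2
  obtain ⟨v, hv0, hv⟩ := Matrix.exists_mulVec_eq_zero_iff.2 h1
  have h2 : A.mulVec v = z • v := by
    rw [Matrix.sub_mulVec, sub_eq_zero] at hv
    rw [← hv, Matrix.scalar_apply, ← Matrix.smul_one_eq_diagonal, Matrix.smul_mulVec,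
      Matrix.one_mulVec]
  have h3 : ∀ k : ℕ, (A ^ k).mulVec v = z ^ k • v := by
    intro k
    induction k with
    | zero => simp
    | succ k ih =>
      rw [pow_succ, ← Matrix.mulVec_mulVec, h2, Matrix.mulVec_smul, ih, smul_smul, pow_succ, mul_comm]
  have h4 := h3 m
  rw [hA, Matrix.one_mulVec] at h4
  have h5 : (z ^ m - 1) • v = 0 := by
    rw [sub_smul, one_smul, ← h4, sub_self]
  rcases smul_eq_zero.1 h5 with h | h
  · exact sub_eq_zero.1 h
  · exact absurd h hv0

/-- The local term of the formula of Chevalley and Weil. -/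
theorem sum_trace {m : ℕ} (hm : 0 < m) (hA : A ^ m = 1) :
    ∑ s ∈ Finset.Ico 1 m, rotTerm m s * (A ^ s).trace =
      (m : ℂ) * (age A : ℂ) - (d : ℂ) * (((m : ℂ) - 1) / 2) := by
  have h1 : ∀ s ∈ Finset.Ico 1 m, rotTerm m s * (A ^ s).trace =
      (A.charpoly.roots.map fun z => rotTerm m s * z ^ s).sum := by
    intro s _
    rw [trace_pow_roots, Multiset.sum_map_mul_left]
  have h2 : ∑ s ∈ Finset.Ico 1 m, (A.charpoly.roots.map fun z => rotTerm m s * z ^ s).sum =
      (A.charpoly.roots.map fun z => ∑ s ∈ Finset.Ico 1 m, rotTerm m s * z ^ s).sum :=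
    Multiset.sum_map_sum_map _ _
  have h3 : (A.charpoly.roots.map fun z => ∑ s ∈ Finset.Ico 1 m, rotTerm m s * z ^ s) =
      A.charpoly.roots.map fun z => (m : ℂ) * (ang z : ℂ) - ((m : ℂ) - 1) / 2 :=
    Multiset.map_congr rfl fun z hz => sum_rot_root hm (root_pow A hA hz)
  have h4 : (age A : ℂ) = (A.charpoly.roots.map fun z => (ang z : ℂ)).sum := by
    unfold age
    rw [show (((A.charpoly.roots.map ang).sum : ℝ) : ℂ) =
      Complex.ofRealHom ((A.charpoly.roots.map ang).sum) from rfl, map_multiset_sum, Multiset.map_map]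
    rfl
  rw [Finset.sum_congr rfl h1, h2, h3, Multiset.sum_map_sub, Multiset.sum_map_mul_left, ← h4,
    Multiset.map_const', Multiset.sum_replicate, card_roots, nsmul_eq_mul]

/-- The age does not change under conjugation. -/
theorem age_conj {S T : Matrix (Fin d) (Fin d) ℂ} (hTS : T * S = 1) : age (S * A * T) = age A := by
  unfold age
  rw [Matrix.mul_assoc, Matrix.charpoly_mul_comm, Matrix.mul_assoc, hTS, Matrix.mul_one]

end Trace

section Sum

variable {G : Type} [Group G] [Fintype G] {r d : ℕ}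

open Classical in
private theorem eichler_split (x : Fin r → G) (γ : G) :
    eichler x γ = 1 + (∑ i, (1 / (orderOf (x i) : ℂ)) * ∑ g : G, ∑ s ∈ Finset.Ico 1 (orderOf (x i)),
      if γ = g * x i ^ s * g⁻¹ then rotTerm (orderOf (x i)) s else 0) +
      if γ = 1 then (genus x : ℂ) - 1 else 0 := by
  unfold eichler
  by_cases hγ : γ = 1
  · rw [if_pos hγ, if_pos hγ]
    have h : (∑ i, (1 / (orderOf (x i) : ℂ)) * ∑ g : G, ∑ s ∈ Finset.Ico 1 (orderOf (x i)),
        if γ = g * x i ^ s * g⁻¹ then rotTerm (orderOf (x i)) s else 0) = 0 := by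
      refine Finset.sum_eq_zero fun i _ => ?_
      rw [Finset.sum_eq_zero, mul_zero]
      intro g _
      refine Finset.sum_eq_zero fun s hs => ?_
      rw [if_neg]
      intro h0
      rw [hγ] at h0
      rw [Finset.mem_Ico] at hs
      have h1 : x i ^ s = 1 := by
        have h2 : x i ^ s = g⁻¹ * (g * x i ^ s * g⁻¹) * g := by group
        rw [h2, ← h0]
        group
      exact absurd (Nat.le_of_dvd (by omega) (orderOf_dvd_of_pow_eq_one h1)) (not_le.2 hs.2)
    rw [h]
    ring
  · rw [if_neg hγ, if_neg hγ, add_zero]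

omit [Fintype G] in
private theorem tr_conj (R : G →* Matrix (Fin d) (Fin d) ℂ) (g y : G) (s : ℕ) :
    (R (g * y ^ s * g⁻¹)⁻¹).trace = (R y⁻¹ ^ s).trace := by
  have h1 : (g * y ^ s * g⁻¹)⁻¹ = g * (y⁻¹) ^ s * g⁻¹ := by group
  rw [h1, map_mul, map_mul, Matrix.trace_mul_comm, ← Matrix.mul_assoc, ← map_mul, inv_mul_cancel,
    map_one, Matrix.one_mul, map_pow]

/-- The formula of Chevalley and Weil. -/
theorem sum_eichler (x : Fin r → G) (R : G →* Matrix (Fin d) (Fin d) ℂ) :
    ∑ γ : G, eichler x γ * (R γ⁻¹).trace =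
      (Fintype.card G : ℂ) * ((∑ i, age (R (x i)⁻¹) : ℝ) - (d : ℂ)) + ∑ γ : G, (R γ).trace := by
  classical
  have h0 : ∑ γ : G, (R γ⁻¹).trace = ∑ γ : G, (R γ).trace :=
    Fintype.sum_equiv (Equiv.inv G) _ _ (fun _ => rfl)
  have h1 : ∀ γ : G, eichler x γ * (R γ⁻¹).trace = (R γ⁻¹).trace +
      (∑ i, (1 / (orderOf (x i) : ℂ)) * ∑ g : G, ∑ s ∈ Finset.Ico 1 (orderOf (x i)),
        if γ = g * x i ^ s * g⁻¹ then rotTerm (orderOf (x i)) s * (R γ⁻¹).trace else 0) +
      if γ = 1 then ((genus x : ℂ) - 1) * (d : ℂ) else 0 := by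
    intro γ
    rw [eichler_split x γ, add_mul, add_mul, one_mul, Finset.sum_mul]
    congr 1
    · congr 1
      refine Finset.sum_congr rfl fun i _ => ?_
      rw [mul_assoc, Finset.sum_mul]
      congr 1
      refine Finset.sum_congr rfl fun g _ => ?_
      rw [Finset.sum_mul]
      refine Finset.sum_congr rfl fun s _ => ?_
      rw [ite_mul, zero_mul]
    · by_cases hγ : γ = 1
      · rw [if_pos hγ, if_pos hγ, hγ, inv_one, map_one, Matrix.trace_one, Fintype.card_fin]
      · rw [if_neg hγ, if_neg hγ, zero_mul]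
  have h2 : ∑ γ : G, (∑ i, (1 / (orderOf (x i) : ℂ)) * ∑ g : G,
      ∑ s ∈ Finset.Ico 1 (orderOf (x i)),
        if γ = g * x i ^ s * g⁻¹ then rotTerm (orderOf (x i)) s * (R γ⁻¹).trace else 0) =
      ∑ i, (Fintype.card G : ℂ) * ((age (R (x i)⁻¹) : ℂ) -
        (d : ℂ) / 2 * (1 - 1 / (orderOf (x i) : ℂ))) := by
    rw [Finset.sum_comm]
    refine Finset.sum_congr rfl fun i _ => ?_
    have hm : 0 < orderOf (x i) := orderOf_pos (x i)
    have hmC : (orderOf (x i) : ℂ) ≠ 0 := by exact_mod_cast hm.ne'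
    have hpow : R (x i)⁻¹ ^ orderOf (x i) = 1 := by
      rw [← map_pow, inv_pow, pow_orderOf_eq_one, inv_one, map_one]
    rw [← Finset.mul_sum, Finset.sum_comm]
    have h3 : ∀ g : G, ∑ γ : G, ∑ s ∈ Finset.Ico 1 (orderOf (x i)),
        (if γ = g * x i ^ s * g⁻¹ then rotTerm (orderOf (x i)) s * (R γ⁻¹).trace else 0) =
        (orderOf (x i) : ℂ) * (age (R (x i)⁻¹) : ℂ) - (d : ℂ) * (((orderOf (x i) : ℂ) - 1) / 2) := by
      intro g
      rw [Finset.sum_comm, ← sum_trace _ hm hpow]
      refine Finset.sum_congr rfl fun s _ => ?_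
      rw [Finset.sum_ite_eq' univ (g * x i ^ s * g⁻¹), if_pos (Finset.mem_univ _), tr_conj]
    rw [Finset.sum_congr rfl fun g _ => h3 g, Finset.sum_const, Finset.card_univ, nsmul_eq_mul]
    field_simp
  rw [Finset.sum_congr rfl fun γ _ => h1 γ, Finset.sum_add_distrib, Finset.sum_add_distrib, h0, h2,
    Finset.sum_ite_eq' univ (1 : G), if_pos (Finset.mem_univ _)]
  unfold genus
  push_cast
  rw [← Finset.mul_sum, Finset.sum_sub_distrib, ← Finset.mul_sum]
  ring

end Sum

section Main

variable {G : Type} [Group G] [Fintype G] {r d : ℕ}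

open scoped MatrixOrder ComplexOrder in
/-- Every representation of a finite group is conjugate to a unitary one. -/
theorem exists_unitary (R : G →* Matrix (Fin d) (Fin d) ℂ) :
    ∃ S T : Matrix (Fin d) (Fin d) ℂ, T * S = 1 ∧ S * T = 1 ∧
      ∀ g, S * R g * T ∈ Matrix.unitaryGroup (Fin d) ℂ := by
  classical
  obtain ⟨H, hH⟩ : ∃ H : Matrix (Fin d) (Fin d) ℂ, H = ∑ g : G, (R g).conjTranspose * R g := ⟨_, rfl⟩
  have hpd : H.PosDef := by
    rw [hH, ← Finset.add_sum_erase univ _ (Finset.mem_univ (1 : G)), map_one,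
      Matrix.conjTranspose_one, Matrix.one_mul]
    refine Matrix.PosDef.one.add_posSemidef (Matrix.posSemidef_sum _ fun g _ => ?_)
    exact Matrix.posSemidef_conjTranspose_mul_self _
  have hinv : ∀ h : G, (R h).conjTranspose * H * R h = H := by
    intro h
    rw [hH, Matrix.mul_sum, Matrix.sum_mul]
    refine Fintype.sum_equiv (Equiv.mulRight h) _ _ fun g => ?_
    simp only [Equiv.coe_mulRight, map_mul, Matrix.conjTranspose_mul, Matrix.mul_assoc]
  obtain ⟨S, hS⟩ := CStarAlgebra.nonneg_iff_eq_star_mul_self.mp hpd.posSemidef.nonneg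
  rw [Matrix.star_eq_conjTranspose] at hS
  have hdet : S.det ≠ 0 := by
    intro h0
    have h1 := hpd.det_pos
    rw [hS, Matrix.det_mul, h0, mul_zero] at h1
    exact lt_irrefl _ h1
  have hu : IsUnit S.det := isUnit_iff_ne_zero.2 hdet
  refine ⟨S, S⁻¹, Matrix.nonsing_inv_mul S hu, Matrix.mul_nonsing_inv S hu, fun g => ?_⟩
  rw [Matrix.mem_unitaryGroup_iff', Matrix.star_eq_conjTranspose, Matrix.conjTranspose_mul,
    Matrix.conjTranspose_mul]
  calc (S⁻¹).conjTranspose * ((R g).conjTranspose * S.conjTranspose) * (S * R g * S⁻¹)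
      = (S⁻¹).conjTranspose * ((R g).conjTranspose * (S.conjTranspose * S) * R g) * S⁻¹ := by
        simp only [Matrix.mul_assoc]
    _ = (S⁻¹).conjTranspose * (S.conjTranspose * S) * S⁻¹ := by rw [← hS, hinv g]
    _ = (S * S⁻¹).conjTranspose * (S * S⁻¹) := by
        rw [Matrix.conjTranspose_mul]
        simp only [Matrix.mul_assoc]
    _ = 1 := by
        rw [Matrix.mul_nonsing_inv S hu, Matrix.conjTranspose_one, Matrix.one_mul]

private theorem prod_conj {S T : Matrix (Fin d) (Fin d) ℂ} (hTS : T * S = 1) (hST : S * T = 1)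
    (l : List (Matrix (Fin d) (Fin d) ℂ)) :
    (l.map fun A => S * A * T).prod = S * l.prod * T := by
  induction l with
  | nil => simp [hST]
  | cons a l ih =>
    rw [List.map_cons, List.prod_cons, List.prod_cons, ih]
    calc S * a * T * (S * l.prod * T) = S * a * (T * S) * l.prod * T := by
          simp only [Matrix.mul_assoc]
      _ = S * (a * l.prod) * T := by
          rw [hTS, Matrix.mul_one]
          simp only [Matrix.mul_assoc]

omit [Fintype G] in
private theorem rev_prod (x : Fin r → G) (hx : (List.ofFn x).prod = 1) :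
    (List.ofFn fun i => (x (Fin.rev i))⁻¹).prod = 1 := by
  have h : (List.ofFn fun i => (x (Fin.rev i))⁻¹) = ((List.ofFn x).map fun y => y⁻¹).reverse := by
    apply List.ext_getElem
    · simp
    · intro i h1 h2
      simp only [List.getElem_ofFn, List.getElem_reverse, List.getElem_map, List.length_map,
        List.length_ofFn]
      congr 2
      ext
      simp only [Fin.val_rev]
      omega
  rw [h, ← List.prod_inv_reverse, hx, inv_one]

theorem age_one : age (1 : Matrix (Fin d) (Fin d) ℂ) = 0 := by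
  unfold age
  refine Multiset.sum_eq_zero fun t ht => ?_
  obtain ⟨z, hz, rfl⟩ := Multiset.mem_map.1 ht
  have h1 := root_pow (1 : Matrix (Fin d) (Fin d) ℂ) (m := 1) (pow_one 1) hz
  rw [pow_one] at h1
  rw [h1]
  unfold ang
  simp

omit [Fintype G] in
/-- A fixed vector of an irreducible representation. -/
private theorem triv_of_fix (R : G →* Matrix (Fin d) (Fin d) ℂ)
    (hirr : Submodule.span ℂ (Set.range R) = ⊤) {w : Fin d → ℂ} (hw : w ≠ 0)
    (hfix : ∀ g, (R g).mulVec w = w) : d = 1 ∧ ∀ g, R g = 1 := by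
  have h1 : ∀ M : Matrix (Fin d) (Fin d) ℂ, ∃ c : ℂ, M.mulVec w = c • w := by
    intro M
    have hM : M ∈ Submodule.span ℂ (Set.range R) := by
      rw [hirr]
      exact Submodule.mem_top
    induction hM using Submodule.span_induction with
    | mem M hM =>
      obtain ⟨g, rfl⟩ := hM
      exact ⟨1, by rw [one_smul]; exact hfix g⟩
    | zero => exact ⟨0, by rw [Matrix.zero_mulVec, zero_smul]⟩
    | add M N _ _ hM hN =>
      obtain ⟨a, ha⟩ := hM
      obtain ⟨b, hb⟩ := hN
      exact ⟨a + b, by rw [Matrix.add_mulVec, ha, hb, add_smul]⟩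
    | smul c M _ hM =>
      obtain ⟨a, ha⟩ := hM
      exact ⟨c * a, by rw [Matrix.smul_mulVec, ha, smul_smul]⟩
  obtain ⟨j, hj⟩ := Function.ne_iff.1 hw
  rw [Pi.zero_apply] at hj
  have h2 : ∀ k : Fin d, k = j := by
    intro k
    by_contra hkj
    obtain ⟨c, hc⟩ := h1 (Matrix.single k j 1)
    have h3 := congrFun hc j
    have h4 := congrFun hc k
    rw [Matrix.single_mulVec] at h3 h4
    rw [Pi.smul_apply, smul_eq_mul] at h3 h4
    simp only [Function.update_apply, Pi.zero_apply, one_mul] at h3 h4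
    rw [if_neg (Ne.symm hkj)] at h3
    rw [if_pos trivial] at h4
    rcases mul_eq_zero.1 h3.symm with h5 | h5
    · rw [h5, zero_mul] at h4
      exact hj h4
    · exact hj h5
  have hd : d = 1 := by
    have h3 : Subsingleton (Fin d) := ⟨fun a b => by rw [h2 a, h2 b]⟩
    have h4 := Fintype.card_le_one_iff_subsingleton.2 h3
    rw [Fintype.card_fin] at h4
    have := j.pos
    omega
  refine ⟨hd, fun g => ?_⟩
  subst hd
  ext a b
  have ha : a = j := h2 a
  have hb : b = j := h2 b
  have h3 := congrFun (hfix g) j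
  rw [Matrix.mulVec, dotProduct, Finset.sum_eq_single j (fun k _ hk => absurd (h2 k) hk)
    (fun h => absurd (Finset.mem_univ _) h)] at h3
  rw [ha, hb, Matrix.one_apply_eq]
  exact mul_right_cancel₀ hj (by rw [h3, one_mul])

/-- The formula of Chevalley and Weil gives a natural number, given the bound for the ages. -/
theorem mu_nat_of
    (Hage : ∀ {d r : ℕ} (X : Fin r → Matrix (Fin d) (Fin d) ℂ),
      (∀ i, X i ∈ Matrix.unitaryGroup (Fin d) ℂ) → (List.ofFn X).prod = 1 →
      (∀ v : Fin d → ℂ, (∀ i, (X i).mulVec v = v) → v = 0) →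
      ∃ a : ℕ, ∑ i, age (X i) = (d : ℝ) + a)
    (x : Fin r → G) (hx : IsGenVec x) (R : G →* Matrix (Fin d) (Fin d) ℂ)
    (hirr : Submodule.span ℂ (Set.range R) = ⊤) :
    ∃ a : ℕ, ∑ γ : G, eichler x γ * (R γ⁻¹).trace = (Fintype.card G : ℂ) * a := by
  classical
  by_cases hcase : ∃ w : Fin d → ℂ, w ≠ 0 ∧ ∀ g, (R g).mulVec w = w
  · obtain ⟨w, hw, hfix⟩ := hcase
    obtain ⟨hd1, hR⟩ := triv_of_fix R hirr hw hfix
    refine ⟨0, ?_⟩
    rw [sum_eichler]
    simp only [hR, age_one, Matrix.trace_one, Fintype.card_fin, Finset.sum_const_zero,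
      Finset.sum_const, Finset.card_univ, nsmul_eq_mul]
    rw [hd1]
    push_cast
    ring
  · have hno : ∀ w : Fin d → ℂ, (∀ g, (R g).mulVec w = w) → w = 0 := by
      intro w hw
      by_contra h
      exact hcase ⟨w, h, hw⟩
    obtain ⟨S, T, hTS, hST, hU⟩ := exists_unitary R
    have hcl : ∀ w : Fin d → ℂ, (∀ i, (R (x i)⁻¹).mulVec w = w) → ∀ g, (R g).mulVec w = w := by
      intro w hw g
      have hg : g ∈ Subgroup.closure (Set.range x) := by
        rw [hx.gen]
        exact Subgroup.mem_top g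
      have hii : ∀ a : G, (R a).mulVec w = w → (R a⁻¹).mulVec w = w := by
        intro a ha
        conv_lhs => rw [← ha]
        rw [Matrix.mulVec_mulVec, ← map_mul, inv_mul_cancel, map_one, Matrix.one_mulVec]
      induction hg using Subgroup.closure_induction with
      | mem a ha =>
        obtain ⟨i, rfl⟩ := ha
        have h := hii _ (hw i)
        rwa [inv_inv] at h
      | one => rw [map_one, Matrix.one_mulVec]
      | mul a b _ _ ha hb => rw [map_mul, ← Matrix.mulVec_mulVec, hb, ha]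
      | inv a _ ha => exact hii a ha
    obtain ⟨a, ha⟩ := Hage (fun i : Fin r => S * R (x (Fin.rev i))⁻¹ * T) (fun i => hU _) (by
      have h1 : (List.ofFn fun i : Fin r => S * R (x (Fin.rev i))⁻¹ * T) =
          (((List.ofFn fun i : Fin r => (x (Fin.rev i))⁻¹).map R).map fun A => S * A * T) := by
        rw [List.map_map, List.map_ofFn]
        rfl
      rw [h1, prod_conj hTS hST, ← map_list_prod, rev_prod x hx.prod_eq, map_one, Matrix.mul_one, hST])
      (by
        intro v hv
        have h2 : ∀ g, (R g).mulVec (T.mulVec v) = T.mulVec v := by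
          apply hcl
          intro i
          have h3 := congrArg T.mulVec (hv (Fin.rev i))
          simp only [Fin.rev_rev] at h3
          rw [Matrix.mulVec_mulVec, ← Matrix.mul_assoc, ← Matrix.mul_assoc, hTS, Matrix.one_mul,
            ← Matrix.mulVec_mulVec] at h3
          exact h3
        have h4 := hno _ h2
        have h5 := congrArg S.mulVec h4
        rw [Matrix.mulVec_mulVec, hST, Matrix.one_mulVec, Matrix.mulVec_zero] at h5
        exact h5)
    have hage : ∑ i, age (R (x i)⁻¹) = (d : ℝ) + a := by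
      rw [← ha]
      refine Fintype.sum_equiv Fin.revPerm _ _ fun i => ?_
      rw [Fin.revPerm_apply, Fin.rev_rev, age_conj _ hTS]
    have hP : ∑ γ : G, (R γ).trace = 0 := by
      have h1 : ∀ h : G, R h * ∑ g : G, R g = ∑ g : G, R g := by
        intro h
        rw [Matrix.mul_sum]
        refine Fintype.sum_equiv (Equiv.mulLeft h) _ _ fun g => ?_
        rw [Equiv.coe_mulLeft, map_mul]
      have h2 : ∑ g : G, R g = 0 := by
        ext i j
        have h3 := hno (fun k => (∑ g : G, R g) k j) (by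
          intro h
          funext k
          have h4 := congrFun (congrFun (h1 h) k) j
          rw [Matrix.mul_apply] at h4
          exact h4)
        have h5 := congrFun h3 i
        exact h5
      rw [← Matrix.trace_sum, h2, Matrix.trace_zero]
    refine ⟨a, ?_⟩
    rw [sum_eichler, hage, hP]
    push_cast
    ring

end Main

end Pool.Agent.CO30
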