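import Pool.Agent.CO30.Rp

/-!
# Generic representations of a normal subgroup

`R` an irreducible representation of the normal subgroup `C` that is not isomorphic to its conjugates by
the elements outside `C`. Then the induced character is irreducible. We use this to bound the number of
the `R` that contribute to `N`.
-/

namespace Pool.Agent.CO30

open Matrix Finset Pool.Agent.CO75

section Ind

variable {G : Type} [Group G] [Fintype G] (C : Subgroup G) [Fintype C]

open Classical in
/-- Extension by zero. -/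
private noncomputable def cliExt (f : C → ℂ) (γ : G) : ℂ := if h : γ ∈ C then f ⟨γ, h⟩ else 0

/-- The induced class function. -/
private noncomputable def cliInd (f : C → ℂ) (γ : G) : ℂ :=
  1 / (Fintype.card C : ℂ) * ∑ g : G, cliExt C f (g * γ * g⁻¹)

omit [Fintype G] [Fintype C] in
private theorem cli_ext_coe (f : C → ℂ) (c : C) : cliExt C f (c : G) = f c := by
  unfold cliExt
  rw [dif_pos c.2]

omit [Fintype C] in
private theorem cli_ext_sum [Fintype C] (F : G → ℂ) (f : C → ℂ) :
    ∑ γ : G, F γ * cliExt C f γ = ∑ c : C, F c * f c := by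
  classical
  have h1 : ∑ γ : G, F γ * cliExt C f γ = ∑ γ ∈ univ.filter (fun γ => γ ∈ C), F γ * cliExt C f γ := by
    symm
    refine Finset.sum_filter_of_ne fun γ _ hne => ?_
    by_contra hγ
    apply hne
    unfold cliExt
    rw [dif_neg hγ, mul_zero]
  rw [h1, Finset.sum_subtype (univ.filter (fun γ : G => γ ∈ C)) (p := fun γ => γ ∈ C)
    (fun γ => by simp) (fun γ => F γ * cliExt C f γ)]
  refine Finset.sum_congr rfl fun c _ => ?_
  rw [cli_ext_coe]

private theorem cli_ind_conj (f : C → ℂ) (γ h : G) : cliInd C f (h * γ * h⁻¹) = cliInd C f γ := by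
  unfold cliInd
  congr 1
  refine Fintype.sum_equiv (Equiv.mulRight h) _ _ fun g => ?_
  rw [Equiv.coe_mulRight]
  congr 1
  group

private theorem cli_ind_sum (F : G → ℂ) (hF : ∀ g h, F (h * g * h⁻¹) = F g) (f : C → ℂ) :
    ∑ γ, F γ * cliInd C f γ =
      (Fintype.card G : ℂ) * (1 / (Fintype.card C : ℂ) * ∑ c : C, F c * f c) := by
  have h1 : ∀ γ : G, F γ * cliInd C f γ =
      ∑ g : G, 1 / (Fintype.card C : ℂ) * (F (g * γ * g⁻¹) * cliExt C f (g * γ * g⁻¹)) := by
    intro γ
    unfold cliInd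
    rw [mul_left_comm, Finset.mul_sum, Finset.mul_sum]
    refine Finset.sum_congr rfl fun g _ => ?_
    rw [hF]
  rw [Finset.sum_congr rfl fun γ _ => h1 γ, Finset.sum_comm]
  have h2 : ∀ g : G, ∑ γ : G, 1 / (Fintype.card C : ℂ) * (F (g * γ * g⁻¹) * cliExt C f (g * γ * g⁻¹)) =
      1 / (Fintype.card C : ℂ) * ∑ c : C, F c * f c := by
    intro g
    rw [← Finset.mul_sum, ← cli_ext_sum]
    congr 1
    exact Fintype.sum_equiv (MulAut.conj g).toEquiv _ _ fun γ => by simp [MulAut.conj_apply]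
  rw [Finset.sum_congr rfl fun g _ => h2 g, Finset.sum_const, Finset.card_univ, nsmul_eq_mul]

omit [Fintype G] [Fintype C] in
private theorem cli_ext_inv (f : C → ℂ) (γ : G) :
    cliExt C f γ⁻¹ = cliExt C (fun c => f c⁻¹) γ := by
  unfold cliExt
  by_cases h : γ ∈ C
  · rw [dif_pos h, dif_pos (C.inv_mem h)]
    rfl
  · rw [dif_neg h, dif_neg (fun h' => h (by simpa using C.inv_mem h'))]

private theorem cli_ind_inv (f : C → ℂ) (γ : G) :
    cliInd C f γ⁻¹ = cliInd C (fun c => f c⁻¹) γ := by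
  unfold cliInd
  congr 1
  refine Finset.sum_congr rfl fun g _ => ?_
  rw [← cli_ext_inv]
  congr 1
  group

end Ind

section Gen

variable {G : Type} [Group G] [Fintype G] {d d' : ℕ} (C : Subgroup G) [C.Normal] [Fintype C]

/-- The inner product of two induced characters. -/
private theorem cli_inner (R : C →* Matrix (Fin d) (Fin d) ℂ) (R' : C →* Matrix (Fin d') (Fin d') ℂ) :
    ∑ γ, cliInd C (fun c => (R c).trace) γ * cliInd C (fun c => (R' c).trace) γ⁻¹ =
      (Fintype.card G : ℂ) * (1 / (Fintype.card C : ℂ) * (1 / (Fintype.card C : ℂ) *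
        ∑ g : G, ∑ c : C, (R (MulAut.conjNormal g c)).trace * (R' c⁻¹).trace)) := by
  simp only [cli_ind_inv]
  rw [cli_ind_sum C _ (fun g h => cli_ind_conj C _ g h)]
  congr 2
  have h1 : ∀ c : C, cliInd C (fun c => (R c).trace) c * (R' c⁻¹).trace =
      1 / (Fintype.card C : ℂ) * ∑ g : G, (R (MulAut.conjNormal g c)).trace * (R' c⁻¹).trace := by
    intro c
    unfold cliInd
    rw [mul_assoc, Finset.sum_mul]
    congr 1
    refine Finset.sum_congr rfl fun g _ => ?_
    congr 1
    have h2 : g * (c : G) * g⁻¹ = ((MulAut.conjNormal g c : C) : G) := by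
      rw [MulAut.conjNormal_apply]
    rw [h2, cli_ext_coe]
  rw [Finset.sum_congr rfl fun c _ => h1 c, ← Finset.mul_sum, Finset.sum_comm]

/-- The induced character of a generic representation is of norm one. -/
private theorem cli_norm (R : C →* Matrix (Fin d) (Fin d) ℂ) (hR : Irr R) (hG : Gen C R) :
    ∑ γ, cliInd C (fun c => (R c).trace) γ * cliInd C (fun c => (R c).trace) γ⁻¹ =
      (Fintype.card G : ℂ) := by
  classical
  have hc : (Fintype.card C : ℂ) ≠ 0 := by exact_mod_cast Fintype.card_ne_zero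
  rw [cli_inner]
  have h1 : ∀ g : G, ∑ c : C, (R (MulAut.conjNormal g c)).trace * (R c⁻¹).trace =
      1 * cliExt C (fun _ => (Fintype.card C : ℂ)) g := by
    intro g
    rw [one_mul]
    by_cases hg : g ∈ C
    · have h2 : ∀ c : C, (R (MulAut.conjNormal g c)).trace = (R c).trace := by
        intro c
        have h3 : (MulAut.conjNormal g c : C) = ⟨g, hg⟩ * c * ⟨g, hg⟩⁻¹ := by
          apply Subtype.ext
          rw [MulAut.conjNormal_apply]
          rfl
        rw [h3, map_mul, Matrix.trace_mul_comm, ← Matrix.trace_mul_comm, map_mul, Matrix.mul_assoc,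
          Matrix.trace_mul_comm, Matrix.mul_assoc, ← map_mul, inv_mul_cancel, map_one, Matrix.mul_one]
      simp only [h2]
      rw [orth_same R hR]
      unfold cliExt
      rw [dif_pos hg]
    · have h2 : ∑ c : C, (R (MulAut.conjNormal g c)).trace * (R c⁻¹).trace = 0 :=
        orth (R.comp (MulEquiv.toMonoidHom (MulAut.conjNormal g : MulAut C))) R
          (irr_aut hR (MulAut.conjNormal g)) hR (hG g hg)
      rw [h2]
      unfold cliExt
      rw [dif_neg hg]
  rw [Finset.sum_congr rfl fun g _ => h1 g, cli_ext_sum C (fun _ => 1)]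
  rw [Finset.sum_const, Finset.card_univ, nsmul_eq_mul]
  field_simp

private theorem cli_sum_sq {N : ℕ} (m : Fin N → ℕ) (h : ∑ j, m j ^ 2 = 1) :
    ∃ j, m j = 1 ∧ ∀ k, k ≠ j → m k = 0 := by
  classical
  obtain ⟨j, hj⟩ : ∃ j, m j ≠ 0 := by
    by_contra h0
    push Not at h0
    rw [Finset.sum_eq_zero (fun j _ => by rw [h0 j]; rfl)] at h
    omega
  rw [← Finset.add_sum_erase univ _ (Finset.mem_univ j)] at h
  have h1 : 1 ≤ m j ^ 2 := Nat.one_le_pow _ _ (Nat.pos_of_ne_zero hj)
  have h2 : m j ^ 2 = 1 := by omega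
  have h3 : ∑ k ∈ univ.erase j, m k ^ 2 = 0 := by omega
  refine ⟨j, by simpa using h2, fun k hk => ?_⟩
  have h4 := (Finset.sum_eq_zero_iff.1 h3) k (Finset.mem_erase.2 ⟨hk, Finset.mem_univ k⟩)
  simpa using h4

/-- The induced character of a generic representation is irreducible. -/
private theorem cli_up (W : Wedd G) (R : C →* Matrix (Fin d) (Fin d) ℂ) (hR : Irr R)
    (hG : Gen C R) : ∃ j, ∀ γ, (W.R j γ).trace = cliInd C (fun c => (R c).trace) γ := by
  classical
  have hn : (Fintype.card G : ℂ) ≠ 0 := by exact_mod_cast Fintype.card_ne_zero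
  have hc : (Fintype.card C : ℂ) ≠ 0 := by exact_mod_cast Fintype.card_ne_zero
  obtain ⟨ψ, hψ⟩ : ∃ ψ : G → ℂ, ψ = cliInd C (fun c => (R c).trace) := ⟨_, rfl⟩
  have hcl : ∀ g h, ψ (h * g * h⁻¹) = ψ g := by
    intro g h
    rw [hψ, cli_ind_conj]
  have hm : ∀ j, ∃ m : ℕ, ∑ γ, ψ γ * (W.R j γ⁻¹).trace = (Fintype.card G : ℂ) * m := by
    intro j
    obtain ⟨m, hm⟩ := mult_nat ((W.R j).comp C.subtype) R hR
    refine ⟨m, ?_⟩
    have h1 : ∑ γ, ψ γ * (W.R j γ⁻¹).trace =
        ∑ γ, (W.R j γ⁻¹).trace * cliInd C (fun c => (R c).trace) γ := by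
      rw [hψ]
      exact Finset.sum_congr rfl fun γ _ => mul_comm _ _
    rw [h1, cli_ind_sum C]
    · congr 1
      have h2 : ∑ c : C, (W.R j (c : G)⁻¹).trace * (R c).trace = (Fintype.card C : ℂ) * m := by
        rw [← hm]
        refine Fintype.sum_equiv (Equiv.inv C) _ _ fun c => ?_
        rw [Equiv.inv_apply, inv_inv]
        rfl
      rw [h2]
      field_simp
    · intro g h
      have h4 : (h * g * h⁻¹)⁻¹ = h * g⁻¹ * h⁻¹ := by group
      rw [h4, map_mul, map_mul, Matrix.trace_mul_comm, ← Matrix.mul_assoc, ← map_mul, inv_mul_cancel,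
        map_one, Matrix.one_mul]
  choose m hm using hm
  have hexp : ∀ g, ψ g = ∑ j, (m j : ℂ) * (W.R j g).trace := by
    intro g
    have h1 := class_exp W ψ hcl g
    simp only [hm] at h1
    have h2 : ∑ j, (W.R j g).trace * ((Fintype.card G : ℂ) * m j) =
        (Fintype.card G : ℂ) * ∑ j, (m j : ℂ) * (W.R j g).trace := by
      rw [Finset.mul_sum]
      refine Finset.sum_congr rfl fun j _ => ?_
      ring
    rw [h2] at h1
    exact mul_left_cancel₀ hn h1
  have h1 : ∑ γ, ψ γ * ψ γ⁻¹ = (Fintype.card G : ℂ) := by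
    rw [hψ]
    exact cli_norm C R hR hG
  have h2 : ∑ γ, ψ γ * ψ γ⁻¹ = (Fintype.card G : ℂ) * ((∑ j, m j ^ 2 : ℕ) : ℂ) := by
    have h3 : ∀ γ : G, ψ γ * ψ γ⁻¹ = ∑ j, (m j : ℂ) * (ψ γ * (W.R j γ⁻¹).trace) := by
      intro γ
      rw [hexp γ⁻¹, Finset.mul_sum]
      refine Finset.sum_congr rfl fun j _ => ?_
      ring
    rw [Finset.sum_congr rfl fun γ _ => h3 γ, Finset.sum_comm]
    push_cast
    rw [Finset.mul_sum]
    refine Finset.sum_congr rfl fun j _ => ?_
    rw [← Finset.mul_sum, hm j]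
    ring
  have h4 : ∑ j, m j ^ 2 = 1 := by
    have h5 : (Fintype.card G : ℂ) * ((∑ j, m j ^ 2 : ℕ) : ℂ) = (Fintype.card G : ℂ) * 1 := by
      rw [← h2, h1, mul_one]
    exact_mod_cast mul_left_cancel₀ hn h5
  obtain ⟨j, hj1, hj0⟩ := cli_sum_sq m h4
  refine ⟨j, fun γ => ?_⟩
  rw [← hψ, hexp γ, Finset.sum_eq_single j]
  · rw [hj1, Nat.cast_one, one_mul]
  · intro k _ hk
    rw [hj0 k hk, Nat.cast_zero, zero_mul]
  · intro h
    exact absurd (Finset.mem_univ j) h

end Gen

section Num

variable {G : Type} [Group G] [Fintype G] {r : ℕ}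

private theorem cli_numN (W : Wedd G) (x : Fin r → G) (a b : Fin W.N → ℕ)
    (ha : ∀ j, ∑ γ, eichler x γ * (W.R j γ⁻¹).trace = (Fintype.card G : ℂ) * a j)
    (hb : ∀ j, ∑ γ, eichler x γ * (W.R j γ).trace = (Fintype.card G : ℂ) * b j) :
    2 * numN x = ∑ j, (b j : ℂ) * (a j + nu (W.R j)) := by
  classical
  have hn : (Fintype.card G : ℂ) ≠ 0 := by exact_mod_cast Fintype.card_ne_zero
  have hexp : ∀ g, eichler x g = ∑ j, (b j : ℂ) * (W.R j g⁻¹).trace := by
    intro g
    have h1 := W.class_expand (eichler x) (fun g h => eichler_conj x g h) g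
    simp only [hb] at h1
    have h2 : ∑ j, (W.R j g⁻¹).trace * ((Fintype.card G : ℂ) * b j) =
        (Fintype.card G : ℂ) * ∑ j, (b j : ℂ) * (W.R j g⁻¹).trace := by
      rw [Finset.mul_sum]
      refine Finset.sum_congr rfl fun j _ => ?_
      ring
    rw [h2] at h1
    exact mul_left_cancel₀ hn h1
  have hS : ∑ γ : G, eichler x γ ^ 2 = (Fintype.card G : ℂ) * ∑ j, (b j : ℂ) * a j := by
    have h1 : ∀ γ : G, eichler x γ ^ 2 =
        ∑ j, (b j : ℂ) * (eichler x γ * (W.R j γ⁻¹).trace) := by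
      intro γ
      have h0 : eichler x γ ^ 2 = (∑ j, (b j : ℂ) * (W.R j γ⁻¹).trace) * eichler x γ := by
        rw [← hexp γ, sq]
      rw [h0, Finset.sum_mul]
      refine Finset.sum_congr rfl fun j _ => ?_
      ring
    rw [Finset.sum_congr rfl fun γ _ => h1 γ, Finset.sum_comm, Finset.mul_sum]
    refine Finset.sum_congr rfl fun j _ => ?_
    rw [← Finset.mul_sum, ha j]
    ring
  have hT : ∑ γ : G, eichler x (γ ^ 2) = (Fintype.card G : ℂ) * ∑ j, (b j : ℂ) * nu (W.R j) := by
    have h1 : ∀ j, ∑ γ : G, (W.R j (γ ^ 2)⁻¹).trace = (Fintype.card G : ℂ) * nu (W.R j) := by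
      intro j
      unfold nu
      have h2 : ∑ γ : G, (W.R j (γ ^ 2)⁻¹).trace = ∑ γ : G, (W.R j (γ ^ 2)).trace := by
        refine Fintype.sum_equiv (Equiv.inv G) _ _ fun γ => ?_
        rw [Equiv.inv_apply, inv_pow]
      rw [h2]
      field_simp
    simp only [hexp]
    rw [Finset.sum_comm, Finset.mul_sum]
    refine Finset.sum_congr rfl fun j _ => ?_
    rw [← Finset.mul_sum, h1 j]
    ring
  unfold numN
  rw [Finset.sum_add_distrib, hS, hT]
  simp only [mul_add, Finset.sum_add_distrib]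
  field_simp

/-- At most two irreducible representations contribute to `N`. -/
private theorem cli_two (W : Wedd G) (x : Fin r → G) (hx : IsGenVec x) (hN : (numN x).re ≤ 1) :
    ∃ S : Finset (Fin W.N), S.card ≤ 2 ∧ ∀ j, (∑ γ, eichler x γ * (W.R j γ).trace) *
      (∑ γ, eichler x γ * (W.R j γ⁻¹).trace + (Fintype.card G : ℂ) * nu (W.R j)) ≠ 0 → j ∈ S := by
  classical
  have hn : (Fintype.card G : ℂ) ≠ 0 := by exact_mod_cast Fintype.card_ne_zero
  have hnat := natMult x hx
  choose a ha using fun j => hnat (W.d j) (W.R j) (W.pos j) (W.span_R j)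
  choose b hb' using fun j => hnat (W.d j) (dual (W.R j)) (W.pos j) (span_dual _ (W.span_R j))
  have hb : ∀ j, ∑ γ : G, eichler x γ * (W.R j γ).trace = (Fintype.card G : ℂ) * b j := by
    intro j
    rw [← hb' j]
    refine Finset.sum_congr rfl fun γ _ => ?_
    change _ = eichler x γ * ((W.R j γ⁻¹⁻¹)ᵀ).trace
    rw [inv_inv, Matrix.trace_transpose]
  have hab : ∀ j, nu (W.R j) ≠ 0 → b j = a j := by
    intro j hj
    have h1 : (Fintype.card G : ℂ) * b j = (Fintype.card G : ℂ) * a j := by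
      rw [← ha j, ← hb j]
      refine Finset.sum_congr rfl fun γ _ => ?_
      rw [trace_inv_of_nu (W.R j) (W.span_R j) hj γ]
    exact_mod_cast mul_left_cancel₀ hn h1
  have ht : ∀ j, ∃ t : ℕ, (b j : ℂ) * (a j + nu (W.R j)) = t := by
    intro j
    rcases nu_cases (W.R j) (W.span_R j) with h | h | h
    · exact ⟨b j * a j, by rw [h]; push_cast; ring⟩
    · exact ⟨b j * (a j + 1), by rw [h]; push_cast; ring⟩
    · have hba : b j = a j := hab j (by rw [h]; norm_num)
      rcases Nat.eq_zero_or_pos (a j) with h0 | h0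
      · exact ⟨0, by rw [hba, h0]; simp⟩
      · obtain ⟨k, hk⟩ := Nat.exists_eq_add_of_lt h0
        refine ⟨a j * k, ?_⟩
        rw [h, hba, hk]
        push_cast
        ring
  choose t ht using ht
  have hsum : ∑ j, t j ≤ 2 := by
    have h1 := cli_numN W x a b ha hb
    simp only [ht] at h1
    have h2 : 2 * (numN x).re = ((∑ j, t j : ℕ) : ℝ) := by
      have h3 := congrArg Complex.re h1
      have h4 : (∑ j, ((t j : ℕ) : ℂ)) = (((∑ j, t j : ℕ) : ℝ) : ℂ) := by push_cast; rfl
      rw [h4, Complex.ofReal_re] at h3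
      rw [← h3]
      simp
    have h5 : ((∑ j, t j : ℕ) : ℝ) ≤ 2 := by linarith
    exact_mod_cast h5
  refine ⟨univ.filter fun j => t j ≠ 0, ?_, ?_⟩
  · calc (univ.filter fun j => t j ≠ 0).card = ∑ j, if t j ≠ 0 then 1 else 0 :=
          Finset.card_filter _ _
      _ ≤ ∑ j, t j := Finset.sum_le_sum fun j _ => by
          split_ifs with h
          · exact Nat.pos_of_ne_zero h
          · exact Nat.zero_le _
      _ ≤ 2 := hsum
  · intro j hj
    rw [Finset.mem_filter]
    refine ⟨Finset.mem_univ j, fun h0 => hj ?_⟩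
    rw [ha, hb]
    have h1 := ht j
    rw [h0, Nat.cast_zero] at h1
    calc (Fintype.card G : ℂ) * (b j : ℂ) * ((Fintype.card G : ℂ) * a j + (Fintype.card G : ℂ) * nu (W.R j))
        = (Fintype.card G : ℂ) * (Fintype.card G : ℂ) * ((b j : ℂ) * (a j + nu (W.R j))) := by ring
      _ = 0 := by rw [h1, mul_zero]

end Num

section Main

variable {G : Type} [Group G] [Fintype G] {r d : ℕ}

private theorem cli_nuC (C : Subgroup G) [C.Normal] [Fintype C] (R : C →* Matrix (Fin d) (Fin d) ℂ) :
    ∑ γ, cliInd C (fun c => (R c).trace) (γ ^ 2) = (Fintype.card G : ℂ) * nuC C R := by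
  have h1 : nuC C R = 1 / (Fintype.card C : ℂ) * ∑ γ : G, cliExt C (fun c => (R c).trace) (γ ^ 2) := rfl
  rw [h1]
  unfold cliInd
  rw [← Finset.mul_sum, Finset.sum_comm]
  have h2 : ∀ g : G, ∑ γ : G, cliExt C (fun c => (R c).trace) (g * γ ^ 2 * g⁻¹) =
      ∑ γ : G, cliExt C (fun c => (R c).trace) (γ ^ 2) := by
    intro g
    refine Fintype.sum_equiv (MulAut.conj g).toEquiv _ _ fun γ => ?_
    have h3 : (MulAut.conj g).toEquiv γ = g * γ * g⁻¹ := by simp [MulAut.conj_apply]
    rw [h3]
    congr 1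
    rw [sq, sq]
    group
  rw [Finset.sum_congr rfl fun g _ => h2 g, Finset.sum_const, Finset.card_univ, nsmul_eq_mul]
  ring

/-- The fibres of the induction. -/
private theorem cli_fibre (C : Subgroup G) [C.Normal] [Fintype C] (WC : Wedd C)
    (F : Finset (Fin WC.N)) (hG : ∀ j ∈ F, Gen C (WC.R j)) (φ : G → ℂ)
    (hφ : ∀ j ∈ F, ∀ γ, φ γ = cliInd C (fun c => (WC.R j c).trace) γ) : F.card ≤ C.index := by
  classical
  have hn : (Fintype.card G : ℂ) ≠ 0 := by exact_mod_cast Fintype.card_ne_zero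
  rcases F.eq_empty_or_nonempty with h0 | ⟨j₀, hj₀⟩
  · rw [h0, Finset.card_empty]
    exact Nat.zero_le _
  · have hconj : ∀ j : Fin WC.N, ∃ g : G, j ∈ F →
        ∀ c : C, (WC.R j₀ (MulAut.conjNormal g c)).trace = (WC.R j c).trace := by
      intro j
      by_cases hj : j ∈ F
      · by_contra hno
        push Not at hno
        have h1 : ∀ g : G, ∑ c : C, (WC.R j₀ (MulAut.conjNormal g c)).trace *
            (WC.R j c⁻¹).trace = 0 := by
          intro g
          obtain ⟨-, c, hc'⟩ := hno g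
          exact orth ((WC.R j₀).comp (MulEquiv.toMonoidHom (MulAut.conjNormal g : MulAut C)))
            (WC.R j) (irr_aut (irr_wedd WC j₀) (MulAut.conjNormal g)) (irr_wedd WC j) ⟨c, hc'⟩
        have h2 := cli_inner C (WC.R j₀) (WC.R j)
        simp only [h1, Finset.sum_const_zero, mul_zero] at h2
        have h3 := cli_norm C (WC.R j₀) (irr_wedd WC j₀) (hG j₀ hj₀)
        have h4 : ∀ γ, cliInd C (fun c => (WC.R j c).trace) γ =
            cliInd C (fun c => (WC.R j₀ c).trace) γ := by
          intro γ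
          rw [← hφ j hj γ, hφ j₀ hj₀ γ]
        simp only [h4] at h2
        rw [h3] at h2
        exact hn h2
      · exact ⟨1, fun h => absurd h hj⟩
    choose g hg using hconj
    have hcard : F.card ≤ (univ : Finset (G ⧸ C)).card := by
      refine Finset.card_le_card_of_injOn (fun j => (QuotientGroup.mk (g j) : G ⧸ C))
        (fun _ _ => Finset.mem_coe.2 (Finset.mem_univ _)) ?_
      intro j hj j' hj' he
      rw [Finset.mem_coe] at hj hj'
      have h1 : (g j)⁻¹ * g j' ∈ C := QuotientGroup.eq.1 he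
      refine index_inj WC fun c => ?_
      obtain ⟨c₀, hc₀⟩ : ∃ c₀ : C, (c₀ : G) = (g j)⁻¹ * g j' := ⟨⟨_, h1⟩, rfl⟩
      have h2 : (MulAut.conjNormal (g j') c : C) = MulAut.conjNormal (g j) (c₀ * c * c₀⁻¹) := by
        apply Subtype.ext
        rw [MulAut.conjNormal_apply, MulAut.conjNormal_apply]
        push_cast
        rw [hc₀]
        group
      rw [← hg j' hj' c, h2, hg j hj]
      rw [map_mul, map_mul, Matrix.trace_mul_comm, ← Matrix.mul_assoc, ← map_mul, inv_mul_cancel,
        map_one, Matrix.one_mul]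
    rw [Finset.card_univ] at hcard
    rw [Subgroup.index, Nat.card_eq_fintype_card]
    exact hcard

open Classical in
/-- at most `2 [G : C]` generic representations of `C` contribute to `N` -/
theorem generic_count (C : Subgroup G) [C.Normal] [Fintype C] (x : Fin r → G) (hx : IsGenVec x)
    (hN : (numN x).re ≤ 1) (WC : Wedd C) :
    (univ.filter fun j => Gen C (WC.R j) ∧
      mC C x (dual (WC.R j)) * (mC C x (WC.R j) + nuC C (WC.R j)) ≠ 0).card ≤ 2 * C.index := by
  have hn : (Fintype.card G : ℂ) ≠ 0 := by exact_mod_cast Fintype.card_ne_zero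
  have hc : (Fintype.card C : ℂ) ≠ 0 := by exact_mod_cast Fintype.card_ne_zero
  obtain ⟨W⟩ := exists_wedd G
  obtain ⟨S, hS2, hS⟩ := cli_two W x hx hN
  have hup : ∀ j : Fin WC.N, ∃ k : Fin W.N, Gen C (WC.R j) →
      ∀ γ, (W.R k γ).trace = cliInd C (fun c => (WC.R j c).trace) γ := by
    intro j
    by_cases hj : Gen C (WC.R j)
    · obtain ⟨k, hk⟩ := cli_up C W (WC.R j) (irr_wedd WC j) hj
      exact ⟨k, fun _ => hk⟩
    · obtain ⟨k, -⟩ : ∃ k : Fin W.N, True := by
        by_contra h0
        push Not at h0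
        have h1 := W.sum_sq
        rw [Finset.sum_eq_zero (fun k _ => (h0 k).elim)] at h1
        exact Fintype.card_ne_zero h1.symm
      exact ⟨k, fun h => absurd h hj⟩
  choose up hup using hup
  -- the image
  have hmaps : ∀ j ∈ univ.filter fun j => Gen C (WC.R j) ∧
      mC C x (dual (WC.R j)) * (mC C x (WC.R j) + nuC C (WC.R j)) ≠ 0, up j ∈ S := by
    intro j hj
    rw [Finset.mem_filter] at hj
    obtain ⟨-, hG, hne⟩ := hj
    apply hS
    intro h0
    apply hne
    have h1 : ∑ γ, eichler x γ * (W.R (up j) γ).trace =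
        (Fintype.card G : ℂ) * mC C x (dual (WC.R j)) := by
      have h2 : ∀ γ, eichler x γ * (W.R (up j) γ).trace =
          eichler x γ * cliInd C (fun c => (WC.R j c).trace) γ := fun γ => by rw [hup j hG γ]
      rw [Finset.sum_congr rfl fun γ _ => h2 γ, cli_ind_sum C _ (fun g h => eichler_conj x g h)]
      congr 1
      unfold mC
      congr 1
      refine Finset.sum_congr rfl fun c _ => ?_
      change _ = eichler x (c : G) * ((WC.R j c⁻¹⁻¹)ᵀ).trace
      rw [inv_inv, Matrix.trace_transpose]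
    have h3 : ∑ γ, eichler x γ * (W.R (up j) γ⁻¹).trace =
        (Fintype.card G : ℂ) * mC C x (WC.R j) := by
      have h2 : ∀ γ, eichler x γ * (W.R (up j) γ⁻¹).trace =
          eichler x γ * cliInd C (fun c => (WC.R j c⁻¹).trace) γ := by
        intro γ
        rw [hup j hG γ⁻¹, cli_ind_inv]
      rw [Finset.sum_congr rfl fun γ _ => h2 γ, cli_ind_sum C _ (fun g h => eichler_conj x g h)]
      rfl
    have h4 : nu (W.R (up j)) = nuC C (WC.R j) := by
      unfold nu
      simp only [hup j hG]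
      rw [cli_nuC]
      field_simp
    rw [h1, h3, h4] at h0
    have h5 : (Fintype.card G : ℂ) * (Fintype.card G : ℂ) *
        (mC C x (dual (WC.R j)) * (mC C x (WC.R j) + nuC C (WC.R j))) = 0 := by
      rw [← h0]
      ring
    rcases mul_eq_zero.1 h5 with h6 | h6
    · exact absurd h6 (mul_ne_zero hn hn)
    · exact h6
  -- the fibres
  have hfib : ∀ k ∈ S, ((univ.filter fun j => Gen C (WC.R j) ∧
      mC C x (dual (WC.R j)) * (mC C x (WC.R j) + nuC C (WC.R j)) ≠ 0).filter
        fun j => up j = k).card ≤ C.index := by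
    intro k _
    refine cli_fibre C WC _ (fun j hj => ?_) (fun γ => (W.R k γ).trace) (fun j hj γ => ?_)
    · rw [Finset.mem_filter, Finset.mem_filter] at hj
      exact hj.1.2.1
    · rw [Finset.mem_filter, Finset.mem_filter] at hj
      rw [← hj.2]
      exact hup j hj.1.2.1 γ
  calc (univ.filter fun j => Gen C (WC.R j) ∧
      mC C x (dual (WC.R j)) * (mC C x (WC.R j) + nuC C (WC.R j)) ≠ 0).card
      ≤ C.index * S.card := Finset.card_le_mul_card_image_of_maps_to hmaps _ hfib
    _ ≤ C.index * 2 := Nat.mul_le_mul_left _ hS2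
    _ = 2 * C.index := Nat.mul_comm _ _

end Main

end Pool.Agent.CO30
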