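import Pool.Agent.CO75.Fun

/-!
# Definitions for the numerical criterion, all finite groups

`lam g = max (0, (g-1)(g-5)/3)`, `Lam x = ∑_{i,j} lam (gcd (m_i, m_j)) / (m_i m_j)`, `ang z ∈ [0,1)` with
`z = |z| exp (2 π i ang z)`, `age X` the sum of `ang` over the eigenvalues of `X`.
-/

namespace Pool.Agent.CO30

open Pool.Agent.CO75 Finset

/-- `max (0, (g-1)(g-5)/3)` -/
noncomputable def lam (g : ℕ) : ℝ := max 0 (((g : ℝ) - 1) * ((g : ℝ) - 5) / 3)

/-- The bound for the loss, divided by the order of the group, in terms of the orders. -/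
noncomputable def LamN {r : ℕ} (m : Fin r → ℕ) : ℝ :=
  ∑ i, ∑ j, lam (Nat.gcd (m i) (m j)) / ((m i : ℝ) * (m j : ℝ))

/-- The area in terms of the orders. -/
noncomputable def areaN {r : ℕ} (m : Fin r → ℕ) : ℝ := (r : ℝ) - 2 - ∑ i, 1 / (m i : ℝ)

/-- The fractional angle in `[0,1)`. -/
noncomputable def ang (z : ℂ) : ℝ := Int.fract (Complex.arg z / (2 * Real.pi))

/-- The age: the sum of the fractional angles of the eigenvalues. -/
noncomputable def age {d : ℕ} (X : Matrix (Fin d) (Fin d) ℂ) : ℝ :=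
  (X.charpoly.roots.map ang).sum

end Pool.Agent.CO30
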