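import Pool.Agent.CO30.Kq
import Pool.Agent.CO30.Defs
import Pool.Agent.CO75.Formula

/-!
# The key inequality: `|G| A² + E ≤ 12 N + 4 + 4 k`, `k` the number of quaternionic representations
-/

namespace Pool.Agent.CO30

open Matrix Finset Pool.Agent.CO75

variable {G : Type} [Group G] [Fintype G] {r : ℕ}

/-- The trace formula gives a class function. -/
theorem eichler_conj (x : Fin r → G) (γ h : G) : eichler x (h * γ * h⁻¹) = eichler x γ := by
  classical
  unfold eichler
  have h1 : h * γ * h⁻¹ = 1 ↔ γ = 1 := conj_eq_one_iff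
  by_cases hγ : γ = 1
  · rw [if_pos hγ, if_pos (h1.2 hγ)]
  · rw [if_neg hγ, if_neg fun h' => hγ (h1.1 h')]
    congr 1
    refine Finset.sum_congr rfl fun i _ => ?_
    congr 1
    refine Fintype.sum_equiv (Equiv.mulLeft h⁻¹) _ _ fun g => ?_
    refine Finset.sum_congr rfl fun s _ => ?_
    rw [Equiv.coe_mulLeft]
    have h2 : (h * γ * h⁻¹ = g * x i ^ s * g⁻¹) ↔ (γ = h⁻¹ * g * x i ^ s * (h⁻¹ * g)⁻¹) := by
      constructor
      · intro h3
        have : γ = h⁻¹ * (h * γ * h⁻¹) * h := by group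
        rw [this, h3]
        group
      · intro h3
        rw [h3]
        group
    simp only [h2]

/-- The dual representation. -/
noncomputable def dual {d : ℕ} (R : G →* Matrix (Fin d) (Fin d) ℂ) :
    G →* Matrix (Fin d) (Fin d) ℂ where
  toFun g := (R g⁻¹)ᵀ
  map_one' := by rw [inv_one, map_one, Matrix.transpose_one]
  map_mul' g h := by rw [_root_.mul_inv_rev, map_mul, Matrix.transpose_mul]

theorem span_dual {d : ℕ} (R : G →* Matrix (Fin d) (Fin d) ℂ)
    (hR : Submodule.span ℂ (Set.range R) = ⊤) :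
    Submodule.span ℂ (Set.range (dual R)) = ⊤ := by
  rw [eq_top_iff]
  rintro M -
  have h : ∀ A : Matrix (Fin d) (Fin d) ℂ, Aᵀ ∈ Submodule.span ℂ (Set.range (dual R)) := by
    refine span_ind hR _ ?_ ?_ ?_ ?_
    · intro g
      refine Submodule.subset_span ⟨g⁻¹, ?_⟩
      change (R g⁻¹⁻¹)ᵀ = _
      rw [inv_inv]
    · rw [Matrix.transpose_zero]
      exact Submodule.zero_mem _
    · intro A B hA hB
      rw [Matrix.transpose_add]
      exact Submodule.add_mem _ hA hB
    · intro c A hA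
      rw [Matrix.transpose_smul]
      exact Submodule.smul_mem _ _ hA
  have := h Mᵀ
  rwa [Matrix.transpose_transpose] at this

/-- The multiplicities are natural numbers. -/
def NatMult (x : Fin r → G) : Prop :=
  ∀ (d : ℕ) (R : G →* Matrix (Fin d) (Fin d) ℂ), 0 < d → Submodule.span ℂ (Set.range R) = ⊤ →
    ∃ a : ℕ, ∑ γ : G, eichler x γ * (R γ⁻¹).trace = (Fintype.card G : ℂ) * a

theorem counting (W : Wedd G) (x : Fin r → G) (hnat : NatMult x) :
    (∑ γ : G, eichler x γ ^ 2).re / (Fintype.card G : ℝ) ≤ 3 * (numN x).re + W.Q.card := by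
  classical
  have hn : (Fintype.card G : ℂ) ≠ 0 := by exact_mod_cast Fintype.card_ne_zero
  have hn' : (Fintype.card G : ℝ) ≠ 0 := by exact_mod_cast Fintype.card_ne_zero
  choose a ha using fun j => hnat (W.d j) (W.R j) (W.pos j) (W.span_R j)
  choose b hb using fun j => hnat (W.d j) (dual (W.R j)) (W.pos j) (span_dual _ (W.span_R j))
  have hb' : ∀ j, ∑ γ : G, eichler x γ * (W.R j γ).trace = (Fintype.card G : ℂ) * b j := by
    intro j
    rw [← hb j]
    refine Finset.sum_congr rfl fun γ _ => ?_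
    change _ = eichler x γ * ((W.R j γ⁻¹⁻¹)ᵀ).trace
    rw [inv_inv, Matrix.trace_transpose]
  have hexp : ∀ g, eichler x g = ∑ j, (b j : ℂ) * (W.R j g⁻¹).trace := by
    intro g
    have h1 := W.class_expand (eichler x) (fun g h => eichler_conj x g h) g
    simp only [hb'] at h1
    have h2 : ∑ j, (W.R j g⁻¹).trace * ((Fintype.card G : ℂ) * b j) =
        (Fintype.card G : ℂ) * ∑ j, (b j : ℂ) * (W.R j g⁻¹).trace := by
      rw [Finset.mul_sum]
      refine Finset.sum_congr rfl fun j _ => ?_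
      ring
    rw [h2] at h1
    exact mul_left_cancel₀ hn h1
  have hS : ∑ γ : G, eichler x γ ^ 2 = (Fintype.card G : ℂ) * ∑ j, (b j : ℂ) * a j := by
    have h1 : ∀ γ : G, eichler x γ ^ 2 =
        ∑ j, (b j : ℂ) * (eichler x γ * (W.R j γ⁻¹).trace) := by
      intro γ
      have h0 : eichler x γ ^ 2 = (∑ j, (b j : ℂ) * (W.R j γ⁻¹).trace) * eichler x γ := by
        rw [← hexp γ, sq]
      rw [h0, Finset.sum_mul]
      refine Finset.sum_congr rfl fun j _ => ?_
      ring
    rw [Finset.sum_congr rfl fun γ _ => h1 γ, Finset.sum_comm, Finset.mul_sum]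
    refine Finset.sum_congr rfl fun j _ => ?_
    rw [← Finset.mul_sum, ha j]
    ring
  have hT : ∑ γ : G, eichler x (γ ^ 2) = (Fintype.card G : ℂ) * ∑ j, (b j : ℂ) * nu (W.R j) := by
    have h1 : ∀ j, ∑ γ : G, (W.R j (γ ^ 2)⁻¹).trace = (Fintype.card G : ℂ) * nu (W.R j) := by
      intro j
      unfold nu
      have h2 : ∑ γ : G, (W.R j (γ ^ 2)⁻¹).trace = ∑ γ : G, (W.R j (γ ^ 2)).trace := by
        refine Fintype.sum_equiv (Equiv.inv G) _ _ fun γ => ?_
        rw [Equiv.inv_apply, inv_pow]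
      rw [h2]
      field_simp
    simp only [hexp]
    rw [Finset.sum_comm, Finset.mul_sum]
    refine Finset.sum_congr rfl fun j _ => ?_
    rw [← Finset.mul_sum, h1 j]
    ring
  -- `b = a` if `nu ≠ 0`
  have hab : ∀ j, nu (W.R j) ≠ 0 → b j = a j := by
    intro j hj
    have h1 : (Fintype.card G : ℂ) * b j = (Fintype.card G : ℂ) * a j := by
      rw [← ha j, ← hb' j]
      refine Finset.sum_congr rfl fun γ _ => ?_
      rw [trace_inv_of_nu (W.R j) (W.span_R j) hj γ]
    exact_mod_cast mul_left_cancel₀ hn h1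
  have hre : ∀ j, (nu (W.R j)).re = if nu (W.R j) = 1 then 1 else if nu (W.R j) = -1 then -1 else 0 := by
    intro j
    rcases nu_cases (W.R j) (W.span_R j) with h | h | h
    · rw [h]; norm_num
    · rw [h]; norm_num
    · rw [h]; norm_num
  have hS' : (∑ γ : G, eichler x γ ^ 2).re / (Fintype.card G : ℝ) = ∑ j, (b j : ℝ) * a j := by
    rw [hS]
    have h1 : (Fintype.card G : ℂ) * ∑ j, (b j : ℂ) * a j =
        (((Fintype.card G : ℝ) * ∑ j, (b j : ℝ) * a j : ℝ) : ℂ) := by
      push_cast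
      rfl
    rw [h1, Complex.ofReal_re]
    field_simp
  have hN : 2 * (numN x).re = ∑ j, (b j : ℝ) * (a j + (nu (W.R j)).re) := by
    have h1 : numN x = 1 / 2 * ∑ j, (b j : ℂ) * (a j + nu (W.R j)) := by
      unfold numN
      rw [Finset.sum_add_distrib, hS, hT]
      simp only [mul_add, Finset.sum_add_distrib]
      field_simp
    have h2 : ∀ j, nu (W.R j) = ((nu (W.R j)).re : ℂ) := by
      intro j
      rcases nu_cases (W.R j) (W.span_R j) with h | h | h
      · rw [h]; norm_num
      · rw [h]; norm_num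
      · rw [h]; norm_num
    have h3 : numN x = ((1 / 2 * ∑ j, (b j : ℝ) * (a j + (nu (W.R j)).re) : ℝ) : ℂ) := by
      rw [h1]
      push_cast
      congr 1
      refine Finset.sum_congr rfl fun j _ => ?_
      rw [← h2 j]
    rw [h3, Complex.ofReal_re]
    ring
  rw [hS']
  have hQ : (W.Q.card : ℝ) = ∑ j, if nu (W.R j) = -1 then (1 : ℝ) else 0 := by
    unfold Wedd.Q
    rw [Finset.card_filter]
    push_cast
    rfl
  have hpt : ∀ j, (b j : ℝ) * a j ≤ 3 / 2 * ((b j : ℝ) * (a j + (nu (W.R j)).re)) +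
      if nu (W.R j) = -1 then (1 : ℝ) else 0 := by
    intro j
    have ha0 : (0 : ℝ) ≤ a j := Nat.cast_nonneg _
    have hb0 : (0 : ℝ) ≤ b j := Nat.cast_nonneg _
    rcases nu_cases (W.R j) (W.span_R j) with h | h | h
    · rw [h]
      simp only [Complex.zero_re, add_zero]
      rw [if_neg (by norm_num)]
      nlinarith [mul_nonneg hb0 ha0]
    · rw [h]
      simp only [Complex.one_re]
      rw [if_neg (by norm_num)]
      nlinarith [mul_nonneg hb0 ha0]
    · rw [h, if_pos rfl]
      have hba : b j = a j := hab j (by rw [h]; norm_num)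
      rw [hba]
      simp only [Complex.neg_re, Complex.one_re]
      have h5 : (0 : ℝ) ≤ ((a j : ℝ) - 1) * ((a j : ℝ) - 2) := by
        rcases Nat.lt_or_ge (a j) 2 with h6 | h6
        · have h7 : (a j : ℝ) ≤ 1 := by exact_mod_cast (by omega : a j ≤ 1)
          nlinarith
        · have h7 : (2 : ℝ) ≤ a j := by exact_mod_cast h6
          nlinarith
      nlinarith
  calc ∑ j, (b j : ℝ) * a j ≤ ∑ j, (3 / 2 * ((b j : ℝ) * (a j + (nu (W.R j)).re)) +
        if nu (W.R j) = -1 then (1 : ℝ) else 0) := Finset.sum_le_sum fun j _ => hpt j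
    _ = 3 / 2 * (2 * (numN x).re) + W.Q.card := by
        rw [Finset.sum_add_distrib, ← Finset.mul_sum, ← hN, hQ]
    _ = _ := by ring

/-- The second moment of the trace formula. -/
theorem second_moment (x : Fin r → G) :
    4 * ((∑ γ : G, eichler x γ ^ 2).re / (Fintype.card G : ℝ)) =
      (Fintype.card G : ℝ) * area x ^ 2 - 4 + E x := by
  classical
  have hn : (Fintype.card G : ℝ) ≠ 0 := by
    exact_mod_cast (Fintype.card_pos (α := G)).ne'
  have h1 : ∀ γ : G, γ ≠ 1 → (eichler x γ).re = 1 - F x γ / 2 := by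
    intro γ hγ
    rw [eichler_eq x hγ]
    simp
  have h2 : ∀ γ : G, γ ≠ 1 → (eichler x γ).im = T x γ / 2 := by
    intro γ hγ
    rw [eichler_eq x hγ]
    simp
    ring
  have h3 : eichler x 1 = (genus x : ℂ) := by
    unfold eichler
    rw [if_pos rfl]
  have hsumc : ∑ γ ∈ univ.erase (1 : G), (1 : ℝ) = (Fintype.card G : ℝ) - 1 := by
    rw [Finset.sum_const, Finset.card_erase_of_mem (Finset.mem_univ _), Finset.card_univ, nsmul_eq_mul,
      mul_one, Nat.cast_sub Fintype.card_pos, Nat.cast_one]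
  have hF := sum_F x
  have hC : ∑ γ : G, (eichler x γ ^ 2).re = genus x ^ 2 +
      ((Fintype.card G : ℝ) - 1 - (Fintype.card G : ℝ) * (area x + 2)) +
      (1 / 4) * ∑ γ ∈ univ.erase (1 : G), (F x γ ^ 2 - T x γ ^ 2) := by
    rw [← Finset.add_sum_erase univ (fun γ : G => (eichler x γ ^ 2).re) (Finset.mem_univ (1 : G))]
    have h4 : ∑ γ ∈ univ.erase (1 : G), (eichler x γ ^ 2).re =
        ∑ γ ∈ univ.erase (1 : G), ((1 - F x γ) + (1 / 4) * (F x γ ^ 2 - T x γ ^ 2)) := by
      refine Finset.sum_congr rfl fun γ hγ => ?_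
      have hg := Finset.ne_of_mem_erase hγ
      rw [sq, Complex.mul_re, h1 γ hg, h2 γ hg]
      ring
    have h5 : (eichler x 1 ^ 2).re = genus x ^ 2 := by
      rw [h3, ← Complex.ofReal_pow, Complex.ofReal_re]
    rw [h4, Finset.sum_add_distrib, Finset.sum_sub_distrib, hF, hsumc, ← Finset.mul_sum]
    simp only [h5]
    ring
  rw [Complex.re_sum, hC, genus_eq]
  unfold E
  field_simp
  ring

theorem key_ineq (W : Wedd G) (x : Fin r → G) (hnat : NatMult x)
    (hN : numN x = (r : ℂ) - 3) :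
    (Fintype.card G : ℝ) * area x ^ 2 + E x ≤ 12 * ((r : ℝ) - 3) + 4 + 4 * W.Q.card := by
  have h1 := counting W x hnat
  have h2 := second_moment x
  have h3 : (numN x).re = (r : ℝ) - 3 := by
    rw [hN]
    have : ((r : ℂ) - 3) = (((r : ℝ) - 3 : ℝ) : ℂ) := by push_cast; rfl
    rw [this, Complex.ofReal_re]
  rw [h3] at h1
  linarith

end Pool.Agent.CO30
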