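import Pool.Agent.CO30.Defs
import Pool.Agent.CO75.Energy

/-!
# The lower bound for `E` for all finite groups

`E ≥ - ∑_i (1 / m_i) ∑_{m ∣ m_i, m ≠ 1} F(x_i^(m_i / m)) D m`, and for each `g` the `m` for which
`x_i^(m_i / m)` is in `g ⟨x_j⟩ g⁻¹` are the divisors of `d = |⟨x_i⟩ ∩ g ⟨x_j⟩ g⁻¹|`, which divides
`gcd (m_i, m_j)`; the sum of `D m` over the divisors `m ≠ 1` of `d` is `(d-1)(d-5)/3`.
-/

namespace Pool.Agent.CO30

open Pool.Agent.CO75 Finset

variable {G : Type} [Group G] [Fintype G] {r : ℕ}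

private theorem eb_orderOf_pow_div (y : G) {m : ℕ} (hm : m ∣ orderOf y) :
    orderOf (y ^ (orderOf y / m)) = m := by
  have hpos : 0 < orderOf y := orderOf_pos y
  obtain ⟨k, hk⟩ := hm
  have hm0 : 0 < m := by
    rcases Nat.eq_zero_or_pos m with h | h
    · rw [h, zero_mul] at hk
      omega
    · exact h
  have hk0 : 0 < k := by
    rcases Nat.eq_zero_or_pos k with h | h
    · rw [h, mul_zero] at hk
      omega
    · exact h
  have h1 : orderOf y / m = k := by
    rw [hk]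
    exact Nat.mul_div_cancel_left k hm0
  rw [h1, orderOf_pow_of_dvd hk0.ne' ⟨m, by rw [hk, mul_comm]⟩, hk]
  exact Nat.mul_div_cancel m hk0

private theorem eb_pow_div_mem (y : G) {c : G} (hc : c ∈ Subgroup.zpowers y) :
    y ^ (orderOf y / orderOf c) ∈ Subgroup.zpowers c := by
  have hpos : 0 < orderOf y := orderOf_pos y
  obtain ⟨k, hk⟩ := (mem_powers_iff_mem_zpowers.2 hc : c ∈ Submonoid.powers y)
  simp only at hk
  have hord : orderOf c = orderOf y / Nat.gcd (orderOf y) k := by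
    rw [← hk, orderOf_pow]
  have hg : Nat.gcd (orderOf y) k ∣ orderOf y := Nat.gcd_dvd_left _ _
  have hdiv : orderOf y / orderOf c = Nat.gcd (orderOf y) k := by
    rw [hord]
    exact Nat.div_div_self hg hpos.ne'
  rw [hdiv]
  refine ⟨Nat.gcdB (orderOf y) k, ?_⟩
  simp only
  have hb := Nat.gcd_eq_gcd_ab (orderOf y) k
  rw [← hk, ← zpow_natCast y (Nat.gcd (orderOf y) k), hb, zpow_add, zpow_mul,
    zpow_natCast y (orderOf y), pow_orderOf_eq_one, one_zpow, one_mul, zpow_mul, zpow_natCast y k]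

omit [Fintype G] in
private theorem eb_orderOf_conj (g a : G) : orderOf (g⁻¹ * a * g) = orderOf a := by
  have h := MulEquiv.orderOf_eq (MulAut.conj g⁻¹) a
  rw [MulAut.conj_apply, inv_inv] at h
  exact h

omit [Fintype G] in
private theorem eb_conj_pow (g a : G) (k : ℕ) : (g⁻¹ * a * g) ^ k = g⁻¹ * a ^ k * g := by
  have h := conj_pow (i := k) (a := g⁻¹) (b := a)
  rw [inv_inv] at h
  exact h

/-- The intersection of two cyclic subgroups. -/
private theorem eb_inter (y z : G) : ∃ d : ℕ, d ∣ orderOf y ∧ d ∣ orderOf z ∧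
    ∀ m, m ∣ orderOf y → (y ^ (orderOf y / m) ∈ Subgroup.zpowers z ↔ m ∣ d) := by
  have hcy : IsCyclic ((Subgroup.zpowers y ⊓ Subgroup.zpowers z : Subgroup G)) :=
    Subgroup.isCyclic_of_le (inf_le_left : Subgroup.zpowers y ⊓ Subgroup.zpowers z ≤
      Subgroup.zpowers y)
  obtain ⟨c, hc⟩ := hcy.exists_generator
  have hcy' : (c : G) ∈ Subgroup.zpowers y := c.2.1
  have hcz : (c : G) ∈ Subgroup.zpowers z := c.2.2
  refine ⟨orderOf (c : G), orderOf_dvd_of_mem_zpowers hcy', orderOf_dvd_of_mem_zpowers hcz, ?_⟩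
  intro m hm
  constructor
  · intro h
    have h1 : y ^ (orderOf y / m) ∈ Subgroup.zpowers (c : G) := by
      have h2 := hc ⟨y ^ (orderOf y / m), Subgroup.npow_mem_zpowers y _, h⟩
      obtain ⟨k, hk⟩ := h2
      refine ⟨k, ?_⟩
      have h3 := congrArg Subtype.val hk
      simpa using h3
    have h2 := orderOf_dvd_of_mem_zpowers h1
    rwa [eb_orderOf_pow_div y hm] at h2
  · intro h
    have h1 := eb_pow_div_mem y hcy'
    have hdy : orderOf (c : G) ∣ orderOf y := orderOf_dvd_of_mem_zpowers hcy'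
    obtain ⟨a, ha⟩ := h
    obtain ⟨b, hb⟩ := hdy
    have hpos : 0 < orderOf y := orderOf_pos y
    have hcpos : 0 < orderOf (c : G) := orderOf_pos _
    have hm0 : 0 < m := Nat.pos_of_dvd_of_pos hm hpos
    have e1 : orderOf y / orderOf (c : G) = b := by
      rw [hb]
      exact Nat.mul_div_cancel_left _ hcpos
    have e2 : orderOf y / m = b * a := by
      rw [hb, ha, mul_assoc, Nat.mul_div_cancel_left _ hm0, mul_comm]
    rw [e1] at h1
    rw [e2, pow_mul]
    exact Subgroup.pow_mem _ ((Subgroup.zpowers_le.2 hcz) h1) a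

open Classical in
/-- The contribution of one `g`. -/
private theorem eb_single (y z g : G) :
    ∑ m ∈ (orderOf y).divisors.erase 1,
      (if g⁻¹ * y ^ (orderOf y / m) * g ∈ Subgroup.zpowers z then D m else 0) ≤
      lam (Nat.gcd (orderOf y) (orderOf z)) := by
  obtain ⟨d, hdy, hdz, hd⟩ := eb_inter (g⁻¹ * y * g) z
  rw [eb_orderOf_conj] at hdy hd
  have hy0 : 0 < orderOf y := orderOf_pos y
  have hd0 : 0 < d := Nat.pos_of_dvd_of_pos hdy hy0
  have h1 : ∑ m ∈ (orderOf y).divisors.erase 1,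
      (if g⁻¹ * y ^ (orderOf y / m) * g ∈ Subgroup.zpowers z then D m else 0) =
      ∑ m ∈ d.divisors.erase 1, D m := by
    rw [← Finset.sum_filter]
    refine Finset.sum_congr ?_ fun _ _ => rfl
    ext m
    rw [Finset.mem_filter, Finset.mem_erase, Nat.mem_divisors, Finset.mem_erase, Nat.mem_divisors]
    constructor
    · rintro ⟨⟨h1, h2, -⟩, h3⟩
      rw [← eb_conj_pow, hd m h2] at h3
      exact ⟨h1, h3, hd0.ne'⟩
    · rintro ⟨h1, h2, -⟩
      have h3 : m ∣ orderOf y := h2.trans hdy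
      refine ⟨⟨h1, h3, hy0.ne'⟩, ?_⟩
      rw [← eb_conj_pow, hd m h3]
      exact h2
  rw [h1, sum_D hd0]
  have hg0 : 0 < Nat.gcd (orderOf y) (orderOf z) := Nat.gcd_pos_of_pos_left _ hy0
  have hle : d ≤ Nat.gcd (orderOf y) (orderOf z) :=
    Nat.le_of_dvd hg0 (Nat.dvd_gcd hdy hdz)
  have hle' : (d : ℝ) ≤ (Nat.gcd (orderOf y) (orderOf z) : ℝ) := by exact_mod_cast hle
  have hd1 : (1 : ℝ) ≤ (d : ℝ) := by exact_mod_cast hd0
  unfold lam
  rcases le_total (d : ℝ) 5 with h5 | h5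
  · refine le_trans ?_ (le_max_left _ _)
    have : ((d : ℝ) - 1) * ((d : ℝ) - 5) ≤ 0 :=
      mul_nonpos_of_nonneg_of_nonpos (by linarith) (by linarith)
    linarith
  · refine le_trans ?_ (le_max_right _ _)
    have : ((d : ℝ) - 1) * ((d : ℝ) - 5) ≤
        ((Nat.gcd (orderOf y) (orderOf z) : ℝ) - 1) *
          ((Nat.gcd (orderOf y) (orderOf z) : ℝ) - 5) :=
      mul_le_mul (by linarith) (by linarith) (by linarith) (by linarith)
    linarith

/-- The contribution of a pair of branch points. -/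
private theorem eb_pair (y z : G) :
    ∑ m ∈ (orderOf y).divisors.erase 1, (Phi z (y ^ (orderOf y / m)) : ℝ) * D m ≤
      (Fintype.card G : ℝ) * lam (Nat.gcd (orderOf y) (orderOf z)) := by
  classical
  have h1 : ∑ m ∈ (orderOf y).divisors.erase 1, (Phi z (y ^ (orderOf y / m)) : ℝ) * D m =
      ∑ g : G, ∑ m ∈ (orderOf y).divisors.erase 1,
        (if g⁻¹ * y ^ (orderOf y / m) * g ∈ Subgroup.zpowers z then D m else 0) := by
    rw [Finset.sum_comm]
    refine Finset.sum_congr rfl fun m _ => ?_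
    unfold Phi
    rw [Finset.card_filter, Nat.cast_sum, Finset.sum_mul]
    refine Finset.sum_congr rfl fun g _ => ?_
    split_ifs
    · rw [Nat.cast_one, one_mul]
    · rw [Nat.cast_zero, zero_mul]
  rw [h1]
  calc ∑ g : G, ∑ m ∈ (orderOf y).divisors.erase 1,
        (if g⁻¹ * y ^ (orderOf y / m) * g ∈ Subgroup.zpowers z then D m else 0)
      ≤ ∑ _g : G, lam (Nat.gcd (orderOf y) (orderOf z)) :=
        Finset.sum_le_sum fun g _ => eb_single y z g
    _ = _ := by rw [Finset.sum_const, Finset.card_univ, nsmul_eq_mul]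

private theorem eb_row (x : Fin r → G) (i : Fin r) :
    1 / (orderOf (x i) : ℝ) * ∑ m ∈ (orderOf (x i)).divisors.erase 1,
      F x (x i ^ (orderOf (x i) / m)) * D m ≤
    (Fintype.card G : ℝ) * ∑ j, lam (Nat.gcd (orderOf (x i)) (orderOf (x j))) /
      ((orderOf (x i) : ℝ) * (orderOf (x j) : ℝ)) := by
  have h1 : ∑ m ∈ (orderOf (x i)).divisors.erase 1, F x (x i ^ (orderOf (x i) / m)) * D m =
      ∑ j, 1 / (orderOf (x j) : ℝ) * ∑ m ∈ (orderOf (x i)).divisors.erase 1,
        (Phi (x j) (x i ^ (orderOf (x i) / m)) : ℝ) * D m := by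
    unfold F
    simp only [Finset.sum_mul, Finset.mul_sum]
    rw [Finset.sum_comm]
    refine Finset.sum_congr rfl fun j _ => Finset.sum_congr rfl fun m _ => ?_
    ring
  rw [h1, Finset.mul_sum, Finset.mul_sum]
  refine Finset.sum_le_sum fun j _ => ?_
  have hi : (0 : ℝ) < (orderOf (x i) : ℝ) := by exact_mod_cast orderOf_pos (x i)
  have hj : (0 : ℝ) < (orderOf (x j) : ℝ) := by exact_mod_cast orderOf_pos (x j)
  calc 1 / (orderOf (x i) : ℝ) * (1 / (orderOf (x j) : ℝ) *
        ∑ m ∈ (orderOf (x i)).divisors.erase 1,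
          (Phi (x j) (x i ^ (orderOf (x i) / m)) : ℝ) * D m)
      ≤ 1 / (orderOf (x i) : ℝ) * (1 / (orderOf (x j) : ℝ) *
        ((Fintype.card G : ℝ) * lam (Nat.gcd (orderOf (x i)) (orderOf (x j))))) :=
        mul_le_mul_of_nonneg_left (mul_le_mul_of_nonneg_left (eb_pair (x i) (x j))
          (by positivity)) (by positivity)
    _ = _ := by
      field_simp

theorem E_ge_all {G : Type} [Group G] [Fintype G] {r : ℕ} (x : Fin r → G) :
    -(Fintype.card G : ℝ) * LamN (fun i => orderOf (x i)) ≤ E x := by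
  classical
  have hn : (0 : ℝ) < (Fintype.card G : ℝ) := by
    exact_mod_cast (Fintype.card_pos (α := G))
  have h1 : E x = 1 / (Fintype.card G : ℝ) * (∑ γ ∈ univ.erase (1 : G), F x γ ^ 2 -
      ∑ γ ∈ univ.erase (1 : G), T x γ ^ 2) := by
    unfold E
    rw [Finset.sum_sub_distrib]
  have h2 := sum_F_sq x
  have h3 := sum_T_sq_le x
  have h4 : ∑ i, (Fintype.card G : ℝ) / (orderOf (x i) : ℝ) *
        ∑ s ∈ Ico 1 (orderOf (x i)), F x (x i ^ s) * ct (orderOf (x i)) s ^ 2 -
      ∑ i, (Fintype.card G : ℝ) / (orderOf (x i) : ℝ) *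
        ∑ s ∈ Ico 1 (orderOf (x i)), F x (x i ^ s) =
      (Fintype.card G : ℝ) * ∑ i, 1 / (orderOf (x i) : ℝ) *
        ∑ m ∈ (orderOf (x i)).divisors.erase 1, F x (x i ^ (orderOf (x i) / m)) * D m := by
    rw [← Finset.sum_sub_distrib, Finset.mul_sum]
    refine Finset.sum_congr rfl fun i _ => ?_
    rw [← sum_group, ← mul_sub, ← Finset.sum_sub_distrib]
    have h5 : ∀ s ∈ Ico 1 (orderOf (x i)), F x (x i ^ s) * ct (orderOf (x i)) s ^ 2 -
        F x (x i ^ s) = F x (x i ^ s) * (ct (orderOf (x i)) s ^ 2 - 1) := by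
      intro s _
      ring
    rw [Finset.sum_congr rfl h5]
    ring
  have h6 : ∑ i, 1 / (orderOf (x i) : ℝ) *
        ∑ m ∈ (orderOf (x i)).divisors.erase 1, F x (x i ^ (orderOf (x i) / m)) * D m ≤
      (Fintype.card G : ℝ) * LamN (fun i => orderOf (x i)) := by
    unfold LamN
    rw [Finset.mul_sum]
    exact Finset.sum_le_sum fun i _ => eb_row x i
  have h7 : -((Fintype.card G : ℝ) * ((Fintype.card G : ℝ) * LamN (fun i => orderOf (x i)))) ≤
      ∑ γ ∈ univ.erase (1 : G), F x γ ^ 2 - ∑ γ ∈ univ.erase (1 : G), T x γ ^ 2 := by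
    have h8 := mul_le_mul_of_nonneg_left h6 hn.le
    linarith
  rw [h1, div_mul_eq_mul_div, one_mul, le_div_iff₀ hn]
  linarith

end Pool.Agent.CO30
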