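import Pool.Agent.CO30.F4

/-!
# The identity for a part of the energy

For divisors `o i` of the orders of the `x i` we keep in the trace formula only the powers `x i ^ s` with
`o i ∣ s`. With `a` in the place of the area this gives the class function
`v γ = (|G| a / 2) [γ = 1] - FL γ / 2 + (i / 2) TL γ`. Its Fourier coefficients are given by the ages of the
`x i ^ o i`, so the identity `bracket` is Parseval's identity for `v`.
-/

namespace Pool.Agent.CO30

open Matrix Finset Pool.Agent.CO75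

variable {G : Type} [Group G] [Fintype G] {r : ℕ}

open Classical in
/-- the sum over the powers `x i ^ s` with `o i ∣ s` -/
noncomputable def FL (x : Fin r → G) (o : Fin r → ℕ) (γ : G) : ℝ :=
  ∑ i, (1 / (orderOf (x i) : ℝ)) * ∑ g : G, ∑ s ∈ Finset.Ico 1 (orderOf (x i)),
    if γ = g * x i ^ s * g⁻¹ ∧ o i ∣ s then 1 else 0

open Classical in
/-- the sum of the cotangents over the powers `x i ^ s` with `o i ∣ s` -/
noncomputable def TL (x : Fin r → G) (o : Fin r → ℕ) (γ : G) : ℝ :=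
  ∑ i, (1 / (orderOf (x i) : ℝ)) * ∑ g : G, ∑ s ∈ Finset.Ico 1 (orderOf (x i)),
    if γ = g * x i ^ s * g⁻¹ ∧ o i ∣ s then ct (orderOf (x i)) s else 0

open Classical in
/-- the sum of the cotangents over the powers `x i ^ s` such that `o i` does not divide `s` -/
noncomputable def TN (x : Fin r → G) (o : Fin r → ℕ) (γ : G) : ℝ :=
  ∑ i, (1 / (orderOf (x i) : ℝ)) * ∑ g : G, ∑ s ∈ Finset.Ico 1 (orderOf (x i)),
    if γ = g * x i ^ s * g⁻¹ ∧ ¬ o i ∣ s then ct (orderOf (x i)) s else 0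

open Classical in
/-- `- FL / 2 + (i / 2) TL` -/
private noncomputable def ebrV (x : Fin r → G) (o : Fin r → ℕ) (γ : G) : ℂ :=
  ∑ i, (1 / (orderOf (x i) : ℂ)) * ∑ g : G, ∑ s ∈ Finset.Ico 1 (orderOf (x i)),
    if γ = g * x i ^ s * g⁻¹ ∧ o i ∣ s then rotTerm (orderOf (x i)) s else 0

private theorem ebr_V_eq (x : Fin r → G) (o : Fin r → ℕ) (γ : G) :
    ebrV x o γ = -(1 / 2 : ℂ) * (FL x o γ : ℂ) + Complex.I / 2 * (TL x o γ : ℂ) := by
  classical
  unfold ebrV FL TL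
  rw [Complex.ofReal_sum, Complex.ofReal_sum, Finset.mul_sum, Finset.mul_sum,
    ← Finset.sum_add_distrib]
  refine Finset.sum_congr rfl fun i _ => ?_
  rw [Complex.ofReal_mul, Complex.ofReal_mul, Complex.ofReal_sum, Complex.ofReal_sum]
  have h1 : ∀ c u v : ℂ, -(1 / 2 : ℂ) * (c * u) + Complex.I / 2 * (c * v) =
      c * (-(1 / 2 : ℂ) * u + Complex.I / 2 * v) := by
    intro c u v
    ring
  rw [h1]
  congr 1
  · push_cast
    rfl
  · rw [Finset.mul_sum, Finset.mul_sum, ← Finset.sum_add_distrib]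
    refine Finset.sum_congr rfl fun g _ => ?_
    rw [Complex.ofReal_sum, Complex.ofReal_sum, Finset.mul_sum, Finset.mul_sum,
      ← Finset.sum_add_distrib]
    refine Finset.sum_congr rfl fun s hs => ?_
    rw [Finset.mem_Ico] at hs
    by_cases h : γ = g * x i ^ s * g⁻¹ ∧ o i ∣ s
    · rw [if_pos h, if_pos h, if_pos h, rotTerm_eq (by omega) hs.2]
      push_cast
      ring
    · rw [if_neg h, if_neg h, if_neg h]
      simp

private theorem ebr_V_conj (x : Fin r → G) (o : Fin r → ℕ) (γ h : G) :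
    ebrV x o (h * γ * h⁻¹) = ebrV x o γ := by
  classical
  unfold ebrV
  refine Finset.sum_congr rfl fun i _ => ?_
  congr 1
  refine Fintype.sum_equiv (Equiv.mulLeft h⁻¹) _ _ fun g => ?_
  refine Finset.sum_congr rfl fun s _ => ?_
  rw [Equiv.coe_mulLeft]
  have h2 : (h * γ * h⁻¹ = g * x i ^ s * g⁻¹) ↔ (γ = h⁻¹ * g * x i ^ s * (h⁻¹ * g)⁻¹) := by
    constructor
    · intro h3
      have : γ = h⁻¹ * (h * γ * h⁻¹) * h := by group
      rw [this, h3]
      group
    · intro h3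
      rw [h3]
      group
  simp only [h2]

private theorem ebr_V_one (x : Fin r → G) (o : Fin r → ℕ) : ebrV x o 1 = 0 := by
  classical
  unfold ebrV
  refine Finset.sum_eq_zero fun i _ => ?_
  rw [Finset.sum_eq_zero, mul_zero]
  intro g _
  refine Finset.sum_eq_zero fun s hs => ?_
  rw [if_neg]
  rintro ⟨h0, -⟩
  rw [Finset.mem_Ico] at hs
  have h1 : x i ^ s = 1 := by
    have h2 : x i ^ s = g⁻¹ * (g * x i ^ s * g⁻¹) * g := by group
    rw [h2, ← h0]
    group
  exact absurd (Nat.le_of_dvd (by omega) (orderOf_dvd_of_pow_eq_one h1)) (not_le.2 hs.2)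

private theorem ebr_mult (o w : ℕ) (ho : 0 < o) (f : ℕ → ℂ) :
    ∑ s ∈ Finset.Ico 1 (o * w), (if o ∣ s then f s else 0) = ∑ t ∈ Finset.Ico 1 w, f (o * t) := by
  rw [← Finset.sum_filter]
  symm
  refine Finset.sum_nbij' (fun t => o * t) (fun s => s / o) ?_ ?_ ?_ ?_ ?_
  · intro t ht
    rw [Finset.mem_Ico] at ht
    rw [Finset.mem_filter, Finset.mem_Ico]
    exact ⟨⟨Nat.mul_pos ho ht.1, (Nat.mul_lt_mul_left ho).2 ht.2⟩, Nat.dvd_mul_right o t⟩
  · intro s hs
    rw [Finset.mem_filter, Finset.mem_Ico] at hs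
    obtain ⟨⟨h1, h2⟩, k, rfl⟩ := hs
    rw [Nat.mul_div_cancel_left k ho, Finset.mem_Ico]
    exact ⟨Nat.pos_of_mul_pos_left h1, Nat.lt_of_mul_lt_mul_left h2⟩
  · intro t _
    exact Nat.mul_div_cancel_left t ho
  · intro s hs
    rw [Finset.mem_filter] at hs
    exact Nat.mul_div_cancel' hs.2
  · intro t _
    rfl

private theorem ebr_rot (o w t : ℕ) (ho : 0 < o) : rotTerm (o * w) (o * t) = rotTerm w t := by
  have ho' : (o : ℂ) ≠ 0 := by exact_mod_cast ho.ne'
  unfold rotTerm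
  have h : (((o * t : ℕ) : ℂ) / ((o * w : ℕ) : ℂ)) = (t : ℂ) / (w : ℂ) := by
    push_cast
    exact mul_div_mul_left _ _ ho'
  rw [h]

/-- The Fourier coefficients. -/
private theorem ebr_spec (x : Fin r → G) (o : Fin r → ℕ) (ho : ∀ i, o i ∣ orderOf (x i)) {d : ℕ}
    (B : Fin r → Matrix (Fin d) (Fin d) ℂ) (hB : ∀ i, B i ^ orderOf (x i) = 1) (f : G → ℂ)
    (hf : ∀ i g s, f (g * x i ^ s * g⁻¹) = (B i ^ s).trace) :
    ∑ γ : G, ebrV x o γ * f γ = (Fintype.card G : ℂ) *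
      (((∑ i, 1 / (o i : ℝ) * age (B i ^ o i)) -
        (∑ i, (1 / (o i : ℝ) - 1 / (orderOf (x i) : ℝ))) / 2 * d : ℝ) : ℂ) := by
  classical
  have h1 : ∀ γ : G, ebrV x o γ * f γ =
      ∑ i, (1 / (orderOf (x i) : ℂ)) * ∑ g : G, ∑ s ∈ Finset.Ico 1 (orderOf (x i)),
        if γ = g * x i ^ s * g⁻¹ then (if o i ∣ s then rotTerm (orderOf (x i)) s else 0) * f γ
          else 0 := by
    intro γ
    unfold ebrV
    rw [Finset.sum_mul]
    refine Finset.sum_congr rfl fun i _ => ?_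
    rw [mul_assoc, Finset.sum_mul]
    congr 1
    refine Finset.sum_congr rfl fun g _ => ?_
    rw [Finset.sum_mul]
    refine Finset.sum_congr rfl fun s _ => ?_
    by_cases h2 : γ = g * x i ^ s * g⁻¹
    · by_cases h3 : o i ∣ s
      · rw [if_pos ⟨h2, h3⟩, if_pos h2, if_pos h3]
      · rw [if_neg (fun h => h3 h.2), if_pos h2, if_neg h3]
    · rw [if_neg (fun h => h2 h.1), if_neg h2, zero_mul]
  rw [Finset.sum_congr rfl fun γ _ => h1 γ, Finset.sum_comm]
  have h4 : ∀ i, ∑ γ : G, (1 / (orderOf (x i) : ℂ)) * ∑ g : G,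
      ∑ s ∈ Finset.Ico 1 (orderOf (x i)), (if γ = g * x i ^ s * g⁻¹ then
        (if o i ∣ s then rotTerm (orderOf (x i)) s else 0) * f γ else 0) =
      (Fintype.card G : ℂ) * (1 / (o i : ℂ) * (age (B i ^ o i) : ℂ) -
        (1 / (o i : ℂ) - 1 / (orderOf (x i) : ℂ)) / 2 * d) := by
    intro i
    obtain ⟨w, hw⟩ := ho i
    have hm : 0 < orderOf (x i) := orderOf_pos (x i)
    have ho0 : 0 < o i := by
      rcases Nat.eq_zero_or_pos (o i) with h | h
      · rw [h, Nat.zero_mul] at hw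
        omega
      · exact h
    have hw0 : 0 < w := by
      rcases Nat.eq_zero_or_pos w with h | h
      · rw [h, Nat.mul_zero] at hw
        omega
      · exact h
    have hoC : (o i : ℂ) ≠ 0 := by exact_mod_cast ho0.ne'
    have hwC : (w : ℂ) ≠ 0 := by exact_mod_cast hw0.ne'
    have hpow : (B i ^ o i) ^ w = 1 := by
      rw [← pow_mul, ← hw]
      exact hB i
    rw [← Finset.mul_sum, Finset.sum_comm]
    have h5 : ∀ g : G, ∑ γ : G, ∑ s ∈ Finset.Ico 1 (orderOf (x i)),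
        (if γ = g * x i ^ s * g⁻¹ then
          (if o i ∣ s then rotTerm (orderOf (x i)) s else 0) * f γ else 0) =
        (w : ℂ) * (age (B i ^ o i) : ℂ) - (d : ℂ) * (((w : ℂ) - 1) / 2) := by
      intro g
      rw [Finset.sum_comm, ← sum_trace _ hw0 hpow]
      have h6 : ∀ s ∈ Finset.Ico 1 (orderOf (x i)), ∑ γ : G, (if γ = g * x i ^ s * g⁻¹ then
          (if o i ∣ s then rotTerm (orderOf (x i)) s else 0) * f γ else 0) =
          if o i ∣ s then rotTerm (orderOf (x i)) s * (B i ^ s).trace else 0 := by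
        intro s _
        rw [Finset.sum_ite_eq' univ (g * x i ^ s * g⁻¹), if_pos (Finset.mem_univ _), hf, ite_mul,
          zero_mul]
      rw [Finset.sum_congr rfl h6, hw, ebr_mult (o i) w ho0]
      refine Finset.sum_congr rfl fun t _ => ?_
      rw [ebr_rot _ _ _ ho0, pow_mul]
    rw [Finset.sum_congr rfl fun g _ => h5 g, Finset.sum_const, Finset.card_univ, nsmul_eq_mul, hw]
    push_cast
    field_simp
  rw [Finset.sum_congr rfl fun i _ => h4 i, ← Finset.mul_sum]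
  congr 1
  push_cast
  rw [Finset.sum_sub_distrib, ← Finset.sum_mul, ← Finset.sum_div]

private theorem ebr_parseval (W : Wedd G) (f : G → ℂ) (hf : ∀ g h, f (h * g * h⁻¹) = f g) :
    (Fintype.card G : ℂ) * ∑ g, f g ^ 2 =
      ∑ j, (∑ h, f h * (W.R j h⁻¹).trace) * ∑ h, f h * (W.R j h).trace := by
  rw [Finset.mul_sum]
  have h1 : ∀ g : G, (Fintype.card G : ℂ) * f g ^ 2 =
      ∑ j, (f g * (W.R j g⁻¹).trace) * ∑ h, f h * (W.R j h).trace := by
    intro g
    rw [sq, ← mul_assoc, W.class_expand f hf g, Finset.sum_mul]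
    refine Finset.sum_congr rfl fun j _ => ?_
    ring
  rw [Finset.sum_congr rfl fun g _ => h1 g, Finset.sum_comm]
  refine Finset.sum_congr rfl fun j _ => ?_
  rw [Finset.sum_mul]

theorem bracket (W : Wedd G) (x : Fin r → G) (o : Fin r → ℕ) (ho : ∀ i, o i ∣ orderOf (x i))
    (a : ℝ) :
    (Fintype.card G : ℝ) ^ 2 * a ^ 2 + ∑ γ : G, FL x o γ ^ 2 - ∑ γ : G, TL x o γ ^ 2 =
      4 * (Fintype.card G : ℝ) * ∑ j,
        (((a - ∑ i, (1 / (o i : ℝ) - 1 / (orderOf (x i) : ℝ))) / 2 * W.d j +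
          ∑ i, 1 / (o i : ℝ) * age (W.R j (x i ^ o i)⁻¹)) *
        ((a - ∑ i, (1 / (o i : ℝ) - 1 / (orderOf (x i) : ℝ))) / 2 * W.d j +
          ∑ i, 1 / (o i : ℝ) * age (W.R j (x i ^ o i)))) := by
  classical
  have hn : (Fintype.card G : ℝ) ≠ 0 := by exact_mod_cast (Fintype.card_pos (α := G)).ne'
  obtain ⟨v, hv⟩ : ∃ v : G → ℂ, ∀ γ, v γ =
      (if γ = 1 then (((Fintype.card G : ℝ) * a / 2 : ℝ) : ℂ) else 0) + ebrV x o γ := ⟨_, fun _ => rfl⟩
  have hconj : ∀ g h, v (h * g * h⁻¹) = v g := by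
    intro g h
    rw [hv, hv, ebr_V_conj]
    have h1 : h * g * h⁻¹ = 1 ↔ g = 1 := conj_eq_one_iff
    simp only [h1]
  -- the Fourier coefficients
  have hA : ∀ (d : ℕ) (B : Fin r → Matrix (Fin d) (Fin d) ℂ) (_ : ∀ i, B i ^ orderOf (x i) = 1)
      (f : G → ℂ) (_ : ∀ i g s, f (g * x i ^ s * g⁻¹) = (B i ^ s).trace) (_ : f 1 = d),
      ∑ γ : G, v γ * f γ = (((Fintype.card G : ℝ) *
        ((a - ∑ i, (1 / (o i : ℝ) - 1 / (orderOf (x i) : ℝ))) / 2 * d +
          ∑ i, 1 / (o i : ℝ) * age (B i ^ o i)) : ℝ) : ℂ) := by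
    intro d B hB f hf hf1
    have h2 : ∀ γ : G, v γ * f γ = (if γ = 1 then (((Fintype.card G : ℝ) * a / 2 : ℝ) : ℂ) * d else 0) +
        ebrV x o γ * f γ := by
      intro γ
      rw [hv, add_mul]
      by_cases hγ : γ = 1
      · rw [if_pos hγ, if_pos hγ, hγ, hf1]
      · rw [if_neg hγ, if_neg hγ, zero_mul]
    rw [Finset.sum_congr rfl fun γ _ => h2 γ, Finset.sum_add_distrib, ebr_spec x o ho B hB f hf,
      Finset.sum_ite_eq' univ (1 : G), if_pos (Finset.mem_univ _)]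
    push_cast
    ring
  have h3 : ∀ j, ∑ γ : G, v γ * (W.R j γ⁻¹).trace = (((Fintype.card G : ℝ) *
        ((a - ∑ i, (1 / (o i : ℝ) - 1 / (orderOf (x i) : ℝ))) / 2 * W.d j +
          ∑ i, 1 / (o i : ℝ) * age (W.R j (x i ^ o i)⁻¹)) : ℝ) : ℂ) := by
    intro j
    rw [hA (W.d j) (fun i => W.R j (x i)⁻¹) ?_ (fun γ => (W.R j γ⁻¹).trace) ?_ ?_]
    · simp only [← map_pow, inv_pow]
    · intro i
      rw [← map_pow, inv_pow, pow_orderOf_eq_one, inv_one, map_one]
    · intro i g s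
      have h4 : (g * x i ^ s * g⁻¹)⁻¹ = g * ((x i)⁻¹) ^ s * g⁻¹ := by group
      simp only [h4]
      rw [map_mul, map_mul, Matrix.trace_mul_comm, ← Matrix.mul_assoc, ← map_mul, inv_mul_cancel,
        map_one, Matrix.one_mul, map_pow]
    · simp only [inv_one, map_one, Matrix.trace_one, Fintype.card_fin]
  have h5 : ∀ j, ∑ γ : G, v γ * (W.R j γ).trace = (((Fintype.card G : ℝ) *
        ((a - ∑ i, (1 / (o i : ℝ) - 1 / (orderOf (x i) : ℝ))) / 2 * W.d j +
          ∑ i, 1 / (o i : ℝ) * age (W.R j (x i ^ o i))) : ℝ) : ℂ) := by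
    intro j
    rw [hA (W.d j) (fun i => W.R j (x i)) ?_ (fun γ => (W.R j γ).trace) ?_ ?_]
    · simp only [← map_pow]
    · intro i
      rw [← map_pow, pow_orderOf_eq_one, map_one]
    · intro i g s
      rw [map_mul, map_mul, Matrix.trace_mul_comm, ← Matrix.mul_assoc, ← map_mul, inv_mul_cancel,
        map_one, Matrix.one_mul, map_pow]
    · simp only [map_one, Matrix.trace_one, Fintype.card_fin]
  have hP := ebr_parseval W v hconj
  simp only [h3, h5] at hP
  -- the sum of the squares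
  have h6 : ∀ γ : G, (v γ ^ 2).re = (if γ = 1 then ((Fintype.card G : ℝ) * a / 2) ^ 2 else 0) +
      (FL x o γ ^ 2 / 4 - TL x o γ ^ 2 / 4) := by
    intro γ
    have h7 : (ebrV x o γ ^ 2).re = FL x o γ ^ 2 / 4 - TL x o γ ^ 2 / 4 := by
      rw [ebr_V_eq, sq, Complex.mul_re]
      simp
      ring
    rw [← h7, hv]
    by_cases hγ : γ = 1
    · rw [if_pos hγ, if_pos hγ, hγ, ebr_V_one, add_zero]
      rw [← Complex.ofReal_pow, Complex.ofReal_re]
      simp
    · rw [if_neg hγ, if_neg hγ, zero_add, zero_add]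
  have h8 : (∑ γ : G, v γ ^ 2).re = ((Fintype.card G : ℝ) * a / 2) ^ 2 +
      ((∑ γ : G, FL x o γ ^ 2) / 4 - (∑ γ : G, TL x o γ ^ 2) / 4) := by
    rw [Complex.re_sum, Finset.sum_congr rfl fun γ _ => h6 γ, Finset.sum_add_distrib,
      Finset.sum_ite_eq' univ (1 : G), if_pos (Finset.mem_univ _), Finset.sum_sub_distrib,
      Finset.sum_div, Finset.sum_div]
  have h9 := congrArg Complex.re hP
  have h10 : (Fintype.card G : ℂ) = ((Fintype.card G : ℝ) : ℂ) := by push_cast; rfl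
  rw [h10, Complex.re_ofReal_mul, h8, Complex.re_sum] at h9
  simp only [← Complex.ofReal_mul, Complex.ofReal_re] at h9
  have h11 : ∀ u w : Fin W.N → ℝ, ∑ j, (Fintype.card G : ℝ) * u j * ((Fintype.card G : ℝ) * w j) =
      (Fintype.card G : ℝ) * ((Fintype.card G : ℝ) * ∑ j, u j * w j) := by
    intro u w
    rw [Finset.mul_sum, Finset.mul_sum]
    refine Finset.sum_congr rfl fun j _ => ?_
    ring
  rw [h11] at h9
  have h12 := mul_left_cancel₀ hn h9
  rw [mul_assoc 4 (Fintype.card G : ℝ), ← h12]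
  ring

end Pool.Agent.CO30
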