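import Pool.Agent.CO30.EBr

/-!
# Norms of the parts of the energy

`enf y S c γ = (1 / m) ∑_g ∑_{s ∈ S} c_s [γ = g y^s g⁻¹]`, `m = ord y`, `S ⊆ [1, m)`. Contraction:
`∑ (enf y S c)² ≤ (n / m)² ∑_S c_s²`; for one `s` it is `(c_s / m)² n² / κ`, `κ` the size of the
class of `y ^ s`.
-/

namespace Pool.Agent.CO30

open Matrix Finset Pool.Agent.CO75

section ENO
variable {G : Type} [Group G] [Fintype G] {r : ℕ}

open Classical in
/-- the function of one element -/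
private noncomputable def enf (y : G) (S : Finset ℕ) (c : ℕ → ℝ) (γ : G) : ℝ :=
  (1 / (orderOf y : ℝ)) * ∑ g : G, ∑ s ∈ S, if γ = g * y ^ s * g⁻¹ then c s else 0

omit [Fintype G] in
private theorem eno_inj {y : G} {s t : ℕ} (hs : s < orderOf y) (ht : t < orderOf y) {g : G}
    (h : g * y ^ s * g⁻¹ = g * y ^ t * g⁻¹) : s = t := by
  have h1 : y ^ s = y ^ t := by
    have := mul_right_cancel h
    exact mul_left_cancel this
  exact pow_injOn_Iio_orderOf hs ht h1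

open Classical in
omit [Fintype G] in
private theorem eno_single {y : G} {S : Finset ℕ} (hS : S ⊆ Ico 1 (orderOf y)) (c : ℕ → ℝ)
    (γ g : G) :
    (∑ s ∈ S, if γ = g * y ^ s * g⁻¹ then c s else 0) ^ 2 =
      ∑ s ∈ S, if γ = g * y ^ s * g⁻¹ then c s ^ 2 else 0 := by
  by_cases h : ∃ s ∈ S, γ = g * y ^ s * g⁻¹
  · obtain ⟨s, hs, hγ⟩ := h
    have key : ∀ b : ℕ → ℝ, (∑ t ∈ S, if γ = g * y ^ t * g⁻¹ then b t else 0) = b s := by
      intro b
      rw [Finset.sum_eq_single s]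
      · rw [if_pos hγ]
      · intro t ht hts
        rw [if_neg]
        intro h2
        apply hts
        have h3 := (Finset.mem_Ico.1 (hS hs)).2
        have h4 := (Finset.mem_Ico.1 (hS ht)).2
        exact eno_inj h4 h3 (by rw [← h2, ← hγ])
      · intro h2
        exact absurd hs h2
    rw [key c, key fun t => c t ^ 2]
  · push Not at h
    have key : ∀ b : ℕ → ℝ, (∑ t ∈ S, if γ = g * y ^ t * g⁻¹ then b t else 0) = 0 := by
      intro b
      refine Finset.sum_eq_zero fun t ht => ?_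
      rw [if_neg (h t ht)]
    rw [key c, key fun t => c t ^ 2]
    norm_num

/-- contraction -/
private theorem eno_contr {y : G} {S : Finset ℕ} (hS : S ⊆ Ico 1 (orderOf y)) (c : ℕ → ℝ) :
    ∑ γ : G, enf y S c γ ^ 2 ≤
      ((Fintype.card G : ℝ) / (orderOf y : ℝ)) ^ 2 * ∑ s ∈ S, c s ^ 2 := by
  classical
  have hm : (0 : ℝ) < (orderOf y : ℝ) := by exact_mod_cast orderOf_pos y
  have h1 : ∀ γ : G, enf y S c γ ^ 2 ≤ (Fintype.card G : ℝ) / (orderOf y : ℝ) ^ 2 *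
      ∑ g : G, ∑ s ∈ S, if γ = g * y ^ s * g⁻¹ then c s ^ 2 else 0 := by
    intro γ
    have h2 := sq_sum_le_card_mul_sum_sq (s := (univ : Finset G))
      (f := fun g : G => ∑ s ∈ S, if γ = g * y ^ s * g⁻¹ then c s else 0)
    have h3 : ∑ g : G, (∑ s ∈ S, if γ = g * y ^ s * g⁻¹ then c s else 0) ^ 2 =
        ∑ g : G, ∑ s ∈ S, if γ = g * y ^ s * g⁻¹ then c s ^ 2 else 0 :=
      Finset.sum_congr rfl fun g _ => eno_single hS c γ g
    rw [h3, Finset.card_univ] at h2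
    unfold enf
    rw [mul_pow, _root_.one_div_pow]
    calc 1 / (orderOf y : ℝ) ^ 2 *
          (∑ g : G, ∑ s ∈ S, if γ = g * y ^ s * g⁻¹ then c s else 0) ^ 2
        ≤ 1 / (orderOf y : ℝ) ^ 2 * ((Fintype.card G : ℝ) *
          ∑ g : G, ∑ s ∈ S, if γ = g * y ^ s * g⁻¹ then c s ^ 2 else 0) :=
          mul_le_mul_of_nonneg_left h2 (by positivity)
      _ = _ := by ring
  calc ∑ γ : G, enf y S c γ ^ 2
      ≤ ∑ γ : G, (Fintype.card G : ℝ) / (orderOf y : ℝ) ^ 2 *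
        ∑ g : G, ∑ s ∈ S, if γ = g * y ^ s * g⁻¹ then c s ^ 2 else 0 :=
        Finset.sum_le_sum fun γ _ => h1 γ
    _ = (Fintype.card G : ℝ) / (orderOf y : ℝ) ^ 2 * ∑ g : G, ∑ s ∈ S, c s ^ 2 := by
        rw [← Finset.mul_sum, Finset.sum_comm]
        congr 1
        refine Finset.sum_congr rfl fun g _ => ?_
        rw [Finset.sum_comm]
        refine Finset.sum_congr rfl fun s _ => ?_
        rw [Finset.sum_ite_eq' univ (g * y ^ s * g⁻¹) fun _ => c s ^ 2]
        rw [if_pos (Finset.mem_univ _)]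
    _ = _ := by
        rw [Finset.sum_const, Finset.card_univ, nsmul_eq_mul]
        ring

open Classical in
/-- orbit and stabiliser -/
private theorem eno_orbit (u : G) :
    (univ.filter fun g : G => g * u * g⁻¹ = u).card * (univ.image fun g : G => g * u * g⁻¹).card =
      Fintype.card G := by
  have h1 : Fintype.card G = ∑ b ∈ univ.image fun g : G => g * u * g⁻¹,
      (univ.filter fun g : G => g * u * g⁻¹ = b).card := by
    rw [← Finset.card_univ]
    exact Finset.card_eq_sum_card_image (fun g : G => g * u * g⁻¹) univ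
  have h2 : ∀ b ∈ univ.image fun g : G => g * u * g⁻¹,
      (univ.filter fun g : G => g * u * g⁻¹ = b).card =
        (univ.filter fun g : G => g * u * g⁻¹ = u).card := by
    intro b hb
    obtain ⟨g₀, -, rfl⟩ := Finset.mem_image.1 hb
    refine Finset.card_bij (fun g _ => g₀⁻¹ * g) ?_ ?_ ?_
    · intro g hg
      rw [Finset.mem_filter] at hg ⊢
      refine ⟨Finset.mem_univ _, ?_⟩
      have e : g₀⁻¹ * g * u * (g₀⁻¹ * g)⁻¹ = g₀⁻¹ * (g * u * g⁻¹) * g₀ := by group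
      rw [e, hg.2]
      group
    · intro a _ b _ hab
      exact mul_left_cancel hab
    · intro g hg
      rw [Finset.mem_filter] at hg
      refine ⟨g₀ * g, ?_, by group⟩
      rw [Finset.mem_filter]
      refine ⟨Finset.mem_univ _, ?_⟩
      have e : g₀ * g * u * (g₀ * g)⁻¹ = g₀ * (g * u * g⁻¹) * g₀⁻¹ := by group
      rw [e, hg.2]
  rw [h1, Finset.sum_congr rfl h2, Finset.sum_const, smul_eq_mul, mul_comm]

open Classical in
/-- the norm for one power -/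
private theorem eno_one (y : G) (s : ℕ) (c : ℕ → ℝ) :
    ∑ γ : G, enf y {s} c γ ^ 2 * ((univ.image fun g : G => g * y ^ s * g⁻¹).card : ℝ) =
      (c s / (orderOf y : ℝ)) ^ 2 * (Fintype.card G : ℝ) ^ 2 := by
  have h1 : ∀ γ : G, enf y {s} c γ ^ 2 = (c s / (orderOf y : ℝ)) ^ 2 *
      ∑ g : G, ∑ h : G, if γ = g * y ^ s * g⁻¹ ∧ γ = h * y ^ s * h⁻¹ then 1 else 0 := by
    intro γ
    unfold enf
    have h2 : ∑ g : G, ∑ t ∈ ({s} : Finset ℕ), (if γ = g * y ^ t * g⁻¹ then c t else 0) =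
        c s * ∑ g : G, if γ = g * y ^ s * g⁻¹ then (1 : ℝ) else 0 := by
      rw [Finset.mul_sum]
      refine Finset.sum_congr rfl fun g _ => ?_
      rw [Finset.sum_singleton]
      split_ifs <;> simp
    have h3 : (∑ g : G, if γ = g * y ^ s * g⁻¹ then (1 : ℝ) else 0) ^ 2 =
        ∑ g : G, ∑ h : G, if γ = g * y ^ s * g⁻¹ ∧ γ = h * y ^ s * h⁻¹ then 1 else 0 := by
      rw [pow_two, Finset.sum_mul_sum]
      refine Finset.sum_congr rfl fun g _ => Finset.sum_congr rfl fun h _ => ?_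
      by_cases ha : γ = g * y ^ s * g⁻¹ <;> by_cases hb : γ = h * y ^ s * h⁻¹ <;>
        simp [ha, hb]
    rw [h2, ← h3]
    ring
  have h4 : ∑ γ : G, ∑ g : G, ∑ h : G,
      (if γ = g * y ^ s * g⁻¹ ∧ γ = h * y ^ s * h⁻¹ then (1 : ℝ) else 0) =
      (Fintype.card G : ℝ) * ((univ.filter fun g : G => g * y ^ s * g⁻¹ = y ^ s).card : ℝ) := by
    rw [Finset.sum_comm]
    have h5 : ∀ g : G, ∑ γ : G, ∑ h : G,
        (if γ = g * y ^ s * g⁻¹ ∧ γ = h * y ^ s * h⁻¹ then (1 : ℝ) else 0) =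
        ((univ.filter fun g : G => g * y ^ s * g⁻¹ = y ^ s).card : ℝ) := by
      intro g
      rw [Finset.sum_comm]
      have h6 : ∀ h : G, ∑ γ : G,
          (if γ = g * y ^ s * g⁻¹ ∧ γ = h * y ^ s * h⁻¹ then (1 : ℝ) else 0) =
          if g * y ^ s * g⁻¹ = h * y ^ s * h⁻¹ then 1 else 0 := by
        intro h
        simp only [ite_and]
        rw [Finset.sum_ite_eq' univ (g * y ^ s * g⁻¹)
          fun γ => if γ = h * y ^ s * h⁻¹ then (1 : ℝ) else 0]
        rw [if_pos (Finset.mem_univ _)]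
      rw [Finset.sum_congr rfl fun h _ => h6 h, ← Finset.sum_filter, Finset.sum_const,
        nsmul_eq_mul, mul_one]
      congr 1
      refine Finset.card_bij (fun h _ => g⁻¹ * h) ?_ ?_ ?_
      · intro h hh
        rw [Finset.mem_filter] at hh ⊢
        refine ⟨Finset.mem_univ _, ?_⟩
        have e : g⁻¹ * h * y ^ s * (g⁻¹ * h)⁻¹ = g⁻¹ * (h * y ^ s * h⁻¹) * g := by group
        rw [e, ← hh.2]
        group
      · intro a _ b _ hab
        exact mul_left_cancel hab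
      · intro h hh
        rw [Finset.mem_filter] at hh
        refine ⟨g * h, ?_, by group⟩
        rw [Finset.mem_filter]
        refine ⟨Finset.mem_univ _, ?_⟩
        have e : g * h * y ^ s * (g * h)⁻¹ = g * (h * y ^ s * h⁻¹) * g⁻¹ := by group
        rw [e, hh.2]
    rw [Finset.sum_congr rfl fun g _ => h5 g, Finset.sum_const, Finset.card_univ, nsmul_eq_mul]
  have h7 := eno_orbit (y ^ s)
  have h8 : ((univ.filter fun g : G => g * y ^ s * g⁻¹ = y ^ s).card : ℝ) *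
      ((univ.image fun g : G => g * y ^ s * g⁻¹).card : ℝ) = (Fintype.card G : ℝ) := by
    exact_mod_cast h7
  rw [← Finset.sum_mul, Finset.sum_congr rfl fun γ _ => h1 γ, ← Finset.mul_sum, h4, mul_assoc,
    mul_assoc, h8]
  ring

/-- the cotangent -/
private theorem eno_ct {m s : ℕ} (h0 : 0 < s) (h1 : s < m) :
    (ct m s / m) ^ 2 ≤ 1 / Real.pi ^ 2 * (1 / (s : ℝ) ^ 2 + 1 / ((m - s : ℕ) : ℝ) ^ 2) := by
  have hpi := Real.pi_pos
  have hm : (0 : ℝ) < m := by exact_mod_cast (by omega : 0 < m)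
  -- the first half
  have half : ∀ t : ℕ, 0 < t → 2 * t ≤ m → (ct m t / m) ^ 2 ≤ 1 / Real.pi ^ 2 * (1 / (t : ℝ) ^ 2) := by
    intro t ht htm
    have ht0 : (0 : ℝ) < t := by exact_mod_cast ht
    have htm' : 2 * (t : ℝ) ≤ m := by exact_mod_cast htm
    obtain ⟨θ, hθ⟩ : ∃ θ : ℝ, θ = Real.pi * (t : ℝ) / (m : ℝ) := ⟨_, rfl⟩
    have hθ0 : 0 < θ := by rw [hθ]; positivity
    have hθ1 : θ ≤ Real.pi / 2 := by
      rw [hθ, div_le_div_iff₀ hm (by norm_num)]
      nlinarith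
    have hct : ct m t = Real.cos θ / Real.sin θ := by rw [hθ]; rfl
    have hsin : 0 < Real.sin θ := Real.sin_pos_of_pos_of_lt_pi hθ0 (by linarith)
    have hcos : 0 ≤ Real.cos θ := Real.cos_nonneg_of_mem_Icc ⟨by linarith, hθ1⟩
    have hle : θ * Real.cos θ ≤ Real.sin θ := by
      rcases hθ1.lt_or_eq with h | h
      · have h2 := Real.lt_tan hθ0 h
        have h3 : 0 < Real.cos θ := Real.cos_pos_of_mem_Ioo ⟨by linarith, h⟩
        rw [Real.tan_eq_sin_div_cos, lt_div_iff₀ h3] at h2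
        exact h2.le
      · rw [h, Real.cos_pi_div_two, mul_zero, ← h]
        exact hsin.le
    have h4 : 0 ≤ ct m t := by
      rw [hct]
      exact div_nonneg hcos hsin.le
    have h5 : ct m t ≤ 1 / θ := by
      rw [hct, div_le_div_iff₀ hsin hθ0]
      linarith
    have h6 : ct m t / m ≤ 1 / (Real.pi * t) := by
      have : 1 / (Real.pi * t) = 1 / θ / m := by
        rw [hθ]
        field_simp
      rw [this]
      exact div_le_div_of_nonneg_right h5 hm.le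
    calc (ct m t / m) ^ 2 ≤ (1 / (Real.pi * t)) ^ 2 :=
          pow_le_pow_left₀ (by positivity) h6 2
      _ = _ := by
          field_simp
  rcases le_total (2 * s) m with h | h
  · refine (half s h0 h).trans ?_
    refine mul_le_mul_of_nonneg_left ?_ (by positivity)
    have : (0 : ℝ) ≤ 1 / ((m - s : ℕ) : ℝ) ^ 2 := by positivity
    linarith
  · have h2 := half (m - s) (by omega) (by omega)
    have h3 : ct m (m - s) ^ 2 = ct m s ^ 2 := by
      unfold ct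
      have e : Real.pi * ((m - s : ℕ) : ℝ) / (m : ℝ) = Real.pi - Real.pi * (s : ℝ) / (m : ℝ) := by
        rw [Nat.cast_sub h1.le]
        field_simp
      rw [e, Real.cos_pi_sub, Real.sin_pi_sub, neg_div, neg_sq]
    have h4 : (ct m s / m) ^ 2 = (ct m (m - s) / m) ^ 2 := by
      rw [div_pow, div_pow, h3]
    rw [h4]
    refine h2.trans ?_
    refine mul_le_mul_of_nonneg_left ?_ (by positivity)
    have : (0 : ℝ) ≤ 1 / (s : ℝ) ^ 2 := by positivity
    linarith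

open Classical in
private theorem eno_T_split (x : Fin r → G) (o : Fin r → ℕ) (γ : G) :
    T x γ = TL x o γ + TN x o γ := by
  unfold T TL TN
  rw [← Finset.sum_add_distrib]
  refine Finset.sum_congr rfl fun i _ => ?_
  rw [← mul_add, ← Finset.sum_add_distrib]
  congr 1
  refine Finset.sum_congr rfl fun g _ => ?_
  rw [← Finset.sum_add_distrib]
  refine Finset.sum_congr rfl fun s _ => ?_
  by_cases h1 : γ = g * x i ^ s * g⁻¹ <;> by_cases h2 : o i ∣ s <;> simp [h1, h2]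

open Classical in
private theorem eno_TL (x : Fin r → G) (o : Fin r → ℕ) (γ : G) :
    TL x o γ = ∑ i, enf (x i) ((Ico 1 (orderOf (x i))).filter fun s => o i ∣ s)
      (ct (orderOf (x i))) γ := by
  unfold TL enf
  refine Finset.sum_congr rfl fun i _ => ?_
  congr 1
  refine Finset.sum_congr rfl fun g _ => ?_
  rw [Finset.sum_filter]
  refine Finset.sum_congr rfl fun s _ => ?_
  by_cases h1 : γ = g * x i ^ s * g⁻¹ <;> by_cases h2 : o i ∣ s <;> simp [h1, h2]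

open Classical in
private theorem eno_TN (x : Fin r → G) (o : Fin r → ℕ) (γ : G) :
    TN x o γ = ∑ i, enf (x i) ((Ico 1 (orderOf (x i))).filter fun s => ¬ o i ∣ s)
      (ct (orderOf (x i))) γ := by
  unfold TN enf
  refine Finset.sum_congr rfl fun i _ => ?_
  congr 1
  refine Finset.sum_congr rfl fun g _ => ?_
  rw [Finset.sum_filter]
  refine Finset.sum_congr rfl fun s _ => ?_
  by_cases h1 : γ = g * x i ^ s * g⁻¹ <;> by_cases h2 : o i ∣ s <;> simp [h1, h2]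

private theorem eno_one_ne {y : G} {s : ℕ} (hs : s ∈ Ico 1 (orderOf y)) (g : G) :
    (1 : G) ≠ g * y ^ s * g⁻¹ := by
  intro h
  have h2 : y ^ s = 1 := by
    have h3 : y ^ s = g⁻¹ * (g * y ^ s * g⁻¹) * g := by group
    rw [h3, ← h]
    group
  have h4 := Finset.mem_Ico.mp hs
  exact absurd (Nat.le_of_dvd (by omega) (orderOf_dvd_of_pow_eq_one h2)) (by omega)

open Classical in
private theorem eno_FL_one (x : Fin r → G) (o : Fin r → ℕ) : FL x o 1 = 0 := by
  unfold FL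
  refine Finset.sum_eq_zero fun i _ => ?_
  rw [Finset.sum_eq_zero, mul_zero]
  intro g _
  refine Finset.sum_eq_zero fun s hs => ?_
  rw [if_neg]
  rintro ⟨h, -⟩
  exact eno_one_ne hs g h

open Classical in
private theorem eno_FL_nonneg (x : Fin r → G) (o : Fin r → ℕ) (γ : G) : 0 ≤ FL x o γ := by
  unfold FL
  refine Finset.sum_nonneg fun i _ => mul_nonneg (by positivity) (Finset.sum_nonneg fun g _ =>
    Finset.sum_nonneg fun s _ => ?_)
  split_ifs <;> norm_num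

open Classical in
private theorem eno_FL_le (x : Fin r → G) (o : Fin r → ℕ) (γ : G) : FL x o γ ≤ F x γ := by
  unfold FL F
  refine Finset.sum_le_sum fun i _ => ?_
  have h1 : (∑ g : G, ∑ s ∈ Finset.Ico 1 (orderOf (x i)),
      if γ = g * x i ^ s * g⁻¹ ∧ o i ∣ s then (1 : ℝ) else 0) ≤ (Phi (x i) γ : ℝ) := by
    unfold Phi
    rw [Finset.card_filter]
    push_cast
    refine Finset.sum_le_sum fun g _ => ?_
    by_cases h : ∃ s ∈ Finset.Ico 1 (orderOf (x i)), γ = g * x i ^ s * g⁻¹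
    · obtain ⟨s, hs, hγ⟩ := h
      have h2 : g⁻¹ * γ * g ∈ Subgroup.zpowers (x i) := by
        have : g⁻¹ * γ * g = x i ^ s := by rw [hγ]; group
        rw [this]
        exact Subgroup.npow_mem_zpowers _ _
      rw [if_pos h2, Finset.sum_eq_single s]
      · split_ifs <;> norm_num
      · intro t ht hts
        rw [if_neg]
        rintro ⟨h3, -⟩
        apply hts
        exact eno_inj (Finset.mem_Ico.1 ht).2 (Finset.mem_Ico.1 hs).2 (by rw [← h3, ← hγ])
      · intro h3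
        exact absurd hs h3
    · push Not at h
      rw [Finset.sum_eq_zero]
      · split_ifs <;> norm_num
      · intro s hs
        rw [if_neg]
        rintro ⟨h3, -⟩
        exact h s hs h3
  have e : (Phi (x i) γ : ℝ) / (orderOf (x i) : ℝ) =
      1 / (orderOf (x i) : ℝ) * (Phi (x i) γ : ℝ) := by ring
  rw [e]
  exact mul_le_mul_of_nonneg_left h1 (by positivity)

/-- `n (n A² + E)` compared with the `L`-part -/
theorem energy_split (x : Fin r → G) (hx : ∀ i, x i ≠ 1) (o : Fin r → ℕ) :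
    (Fintype.card G : ℝ) ^ 2 * area x ^ 2 + ∑ γ : G, FL x o γ ^ 2 - ∑ γ : G, TL x o γ ^ 2 -
      2 * Real.sqrt (∑ γ : G, TL x o γ ^ 2) * Real.sqrt (∑ γ : G, TN x o γ ^ 2) -
      ∑ γ : G, TN x o γ ^ 2 ≤
    (Fintype.card G : ℝ) * ((Fintype.card G : ℝ) * area x ^ 2 + E x) := by
  classical
  have _ := hx
  have hn : (0 : ℝ) < (Fintype.card G : ℝ) := by
    exact_mod_cast (Fintype.card_pos (α := G))
  have h1 : (Fintype.card G : ℝ) * E x = ∑ γ ∈ univ.erase (1 : G), F x γ ^ 2 -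
      ∑ γ ∈ univ.erase (1 : G), T x γ ^ 2 := by
    unfold E
    rw [Finset.sum_sub_distrib]
    field_simp
  have h2 : ∑ γ : G, FL x o γ ^ 2 ≤ ∑ γ ∈ univ.erase (1 : G), F x γ ^ 2 := by
    rw [← Finset.add_sum_erase univ (fun γ => FL x o γ ^ 2) (Finset.mem_univ 1), eno_FL_one]
    have : ∑ γ ∈ univ.erase (1 : G), FL x o γ ^ 2 ≤ ∑ γ ∈ univ.erase (1 : G), F x γ ^ 2 :=
      Finset.sum_le_sum fun γ _ => pow_le_pow_left₀ (eno_FL_nonneg x o γ) (eno_FL_le x o γ) 2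
    simpa using this
  have h3 : ∑ γ ∈ univ.erase (1 : G), T x γ ^ 2 ≤ ∑ γ : G, T x γ ^ 2 :=
    Finset.sum_le_sum_of_subset_of_nonneg (Finset.erase_subset _ _) fun γ _ _ => sq_nonneg _
  have h4 : ∑ γ : G, T x γ ^ 2 = ∑ γ : G, TL x o γ ^ 2 + 2 * ∑ γ : G, TL x o γ * TN x o γ +
      ∑ γ : G, TN x o γ ^ 2 := by
    rw [Finset.mul_sum, ← Finset.sum_add_distrib, ← Finset.sum_add_distrib]
    refine Finset.sum_congr rfl fun γ _ => ?_
    rw [eno_T_split x o γ]
    ring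
  have h5 : ∑ γ : G, TL x o γ * TN x o γ ≤
      Real.sqrt (∑ γ : G, TL x o γ ^ 2) * Real.sqrt (∑ γ : G, TN x o γ ^ 2) := by
    rw [← Real.sqrt_mul (Finset.sum_nonneg fun γ _ => sq_nonneg _)]
    exact Real.le_sqrt_of_sq_le (Finset.sum_mul_sq_le_sq_mul_sq univ _ _)
  have h6 : (Fintype.card G : ℝ) * ((Fintype.card G : ℝ) * area x ^ 2 + E x) =
      (Fintype.card G : ℝ) ^ 2 * area x ^ 2 + (Fintype.card G : ℝ) * E x := by ring
  rw [h6, h1]
  nlinarith

/-- the sum over the branch points -/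
private theorem eno_sum (x : Fin r → G) (f : Fin r → G → ℝ) (M : ℝ) (hM : 0 ≤ M)
    (h : ∀ i, ∑ γ : G, f i γ ^ 2 ≤ M ^ 2) :
    Real.sqrt (∑ γ : G, (∑ i, f i γ) ^ 2) ≤ r * M := by
  have _ := x
  refine Real.sqrt_le_iff.2 ⟨by positivity, ?_⟩
  calc ∑ γ : G, (∑ i, f i γ) ^ 2 ≤ ∑ γ : G, (r : ℝ) * ∑ i, f i γ ^ 2 := by
        refine Finset.sum_le_sum fun γ _ => ?_
        have h1 := sq_sum_le_card_mul_sum_sq (s := (univ : Finset (Fin r))) (f := fun i => f i γ)
        rwa [Finset.card_univ, Fintype.card_fin] at h1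
    _ = (r : ℝ) * ∑ i, ∑ γ : G, f i γ ^ 2 := by
        rw [← Finset.mul_sum, Finset.sum_comm]
    _ ≤ (r : ℝ) * ∑ _i : Fin r, M ^ 2 :=
        mul_le_mul_of_nonneg_left (Finset.sum_le_sum fun i _ => h i) (by positivity)
    _ = (r * M) ^ 2 := by
        rw [Finset.sum_const, Finset.card_univ, Fintype.card_fin, nsmul_eq_mul]
        ring

/-- the contraction for the cotangents -/
private theorem eno_contr_ct {y : G} {S : Finset ℕ} (hS : S ⊆ Ico 1 (orderOf y)) :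
    ∑ γ : G, enf y S (ct (orderOf y)) γ ^ 2 ≤ (Fintype.card G : ℝ) ^ 2 *
      ((((orderOf y : ℝ) - 1) * ((orderOf y : ℝ) - 2)) / (3 * (orderOf y : ℝ) ^ 2)) := by
  have hm : (0 : ℝ) < (orderOf y : ℝ) := by exact_mod_cast orderOf_pos y
  refine (eno_contr hS _).trans ?_
  have h1 : ∑ s ∈ S, ct (orderOf y) s ^ 2 ≤
      ((orderOf y : ℝ) - 1) * ((orderOf y : ℝ) - 2) / 3 := by
    rw [← sum_ct_sq (N := orderOf y) (orderOf_pos y)]
    exact Finset.sum_le_sum_of_subset_of_nonneg hS fun s _ _ => sq_nonneg _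
  calc ((Fintype.card G : ℝ) / (orderOf y : ℝ)) ^ 2 * ∑ s ∈ S, ct (orderOf y) s ^ 2
      ≤ ((Fintype.card G : ℝ) / (orderOf y : ℝ)) ^ 2 *
        (((orderOf y : ℝ) - 1) * ((orderOf y : ℝ) - 2) / 3) :=
        mul_le_mul_of_nonneg_left h1 (by positivity)
    _ = _ := by
        field_simp

theorem norm_TL (x : Fin r → G) (o : Fin r → ℕ) (ho : ∀ i, o i ∣ orderOf (x i)) :
    Real.sqrt (∑ γ : G, TL x o γ ^ 2) ≤ (Fintype.card G : ℝ) * (r / Real.sqrt 3) := by
  classical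
  have _ := ho
  have h3 : (0 : ℝ) < Real.sqrt 3 := Real.sqrt_pos.2 (by norm_num)
  have h3' : Real.sqrt 3 ^ 2 = 3 := Real.sq_sqrt (by norm_num)
  have h1 : ∀ γ : G, TL x o γ ^ 2 = (∑ i, enf (x i)
      ((Ico 1 (orderOf (x i))).filter fun s => o i ∣ s) (ct (orderOf (x i))) γ) ^ 2 := by
    intro γ
    rw [eno_TL]
  rw [Finset.sum_congr rfl fun γ _ => h1 γ]
  refine (eno_sum x _ ((Fintype.card G : ℝ) / Real.sqrt 3) (by positivity) ?_).trans ?_
  · intro i
    refine (eno_contr_ct (Finset.filter_subset _ _)).trans ?_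
    have hm : (1 : ℝ) ≤ (orderOf (x i) : ℝ) := by exact_mod_cast orderOf_pos (x i)
    rw [div_pow, h3']
    have h4 : ((orderOf (x i) : ℝ) - 1) * ((orderOf (x i) : ℝ) - 2) / (3 * (orderOf (x i) : ℝ) ^ 2)
        ≤ 1 / 3 := by
      rw [div_le_div_iff₀ (by positivity) (by norm_num)]
      nlinarith
    calc (Fintype.card G : ℝ) ^ 2 * (((orderOf (x i) : ℝ) - 1) * ((orderOf (x i) : ℝ) - 2) /
          (3 * (orderOf (x i) : ℝ) ^ 2)) ≤ (Fintype.card G : ℝ) ^ 2 * (1 / 3) :=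
          mul_le_mul_of_nonneg_left h4 (by positivity)
      _ = _ := by ring
  · apply le_of_eq
    ring

/-- the sums over a part of the indices -/
private theorem eno_tail {m R₁ : ℕ} (hR : 4 ≤ R₁) {S : Finset ℕ}
    (hS : ∀ s ∈ S, R₁ < s ∧ s + R₁ < m) :
    ∑ s ∈ S, (1 / (s : ℝ) ^ 2 + 1 / ((m - s : ℕ) : ℝ) ^ 2) ≤ 2 / (R₁ : ℝ) := by
  have h0 : (0 : ℝ) < R₁ := by exact_mod_cast (by omega : 0 < R₁)
  have h1 : ∑ s ∈ Ioc R₁ (R₁ + m), ((s : ℝ) ^ 2)⁻¹ ≤ 1 / (R₁ : ℝ) := by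
    have h2 := sum_Ioc_inv_sq_le_sub (α := ℝ) (k := R₁) (n := R₁ + m) (by omega) (by omega)
    have h3 : (0 : ℝ) ≤ ((R₁ + m : ℕ) : ℝ)⁻¹ := by positivity
    rw [one_div]
    linarith
  have h2 : ∑ s ∈ S, 1 / (s : ℝ) ^ 2 ≤ 1 / (R₁ : ℝ) := by
    refine le_trans ?_ h1
    have e : ∀ s ∈ S, 1 / (s : ℝ) ^ 2 = ((s : ℝ) ^ 2)⁻¹ := fun s _ => one_div _
    rw [Finset.sum_congr rfl e]
    refine Finset.sum_le_sum_of_subset_of_nonneg ?_ fun s _ _ => by positivity
    intro s hs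
    have := hS s hs
    rw [Finset.mem_Ioc]
    omega
  have h3 : ∑ s ∈ S, 1 / ((m - s : ℕ) : ℝ) ^ 2 ≤ 1 / (R₁ : ℝ) := by
    refine le_trans ?_ h1
    have e : ∑ s ∈ S, 1 / ((m - s : ℕ) : ℝ) ^ 2 =
        ∑ t ∈ S.image (fun s => m - s), ((t : ℝ) ^ 2)⁻¹ := by
      rw [Finset.sum_image]
      · refine Finset.sum_congr rfl fun s _ => one_div _
      · intro a ha b hb hab
        have h4 := hS a ha
        have h5 := hS b hb
        simp only at hab
        omega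
    rw [e]
    refine Finset.sum_le_sum_of_subset_of_nonneg ?_ fun s _ _ => by positivity
    intro t ht
    obtain ⟨s, hs, rfl⟩ := Finset.mem_image.1 ht
    have := hS s hs
    rw [Finset.mem_Ioc]
    omega
  rw [Finset.sum_add_distrib]
  have : 2 / (R₁ : ℝ) = 1 / (R₁ : ℝ) + 1 / (R₁ : ℝ) := by ring
  rw [this]
  exact add_le_add h2 h3

private theorem eno_pi : 1 / Real.pi ^ 2 ≤ 1 / 9 := by
  have h := Real.pi_gt_three
  exact one_div_le_one_div_of_le (by norm_num) (by nlinarith)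

private theorem eno_ct' {m s : ℕ} (h0 : 0 < s) (h1 : s < m) :
    (ct m s / m) ^ 2 ≤ 1 / 9 * (1 / (s : ℝ) ^ 2 + 1 / ((m - s : ℕ) : ℝ) ^ 2) :=
  (eno_ct h0 h1).trans (mul_le_mul_of_nonneg_right eno_pi (by positivity))

open Classical in
private theorem eno_N {y : G} {S : Finset ℕ} (hS : S ⊆ Ico 1 (orderOf y)) {R₁ : ℕ} (hR : 4 ≤ R₁)
    (h : ∀ s ∈ S, (s ≤ R₁ ∨ orderOf y ≤ s + R₁) →
      R₁ ^ 4 ≤ (univ.image fun g : G => g * y ^ s * g⁻¹).card) :
    ∑ γ : G, enf y S (ct (orderOf y)) γ ^ 2 ≤ (Fintype.card G : ℝ) ^ 2 / (R₁ : ℝ) := by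
  have hm : (0 : ℝ) < (orderOf y : ℝ) := by exact_mod_cast orderOf_pos y
  have hR0 : (4 : ℝ) ≤ R₁ := by exact_mod_cast hR
  have hR1 : (0 : ℝ) < R₁ := by linarith
  set S₁ := S.filter fun s => s ≤ R₁ ∨ orderOf y ≤ s + R₁ with hS₁
  set S₂ := S.filter fun s => ¬ (s ≤ R₁ ∨ orderOf y ≤ s + R₁) with hS₂
  have hS₁' : S₁ ⊆ Ico 1 (orderOf y) := (Finset.filter_subset _ _).trans hS
  have hS₂' : S₂ ⊆ Ico 1 (orderOf y) := (Finset.filter_subset _ _).trans hS
  have hsplit : ∀ γ, enf y S (ct (orderOf y)) γ =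
      enf y S₁ (ct (orderOf y)) γ + enf y S₂ (ct (orderOf y)) γ := by
    intro γ
    unfold enf
    rw [← mul_add, ← Finset.sum_add_distrib]
    congr 1
    refine Finset.sum_congr rfl fun g _ => ?_
    exact (Finset.sum_filter_add_sum_filter_not S _ _).symm
  -- the second part
  have h2 : ∑ γ : G, enf y S₂ (ct (orderOf y)) γ ^ 2 ≤ (Fintype.card G : ℝ) ^ 2 * (2 / (9 * R₁)) := by
    refine (eno_contr hS₂' _).trans ?_
    have e : ((Fintype.card G : ℝ) / (orderOf y : ℝ)) ^ 2 * ∑ s ∈ S₂, ct (orderOf y) s ^ 2 =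
        (Fintype.card G : ℝ) ^ 2 * ∑ s ∈ S₂, (ct (orderOf y) s / (orderOf y : ℝ)) ^ 2 := by
      rw [Finset.mul_sum, Finset.mul_sum]
      refine Finset.sum_congr rfl fun s _ => ?_
      ring
    rw [e]
    refine mul_le_mul_of_nonneg_left ?_ (by positivity)
    calc ∑ s ∈ S₂, (ct (orderOf y) s / (orderOf y : ℝ)) ^ 2
        ≤ ∑ s ∈ S₂, 1 / 9 * (1 / (s : ℝ) ^ 2 + 1 / ((orderOf y - s : ℕ) : ℝ) ^ 2) := by
          refine Finset.sum_le_sum fun s hs => ?_
          have := Finset.mem_Ico.1 (hS₂' hs)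
          exact eno_ct' (by omega) this.2
      _ = 1 / 9 * ∑ s ∈ S₂, (1 / (s : ℝ) ^ 2 + 1 / ((orderOf y - s : ℕ) : ℝ) ^ 2) := by
          rw [Finset.mul_sum]
      _ ≤ 1 / 9 * (2 / (R₁ : ℝ)) := by
          refine mul_le_mul_of_nonneg_left (eno_tail hR fun s hs => ?_) (by norm_num)
          have := (Finset.mem_filter.1 hs).2
          omega
      _ = _ := by
          field_simp
  -- the first part
  have h1 : ∑ γ : G, enf y S₁ (ct (orderOf y)) γ ^ 2 ≤
      (Fintype.card G : ℝ) ^ 2 * (8 / (9 * (R₁ : ℝ) ^ 2)) := by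
    have hcard : (S₁.card : ℝ) ≤ 2 * R₁ := by
      have h3 : S₁ ⊆ Icc 1 R₁ ∪ Ico (orderOf y - R₁) (orderOf y) := by
        intro s hs
        have h4 := Finset.mem_Ico.1 (hS₁' hs)
        have h5 := (Finset.mem_filter.1 hs).2
        rw [Finset.mem_union, Finset.mem_Icc, Finset.mem_Ico]
        omega
      have h4 := (Finset.card_le_card h3).trans (Finset.card_union_le _ _)
      rw [Nat.card_Icc, Nat.card_Ico] at h4
      have h5 : S₁.card ≤ 2 * R₁ := by omega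
      exact_mod_cast h5
    have hsum : ∀ γ, enf y S₁ (ct (orderOf y)) γ = ∑ s ∈ S₁, enf y {s} (ct (orderOf y)) γ := by
      intro γ
      unfold enf
      rw [← Finset.mul_sum, Finset.sum_comm]
      congr 1
      rw [Finset.sum_comm]
      rw [Finset.sum_comm]
      refine Finset.sum_congr rfl fun s _ => Finset.sum_congr rfl fun g _ => ?_
      rw [Finset.sum_singleton]
    have hone : ∀ s ∈ S₁, ∑ γ : G, enf y {s} (ct (orderOf y)) γ ^ 2 ≤
        2 / 9 * (Fintype.card G : ℝ) ^ 2 / (R₁ : ℝ) ^ 4 := by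
      intro s hs
      have h4 := Finset.mem_Ico.1 (hS₁' hs)
      have h5 := h s (Finset.mem_filter.1 hs).1 (Finset.mem_filter.1 hs).2
      have h6 : (R₁ : ℝ) ^ 4 ≤ ((univ.image fun g : G => g * y ^ s * g⁻¹).card : ℝ) := by
        exact_mod_cast h5
      have h7 := eno_one y s (ct (orderOf y))
      rw [← Finset.sum_mul] at h7
      have h8 : (ct (orderOf y) s / (orderOf y : ℝ)) ^ 2 ≤ 2 / 9 := by
        refine (eno_ct' (by omega) h4.2).trans ?_
        have h9 : 1 / (s : ℝ) ^ 2 ≤ 1 := by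
          have : (1 : ℝ) ≤ s := by exact_mod_cast h4.1
          rw [div_le_one (by positivity)]
          nlinarith
        have h10 : 1 / ((orderOf y - s : ℕ) : ℝ) ^ 2 ≤ 1 := by
          have : (1 : ℝ) ≤ ((orderOf y - s : ℕ) : ℝ) := by
            exact_mod_cast (by omega : 1 ≤ orderOf y - s)
          rw [div_le_one (by positivity)]
          nlinarith
        linarith
      rw [le_div_iff₀ (by positivity)]
      have h0 : 0 ≤ ∑ γ : G, enf y {s} (ct (orderOf y)) γ ^ 2 :=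
        Finset.sum_nonneg fun γ _ => sq_nonneg _
      calc (∑ γ : G, enf y {s} (ct (orderOf y)) γ ^ 2) * (R₁ : ℝ) ^ 4
          ≤ (∑ γ : G, enf y {s} (ct (orderOf y)) γ ^ 2) *
            ((univ.image fun g : G => g * y ^ s * g⁻¹).card : ℝ) :=
            mul_le_mul_of_nonneg_left h6 h0
        _ = (ct (orderOf y) s / (orderOf y : ℝ)) ^ 2 * (Fintype.card G : ℝ) ^ 2 := h7
        _ ≤ 2 / 9 * (Fintype.card G : ℝ) ^ 2 := mul_le_mul_of_nonneg_right h8 (by positivity)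
    calc ∑ γ : G, enf y S₁ (ct (orderOf y)) γ ^ 2
        ≤ ∑ γ : G, (S₁.card : ℝ) * ∑ s ∈ S₁, enf y {s} (ct (orderOf y)) γ ^ 2 := by
          refine Finset.sum_le_sum fun γ _ => ?_
          rw [hsum]
          exact sq_sum_le_card_mul_sum_sq
      _ = (S₁.card : ℝ) * ∑ s ∈ S₁, ∑ γ : G, enf y {s} (ct (orderOf y)) γ ^ 2 := by
          rw [← Finset.mul_sum, Finset.sum_comm]
      _ ≤ (S₁.card : ℝ) * ∑ _s ∈ S₁, 2 / 9 * (Fintype.card G : ℝ) ^ 2 / (R₁ : ℝ) ^ 4 :=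
          mul_le_mul_of_nonneg_left (Finset.sum_le_sum hone) (by positivity)
      _ = (S₁.card : ℝ) ^ 2 * (2 / 9 * (Fintype.card G : ℝ) ^ 2 / (R₁ : ℝ) ^ 4) := by
          rw [Finset.sum_const, nsmul_eq_mul]
          ring
      _ ≤ (2 * R₁) ^ 2 * (2 / 9 * (Fintype.card G : ℝ) ^ 2 / (R₁ : ℝ) ^ 4) :=
          mul_le_mul_of_nonneg_right (pow_le_pow_left₀ (by positivity) hcard 2) (by positivity)
      _ = _ := by
          field_simp
          ring
  have h3 : ∑ γ : G, enf y S (ct (orderOf y)) γ ^ 2 ≤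
      2 * ∑ γ : G, enf y S₁ (ct (orderOf y)) γ ^ 2 +
        2 * ∑ γ : G, enf y S₂ (ct (orderOf y)) γ ^ 2 := by
    rw [Finset.mul_sum, Finset.mul_sum, ← Finset.sum_add_distrib]
    refine Finset.sum_le_sum fun γ _ => ?_
    rw [hsplit]
    nlinarith [sq_nonneg (enf y S₁ (ct (orderOf y)) γ - enf y S₂ (ct (orderOf y)) γ)]
  have h4 : 2 * (8 / (9 * (R₁ : ℝ) ^ 2)) + 2 * (2 / (9 * R₁)) ≤ 1 / (R₁ : ℝ) := by
    have e1 : 2 * (8 / (9 * (R₁ : ℝ) ^ 2)) = 16 / 9 / R₁ * (1 / R₁) := by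
      field_simp
      ring
    have e2 : 1 / (R₁ : ℝ) ≤ 1 / 4 := one_div_le_one_div_of_le (by norm_num) hR0
    have e3 : 16 / 9 / (R₁ : ℝ) * (1 / R₁) ≤ 16 / 9 / (R₁ : ℝ) * (1 / 4) :=
      mul_le_mul_of_nonneg_left e2 (by positivity)
    have e4 : 16 / 9 / (R₁ : ℝ) * (1 / 4) + 2 * (2 / (9 * R₁)) = 8 / 9 * (1 / R₁) := by
      field_simp
      ring
    have e5 : 8 / 9 * (1 / (R₁ : ℝ)) ≤ 1 / (R₁ : ℝ) := by
      have : 0 ≤ 1 / (R₁ : ℝ) := by positivity
      linarith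
    rw [e1]
    linarith
  calc ∑ γ : G, enf y S (ct (orderOf y)) γ ^ 2
      ≤ 2 * ((Fintype.card G : ℝ) ^ 2 * (8 / (9 * (R₁ : ℝ) ^ 2))) +
        2 * ((Fintype.card G : ℝ) ^ 2 * (2 / (9 * R₁))) := by linarith
    _ = (Fintype.card G : ℝ) ^ 2 * (2 * (8 / (9 * (R₁ : ℝ) ^ 2)) + 2 * (2 / (9 * R₁))) := by ring
    _ ≤ (Fintype.card G : ℝ) ^ 2 * (1 / (R₁ : ℝ)) :=
        mul_le_mul_of_nonneg_left h4 (by positivity)
    _ = _ := by ring

open Classical in
theorem norm_TN (x : Fin r → G) (o : Fin r → ℕ) (R₁ : ℕ) (hR : 4 ≤ R₁)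
    (h : ∀ i, ∀ s, 0 < s → s < orderOf (x i) → ¬ o i ∣ s → (s ≤ R₁ ∨ orderOf (x i) ≤ s + R₁) →
      R₁ ^ 4 ≤ (univ.image fun g : G => g * x i ^ s * g⁻¹).card) :
    Real.sqrt (∑ γ : G, TN x o γ ^ 2) ≤ (Fintype.card G : ℝ) * (r / Real.sqrt R₁) := by
  have hR1 : (0 : ℝ) < R₁ := by exact_mod_cast (by omega : 0 < R₁)
  have h3 : (0 : ℝ) < Real.sqrt R₁ := Real.sqrt_pos.2 hR1
  have h3' : Real.sqrt R₁ ^ 2 = R₁ := Real.sq_sqrt hR1.le
  have h1 : ∀ γ : G, TN x o γ ^ 2 = (∑ i, enf (x i)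
      ((Ico 1 (orderOf (x i))).filter fun s => ¬ o i ∣ s) (ct (orderOf (x i))) γ) ^ 2 := by
    intro γ
    rw [eno_TN]
  rw [Finset.sum_congr rfl fun γ _ => h1 γ]
  refine (eno_sum x _ ((Fintype.card G : ℝ) / Real.sqrt R₁) (by positivity) ?_).trans ?_
  · intro i
    rw [div_pow, h3']
    refine eno_N (Finset.filter_subset _ _) hR ?_
    intro s hs h4
    rw [Finset.mem_filter, Finset.mem_Ico] at hs
    exact h i s (by omega) hs.1.2 hs.2 h4
  · apply le_of_eq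
    ring

/-- the case of one element -/
theorem age_age (W : Wedd G) (y : G) (hy : y ≠ 1) :
    (Fintype.card G : ℝ) / 4 ≤ 4 * ∑ j, age (W.R j y⁻¹) * age (W.R j y) := by
  have hn : (0 : ℝ) < (Fintype.card G : ℝ) := by
    exact_mod_cast (Fintype.card_pos (α := G))
  have hm1 : orderOf y ≠ 1 := fun h => hy (orderOf_eq_one_iff.1 h)
  have hm0 : 0 < orderOf y := orderOf_pos y
  have hm : (2 : ℝ) ≤ (orderOf y : ℝ) := by exact_mod_cast (by omega : 2 ≤ orderOf y)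
  have hb := bracket W (fun _ : Fin 1 => y) (fun _ => 1) (fun _ => one_dvd _)
    (1 - 1 / (orderOf y : ℝ))
  simp only [Finset.univ_unique, Finset.sum_singleton, pow_one, Nat.cast_one, div_one, one_mul,
    sub_self, zero_div, zero_mul, zero_add] at hb
  have hTL : ∑ γ : G, TL (fun _ : Fin 1 => y) (fun _ => 1) γ ^ 2 ≤ (Fintype.card G : ℝ) ^ 2 *
      ((((orderOf y : ℝ) - 1) * ((orderOf y : ℝ) - 2)) / (3 * (orderOf y : ℝ) ^ 2)) := by
    classical
    refine le_trans (le_of_eq ?_)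
      (eno_contr_ct (y := y) (S := (Ico 1 (orderOf y)).filter fun s => 1 ∣ s)
        (Finset.filter_subset _ _))
    refine Finset.sum_congr rfl fun γ _ => ?_
    rw [eno_TL]
    simp only [Finset.univ_unique, Finset.sum_singleton]
  have hFL : 0 ≤ ∑ γ : G, FL (fun _ : Fin 1 => y) (fun _ => 1) γ ^ 2 :=
    Finset.sum_nonneg fun γ _ => sq_nonneg _
  have hq : 1 / 4 ≤ (1 - 1 / (orderOf y : ℝ)) ^ 2 -
      (((orderOf y : ℝ) - 1) * ((orderOf y : ℝ) - 2)) / (3 * (orderOf y : ℝ) ^ 2) := by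
    have e : (1 - 1 / (orderOf y : ℝ)) ^ 2 -
        (((orderOf y : ℝ) - 1) * ((orderOf y : ℝ) - 2)) / (3 * (orderOf y : ℝ) ^ 2) =
        (((orderOf y : ℝ) - 1) * (2 * (orderOf y : ℝ) - 1)) / (3 * (orderOf y : ℝ) ^ 2) := by
      field_simp
      ring
    rw [e, div_le_div_iff₀ (by norm_num) (by positivity)]
    nlinarith
  have h1 : (Fintype.card G : ℝ) ^ 2 * (1 / 4) ≤
      4 * (Fintype.card G : ℝ) * ∑ j, age (W.R j y⁻¹) * age (W.R j y) := by
    rw [← hb]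
    have h2 := mul_le_mul_of_nonneg_left hq (by positivity : (0 : ℝ) ≤ (Fintype.card G : ℝ) ^ 2)
    linarith
  have h3 : (Fintype.card G : ℝ) * ((Fintype.card G : ℝ) / 4) ≤
      (Fintype.card G : ℝ) * (4 * ∑ j, age (W.R j y⁻¹) * age (W.R j y)) := by linarith
  exact le_of_mul_le_mul_left h3 hn

end ENO

end Pool.Agent.CO30
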