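import Pool.Agent.CO30.F4

/-!
# Representations of a finite group: orthogonality, multiplicities, ages
-/

namespace Pool.Agent.CO30

open Matrix Finset Pool.Agent.CO75

section REP
variable {H : Type} [Group H] [Fintype H] {d d' : ℕ}

/-! ### Traces of the averaging projector -/

/-- `X ↦ A X B`. -/
private noncomputable def repLR {D d : ℕ} (A : Matrix (Fin D) (Fin D) ℂ)
    (B : Matrix (Fin d) (Fin d) ℂ) :
    Matrix (Fin D) (Fin d) ℂ →ₗ[ℂ] Matrix (Fin D) (Fin d) ℂ where
  toFun X := A * X * B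
  map_add' X Y := by rw [Matrix.mul_add, Matrix.add_mul]
  map_smul' c X := by rw [Matrix.mul_smul, Matrix.smul_mul]; rfl

private theorem repLR_apply {D d : ℕ} (A : Matrix (Fin D) (Fin D) ℂ)
    (B : Matrix (Fin d) (Fin d) ℂ) (X : Matrix (Fin D) (Fin d) ℂ) : repLR A B X = A * X * B := rfl

private theorem trace_repLR {D d : ℕ} (A : Matrix (Fin D) (Fin D) ℂ)
    (B : Matrix (Fin d) (Fin d) ℂ) :
    LinearMap.trace ℂ (Matrix (Fin D) (Fin d) ℂ) (repLR A B) = A.trace * B.trace := by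
  classical
  set b := Matrix.stdBasis ℂ (Fin D) (Fin d) with hb
  rw [LinearMap.trace_eq_matrix_trace ℂ b, Matrix.trace, Fintype.sum_prod_type]
  have key : ∀ p : Fin D, ∀ q : Fin d, (LinearMap.toMatrix b b (repLR A B)).diag (p, q) =
      A p p * B q q := by
    intro p q
    rw [Matrix.diag_apply, LinearMap.toMatrix_apply, repLR_apply, hb, Matrix.stdBasis_eq_single]
    change (A * (Matrix.single p q (1 : ℂ) : Matrix (Fin D) (Fin d) ℂ) * B) p q = A p p * B q q
    simp [Matrix.mul_apply, Matrix.single_apply, Finset.sum_ite_eq, ite_and]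
  simp only [key]
  rw [Matrix.trace, Matrix.trace, Finset.sum_mul_sum]
  rfl

/-- The averaging projector. -/
private noncomputable def repP {D d : ℕ} (S : H →* Matrix (Fin D) (Fin D) ℂ)
    (R : H →* Matrix (Fin d) (Fin d) ℂ) :
    Matrix (Fin D) (Fin d) ℂ →ₗ[ℂ] Matrix (Fin D) (Fin d) ℂ :=
  (1 / (Fintype.card H : ℂ)) • ∑ h : H, repLR (S h) (R h⁻¹)

private theorem repP_apply {D d : ℕ} (S : H →* Matrix (Fin D) (Fin D) ℂ)
    (R : H →* Matrix (Fin d) (Fin d) ℂ) (X : Matrix (Fin D) (Fin d) ℂ) :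
    repP S R X = (1 / (Fintype.card H : ℂ)) • ∑ h : H, S h * X * R h⁻¹ := by
  unfold repP
  rw [LinearMap.smul_apply, LinearMap.sum_apply]
  rfl

private theorem repP_trace {D d : ℕ} (S : H →* Matrix (Fin D) (Fin D) ℂ)
    (R : H →* Matrix (Fin d) (Fin d) ℂ) :
    (Fintype.card H : ℂ) * LinearMap.trace ℂ (Matrix (Fin D) (Fin d) ℂ) (repP S R) =
      ∑ h : H, (S h).trace * (R h⁻¹).trace := by
  have hn : (Fintype.card H : ℂ) ≠ 0 := by exact_mod_cast Fintype.card_ne_zero
  unfold repP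
  rw [map_smul, map_sum, smul_eq_mul]
  simp only [trace_repLR]
  field_simp

/-- The image consists of intertwiners. -/
private theorem repP_inter {D d : ℕ} (S : H →* Matrix (Fin D) (Fin D) ℂ)
    (R : H →* Matrix (Fin d) (Fin d) ℂ) (X : Matrix (Fin D) (Fin d) ℂ) (g : H) :
    S g * repP S R X = repP S R X * R g := by
  rw [repP_apply, Matrix.mul_smul, Matrix.smul_mul]
  congr 1
  rw [Matrix.mul_sum, Matrix.sum_mul]
  refine Fintype.sum_equiv (Equiv.mulLeft g) _ _ fun h => ?_
  rw [Equiv.coe_mulLeft, map_mul, _root_.mul_inv_rev, map_mul]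
  have h1 : R g⁻¹ * R g = 1 := by rw [← map_mul, inv_mul_cancel, map_one]
  simp only [Matrix.mul_assoc]
  rw [h1, Matrix.mul_one]

private theorem repP_fix {D d : ℕ} (S : H →* Matrix (Fin D) (Fin D) ℂ)
    (R : H →* Matrix (Fin d) (Fin d) ℂ) (X : Matrix (Fin D) (Fin d) ℂ)
    (hX : ∀ g, S g * X = X * R g) : repP S R X = X := by
  have hn : (Fintype.card H : ℂ) ≠ 0 := by exact_mod_cast Fintype.card_ne_zero
  rw [repP_apply]
  have h1 : ∀ h : H, S h * X * R h⁻¹ = X := by
    intro h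
    rw [hX h, Matrix.mul_assoc, ← map_mul, mul_inv_cancel, map_one, Matrix.mul_one]
  rw [Finset.sum_congr rfl fun h _ => h1 h, Finset.sum_const, Finset.card_univ,
    ← Nat.cast_smul_eq_nsmul ℂ, smul_smul]
  have h2 : 1 / (Fintype.card H : ℂ) * (Fintype.card H : ℂ) = 1 := by field_simp
  rw [h2, one_smul]

private theorem repP_idem {D d : ℕ} (S : H →* Matrix (Fin D) (Fin D) ℂ)
    (R : H →* Matrix (Fin d) (Fin d) ℂ) : IsIdempotentElem (repP S R) := by
  refine LinearMap.ext fun X => ?_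
  rw [Module.End.mul_apply]
  exact repP_fix S R _ (repP_inter S R X)

/-- multiplicities are the dimensions of the spaces of intertwiners -/
private theorem rp_mult_eq {D : ℕ} (S : H →* Matrix (Fin D) (Fin D) ℂ)
    (R : H →* Matrix (Fin d) (Fin d) ℂ) :
    ∑ h : H, (S h).trace * (R h⁻¹).trace =
      (Fintype.card H : ℂ) * (Module.finrank ℂ (LinearMap.range (repP S R)) : ℂ) := by
  rw [← repP_trace, (LinearMap.IsIdempotentElem.isProj_range _ (repP_idem S R)).trace]

/-- multiplicities are natural numbers -/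
theorem mult_nat {D : ℕ} (S : H →* Matrix (Fin D) (Fin D) ℂ) (R : H →* Matrix (Fin d) (Fin d) ℂ)
    (_hR : Irr R) : ∃ m : ℕ, ∑ h : H, (S h).trace * (R h⁻¹).trace = (Fintype.card H : ℂ) * m :=
  ⟨_, rp_mult_eq S R⟩

theorem orth_same (R : H →* Matrix (Fin d) (Fin d) ℂ) (hR : Irr R) :
    ∑ h : H, (R h).trace * (R h⁻¹).trace = (Fintype.card H : ℂ) := by
  have : Nonempty (Fin d) := ⟨⟨0, hR.1⟩⟩
  rw [rp_mult_eq]
  have h1 : LinearMap.range (repP R R) = Submodule.span ℂ {(1 : Matrix (Fin d) (Fin d) ℂ)} := by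
    apply le_antisymm
    · rintro _ ⟨X, rfl⟩
      obtain ⟨c, hc⟩ := scalar_of_comm hR.2 (repP R R X) (fun g => (repP_inter R R X g).symm)
      rw [hc]
      exact Submodule.smul_mem _ _ (Submodule.mem_span_singleton_self _)
    · rw [Submodule.span_singleton_le_iff_mem]
      exact ⟨1, repP_fix R R 1 (fun g => by rw [Matrix.mul_one, Matrix.one_mul])⟩
  rw [h1, finrank_span_singleton one_ne_zero, Nat.cast_one, mul_one]

/-! ### Intertwiners of irreducible representations -/

private theorem inj_of_inter {a b : ℕ} {X : Matrix (Fin a) (Fin b) ℂ} (hX0 : X ≠ 0)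
    (h : ∀ M : Matrix (Fin b) (Fin b) ℂ, ∃ M' : Matrix (Fin a) (Fin a) ℂ, M' * X = X * M) :
    b ≤ a := by
  have hinj : Function.Injective X.mulVecLin := by
    rw [← LinearMap.ker_eq_bot, LinearMap.ker_eq_bot']
    intro v hv
    by_contra hv0
    apply hX0
    obtain ⟨k, hk⟩ : ∃ k, v k ≠ 0 := Function.ne_iff.1 hv0
    rw [Matrix.mulVecLin_apply] at hv
    have hXz : ∀ w, X.mulVec w = 0 := by
      intro w
      obtain ⟨M', hM'⟩ := h (Matrix.vecMulVec w (Pi.single k (v k)⁻¹))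
      have h1 : (Matrix.vecMulVec w (Pi.single k (v k)⁻¹)).mulVec v = w := by
        ext i
        simp [Matrix.mulVec, dotProduct, Matrix.vecMulVec_apply, Pi.single_apply, hk]
      rw [← h1, Matrix.mulVec_mulVec, ← hM', ← Matrix.mulVec_mulVec, hv, Matrix.mulVec_zero]
    ext i j
    have := congrFun (hXz (Pi.single j 1)) i
    simpa using this
  have h2 := LinearMap.finrank_le_finrank_of_injective hinj
  simpa using h2

theorem rp_trace_eq_of_inter (R : H →* Matrix (Fin d) (Fin d) ℂ)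
    (R' : H →* Matrix (Fin d') (Fin d') ℂ) (hR : Irr R) (hR' : Irr R')
    {X : Matrix (Fin d) (Fin d') ℂ} (hX0 : X ≠ 0) (hX : ∀ g, R g * X = X * R' g) (g : H) :
    (R g).trace = (R' g).trace := by
  have h1 : ∀ M : Matrix (Fin d') (Fin d') ℂ, ∃ M' : Matrix (Fin d) (Fin d) ℂ, M' * X = X * M := by
    refine span_ind hR'.2 _ (fun g => ⟨_, hX g⟩) ⟨0, by simp⟩ ?_ ?_
    · rintro A B ⟨A', hA⟩ ⟨B', hB⟩
      exact ⟨A' + B', by rw [Matrix.mul_add, Matrix.add_mul, hA, hB]⟩
    · rintro c A ⟨A', hA⟩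
      exact ⟨c • A', by rw [Matrix.mul_smul, Matrix.smul_mul, hA]⟩
  have h2 : ∀ M : Matrix (Fin d) (Fin d) ℂ, ∃ M' : Matrix (Fin d') (Fin d') ℂ, M * X = X * M' := by
    refine span_ind hR.2 _ (fun g => ⟨_, hX g⟩) ⟨0, by simp⟩ ?_ ?_
    · rintro A B ⟨A', hA⟩ ⟨B', hB⟩
      exact ⟨A' + B', by rw [Matrix.mul_add, Matrix.add_mul, hA, hB]⟩
    · rintro c A ⟨A', hA⟩
      exact ⟨c • A', by rw [Matrix.mul_smul, Matrix.smul_mul, hA]⟩
  have hXT : Xᵀ ≠ 0 := by
    intro h
    apply hX0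
    rw [← Matrix.transpose_transpose X, h, Matrix.transpose_zero]
  have le1 : d' ≤ d := inj_of_inter hX0 h1
  have le2 : d ≤ d' := inj_of_inter hXT (by
    intro M
    obtain ⟨M', hM'⟩ := h2 Mᵀ
    refine ⟨M'ᵀ, ?_⟩
    have := congrArg Matrix.transpose hM'
    rw [Matrix.transpose_mul, Matrix.transpose_mul, Matrix.transpose_transpose] at this
    exact this.symm)
  have hd : d = d' := le_antisymm le2 le1
  subst hd
  have hdet : X.det ≠ 0 := by
    intro h0
    obtain ⟨v, hv, hXv⟩ := Matrix.exists_mulVec_eq_zero_iff.2 h0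
    apply hX0
    obtain ⟨k, hk⟩ : ∃ k, v k ≠ 0 := Function.ne_iff.1 hv
    have hXz : ∀ w, X.mulVec w = 0 := by
      intro w
      obtain ⟨M', hM'⟩ := h1 (Matrix.vecMulVec w (Pi.single k (v k)⁻¹))
      have h3 : (Matrix.vecMulVec w (Pi.single k (v k)⁻¹)).mulVec v = w := by
        ext i
        simp [Matrix.mulVec, dotProduct, Matrix.vecMulVec_apply, Pi.single_apply, hk]
      rw [← h3, Matrix.mulVec_mulVec, ← hM', ← Matrix.mulVec_mulVec, hXv, Matrix.mulVec_zero]
    ext i j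
    have := congrFun (hXz (Pi.single j 1)) i
    simpa using this
  have hu : IsUnit X.det := isUnit_iff_ne_zero.2 hdet
  calc (R g).trace = (R g * X * X⁻¹).trace := by
        rw [Matrix.mul_assoc, Matrix.mul_nonsing_inv X hu, Matrix.mul_one]
    _ = (X * R' g * X⁻¹).trace := by rw [hX g]
    _ = (X⁻¹ * (X * R' g)).trace := Matrix.trace_mul_comm _ _
    _ = (R' g).trace := by rw [← Matrix.mul_assoc, Matrix.nonsing_inv_mul X hu, Matrix.one_mul]

theorem orth (R : H →* Matrix (Fin d) (Fin d) ℂ) (R' : H →* Matrix (Fin d') (Fin d') ℂ)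
    (hR : Irr R) (hR' : Irr R') (hne : ∃ h, (R h).trace ≠ (R' h).trace) :
    ∑ h : H, (R h).trace * (R' h⁻¹).trace = 0 := by
  rw [rp_mult_eq]
  have h1 : LinearMap.range (repP R R') = ⊥ := by
    rw [eq_bot_iff]
    rintro _ ⟨X, rfl⟩
    rw [Submodule.mem_bot]
    by_contra h0
    obtain ⟨h, hh⟩ := hne
    exact hh (rp_trace_eq_of_inter R R' hR hR' h0 (fun g => repP_inter R R' X g) h)
  rw [h1, finrank_bot, Nat.cast_zero, mul_zero]

/-! ### Expansions -/

theorem irr_wedd (W : Wedd H) (j : Fin W.N) : Irr (W.R j) := ⟨W.pos j, W.span_R j⟩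

/-- expansion of class functions -/
theorem class_exp (W : Wedd H) (f : H → ℂ) (hf : ∀ g h, f (h * g * h⁻¹) = f g) (g : H) :
    (Fintype.card H : ℂ) * f g = ∑ j, (W.R j g).trace * ∑ h, f h * (W.R j h⁻¹).trace := by
  have h1 := W.class_expand (fun x => f x⁻¹) (by
    intro a b
    have h2 : (b * a * b⁻¹)⁻¹ = b * a⁻¹ * b⁻¹ := by group
    show f ((b * a * b⁻¹)⁻¹) = f a⁻¹
    rw [h2, hf]) g⁻¹
  simp only [inv_inv] at h1
  rw [h1]
  refine Finset.sum_congr rfl fun j _ => ?_
  congr 1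
  refine Fintype.sum_equiv (Equiv.inv H) _ _ fun h => ?_
  rw [Equiv.inv_apply, inv_inv]

/-- Parseval, for class functions -/
theorem parseval (W : Wedd H) (f : H → ℂ) (hf : ∀ g h, f (h * g * h⁻¹) = f g) :
    (Fintype.card H : ℂ) * ∑ g, f g ^ 2 =
      ∑ j, (∑ h, f h * (W.R j h).trace) * ∑ h, f h * (W.R j h⁻¹).trace := by
  have h1 : ∀ g, (Fintype.card H : ℂ) * f g ^ 2 =
      ∑ j, (f g * (W.R j g).trace) * ∑ h, f h * (W.R j h⁻¹).trace := by
    intro g
    have h2 := class_exp W f hf g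
    calc (Fintype.card H : ℂ) * f g ^ 2 = f g * ((Fintype.card H : ℂ) * f g) := by ring
      _ = _ := by
        rw [h2, Finset.mul_sum]
        refine Finset.sum_congr rfl fun j _ => ?_
        ring
  rw [Finset.mul_sum, Finset.sum_congr rfl fun g _ => h1 g, Finset.sum_comm]
  refine Finset.sum_congr rfl fun j _ => ?_
  rw [Finset.sum_mul]

private theorem conj_avg (R : H →* Matrix (Fin d) (Fin d) ℂ) (hR : Irr R) (g : H) :
    ∃ c : ℂ, ∑ h : H, R (h * g * h⁻¹) = c • (1 : Matrix (Fin d) (Fin d) ℂ) ∧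
      c * d = (Fintype.card H : ℂ) * (R g).trace := by
  obtain ⟨c, hc⟩ := scalar_of_comm hR.2 (∑ h : H, R (h * g * h⁻¹)) (by
    intro k
    rw [Matrix.sum_mul, Matrix.mul_sum]
    refine Fintype.sum_equiv (Equiv.mulLeft k⁻¹) _ _ fun h => ?_
    rw [Equiv.coe_mulLeft, ← map_mul, ← map_mul]
    congr 1
    group)
  refine ⟨c, hc, ?_⟩
  have h1 := congrArg Matrix.trace hc
  rw [Matrix.trace_sum, Matrix.trace_smul, Matrix.trace_one, Fintype.card_fin, smul_eq_mul] at h1
  rw [← h1]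
  have h2 : ∀ h : H, (R (h * g * h⁻¹)).trace = (R g).trace := by
    intro h
    rw [map_mul, map_mul, Matrix.trace_mul_comm, ← Matrix.mul_assoc, ← map_mul, inv_mul_cancel,
      map_one, Matrix.one_mul]
  rw [Finset.sum_congr rfl fun h _ => h2 h, Finset.sum_const, Finset.card_univ, nsmul_eq_mul]

open Classical in
/-- the second orthogonality relation -/
theorem col_orth (W : Wedd H) (g : H) :
    ∑ j, (W.R j g).trace * (W.R j g⁻¹).trace = ((univ.filter fun h : H => h * g = g * h).card : ℂ) := by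
  have hn : (Fintype.card H : ℂ) ≠ 0 := by exact_mod_cast Fintype.card_ne_zero
  have h1 : ∀ j, (Fintype.card H : ℂ) * ((W.R j g).trace * (W.R j g⁻¹).trace) =
      ∑ h : H, (W.d j : ℂ) * (W.R j (h * g * h⁻¹ * g⁻¹)).trace := by
    intro j
    obtain ⟨c, hc, hc2⟩ := conj_avg (W.R j) (irr_wedd W j) g
    have h2 : ∑ h : H, (W.R j (h * g * h⁻¹ * g⁻¹)).trace = c * (W.R j g⁻¹).trace := by
      have h3 := congrArg (fun M => (M * W.R j g⁻¹).trace) hc
      simp only [Matrix.sum_mul, Matrix.trace_sum, Matrix.smul_mul, Matrix.one_mul,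
        Matrix.trace_smul, smul_eq_mul] at h3
      rw [← h3]
      refine Finset.sum_congr rfl fun h _ => ?_
      rw [map_mul (W.R j) (h * g * h⁻¹)]
    rw [← Finset.mul_sum, h2]
    linear_combination (-(W.R j g⁻¹).trace) * hc2
  apply mul_left_cancel₀ hn
  rw [Finset.mul_sum, Finset.sum_congr rfl fun j _ => h1 j, Finset.sum_comm]
  simp only [W.col]
  rw [← Finset.sum_filter, Finset.sum_const, nsmul_eq_mul, mul_comm]
  congr 2
  refine congrArg Finset.card (Finset.filter_congr fun h _ => ?_)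
  constructor
  · intro h2
    have h3 : h * g * h⁻¹ = g := mul_inv_eq_one.1 h2
    calc h * g = h * g * h⁻¹ * h := by group
      _ = g * h := by rw [h3]
  · intro h2
    rw [h2]
    group

theorem index_inj (W : Wedd H) {i j : Fin W.N} (h : ∀ g, (W.R i g).trace = (W.R j g).trace) :
    i = j := by
  by_contra hij
  obtain ⟨f, hf⟩ := W.exists_family (Function.update (fun _ => 0) i 1)
  have h1 : ∑ h, f h * (W.R i h).trace = (W.d i : ℂ) := by
    have h2 := congrArg Matrix.trace (hf i)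
    rw [Function.update_self, Matrix.trace_one, Fintype.card_fin, Matrix.trace_sum] at h2
    rw [← h2]
    refine Finset.sum_congr rfl fun h _ => ?_
    rw [Matrix.trace_smul, smul_eq_mul]
  have h2 : ∑ h, f h * (W.R j h).trace = 0 := by
    have h3 := congrArg Matrix.trace (hf j)
    rw [Function.update_of_ne (Ne.symm hij), Matrix.trace_zero, Matrix.trace_sum] at h3
    rw [← h3]
    refine Finset.sum_congr rfl fun h _ => ?_
    rw [Matrix.trace_smul, smul_eq_mul]
  rw [Finset.sum_congr rfl fun g _ => by rw [h g], h2] at h1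
  have h3 := W.pos i
  have h4 : (W.d i : ℂ) ≠ 0 := by exact_mod_cast h3.ne'
  exact h4 h1.symm

/-- every irreducible representation is one of the `W.R j` -/
theorem exists_index (W : Wedd H) (R : H →* Matrix (Fin d) (Fin d) ℂ) (hR : Irr R) :
    ∃ j, W.d j = d ∧ ∀ h, (W.R j h).trace = (R h).trace := by
  by_contra hcon
  push Not at hcon
  have h0 : ∀ j, ∃ h, (R h).trace ≠ (W.R j h).trace := by
    intro j
    by_cases hd : W.d j = d
    · obtain ⟨h, hh⟩ := hcon j hd
      exact ⟨h, hh.symm⟩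
    · refine ⟨1, ?_⟩
      rw [map_one, map_one, Matrix.trace_one, Matrix.trace_one, Fintype.card_fin, Fintype.card_fin]
      intro h
      exact hd (by exact_mod_cast h.symm)
  have h1 := class_exp W (fun h => (R h).trace) (by
    intro g h
    show (R (h * g * h⁻¹)).trace = (R g).trace
    rw [map_mul, map_mul, Matrix.trace_mul_comm, ← Matrix.mul_assoc, ← map_mul, inv_mul_cancel,
      map_one, Matrix.one_mul]) 1
  have h2 : ∀ j, ∑ h, (R h).trace * (W.R j h⁻¹).trace = 0 :=
    fun j => orth R (W.R j) hR (irr_wedd W j) (h0 j)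
  simp only [h2, mul_zero, Finset.sum_const_zero, map_one, Matrix.trace_one, Fintype.card_fin] at h1
  have hn : (Fintype.card H : ℂ) ≠ 0 := by exact_mod_cast Fintype.card_ne_zero
  have hd : (d : ℂ) ≠ 0 := by exact_mod_cast hR.1.ne'
  exact mul_ne_zero hn hd h1

theorem irr_dual {R : H →* Matrix (Fin d) (Fin d) ℂ} (hR : Irr R) : Irr (dual R) :=
  ⟨hR.1, span_dual R hR.2⟩

omit [Fintype H] in
theorem irr_twk {R : H →* Matrix (Fin d) (Fin d) ℂ} (hR : Irr R) (α : H →* ℂˣ) (k : ℤ) :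
    Irr (twk R α k) := by
  refine ⟨hR.1, ?_⟩
  rw [eq_top_iff, ← hR.2, Submodule.span_le]
  rintro _ ⟨h, rfl⟩
  have h1 : R h = (((α h ^ k : ℂˣ) : ℂ)⁻¹) • twk R α k h := by
    change _ = (((α h ^ k : ℂˣ) : ℂ)⁻¹) • (((α h ^ k : ℂˣ) : ℂ) • R h)
    rw [smul_smul, inv_mul_cancel₀ (Units.ne_zero _), one_smul]
  rw [h1]
  exact Submodule.smul_mem _ _ (Submodule.subset_span ⟨h, rfl⟩)

omit [Fintype H] in
theorem irr_triv : Irr (trivR H) := by
  refine ⟨Nat.one_pos, ?_⟩
  rw [eq_top_iff]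
  rintro M -
  have h1 : M = (M 0 0) • trivR H 1 := by
    rw [map_one]
    ext i j
    rw [Subsingleton.elim i 0, Subsingleton.elim j 0, Matrix.smul_apply, Matrix.one_apply_eq,
      smul_eq_mul, mul_one]
  rw [h1]
  exact Submodule.smul_mem _ _ (Submodule.subset_span ⟨1, rfl⟩)

omit [Fintype H] in
/-- a representation composed with an automorphism -/
theorem irr_aut {R : H →* Matrix (Fin d) (Fin d) ℂ} (hR : Irr R) (e : MulAut H) :
    Irr (R.comp e.toMonoidHom) := by
  refine ⟨hR.1, ?_⟩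
  rw [eq_top_iff, ← hR.2, Submodule.span_le]
  rintro _ ⟨h, rfl⟩
  refine Submodule.subset_span ⟨e.symm h, ?_⟩
  change R (e (e.symm h)) = R h
  rw [MulEquiv.apply_symm_apply]

theorem scalar_central {R : H →* Matrix (Fin d) (Fin d) ℂ} (hR : Irr R) {t : H}
    (ht : ∀ h, t * h = h * t) : ∃ c : ℂ, R t = c • (1 : Matrix (Fin d) (Fin d) ℂ) :=
  scalar_of_comm hR.2 (R t) fun g => by rw [← map_mul, ← map_mul, ht]

theorem sq_le_index {R : H →* Matrix (Fin d) (Fin d) ℂ} (hR : Irr R) (Z : Subgroup H)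
    (hZ : ∀ t ∈ Z, ∀ h, t * h = h * t) : d ^ 2 ≤ Z.index := by
  classical
  have : Fintype (H ⧸ Z) := Fintype.ofFinite _
  let b : H ⧸ Z → Matrix (Fin d) (Fin d) ℂ := fun q => R q.out
  have h1 : Submodule.span ℂ (Set.range b) = ⊤ := by
    rw [eq_top_iff, ← hR.2, Submodule.span_le]
    rintro _ ⟨h, rfl⟩
    have h2 : (((h : H ⧸ Z)).out)⁻¹ * h ∈ Z := QuotientGroup.eq.1 (Quotient.out_eq' _)
    obtain ⟨c, hc⟩ := scalar_central hR (hZ _ h2)
    have h3 : R h = c • b (h : H ⧸ Z) := by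
      have h4 : h = ((h : H ⧸ Z)).out * ((((h : H ⧸ Z)).out)⁻¹ * h) := by group
      conv_lhs => rw [h4, map_mul, hc, Matrix.mul_smul, Matrix.mul_one]
    rw [h3]
    exact Submodule.smul_mem _ _ (Submodule.subset_span ⟨_, rfl⟩)
  have h2 := finrank_range_le_card (R := ℂ) b
  rw [Set.finrank, h1, finrank_top, Module.finrank_matrix] at h2
  rw [Subgroup.index, Nat.card_eq_fintype_card]
  refine le_trans (le_of_eq ?_) h2
  simp [sq]

/-! ### Ages -/

theorem rp_card_roots (A : Matrix (Fin d) (Fin d) ℂ) : A.charpoly.roots.card = d := by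
  rw [← (IsAlgClosed.splits A.charpoly).natDegree_eq_card_roots, Matrix.charpoly_natDegree_eq_dim,
    Fintype.card_fin]

theorem rp_fx (A : Matrix (Fin d) (Fin d) ℂ) : fx A = A.charpoly.roots.count 1 := by
  unfold fx
  rw [Polynomial.count_roots]

omit [Fintype H] in
theorem rp_pow (R : H →* Matrix (Fin d) (Fin d) ℂ) (h : H) : R h ^ orderOf h = 1 := by
  rw [← map_pow, pow_orderOf_eq_one, map_one]

theorem rp_roots_pow (A : Matrix (Fin d) (Fin d) ℂ) (s : ℕ) :
    (A ^ s).charpoly.roots = A.charpoly.roots.map fun z => z ^ s := by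
  rw [charpoly_pow_roots, Polynomial.roots_multiset_prod_X_sub_C]

theorem rp_roots_inv (R : H →* Matrix (Fin d) (Fin d) ℂ) (h : H) :
    (R h⁻¹).charpoly.roots = (R h).charpoly.roots.map fun z => z⁻¹ := by
  have hm : 0 < orderOf h := orderOf_pos h
  have h1 : R h⁻¹ = R h ^ (orderOf h - 1) := by
    rw [← map_pow]
    congr 1
    rw [inv_eq_iff_mul_eq_one, ← pow_succ', Nat.sub_add_cancel hm, pow_orderOf_eq_one]
  rw [h1, rp_roots_pow]
  refine Multiset.map_congr rfl fun z hz => ?_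
  have h2 := root_pow (R h) (rp_pow R h) hz
  refine eq_inv_of_mul_eq_one_left ?_
  rw [← pow_succ, Nat.sub_add_cancel hm, h2]

theorem rp_norm (R : H →* Matrix (Fin d) (Fin d) ℂ) (h : H) {z : ℂ}
    (hz : z ∈ (R h).charpoly.roots) : ‖z‖ = 1 :=
  Complex.norm_eq_one_of_pow_eq_one (root_pow (R h) (rp_pow R h) hz) (orderOf_pos h).ne'

theorem rp_ang_add_inv {z : ℂ} (hz : ‖z‖ = 1) : ang z + ang z⁻¹ = if z = 1 then 0 else 1 := by
  have h0 : Complex.exp (2 * Real.pi * Complex.I * ((ang z : ℝ) : ℂ)) = z := by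
    have h1 := exp_ang hz
    have h2 : (2 * Real.pi * Complex.I * ((ang z : ℝ) : ℂ) : ℂ) =
        ((2 * Real.pi * ang z : ℝ) : ℂ) * Complex.I := by
      push_cast
      ring
    rw [h2, h1]
  have h1 : z⁻¹ = Complex.exp (2 * Real.pi * Complex.I * ((-ang z : ℝ) : ℂ)) := by
    conv_lhs => rw [← h0]
    rw [← Complex.exp_neg]
    congr 1
    push_cast
    ring
  rw [h1, ang_exp]
  split_ifs with h
  · rw [h, ang_one]
    simp
  · have h2 : ang z ≠ 0 := by
      intro h3
      apply h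
      rw [← h0, h3]
      simp
    have h3 := ang_nonneg z
    have h4 := ang_lt_one z
    have h5 : Int.fract (-ang z) = 1 - ang z := by
      rw [Int.fract_eq_iff]
      refine ⟨by linarith, ?_, -1, by push_cast; ring⟩
      have : 0 < ang z := lt_of_le_of_ne h3 (Ne.symm h2)
      linarith
    rw [h5]
    ring

private theorem rp_count_sum (s : Multiset ℂ) :
    (s.map fun z => if z = 1 then (0 : ℝ) else 1).sum = (s.card : ℝ) - (s.count 1 : ℝ) := by
  classical
  induction s using Multiset.induction with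
  | empty => simp
  | cons a s ih =>
    rw [Multiset.map_cons, Multiset.sum_cons, ih, Multiset.card_cons, Multiset.count_cons]
    by_cases ha : a = 1
    · simp [ha]
    · simp [ha, Ne.symm ha]
      ring

/-- the ages and the number of fixed vectors -/
theorem age_add_inv (R : H →* Matrix (Fin d) (Fin d) ℂ) (h : H) :
    age (R h) + age (R h⁻¹) = (d : ℝ) - fx (R h) := by
  unfold age
  rw [rp_roots_inv, Multiset.map_map, ← Multiset.sum_map_add, rp_fx]
  have h1 : ((R h).charpoly.roots.map fun z => ang z + (ang ∘ fun z => z⁻¹) z) =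
      (R h).charpoly.roots.map fun z => if z = 1 then (0 : ℝ) else 1 := by
    refine Multiset.map_congr rfl fun z hz => ?_
    exact rp_ang_add_inv (rp_norm R h hz)
  rw [h1, rp_count_sum, rp_card_roots]

omit [Fintype H] in
theorem fx_le (R : H →* Matrix (Fin d) (Fin d) ℂ) (h : H) : fx (R h) ≤ d := by
  rw [rp_fx]
  exact (Multiset.count_le_card _ _).trans (rp_card_roots _).le

private theorem rp_geom {m : ℕ} (hm : 0 < m) (s : Multiset ℂ) (hs : ∀ z ∈ s, z ^ m = 1) :
    (∑ k ∈ range m, (s.map fun z => z ^ k).sum) = (m : ℂ) * (s.count 1 : ℂ) := by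
  classical
  induction s using Multiset.induction with
  | empty => simp
  | cons a s ih =>
    have h1 : ∀ k, ((a ::ₘ s).map fun z => z ^ k).sum = a ^ k + (s.map fun z => z ^ k).sum := by
      intro k
      rw [Multiset.map_cons, Multiset.sum_cons]
    rw [Finset.sum_congr rfl fun k _ => h1 k, Finset.sum_add_distrib,
      ih fun z hz => hs z (Multiset.mem_cons_of_mem hz), Multiset.count_cons]
    by_cases ha : a = 1
    · rw [ha]
      simp
      ring
    · have h2 : ∑ k ∈ range m, a ^ k = 0 := by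
        have h3 := geom_sum_mul a m
        rw [hs a (Multiset.mem_cons_self a s), sub_self] at h3
        exact (mul_eq_zero.1 h3).resolve_right (sub_ne_zero.2 ha)
      rw [h2, if_neg (Ne.symm ha)]
      simp

theorem fx_eq (R : H →* Matrix (Fin d) (Fin d) ℂ) (h : H) :
    (fx (R h) : ℂ) = 1 / (orderOf h : ℂ) * ∑ s ∈ range (orderOf h), (R (h ^ s)).trace := by
  have hm : 0 < orderOf h := orderOf_pos h
  have hmC : (orderOf h : ℂ) ≠ 0 := by exact_mod_cast hm.ne'
  have h1 : ∀ s, (R (h ^ s)).trace = ((R h).charpoly.roots.map fun z => z ^ s).sum := by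
    intro s
    rw [map_pow, trace_pow_roots]
  rw [Finset.sum_congr rfl fun s _ => h1 s,
    rp_geom hm _ fun z hz => root_pow (R h) (rp_pow R h) hz, rp_fx]
  field_simp

theorem age_le (R : H →* Matrix (Fin d) (Fin d) ℂ) (h : H) : 0 ≤ age (R h) ∧ age (R h) ≤ d := by
  have h1 := age_add_inv R h
  have h0 : ∀ g : H, 0 ≤ age (R g) := by
    intro g
    unfold age
    refine Multiset.sum_nonneg fun t ht => ?_
    obtain ⟨z, _, rfl⟩ := Multiset.mem_map.1 ht
    exact ang_nonneg z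
  refine ⟨h0 h, ?_⟩
  have h2 := h0 h⁻¹
  have h3 : (0 : ℝ) ≤ fx (R h) := Nat.cast_nonneg _
  linarith

theorem rp_ang_ge {m : ℕ} (hm : 0 < m) {z : ℂ} (hz : z ^ m = 1) (h1 : z ≠ 1) :
    1 / (m : ℝ) ≤ ang z := by
  have hm' : (0 : ℝ) < m := by exact_mod_cast hm
  have : NeZero m := ⟨hm.ne'⟩
  obtain ⟨k, hk, rfl⟩ := (Complex.isPrimitiveRoot_exp m hm.ne').eq_pow_of_pow_eq_one hz
  have h2 : Complex.exp (2 * Real.pi * Complex.I / m) ^ k =
      Complex.exp (2 * Real.pi * Complex.I * (((k : ℝ) / (m : ℝ) : ℝ) : ℂ)) := by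
    rw [← Complex.exp_nat_mul]
    congr 1
    push_cast
    ring
  rw [h2, ang_exp, Int.fract_eq_self.2 ⟨by positivity, by rw [div_lt_one hm']; exact_mod_cast hk⟩]
  have hk0 : k ≠ 0 := by
    rintro rfl
    exact h1 (pow_zero _)
  have hk1 : (1 : ℝ) ≤ k := by exact_mod_cast Nat.one_le_iff_ne_zero.2 hk0
  gcongr

theorem rp_eq_one {m : ℕ} (hm : 0 < m) (A : Matrix (Fin d) (Fin d) ℂ) (hA : A ^ m = 1)
    (h : ∀ z ∈ A.charpoly.roots, z = 1) : A = 1 := by
  open Polynomial in
  have hch : A.charpoly = (X - C 1) ^ d := by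
    conv_lhs => rw [(IsAlgClosed.splits A.charpoly).eq_prod_roots_of_monic A.charpoly_monic]
    have h1 : A.charpoly.roots = Multiset.replicate d 1 := by
      rw [Multiset.eq_replicate]
      exact ⟨rp_card_roots A, h⟩
    rw [h1, Multiset.map_replicate, Multiset.prod_replicate]
  have hcop : IsCoprime ((X - C (1 : ℂ)) ^ d) (∑ i ∈ range m, (X : ℂ[X]) ^ i) := by
    apply IsCoprime.pow_left
    rw [(irreducible_X_sub_C (1 : ℂ)).coprime_iff_not_dvd, dvd_iff_isRoot, IsRoot.def,
      eval_finsetSum]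
    simp
    omega
  obtain ⟨u, v, huv⟩ := hcop
  have h2 : X - C (1 : ℂ) = u * (X - C 1) * (X - C 1) ^ d + v * (X ^ m - 1) := by
    have h3 := geom_sum_mul (X : ℂ[X]) m
    have h4 : (X - C (1 : ℂ)) = (X - 1) := by rw [C_1]
    rw [← h3]
    rw [h4] at huv ⊢
    linear_combination (-(X - 1 : ℂ[X])) * huv
  have h3 := congrArg (aeval A) h2
  have h4 : aeval A ((X - C (1 : ℂ)) ^ d) = 0 := by rw [← hch]; exact Matrix.aeval_self_charpoly A
  have h5 : aeval A ((X : ℂ[X]) ^ m - 1) = 0 := by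
    rw [map_sub, map_pow, aeval_X, map_one, hA, sub_self]
  have h6 : aeval A (X - C (1 : ℂ)) = A - 1 := by
    rw [map_sub, aeval_X, C_1, map_one]
  rw [map_add, map_mul, h4, mul_zero, zero_add, map_mul, h5, mul_zero, h6] at h3
  exact sub_eq_zero.1 h3

/-- `R h` is trivial if its age is zero, otherwise the age is at least `1 / orderOf h` -/
theorem age_zero (R : H →* Matrix (Fin d) (Fin d) ℂ) (h : H) :
    (R h = 1 ∧ age (R h) = 0 ∧ fx (R h) = d) ∨ 1 / (orderOf h : ℝ) ≤ age (R h) := by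
  have hm : 0 < orderOf h := orderOf_pos h
  by_cases hall : ∀ z ∈ (R h).charpoly.roots, z = 1
  · left
    have h1 := rp_eq_one hm (R h) (rp_pow R h) hall
    refine ⟨h1, by rw [h1, age_one], ?_⟩
    rw [rp_fx, Multiset.count_eq_card.2 fun z hz => (hall z hz).symm, rp_card_roots]
  · right
    push Not at hall
    obtain ⟨z, hz, hz1⟩ := hall
    have h1 := rp_ang_ge hm (root_pow (R h) (rp_pow R h) hz) hz1
    refine h1.trans ?_
    unfold age
    refine Multiset.single_le_sum ?_ _ (Multiset.mem_map_of_mem ang hz)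
    intro t ht
    obtain ⟨y, _, rfl⟩ := Multiset.mem_map.1 ht
    exact ang_nonneg y

/-- an element that acts trivially in all irreducible representations is trivial -/
theorem exists_ne_one (W : Wedd H) {h : H} (hh : h ≠ 1) : ∃ j, W.R j h ≠ 1 := by
  classical
  by_contra hcon
  push Not at hcon
  have h1 := W.col h
  rw [if_neg hh] at h1
  simp only [hcon, Matrix.trace_one, Fintype.card_fin] at h1
  have h2 : ((∑ i, (W.d i) ^ 2 : ℕ) : ℂ) = 0 := by
    push_cast
    rw [← h1]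
    refine Finset.sum_congr rfl fun i _ => ?_
    ring
  rw [W.sum_sq] at h2
  exact Fintype.card_ne_zero (α := H) (by exact_mod_cast h2)

end REP

end Pool.Agent.CO30
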