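import Pool.Agent.CO30.EBr
import Pool.Agent.CO30.ENo
import Pool.Agent.CO30.Rp

/-!
# The gap and the dichotomy for the energy
-/

namespace Pool.Agent.CO30

open Matrix Finset Pool.Agent.CO75

section egp

variable {G : Type} [Group G] [Fintype G]

open Classical in
/-- The size of the class of `y`. -/
noncomputable def egp_kap (y : G) : ℕ := (univ.image fun g : G => g * y * g⁻¹).card

theorem egp_kap_one : egp_kap (1 : G) = 1 := by
  classical
  unfold egp_kap
  have h : (univ.image fun g : G => g * 1 * g⁻¹) = {1} := by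
    ext z
    simp only [mem_image, mem_univ, true_and, mul_one, mul_inv_cancel, mem_singleton]
    constructor
    · rintro ⟨_, rfl⟩
      rfl
    · rintro rfl
      exact ⟨1, rfl⟩
  rw [h, card_singleton]

theorem egp_kap_inv (y : G) : egp_kap y⁻¹ = egp_kap y := by
  classical
  unfold egp_kap
  refine Finset.card_bij (fun z _ => z⁻¹) ?_ ?_ ?_
  · intro z hz
    rw [mem_image] at hz ⊢
    obtain ⟨g, _, rfl⟩ := hz
    exact ⟨g, mem_univ _, by group⟩
  · intro z _ w _ h
    exact inv_injective h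
  · intro z hz
    rw [mem_image] at hz
    obtain ⟨g, _, rfl⟩ := hz
    refine ⟨g * y⁻¹ * g⁻¹, ?_, by group⟩
    rw [mem_image]
    exact ⟨g, mem_univ _, rfl⟩

omit [Fintype G] in
theorem egp_conj_zpow (g y : G) (a : ℤ) : (g * y * g⁻¹) ^ a = g * y ^ a * g⁻¹ := by
  rw [conj_zpow]

theorem egp_kap_gcd (y : G) (s t : ℕ) :
    egp_kap (y ^ (Nat.gcd s t)) ≤ egp_kap (y ^ s) * egp_kap (y ^ t) := by
  classical
  set a : ℤ := Nat.gcdA s t with ha
  set b : ℤ := Nat.gcdB s t with hb
  have hbez : ((Nat.gcd s t : ℕ) : ℤ) = s * a + t * b := Nat.gcd_eq_gcd_ab s t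
  unfold egp_kap
  rw [← Finset.card_product]
  refine Finset.card_le_card_of_surjOn (fun z : G × G => z.1 ^ a * z.2 ^ b) ?_
  intro z hz
  rw [Finset.mem_coe, mem_image] at hz
  obtain ⟨g, _, rfl⟩ := hz
  refine ⟨(g * y ^ s * g⁻¹, g * y ^ t * g⁻¹), ?_, ?_⟩
  · rw [Finset.mem_coe, mem_product, mem_image, mem_image]
    exact ⟨⟨g, mem_univ _, rfl⟩, ⟨g, mem_univ _, rfl⟩⟩
  · simp only [egp_conj_zpow]
    rw [← _root_.zpow_natCast y s, ← _root_.zpow_natCast y t, ← _root_.zpow_mul, ← _root_.zpow_mul,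
      ← _root_.zpow_natCast y (Nat.gcd s t), hbez, _root_.zpow_add]
    group

/-- thresholds -/
def egp_th (R : ℕ) : ℕ → ℕ
  | 0 => 1
  | (j + 1) => egp_th R j ^ 2 + R ^ 4 + 1

theorem egp_th_pos (R j : ℕ) : 1 ≤ egp_th R j := by
  cases j with
  | zero => exact le_rfl
  | succ j => simp only [egp_th]; omega

theorem egp_th_step (R j : ℕ) : egp_th R j < egp_th R (j + 1) ∧
    egp_th R j ^ 2 ≤ egp_th R (j + 1) ∧ R ^ 4 ≤ egp_th R (j + 1) := by
  have h := egp_th_pos R j
  simp only [egp_th]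
  refine ⟨?_, by omega, by omega⟩
  have h2 : egp_th R j ≤ egp_th R j ^ 2 := Nat.le_self_pow (by norm_num) _
  omega

theorem egp_th_mono (R : ℕ) : StrictMono (egp_th R) :=
  strictMono_nat_of_lt_succ fun j => (egp_th_step R j).1

/-- the gap -/
theorem egp_gap (R : ℕ) (x : Fin 4 → G) : ∃ j ≤ 4 * R, ∀ i, ∀ s, 1 ≤ s → s ≤ R →
    egp_kap (x i ^ s) ≤ egp_th R j ∨ egp_th R (j + 1) < egp_kap (x i ^ s) := by
  by_contra hcon
  push Not at hcon
  have h1 : ∀ j : Fin (4 * R + 1), ∃ z : Fin 4 × Fin R,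
      egp_th R j < egp_kap (x z.1 ^ (z.2.val + 1)) ∧
        egp_kap (x z.1 ^ (z.2.val + 1)) ≤ egp_th R (j + 1) := by
    intro j
    obtain ⟨i, s, hs1, hsR, h2, h3⟩ := hcon j (by omega)
    refine ⟨(i, ⟨s - 1, by omega⟩), ?_⟩
    have : s - 1 + 1 = s := by omega
    simp only [this]
    exact ⟨h2, h3⟩
  choose z hz using h1
  have hcard : Fintype.card (Fin 4 × Fin R) < Fintype.card (Fin (4 * R + 1)) := by
    simp
  obtain ⟨j, j', hne, hjj⟩ := Fintype.exists_ne_map_eq_of_card_lt z hcard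
  have hkey : ∀ j j' : Fin (4 * R + 1), j < j' → z j = z j' → False := by
    intro j j' hlt heq
    have h2 := (hz j).2
    have h3 := (hz j').1
    rw [← heq] at h3
    have h4 : egp_th R (j + 1) ≤ egp_th R j' := (egp_th_mono R).monotone (by
      have : (j : ℕ) < j' := hlt
      omega)
    omega
  rcases lt_or_gt_of_ne hne with h | h
  · exact hkey _ _ h hjj
  · exact hkey _ _ h hjj.symm

theorem egp_orders (R : ℕ) (x : Fin 4 → G) : ∃ o : Fin 4 → ℕ,
    (∀ i, o i ∣ orderOf (x i)) ∧ (∀ i, o i ≤ R → egp_kap (x i ^ o i) ≤ egp_th R (4 * R)) ∧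
    (∀ i, ∀ s, 0 < s → s < orderOf (x i) → ¬ o i ∣ s → (s ≤ R ∨ orderOf (x i) ≤ s + R) →
      R ^ 4 ≤ egp_kap (x i ^ s)) := by
  classical
  obtain ⟨j, hj, hgap⟩ := egp_gap R x
  have hth := egp_th_step R j
  -- choose the orders
  have h1 : ∀ i, ∃ o : ℕ, o ∣ orderOf (x i) ∧ (o ≤ R → egp_kap (x i ^ o) ≤ egp_th R j) ∧
      ∀ s, 0 < s → s ≤ R → ¬ o ∣ s → R ^ 4 ≤ egp_kap (x i ^ s) := by
    intro i
    by_cases hex : ∃ s, 1 ≤ s ∧ s ≤ R ∧ egp_kap (x i ^ s) ≤ egp_th R j
    · obtain ⟨ho1, ho2, ho3⟩ := Nat.find_spec hex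
      have hmin : ∀ m, m < Nat.find hex → ¬ (1 ≤ m ∧ m ≤ R ∧ egp_kap (x i ^ m) ≤ egp_th R j) :=
        fun m hm => Nat.find_min hex hm
      set o := Nat.find hex with ho
      refine ⟨o, ?_, fun _ => ho3, ?_⟩
      · -- `o` divides the order
        have h2 := egp_kap_gcd (x i) o (orderOf (x i))
        rw [pow_orderOf_eq_one, egp_kap_one, mul_one] at h2
        have h3 : Nat.gcd o (orderOf (x i)) ≤ o := Nat.gcd_le_left _ (by omega)
        have h4 : 1 ≤ Nat.gcd o (orderOf (x i)) := Nat.gcd_pos_of_pos_left _ (by omega)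
        have h5 : ¬ Nat.gcd o (orderOf (x i)) < o := by
          intro hlt
          exact hmin _ hlt ⟨h4, by omega, h2.trans ho3⟩
        have h6 : Nat.gcd o (orderOf (x i)) = o := by omega
        rw [← h6]
        exact Nat.gcd_dvd_right _ _
      · intro s hs0 hsR hos
        have h2 := egp_kap_gcd (x i) s o
        have h3 : Nat.gcd s o < o := by
          refine lt_of_le_of_ne (Nat.gcd_le_right _ (by omega)) fun h => hos ?_
          rw [← h]
          exact Nat.gcd_dvd_left _ _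
        have h4 : 1 ≤ Nat.gcd s o := Nat.gcd_pos_of_pos_left _ hs0
        rcases hgap i s hs0 hsR with h5 | h5
        · exfalso
          have h6 : egp_kap (x i ^ Nat.gcd s o) ≤ egp_th R (j + 1) := by
            refine h2.trans (le_trans ?_ hth.2.1)
            rw [pow_two]
            exact Nat.mul_le_mul h5 ho3
          rcases hgap i (Nat.gcd s o) h4 (by omega) with h7 | h7
          · exact hmin _ h3 ⟨h4, by omega, h7⟩
          · omega
        · omega
    · push Not at hex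
      refine ⟨orderOf (x i), dvd_rfl, ?_, ?_⟩
      · intro _
        rw [pow_orderOf_eq_one, egp_kap_one]
        exact egp_th_pos R j
      · intro s hs0 hsR _
        rcases hgap i s hs0 hsR with h5 | h5
        · exact absurd h5 (not_le.2 (hex s hs0 hsR))
        · omega
  choose o ho1 ho2 ho3 using h1
  refine ⟨o, ho1, fun i hi => (ho2 i hi).trans ((egp_th_mono R).monotone hj), ?_⟩
  intro i s hs0 hsm hos hs
  rcases hs with hs | hs
  · exact ho3 i s hs0 hs hos
  · have h2 := ho3 i (orderOf (x i) - s) (by omega) (by omega) (by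
      intro h
      apply hos
      have h3 := Nat.dvd_sub (ho1 i) h
      rwa [Nat.sub_sub_self hsm.le] at h3)
    have h3 : x i ^ (orderOf (x i) - s) = (x i ^ s)⁻¹ := by
      rw [eq_inv_iff_mul_eq_one, ← pow_add, Nat.sub_add_cancel hsm.le, pow_orderOf_eq_one]
    rwa [h3, egp_kap_inv] at h2

end egp

/-! ### unit fractions -/

theorem egp_inv_le {n k : ℕ} (hk : 0 < k) (h : k ≤ n) : 1 / (n : ℝ) ≤ 1 / (k : ℝ) := by
  apply one_div_le_one_div_of_le
  · exact_mod_cast hk
  · exact_mod_cast h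

theorem egp_four {a b c d : ℕ} (ha : 0 < a) (hab : a ≤ b) (hbc : b ≤ c) (hcd : c ≤ d) :
    2 < 1 / (a : ℝ) + 1 / (b : ℝ) + 1 / (c : ℝ) + 1 / (d : ℝ) ∨
    (1 / (a : ℝ) + 1 / (b : ℝ) + 1 / (c : ℝ) + 1 / (d : ℝ) = 2 ∧ d ≤ 6) ∨
    1 / (a : ℝ) + 1 / (b : ℝ) + 1 / (c : ℝ) + 1 / (d : ℝ) ≤ 2 - 1 / 42 := by
  have hd0 : (0 : ℝ) < 1 / (d : ℝ) := by
    have : 0 < d := by omega
    positivity
  have hc0 : (0 : ℝ) < 1 / (c : ℝ) := by
    have : 0 < c := by omega
    positivity
  by_cases ha1 : a = 1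
  · subst ha1
    by_cases hb1 : b = 1
    · subst hb1
      left
      have h1 : (1 : ℝ) / ((1 : ℕ) : ℝ) = 1 := by norm_num
      rw [h1]
      linarith
    · by_cases hb2 : b = 2
      · subst hb2
        by_cases hc2 : c = 2
        · subst hc2
          left
          have h1 : (1 : ℝ) / ((1 : ℕ) : ℝ) = 1 := by norm_num
          have h2 : (1 : ℝ) / ((2 : ℕ) : ℝ) = 1 / 2 := by norm_num
          rw [h1, h2]
          linarith
        · by_cases hc3 : c = 3
          · subst hc3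
            rcases Nat.lt_trichotomy d 6 with hd | hd | hd
            · left
              have h1 := egp_inv_le (n := 5) (k := d) (by omega) (by omega)
              norm_num at h1 ⊢
              linarith
            · right; left
              subst hd
              norm_num
            · right; right
              have h1 := egp_inv_le (k := 7) (n := d) (by omega) (by omega)
              norm_num at h1 ⊢
              linarith
          · by_cases hc4 : c = 4
            · subst hc4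
              by_cases hd4 : d = 4
              · subst hd4
                right; left
                norm_num
              · right; right
                have h1 := egp_inv_le (k := 5) (n := d) (by omega) (by omega)
                norm_num at h1 ⊢
                linarith
            · right; right
              have h1 := egp_inv_le (k := 5) (n := d) (by omega) (by omega)
              have h2 := egp_inv_le (k := 5) (n := c) (by omega) (by omega)
              norm_num at h1 h2 ⊢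
              linarith
      · by_cases hd3 : d = 3
        · have hc3 : c = 3 := by omega
          have hb3 : b = 3 := by omega
          subst hd3
          subst hc3
          subst hb3
          right; left
          norm_num
        · right; right
          have h1 := egp_inv_le (k := 4) (n := d) (by omega) (by omega)
          have h2 := egp_inv_le (k := 3) (n := c) (by omega) (by omega)
          have h3 := egp_inv_le (k := 3) (n := b) (by omega) (by omega)
          norm_num at h1 h2 h3 ⊢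
          linarith
  · by_cases hd2 : d = 2
    · have hc2 : c = 2 := by omega
      have hb2 : b = 2 := by omega
      have ha2 : a = 2 := by omega
      subst hd2
      subst hc2
      subst hb2
      subst ha2
      right; left
      norm_num
    · right; right
      have h1 := egp_inv_le (k := 3) (n := d) (by omega) (by omega)
      have h2 := egp_inv_le (k := 2) (n := c) (by omega) (by omega)
      have h3 := egp_inv_le (k := 2) (n := b) (by omega) (by omega)
      have h4 := egp_inv_le (k := 2) (n := a) (by omega) (by omega)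
      norm_num at h1 h2 h3 h4 ⊢
      linarith

theorem egp_three {a b c : ℕ} (ha : 0 < a) (hab : a ≤ b) (hbc : b ≤ c) :
    2 < 1 / (a : ℝ) + 1 / (b : ℝ) + 1 / (c : ℝ) ∨
    (1 / (a : ℝ) + 1 / (b : ℝ) + 1 / (c : ℝ) = 2 ∧ c ≤ 6) ∨
    1 / (a : ℝ) + 1 / (b : ℝ) + 1 / (c : ℝ) ≤ 2 - 1 / 42 := by
  have hc0 : (0 : ℝ) < 1 / (c : ℝ) := by
    have : 0 < c := by omega
    positivity
  by_cases ha1 : a = 1
  · subst ha1
    by_cases hb1 : b = 1
    · subst hb1
      left
      have h1 : (1 : ℝ) / ((1 : ℕ) : ℝ) = 1 := by norm_num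
      rw [h1]
      linarith
    · by_cases hc2 : c = 2
      · have hb2 : b = 2 := by omega
        subst hc2
        subst hb2
        right; left
        norm_num
      · right; right
        have h1 := egp_inv_le (k := 3) (n := c) (by omega) (by omega)
        have h2 := egp_inv_le (k := 2) (n := b) (by omega) (by omega)
        norm_num at h1 h2 ⊢
        linarith
  · right; right
    have h2 := egp_inv_le (k := 2) (n := c) (by omega) (by omega)
    have h3 := egp_inv_le (k := 2) (n := b) (by omega) (by omega)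
    have h4 := egp_inv_le (k := 2) (n := a) (by omega) (by omega)
    norm_num at h2 h3 h4 ⊢
    linarith

theorem egp_two {a b : ℕ} (ha : 0 < a) (hab : a ≤ b) :
    (1 / (a : ℝ) + 1 / (b : ℝ) = 2 ∧ b ≤ 6) ∨
    1 / (a : ℝ) + 1 / (b : ℝ) ≤ 2 - 1 / 42 := by
  by_cases hb1 : b = 1
  · have ha1 : a = 1 := by omega
    subst hb1
    subst ha1
    left
    norm_num
  · right
    have h3 := egp_inv_le (k := 2) (n := b) (by omega) (by omega)
    have h4 := egp_inv_le (k := 1) (n := a) (by omega) (by omega)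
    norm_num at h3 h4 ⊢
    linarith

theorem egp_frac (I : Finset (Fin 4)) (o : Fin 4 → ℕ) (ho : ∀ i, 0 < o i) :
    2 < ∑ i ∈ I, 1 / (o i : ℝ) ∨ (∑ i ∈ I, 1 / (o i : ℝ) = 2 ∧ ∀ i ∈ I, o i ≤ 6) ∨
      ∑ i ∈ I, 1 / (o i : ℝ) ≤ 2 - 1 / 42 := by
  classical
  set l := (I.val.map o).sort (· ≤ ·) with hl
  have hsort : l.Pairwise (· ≤ ·) := Multiset.pairwise_sort _ _
  have hml : (l : Multiset ℕ) = I.val.map o := Multiset.sort_eq _ _
  have hpos : ∀ a ∈ l, 0 < a := by
    intro a ha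
    rw [hl, Multiset.mem_sort, Multiset.mem_map] at ha
    obtain ⟨i, _, rfl⟩ := ha
    exact ho i
  have hsum : ∑ i ∈ I, 1 / (o i : ℝ) = (l.map fun a : ℕ => 1 / (a : ℝ)).sum := by
    rw [← Multiset.sum_coe, ← Multiset.map_coe, hml, Multiset.map_map]
    rfl
  have hlen : l.length ≤ 4 := by
    rw [hl, Multiset.length_sort, Multiset.card_map, Finset.card_val]
    exact (Finset.card_le_univ I).trans (by simp)
  have hmem : ∀ i ∈ I, o i ∈ l := by
    intro i hi
    rw [hl, Multiset.mem_sort, Multiset.mem_map]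
    exact ⟨i, hi, rfl⟩
  rw [hsum]
  have hsix : (∀ a ∈ l, a ≤ 6) → ∀ i ∈ I, o i ≤ 6 := fun h i hi => h _ (hmem i hi)
  clear_value l
  match l, hsort, hpos, hlen, hsix with
  | [], _, _, _, _ => right; right; norm_num
  | [a], _, hpos, _, _ =>
    right; right
    have ha := hpos a (by simp)
    have h1 := egp_inv_le (k := 1) (n := a) (by omega) (by omega)
    norm_num at h1 ⊢
    linarith
  | [a, b], hsort, hpos, _, hsix =>
    have ha := hpos a (by simp)
    simp only [List.pairwise_cons, List.mem_cons, List.not_mem_nil, or_false, forall_eq,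
      List.Pairwise.nil, and_true] at hsort
    rcases egp_two ha (by tauto) with h | h
    · right; left
      refine ⟨by simpa using h.1, hsix ?_⟩
      intro z hz
      simp only [List.mem_cons, List.not_mem_nil, or_false] at hz
      rcases hz with rfl | rfl
      · have := hsort.1
        omega
      · exact h.2
    · right; right
      simpa using h
  | [a, b, c], hsort, hpos, _, hsix =>
    have ha := hpos a (by simp)
    simp only [List.pairwise_cons, List.mem_cons, List.not_mem_nil, or_false, forall_eq,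
      forall_eq_or_imp, List.Pairwise.nil, and_true] at hsort
    have hab : a ≤ b := by tauto
    have hbc : b ≤ c := by tauto
    rcases egp_three ha hab hbc with h | h | h
    · left
      simpa [add_assoc] using h
    · right; left
      refine ⟨by simpa [add_assoc] using h.1, hsix ?_⟩
      intro z hz
      simp only [List.mem_cons, List.not_mem_nil, or_false] at hz
      rcases hz with rfl | rfl | rfl <;> omega
    · right; right
      simpa [add_assoc] using h
  | [a, b, c, d], hsort, hpos, _, hsix =>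
    have ha := hpos a (by simp)
    simp only [List.pairwise_cons, List.mem_cons, List.not_mem_nil, or_false, forall_eq,
      forall_eq_or_imp, List.Pairwise.nil, and_true] at hsort
    have hab : a ≤ b := by tauto
    have hbc : b ≤ c := by tauto
    have hcd : c ≤ d := by tauto
    rcases egp_four ha hab hbc hcd with h | h | h
    · left
      simpa [add_assoc] using h
    · right; left
      refine ⟨by simpa [add_assoc] using h.1, hsix ?_⟩
      intro z hz
      simp only [List.mem_cons, List.not_mem_nil, or_false] at hz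
      rcases hz with rfl | rfl | rfl | rfl <;> omega
    · right; right
      simpa [add_assoc] using h
  | (_ :: _ :: _ :: _ :: _ :: _), _, _, hlen, _ =>
    simp at hlen
    omega

/-! ### the lower bound -/

section lower

variable {G : Type} [Group G] [Fintype G]

theorem egp_scal {t d A B α β ρ : ℝ} (hd : 0 ≤ d) (hA : 0 ≤ A) (hB : 0 ≤ B) (_hα : 0 ≤ α)
    (hβ : 0 ≤ β) (hρ : 0 ≤ ρ) (h1 : 1 / 6 * α ≤ A) (h2 : 1 / 6 * β ≤ B) (h3 : A + B ≤ 4 * d)
    (ht1 : -ρ ≤ t) (_ht0 : t ≤ 0) :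
    (1 / 36) * (α * β) - 4 * ρ * d ^ 2 ≤ (t * d + A) * (t * d + B) := by
  have h4 : (1 / 36) * (α * β) ≤ A * B := by
    calc (1 / 36) * (α * β) = (1 / 6 * α) * (1 / 6 * β) := by ring
      _ ≤ A * B := mul_le_mul h1 h2 (by positivity) hA
  have h6 : -t * (d * (A + B)) ≤ ρ * (d * (4 * d)) := by
    apply mul_le_mul (by linarith) _ (by positivity) hρ
    exact mul_le_mul_of_nonneg_left h3 hd
  have h8 : (t * d + A) * (t * d + B) = (t * d) ^ 2 + t * d * (A + B) + A * B := by
    ring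
  rw [h8]
  have h9 := sq_nonneg (t * d)
  have h10 : ρ * (d * (4 * d)) = 4 * ρ * d ^ 2 := by ring
  have h11 : t * d * (A + B) = -(-t * (d * (A + B))) := by ring
  linarith

theorem egp_sumAB (W : Wedd G) (x : Fin 4 → G) (o : Fin 4 → ℕ) (hopos : ∀ i, 0 < o i)
    (j : Fin W.N) : ∑ i, 1 / (o i : ℝ) * age (W.R j (x i ^ o i)⁻¹) +
      ∑ i, 1 / (o i : ℝ) * age (W.R j (x i ^ o i)) ≤ 4 * W.d j := by
  rw [← Finset.sum_add_distrib]
  have h4 : ∀ i, 1 / (o i : ℝ) * age (W.R j (x i ^ o i)⁻¹) +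
      1 / (o i : ℝ) * age (W.R j (x i ^ o i)) ≤ W.d j := by
    intro i
    have h5 := age_add_inv (W.R j) (x i ^ o i)
    have h6 : 1 / (o i : ℝ) ≤ 1 := by
      have := egp_inv_le (k := 1) (n := o i) (by omega) (hopos i)
      simpa using this
    have h7 : age (W.R j (x i ^ o i)) + age (W.R j (x i ^ o i)⁻¹) ≤ W.d j := by
      rw [h5]
      have : (0 : ℝ) ≤ fx (W.R j (x i ^ o i)) := Nat.cast_nonneg _
      linarith
    have h8 : 0 ≤ age (W.R j (x i ^ o i)) + age (W.R j (x i ^ o i)⁻¹) :=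
      add_nonneg (age_le _ _).1 (age_le _ _).1
    calc 1 / (o i : ℝ) * age (W.R j (x i ^ o i)⁻¹) + 1 / (o i : ℝ) * age (W.R j (x i ^ o i))
        = 1 / (o i : ℝ) * (age (W.R j (x i ^ o i)) + age (W.R j (x i ^ o i)⁻¹)) := by ring
      _ ≤ 1 * (age (W.R j (x i ^ o i)) + age (W.R j (x i ^ o i)⁻¹)) :=
        mul_le_mul_of_nonneg_right h6 h8
      _ ≤ W.d j := by linarith
  refine (Finset.sum_le_sum fun i _ => h4 i).trans ?_
  rw [Finset.sum_const, Finset.card_univ, Fintype.card_fin]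
  simp

/-- the case where the sum is two -/
theorem egp_case_two (W : Wedd G) (x : Fin 4 → G) (o : Fin 4 → ℕ) (hopos : ∀ i, 0 < o i)
    (i₀ : Fin 4) (h6 : o i₀ ≤ 6) (hy : x i₀ ^ o i₀ ≠ 1) (t ρ : ℝ) (hρ : 0 ≤ ρ) (ht1 : -ρ ≤ t)
    (ht0 : t ≤ 0) :
    (Fintype.card G : ℝ) / 576 - 4 * ρ * Fintype.card G ≤ ∑ j,
      ((t * W.d j + ∑ i, 1 / (o i : ℝ) * age (W.R j (x i ^ o i)⁻¹)) *
        (t * W.d j + ∑ i, 1 / (o i : ℝ) * age (W.R j (x i ^ o i)))) := by
  have hoinv : ∀ i, (0 : ℝ) ≤ 1 / (o i : ℝ) := fun i => by positivity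
  have h6' : (1 : ℝ) / 6 ≤ 1 / (o i₀ : ℝ) := by exact_mod_cast egp_inv_le (hopos i₀) h6
  have hsq : ∑ j, (W.d j : ℝ) ^ 2 = Fintype.card G := by
    have := W.sum_sq
    exact_mod_cast this
  have hterm : ∀ j, (1 / 36) * (age (W.R j (x i₀ ^ o i₀)⁻¹) * age (W.R j (x i₀ ^ o i₀))) -
      4 * ρ * (W.d j : ℝ) ^ 2 ≤
      (t * W.d j + ∑ i, 1 / (o i : ℝ) * age (W.R j (x i ^ o i)⁻¹)) *
      (t * W.d j + ∑ i, 1 / (o i : ℝ) * age (W.R j (x i ^ o i))) := by
    intro j
    have hA0 : 0 ≤ ∑ i, 1 / (o i : ℝ) * age (W.R j (x i ^ o i)⁻¹) :=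
      Finset.sum_nonneg fun i _ => mul_nonneg (hoinv i) (age_le _ _).1
    have hB0 : 0 ≤ ∑ i, 1 / (o i : ℝ) * age (W.R j (x i ^ o i)) :=
      Finset.sum_nonneg fun i _ => mul_nonneg (hoinv i) (age_le _ _).1
    have ha0 : 0 ≤ age (W.R j (x i₀ ^ o i₀)⁻¹) := (age_le _ _).1
    have hb0 : 0 ≤ age (W.R j (x i₀ ^ o i₀)) := (age_le _ _).1
    refine egp_scal (Nat.cast_nonneg _) hA0 hB0 ha0 hb0 hρ ?_ ?_ (egp_sumAB W x o hopos j) ht1 ht0
    · refine (mul_le_mul_of_nonneg_right h6' ha0).trans ?_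
      exact Finset.single_le_sum (f := fun i => 1 / (o i : ℝ) * age (W.R j (x i ^ o i)⁻¹))
        (fun i _ => mul_nonneg (hoinv i) (age_le _ _).1) (mem_univ i₀)
    · refine (mul_le_mul_of_nonneg_right h6' hb0).trans ?_
      exact Finset.single_le_sum (f := fun i => 1 / (o i : ℝ) * age (W.R j (x i ^ o i)))
        (fun i _ => mul_nonneg (hoinv i) (age_le _ _).1) (mem_univ i₀)
  have hsum := Finset.sum_le_sum fun j (_ : j ∈ (univ : Finset (Fin W.N))) => hterm j
  refine le_trans ?_ hsum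
  rw [Finset.sum_sub_distrib, ← Finset.mul_sum, ← Finset.mul_sum, hsq]
  have h1 := age_age W (x i₀ ^ o i₀) hy
  have h3 : (Fintype.card G : ℝ) / 16 ≤
      ∑ j, age (W.R j (x i₀ ^ o i₀)⁻¹) * age (W.R j (x i₀ ^ o i₀)) := by linarith
  linarith

/-- the case where the sum is smaller than two -/
theorem egp_case_lt (W : Wedd G) (x : Fin 4 → G) (o : Fin 4 → ℕ) (t : ℝ) (ht1 : 1 / 168 ≤ t) :
    (Fintype.card G : ℝ) / 28224 ≤ ∑ j,
      ((t * W.d j + ∑ i, 1 / (o i : ℝ) * age (W.R j (x i ^ o i)⁻¹)) *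
        (t * W.d j + ∑ i, 1 / (o i : ℝ) * age (W.R j (x i ^ o i)))) := by
  have hoinv : ∀ i, (0 : ℝ) ≤ 1 / (o i : ℝ) := fun i => by positivity
  have hsq : ∑ j, (W.d j : ℝ) ^ 2 = Fintype.card G := by
    have := W.sum_sq
    exact_mod_cast this
  have hterm : ∀ j, (1 / 168) ^ 2 * (W.d j : ℝ) ^ 2 ≤
      (t * W.d j + ∑ i, 1 / (o i : ℝ) * age (W.R j (x i ^ o i)⁻¹)) *
      (t * W.d j + ∑ i, 1 / (o i : ℝ) * age (W.R j (x i ^ o i))) := by
    intro j
    have hd0 : (0 : ℝ) ≤ W.d j := Nat.cast_nonneg _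
    have h1 : 1 / 168 * (W.d j : ℝ) ≤ t * W.d j := mul_le_mul_of_nonneg_right ht1 hd0
    have h0 : 0 ≤ 1 / 168 * (W.d j : ℝ) := by positivity
    have h2 : 0 ≤ ∑ i, 1 / (o i : ℝ) * age (W.R j (x i ^ o i)⁻¹) :=
      Finset.sum_nonneg fun i _ => mul_nonneg (hoinv i) (age_le _ _).1
    have h3 : 0 ≤ ∑ i, 1 / (o i : ℝ) * age (W.R j (x i ^ o i)) :=
      Finset.sum_nonneg fun i _ => mul_nonneg (hoinv i) (age_le _ _).1
    have h4 := mul_le_mul (show 1 / 168 * (W.d j : ℝ) ≤ t * W.d j +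
      ∑ i, 1 / (o i : ℝ) * age (W.R j (x i ^ o i)⁻¹) by linarith)
      (show 1 / 168 * (W.d j : ℝ) ≤ t * W.d j + ∑ i, 1 / (o i : ℝ) * age (W.R j (x i ^ o i)) by
        linarith) h0 (by linarith)
    refine le_trans (le_of_eq ?_) h4
    ring
  have hsum := Finset.sum_le_sum fun j (_ : j ∈ (univ : Finset (Fin W.N))) => hterm j
  refine le_trans ?_ hsum
  rw [← Finset.mul_sum, hsq]
  have : (1 / 168 : ℝ) ^ 2 = 1 / 28224 := by norm_num
  rw [this]
  linarith

/-- the lower bound for the `L`-part -/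
theorem egp_lower (W : Wedd G) (x : Fin 4 → G) (hA : 0 < area x) (R : ℕ)
    (hR : 10 ^ 12 ≤ R) (o : Fin 4 → ℕ) (ho : ∀ i, o i ∣ orderOf (x i))
    (hS : (∑ i ∈ univ.filter (fun i => o i ≤ R), 1 / (o i : ℝ) = 2 ∧
        ∀ i ∈ univ.filter (fun i => o i ≤ R), o i ≤ 6) ∨
      ∑ i ∈ univ.filter (fun i => o i ≤ R), 1 / (o i : ℝ) ≤ 2 - 1 / 42) :
    (Fintype.card G : ℝ) / 28224 ≤ ∑ j,
        (((area x - ∑ i, (1 / (o i : ℝ) - 1 / (orderOf (x i) : ℝ))) / 2 * W.d j +
          ∑ i, 1 / (o i : ℝ) * age (W.R j (x i ^ o i)⁻¹)) *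
        ((area x - ∑ i, (1 / (o i : ℝ) - 1 / (orderOf (x i) : ℝ))) / 2 * W.d j +
          ∑ i, 1 / (o i : ℝ) * age (W.R j (x i ^ o i)))) := by
  have hRR : (10 : ℝ) ^ 12 ≤ R := by exact_mod_cast hR
  have hR0 : (0 : ℝ) < R := by
    have : (0 : ℝ) < 10 ^ 12 := by positivity
    linarith
  have hn0 : (0 : ℝ) < Fintype.card G := by exact_mod_cast Fintype.card_pos
  have hopos : ∀ i, 0 < o i := fun i => Nat.pos_of_dvd_of_pos (ho i) (orderOf_pos _)
  have hoinv : ∀ i, (0 : ℝ) < 1 / (o i : ℝ) := fun i => by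
    have := hopos i
    positivity
  set S : ℝ := ∑ i ∈ univ.filter (fun i => o i ≤ R), 1 / (o i : ℝ) with hSdef
  set S' : ℝ := ∑ i ∈ univ.filter (fun i => ¬ o i ≤ R), 1 / (o i : ℝ) with hS'def
  have hSS : ∑ i, 1 / (o i : ℝ) = S + S' := by
    rw [hSdef, hS'def, Finset.sum_filter_add_sum_filter_not]
  have hS'0 : 0 ≤ S' := Finset.sum_nonneg fun i _ => (hoinv i).le
  have hS'4 : S' ≤ 4 / R := by
    have h1 : S' ≤ ∑ _i ∈ univ.filter (fun i => ¬ o i ≤ R), 1 / (R : ℝ) := by
      refine Finset.sum_le_sum fun i hi => ?_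
      rw [mem_filter] at hi
      apply one_div_le_one_div_of_le hR0
      have : R ≤ o i := by omega
      exact_mod_cast this
    rw [Finset.sum_const, nsmul_eq_mul] at h1
    have h2 : ((univ.filter (fun i => ¬ o i ≤ R)).card : ℝ) ≤ 4 := by
      have := Finset.card_le_univ (univ.filter (fun i : Fin 4 => ¬ o i ≤ R))
      rw [Fintype.card_fin] at this
      exact_mod_cast this
    calc S' ≤ ((univ.filter (fun i => ¬ o i ≤ R)).card : ℝ) * (1 / (R : ℝ)) := h1
      _ ≤ 4 * (1 / (R : ℝ)) := by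
        apply mul_le_mul_of_nonneg_right h2
        positivity
      _ = 4 / R := by ring
  have h4R : 4 / (R : ℝ) ≤ 1 / 10 ^ 11 := by
    rw [div_le_div_iff₀ hR0 (by positivity)]
    have : (4 : ℝ) * 10 ^ 11 ≤ 10 ^ 12 := by norm_num
    linarith
  have ht : (area x - ∑ i, (1 / (o i : ℝ) - 1 / (orderOf (x i) : ℝ))) / 2 =
      (2 - (S + S')) / 2 := by
    rw [← hSS, area, Finset.sum_sub_distrib]
    push_cast
    ring
  rw [ht]
  rcases hS with ⟨hS2, hS6⟩ | hS
  · -- the sum is two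
    obtain ⟨i₀, hi₀, hy⟩ : ∃ i ∈ univ.filter (fun i => o i ≤ R), x i ^ o i ≠ 1 := by
      by_contra hcon
      push Not at hcon
      have h1 : ∀ i ∈ univ.filter (fun i => o i ≤ R), o i = orderOf (x i) := by
        intro i hi
        exact Nat.dvd_antisymm (ho i) (orderOf_dvd_of_pow_eq_one (hcon i hi))
      have h2 : S ≤ ∑ i, 1 / (orderOf (x i) : ℝ) := by
        rw [hSdef, Finset.sum_congr rfl fun i hi => by rw [h1 i hi]]
        refine Finset.sum_le_sum_of_subset_of_nonneg (Finset.filter_subset _ _) fun i _ _ => ?_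
        positivity
      have h3 : area x = 2 - ∑ i, 1 / (orderOf (x i) : ℝ) := by
        rw [area]
        push_cast
        ring
      linarith
    have h1 := egp_case_two W x o hopos i₀ (hS6 i₀ hi₀) hy ((2 - (S + S')) / 2) (1 / 10 ^ 11)
      (by positivity) (by rw [hS2]; linarith) (by rw [hS2]; linarith)
    refine le_trans ?_ h1
    have h2 : (Fintype.card G : ℝ) / 576 - 4 * (1 / 10 ^ 11) * Fintype.card G =
      (Fintype.card G : ℝ) * (1 / 576 - 4 * (1 / 10 ^ 11)) := by ring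
    rw [h2, div_eq_mul_inv]
    apply mul_le_mul_of_nonneg_left _ hn0.le
    norm_num
  · -- the sum is smaller than two
    refine egp_case_lt W x o _ ?_
    have : (1 : ℝ) / 10 ^ 11 ≤ 1 / 84 := by norm_num
    linarith

end lower

open Classical in
theorem energy_dichotomy : ∃ (c₀ : ℝ) (_ : 0 < c₀) (M R₀ : ℕ), ∀ (G : Type) [Group G] [Fintype G]
    (x : Fin 4 → G), IsGenVec x → 0 < area x →
    (c₀ * (Fintype.card G : ℝ) ≤ (Fintype.card G : ℝ) * area x ^ 2 + E x) ∨
    ∃ (I : Finset (Fin 4)) (o : Fin 4 → ℕ), (∀ i ∈ I, 0 < o i ∧ o i ≤ R₀) ∧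
      (2 < ∑ i ∈ I, 1 / (o i : ℝ)) ∧
      (∀ i ∈ I, (univ.image fun g : G => g * x i ^ o i * g⁻¹).card ≤ M) := by
  obtain ⟨R, hR⟩ : ∃ R : ℕ, 10 ^ 12 ≤ R := ⟨10 ^ 12, le_rfl⟩
  refine ⟨1 / 10000, by norm_num, egp_th R (4 * R), R, ?_⟩
  intro G _ _ x hx hA
  obtain ⟨o, ho1, ho2, ho3⟩ := egp_orders R x
  have hopos : ∀ i, 0 < o i := fun i => Nat.pos_of_dvd_of_pos (ho1 i) (orderOf_pos _)
  rcases egp_frac (univ.filter (fun i => o i ≤ R)) o hopos with h | h
  · right
    refine ⟨univ.filter (fun i => o i ≤ R), o, ?_, h, ?_⟩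
    · intro i hi
      rw [mem_filter] at hi
      exact ⟨hopos i, hi.2⟩
    · intro i hi
      rw [mem_filter] at hi
      exact ho2 i hi.2
  · left
    obtain ⟨W⟩ := exists_wedd G
    have hn0 : (0 : ℝ) < Fintype.card G := by exact_mod_cast Fintype.card_pos
    have hRR : (10 : ℝ) ^ 12 ≤ R := by exact_mod_cast hR
    have h1 := egp_lower W x hA R hR o ho1 h
    have h2 := bracket W x o ho1 (area x)
    have h3 := energy_split x hx.ne_one o
    have h4 := norm_TL x o ho1
    have h5 := norm_TN x o R (by omega) (by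
      intro i s hs0 hsm hos hs
      exact ho3 i s hs0 hsm hos hs)
    set n : ℝ := (Fintype.card G : ℝ) with hn
    set TLs : ℝ := Real.sqrt (∑ γ : G, TL x o γ ^ 2) with hTL
    set TNs : ℝ := Real.sqrt (∑ γ : G, TN x o γ ^ 2) with hTN
    have hTN2 : ∑ γ : G, TN x o γ ^ 2 = TNs ^ 2 := by
      rw [hTN, Real.sq_sqrt]
      exact Finset.sum_nonneg fun γ _ => sq_nonneg _
    have hTL0 : 0 ≤ TLs := Real.sqrt_nonneg _
    have hTN0 : 0 ≤ TNs := Real.sqrt_nonneg _
    have hTLb : TLs ≤ 4 * n := by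
      refine h4.trans ?_
      have h6 : (1 : ℝ) ≤ Real.sqrt 3 := by
        rw [Real.one_le_sqrt]
        norm_num
      have h7 : (((4 : ℕ) : ℝ)) / Real.sqrt 3 ≤ 4 := by
        push_cast
        exact div_le_self (by norm_num) h6
      calc n * ((((4 : ℕ) : ℝ)) / Real.sqrt 3) ≤ n * 4 := mul_le_mul_of_nonneg_left h7 hn0.le
        _ = 4 * n := by ring
    have hTNb : TNs ≤ 4 / 10 ^ 6 * n := by
      refine h5.trans ?_
      have h6 : (10 : ℝ) ^ 6 ≤ Real.sqrt R := by
        apply Real.le_sqrt_of_sq_le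
        have h7 : ((10 : ℝ) ^ 6) ^ 2 = 10 ^ 12 := by norm_num
        rw [h7]
        exact hRR
      have h7 : (((4 : ℕ) : ℝ)) / Real.sqrt R ≤ 4 / 10 ^ 6 := by
        push_cast
        exact div_le_div_of_nonneg_left (by norm_num) (by positivity) h6
      calc n * ((((4 : ℕ) : ℝ)) / Real.sqrt R) ≤ n * (4 / 10 ^ 6) :=
            mul_le_mul_of_nonneg_left h7 hn0.le
        _ = 4 / 10 ^ 6 * n := by ring
    rw [hTN2] at h3
    have h6 : TLs * TNs ≤ (4 * n) * (4 / 10 ^ 6 * n) := mul_le_mul hTLb hTNb hTN0 (by positivity)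
    have h7 : TNs ^ 2 ≤ (4 / 10 ^ 6 * n) ^ 2 := pow_le_pow_left₀ hTN0 hTNb 2
    have h8 : n ^ 2 / 7056 ≤ n ^ 2 * area x ^ 2 + ∑ γ : G, FL x o γ ^ 2 -
        ∑ γ : G, TL x o γ ^ 2 := by
      rw [h2]
      have h9 := mul_le_mul_of_nonneg_left h1 (show 0 ≤ 4 * n by positivity)
      refine le_trans (le_of_eq ?_) h9
      ring
    have h9 : 1 / 10000 * n * n ≤ n * (n * area x ^ 2 + E x) := by
      have h10 : (4 * n) * (4 / 10 ^ 6 * n) = 16 / 10 ^ 6 * n ^ 2 := by ring
      have h11 : (4 / 10 ^ 6 * n) ^ 2 = 16 / 10 ^ 12 * n ^ 2 := by ring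
      rw [h10] at h6
      rw [h11] at h7
      have h12 : 0 ≤ n ^ 2 := sq_nonneg n
      have h13 : 1 / 10000 * n * n = 1 / 10000 * n ^ 2 := by ring
      rw [h13]
      have h14 : 1 / 10000 * n ^ 2 ≤ n ^ 2 / 7056 - 2 * (16 / 10 ^ 6 * n ^ 2) - 16 / 10 ^ 12 * n ^ 2 := by
        have h15 : n ^ 2 / 7056 - 2 * (16 / 10 ^ 6 * n ^ 2) - 16 / 10 ^ 12 * n ^ 2 =
            (1 / 7056 - 32 / 10 ^ 6 - 16 / 10 ^ 12) * n ^ 2 := by ring
        rw [h15]
        apply mul_le_mul_of_nonneg_right _ h12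
        norm_num
      have h16 : 2 * TLs * TNs = 2 * (TLs * TNs) := by ring
      rw [h16] at h3
      linarith
    have h10 : n * (1 / 10000 * n) ≤ n * (n * area x ^ 2 + E x) := by
      refine le_trans (le_of_eq ?_) h9
      ring
    exact le_of_mul_le_mul_left h10 hn0

end Pool.Agent.CO30
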