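import Pool.Agent.CO30.FsT

/-!
# Type (2,2,2,4)
-/

namespace Pool.Agent.CO30

open Matrix Finset Pool.Agent.CO75

section EnGroup

variable {G : Type} [Group G]

private theorem en_closure (u₁ u₂ u₃ : G) (h1 : u₁ * u₁ = 1) (h2 : u₂ * u₂ = 1) (h3 : u₃ * u₃ = 1)
    (g : G) (hg : g ∈ Subgroup.closure ({u₁, u₂, u₃} : Set G)) :
    g ∈ Subgroup.closure ({u₁ * u₂, u₂ * u₃} : Set G) ∨
      g * u₂ ∈ Subgroup.closure ({u₁ * u₂, u₂ * u₃} : Set G) := by
  set K := Subgroup.closure ({u₁ * u₂, u₂ * u₃} : Set G) with hK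
  have hu : u₁ * u₂ ∈ K := Subgroup.subset_closure (Or.inl rfl)
  have hv : u₂ * u₃ ∈ K := Subgroup.subset_closure (Or.inr rfl)
  have i1 : u₁⁻¹ = u₁ := inv_eq_of_mul_eq_one_left h1
  have i2 : u₂⁻¹ = u₂ := inv_eq_of_mul_eq_one_left h2
  have i3 : u₃⁻¹ = u₃ := inv_eq_of_mul_eq_one_left h3
  have hu' : u₂ * u₁ ∈ K := by
    have := K.inv_mem hu
    rwa [_root_.mul_inv_rev, i1, i2] at this
  have hv' : u₃ * u₂ ∈ K := by
    have := K.inv_mem hv
    rwa [_root_.mul_inv_rev, i2, i3] at this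
  have key : ∀ y ∈ ({u₁, u₂, u₃} : Set G), ∀ g, (g ∈ K ∨ g * u₂ ∈ K) →
      (g * y ∈ K ∨ g * y * u₂ ∈ K) := by
    intro y hy g hg
    have hy2 : y * u₂ ∈ K ∧ u₂ * y ∈ K := by
      rcases hy with rfl | rfl | rfl
      · exact ⟨hu, hu'⟩
      · rw [h2]; exact ⟨K.one_mem, K.one_mem⟩
      · exact ⟨hv', hv⟩
    rcases hg with hg | hg
    · right
      rw [mul_assoc]
      exact K.mul_mem hg hy2.1
    · left
      have : g * y = (g * u₂) * (u₂ * y) := by
        rw [mul_assoc, ← mul_assoc u₂ u₂ y, h2, one_mul]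
      rw [this]
      exact K.mul_mem hg hy2.2
  induction hg using Subgroup.closure_induction_right with
  | one => left; exact K.one_mem
  | mul_right x hx y hy ih => exact key y hy x ih
  | mul_inv_cancel x hx y hy ih =>
    have hyi : y⁻¹ = y := by
      rcases hy with rfl | rfl | rfl
      · exact i1
      · exact i2
      · exact i3
    rw [hyi]
    exact key y hy x ih

private theorem en_comm (u v c : G) (hcu : Commute c u) (hcv : Commute c v)
    (h : v * u = u * v * c) (i j : ℤ) : v ^ j * u ^ i = u ^ i * v ^ j * c ^ (j * i) := by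
  have h1 : SemiconjBy u (v * c) v := by
    unfold SemiconjBy
    rw [h, mul_assoc]
  have h2 := h1.zpow_right j
  rw [(hcv.symm).mul_zpow j] at h2
  have h4 : SemiconjBy (v ^ j) u (u * c ^ j) := by
    unfold SemiconjBy at h2 ⊢
    rw [← h2, mul_assoc, (hcv.zpow_zpow j j).eq]
  have h5 := h4.zpow_right i
  rw [((hcu.symm).zpow_right j).mul_zpow i, ← _root_.zpow_mul] at h5
  have h6 : Commute (c ^ (j * i)) (v ^ j) := hcv.zpow_zpow _ _
  unfold SemiconjBy at h5
  rw [h5, mul_assoc, mul_assoc, h6.eq]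

private theorem en_normal (u v c : G) (hcu : Commute c u) (hcv : Commute c v)
    (h : v * u = u * v * c) (l : G) (hl : l ∈ Subgroup.closure ({u, v} : Set G)) :
    ∃ i j k : ℤ, l = u ^ i * v ^ j * c ^ k := by
  have hU : ∀ i j k e : ℤ, u ^ i * v ^ j * c ^ k * u ^ e = u ^ (i + e) * v ^ j * c ^ (j * e + k) := by
    intro i j k e
    have h1 : c ^ k * u ^ e = u ^ e * c ^ k := (hcu.zpow_zpow k e).eq
    rw [mul_assoc _ (c ^ k), h1, ← mul_assoc, mul_assoc _ (v ^ j), en_comm u v c hcu hcv h e j,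
      _root_.zpow_add u, _root_.zpow_add c]
    simp only [mul_assoc]
  have hV : ∀ i j k e : ℤ, u ^ i * v ^ j * c ^ k * v ^ e = u ^ i * v ^ (j + e) * c ^ k := by
    intro i j k e
    have h1 : c ^ k * v ^ e = v ^ e * c ^ k := (hcv.zpow_zpow k e).eq
    rw [mul_assoc _ (c ^ k), h1, _root_.zpow_add v]
    simp only [mul_assoc]
  induction hl using Subgroup.closure_induction_right with
  | one => exact ⟨0, 0, 0, by simp⟩
  | mul_right x hx y hy ih =>
    obtain ⟨i, j, k, rfl⟩ := ih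
    rcases hy with rfl | rfl
    · have := hU i j k 1
      rw [zpow_one] at this
      exact ⟨_, _, _, this⟩
    · have := hV i j k 1
      rw [zpow_one] at this
      exact ⟨_, _, _, this⟩
  | mul_inv_cancel x hx y hy ih =>
    obtain ⟨i, j, k, rfl⟩ := ih
    rcases hy with rfl | rfl
    · have := hU i j k (-1)
      rw [_root_.zpow_neg_one] at this
      exact ⟨_, _, _, this⟩
    · have := hV i j k (-1)
      rw [_root_.zpow_neg_one] at this
      exact ⟨_, _, _, this⟩

private theorem en_phi (u v c s : G) (hcu : Commute c u) (hcv : Commute c v) (hcs : Commute c s)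
    (h : v * u = u * v * c) (hc : c * c = 1) (hs : s * s = 1) (hsu : s * u = u⁻¹ * s)
    (hsv : s * v = v⁻¹ * s) (i j k : ℤ) (hij : Even (i * j)) :
    (s * (u ^ i * v ^ j * c ^ k)) ^ 2 = 1 := by
  have h1 : SemiconjBy s (u ^ i) (u⁻¹ ^ i) := SemiconjBy.zpow_right hsu i
  have h2 : SemiconjBy s (v ^ j) (v⁻¹ ^ j) := SemiconjBy.zpow_right hsv j
  have h3 : SemiconjBy s (c ^ k) (c ^ k) := (hcs.symm.zpow_right k)
  have h4 : s * (u ^ i * v ^ j * c ^ k) = u⁻¹ ^ i * v⁻¹ ^ j * c ^ k * s :=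
    ((h1.mul_right h2).mul_right h3)
  have hce : ∀ m : ℤ, c ^ (m + m) = 1 := by
    intro m
    rw [_root_.zpow_add, ← (Commute.refl c).mul_zpow, hc, _root_.one_zpow]
  have h5 : v⁻¹ ^ j * u ^ i = u ^ i * v⁻¹ ^ j := by
    rw [_root_.inv_zpow', en_comm u v c hcu hcv h i (-j)]
    obtain ⟨m, hm⟩ := hij
    have : -j * i = (-m) + (-m) := by
      have : j * i = m + m := by rw [mul_comm, hm]
      linarith
    rw [this, hce, mul_one]
  have h6 : c ^ k * (u ^ i * v ^ j) = u ^ i * v ^ j * c ^ k :=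
    ((hcu.zpow_zpow k i).mul_right (hcv.zpow_zpow k j)).eq
  have h7 : c ^ k * c ^ k = 1 := by rw [← _root_.zpow_add, hce]
  calc (s * (u ^ i * v ^ j * c ^ k)) ^ 2
      = (s * (u ^ i * v ^ j * c ^ k)) * (s * (u ^ i * v ^ j * c ^ k)) := pow_two _
    _ = (u⁻¹ ^ i * v⁻¹ ^ j * c ^ k * s) * (s * (u ^ i * v ^ j * c ^ k)) := by
        conv_lhs => rw [h4]
        rw [← h4]
    _ = u⁻¹ ^ i * v⁻¹ ^ j * (c ^ k * (u ^ i * v ^ j)) * c ^ k := by
        rw [mul_assoc _ s, ← mul_assoc s s, hs, one_mul]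
        simp only [mul_assoc]
    _ = u⁻¹ ^ i * (v⁻¹ ^ j * u ^ i) * v ^ j * (c ^ k * c ^ k) := by
        rw [h6]
        simp only [mul_assoc]
    _ = (u⁻¹ ^ i * u ^ i) * (v⁻¹ ^ j * v ^ j) := by
        rw [h5, h7, mul_one]
        simp only [mul_assoc]
    _ = 1 := by
        rw [_root_.inv_zpow, inv_mul_cancel, _root_.inv_zpow, inv_mul_cancel, mul_one]

open Classical in
private theorem en_half (C : Subgroup G) [Fintype C] (u v c s : G) (hcu : Commute c u)
    (hcv : Commute c v) (hcs : Commute c s) (h : v * u = u * v * c) (hc : c * c = 1)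
    (hs : s * s = 1) (hsu : s * u = u⁻¹ * s) (hsv : s * v = v⁻¹ * s) (huC : u ∈ C)
    (hCl : ∀ l ∈ C, l ∈ Subgroup.closure ({u, v} : Set G)) :
    Fintype.card C ≤ 2 * (univ.filter fun l : C => (s * (l : G)) ^ 2 = 1).card := by
  set A := univ.filter fun l : C => (s * (l : G)) ^ 2 = 1 with hA
  have h1 : (univ.filter fun l : C => ¬ (s * (l : G)) ^ 2 = 1).card ≤ A.card := by
    refine Finset.card_le_card_of_injOn (fun l => l * ⟨u, huC⟩) ?_ ?_
    · intro l hl
      have hl' : ¬ (s * (l : G)) ^ 2 = 1 := (Finset.mem_filter.1 (Finset.mem_coe.1 hl)).2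
      obtain ⟨i, j, k, hijk⟩ := en_normal u v c hcu hcv h l (hCl l l.2)
      have hodd : ¬ Even (i * j) := by
        intro he
        apply hl'
        rw [hijk]
        exact en_phi u v c s hcu hcv hcs h hc hs hsu hsv i j k he
      have heven : Even ((i + 1) * j) := by
        rw [Int.not_even_iff_odd, Int.odd_mul] at hodd
        rw [Int.even_mul]
        left
        exact hodd.1.add_one
      have hlu : (l : G) * u = u ^ (i + 1) * v ^ j * c ^ (j + k) := by
        have h2 : c ^ k * u = u * c ^ k := (hcu.zpow_left k).eq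
        have h3 := en_comm u v c hcu hcv h 1 j
        rw [zpow_one, mul_one] at h3
        rw [hijk, mul_assoc _ (c ^ k), h2, ← mul_assoc, mul_assoc _ (v ^ j), h3,
          _root_.zpow_add u, _root_.zpow_add c, zpow_one]
        simp only [mul_assoc]
      refine Finset.mem_coe.2 (Finset.mem_filter.2 ⟨Finset.mem_univ _, ?_⟩)
      change (s * ((l : G) * u)) ^ 2 = 1
      rw [hlu]
      exact en_phi u v c s hcu hcv hcs h hc hs hsu hsv (i + 1) j (j + k) heven
    · intro a _ b _ hab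
      exact mul_right_cancel hab
  have h2 : A.card + (univ.filter fun l : C => ¬ (s * (l : G)) ^ 2 = 1).card = Fintype.card C := by
    rw [← Finset.card_univ, hA]
    exact Finset.card_filter_add_card_filter_not _
  omega

end EnGroup

variable {G : Type} [Group G] [Fintype G]

private theorem en_rot (x : Fin 4 → G) (hx : (List.ofFn x).prod = 1) (i₀ : Fin 4) :
    x i₀ * x (i₀ + 1) * x (i₀ + 2) * x (i₀ + 3) = 1 := by
  have h : x 0 * x 1 * x 2 * x 3 = 1 := by
    rw [← hx]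
    simp [List.ofFn_succ, mul_assoc]
  fin_cases i₀
  · exact h
  · change x 1 * x 2 * x 3 * x 0 = 1
    have h1 : x 1 * x 2 * x 3 = (x 0)⁻¹ := by
      rw [eq_inv_iff_mul_eq_one]
      have h2 : x 0 * (x 1 * x 2 * x 3) = 1 := by rw [← h]; simp only [mul_assoc]
      exact mul_eq_one_comm.1 h2
    rw [h1, inv_mul_cancel]
  · change x 2 * x 3 * x 0 * x 1 = 1
    have h2 : (x 0 * x 1) * (x 2 * x 3) = 1 := by rw [← h]; simp only [mul_assoc]
    have h3 := mul_eq_one_comm.1 h2
    rw [← h3]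
    simp only [mul_assoc]
  · change x 3 * x 0 * x 1 * x 2 = 1
    have h2 : (x 0 * x 1 * x 2) * x 3 = 1 := h
    have h3 := mul_eq_one_comm.1 h2
    rw [← h3]
    simp only [mul_assoc]

open Classical in
/-- the group-theoretic part, `c` central -/
private theorem en_central (x : Fin 4 → G) (hx : IsGenVec x)
    (C : Subgroup G) [C.Normal] [Fintype C] (hidx : C.index = 2) (hC : ∀ i, x i ∉ C) (i₀ : Fin 4)
    (h4 : orderOf (x i₀) = 4) (h2 : ∀ i, i ≠ i₀ → orderOf (x i) = 2)
    (hcen : ∀ l ∈ C, Commute (x i₀ ^ 2) l) (g₀ : G) (hg₀ : g₀ ∉ C) :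
    Fintype.card C ≤ 2 * (univ.filter fun l : C => (g₀ * (l : G)) ^ 2 = 1).card := by
  have hsq : ∀ i, i ≠ i₀ → x i * x i = 1 := by
    intro i hi
    rw [← pow_two, ← h2 i hi, pow_orderOf_eq_one]
  have hi1 : i₀ + 1 ≠ i₀ := by fin_cases i₀ <;> decide
  have hi2 : i₀ + 2 ≠ i₀ := by fin_cases i₀ <;> decide
  have hi3 : i₀ + 3 ≠ i₀ := by fin_cases i₀ <;> decide
  have hrot := en_rot x hx.prod_eq i₀
  have hall : ∀ i, i = i₀ ∨ i = i₀ + 1 ∨ i = i₀ + 2 ∨ i = i₀ + 3 := by
    intro i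
    fin_cases i₀ <;> fin_cases i <;> decide
  set u₁ := x (i₀ + 1) with hu₁
  set u₂ := x (i₀ + 2) with hu₂
  set u₃ := x (i₀ + 3) with hu₃
  have s1 : u₁ * u₁ = 1 := hsq _ hi1
  have s2 : u₂ * u₂ = 1 := hsq _ hi2
  have s3 : u₃ * u₃ = 1 := hsq _ hi3
  have i1 : u₁⁻¹ = u₁ := inv_eq_of_mul_eq_one_left s1
  have i2 : u₂⁻¹ = u₂ := inv_eq_of_mul_eq_one_left s2
  have i3 : u₃⁻¹ = u₃ := inv_eq_of_mul_eq_one_left s3
  have hx0 : x i₀ = (u₁ * u₂ * u₃)⁻¹ := by
    rw [eq_inv_iff_mul_eq_one, ← hrot]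
    simp only [mul_assoc]
  have hgen : Subgroup.closure ({u₁, u₂, u₃} : Set G) = ⊤ := by
    rw [eq_top_iff, ← hx.gen, Subgroup.closure_le]
    rintro _ ⟨i, rfl⟩
    have m1 : u₁ ∈ Subgroup.closure ({u₁, u₂, u₃} : Set G) :=
      Subgroup.subset_closure (Or.inl rfl)
    have m2 : u₂ ∈ Subgroup.closure ({u₁, u₂, u₃} : Set G) :=
      Subgroup.subset_closure (Or.inr (Or.inl rfl))
    have m3 : u₃ ∈ Subgroup.closure ({u₁, u₂, u₃} : Set G) :=
      Subgroup.subset_closure (Or.inr (Or.inr rfl))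
    rcases hall i with h | h | h | h
    · rw [h, hx0]
      exact Subgroup.inv_mem _ (Subgroup.mul_mem _ (Subgroup.mul_mem _ m1 m2) m3)
    · rw [h]; exact m1
    · rw [h]; exact m2
    · rw [h]; exact m3
  have hmul := @Subgroup.mul_mem_iff_of_index_two G _ C hidx
  have hnot : ∀ a b : G, a ∉ C → b ∉ C → a * b ∈ C := by
    intro a b ha hb
    rw [hmul]
    exact iff_of_false ha hb
  set u := u₁ * u₂ with hu
  set v := u₂ * u₃ with hv
  have huC : u ∈ C := hnot _ _ (hC _) (hC _)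
  have hvC : v ∈ C := hnot _ _ (hC _) (hC _)
  have hKC : Subgroup.closure ({u, v} : Set G) ≤ C := by
    rw [Subgroup.closure_le]
    rintro y (rfl | rfl)
    · exact huC
    · exact hvC
  have hCl : ∀ l ∈ C, l ∈ Subgroup.closure ({u, v} : Set G) := by
    intro l hl
    rcases en_closure u₁ u₂ u₃ s1 s2 s3 l (by rw [hgen]; exact Subgroup.mem_top _) with h | h
    · exact h
    · exfalso
      have h3 : u₂ ∈ C := (Subgroup.mul_mem_cancel_left C hl).1 (hKC h)
      exact hC _ h3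
  set c := x i₀ ^ 2 with hc
  have hcc : c * c = 1 := by
    rw [hc, ← pow_add]
    have : 2 + 2 = orderOf (x i₀) := by rw [h4]
    rw [this, pow_orderOf_eq_one]
  have hcs : Commute c u₂ := by
    have h5 : u₂ = x i₀ * ((x i₀)⁻¹ * u₂) := by rw [mul_inv_cancel_left]
    rw [h5]
    refine Commute.mul_right ?_ (hcen _ (hnot _ _ (fun h => hC i₀ (C.inv_mem_iff.1 h)) (hC _)))
    rw [hc]
    exact (Commute.refl _).pow_left 2
  have hcu := hcen u huC
  have hcv := hcen v hvC
  have hci : c⁻¹ = c := inv_eq_of_mul_eq_one_left hcc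
  -- c = v⁻¹ * u * v * u⁻¹
  have hcuv : c = v⁻¹ * u * v * u⁻¹ := by
    have h8 : x i₀ = u₃ * (u₂ * u₁) := by
      rw [hx0, hu, _root_.mul_inv_rev, _root_.mul_inv_rev, i1, i2, i3]
    have h9 : u * v = u₁ * u₃ := by
      rw [hu, hv, mul_assoc, ← mul_assoc u₂ u₂, s2, one_mul]
    have h10 : v⁻¹ = u₃ * u₂ := by rw [hv, _root_.mul_inv_rev, i2, i3]
    have h11 : u⁻¹ = u₂ * u₁ := by rw [hu, _root_.mul_inv_rev, i1, i2]
    rw [mul_assoc v⁻¹, h9, h10, h11, hc, pow_two, h8]
    simp only [mul_assoc]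
  have hvu : v * u = u * v * c := by
    have h6 : u * v = v * u * c := by
      have h7 : v * u * c = v * (c * u) := by rw [mul_assoc, ← hcu.eq]
      rw [h7, hcuv]
      group
    rw [h6, mul_assoc (v * u), hcc, mul_one]
  have hsu : u₂ * u = u⁻¹ * u₂ := by
    rw [hu, _root_.mul_inv_rev, i1, i2, mul_assoc]
  have hsv : u₂ * v = v⁻¹ * u₂ := by
    rw [hv, _root_.mul_inv_rev, i2, i3, ← mul_assoc, s2, one_mul, mul_assoc, s2, mul_one]
  have hhalf := en_half C u v c u₂ hcu hcv hcs hvu hcc s2 hsu hsv huC hCl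
  refine hhalf.trans (Nat.mul_le_mul_left 2 ?_)
  have hmem : g₀⁻¹ * u₂ ∈ C := hnot _ _ (fun h => hg₀ (C.inv_mem_iff.1 h)) (hC _)
  refine Finset.card_le_card_of_injOn (fun l => ⟨g₀⁻¹ * u₂, hmem⟩ * l) ?_ ?_
  · intro l hl
    have hl' : (u₂ * (l : G)) ^ 2 = 1 := (Finset.mem_filter.1 (Finset.mem_coe.1 hl)).2
    refine Finset.mem_coe.2 (Finset.mem_filter.2 ⟨Finset.mem_univ _, ?_⟩)
    change (g₀ * (g₀⁻¹ * u₂ * (l : G))) ^ 2 = 1
    rw [mul_assoc g₀⁻¹, mul_inv_cancel_left]
    exact hl'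
  · intro a _ b _ hab
    exact mul_left_cancel hab

/-- a scalar of order two with trace `d - 4` -/
private theorem en_scalar {H : Type} [Group H] {d : ℕ} (R : H →* Matrix (Fin d) (Fin d) ℂ)
    (c : H) (hc : c * c = 1) (μ : ℂ) (hμ : R c = μ • (1 : Matrix (Fin d) (Fin d) ℂ))
    (ht : (R c).trace = (d : ℂ) - 4) : d = 2 := by
  have h1 : μ * (d : ℂ) = (d : ℂ) - 4 := by
    rw [← ht, hμ, Matrix.trace_smul, Matrix.trace_one, Fintype.card_fin, smul_eq_mul]
  have h2 : (R c * R c).trace = (d : ℂ) := by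
    rw [← map_mul, hc, map_one, Matrix.trace_one, Fintype.card_fin]
  have h3 : μ * μ * (d : ℂ) = (d : ℂ) := by
    rwa [hμ, Matrix.smul_mul, Matrix.mul_smul, smul_smul, Matrix.one_mul, Matrix.trace_smul,
      Matrix.trace_one, Fintype.card_fin, smul_eq_mul] at h2
  have h4 : (d : ℂ) * (d : ℂ) = ((d : ℂ) - 4) * ((d : ℂ) - 4) := by
    rw [← h1]
    have : μ * (d : ℂ) * (μ * (d : ℂ)) = μ * μ * (d : ℂ) * (d : ℂ) := by ring
    rw [this, h3]
  have h5 : (d : ℂ) = 2 := by
    have : (8 : ℂ) * (d : ℂ) = 8 * 2 := by linear_combination h4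
    exact mul_left_cancel₀ (by norm_num) this
  exact_mod_cast h5

/-- the arithmetic: `e j = nuT`, `ε j = 1` on `X` -/
private theorem en_arith {N : ℕ} (d e ε : Fin N → ℤ) (hd : ∀ j, 1 ≤ d j) (he : ∀ j, e j ≤ 1)
    (hε : ∀ j, ε j = 0 ∨ (ε j = 1 ∧ e j = -1)) (n Z I : ℤ) (h1 : ∑ j, d j ^ 2 = n)
    (h2 : ∑ j, d j * (d j - 4 * ε j) = 0) (h3 : ∑ j, (d j - 4 * ε j) ^ 2 = Z)
    (h4 : ∑ j, d j * e j = I) :
    4 * ∑ j, ε j * d j = n ∧ 16 * ∑ j, ε j = Z + n ∧ I + ∑ j, ε j * d j + ∑ j, ε j * d j ^ 2 ≤ n ∧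
      (∑ j, ε j * d j) ^ 2 ≤ (∑ j, ε j) * ∑ j, ε j * d j ^ 2 := by
  have hsq : ∀ j, ε j ^ 2 = ε j := by
    intro j
    rcases hε j with h | ⟨h, _⟩ <;> rw [h] <;> norm_num
  have a1 : 4 * ∑ j, ε j * d j = n := by
    have : ∑ j, d j * (d j - 4 * ε j) = ∑ j, d j ^ 2 - 4 * ∑ j, ε j * d j := by
      rw [Finset.mul_sum, ← Finset.sum_sub_distrib]
      exact Finset.sum_congr rfl fun j _ => by ring
    linarith
  have a2 : 16 * ∑ j, ε j = Z + n := by
    have : ∑ j, (d j - 4 * ε j) ^ 2 =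
        ∑ j, d j ^ 2 - 8 * ∑ j, ε j * d j + 16 * ∑ j, ε j := by
      rw [Finset.mul_sum, Finset.mul_sum, ← Finset.sum_sub_distrib, ← Finset.sum_add_distrib]
      refine Finset.sum_congr rfl fun j _ => ?_
      have := hsq j
      linear_combination 16 * this
    linarith
  have a3 : I + ∑ j, ε j * d j + ∑ j, ε j * d j ^ 2 ≤ n := by
    rw [← h1, ← h4, ← Finset.sum_add_distrib, ← Finset.sum_add_distrib]
    refine Finset.sum_le_sum fun j _ => ?_
    have hdj := hd j
    rcases hε j with h | ⟨h, h'⟩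
    · rw [h]
      have := he j
      nlinarith
    · rw [h, h']
      linarith
  refine ⟨a1, a2, a3, ?_⟩
  have h5 := Finset.sum_mul_sq_le_sq_mul_sq univ ε (fun j => ε j * d j)
  have e1 : ∑ j, ε j * (ε j * d j) = ∑ j, ε j * d j :=
    Finset.sum_congr rfl fun j _ => by rw [← mul_assoc, ← pow_two, hsq]
  have e2 : ∑ j, ε j ^ 2 = ∑ j, ε j := Finset.sum_congr rfl fun j _ => hsq j
  have e3 : ∑ j, (ε j * d j) ^ 2 = ∑ j, ε j * d j ^ 2 :=
    Finset.sum_congr rfl fun j _ => by rw [mul_pow, hsq]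
  rwa [e1, e2, e3] at h5

theorem endgame {G : Type} [Group G] [Fintype G] (x : Fin 4 → G) (hx : IsGenVec x)
    (C : Subgroup G) [C.Normal] [Fintype C] (hidx : C.index = 2) (hC : ∀ i, x i ∉ C) (i₀ : Fin 4)
    (h4 : orderOf (x i₀) = 4) (h2 : ∀ i, i ≠ i₀ → orderOf (x i) = 2) (WC : Wedd C) (c : C)
    (hc : (c : G) = x i₀ ^ 2) (g₀ : G) (hg₀ : g₀ ∉ C)
    (h : ∀ j, fx (WC.R j c) = WC.d j ∨ (nuT C g₀ (WC.R j) = -1 ∧ fx (WC.R j c) + 2 = WC.d j)) :
    False := by
  classical
  -- `c` is an involution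
  have hcc : c * c = 1 := by
    apply Subtype.ext
    change (c : G) * (c : G) = 1
    rw [hc, ← pow_add]
    have : 2 + 2 = orderOf (x i₀) := by rw [h4]
    rw [this, pow_orderOf_eq_one]
  have hc1 : c ≠ 1 := by
    intro h1
    have h5 : x i₀ ^ 2 = 1 := by rw [← hc, h1]; rfl
    have := orderOf_dvd_of_pow_eq_one h5
    rw [h4] at this
    omega
  have hci : c⁻¹ = c := inv_eq_of_mul_eq_one_left hcc
  have hoc : orderOf c = 2 := orderOf_eq_prime (by rw [pow_two, hcc]) hc1
  -- traces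
  set ε : Fin WC.N → ℤ := fun j => if fx (WC.R j c) = WC.d j then 0 else 1 with hεdef
  have htr : ∀ j, (WC.R j c).trace = (((WC.d j : ℤ) - 4 * ε j : ℤ) : ℂ) := by
    intro j
    have h5 := fx_eq (WC.R j) c
    rw [hoc, Finset.sum_range_succ, Finset.sum_range_one, pow_zero, pow_one, map_one,
      Matrix.trace_one, Fintype.card_fin] at h5
    have h6 : (WC.R j c).trace = 2 * (fx (WC.R j c) : ℂ) - (WC.d j : ℂ) := by
      rw [h5]
      push_cast
      ring
    rw [h6]
    by_cases h7 : fx (WC.R j c) = WC.d j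
    · have h8 : ε j = 0 := by rw [hεdef]; simp only [h7, if_true]
      rw [h7, h8]
      push_cast
      ring
    · have h8 : ε j = 1 := by rw [hεdef]; simp only [h7, if_false]
      have h9 : (WC.d j : ℂ) = (fx (WC.R j c) : ℂ) + 2 := by
        rcases h j with h10 | h10
        · exact absurd h10 h7
        · exact_mod_cast h10.2.symm
      rw [h8]
      push_cast
      rw [h9]
      ring
  have hnu : ∀ j, ∃ e : ℤ, nuT C g₀ (WC.R j) = (e : ℂ) ∧ e ≤ 1 := by
    intro j
    rcases nuT_cases C g₀ (WC.R j) (irr_wedd WC j) with h5 | h5 | h5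
    · exact ⟨0, by rw [h5]; norm_num, by norm_num⟩
    · exact ⟨1, by rw [h5]; norm_num, by norm_num⟩
    · exact ⟨-1, by rw [h5]; norm_num, by norm_num⟩
  choose e he he1 using hnu
  have hε : ∀ j, ε j = 0 ∨ (ε j = 1 ∧ e j = -1) := by
    intro j
    by_cases h7 : fx (WC.R j c) = WC.d j
    · left
      rw [hεdef]
      simp only [h7, if_true]
    · right
      refine ⟨by rw [hεdef]; simp only [h7, if_false], ?_⟩
      rcases h j with h10 | h10
      · exact absurd h10 h7
      · have h11 := he j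
        rw [h10.1] at h11
        exact_mod_cast h11.symm
  set Zc := Subgroup.centralizer ({c} : Set C) with hZc
  have hZmem : ∀ l : C, l ∈ Zc ↔ l * c = c * l := fun l => Subgroup.mem_centralizer_singleton_iff
  have hZcard : (univ.filter fun l : C => l * c = c * l).card = Nat.card Zc := by
    rw [Nat.card_eq_fintype_card, Fintype.card_subtype]
    congr 1
    ext l
    simp only [Finset.mem_filter, Finset.mem_univ, true_and, hZmem]
  set n : ℕ := Fintype.card C with hn
  set I : ℕ := (univ.filter fun l : C => (g₀ * (l : G)) ^ 2 = 1).card with hI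
  have hZn : Zc.index * Nat.card Zc = n := by
    rw [Subgroup.index_mul_card, Nat.card_eq_fintype_card]
  have hIpos : 1 ≤ I := by
    have hi1 : i₀ + 1 ≠ i₀ := by fin_cases i₀ <;> decide
    have hmem : g₀⁻¹ * x (i₀ + 1) ∈ C := by
      rw [Subgroup.mul_mem_iff_of_index_two hidx]
      exact iff_of_false (fun h => hg₀ (C.inv_mem_iff.1 h)) (hC _)
    rw [hI, Nat.succ_le_iff, Finset.card_pos]
    refine ⟨⟨_, hmem⟩, Finset.mem_filter.2 ⟨Finset.mem_univ _, ?_⟩⟩
    change (g₀ * (g₀⁻¹ * x (i₀ + 1))) ^ 2 = 1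
    rw [mul_inv_cancel_left, ← h2 _ hi1, pow_orderOf_eq_one]
  have q1 : ∑ j, (WC.d j : ℤ) ^ 2 = (n : ℤ) := by
    have := WC.sum_sq
    exact_mod_cast this
  have q2 : ∑ j, (WC.d j : ℤ) * ((WC.d j : ℤ) - 4 * ε j) = 0 := by
    have h5 := WC.col c
    rw [if_neg hc1, Finset.sum_congr rfl fun j _ => by rw [htr j]] at h5
    have h6 : ((∑ j, (WC.d j : ℤ) * ((WC.d j : ℤ) - 4 * ε j) : ℤ) : ℂ) = ((0 : ℤ) : ℂ) := by
      rw [Int.cast_sum, Int.cast_zero, ← h5]
      refine Finset.sum_congr rfl fun j _ => ?_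
      push_cast
      ring
    exact_mod_cast h6
  have q3 : ∑ j, ((WC.d j : ℤ) - 4 * ε j) ^ 2 = (Nat.card Zc : ℤ) := by
    have h5 : ∑ j, (WC.R j c).trace * (WC.R j c).trace = (Nat.card Zc : ℂ) := by
      have h6 := col_orth WC c
      rw [hci] at h6
      rw [h6, ← hZcard]
      congr!
    rw [Finset.sum_congr rfl fun j _ => by rw [htr j]] at h5
    have h6 : ((∑ j, ((WC.d j : ℤ) - 4 * ε j) ^ 2 : ℤ) : ℂ) = ((Nat.card Zc : ℤ) : ℂ) := by
      rw [Int.cast_sum, Int.cast_natCast, ← h5]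
      refine Finset.sum_congr rfl fun j _ => ?_
      push_cast
      ring
    exact_mod_cast h6
  have q4 : ∑ j, (WC.d j : ℤ) * e j = (I : ℤ) := by
    have h5 := sum_nuT C WC g₀ (Subgroup.sq_mem_of_index_two hidx g₀)
    rw [Finset.sum_congr rfl fun j _ => by rw [he j]] at h5
    have h6 : ((∑ j, (WC.d j : ℤ) * e j : ℤ) : ℂ) = ((I : ℤ) : ℂ) := by
      rw [Int.cast_sum, Int.cast_natCast, hI, ← h5]
      refine Finset.sum_congr rfl fun j _ => ?_
      push_cast
      ring
    exact_mod_cast h6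
  obtain ⟨b1, b2, b3, b4⟩ := en_arith (fun j => (WC.d j : ℤ)) e ε
    (fun j => by exact_mod_cast WC.pos j) he1 hε (n : ℤ) (Nat.card Zc : ℤ) (I : ℤ) q1 q2 q3 q4
  set S1 : ℤ := ∑ j, ε j * (WC.d j : ℤ) with hS1
  set S2 : ℤ := ∑ j, ε j * (WC.d j : ℤ) ^ 2 with hS2
  set S0 : ℤ := ∑ j, ε j with hS0
  have hnpos : 0 < n := Fintype.card_pos
  have hIpos' : (1 : ℤ) ≤ I := by exact_mod_cast hIpos
  have hZn' : (Zc.index : ℤ) * (Nat.card Zc : ℤ) = n := by exact_mod_cast hZn
  have hidx0 : Zc.index ≠ 0 := by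
    intro h0
    rw [h0, zero_mul] at hZn
    omega
  have hZpos : (0 : ℤ) < Nat.card Zc := by exact_mod_cast Nat.card_pos
  -- the index of the centraliser is at most two
  have hlt : Zc.index < 3 := by
    by_contra h3
    push Not at h3
    have h3' : (3 : ℤ) ≤ Zc.index := by exact_mod_cast h3
    have h5 : 3 * (Nat.card Zc : ℤ) ≤ n := by nlinarith
    have h6 : (n : ℤ) ^ 2 ≤ (Nat.card Zc + n) * S2 := by nlinarith
    have hnz : (0 : ℤ) < n := by exact_mod_cast hnpos
    have h7 : S2 < 3 * n := by nlinarith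
    have h8 : 4 * S2 ≤ 3 * n - 4 := by linarith
    have h9 : 0 ≤ S2 := by
      rw [hS2]
      refine Finset.sum_nonneg fun j _ => ?_
      rcases hε j with h | ⟨h, _⟩ <;> rw [h] <;> positivity
    nlinarith
  have hd2 : ∀ j, (∃ μ : ℂ, WC.R j c = μ • (1 : Matrix _ _ ℂ)) → ε j = 1 → (WC.d j : ℤ) = 2 := by
    rintro j ⟨μ, hμ⟩ hj
    have h5 := en_scalar (WC.R j) c hcc μ hμ (by
      rw [htr j, hj]
      push_cast
      ring)
    exact_mod_cast h5
  have hcases : Zc.index = 1 ∨ Zc.index = 2 := by omega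
  rcases hcases with hk | hk
  · -- `c` is central
    rw [hk] at hZn'
    have hcen : ∀ l : C, c * l = l * c := by
      intro l
      have h5 : l ∈ Zc := by
        rw [Subgroup.index_eq_one.1 hk]
        exact Subgroup.mem_top _
      exact ((hZmem l).1 h5).symm
    have h5 : S2 = 2 * S1 := by
      rw [hS2, hS1, Finset.mul_sum]
      refine Finset.sum_congr rfl fun j _ => ?_
      rcases hε j with h6 | ⟨h6, _⟩
      · rw [h6]; ring
      · rw [h6, hd2 j (scalar_central (irr_wedd WC j) hcen) h6]; ring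
    have h6 : n ≤ 2 * I := en_central x hx C hidx hC i₀ h4 h2 (by
      intro l hl
      have := hcen ⟨l, hl⟩
      have h7 := congrArg (Subtype.val) this
      change (c : G) * l = l * (c : G) at h7
      rw [hc] at h7
      exact h7) g₀ hg₀
    have h6' : (n : ℤ) ≤ 2 * I := by exact_mod_cast h6
    have hnz : (0 : ℤ) < n := by exact_mod_cast hnpos
    linarith
  · -- two conjugates
    rw [hk] at hZn'
    have hZnorm : Zc.Normal := Subgroup.normal_of_index_eq_two hk
    obtain ⟨g, hg⟩ : ∃ g : C, g ∉ Zc := by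
      by_contra h5
      push Not at h5
      have h6 : Zc = ⊤ := by
        rw [eq_top_iff]
        exact fun l _ => h5 l
      rw [h6, Subgroup.index_top] at hk
      omega
    set c' : C := g * c * g⁻¹ with hc'
    have hcomm' : ∀ l ∈ Zc, l * c' = c' * l := by
      intro l hl
      have h5 : g⁻¹ * l * g ∈ Zc := by
        have := hZnorm.conj_mem l hl g⁻¹
        rwa [inv_inv] at this
      have h6 := (hZmem _).1 h5
      calc l * c' = g * (g⁻¹ * l * g * c) * g⁻¹ := by rw [hc']; group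
        _ = g * (c * (g⁻¹ * l * g)) * g⁻¹ := by rw [h6]
        _ = c' * l := by rw [hc']; group
    have hcZ : c ∈ Zc := (hZmem c).2 rfl
    have hg2 : g * g ∈ Zc := Subgroup.mul_self_mem_of_index_two hk g
    have hgc' : g * c' = c * g := by
      have h6 := (hZmem _).1 hg2
      calc g * c' = (g * g) * c * g⁻¹ := by rw [hc']; group
        _ = c * (g * g) * g⁻¹ := by rw [h6]
        _ = c * g := by group
    have hgc : g * c = c' * g := by rw [hc']; group
    set z : C := c * c' with hz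
    have hcc' : c * c' = c' * c := hcomm' c hcZ
    have hzg : z * g = g * z := by
      rw [hz]
      calc c * c' * g = c * (c' * g) := by rw [mul_assoc]
        _ = c * g * c := by rw [← hgc, mul_assoc]
        _ = g * c' * c := by rw [hgc']
        _ = g * (c * c') := by rw [mul_assoc, hcc']
    have hzZ : ∀ l ∈ Zc, z * l = l * z := by
      intro l hl
      rw [hz]
      calc c * c' * l = c * (c' * l) := by rw [mul_assoc]
        _ = c * l * c' := by rw [← hcomm' l hl, mul_assoc]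
        _ = l * (c * c') := by rw [← (hZmem l).1 hl, mul_assoc]
    have hall : ∀ l : C, l ∈ Zc ∨ g⁻¹ * l ∈ Zc := by
      intro l
      by_cases hl : l ∈ Zc
      · exact Or.inl hl
      · right
        rw [Subgroup.mul_mem_iff_of_index_two hk]
        exact iff_of_false (fun h => hg (Zc.inv_mem_iff.1 h)) hl
    have hzcen : ∀ l : C, z * l = l * z := by
      intro l
      rcases hall l with hl | hl
      · exact hzZ l hl
      · have h5 := hzZ _ hl
        calc z * l = z * g * (g⁻¹ * l) := by group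
          _ = g * (z * (g⁻¹ * l)) := by rw [hzg, mul_assoc]
          _ = l * z := by rw [h5]; group
    have hd24 : ∀ j, ε j = 1 → ((WC.d j : ℤ) = 2 ∨ (WC.d j : ℤ) = 4) := by
      intro j hj
      obtain ⟨μ, hμ⟩ := scalar_central (irr_wedd WC j) hzcen
      have h5 : WC.R j c' = μ • WC.R j c := by
        have h6 : c' = c * z := by rw [hz, ← mul_assoc, hcc, one_mul]
        rw [h6, map_mul, hμ, Matrix.mul_smul, Matrix.mul_one]
      have h6 : (WC.R j c').trace = (WC.R j c).trace := by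
        rw [hc', map_mul, map_mul, Matrix.trace_mul_comm, ← mul_assoc, ← map_mul, inv_mul_cancel,
          map_one, one_mul]
      rw [h5, Matrix.trace_smul, smul_eq_mul] at h6
      have h7 : (μ - 1) * (WC.R j c).trace = 0 := by
        rw [sub_mul, one_mul, h6, sub_self]
      rcases mul_eq_zero.1 h7 with h8 | h8
      · left
        have h9 : μ = 1 := sub_eq_zero.1 h8
        rw [h9, one_smul] at h5
        refine hd2 j ?_ hj
        refine scalar_of_comm (WC.span_R j) _ fun l => ?_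
        have hgR : WC.R j g * WC.R j c = WC.R j c * WC.R j g := by
          rw [← map_mul, hgc, map_mul, h5]
        rcases hall l with hl | hl
        · rw [← map_mul, ← map_mul, (hZmem l).1 hl]
        · have h10 : WC.R j l = WC.R j g * WC.R j (g⁻¹ * l) := by
            rw [← map_mul, mul_inv_cancel_left]
          have h11 : WC.R j (g⁻¹ * l) * WC.R j c = WC.R j c * WC.R j (g⁻¹ * l) := by
            rw [← map_mul, ← map_mul, (hZmem _).1 hl]
          rw [h10, mul_assoc, h11, ← mul_assoc, ← hgR, mul_assoc]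
      · right
        rw [htr j, hj] at h8
        have h9 : ((WC.d j : ℤ) - 4 * 1 : ℤ) = 0 := by exact_mod_cast h8
        linarith
    have h5 : S2 = 6 * S1 - 8 * S0 := by
      rw [hS2, hS1, hS0, Finset.mul_sum, Finset.mul_sum, ← Finset.sum_sub_distrib]
      refine Finset.sum_congr rfl fun j _ => ?_
      rcases hε j with h6 | ⟨h6, _⟩
      · rw [h6]; ring
      · rcases hd24 j h6 with h7 | h7
        · rw [h6, h7]; ring
        · rw [h6, h7]; ring
    push_cast at hZn'
    linarith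

end Pool.Agent.CO30
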