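import Pool.Agent.CO30.Final

/-!
# Four branch points: definitions

`C` is a normal subgroup of `G`, `x : Fin r → G`, `oC C x i` the order of `x i` modulo `C`,
`yC C x i = x i ^ oC C x i ∈ C`, `yg C x i g` its conjugate by `g`, `hh C x` the genus of the quotient by
`C` minus `1`. For a representation `R` of `C`, `mC C x R` is its multiplicity in the restriction of the
representation with character `eichler x`; `mC C x R = d * hh C x + Fa C x R` if `R` is irreducible
and nontrivial, and `mC C x (dual R) = d * hh C x + Fb C x R`.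
-/

namespace Pool.Agent.CO30

open Matrix Finset Pool.Agent.CO75

/-- An irreducible matrix representation. -/
def Irr {H : Type} [Group H] {d : ℕ} (R : H →* Matrix (Fin d) (Fin d) ℂ) : Prop :=
  0 < d ∧ Submodule.span ℂ (Set.range R) = ⊤

/-- The multiplicity of the eigenvalue `1`. -/
noncomputable def fx {d : ℕ} (X : Matrix (Fin d) (Fin d) ℂ) : ℕ := X.charpoly.rootMultiplicity 1

/-- The twist of `R` by the `k`-th power of the character `α`. -/
noncomputable def twk {H : Type} [Group H] {d : ℕ} (R : H →* Matrix (Fin d) (Fin d) ℂ)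
    (α : H →* ℂˣ) (k : ℤ) : H →* Matrix (Fin d) (Fin d) ℂ where
  toFun h := ((α h ^ k : ℂˣ) : ℂ) • R h
  map_one' := by rw [map_one, _root_.one_zpow, Units.val_one, one_smul, map_one]
  map_mul' g h := by
    rw [map_mul, map_mul, _root_.mul_zpow, Units.val_mul, Matrix.smul_mul, Matrix.mul_smul, smul_smul]

/-- The trivial representation. -/
noncomputable def trivR (H : Type) [Group H] : H →* Matrix (Fin 1) (Fin 1) ℂ := 1

variable {G : Type} [Group G] {r d : ℕ}

/-- The order of `x i` modulo `C`. -/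
noncomputable def oC (C : Subgroup G) [C.Normal] (x : Fin r → G) (i : Fin r) : ℕ :=
  orderOf (QuotientGroup.mk' C (x i))

theorem oC_mem (C : Subgroup G) [C.Normal] (x : Fin r → G) (i : Fin r) :
    x i ^ oC C x i ∈ C := by
  have h : QuotientGroup.mk' C (x i ^ oC C x i) = 1 := by
    rw [map_pow]
    exact pow_orderOf_eq_one _
  exact (QuotientGroup.eq_one_iff _).1 h

/-- `y i = x i ^ o i`. -/
noncomputable def yC (C : Subgroup G) [C.Normal] (x : Fin r → G) (i : Fin r) : C :=
  ⟨x i ^ oC C x i, oC_mem C x i⟩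

/-- The conjugates `g y g⁻¹` of `y i`. -/
noncomputable def yg (C : Subgroup G) [C.Normal] (x : Fin r → G) (i : Fin r) (g : G) : C :=
  MulAut.conjNormal g (yC C x i)

/-- The genus of the quotient by `C`, minus `1`. -/
noncomputable def hh (C : Subgroup G) [C.Normal] (x : Fin r → G) : ℝ :=
  (C.index : ℝ) / 2 * areaN (oC C x)

variable [Fintype G]

/-- `∑ f i g` over the points `(i, g)`, `g ∈ G / ⟨x i⟩ C`, for the `i` in `s`. -/
noncomputable def pts (C : Subgroup G) [C.Normal] (x : Fin r → G) (s : Finset (Fin r))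
    (f : Fin r → G → ℝ) : ℝ :=
  ∑ i ∈ s, 1 / ((oC C x i : ℝ) * (Nat.card C : ℝ)) * ∑ g : G, f i g

/-- The sum of the ages of the inverses. -/
noncomputable def Fa (C : Subgroup G) [C.Normal] (x : Fin r → G)
    (R : C →* Matrix (Fin d) (Fin d) ℂ) : ℝ :=
  pts C x univ fun i g => age (R (yg C x i g)⁻¹)

/-- The sum of the ages. -/
noncomputable def Fb (C : Subgroup G) [C.Normal] (x : Fin r → G)
    (R : C →* Matrix (Fin d) (Fin d) ℂ) : ℝ :=
  pts C x univ fun i g => age (R (yg C x i g))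

/-- The sum of the codimensions of the fixed spaces over the points in `Bd`. -/
noncomputable def mB (C : Subgroup G) [C.Normal] (x : Fin r → G) (Bd : Finset (Fin r))
    (R : C →* Matrix (Fin d) (Fin d) ℂ) : ℝ :=
  pts C x Bd fun i g => (d : ℝ) - fx (R (yg C x i g))

/-- The number of points outside `Bd`. -/
noncomputable def Ja (C : Subgroup G) [C.Normal] (x : Fin r → G) (Bd : Finset (Fin r)) : ℝ :=
  ∑ i ∈ Bdᶜ, (C.index : ℝ) / (oC C x i : ℝ)

open Classical in
/-- The number of points outside `Bd` with positive angle. -/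
noncomputable def nup (C : Subgroup G) [C.Normal] (x : Fin r → G) (Bd : Finset (Fin r))
    (α : C →* ℂˣ) : ℝ :=
  pts C x Bdᶜ fun i g => if 0 < Complex.arg ((α (yg C x i g) : ℂˣ) : ℂ) then 1 else 0

open Classical in
/-- The number of points outside `Bd` with negative angle. -/
noncomputable def num (C : Subgroup G) [C.Normal] (x : Fin r → G) (Bd : Finset (Fin r))
    (α : C →* ℂˣ) : ℝ :=
  pts C x Bdᶜ fun i g => if Complex.arg ((α (yg C x i g) : ℂˣ) : ℂ) < 0 then 1 else 0

/-- The multiplicity of `R`. -/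
noncomputable def mC (C : Subgroup G) [Fintype C] (x : Fin r → G)
    (R : C →* Matrix (Fin d) (Fin d) ℂ) : ℂ :=
  1 / (Fintype.card C : ℂ) * ∑ c : C, eichler x (c : G) * (R c⁻¹).trace

open Classical in
/-- The Frobenius-Schur indicator of the induced representation. -/
noncomputable def nuC (C : Subgroup G) [Fintype C] (R : C →* Matrix (Fin d) (Fin d) ℂ) : ℂ :=
  1 / (Fintype.card C : ℂ) * ∑ g : G, if h : g ^ 2 ∈ C then (R ⟨g ^ 2, h⟩).trace else 0

open Classical in
/-- The twisted Frobenius-Schur indicator. -/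
noncomputable def nuT (C : Subgroup G) [Fintype C] (g₀ : G)
    (R : C →* Matrix (Fin d) (Fin d) ℂ) : ℂ :=
  1 / (Fintype.card C : ℂ) * ∑ c : C, if h : (g₀ * c) ^ 2 ∈ C then (R ⟨(g₀ * c) ^ 2, h⟩).trace else 0

/-- The stabiliser of `R` is `C`. -/
def Gen (C : Subgroup G) [C.Normal] (R : C →* Matrix (Fin d) (Fin d) ℂ) : Prop :=
  ∀ g, g ∉ C → ∃ c : C, (R (MulAut.conjNormal g c)).trace ≠ (R c).trace

/-- The conjugate of `R` by `g` is isomorphic to the dual of `R`. -/
def CDual (C : Subgroup G) [C.Normal] (R : C →* Matrix (Fin d) (Fin d) ℂ) (g : G) : Prop :=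
  ∀ c : C, (R (MulAut.conjNormal g c)).trace = (R c⁻¹).trace

/-- `T ≤ C` is central in `C`, of index at most `b` in `G`, and the character `α` of `C` is generic
of level `K`: see the fields. `I` is the set of the elements that invert `α`. -/
structure IsFrame (x : Fin 4 → G) (b K : ℕ) (C : Subgroup G) [C.Normal] (T : Subgroup G)
    (α : C →* ℂˣ) (I : Set G) (Bd : Finset (Fin 4)) : Prop where
  normal : T.Normal
  le : T ≤ C
  central : ∀ t ∈ T, ∀ c ∈ C, t * c = c * t
  index_le : T.index ≤ b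
  sep : ∀ g, g ∉ C → ∀ j : ℕ, 0 < j → j < K →
    ∃ t : C, (t : G) ∈ T ∧ α (MulAut.conjNormal g t) ^ j ≠ α t ^ j
  sepI : ∀ g, g ∉ I → ∀ j : ℕ, 0 < j → j < K →
    ∃ t : C, (t : G) ∈ T ∧ (α (MulAut.conjNormal g t) * α t) ^ j ≠ 1
  bd : ∀ i ∈ Bd, orderOf (yC C x i) ≤ b ∧ ∀ g, α (yg C x i g) = 1
  ub : ∀ i ∉ Bd, ∀ g, K ≤ orderOf (α (yg C x i g)) ∧
    |Complex.arg ((α (yg C x i g) : ℂˣ) : ℂ)| * (4 * K) < 2 * Real.pi

/-- The elements of `I` are those of `g₀ C`, they invert `α`, and `α (g₀ ^ 2) = 1`. -/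
structure IsInv (C : Subgroup G) [C.Normal] (α : C →* ℂˣ) (I : Set G) (g₀ : G) : Prop where
  not_mem : g₀ ∉ C
  mem_iff : ∀ g, g ∈ I ↔ g₀⁻¹ * g ∈ C
  inv : ∀ c : C, α (MulAut.conjNormal g₀ c) = (α c)⁻¹
  sq : ∃ h : g₀ ^ 2 ∈ C, α ⟨g₀ ^ 2, h⟩ = 1

end Pool.Agent.CO30
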