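import Pool.Agent.CO30.F4

/-!
# Choice of the level `b` and of the abelian normal subgroup `T`

Starting from an abelian normal subgroup `T₀` of index at most `B` one finds an abelian normal subgroup
`T ≤ T₀` and a bound `b ≥ [G : T]`, such that the commutator images and the orders of the `yC C x i`
are either bounded by `b` or very large compared with `b`.
-/

namespace Pool.Agent.CO30

open Finset

section GAP

variable {G : Type} [Group G] [Fintype G]

theorem gap_index_le (S T : Subgroup G) (hST : S ≤ T) (φ : T → G)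
    (hφ : ∀ t t' : T, φ t = φ t' → (t : G)⁻¹ * t' ∈ S) :
    S.index ≤ Nat.card (Set.range φ) * T.index := by
  rw [← Subgroup.relIndex_mul_index hST]
  refine Nat.mul_le_mul_right _ ?_
  have h0 : S.relIndex T = Nat.card (T ⧸ S.subgroupOf T) := rfl
  rw [h0]
  refine Nat.card_le_card_of_injective
    (fun q : T ⧸ S.subgroupOf T => (⟨φ q.out, q.out, rfl⟩ : Set.range φ)) ?_
  intro q q' h
  have h1 : φ q.out = φ q'.out := congrArg Subtype.val h
  have h2 : (q.out : T)⁻¹ * q'.out ∈ S.subgroupOf T := by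
    rw [Subgroup.mem_subgroupOf]
    exact hφ _ _ h1
  have h3 := QuotientGroup.eq.2 h2
  rw [QuotientGroup.out_eq', QuotientGroup.out_eq'] at h3
  exact h3

theorem gap_core_le (S : Subgroup G) : S.normalCore.index ≤ S.index.factorial := by
  rw [Subgroup.normalCore_eq_ker, Subgroup.index_ker]
  calc Nat.card (MulAction.toPermHom G (G ⧸ S)).range ≤ Nat.card (Equiv.Perm (G ⧸ S)) :=
        Nat.card_le_card_of_injective _ Subtype.val_injective
    _ = (Nat.card (G ⧸ S)).factorial := Nat.card_perm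
    _ = S.index.factorial := rfl

open Classical in
/-- `0` if some element inverts `T`, `1` otherwise. -/
noncomputable def gapI (T : Subgroup G) : ℕ :=
  if ∃ g : G, ∀ t ∈ T, g * t * g⁻¹ = t⁻¹ then 0 else 1

/-- The main part of the measure for the induction. -/
noncomputable def gapMu (T : Subgroup G) : ℕ :=
  2 * (Subgroup.centralizer (T : Set G)).index + gapI T

theorem gapI_le (T : Subgroup G) : gapI T ≤ 1 := by
  unfold gapI
  split_ifs <;> omega

theorem gapI_mono {T T' : Subgroup G} (h : T' ≤ T) : gapI T' ≤ gapI T := by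
  unfold gapI
  split_ifs with h1 h2 h2
  · exact le_rfl
  · exact Nat.zero_le _
  · obtain ⟨g, hg⟩ := h2
    exact absurd ⟨g, fun t ht => hg t (h ht)⟩ h1
  · exact le_rfl

omit [Fintype G] in
theorem gap_cent_mono {T T' : Subgroup G} (h : T' ≤ T) :
    Subgroup.centralizer (T : Set G) ≤ Subgroup.centralizer (T' : Set G) :=
  Subgroup.centralizer_le h

omit [Fintype G] in
theorem gap_mem_cent {T : Subgroup G} {g : G} :
    g ∈ Subgroup.centralizer (T : Set G) ↔ ∀ t ∈ T, g * t = t * g := by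
  rw [Subgroup.mem_centralizer_iff]
  exact ⟨fun h t ht => (h t ht).symm, fun h t ht => (h t ht).symm⟩

theorem gap_mu_lt {T T' : Subgroup G} (h : T' ≤ T)
    (hne : Subgroup.centralizer (T : Set G) ≠ Subgroup.centralizer (T' : Set G)) :
    gapMu T' < gapMu T := by
  have h1 := Subgroup.index_strictAnti (lt_of_le_of_ne (gap_cent_mono h) hne)
  have h2 := gapI_mono h
  unfold gapMu
  omega

theorem gap_mu_lt₁ {T T' : Subgroup G} (h : T' ≤ T) (g : G)
    (hg : g ∉ Subgroup.centralizer (T : Set G)) (hg' : g ∈ Subgroup.centralizer (T' : Set G)) :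
    gapMu T' < gapMu T := by
  refine gap_mu_lt h fun he => hg ?_
  rw [he]
  exact hg'

theorem gap_mu_lt₂ {T T' : Subgroup G} (h : T' ≤ T) (g : G)
    (hg : ∃ t ∈ T, g * t * g⁻¹ ≠ t⁻¹) (hg' : ∀ t ∈ T', g * t * g⁻¹ = t⁻¹) :
    gapMu T' < gapMu T := by
  by_cases hne : Subgroup.centralizer (T : Set G) = Subgroup.centralizer (T' : Set G)
  · have h1 : gapI T' = 0 := by
      unfold gapI
      rw [if_pos ⟨g, hg'⟩]
    have h2 : gapI T = 1 := by
      unfold gapI
      rw [if_neg]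
      rintro ⟨g₀, hg₀⟩
      have h3 : g₀⁻¹ * g ∈ Subgroup.centralizer (T : Set G) := by
        rw [hne, gap_mem_cent]
        intro t ht
        have e1 := hg' t ht
        have e2 := hg₀ t (h ht)
        have e3 : g * t * g⁻¹ = g₀ * t * g₀⁻¹ := by rw [e1, e2]
        have e4 : g * t = g₀ * t * g₀⁻¹ * g := by
          rw [← e3]
          group
        rw [mul_assoc, e4]
        group
      obtain ⟨t, ht, hne'⟩ := hg
      apply hne'
      rw [gap_mem_cent] at h3
      have e1 := h3 t ht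
      have e2 := hg₀ t ht
      calc g * t * g⁻¹ = g₀ * (g₀⁻¹ * g * t) * g⁻¹ := by group
        _ = g₀ * (t * (g₀⁻¹ * g)) * g⁻¹ := by rw [e1]
        _ = g₀ * t * g₀⁻¹ := by group
        _ = t⁻¹ := e2
    unfold gapMu
    rw [hne, h1, h2]
    omega
  · exact gap_mu_lt h hne

/-- The elements of `T` inverted by `g`. -/
def gapInv (T : Subgroup G) (hab : ∀ a ∈ T, ∀ c ∈ T, a * c = c * a) (g : G) : Subgroup G where
  carrier := {t | t ∈ T ∧ g * t * g⁻¹ = t⁻¹}
  one_mem' := ⟨T.one_mem, by simp⟩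
  mul_mem' := by
    rintro a c ⟨ha, ha'⟩ ⟨hc, hc'⟩
    refine ⟨T.mul_mem ha hc, ?_⟩
    calc g * (a * c) * g⁻¹ = (g * a * g⁻¹) * (g * c * g⁻¹) := by group
      _ = a⁻¹ * c⁻¹ := by rw [ha', hc']
      _ = (c * a)⁻¹ := by group
      _ = (a * c)⁻¹ := by rw [hab a ha c hc]
  inv_mem' := by
    rintro a ⟨ha, ha'⟩
    refine ⟨T.inv_mem ha, ?_⟩
    calc g * a⁻¹ * g⁻¹ = (g * a * g⁻¹)⁻¹ := by group
      _ = a⁻¹⁻¹ := by rw [ha']

theorem gap_step₁ (Θ b : ℕ) (T : Subgroup G) (hb : T.index ≤ b) (g : G)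
    (hcard : Nat.card (Set.range fun t : T => g * t * g⁻¹ * (t : G)⁻¹) ≤ Θ) :
    ∃ T' : Subgroup G, T'.Normal ∧ T' ≤ T ∧ T'.index ≤ (Θ * b).factorial ∧
      g ∈ Subgroup.centralizer (T' : Set G) := by
  refine ⟨(T ⊓ Subgroup.centralizer {g}).normalCore, inferInstance,
    (Subgroup.normalCore_le _).trans inf_le_left, ?_, ?_⟩
  · refine (gap_core_le _).trans (Nat.factorial_le ?_)
    refine (gap_index_le (T ⊓ Subgroup.centralizer {g}) T inf_le_left
      (fun t : T => g * t * g⁻¹ * (t : G)⁻¹) ?_).trans (Nat.mul_le_mul hcard hb)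
    intro t t' h
    have h' : g * (t : G) * g⁻¹ * (t : G)⁻¹ = g * (t' : G) * g⁻¹ * (t' : G)⁻¹ := h
    refine ⟨T.mul_mem (T.inv_mem t.2) t'.2, ?_⟩
    show (t : G)⁻¹ * t' ∈ Subgroup.centralizer {g}
    rw [Subgroup.mem_centralizer_singleton_iff]
    symm
    have e1 : (t : G)⁻¹ = (g * (t : G) * g⁻¹)⁻¹ * (g * (t' : G) * g⁻¹ * (t' : G)⁻¹) := by
      rw [← h']
      group
    calc g * ((t : G)⁻¹ * t') = g * (t : G)⁻¹ * g⁻¹ * (g * t' * g⁻¹) * g := by group
      _ = (g * (t : G) * g⁻¹)⁻¹ * (g * (t' : G) * g⁻¹ * (t' : G)⁻¹) * t' * g := by group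
      _ = (t : G)⁻¹ * t' * g := by rw [← e1]
  · rw [gap_mem_cent]
    intro t ht
    have h1 := Subgroup.normalCore_le _ ht
    have h2 : t ∈ Subgroup.centralizer {g} := h1.2
    rw [Subgroup.mem_centralizer_singleton_iff] at h2
    exact h2.symm

theorem gap_step₂ (Θ b : ℕ) (T : Subgroup G)
    (hab : ∀ a ∈ T, ∀ c ∈ T, a * c = c * a) (hb : T.index ≤ b) (g : G)
    (hcard : Nat.card (Set.range fun t : T => g * t * g⁻¹ * (t : G)) ≤ Θ) :
    ∃ T' : Subgroup G, T'.Normal ∧ T' ≤ T ∧ T'.index ≤ (Θ * b).factorial ∧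
      ∀ t ∈ T', g * t * g⁻¹ = t⁻¹ := by
  refine ⟨(gapInv T hab g).normalCore, inferInstance,
    (Subgroup.normalCore_le _).trans fun t ht => ht.1, ?_, ?_⟩
  · refine (gap_core_le _).trans (Nat.factorial_le ?_)
    refine (gap_index_le (gapInv T hab g) T (fun t ht => ht.1)
      (fun t : T => g * t * g⁻¹ * (t : G)) ?_).trans (Nat.mul_le_mul hcard hb)
    intro t t' h
    have h' : g * (t : G) * g⁻¹ * (t : G) = g * (t' : G) * g⁻¹ * (t' : G) := h
    refine ⟨T.mul_mem (T.inv_mem t.2) t'.2, ?_⟩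
    have e1 : (g * (t : G) * g⁻¹)⁻¹ * (g * (t' : G) * g⁻¹) = t * (t' : G)⁻¹ := by
      have : g * (t' : G) * g⁻¹ = g * (t : G) * g⁻¹ * t * (t' : G)⁻¹ := by
        rw [h']
        group
      rw [this]
      group
    calc g * ((t : G)⁻¹ * t') * g⁻¹ = (g * (t : G) * g⁻¹)⁻¹ * (g * (t' : G) * g⁻¹) := by group
      _ = t * (t' : G)⁻¹ := e1
      _ = (t' : G)⁻¹ * t := hab _ t.2 _ (T.inv_mem t'.2)
      _ = ((t : G)⁻¹ * t')⁻¹ := by group
  · intro t ht
    exact (Subgroup.normalCore_le _ ht).2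

open Classical in
/-- The measure for the induction. -/
noncomputable def gapNu (x : Fin 4 → G) (C : Subgroup G) (hC : C.Normal) (b : ℕ) : ℕ :=
  (univ.filter fun i : Fin 4 => b < orderOf (yC C x i)).card

omit [Fintype G] in
theorem gapNu_le (x : Fin 4 → G) (C : Subgroup G) (hC : C.Normal) (b : ℕ) :
    gapNu x C hC b ≤ 4 := by
  unfold gapNu
  refine (Finset.card_le_univ _).trans ?_
  simp

omit [Fintype G] in
theorem gapNu_lt (x : Fin 4 → G) (C : Subgroup G) (hC : C.Normal) (b b' : ℕ)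
    (i : Fin 4) (h1 : b < orderOf (yC C x i)) (h2 : orderOf (yC C x i) ≤ b') :
    gapNu x C hC b' < gapNu x C hC b := by
  unfold gapNu
  refine Finset.card_lt_card ?_
  rw [Finset.ssubset_iff_of_subset]
  · exact ⟨i, by simpa using h1, by simpa using h2⟩
  · intro j hj
    simp only [Finset.mem_filter, Finset.mem_univ, true_and] at hj ⊢
    omega

theorem gap_iter_le (f : ℕ → ℕ) (hf : ∀ b, b ≤ f b) (m : ℕ) : ∀ b, b ≤ f^[m] b := by
  induction m with
  | zero => intro b; exact le_rfl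
  | succ m ih => intro b; rw [Function.iterate_succ_apply]; exact (hf b).trans (ih _)

theorem gap_main (Θ : ℕ → ℕ) (x : Fin 4 → G) (m : ℕ) : ∀ (b : ℕ) (T : Subgroup G)
    (_ : T.Normal), (∀ a ∈ T, ∀ c ∈ T, a * c = c * a) → T.index ≤ b →
    5 * gapMu T + gapNu x (Subgroup.centralizer (T : Set G)) inferInstance b ≤ m →
    ∃ (b' : ℕ) (T' C : Subgroup G) (_ : C.Normal),
      b' ≤ (fun b => b + Θ b + (Θ b * b).factorial)^[m] b ∧ b ≤ b' ∧ T'.Normal ∧ T' ≤ T ∧
      T'.index ≤ b' ∧ (∀ g, g ∈ C ↔ ∀ t ∈ T', g * t = t * g) ∧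
      (∀ g, g ∉ C → Θ b' < Nat.card (Set.range fun t : T' => g * t * g⁻¹ * (t : G)⁻¹)) ∧
      (∀ g, (∃ t ∈ T', g * t * g⁻¹ ≠ t⁻¹) →
        Θ b' < Nat.card (Set.range fun t : T' => g * t * g⁻¹ * (t : G))) ∧
      (∀ i, orderOf (yC C x i) ≤ b' ∨ Θ b' < orderOf (yC C x i)) := by
  have hf : ∀ b, b ≤ (fun b => b + Θ b + (Θ b * b).factorial) b := fun b => by
    show b ≤ b + Θ b + (Θ b * b).factorial
    omega
  induction m with
  | zero =>
    intro b T hT hab hb hm
    exfalso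
    have h1 : 0 < (Subgroup.centralizer (T : Set G)).index := Nat.pos_of_ne_zero
      Subgroup.FiniteIndex.index_ne_zero
    unfold gapMu at hm
    omega
  | succ m ih =>
    intro b T hT hab hb hm
    by_cases c1 : ∀ g, g ∉ Subgroup.centralizer (T : Set G) →
        Θ b < Nat.card (Set.range fun t : T => g * t * g⁻¹ * (t : G)⁻¹)
    · by_cases c2 : ∀ g, (∃ t ∈ T, g * t * g⁻¹ ≠ t⁻¹) →
          Θ b < Nat.card (Set.range fun t : T => g * t * g⁻¹ * (t : G))
      · by_cases c3 : ∀ i, orderOf (yC (Subgroup.centralizer (T : Set G)) x i) ≤ b ∨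
            Θ b < orderOf (yC (Subgroup.centralizer (T : Set G)) x i)
        · exact ⟨b, T, Subgroup.centralizer (T : Set G), inferInstance,
            gap_iter_le _ hf _ b, le_rfl, hT, le_rfl, hb, fun g => gap_mem_cent, c1, c2, c3⟩
        · push Not at c3
          obtain ⟨i, hi1, hi2⟩ := c3
          have h1 := gapNu_lt x (Subgroup.centralizer (T : Set G)) inferInstance b
            (b + Θ b + (Θ b * b).factorial) i hi1 (by omega)
          obtain ⟨b', T', C, hC, r1, r2, r3⟩ := ih (b + Θ b + (Θ b * b).factorial) T hT hab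
            (hb.trans (hf b)) (by omega)
          exact ⟨b', T', C, hC, r1, (hf b).trans r2, r3⟩
      · push Not at c2
        obtain ⟨g, hg1, hg2⟩ := c2
        obtain ⟨T', n1, n2, n3, n4⟩ := gap_step₂ (Θ b) b T hab hb g hg2
        have h1 := gap_mu_lt₂ n2 g hg1 n4
        have h2 := gapNu_le x (Subgroup.centralizer (T' : Set G)) inferInstance
          (b + Θ b + (Θ b * b).factorial)
        obtain ⟨b', T'', C, hC, r1, r2, r3, r4, r5⟩ := ih (b + Θ b + (Θ b * b).factorial) T' n1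
          (fun a ha c hc => hab a (n2 ha) c (n2 hc)) (by omega) (by omega)
        exact ⟨b', T'', C, hC, r1, (hf b).trans r2, r3, r4.trans n2, r5⟩
    · push Not at c1
      obtain ⟨g, hg1, hg2⟩ := c1
      obtain ⟨T', n1, n2, n3, n4⟩ := gap_step₁ (Θ b) b T hb g hg2
      have h1 := gap_mu_lt₁ n2 g hg1 n4
      have h2 := gapNu_le x (Subgroup.centralizer (T' : Set G)) inferInstance
        (b + Θ b + (Θ b * b).factorial)
      obtain ⟨b', T'', C, hC, r1, r2, r3, r4, r5⟩ := ih (b + Θ b + (Θ b * b).factorial) T' n1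
        (fun a ha c hc => hab a (n2 ha) c (n2 hc)) (by omega) (by omega)
      exact ⟨b', T'', C, hC, r1, (hf b).trans r2, r3, r4.trans n2, r5⟩

theorem gap (B : ℕ) (Θ : ℕ → ℕ) : ∃ bmax : ℕ, ∀ (G : Type) [Group G] [Fintype G]
    (x : Fin 4 → G) (T₀ : Subgroup G), T₀.Normal → (∀ a ∈ T₀, ∀ b ∈ T₀, a * b = b * a) →
    T₀.index ≤ B → ∃ (b : ℕ) (T C : Subgroup G) (_ : C.Normal), b ≤ bmax ∧ B ≤ b ∧ T.Normal ∧ T ≤ T₀ ∧
      T.index ≤ b ∧ (∀ g, g ∈ C ↔ ∀ t ∈ T, g * t = t * g) ∧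
      (∀ g, g ∉ C → Θ b < Nat.card (Set.range fun t : T => g * t * g⁻¹ * (t : G)⁻¹)) ∧
      (∀ g, (∃ t ∈ T, g * t * g⁻¹ ≠ t⁻¹) →
        Θ b < Nat.card (Set.range fun t : T => g * t * g⁻¹ * (t : G))) ∧
      (∀ i, orderOf (yC C x i) ≤ b ∨ Θ b < orderOf (yC C x i)) := by
  refine ⟨(fun b => b + Θ b + (Θ b * b).factorial)^[10 * B + 9] B, ?_⟩
  intro G _ _ x T₀ hT hab hB
  refine gap_main Θ x (10 * B + 9) B T₀ hT hab hB ?_
  have h1 := gapNu_le x (Subgroup.centralizer (T₀ : Set G)) inferInstance B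
  have h2 := gapI_le T₀
  have h3 : (Subgroup.centralizer (T₀ : Set G)).index ≤ T₀.index := by
    refine Subgroup.index_antitone ?_
    intro a ha
    rw [gap_mem_cent]
    exact fun t ht => hab a ha t ht
  unfold gapMu
  omega

end GAP

end Pool.Agent.CO30
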