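import Pool.Agent.CO30.F4

/-!
# Characters of large order at given elements, close to `1`
-/

namespace Pool.Agent.CO30

open Finset

private theorem lam_order_pow {A : Type} [Group A] (a : A) (e E : ℕ) (he : 0 < e)
    (h : E * e ≤ orderOf a) : E ≤ orderOf (a ^ e) := by
  rw [orderOf_pow' a he.ne']
  have hg : 0 < Nat.gcd (orderOf a) e := Nat.gcd_pos_of_pos_right _ he
  rw [Nat.le_div_iff_mul_le hg]
  exact le_trans (Nat.mul_le_mul_left _ (Nat.gcd_le_right _ he)) h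

private theorem lam_card {A : Type} [CommGroup A] [Finite A] (a : A) :
    Nat.card {ψ : A →* ℂˣ // ψ a = 1} * orderOf a = Nat.card A := by
  have : NeZero (Monoid.exponent A) := ⟨Monoid.exponent_ne_zero_of_finite⟩
  have h1 := CommGroup.card_domRestrictHom_ker (M := ℂ) (Subgroup.zpowers a)
  have h2 : Nat.card (A ⧸ Subgroup.zpowers a) * Nat.card (Subgroup.zpowers a) = Nat.card A :=
    (Subgroup.card_eq_card_quotient_mul_card_subgroup _).symm
  rw [Nat.card_zpowers] at h2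
  rw [← h2, ← h1]
  congr 1
  apply Nat.card_congr
  refine Equiv.subtypeEquivRight fun ψ => ?_
  rw [MonoidHom.mem_ker, MonoidHom.domRestrictHom_apply]
  constructor
  · intro h
    ext ⟨y, hy⟩
    obtain ⟨k, rfl⟩ := Subgroup.mem_zpowers_iff.1 hy
    simp [h]
  · intro h
    have := DFunLike.congr_fun h ⟨a, Subgroup.mem_zpowers a⟩
    simpa using this

private theorem lam_big {A : Type} [CommGroup A] [Finite A] {M : ℕ} (u : Fin M → A) (E K₂ : ℕ)
    (hE : ∀ m, E ≤ orderOf (u m)) (hME : M * K₂ ^ 2 < E) :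
    ∃ ψ : A →* ℂˣ, ∀ m, K₂ ≤ orderOf (ψ (u m)) := by
  classical
  have : NeZero (Monoid.exponent A) := ⟨Monoid.exponent_ne_zero_of_finite⟩
  have hcard : Nat.card (A →* ℂˣ) = Nat.card A := CommGroup.card_monoidHom_of_hasEnoughRootsOfUnity A ℂ
  have hApos : 0 < Nat.card A := Nat.card_pos
  have hfin : Finite (A →* ℂˣ) := Nat.finite_of_card_ne_zero (by omega)
  have := Fintype.ofFinite (A →* ℂˣ)
  by_contra hcon
  push Not at hcon
  have hsub : (univ : Finset (A →* ℂˣ)) ⊆ (univ : Finset (Fin M)).biUnion fun m =>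
      (Ico 1 K₂).biUnion fun l => univ.filter fun ψ : A →* ℂˣ => ψ (u m ^ l) = 1 := by
    intro ψ _
    obtain ⟨m, hm⟩ := hcon ψ
    rw [mem_biUnion]
    refine ⟨m, mem_univ _, ?_⟩
    rw [mem_biUnion]
    refine ⟨orderOf (ψ (u m)), mem_Ico.2 ⟨?_, hm⟩, ?_⟩
    · exact (MonoidHom.isOfFinOrder ψ (isOfFinOrder_of_finite (u m))).orderOf_pos
    · rw [mem_filter]
      exact ⟨mem_univ _, by rw [map_pow, pow_orderOf_eq_one]⟩
  have h1 : Nat.card A * E ≤ (M * (K₂ * K₂)) * Nat.card A := by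
    calc Nat.card A * E = (univ : Finset (A →* ℂˣ)).card * E := by
          rw [← hcard, Nat.card_eq_fintype_card, card_univ]
      _ ≤ (∑ m : Fin M, ∑ l ∈ Ico 1 K₂,
            (univ.filter fun ψ : A →* ℂˣ => ψ (u m ^ l) = 1).card) * E := by
          refine Nat.mul_le_mul_right _ ?_
          refine (card_le_card hsub).trans ?_
          refine card_biUnion_le.trans ?_
          exact sum_le_sum fun m _ => card_biUnion_le
      _ = ∑ m : Fin M, ∑ l ∈ Ico 1 K₂,
            (univ.filter fun ψ : A →* ℂˣ => ψ (u m ^ l) = 1).card * E := by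
          rw [sum_mul]
          exact sum_congr rfl fun m _ => sum_mul _ _ _
      _ ≤ ∑ m : Fin M, ∑ l ∈ Ico 1 K₂, K₂ * Nat.card A := by
          refine sum_le_sum fun m _ => sum_le_sum fun l hl => ?_
          rw [mem_Ico] at hl
          have h2 := lam_card (u m ^ l)
          have h3 : Nat.card {ψ : A →* ℂˣ // ψ (u m ^ l) = 1} =
              (univ.filter fun ψ : A →* ℂˣ => ψ (u m ^ l) = 1).card := by
            rw [Nat.card_eq_fintype_card, Fintype.card_subtype]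
          rw [h3] at h2
          have h4 : E ≤ orderOf (u m ^ l) * l := by
            refine (hE m).trans ?_
            rw [orderOf_pow' _ (by omega : l ≠ 0)]
            have h5 := Nat.div_mul_cancel (Nat.gcd_dvd_left (orderOf (u m)) l)
            have h6 : Nat.gcd (orderOf (u m)) l ≤ l := Nat.gcd_le_right _ (by omega)
            calc orderOf (u m) = orderOf (u m) / Nat.gcd (orderOf (u m)) l * Nat.gcd (orderOf (u m)) l := h5.symm
              _ ≤ _ := Nat.mul_le_mul_left _ h6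
          calc _ ≤ (univ.filter fun ψ : A →* ℂˣ => ψ (u m ^ l) = 1).card * (orderOf (u m ^ l) * l) :=
                Nat.mul_le_mul_left _ h4
            _ = Nat.card A * l := by rw [← mul_assoc, h2]
            _ ≤ K₂ * Nat.card A := by rw [mul_comm]; exact Nat.mul_le_mul_right _ (by omega)
      _ = M * ((K₂ - 1) * (K₂ * Nat.card A)) := by
          simp
      _ ≤ (M * (K₂ * K₂)) * Nat.card A := by
          have : (K₂ - 1) * (K₂ * Nat.card A) ≤ K₂ * (K₂ * Nat.card A) :=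
            Nat.mul_le_mul_right _ (Nat.sub_le _ _)
          calc _ ≤ M * (K₂ * (K₂ * Nat.card A)) := Nat.mul_le_mul_left _ this
            _ = _ := by ring
  rw [mul_comm] at h1
  have h2 := Nat.le_of_mul_le_mul_right h1 hApos
  rw [← pow_two] at h2
  omega

private theorem lam_arg {z : ℂ} (hz : ‖z‖ = 1) (j₁ j₂ : ℕ) (hj : j₁ < j₂) (δ : ℝ) (hδ : δ ≤ 1 / 4)
    (h : |Int.fract (j₂ * (Complex.arg z / (2 * Real.pi))) -
      Int.fract (j₁ * (Complex.arg z / (2 * Real.pi)))| < δ) :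
    |Complex.arg (z ^ (j₂ - j₁))| < 2 * Real.pi * δ := by
  have hpi := Real.pi_pos
  set a := Complex.arg z with ha
  set θ₂ := Int.fract (j₂ * (a / (2 * Real.pi))) with hθ₂
  set θ₁ := Int.fract (j₁ * (a / (2 * Real.pi))) with hθ₁
  have h1 : z = Complex.exp (a * Complex.I) := by
    have := Complex.norm_mul_exp_arg_mul_I z
    rw [hz, Complex.ofReal_one, one_mul] at this
    exact this.symm
  have h2 : ((j₂ - j₁ : ℕ) : ℝ) * a = 2 * Real.pi * (θ₂ - θ₁) +
      ((⌊(j₂ : ℝ) * (a / (2 * Real.pi))⌋ - ⌊(j₁ : ℝ) * (a / (2 * Real.pi))⌋ : ℤ) : ℝ) *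
        (2 * Real.pi) := by
    rw [hθ₂, hθ₁, Int.fract, Int.fract, Nat.cast_sub hj.le]
    push_cast
    field_simp
    ring
  have h3 : z ^ (j₂ - j₁) = Complex.exp (((2 * Real.pi * (θ₂ - θ₁) : ℝ) : ℂ) * Complex.I) := by
    rw [h1, ← Complex.exp_nat_mul]
    rw [Complex.exp_eq_exp_iff_exists_int]
    refine ⟨⌊(j₂ : ℝ) * (a / (2 * Real.pi))⌋ - ⌊(j₁ : ℝ) * (a / (2 * Real.pi))⌋, ?_⟩
    have h4 := congrArg (fun t : ℝ => (t : ℂ)) h2
    push_cast at h4 ⊢
    linear_combination Complex.I * h4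
  have h5 : 2 * Real.pi * (θ₂ - θ₁) ∈ Set.Ioc (-Real.pi) Real.pi := by
    have := abs_lt.1 h
    constructor
    · nlinarith
    · nlinarith
  rw [h3, Complex.exp_mul_I, Complex.arg_cos_add_sin_mul_I h5, abs_mul, abs_of_pos (by positivity)]
  exact mul_lt_mul_of_pos_left h (by positivity)

/-- a character that is of large order at given elements of large order, and close to `1` at some of them -/
theorem exists_char {A : Type} [CommGroup A] [Finite A] {M : ℕ} (u : Fin M → A) (E K K₂ : ℕ)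
    (hK : 0 < K) (hK₂ : K * (4 * K) ^ M ≤ K₂) (hE : ∀ m, E ≤ orderOf (u m))
    (hME : M * K₂ ^ 2 < E) :
    ∃ χ : A →* ℂˣ, ∀ m, K ≤ orderOf (χ (u m)) ∧
      |Complex.arg ((χ (u m) : ℂˣ) : ℂ)| * (4 * K) < 2 * Real.pi := by
  classical
  obtain ⟨ψ, hψ⟩ := lam_big u E K₂ hE hME
  have hpi := Real.pi_pos
  have h4K : 0 < 4 * K := by omega
  have hbox : ∀ t : ℝ, ⌊Int.fract t * ((4 * K : ℕ) : ℝ)⌋₊ < 4 * K := by
    intro t
    rw [Nat.floor_lt (by positivity)]
    have h1 := Int.fract_lt_one t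
    have h2 : (0 : ℝ) < ((4 * K : ℕ) : ℝ) := by exact_mod_cast h4K
    nlinarith
  have hpig := Fintype.exists_ne_map_eq_of_card_lt
    (fun (j : Fin ((4 * K) ^ M + 1)) (m : Fin M) =>
      (⟨_, hbox ((j : ℕ) * (Complex.arg ((ψ (u m) : ℂˣ) : ℂ) / (2 * Real.pi)))⟩ : Fin (4 * K)))
    (by rw [Fintype.card_fun, Fintype.card_fin, Fintype.card_fin, Fintype.card_fin]; omega)
  obtain ⟨j₁, j₂, hne, heq⟩ := hpig
  wlog hlt : (j₁ : ℕ) < j₂ generalizing j₁ j₂
  · refine this j₂ j₁ hne.symm heq.symm ?_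
    have : (j₁ : ℕ) ≠ j₂ := fun h => hne (Fin.ext h)
    omega
  refine ⟨ψ ^ ((j₂ : ℕ) - j₁), fun m => ⟨?_, ?_⟩⟩
  · rw [MonoidHom.pow_apply]
    refine lam_order_pow _ _ _ (by omega) ?_
    refine le_trans ?_ ((hK₂).trans (hψ m))
    exact Nat.mul_le_mul_left _ (by have := j₂.2; omega)
  · rw [MonoidHom.pow_apply, Units.val_pow_eq_pow_val]
    have hnorm : ‖((ψ (u m) : ℂˣ) : ℂ)‖ = 1 := by
      have hfo := (MonoidHom.isOfFinOrder ψ (isOfFinOrder_of_finite (u m)))
      refine Complex.norm_eq_one_of_pow_eq_one (n := orderOf (ψ (u m))) ?_ hfo.orderOf_pos.ne'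
      rw [← Units.val_pow_eq_pow_val, pow_orderOf_eq_one, Units.val_one]
    have h4 : (0 : ℝ) < 4 * (K : ℝ) := by exact_mod_cast h4K
    have h1 : |Int.fract (((j₂ : ℕ) : ℝ) * (Complex.arg ((ψ (u m) : ℂˣ) : ℂ) / (2 * Real.pi))) -
        Int.fract (((j₁ : ℕ) : ℝ) * (Complex.arg ((ψ (u m) : ℂˣ) : ℂ) / (2 * Real.pi)))| <
        1 / (4 * (K : ℝ)) := by
      have h2 := congrArg Fin.val (congrFun heq m)
      simp only at h2
      have h3 : ∀ t : ℝ, 0 ≤ Int.fract t * ((4 * K : ℕ) : ℝ) := fun t => by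
        have := Int.fract_nonneg t
        positivity
      have h5 := Nat.floor_le (h3 (((j₂ : ℕ) : ℝ) * (Complex.arg ((ψ (u m) : ℂˣ) : ℂ) / (2 * Real.pi))))
      have h6 := Nat.floor_le (h3 (((j₁ : ℕ) : ℝ) * (Complex.arg ((ψ (u m) : ℂˣ) : ℂ) / (2 * Real.pi))))
      have h7 := Nat.lt_floor_add_one (Int.fract (((j₂ : ℕ) : ℝ) * (Complex.arg ((ψ (u m) : ℂˣ) : ℂ) / (2 * Real.pi))) * ((4 * K : ℕ) : ℝ))
      have h8 := Nat.lt_floor_add_one (Int.fract (((j₁ : ℕ) : ℝ) * (Complex.arg ((ψ (u m) : ℂˣ) : ℂ) / (2 * Real.pi))) * ((4 * K : ℕ) : ℝ))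
      rw [← h2] at h5 h7
      push_cast at h5 h6 h7 h8
      rw [abs_lt, neg_lt, lt_div_iff₀ h4, lt_div_iff₀ h4]
      constructor <;> nlinarith
    have h9 := lam_arg hnorm j₁ j₂ hlt _ (by
      rw [div_le_div_iff₀ h4 (by norm_num)]
      have : (1 : ℝ) ≤ K := by exact_mod_cast hK
      linarith) h1
    calc _ < 2 * Real.pi * (1 / (4 * (K : ℝ))) * (4 * K) := mul_lt_mul_of_pos_right h9 h4
      _ = 2 * Real.pi := by field_simp

end Pool.Agent.CO30
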