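import Pool.Agent.CO30.F4

/-!
# The transfer to a central subgroup, elements of large order in abelian groups
-/

namespace Pool.Agent.CO30

/-- the transfer to a central subgroup is a power -/
theorem exists_pow_hom {C : Type} [Group C] [Finite C] (T : Subgroup C)
    (hT : ∀ t ∈ T, ∀ c, t * c = c * t) (e : ℕ) (he : T.index ∣ e) :
    ∃ f : C →* T, ∀ c, (f c : C) = c ^ e := by
  classical
  let _ : CommGroup T := { (inferInstance : Group T) with
    mul_comm := fun a b => Subtype.ext (hT a a.2 b) }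
  have key : ∀ (g : C) (k : ℕ) (g₀ : C), g₀⁻¹ * g ^ k * g₀ ∈ T → g₀⁻¹ * g ^ k * g₀ = g ^ k := by
    intro g k g₀ h
    have := hT _ h g₀⁻¹
    calc g₀⁻¹ * g ^ k * g₀ = g₀ * (g₀⁻¹ * (g₀⁻¹ * g ^ k * g₀)) := by group
      _ = g₀ * ((g₀⁻¹ * g ^ k * g₀) * g₀⁻¹) := by rw [this]
      _ = g ^ k := by group
  obtain ⟨m, rfl⟩ := he
  refine ⟨(powMonoidHom m).comp (MonoidHom.transfer (MonoidHom.id T)), fun c => ?_⟩
  rw [MonoidHom.comp_apply, powMonoidHom_apply, MonoidHom.transfer_eq_pow _ _ (key c),
    MonoidHom.id_apply, pow_mul]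
  rfl

/-- a subgroup with few generators and many elements has an element of large order: `f` a
homomorphism from a finitely generated abelian group -/
theorem exists_large {G : Type} [Group G] [Fintype G] (x : Fin 4 → G)
    (hx : Subgroup.closure (Set.range x) = ⊤) (T : Subgroup G) (b E : ℕ) (hT : T.index ≤ b)
    (hab : ∀ s ∈ T, ∀ t ∈ T, s * t = t * s) (f : T →* G)
    (hfT : ∀ t, f t ∈ T) (hcard : E ^ (4 * b) < Nat.card (Set.range f)) :
    ∃ t, E ≤ orderOf (f t) := by
  classical
  let _ : CommGroup T := { (inferInstance : Group T) with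
    mul_comm := fun a b => Subtype.ext (hab a a.2 b b.2) }
  let f' : T →* T := { toFun := fun t => ⟨f t, hfT t⟩, map_one' := Subtype.ext (map_one f), map_mul' := fun a b => Subtype.ext (map_mul f a b) }
  have hrankG : Group.rank G ≤ 4 := by
    have h := Group.rank_le (S := Finset.univ.image x) (by rw [Finset.coe_image, Finset.coe_univ, Set.image_univ]; exact hx)
    exact h.trans (Finset.card_image_le.trans (by simp))
  have hrankT : Group.rank T ≤ 4 * b := by
    refine (Subgroup.rank_le_index_mul_rank T).trans ?_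
    rw [mul_comm]
    exact Nat.mul_le_mul hrankG hT
  have hrank : Group.rank f'.range ≤ 4 * b := (Group.rank_range_le (f := f')).trans hrankT
  have hexp : Monoid.exponent f'.range ≠ 0 := Monoid.exponent_ne_zero_of_finite
  obtain ⟨a, ha⟩ := Monoid.exists_orderOf_eq_exponent (G := f'.range) (Monoid.exponent_ne_zero.1 hexp)
  obtain ⟨t, ht⟩ := a.2
  refine ⟨t, ?_⟩
  by_contra hlt
  push Not at hlt
  have h1 : orderOf (f t) = Monoid.exponent f'.range := by
    rw [← ha, ← Subgroup.orderOf_coe a, ← ht, ← Subgroup.orderOf_coe (f' t)]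
    rfl
  have h2 := card_dvd_exponent_pow_rank f'.range
  have h3 : Nat.card f'.range = Nat.card (Set.range f) := by
    apply Nat.card_congr
    exact
    { toFun := fun a => ⟨((a : T) : G), by obtain ⟨t, ht⟩ := a.2; exact ⟨t, by rw [← ht]; rfl⟩⟩
      invFun := fun a => ⟨⟨a, by obtain ⟨t, ht⟩ := a.2; rw [← ht]; exact hfT t⟩, by
        obtain ⟨t, ht⟩ := a.2
        exact ⟨t, Subtype.ext ht⟩⟩
      left_inv := fun a => rfl
      right_inv := fun a => rfl }
  rw [h3] at h2
  have h4 := Nat.le_of_dvd (Nat.pos_of_ne_zero (pow_ne_zero _ hexp)) h2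
  have h5 : Monoid.exponent f'.range ^ Group.rank f'.range ≤ E ^ (4 * b) := by
    refine (Nat.pow_le_pow_right (Nat.pos_of_ne_zero hexp) hrank).trans ?_
    exact Nat.pow_le_pow_left (by omega) _
  omega

end Pool.Agent.CO30
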