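import Pool.Agent.CO30.F4
import Pool.Agent.CO30.Gap
import Pool.Agent.CO30.Lam
import Pool.Agent.CO30.Lam2

/-!
# Existence of frames
-/

namespace Pool.Agent.CO30

open Matrix Finset Pool.Agent.CO75
open scoped IsMulCommutative


private theorem frm_order_pow {A : Type} [Group A] (a : A) (e E : ℕ) (he : 0 < e)
    (h : E * e ≤ orderOf a) : E ≤ orderOf (a ^ e) := by
  rw [orderOf_pow' a he.ne']
  have hg : 0 < Nat.gcd (orderOf a) e := Nat.gcd_pos_of_pos_right _ he
  rw [Nat.le_div_iff_mul_le hg]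
  exact le_trans (Nat.mul_le_mul_left _ (Nat.gcd_le_right _ he)) h

private theorem frm_char {A : Type} [CommGroup A] [Finite A] {ι : Type} [Fintype ι] (v : ι → A)
    (K M E : ℕ) (hK : 0 < K) (hM : Fintype.card ι ≤ M)
    (hE : M * (K * (4 * K) ^ M) ^ 2 < E) :
    ∃ χ : A →* ℂˣ, ∀ i, E ≤ orderOf (v i) → K ≤ orderOf (χ (v i)) ∧
      |Complex.arg ((χ (v i) : ℂˣ) : ℂ)| * (4 * K) < 2 * Real.pi := by
  classical
  have hc : Fintype.card {i : ι // E ≤ orderOf (v i)} ≤ M := (Fintype.card_subtype_le _).trans hM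
  obtain ⟨χ, hχ⟩ := exists_char
    (fun m => v ((Fintype.equivFin {i : ι // E ≤ orderOf (v i)}).symm m).1) E K
    (K * (4 * K) ^ M) hK (Nat.mul_le_mul_left _ (Nat.pow_le_pow_right (by omega) hc))
    (fun m => ((Fintype.equivFin {i : ι // E ≤ orderOf (v i)}).symm m).2)
    (lt_of_le_of_lt (Nat.mul_le_mul_right _ hc) hE)
  refine ⟨χ, fun i hi => ?_⟩
  have := hχ (Fintype.equivFin {i : ι // E ≤ orderOf (v i)} ⟨i, hi⟩)
  simpa only [Equiv.symm_apply_apply] using this

private theorem frm_core (b K Θ : ℕ) (hK : 0 < K)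
    (hΘ : ((6 * b * (K * (4 * K) ^ (6 * b)) ^ 2 + 1) * (2 * b.factorial)) ^ (4 * b) ≤ Θ)
    (hΘ' : (6 * b * (K * (4 * K) ^ (6 * b)) ^ 2 + 1) * (2 * b.factorial) ≤ Θ)
    {G : Type} [Group G] [Fintype G] (x : Fin 4 → G) (hx : Subgroup.closure (Set.range x) = ⊤)
    (T C : Subgroup G) [C.Normal] (hT : T.Normal) (hab : ∀ s ∈ T, ∀ t ∈ T, s * t = t * s)
    (hidx : T.index ≤ b) (hC : ∀ g, g ∈ C ↔ ∀ t ∈ T, g * t = t * g)
    (h1 : ∀ g, g ∉ C → Θ < Nat.card (Set.range fun t : T => g * t * g⁻¹ * (t : G)⁻¹))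
    (h2 : ∀ g, (∃ t ∈ T, g * t * g⁻¹ ≠ t⁻¹) →
      Θ < Nat.card (Set.range fun t : T => g * t * g⁻¹ * (t : G)))
    (h3 : ∀ i, orderOf (yC C x i) ≤ b ∨ Θ < orderOf (yC C x i))
    (hn : b * 3 ^ (4 * b) < Fintype.card G) :
    ∃ (α : C →* ℂˣ) (I : Set G) (Bd : Finset (Fin 4)),
      IsFrame x b K C T α I Bd ∧ (I = ∅ ∨ ∃ g₀, IsInv C α I g₀) := by
  classical
  set E := 6 * b * (K * (4 * K) ^ (6 * b)) ^ 2 + 1 with hEdef
  have hTC : T ≤ C := fun s hs => (hC s).2 fun t ht => hab s hs t ht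
  have hcen : ∀ t ∈ T, ∀ c ∈ C, t * c = c * t := fun t ht c hc => ((hC c).1 hc t ht).symm
  have hTpos : T.index ≠ 0 := Subgroup.index_ne_zero_of_finite
  have hfac : 0 < b.factorial := Nat.factorial_pos b
  have hb : 0 < b := lt_of_lt_of_le (Nat.pos_of_ne_zero hTpos) hidx
  have hrel : T.relIndex C * C.index = T.index := Subgroup.relIndex_mul_index hTC
  have hCidx : C.index ≤ b := by
    refine le_trans ?_ hidx
    exact Nat.le_of_dvd (Nat.pos_of_ne_zero hTpos) ⟨_, by rw [mul_comm]; exact hrel.symm⟩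
  have hdvd : (T.subgroupOf C).index ∣ b.factorial := by
    have h1 : T.relIndex C ∣ T.index := ⟨_, hrel.symm⟩
    exact dvd_trans h1 (Nat.dvd_factorial (Nat.pos_of_ne_zero hTpos) hidx)
  obtain ⟨f₁, hf₁⟩ := exists_pow_hom (T.subgroupOf C)
    (fun t ht c => Subtype.ext (hcen t (Subgroup.mem_subgroupOf.1 ht) c c.2)) b.factorial hdvd
  -- every `c ^ b!` is in `T`
  have hpow : ∀ c ∈ C, c ^ b.factorial ∈ T := by
    intro c hc
    have := (f₁ ⟨c, hc⟩).2
    rw [Subgroup.mem_subgroupOf, hf₁] at this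
    simpa using this
  -- the power map to the centre
  have hZ : ∀ t : C, (t : G) ∈ T → t ∈ Subgroup.center C := fun t ht => by
    rw [Subgroup.mem_center_iff]
    intro c
    exact Subtype.ext (hcen t ht c c.2).symm
  obtain ⟨f, hf⟩ : ∃ f : C →* Subgroup.center C, ∀ c, ((f c : Subgroup.center C) : C) =
      c ^ (2 * b.factorial) := by
    refine ⟨{ toFun := fun c => ⟨c ^ (2 * b.factorial), hZ _ ?_⟩, map_one' := ?_, map_mul' := ?_ },
      fun c => rfl⟩
    · have := T.pow_mem (hpow c c.2) 2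
      rw [← pow_mul, mul_comm] at this
      simpa using this
    · exact Subtype.ext (one_pow _)
    · intro c c'
      refine Subtype.ext ?_
      have h := congrArg (fun s : T.subgroupOf C => ((s : C)) ^ 2) (map_mul f₁ c c')
      have hcomm : Commute ((f₁ c : T.subgroupOf C) : C) ((f₁ c' : T.subgroupOf C) : C) :=
        Subtype.ext (hcen _ (f₁ c).2 _ (f₁ c' : C).2)
      simp only [Subgroup.coe_mul] at h
      rw [hcomm.mul_pow, hf₁, hf₁, hf₁, ← pow_mul, ← pow_mul, ← pow_mul, mul_comm _ 2] at h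
      exact h
  -- the choices of elements of large order
  have hE1 : ∀ g : G, ∃ t : C, (t : G) ∈ T ∧ (g ∉ C → E * (2 * b.factorial) ≤
      orderOf (MulAut.conjNormal g t * t⁻¹)) := by
    intro g
    by_cases hg : g ∈ C
    · exact ⟨1, T.one_mem, fun h => absurd hg h⟩
    · have hcard := lt_of_le_of_lt hΘ (h1 g hg)
      obtain ⟨t, ht⟩ := exists_large x hx T b (E * (2 * b.factorial)) hidx hab
        { toFun := fun t => g * t * g⁻¹ * (t : G)⁻¹
          map_one' := by simp
          map_mul' := by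
            intro s t
            have hs : g * s * g⁻¹ ∈ T := hT.conj_mem _ s.2 g
            have ht : g * t * g⁻¹ ∈ T := hT.conj_mem _ t.2 g
            have e1 : (s : G)⁻¹ * (g * t * g⁻¹) = (g * t * g⁻¹) * (s : G)⁻¹ :=
              hab _ (T.inv_mem s.2) _ ht
            have e2 : (s : G)⁻¹ * (t : G)⁻¹ = (t : G)⁻¹ * (s : G)⁻¹ :=
              hab _ (T.inv_mem s.2) _ (T.inv_mem t.2)
            calc g * ((s * t : T) : G) * g⁻¹ * ((s * t : T) : G)⁻¹
                = (g * s * g⁻¹) * (g * t * g⁻¹) * ((t : G)⁻¹ * (s : G)⁻¹) := by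
                  rw [Subgroup.coe_mul]; group
              _ = (g * s * g⁻¹) * ((g * t * g⁻¹) * (s : G)⁻¹) * (t : G)⁻¹ := by
                  rw [← e2]; group
              _ = g * s * g⁻¹ * (s : G)⁻¹ * (g * t * g⁻¹ * (t : G)⁻¹) := by
                  rw [← e1]; group }
        (fun t => T.mul_mem (hT.conj_mem _ t.2 g) (T.inv_mem t.2)) hcard
      refine ⟨⟨t, hTC t.2⟩, t.2, fun _ => ?_⟩
      rw [← Subgroup.orderOf_coe]
      exact ht
  have hE2 : ∀ g : G, ∃ t : C, (t : G) ∈ T ∧ ((∃ t ∈ T, g * t * g⁻¹ ≠ t⁻¹) →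
      E * (2 * b.factorial) ≤ orderOf (MulAut.conjNormal g t * t)) := by
    intro g
    by_cases hg : ∃ t ∈ T, g * t * g⁻¹ ≠ t⁻¹
    · have hcard := lt_of_le_of_lt hΘ (h2 g hg)
      obtain ⟨t, ht⟩ := exists_large x hx T b (E * (2 * b.factorial)) hidx hab
        { toFun := fun t => g * t * g⁻¹ * (t : G)
          map_one' := by simp
          map_mul' := by
            intro s t
            have ht : g * t * g⁻¹ ∈ T := hT.conj_mem _ t.2 g
            have e1 : (s : G) * (g * t * g⁻¹) = (g * t * g⁻¹) * (s : G) := hab _ s.2 _ ht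
            calc g * ((s * t : T) : G) * g⁻¹ * ((s * t : T) : G)
                = (g * s * g⁻¹) * ((g * t * g⁻¹) * (s : G)) * (t : G) := by
                  rw [Subgroup.coe_mul]; group
              _ = g * s * g⁻¹ * (s : G) * (g * t * g⁻¹ * (t : G)) := by
                  rw [← e1]; group }
        (fun t => T.mul_mem (hT.conj_mem _ t.2 g) t.2) hcard
      refine ⟨⟨t, hTC t.2⟩, t.2, fun _ => ?_⟩
      rw [← Subgroup.orderOf_coe]
      exact ht
    · exact ⟨1, T.one_mem, fun h => absurd h hg⟩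
  choose t₁ ht₁ ht₁' using hE1
  choose t₂ ht₂ ht₂' using hE2
  -- the order of `f c`
  have hford : ∀ c : C, E * (2 * b.factorial) ≤ orderOf c → E ≤ orderOf (f c) := by
    intro c hc
    rw [← Subgroup.orderOf_coe, hf]
    exact frm_order_pow c _ E (by positivity) hc
  -- the character
  let v : (G ⧸ C) × (Unit ⊕ Unit ⊕ Fin 4) → Subgroup.center C := fun p =>
    Sum.elim (fun _ => f (MulAut.conjNormal p.1.out (t₁ p.1.out) * (t₁ p.1.out)⁻¹))
      (Sum.elim (fun _ => f (MulAut.conjNormal p.1.out (t₂ p.1.out) * t₂ p.1.out))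
        fun i => f (yg C x i p.1.out)) p.2
  have hcardι : Fintype.card ((G ⧸ C) × (Unit ⊕ Unit ⊕ Fin 4)) ≤ 6 * b := by
    rw [Fintype.card_prod, Fintype.card_sum, Fintype.card_sum, Fintype.card_unit, Fintype.card_fin,
      ← Nat.card_eq_fintype_card, ← Subgroup.index_eq_card]
    omega
  obtain ⟨χ, hχ⟩ := frm_char v K (6 * b) E hK hcardι (by rw [hEdef]; exact Nat.lt_succ_self _)
  -- representatives
  have hcoset : ∀ g : G, ∃ c ∈ C, g = (QuotientGroup.mk g : G ⧸ C).out * c := by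
    intro g
    obtain ⟨h, hh⟩ := QuotientGroup.mk_out_eq_mul C g
    exact ⟨(h : G)⁻¹, C.inv_mem h.2, by rw [hh]; group⟩
  have hconjT : ∀ (g c : G), c ∈ C → ∀ t : C, (t : G) ∈ T →
      MulAut.conjNormal (g * c) t = MulAut.conjNormal g t := by
    intro g c hc t ht
    apply Subtype.ext
    rw [MulAut.conjNormal_apply, MulAut.conjNormal_apply]
    have := hcen _ ht c hc
    calc g * c * (t : G) * (g * c)⁻¹ = g * (c * (t : G)) * c⁻¹ * g⁻¹ := by group
      _ = g * (t : G) * g⁻¹ := by rw [← this]; group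
  have hfconj : ∀ (g c : G), c ∈ C → ∀ y : C,
      f (MulAut.conjNormal (g * c) y) = f (MulAut.conjNormal g y) := by
    intro g c hc y
    have : MulAut.conjNormal (g * c) y =
        MulAut.conjNormal g ⟨c, hc⟩ * MulAut.conjNormal g y * (MulAut.conjNormal g ⟨c, hc⟩)⁻¹ := by
      apply Subtype.ext
      simp only [Subgroup.coe_mul, Subgroup.coe_inv, MulAut.conjNormal_apply]
      group
    rw [this, map_mul, map_mul, map_inv, mul_comm (f (MulAut.conjNormal g ⟨c, hc⟩)),
      mul_inv_cancel_right]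
  have hlt : ∀ (z : ℂˣ) (j : ℕ), 0 < j → j < K → K ≤ orderOf z → z ^ j ≠ 1 := by
    intro z j hj hjK hz h1
    have := Nat.le_of_dvd hj (orderOf_dvd_of_pow_eq_one h1)
    omega
  refine ⟨χ.comp f, {g | ∀ t ∈ T, g * t * g⁻¹ = t⁻¹},
    univ.filter (fun i => orderOf (yC C x i) ≤ b), ?_, ?_⟩
  · refine ⟨hT, hTC, hcen, hidx, ?_, ?_, ?_, ?_⟩
    · -- sep
      intro g hg j hj hjK
      obtain ⟨c, hc, hgc⟩ := hcoset g
      set g' := (QuotientGroup.mk g : G ⧸ C).out with hg'
      have hg'C : g' ∉ C := fun h => hg (by rw [hgc]; exact C.mul_mem h hc)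
      refine ⟨t₁ g', ht₁ g', ?_⟩
      have hord := (hχ (QuotientGroup.mk g, Sum.inl ())
        (hford _ (ht₁' g' hg'C))).1
      have hne := hlt _ j hj hjK hord
      intro heq
      apply hne
      rw [hgc, hconjT g' c hc _ (ht₁ g')] at heq
      change χ (f (MulAut.conjNormal g' (t₁ g') * (t₁ g')⁻¹)) ^ j = 1
      rw [map_mul, map_inv, map_mul, map_inv, mul_pow, inv_pow]
      change χ (f _) ^ j = χ (f _) ^ j at heq
      rw [heq, mul_inv_cancel]
    · -- sepI
      intro g hg j hj hjK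
      obtain ⟨c, hc, hgc⟩ := hcoset g
      set g' := (QuotientGroup.mk g : G ⧸ C).out with hg'
      have hg'I : ∃ t ∈ T, g' * t * g'⁻¹ ≠ t⁻¹ := by
        by_contra hcon
        push Not at hcon
        apply hg
        intro t ht
        rw [← hcon t ht, hgc]
        have := hcen _ ht c hc
        calc g' * c * t * (g' * c)⁻¹ = g' * (c * t) * c⁻¹ * g'⁻¹ := by group
          _ = g' * t * g'⁻¹ := by rw [← this]; group
      refine ⟨t₂ g', ht₂ g', ?_⟩
      have hord := (hχ (QuotientGroup.mk g, Sum.inr (Sum.inl ()))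
        (hford _ (ht₂' g' hg'I))).1
      have hne := hlt _ j hj hjK hord
      intro heq
      apply hne
      rw [hgc, hconjT g' c hc _ (ht₂ g')] at heq
      change χ (f (MulAut.conjNormal g' (t₂ g') * (t₂ g'))) ^ j = 1
      rw [map_mul, map_mul]
      exact heq
    · -- bd
      intro i hi
      have hi' : orderOf (yC C x i) ≤ b := (mem_filter.1 hi).2
      refine ⟨hi', fun g => ?_⟩
      have h1 : f (yg C x i g) = 1 := by
        apply Subtype.ext
        rw [hf, yg, ← map_pow]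
        have : yC C x i ^ (2 * b.factorial) = 1 := by
          apply orderOf_dvd_iff_pow_eq_one.1
          exact dvd_mul_of_dvd_right (Nat.dvd_factorial (orderOf_pos _) hi') 2
        rw [this, map_one]
        rfl
      change χ (f _) = 1
      rw [h1, map_one]
    · -- ub
      intro i hi g
      have hi' : Θ < orderOf (yC C x i) := by
        rcases h3 i with h | h
        · exact absurd (mem_filter.2 ⟨mem_univ i, h⟩) hi
        · exact h
      obtain ⟨c, hc, hgc⟩ := hcoset g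
      set g' := (QuotientGroup.mk g : G ⧸ C).out with hg'
      have hfy : f (yg C x i g) = f (yg C x i g') := by
        rw [yg, yg, hgc, hfconj g' c hc]
      have hord : E ≤ orderOf (f (yg C x i g')) := by
        apply hford
        rw [yg, MulEquiv.orderOf_eq]
        omega
      have := hχ (QuotientGroup.mk g, Sum.inr (Sum.inr i)) hord
      change K ≤ orderOf (χ (f (yg C x i g))) ∧
        |Complex.arg ((χ (f (yg C x i g)) : ℂˣ) : ℂ)| * (4 * K) < 2 * Real.pi
      rw [hfy]
      exact this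
  · rcases Set.eq_empty_or_nonempty {g | ∀ t ∈ T, g * t * g⁻¹ = t⁻¹} with h | ⟨g₀, hg₀⟩
    · exact Or.inl h
    · refine Or.inr ⟨g₀, ?_⟩
      have hg₀' : ∀ t ∈ T, g₀ * t * g₀⁻¹ = t⁻¹ := hg₀
      have hg₀i : ∀ t ∈ T, g₀⁻¹ * t * g₀ = t⁻¹ := by
        intro t ht
        have h := hg₀' t⁻¹ (T.inv_mem ht)
        rw [inv_inv] at h
        calc g₀⁻¹ * t * g₀ = g₀⁻¹ * (g₀ * t⁻¹ * g₀⁻¹) * g₀ := by rw [h]
          _ = t⁻¹ := by group
      have hsq : g₀ ^ 2 ∈ C := by
        rw [hC]
        intro t ht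
        have h1 := hg₀' t ht
        have h2 := hg₀' t⁻¹ (T.inv_mem ht)
        rw [inv_inv] at h2
        calc g₀ ^ 2 * t = g₀ * (g₀ * t * g₀⁻¹) * g₀⁻¹ * g₀ ^ 2 := by rw [pow_two]; group
          _ = t * g₀ ^ 2 := by rw [h1, h2]
      refine ⟨?_, ?_, ?_, hsq, ?_⟩
      · -- not in `C`
        intro hmem
        have h2 : ∀ t ∈ T, t ^ 2 = 1 := by
          intro t ht
          have h1 := hg₀' t ht
          have h3 := hcen t ht g₀ hmem
          rw [← h3, mul_inv_cancel_right] at h1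
          rw [pow_two]
          nth_rewrite 1 [h1]
          exact inv_mul_cancel t
        have hcard : Nat.card T ≤ 3 ^ (4 * b) := by
          by_contra hlt
          push Not at hlt
          have hrange : Set.range (T.subtype : T → G) = (T : Set G) := by
            rw [Subgroup.coe_subtype]; exact Subtype.range_coe
          obtain ⟨t, ht⟩ := exists_large x hx T b 3 hidx hab T.subtype (fun t => t.2)
            (by rw [hrange]; exact hlt)
          have : orderOf (T.subtype t) ∣ 2 := orderOf_dvd_of_pow_eq_one (h2 _ t.2)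
          have := Nat.le_of_dvd (by norm_num) this
          omega
        have := Subgroup.card_mul_index T
        rw [Nat.card_eq_fintype_card (α := G)] at this
        have h4 : Nat.card T * T.index ≤ 3 ^ (4 * b) * b := Nat.mul_le_mul hcard hidx
        rw [this, mul_comm] at h4
        omega
      · -- the coset
        intro g
        constructor
        · intro hg
          rw [hC]
          intro t ht
          have h1 : g * t * g⁻¹ = t⁻¹ := hg t ht
          have h2 := hg₀i t⁻¹ (T.inv_mem ht)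
          rw [inv_inv] at h2
          calc g₀⁻¹ * g * t = g₀⁻¹ * (g * t * g⁻¹) * g₀ * (g₀⁻¹ * g) := by group
            _ = t * (g₀⁻¹ * g) := by rw [h1, h2]
        · intro hg t ht
          have h1 := (hC _).1 hg t ht
          calc g * t * g⁻¹ = g₀ * (g₀⁻¹ * g * t) * (g₀⁻¹ * g)⁻¹ * g₀⁻¹ := by group
            _ = g₀ * t * g₀⁻¹ := by rw [h1]; group
            _ = t⁻¹ := hg₀' t ht
      · -- inverts `α`
        intro c
        change χ (f _) = (χ (f c))⁻¹
        rw [← map_inv]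
        congr 1
        apply Subtype.ext
        rw [hf, ← map_pow, Subgroup.coe_inv, hf]
        apply Subtype.ext
        rw [MulAut.conjNormal_apply, Subgroup.coe_inv]
        apply hg₀'
        have := T.pow_mem (hpow c c.2) 2
        rw [← pow_mul, mul_comm] at this
        simpa using this
      · -- the square
        change χ (f _) = 1
        have : f ⟨g₀ ^ 2, hsq⟩ = 1 := by
          apply Subtype.ext
          rw [hf]
          apply Subtype.ext
          have h1 := hg₀' _ (hpow _ hsq)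
          have h2 : g₀ * (g₀ ^ 2) ^ b.factorial * g₀⁻¹ = (g₀ ^ 2) ^ b.factorial := by
            have : Commute g₀ ((g₀ ^ 2) ^ b.factorial) :=
              ((Commute.refl g₀).pow_right 2).pow_right _
            rw [this.eq, mul_inv_cancel_right]
          rw [h2] at h1
          have h3 : ((g₀ ^ 2) ^ b.factorial) ^ 2 = 1 := by
            rw [pow_two]
            nth_rewrite 1 [h1]
            exact inv_mul_cancel _
          rw [← pow_mul, mul_comm] at h3
          simpa using h3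
        rw [this, map_one]

private theorem frm_mono {G : Type} [Group G] [Fintype G] {x : Fin 4 → G} {b K K' : ℕ}
    (h : K ≤ K') {C : Subgroup G} [C.Normal] {T : Subgroup G} {α : C →* ℂˣ} {I : Set G}
    {Bd : Finset (Fin 4)} (hF : IsFrame x b K' C T α I Bd) : IsFrame x b K C T α I Bd where
  normal := hF.normal
  le := hF.le
  central := hF.central
  index_le := hF.index_le
  sep := fun g hg j hj hjK => hF.sep g hg j hj (lt_of_lt_of_le hjK h)
  sepI := fun g hg j hj hjK => hF.sepI g hg j hj (lt_of_lt_of_le hjK h)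
  bd := hF.bd
  ub := fun i hi g => ⟨h.trans (hF.ub i hi g).1, lt_of_le_of_lt
    (mul_le_mul_of_nonneg_left (by
      have : (K : ℝ) ≤ K' := by exact_mod_cast h
      linarith) (abs_nonneg _)) (hF.ub i hi g).2⟩

theorem exists_frame (B : ℕ) (Ψ : ℕ → ℕ) : ∃ n₀ : ℕ, ∀ (G : Type) [Group G] [Fintype G]
    (x : Fin 4 → G), Subgroup.closure (Set.range x) = ⊤ →
    (∃ T : Subgroup G, T.Normal ∧ (∀ a ∈ T, ∀ b ∈ T, a * b = b * a) ∧ T.index ≤ B) →
    n₀ < Fintype.card G →
    ∃ (b : ℕ) (C : Subgroup G) (_ : C.Normal) (T : Subgroup G) (α : C →* ℂˣ) (I : Set G)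
      (Bd : Finset (Fin 4)), IsFrame x b (Ψ b) C T α I Bd ∧ (I = ∅ ∨ ∃ g₀, IsInv C α I g₀) := by
  obtain ⟨bmax, hb⟩ := gap B fun b =>
    ((6 * b * ((Ψ b + 1) * (4 * (Ψ b + 1)) ^ (6 * b)) ^ 2 + 1) * (2 * b.factorial)) ^ (4 * b) +
    ((6 * b * ((Ψ b + 1) * (4 * (Ψ b + 1)) ^ (6 * b)) ^ 2 + 1) * (2 * b.factorial))
  refine ⟨bmax * 3 ^ (4 * bmax), fun G _ _ x hx hT₀ hn => ?_⟩
  obtain ⟨T₀, hT₀n, hT₀a, hT₀i⟩ := hT₀
  obtain ⟨b, T, C, hCn, hbm, -, hTn, hTT₀, hTi, hC, h1, h2, h3⟩ := hb G x T₀ hT₀n hT₀a hT₀i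
  have hnb : b * 3 ^ (4 * b) < Fintype.card G :=
    lt_of_le_of_lt (Nat.mul_le_mul hbm (Nat.pow_le_pow_right (by norm_num)
      (Nat.mul_le_mul_left _ hbm))) hn
  obtain ⟨α, I, Bd, hF, hI⟩ := frm_core b (Ψ b + 1) _ (Nat.succ_pos _) (Nat.le_add_right _ _)
    (Nat.le_add_left _ _) x hx T C hTn (fun s hs t ht => hT₀a s (hTT₀ hs) t (hTT₀ ht)) hTi hC
    h1 h2 h3 hnb
  exact ⟨b, C, hCn, T, α, I, Bd, frm_mono (Nat.le_succ _) hF, hI⟩

end Pool.Agent.CO30
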