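import Pool.Agent.CO30.Step

/-!
# Genus 0, one point with positive (or negative) angle
-/

namespace Pool.Agent.CO30

open Matrix Finset Pool.Agent.CO75

theorem jump_const (d m : ℝ) (hm : d < m) (K s P : ℕ) (hP : 0 < P) (hs : s + 1 < K) (F : ℤ → ℝ)
    (hper : ∀ k, F (k + P) = F k) (hinc : ∀ k l : ℤ, k ≤ l → l ≤ k + K → F l - F k ≤ d)
    (hgood : ∀ k₀ : ℤ, ((Finset.Ico k₀ (k₀ + K)).filter fun k => ¬ (F k = d ∨ F k = d + m)).card ≤ s) :
    (∀ k, F k = d ∨ F k = d + m → F k = d) ∨ (∀ k, F k = d ∨ F k = d + m → F k = d + m) := by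
  classical
  by_contra hcon
  push Not at hcon
  obtain ⟨⟨k₂, hk₂, hk₂'⟩, ⟨k₁, hk₁, hk₁'⟩⟩ := hcon
  have h1 : F k₁ = d := hk₁.resolve_right hk₁'
  have h2 : F k₂ = d + m := hk₂.resolve_left hk₂'
  -- move `k₂` to the right
  have hmul : ∀ (N : ℕ) (k : ℤ), F (k + N * P) = F k := by
    intro N
    induction N with
    | zero => intro k; simp
    | succ N ih =>
      intro k
      have : k + ((N + 1 : ℕ) : ℤ) * P = (k + P) + N * P := by push_cast; ring
      rw [this, ih, hper]
  obtain ⟨k₃, hk₃, h3⟩ : ∃ k₃, k₁ < k₃ ∧ F k₃ = d + m := by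
    refine ⟨k₂ + ((k₁ - k₂).toNat + 1 : ℕ) * P, ?_, by rw [hmul, h2]⟩
    have h4 : (k₁ - k₂) ≤ ((k₁ - k₂).toNat : ℤ) := Int.self_le_toNat _
    have h5 : (1 : ℤ) ≤ P := by exact_mod_cast hP
    push_cast
    nlinarith [Int.natCast_nonneg (k₁ - k₂).toNat]
  -- the last place before `k₃` with value `d`
  set A := (Finset.Ico k₁ k₃).filter fun k => F k = d with hA
  have hAne : A.Nonempty := ⟨k₁, by
    rw [hA, Finset.mem_filter, Finset.mem_Ico]
    exact ⟨⟨le_refl _, hk₃⟩, h1⟩⟩
  set k₄ := A.max' hAne with hk₄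
  have hk₄A : k₄ ∈ A := Finset.max'_mem _ _
  rw [hA, Finset.mem_filter, Finset.mem_Ico] at hk₄A
  -- the next good place
  obtain ⟨k₅, h5a, h5b, h5c⟩ : ∃ k₅, k₄ + 1 ≤ k₅ ∧ k₅ < k₄ + 1 + (s + 1) ∧ (F k₅ = d ∨ F k₅ = d + m) := by
    by_contra hcon
    push Not at hcon
    have h6 : Finset.Ico (k₄ + 1) (k₄ + 1 + (s + 1)) ⊆
        (Finset.Ico (k₄ + 1) (k₄ + 1 + K)).filter fun k => ¬ (F k = d ∨ F k = d + m) := by
      intro k hk
      rw [Finset.mem_Ico] at hk
      rw [Finset.mem_filter, Finset.mem_Ico]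
      refine ⟨⟨hk.1, by omega⟩, ?_⟩
      have := hcon k hk.1 hk.2
      rintro (h | h)
      · exact this.1 h
      · exact this.2 h
    have h7 := Finset.card_le_card h6
    rw [Int.card_Ico] at h7
    have h8 := hgood (k₄ + 1)
    omega
  rcases h5c with h6 | h6
  · rcases lt_or_ge k₅ k₃ with h7 | h7
    · have h8 : k₅ ∈ A := by
        rw [hA, Finset.mem_filter, Finset.mem_Ico]
        exact ⟨⟨by omega, h7⟩, h6⟩
      have := Finset.le_max' A k₅ h8
      rw [← hk₄] at this
      omega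
    · have h8 := hinc k₄ k₃ (by omega) (by omega)
      rw [h3, hk₄A.2] at h8
      linarith
  · have h8 := hinc k₄ k₅ (by omega) (by omega)
    rw [h6, hk₄A.2] at h8
    linarith

private theorem jmp_count (P : ℤ → Prop) [DecidablePred P] (K s : ℕ) (hK : 0 < K)
    (h : ∀ k₀ : ℤ, ((Finset.Ico k₀ (k₀ + K)).filter fun k => P k).card ≤ s) (n : ℕ) :
    ((range n).filter fun k : ℕ => P (k : ℤ)).card ≤ (n / K + 1) * s := by
  classical
  have h1 : ((range n).filter fun k : ℕ => P (k : ℤ)).map ⟨fun k : ℕ => (k : ℤ), fun a b h => by simpa using h⟩ ⊆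
      (range (n / K + 1)).biUnion fun i : ℕ =>
        (Finset.Ico ((i * K : ℕ) : ℤ) (((i * K : ℕ) : ℤ) + K)).filter fun k => P k := by
    intro k hk
    rw [Finset.mem_map] at hk
    obtain ⟨a, ha, rfl⟩ := hk
    rw [Finset.mem_filter, Finset.mem_range] at ha
    rw [Finset.mem_biUnion]
    refine ⟨a / K, ?_, ?_⟩
    · rw [Finset.mem_range]
      exact Nat.lt_succ_of_le (Nat.div_le_div_right ha.1.le)
    · rw [Finset.mem_filter, Finset.mem_Ico]
      refine ⟨⟨?_, ?_⟩, ha.2⟩
      · change ((a / K * K : ℕ) : ℤ) ≤ (a : ℤ)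
        exact_mod_cast Nat.div_mul_le_self a K
      · change (a : ℤ) < ((a / K * K : ℕ) : ℤ) + K
        have := Nat.lt_div_mul_add (a := a) hK
        exact_mod_cast this
  have h2 := Finset.card_le_card h1
  rw [Finset.card_map] at h2
  refine h2.trans (Finset.card_biUnion_le.trans ?_)
  refine (Finset.sum_le_sum fun i _ => h _).trans ?_
  rw [Finset.sum_const, Finset.card_range, smul_eq_mul]

private theorem jmp_core (b d J P K s : ℕ) (hb : 0 < b) (mB c c' : ℝ) (F : ℤ → ℝ) (hd : 0 < d) (hdb : d ≤ b)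
    (hJ2 : 2 ≤ J) (hJb : J ≤ 4 * b) (hKP : K ≤ P) (hs : s + 1 < K)
    (hK : (2 * b + 8 * s * b) * (b ^ 3 + 2) < K)
    (hper : ∀ k, F (k + P) = F k) (hinc : ∀ k l : ℤ, k ≤ l → l ≤ k + K → F l - F k ≤ d)
    (hgood : ∀ k₀ : ℤ, (open Classical in ((Finset.Ico k₀ (k₀ + K)).filter fun k : ℤ =>
      ¬ (F k = d ∨ F k = d + ((d : ℝ) * J + mB - 2 * d))).card) ≤ s)
    (hF : ∀ k, 0 ≤ F k ∧ F k ≤ 4 * b * d)
    (hc : c = 0 ∧ mB = 0 ∨ 1 / (b : ℝ) ^ 2 ≤ c) (hc' : c' = 0 ∧ mB = 0 ∨ 1 / (b : ℝ) ^ 2 ≤ c')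
    (hcc : c + c' = mB)
    (havg : |∑ k ∈ range P, F k - P * (c + d * J / 2)| ≤ P * (d * J / (2 * K))) :
    (d : ℝ) * J + mB - 2 * d ≤ d := by
  classical
  by_contra hcon
  push Not at hcon
  set m : ℝ := (d : ℝ) * J + mB - 2 * d with hm
  have hK0 : 0 < K := by omega
  have hP0 : 0 < P := by omega
  have hKr : (0 : ℝ) < K := by exact_mod_cast hK0
  have hPr : (0 : ℝ) < P := by exact_mod_cast hP0
  have hdr : (0 : ℝ) < d := by exact_mod_cast hd
  have hbr : (0 : ℝ) < b := by exact_mod_cast hb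
  have hdbr : (d : ℝ) ≤ b := by exact_mod_cast hdb
  have hJr : (2 : ℝ) ≤ J := by exact_mod_cast hJ2
  have hJbr : (J : ℝ) ≤ 4 * b := by exact_mod_cast hJb
  have hgood' : ∀ k₀ : ℤ, ((Finset.Ico k₀ (k₀ + K)).filter fun k => ¬ (F k = d ∨ F k = d + m)).card ≤ s := by
    intro k₀
    convert hgood k₀
  have hconst := jump_const d m hcon K s P hP0 hs F hper hinc hgood'
  -- the number of bad places in a period
  set bad := (range P).filter fun k : ℕ => ¬ (F k = d ∨ F k = d + m) with hbad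
  have hbadc : (bad.card : ℝ) ≤ 2 * P / K * s := by
    have h1 := jmp_count (fun k => ¬ (F k = d ∨ F k = d + m)) K s hK0 hgood' P
    have h2 : (bad.card : ℝ) ≤ (((P / K : ℕ) : ℝ) + 1) * s := by exact_mod_cast h1
    have h3 : ((P / K : ℕ) : ℝ) ≤ (P : ℝ) / K := Nat.cast_div_le
    have h4 : (1 : ℝ) ≤ (P : ℝ) / K := by
      rw [le_div_iff₀ hKr, one_mul]
      exact_mod_cast hKP
    have h5 : (0 : ℝ) ≤ s := Nat.cast_nonneg _
    calc (bad.card : ℝ) ≤ (((P / K : ℕ) : ℝ) + 1) * s := h2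
      _ ≤ (2 * ((P : ℝ) / K)) * s := by
          apply mul_le_mul_of_nonneg_right _ h5
          linarith
      _ = _ := by ring
  have hb0 : (0 : ℝ) ≤ bad.card := Nat.cast_nonneg _
  have hsnn : (0 : ℝ) ≤ s := Nat.cast_nonneg _
  set η : ℝ := (2 * b + 8 * s * b) / K with hη
  have hη0 : 0 ≤ η := by positivity
  have hKr' : ((2 : ℝ) * b + 8 * s * b) * (b ^ 3 + 2) < K := by exact_mod_cast hK
  have hη1 : η * (b ^ 3 + 2) < 1 := by
    rw [hη, div_mul_eq_mul_div, div_lt_one hKr]
    exact hKr'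
  have hb1 : (1 : ℝ) ≤ b := by exact_mod_cast hb
  have hb3 : (0 : ℝ) < (b : ℝ) ^ 3 := by positivity
  have hη2 : η < 1 / 2 := by nlinarith
  have hη3 : (d : ℝ) * η < 1 / (b : ℝ) ^ 2 := by
    rw [lt_div_iff₀ (by positivity)]
    have h1 : (d : ℝ) * η * (b : ℝ) ^ 2 ≤ η * (b : ℝ) ^ 3 := by
      have : (d : ℝ) * η * (b : ℝ) ^ 2 ≤ b * η * (b : ℝ) ^ 2 := by
        apply mul_le_mul_of_nonneg_right _ (by positivity)
        apply mul_le_mul_of_nonneg_right hdbr hη0
      nlinarith
    nlinarith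
  have herr : (d : ℝ) * J / (2 * K) + 2 / K * s * (4 * b * d) ≤ d * η := by
    have h1 : (d : ℝ) * J / (2 * K) ≤ d * (4 * b) / (2 * K) := by
      apply div_le_div_of_nonneg_right _ (by positivity)
      apply mul_le_mul_of_nonneg_left hJbr hdr.le
    have h2 : (d : ℝ) * (4 * b) / (2 * K) + 2 / K * s * (4 * b * d) = d * η := by
      rw [hη]
      field_simp
      ring
    linarith
  -- the main inequality
  have hfin : ∀ e : ℝ, (e = 0 ∧ mB = 0 ∨ 1 / (b : ℝ) ^ 2 ≤ e) → e + d * J / 2 ≤ d + d * η → False := by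
    intro e he hle
    have he0 : 0 ≤ e := by
      rcases he with h | h
      · rw [h.1]
      · have : 0 < 1 / (b : ℝ) ^ 2 := by positivity
        linarith
    rcases Nat.lt_or_ge J 3 with h3 | h3
    · have hJ' : J = 2 := by omega
      rw [hJ'] at hle
      push_cast at hle
      rcases he with h | h
      · rw [hm, h.2, hJ'] at hcon
        push_cast at hcon
        linarith
      · linarith
    · have h3' : (3 : ℝ) ≤ J := by exact_mod_cast h3
      have h4 : (d : ℝ) * 3 ≤ d * J := mul_le_mul_of_nonneg_left h3' hdr.le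
      nlinarith
  rw [abs_le] at havg
  have hsplit : ∑ k ∈ range P, F k = ∑ k ∈ bad, F k + ∑ k ∈ (range P).filter (fun k : ℕ => (F k = d ∨ F k = d + m)), F k := by
    rw [hbad, add_comm]
    exact (Finset.sum_filter_add_sum_filter_not _ _ _).symm
  have hcardg : (((range P).filter (fun k : ℕ => (F k = d ∨ F k = d + m))).card : ℝ) = P - bad.card := by
    have h1 := Finset.card_filter_add_card_filter_not (s := range P) (fun k : ℕ => (F k = d ∨ F k = d + m))
    rw [Finset.card_range] at h1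
    have h2 : ((((range P).filter (fun k : ℕ => (F k = d ∨ F k = d + m))).card + bad.card : ℕ) : ℝ) = P := by
      exact_mod_cast h1
    push_cast at h2
    linarith
  rcases hconst with hall | hall
  · -- the value is `d`
    have h1 : ∑ k ∈ range P, F k ≤ d * P + bad.card * (4 * b * d) := by
      rw [hsplit]
      have h2 : ∑ k ∈ bad, F k ≤ bad.card * (4 * b * d) := by
        rw [← nsmul_eq_mul]
        exact Finset.sum_le_card_nsmul _ _ _ fun k _ => (hF k).2
      have h3 : ∑ k ∈ (range P).filter (fun k : ℕ => (F k = d ∨ F k = d + m)), F k =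
          (P - bad.card) * d := by
        rw [← hcardg, ← nsmul_eq_mul, ← Finset.sum_const]
        refine Finset.sum_congr rfl fun k hk => hall k (Finset.mem_filter.1 hk).2
      rw [h3]
      nlinarith
    have h2 : P * (c + d * J / 2) ≤ d * P + P * (d * J / (2 * K)) + 2 * P / K * s * (4 * b * d) := by
      have h3 : (bad.card : ℝ) * (4 * b * d) ≤ 2 * P / K * s * (4 * b * d) :=
        mul_le_mul_of_nonneg_right hbadc (by positivity)
      linarith [havg.1]
    refine hfin c hc ?_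
    have h3 : (P : ℝ) * (c + d * J / 2) ≤ P * (d + (d * J / (2 * K) + 2 / K * s * (4 * b * d))) := by
      calc (P : ℝ) * (c + d * J / 2) ≤ _ := h2
        _ = _ := by ring
    have h4 := le_of_mul_le_mul_left h3 hPr
    linarith
  · -- the value is `d + m`
    have hmle : d + m ≤ 4 * b * d := by
      -- there is a good place
      have h1 : 0 < ((range P).filter (fun k : ℕ => (F k = d ∨ F k = d + m))).card := by
        by_contra h0
        have h0' : ((range P).filter (fun k : ℕ => (F k = d ∨ F k = d + m))).card = 0 := by omega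
        rw [h0'] at hcardg
        push_cast at hcardg
        have h2 : (P : ℝ) ≤ 2 * P / K * s := by linarith
        have h3 : (2 : ℝ) * s < K := by
          have : (2 : ℝ) * s ≤ (2 * b + 8 * s * b) * (b ^ 3 + 2) := by nlinarith [mul_nonneg hsnn hbr.le]
          linarith
        have h4 : 2 * P / K * s < (P : ℝ) := by
          rw [div_mul_eq_mul_div, div_lt_iff₀ hKr]
          nlinarith
        linarith
      rw [Finset.card_pos] at h1
      obtain ⟨k, hk⟩ := h1
      have h2 := hall k (Finset.mem_filter.1 hk).2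
      rw [← h2]
      exact (hF k).2
    have hm0 : 0 ≤ d + m := by linarith
    have h1 : (d + m) * P - bad.card * (4 * b * d) ≤ ∑ k ∈ range P, F k := by
      rw [hsplit]
      have h2 : 0 ≤ ∑ k ∈ bad, F k := Finset.sum_nonneg fun k _ => (hF k).1
      have h3 : ∑ k ∈ (range P).filter (fun k : ℕ => (F k = d ∨ F k = d + m)), F k =
          (P - bad.card) * (d + m) := by
        rw [← hcardg, ← nsmul_eq_mul, ← Finset.sum_const]
        refine Finset.sum_congr rfl fun k hk => hall k (Finset.mem_filter.1 hk).2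
      rw [h3]
      nlinarith
    have h2 : (d + m) * P ≤ P * (c + d * J / 2) + P * (d * J / (2 * K)) + 2 * P / K * s * (4 * b * d) := by
      have h3 : (bad.card : ℝ) * (4 * b * d) ≤ 2 * P / K * s * (4 * b * d) :=
        mul_le_mul_of_nonneg_right hbadc (by positivity)
      linarith [havg.2]
    refine hfin c' hc' ?_
    have h3 : (P : ℝ) * (d + m) ≤ P * (c + d * J / 2 + (d * J / (2 * K) + 2 / K * s * (4 * b * d))) := by
      calc (P : ℝ) * (d + m) = (d + m) * P := by ring
        _ ≤ _ := h2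
        _ = _ := by ring
    have h4 := le_of_mul_le_mul_left h3 hPr
    rw [hm] at h4
    linarith

theorem jump_main (b : ℕ) : ∃ K₀ : ℕ, ∀ K, K₀ ≤ K → ∀ (G : Type) [Group G] [Fintype G]
    (x : Fin 4 → G) (C : Subgroup G) [C.Normal] (T : Subgroup G) (α : C →* ℂˣ) (I : Set G)
    (Bd : Finset (Fin 4)) (_ : IsFrame x b K C T α I Bd) (_ : IsGenVec x)
    (_ : nup C x Bd α = 1 ∨ num C x Bd α = 1) (d : ℕ)
    (R : C →* Matrix (Fin d) (Fin d) ℂ) (_ : Irr R)
    (_ : ∀ k₀ : ℤ, (open Classical in ((Finset.Ico k₀ (k₀ + K)).filter fun k : ℤ =>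
      ¬ (Fa C x (twk R α k) + Fb C x (twk R α k) = d * Ja C x Bd + mB C x Bd R ∧
        (Fa C x (twk R α k) = d ∨ Fb C x (twk R α k) = d))).card) ≤ 4 * b ^ 2 + 4 * b),
    (d : ℝ) * Ja C x Bd + mB C x Bd R - 2 * d ≤ d := by
  refine ⟨(2 * b + 8 * (4 * b ^ 2 + 4 * b) * b) * (b ^ 3 + 2) + (4 * b ^ 2 + 4 * b) + b + 3, ?_⟩
  intro K hK G _ _ x C _ T α I Bd hF hx hnn d R hR hwin
  classical
  have : Fintype C := Fintype.ofFinite C
  have hKb : b < K := by omega
  have hK1 : 1 < K := by omega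
  have hTpos : 0 < T.index := Nat.pos_of_ne_zero T.index_ne_zero_of_finite
  have hb : 0 < b := lt_of_lt_of_le hTpos hF.index_le
  have hqb : C.index ≤ b :=
    (Nat.le_of_dvd hTpos (Subgroup.index_dvd_of_le hF.le)).trans hF.index_le
  have hdb : d ≤ b := by
    have h1 : d ^ 2 ≤ (T.subgroupOf C).index := by
      refine sq_le_index hR _ ?_
      intro t ht h
      apply Subtype.ext
      exact hF.central t (Subgroup.mem_subgroupOf.1 ht) h h.2
    have h2 : (T.subgroupOf C).index ≤ T.index := by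
      have := Subgroup.relIndex_mul_index hF.le
      have h3 : T.relIndex C ∣ T.index := ⟨_, this.symm⟩
      exact Nat.le_of_dvd hTpos h3
    have h3 : d ^ 2 ≤ b := h1.trans (h2.trans hF.index_le)
    have hd := hR.1
    nlinarith
  obtain ⟨p, m, hp, hm, hJ, hpm⟩ := nup_num x b K C T α I Bd hF hx hKb hK1
  have hBd : Bd ≠ univ := by
    rintro rfl
    rcases hnn with h | h
    · unfold nup pts at h
      simp at h
    · unfold num pts at h
      simp at h
  obtain ⟨hp1, hm1⟩ := hpm hBd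
  have hKP : K ≤ Fintype.card C := K_le_card x b K C T α I Bd hF hBd
  obtain ⟨cA, cB, hcc, hcA, hcB, -, havA, havB⟩ := F_avg x b K C T α I Bd hF hK1 R
  have hJ' : Ja C x Bd = ((p + m : ℕ) : ℝ) := by rw [hJ]; push_cast; ring
  have hJb : p + m ≤ 4 * b := by
    have h1 : Ja C x Bd ≤ 4 * C.index := by
      unfold Ja
      calc ∑ i ∈ Bdᶜ, (C.index : ℝ) / (oC C x i : ℝ) ≤ ∑ i ∈ Bdᶜ, (C.index : ℝ) := by
            refine Finset.sum_le_sum fun i _ => ?_
            have h2 : (1 : ℝ) ≤ (oC C x i : ℝ) := by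
              have h3 : 0 < oC C x i := orderOf_pos _
              exact_mod_cast h3
            exact div_le_self (Nat.cast_nonneg _) h2
        _ ≤ ∑ i : Fin 4, (C.index : ℝ) := Finset.sum_le_sum_of_subset_of_nonneg
            (Finset.subset_univ _) fun i _ _ => Nat.cast_nonneg _
        _ = _ := by rw [Finset.sum_const, Finset.card_univ, Fintype.card_fin]; norm_num
    rw [hJ'] at h1
    have h3 : p + m ≤ 4 * C.index := by exact_mod_cast h1
    omega
  have hbound : ∀ k, (0 ≤ Fa C x (twk R α k) ∧ Fa C x (twk R α k) ≤ 4 * b * d) ∧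
      (0 ≤ Fb C x (twk R α k) ∧ Fb C x (twk R α k) ≤ 4 * b * d) := by
    intro k
    obtain ⟨h1, h2, h3, h4⟩ := F_bound x C (twk R α k)
    have h5 : (4 : ℝ) * C.index * d ≤ 4 * b * d := by
      apply mul_le_mul_of_nonneg_right _ (Nat.cast_nonneg _)
      have : (C.index : ℝ) ≤ b := by exact_mod_cast hqb
      linarith
    exact ⟨⟨h1, h2.trans h5⟩, ⟨h3, h4.trans h5⟩⟩
  rw [hJ'] at hwin havA havB ⊢
  rcases hnn with h | h
  · refine jmp_core b d (p + m) (Fintype.card C) K (4 * b ^ 2 + 4 * b) hb _ cA cB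
      (fun k => Fa C x (twk R α k)) hR.1 hdb (by omega) hJb hKP (by omega) (by omega)
      (fun k => (F_period x C α R k).1) ?_ ?_ (fun k => (hbound k).1) hcA hcB hcc havA
    · intro k l hkl hlk
      have := (F_step x b K C T α I Bd hF hx hKb hK1 R k l hkl hlk).1
      rw [h, mul_one] at this
      exact this
    · intro k₀
      refine le_trans (Finset.card_le_card ?_) (hwin k₀)
      intro k hk
      rw [Finset.mem_filter] at hk ⊢
      refine ⟨hk.1, fun hg => hk.2 ?_⟩
      rcases hg.2 with h3 | h3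
      · exact Or.inl h3
      · right
        have := hg.1
        rw [h3] at this
        push_cast at this ⊢
        linarith
  · refine jmp_core b d (p + m) (Fintype.card C) K (4 * b ^ 2 + 4 * b) hb _ cB cA
      (fun k => Fb C x (twk R α k)) hR.1 hdb (by omega) hJb hKP (by omega) (by omega)
      (fun k => (F_period x C α R k).2) ?_ ?_ (fun k => (hbound k).2) hcB hcA (by rw [← hcc]; ring) havB
    · intro k l hkl hlk
      have := (F_step x b K C T α I Bd hF hx hKb hK1 R k l hkl hlk).2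
      rw [h, mul_one] at this
      exact this
    · intro k₀
      refine le_trans (Finset.card_le_card ?_) (hwin k₀)
      intro k hk
      rw [Finset.mem_filter] at hk ⊢
      refine ⟨hk.1, fun hg => hk.2 ?_⟩
      rcases hg.2 with h3 | h3
      · right
        have := hg.1
        rw [h3] at this
        push_cast at this ⊢
        linarith
      · exact Or.inl h3

end Pool.Agent.CO30
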