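import Pool.Agent.CO30.Rp

/-!
# Sums over all representations and arithmetic
-/

namespace Pool.Agent.CO30

open Matrix Finset Pool.Agent.CO75

section SUM
variable {G : Type} [Group G] [Fintype G]

/-- the sum of the dimensions of the fixed spaces -/
private theorem sm_sum_fx {H : Type} [Group H] [Fintype H] (W : Wedd H) (y : H) :
    ∑ j, (W.d j : ℝ) * (fx (W.R j y) : ℝ) = (Fintype.card H : ℝ) / (orderOf y : ℝ) := by
  have h1 : (∑ j, (W.d j : ℂ) * (fx (W.R j y) : ℂ)) = (Fintype.card H : ℂ) / (orderOf y : ℂ) := by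
    have h2 : ∀ j, (W.d j : ℂ) * (fx (W.R j y) : ℂ) =
        1 / (orderOf y : ℂ) * ∑ s ∈ range (orderOf y), (W.d j : ℂ) * (W.R j (y ^ s)).trace := by
      intro j
      rw [fx_eq, ← Finset.mul_sum]
      ring
    rw [Finset.sum_congr rfl fun j _ => h2 j, ← Finset.mul_sum, Finset.sum_comm]
    have h3 : ∀ s ∈ range (orderOf y), (∑ j, (W.d j : ℂ) * (W.R j (y ^ s)).trace) =
        if s = 0 then (Fintype.card H : ℂ) else 0 := by
      intro s hs
      rw [W.col]
      rw [Finset.mem_range] at hs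
      by_cases h0 : s = 0
      · rw [if_pos h0, if_pos (by rw [h0, pow_zero])]
      · rw [if_neg h0, if_neg]
        intro h4
        exact absurd (Nat.le_of_dvd (by omega) (orderOf_dvd_of_pow_eq_one h4)) (by omega)
    rw [Finset.sum_congr rfl h3, Finset.sum_ite_eq', if_pos (Finset.mem_range.2 (orderOf_pos y))]
    ring
  have h2 := congrArg Complex.re h1
  rw [Complex.re_sum] at h2
  have h3 : ∀ j, ((W.d j : ℂ) * (fx (W.R j y) : ℂ)).re = (W.d j : ℝ) * (fx (W.R j y) : ℝ) := by
    intro j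
    norm_cast
  have h4 : ((Fintype.card H : ℂ) / (orderOf y : ℂ)).re =
      (Fintype.card H : ℝ) / (orderOf y : ℝ) := by
    have : ((Fintype.card H : ℂ) / (orderOf y : ℂ)) =
        (((Fintype.card H : ℝ) / (orderOf y : ℝ) : ℝ) : ℂ) := by push_cast; rfl
    rw [this, Complex.ofReal_re]
  rw [h4, Finset.sum_congr rfl fun j _ => h3 j] at h2
  exact h2

theorem sum_mB (x : Fin 4 → G) (C : Subgroup G) [C.Normal] [Fintype C] (WC : Wedd C)
    (Bd : Finset (Fin 4)) :
    ∑ j, (WC.d j : ℝ) * mB C x Bd (WC.R j) = (Fintype.card C : ℝ) *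
      ∑ i ∈ Bd, (C.index : ℝ) / (oC C x i : ℝ) * (1 - 1 / (orderOf (yC C x i) : ℝ)) := by
  have hcard : (Nat.card C : ℝ) = (Fintype.card C : ℝ) := by rw [Nat.card_eq_fintype_card]
  have hC0 : (0 : ℝ) < (Fintype.card C : ℝ) := by exact_mod_cast (Fintype.card_pos (α := C))
  have hG : (Fintype.card G : ℝ) = (Fintype.card C : ℝ) * (C.index : ℝ) := by
    have h := C.card_mul_index
    rw [Nat.card_eq_fintype_card, Nat.card_eq_fintype_card] at h
    exact_mod_cast h.symm
  have hsq : (∑ j, (WC.d j : ℝ) * (WC.d j : ℝ)) = (Fintype.card C : ℝ) := by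
    have h := WC.sum_sq
    have h2 : ((∑ j, (WC.d j) ^ 2 : ℕ) : ℝ) = (Fintype.card C : ℝ) := by rw [h]
    push_cast at h2
    rw [← h2]
    exact Finset.sum_congr rfl fun j _ => by ring
  have hord : ∀ i g, orderOf (yg C x i g) = orderOf (yC C x i) := by
    intro i g
    exact MulEquiv.orderOf_eq (MulAut.conjNormal g) (yC C x i)
  have h1 : ∀ i g, ∑ j, (WC.d j : ℝ) * ((WC.d j : ℝ) - fx (WC.R j (yg C x i g))) =
      (Fintype.card C : ℝ) * (1 - 1 / (orderOf (yC C x i) : ℝ)) := by
    intro i g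
    have h2 := sm_sum_fx WC (yg C x i g)
    rw [hord] at h2
    simp only [mul_sub, Finset.sum_sub_distrib]
    rw [hsq, h2]
    ring
  unfold mB pts
  simp only [Finset.mul_sum]
  rw [Finset.sum_comm]
  refine Finset.sum_congr rfl fun i _ => ?_
  rw [Finset.sum_comm]
  have h3 : ∀ g : G, ∑ j, (WC.d j : ℝ) * (1 / ((oC C x i : ℝ) * (Nat.card C : ℝ)) *
      ((WC.d j : ℝ) - fx (WC.R j (yg C x i g)))) =
      1 / ((oC C x i : ℝ) * (Nat.card C : ℝ)) *
        ((Fintype.card C : ℝ) * (1 - 1 / (orderOf (yC C x i) : ℝ))) := by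
    intro g
    rw [← h1 i g, Finset.mul_sum]
    exact Finset.sum_congr rfl fun j _ => by ring
  rw [Finset.sum_congr rfl fun g _ => h3 g, Finset.sum_const, Finset.card_univ, nsmul_eq_mul, hG,
    hcard]
  rcases eq_or_ne (oC C x i : ℝ) 0 with h0 | h0
  · rw [h0]
    simp
  · field_simp

/-- `x i ∈ C` iff `oC C x i = 1`, and then `yC C x i ≠ 1` -/
theorem oC_facts (x : Fin 4 → G) (hx : IsGenVec x) (C : Subgroup G) [C.Normal] (i : Fin 4) :
    oC C x i ∣ C.index ∧ 0 < oC C x i ∧ (oC C x i = 1 ↔ x i ∈ C) ∧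
      (oC C x i = 1 → yC C x i ≠ 1) ∧
      orderOf (x i) = oC C x i * orderOf (yC C x i) := by
  have hpos : 0 < oC C x i := orderOf_pos _
  refine ⟨?_, hpos, ?_, ?_, ?_⟩
  · rw [Subgroup.index_eq_card]
    exact orderOf_dvd_natCard _
  · unfold oC
    rw [orderOf_eq_one_iff]
    exact QuotientGroup.eq_one_iff _
  · intro h1 h2
    have h3 := congrArg Subtype.val h2
    apply hx.ne_one i
    have h4 : x i ^ oC C x i = 1 := h3
    rwa [h1, pow_one] at h4
  · have h1 : orderOf (yC C x i) = orderOf (x i ^ oC C x i) := by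
      rw [← Subgroup.orderOf_coe]
      rfl
    have hdvd : oC C x i ∣ orderOf (x i) := orderOf_map_dvd _ _
    rw [h1, orderOf_pow_of_dvd hpos.ne' hdvd, Nat.mul_div_cancel' hdvd]

private theorem sm_nat (q : ℕ) (hq : 0 < q) (o : Fin 4 → ℕ) (ho : ∀ i, o i ∣ q) (c : ℕ)
    (h : (q : ℝ) / 2 * areaN o = (q : ℝ) - (c : ℝ) / 2) :
    q / o 0 + q / o 1 + q / o 2 + q / o 3 = c := by
  have hq' : (0 : ℝ) < q := by exact_mod_cast hq
  have h1 : ∀ i, ((q / o i : ℕ) : ℝ) = (q : ℝ) * (1 / (o i : ℝ)) := by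
    intro i
    have h0 : (o i : ℝ) ≠ 0 := by
      have : 0 < o i := Nat.pos_of_dvd_of_pos (ho i) hq
      exact_mod_cast this.ne'
    rw [Nat.cast_div (ho i) h0]
    ring
  unfold areaN at h
  rw [Fin.sum_univ_four] at h
  have h2 : ((q / o 0 + q / o 1 + q / o 2 + q / o 3 : ℕ) : ℝ) = (c : ℝ) := by
    push_cast [h1]
    push_cast at h
    nlinarith
  exact_mod_cast h2

private theorem sm_half {q : ℕ} (hq : 0 < q) {a : ℕ} (ha : a ∣ q) (h1 : a ≠ 1) :
    2 * (q / a) ≤ q := by
  have h0 : 0 < a := Nat.pos_of_dvd_of_pos ha hq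
  obtain ⟨k, rfl⟩ := ha
  rw [Nat.mul_div_cancel_left k h0]
  have : 2 ≤ a := by omega
  nlinarith

/-- arithmetic for genus `0`: `U` is the set of the `i` with `yC C x i ≠ 1` -/
theorem arith_neg (q : ℕ) (hq : 0 < q) (o : Fin 4 → ℕ) (ho : ∀ i, o i ∣ q)
    (h : (q : ℝ) / 2 * areaN o = -1) (U : Finset (Fin 4)) (hU : ∀ i, o i = 1 → i ∈ U) :
    4 < ∑ i ∈ U, q / o i ∨
    (∑ i ∈ U, q / o i = 4 ∧ (q = 1 ∨ (q = 2 ∧ ∃ i, i ∉ U ∧ o i = 2) ∨
      (q = 4 ∧ ∃ i, U = {i}))) := by
  have hs := sm_nat q hq o ho (2 * q + 2) (by rw [h]; push_cast; ring)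
  have hle : ∀ i, q / o i ≤ q := fun i => Nat.div_le_self _ _
  have hhalf : ∀ i, i ∉ U → 2 * (q / o i) ≤ q := fun i hi =>
    sm_half hq (ho i) fun h1 => hi (hU i h1)
  have htwo : ∀ i, i ∉ U → q = 2 → o i = 2 := by
    intro i hi h2
    have h3 := ho i
    rw [h2] at h3
    rcases (Nat.dvd_prime Nat.prime_two).1 h3 with h4 | h4
    · exact absurd (hU i h4) hi
    · exact h4
  have hsum : ∑ i ∈ U, q / o i = (if (0 : Fin 4) ∈ U then q / o 0 else 0) +
      (if (1 : Fin 4) ∈ U then q / o 1 else 0) + (if (2 : Fin 4) ∈ U then q / o 2 else 0) +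
      (if (3 : Fin 4) ∈ U then q / o 3 else 0) := by
    rw [← Fin.sum_univ_four (fun i : Fin 4 => if i ∈ U then q / o i else 0)]
    rw [Finset.sum_ite_mem, Finset.univ_inter]
  rw [hsum]
  have l0 := hle 0
  have l1 := hle 1
  have l2 := hle 2
  have l3 := hle 3
  have key : 4 < (if (0 : Fin 4) ∈ U then q / o 0 else 0) +
      (if (1 : Fin 4) ∈ U then q / o 1 else 0) + (if (2 : Fin 4) ∈ U then q / o 2 else 0) +
      (if (3 : Fin 4) ∈ U then q / o 3 else 0) ∨
      ((if (0 : Fin 4) ∈ U then q / o 0 else 0) +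
      (if (1 : Fin 4) ∈ U then q / o 1 else 0) + (if (2 : Fin 4) ∈ U then q / o 2 else 0) +
      (if (3 : Fin 4) ∈ U then q / o 3 else 0) = 4 ∧ (q = 1 ∨ (q = 2 ∧
        ((0 : Fin 4) ∉ U ∨ (1 : Fin 4) ∉ U ∨ (2 : Fin 4) ∉ U ∨ (3 : Fin 4) ∉ U)) ∨
      (q = 4 ∧ (((0 : Fin 4) ∈ U ∧ (1 : Fin 4) ∉ U ∧ (2 : Fin 4) ∉ U ∧ (3 : Fin 4) ∉ U) ∨
        ((0 : Fin 4) ∉ U ∧ (1 : Fin 4) ∈ U ∧ (2 : Fin 4) ∉ U ∧ (3 : Fin 4) ∉ U) ∨
        ((0 : Fin 4) ∉ U ∧ (1 : Fin 4) ∉ U ∧ (2 : Fin 4) ∈ U ∧ (3 : Fin 4) ∉ U) ∨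
        ((0 : Fin 4) ∉ U ∧ (1 : Fin 4) ∉ U ∧ (2 : Fin 4) ∉ U ∧ (3 : Fin 4) ∈ U))))) := by
    by_cases m0 : (0 : Fin 4) ∈ U <;> by_cases m1 : (1 : Fin 4) ∈ U <;>
      by_cases m2 : (2 : Fin 4) ∈ U <;> by_cases m3 : (3 : Fin 4) ∈ U <;>
      simp only [m0, m1, m2, m3, if_true, if_false, not_true_eq_false, not_false_eq_true,
        true_and, and_true, false_and, and_false, or_false, false_or, or_true, true_or] <;>
      first
      | omega
      | (have := hhalf 0 m0; omega)
      | (have := hhalf 1 m1; omega)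
      | (have := hhalf 2 m2; omega)
      | (have := hhalf 3 m3; omega)
      | (have := hhalf 0 m0; have := hhalf 1 m1; omega)
      | (have := hhalf 0 m0; have := hhalf 2 m2; omega)
      | (have := hhalf 0 m0; have := hhalf 3 m3; omega)
      | (have := hhalf 1 m1; have := hhalf 2 m2; omega)
      | (have := hhalf 1 m1; have := hhalf 3 m3; omega)
      | (have := hhalf 2 m2; have := hhalf 3 m3; omega)
      | (have := hhalf 0 m0; have := hhalf 1 m1; have := hhalf 2 m2; omega)
      | (have := hhalf 0 m0; have := hhalf 1 m1; have := hhalf 3 m3; omega)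
      | (have := hhalf 0 m0; have := hhalf 2 m2; have := hhalf 3 m3; omega)
      | (have := hhalf 1 m1; have := hhalf 2 m2; have := hhalf 3 m3; omega)
      | (have := hhalf 0 m0; have := hhalf 1 m1; have := hhalf 2 m2; have := hhalf 3 m3; omega)
  rcases key with k1 | ⟨k1, k2⟩
  · exact Or.inl k1
  · refine Or.inr ⟨k1, ?_⟩
    rcases k2 with k2 | ⟨k2, k3⟩ | ⟨k2, k3⟩
    · exact Or.inl k2
    · refine Or.inr (Or.inl ⟨k2, ?_⟩)
      rcases k3 with k3 | k3 | k3 | k3
      · exact ⟨0, k3, htwo 0 k3 k2⟩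
      · exact ⟨1, k3, htwo 1 k3 k2⟩
      · exact ⟨2, k3, htwo 2 k3 k2⟩
      · exact ⟨3, k3, htwo 3 k3 k2⟩
    · refine Or.inr (Or.inr ⟨k2, ?_⟩)
      rcases k3 with ⟨a0, a1, a2, a3⟩ | ⟨a0, a1, a2, a3⟩ | ⟨a0, a1, a2, a3⟩ | ⟨a0, a1, a2, a3⟩
      · refine ⟨0, ?_⟩
        ext i
        fin_cases i <;> simp_all
      · refine ⟨1, ?_⟩
        ext i
        fin_cases i <;> simp_all
      · refine ⟨2, ?_⟩
        ext i
        fin_cases i <;> simp_all
      · refine ⟨3, ?_⟩
        ext i
        fin_cases i <;> simp_all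

/-- arithmetic for genus `1` -/
theorem arith_zero (q : ℕ) (hq : 0 < q) (o : Fin 4 → ℕ) (ho : ∀ i, o i ∣ q)
    (h : (q : ℝ) / 2 * areaN o = 0) : (∀ i, o i = 2) ∨ (3 ≤ q ∧ ∃ i, o i = 1) := by
  have hs := sm_nat q hq o ho (2 * q) (by rw [h]; push_cast; ring)
  by_cases h1 : ∃ i, o i = 1
  · refine Or.inr ⟨?_, h1⟩
    by_contra hq3
    have hpos : ∀ i, 1 ≤ q / o i := fun i =>
      Nat.div_pos (Nat.le_of_dvd hq (ho i)) (Nat.pos_of_dvd_of_pos (ho i) hq)
    have p0 := hpos 0
    have p1 := hpos 1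
    have p2 := hpos 2
    have p3 := hpos 3
    obtain ⟨i, hi⟩ := h1
    have hi2 : q / o i = q := by rw [hi, Nat.div_one]
    have hq12 : q = 1 ∨ q = 2 := by omega
    rcases hq12 with hq1 | hq1
    · omega
    · fin_cases i <;> simp only [Fin.zero_eta, Fin.mk_one, Fin.reduceFinMk] at hi2 <;> omega
  · push Not at h1
    left
    have hh : ∀ i, 2 * (q / o i) ≤ q := fun i => sm_half hq (ho i) (h1 i)
    have h0' := hh 0
    have h1' := hh 1
    have h2' := hh 2
    have h3' := hh 3
    have hall : ∀ i, 2 * (q / o i) = q := by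
      intro i
      fin_cases i <;> simp only [Fin.zero_eta, Fin.mk_one, Fin.reduceFinMk] <;> omega
    intro i
    have h2 := hall i
    have h3 := Nat.div_mul_cancel (ho i)
    have h4 : 0 < q / o i := by omega
    have h5 : q / o i * o i = q / o i * 2 := by omega
    exact Nat.eq_of_mul_eq_mul_left h4 h5

omit [Fintype G] in
/-- three involutions `u`, `v`, `w` with `(u v w)² = 1` -/
private theorem sm_comm {Q : Type} [Group Q] {u v w : Q} (hu : u * u = 1) (hv : v * v = 1)
    (hw : w * w = 1) (h : u * v * w * (u * v * w) = 1) :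
    (u * v) * (v * w) = (v * w) * (u * v) := by
  have h1 : (u * v) * (v * w) = u * w := by
    rw [mul_assoc u v (v * w), ← mul_assoc v v w, hv, one_mul]
  have h2 : (v * w) * (u * v) = u * w := by
    have h3 : u * (u * v * w * (u * v * w)) * w = u * w := by rw [h, mul_one]
    have h4 : u * (u * v * w * (u * v * w)) * w = (u * u) * ((v * w) * (u * v)) * (w * w) := by
      simp only [mul_assoc]
    rw [h4, hu, hw, one_mul, mul_one] at h3
    exact h3
  rw [h1, h2]

/-- the kernel -/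
private def smD {G : Type} [Group G] (C : Subgroup G) [C.Normal] (α : C →* ℂˣ) : Subgroup G where
  carrier := {c | ∃ h : c ∈ C, ∀ g : G, α (MulAut.conjNormal g ⟨c, h⟩) = 1}
  one_mem' := ⟨C.one_mem, fun g => by
    have : (⟨1, C.one_mem⟩ : C) = 1 := rfl
    rw [this, map_one, map_one]⟩
  mul_mem' := by
    rintro a b ⟨ha, ha'⟩ ⟨hb, hb'⟩
    refine ⟨C.mul_mem ha hb, fun g => ?_⟩
    have : (⟨a * b, C.mul_mem ha hb⟩ : C) = ⟨a, ha⟩ * ⟨b, hb⟩ := rfl
    rw [this, map_mul, map_mul, ha', hb', one_mul]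
  inv_mem' := by
    rintro a ⟨ha, ha'⟩
    refine ⟨C.inv_mem ha, fun g => ?_⟩
    have : (⟨a⁻¹, C.inv_mem ha⟩ : C) = (⟨a, ha⟩ : C)⁻¹ := rfl
    rw [this, map_inv, map_inv, ha', inv_one]

private theorem smD_normal {G : Type} [Group G] (C : Subgroup G) [hC : C.Normal] (α : C →* ℂˣ) :
    (smD C α).Normal := by
  refine ⟨fun c hc k => ?_⟩
  obtain ⟨h, h'⟩ := hc
  refine ⟨hC.conj_mem c h k, fun g => ?_⟩
  have e : (⟨k * c * k⁻¹, hC.conj_mem c h k⟩ : C) = MulAut.conjNormal k ⟨c, h⟩ := by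
    apply Subtype.ext
    rw [MulAut.conjNormal_apply]
  rw [e, ← MulAut.mul_apply, ← map_mul]
  exact h' (g * k)

/-- four involutions mod the kernel -/
theorem index_two (x : Fin 4 → G) (hx : IsGenVec x) (b K : ℕ) (C : Subgroup G) [C.Normal]
    (T : Subgroup G) (α : C →* ℂˣ) (I : Set G) (Bd : Finset (Fin 4))
    (hF : IsFrame x b K C T α I Bd) (hK : 2 < K) (hBd : Bd = univ) (ho : ∀ i, oC C x i = 2) :
    C.index ≤ 2 := by
  classical
  have hDn : (smD C α).Normal := smD_normal C α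
  obtain ⟨π, hπ⟩ : ∃ π : G →* G ⧸ smD C α, π = QuotientGroup.mk' (smD C α) := ⟨_, rfl⟩
  have hπs : Function.Surjective π := by
    rw [hπ]
    exact QuotientGroup.mk'_surjective _
  have hπ1 : ∀ g, π g = 1 ↔ g ∈ smD C α := by
    intro g
    rw [hπ]
    exact QuotientGroup.eq_one_iff g
  -- the `x i` are involutions
  have hinv : ∀ i, π (x i) * π (x i) = 1 := by
    intro i
    rw [← map_mul, hπ1]
    have h1 := (hF.bd i (by rw [hBd]; exact Finset.mem_univ i)).2
    have h2 : x i * x i = ((yC C x i : C) : G) := by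
      change x i * x i = x i ^ oC C x i
      rw [ho, pow_two]
    rw [h2]
    refine ⟨(yC C x i).2, fun g => ?_⟩
    exact h1 g
  obtain ⟨u, hu⟩ : ∃ u : Fin 4 → G ⧸ smD C α, ∀ i, u i = π (x i) := ⟨_, fun _ => rfl⟩
  have hui : ∀ i, u i * u i = 1 := by
    intro i
    rw [hu]
    exact hinv i
  have hprod : u 0 * u 1 * u 2 * u 3 = 1 := by
    have h1 := hx.prod_eq
    have h2 := congrArg π h1
    rw [map_list_prod, map_one] at h2
    rw [hu, hu, hu, hu]
    simpa [List.ofFn_succ, mul_assoc] using h2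
  have h3 : u 3 = u 0 * u 1 * u 2 := by
    have h4 : u 0 * u 1 * u 2 * u 3 * u 3 = u 3 := by rw [hprod, one_mul]
    rw [mul_assoc (u 0 * u 1 * u 2) (u 3) (u 3), hui, mul_one] at h4
    exact h4.symm
  have hcomm : (u 0 * u 1) * (u 1 * u 2) = (u 1 * u 2) * (u 0 * u 1) := by
    refine sm_comm (hui 0) (hui 1) (hui 2) ?_
    rw [← h3]
    exact hui 3
  -- the abelian subgroup
  obtain ⟨A, hA⟩ : ∃ A : Subgroup (G ⧸ smD C α), A = Subgroup.closure {u 0 * u 1, u 1 * u 2} :=
    ⟨_, rfl⟩
  have ha : u 0 * u 1 ∈ A := by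
    rw [hA]
    exact Subgroup.subset_closure (by simp)
  have hb : u 1 * u 2 ∈ A := by
    rw [hA]
    exact Subgroup.subset_closure (by simp)
  have hAcomm : ∀ p ∈ A, ∀ q ∈ A, p * q = q * p := by
    intro p hp q hq
    rw [hA] at hp hq
    have hcen : Subgroup.closure {u 0 * u 1, u 1 * u 2} ≤
        Subgroup.centralizer ({u 0 * u 1, u 1 * u 2} : Set (G ⧸ smD C α)) := by
      rw [Subgroup.closure_le]
      intro z hz
      rw [SetLike.mem_coe, Subgroup.mem_centralizer_iff]
      intro w hw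
      simp only [Set.mem_insert_iff, Set.mem_singleton_iff] at hz hw
      rcases hz with rfl | rfl <;> rcases hw with rfl | rfl
      · rfl
      · exact hcomm.symm
      · exact hcomm
      · rfl
    have hq2 : Subgroup.closure {u 0 * u 1, u 1 * u 2} ≤ Subgroup.centralizer {p} := by
      rw [Subgroup.closure_le]
      intro z hz
      rw [SetLike.mem_coe, Subgroup.mem_centralizer_iff]
      intro w hw
      rw [Set.mem_singleton_iff] at hw
      subst hw
      have h5 := hcen hp
      rw [Subgroup.mem_centralizer_iff] at h5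
      exact (h5 z hz).symm
    have h6 := hq2 hq
    rw [Subgroup.mem_centralizer_iff] at h6
    exact h6 p (Set.mem_singleton p)
  -- `u 1` inverts `A`
  have hAinv : ∀ p ∈ A, u 1 * p * u 1 = p⁻¹ := by
    intro p hp
    have hui' : ∀ i, (u i)⁻¹ = u i := fun i => inv_eq_of_mul_eq_one_left (hui i)
    have hgen : ∀ z ∈ ({u 0 * u 1, u 1 * u 2} : Set (G ⧸ smD C α)), u 1 * z * u 1 = z⁻¹ := by
      intro z hz
      simp only [Set.mem_insert_iff, Set.mem_singleton_iff] at hz
      rcases hz with rfl | rfl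
      · rw [_root_.mul_inv_rev, hui', hui']
        calc u 1 * (u 0 * u 1) * u 1 = u 1 * u 0 * (u 1 * u 1) := by simp only [mul_assoc]
          _ = _ := by rw [hui, mul_one]
      · rw [_root_.mul_inv_rev, hui', hui']
        calc u 1 * (u 1 * u 2) * u 1 = (u 1 * u 1) * (u 2 * u 1) := by simp only [mul_assoc]
          _ = _ := by rw [hui, one_mul]
    have hp' := hp
    rw [hA] at hp'
    refine Subgroup.closure_induction (p := fun z _ => u 1 * z * u 1 = z⁻¹) ?_ ?_ ?_ ?_ hp'
    · exact hgen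
    · rw [mul_one, hui, inv_one]
    · intro y z hy hz h1 h2
      have hyA : y ∈ A := by rw [hA]; exact hy
      have hzA : z ∈ A := by rw [hA]; exact hz
      have e : u 1 * (y * z) * u 1 = (u 1 * y * u 1) * (u 1 * z * u 1) := by
        calc u 1 * (y * z) * u 1 = u 1 * y * 1 * z * u 1 := by simp only [mul_assoc, mul_one]
          _ = u 1 * y * (u 1 * u 1) * z * u 1 := by rw [hui]
          _ = _ := by simp only [mul_assoc]
      rw [e, h1, h2, _root_.mul_inv_rev]
      exact hAcomm _ (A.inv_mem hyA) _ (A.inv_mem hzA)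
    · intro y _ h1
      have e : u 1 * y⁻¹ * u 1 = (u 1 * y * u 1)⁻¹ := by
        rw [_root_.mul_inv_rev, _root_.mul_inv_rev, hui']
        simp only [mul_assoc]
      rw [e, h1]
  -- every element is in `A` or in `A u 1`
  have htwo : ∀ q : G ⧸ smD C α, q ∈ A ∨ q * u 1 ∈ A := by
    have hgen : Subgroup.closure (Set.range u) = ⊤ := by
      have h1 : Set.range u = π '' Set.range x := by
        rw [← Set.range_comp]
        congr 1
        funext i
        exact hu i
      rw [h1, ← MonoidHom.map_closure, hx.gen]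
      exact Subgroup.map_top_of_surjective _ hπs
    intro q
    have hq : q ∈ Subgroup.closure (Set.range u) := by
      rw [hgen]
      exact Subgroup.mem_top q
    have hmul : ∀ y z : G ⧸ smD C α, (y ∈ A ∨ y * u 1 ∈ A) → (z ∈ A ∨ z * u 1 ∈ A) →
        (y * z ∈ A ∨ y * z * u 1 ∈ A) := by
      intro y z hy hz
      have hcases : ∀ w ∈ A, u 1 * w ∈ A ∨ u 1 * w * u 1 ∈ A := by
        intro w hw
        right
        rw [hAinv w hw]
        exact A.inv_mem hw
      rcases hy with hy | hy <;> rcases hz with hz | hz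
      · exact Or.inl (A.mul_mem hy hz)
      · right
        rw [mul_assoc]
        exact A.mul_mem hy hz
      · right
        have e : y * z * u 1 = (y * u 1) * (u 1 * z * u 1) := by
          calc y * z * u 1 = y * 1 * z * u 1 := by rw [mul_one]
            _ = y * (u 1 * u 1) * z * u 1 := by rw [hui]
            _ = _ := by simp only [mul_assoc]
        rw [e, hAinv z hz]
        exact A.mul_mem hy (A.inv_mem hz)
      · left
        have e : y * z = (y * u 1) * (u 1 * (z * u 1) * u 1) := by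
          calc y * z = y * 1 * z * 1 := by rw [mul_one, mul_one]
            _ = y * (u 1 * u 1) * z * (u 1 * u 1) := by rw [hui]
            _ = _ := by simp only [mul_assoc]
        rw [e, hAinv _ hz]
        exact A.mul_mem hy (A.inv_mem hz)
    refine Subgroup.closure_induction (p := fun z _ => z ∈ A ∨ z * u 1 ∈ A) ?_ ?_ ?_ ?_ hq
    · rintro z ⟨i, rfl⟩
      right
      fin_cases i
      · exact ha
      · change u 1 * u 1 ∈ A
        rw [hui]
        exact A.one_mem
      · change u 2 * u 1 ∈ A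
        have hui' : ∀ i, (u i)⁻¹ = u i := fun i => inv_eq_of_mul_eq_one_left (hui i)
        have e : u 2 * u 1 = (u 1 * u 2)⁻¹ := by rw [_root_.mul_inv_rev, hui', hui']
        rw [e]
        exact A.inv_mem hb
      · change u 3 * u 1 ∈ A
        have hui' : ∀ i, (u i)⁻¹ = u i := fun i => inv_eq_of_mul_eq_one_left (hui i)
        have e : u 3 * u 1 = (u 0 * u 1) * (u 1 * u 2)⁻¹ := by
          rw [_root_.mul_inv_rev, hui', hui', h3]
          simp only [mul_assoc]
        rw [e]
        exact A.mul_mem ha (A.inv_mem hb)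
    · left
      exact A.one_mem
    · intro y z _ _ h1 h2
      exact hmul y z h1 h2
    · intro y _ h1
      rcases h1 with h1 | h1
      · exact Or.inl (A.inv_mem h1)
      · right
        have hui' : ∀ i, (u i)⁻¹ = u i := fun i => inv_eq_of_mul_eq_one_left (hui i)
        have e : y⁻¹ * u 1 = u 1 * (y * u 1)⁻¹ * u 1 := by
          rw [_root_.mul_inv_rev, hui']
          calc y⁻¹ * u 1 = 1 * y⁻¹ * u 1 := by rw [one_mul]
            _ = (u 1 * u 1) * y⁻¹ * u 1 := by rw [hui]
            _ = _ := by simp only [mul_assoc]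
        rw [e, hAinv _ (A.inv_mem h1), inv_inv]
        exact h1
  -- squares are in `A`
  have hsq : ∀ q : G ⧸ smD C α, q * q ∈ A := by
    intro q
    rcases htwo q with h1 | h1
    · exact A.mul_mem h1 h1
    · have e : q * q = 1 := by
        have h2 := hAinv _ h1
        have h3' : u 1 * (q * u 1) * u 1 = u 1 * q := by
          calc u 1 * (q * u 1) * u 1 = u 1 * q * (u 1 * u 1) := by simp only [mul_assoc]
            _ = _ := by rw [hui, mul_one]
        rw [h3'] at h2
        have h4 : (u 1 * q) * (q * u 1) = 1 := by rw [h2, inv_mul_cancel]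
        calc q * q = (u 1 * u 1) * (q * q) * (u 1 * u 1) := by rw [hui, one_mul, mul_one]
          _ = u 1 * ((u 1 * q) * (q * u 1)) * u 1 := by simp only [mul_assoc]
          _ = 1 := by rw [h4, mul_one, hui]
      rw [e]
      exact A.one_mem
  -- `C` contains the preimage of `A`
  have hLC : A.comap π ≤ C := by
    intro g hg
    rw [Subgroup.mem_comap] at hg
    by_contra hgC
    obtain ⟨t, -, ht2⟩ := hF.sep g hgC 2 (by norm_num) hK
    apply ht2
    have h1 : π (g * ((t : G) * t) * g⁻¹ * ((t : G) * t)⁻¹) = 1 := by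
      simp only [map_mul, map_inv]
      have h2 := hAcomm _ hg _ (hsq (π (t : G)))
      rw [h2]
      group
    rw [hπ1] at h1
    obtain ⟨h2, h4⟩ := h1
    have h5 := h4 1
    rw [map_one, MulAut.one_apply] at h5
    have e : (⟨g * ((t : G) * t) * g⁻¹ * ((t : G) * t)⁻¹, h2⟩ : C) =
        MulAut.conjNormal g t * MulAut.conjNormal g t * (t * t)⁻¹ := by
      apply Subtype.ext
      push_cast
      rw [MulAut.conjNormal_apply]
      group
    rw [e, map_mul, map_mul, map_inv, map_mul, mul_inv_eq_one] at h5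
    rw [pow_two, pow_two]
    exact h5
  have hAi : A.index ≤ 2 := by
    rw [Subgroup.index_eq_card]
    have hsurj : Function.Surjective (fun c : Bool => if c then
        (QuotientGroup.mk (u 1) : (G ⧸ smD C α) ⧸ A) else QuotientGroup.mk 1) := by
      intro q
      induction q using QuotientGroup.induction_on with
      | H q =>
        rcases htwo q with h1 | h1
        · refine ⟨false, ?_⟩
          simp only [Bool.false_eq_true, if_false]
          rw [QuotientGroup.eq]
          simpa using h1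
        · refine ⟨true, ?_⟩
          simp only [if_true]
          rw [QuotientGroup.eq]
          have hui' : ∀ i, (u i)⁻¹ = u i := fun i => inv_eq_of_mul_eq_one_left (hui i)
          have h2 := hAinv _ h1
          have e : (u 1)⁻¹ * q = u 1 * (q * u 1) * u 1 := by
            rw [hui']
            calc u 1 * q = u 1 * q * 1 := by rw [mul_one]
              _ = u 1 * q * (u 1 * u 1) := by rw [hui]
              _ = _ := by simp only [mul_assoc]
          rw [e, h2]
          exact A.inv_mem h1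
    have := Nat.card_le_card_of_surjective _ hsurj
    simpa using this
  have h7 : C.index ∣ (A.comap π).index := Subgroup.index_dvd_of_le hLC
  rw [Subgroup.index_comap_of_surjective A hπs] at h7
  have h8 : A.index ≠ 0 := Subgroup.FiniteIndex.index_ne_zero
  exact (Nat.le_of_dvd (Nat.pos_of_ne_zero h8) h7).trans hAi

end SUM

end Pool.Agent.CO30
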