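import Pool.Agent.CO30.Rp
import Pool.Agent.CO30.AgC

/-!
# The dependence of the ages on the twist
-/

namespace Pool.Agent.CO30

open Matrix Finset Pool.Agent.CO75

section StepReal

/-- The increments of the fractional part. -/
private theorem step_fract (t s : ℝ) (hs : |s| < 1) :
    Int.fract (t + s) - Int.fract t ≤ s + if s < 0 then 1 else 0 := by
  have h1 := abs_lt.1 hs
  have h2 := Int.self_sub_floor t
  have h3 := Int.self_sub_floor (t + s)
  split_ifs with h
  · have h4 : ⌊t⌋ - 1 ≤ ⌊t + s⌋ := by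
      rw [Int.le_floor]
      have := Int.floor_le t
      push_cast
      linarith
    have h5 : ((⌊t⌋ - 1 : ℤ) : ℝ) ≤ (⌊t + s⌋ : ℝ) := by exact_mod_cast h4
    push_cast at h5
    linarith
  · have h4 : ⌊t⌋ ≤ ⌊t + s⌋ := Int.floor_le_floor (by linarith)
    have h5 : (⌊t⌋ : ℝ) ≤ (⌊t + s⌋ : ℝ) := by exact_mod_cast h4
    linarith

private theorem step_sum_shift (N : ℕ) (hN : 0 < N) (t : ℝ) :
    ∑ j ∈ range N, Int.fract (t + 1 / N + j / N) = ∑ j ∈ range N, Int.fract (t + j / N) := by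
  have hN' : (N : ℝ) ≠ 0 := by exact_mod_cast hN.ne'
  have h1 := Finset.sum_range_succ (fun j : ℕ => Int.fract (t + j / N)) N
  have h2 := Finset.sum_range_succ' (fun j : ℕ => Int.fract (t + j / N)) N
  have h3 : Int.fract (t + (N : ℝ) / N) = Int.fract (t + ((0 : ℕ) : ℝ) / N) := by
    rw [div_self hN', Int.fract_add_one]
    simp
  have h4 : ∀ j ∈ range N, Int.fract (t + 1 / N + j / N) = Int.fract (t + ((j + 1 : ℕ) : ℝ) / N) := by
    intro j _
    congr 1
    push_cast
    ring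
  rw [Finset.sum_congr rfl h4]
  rw [h1, h3] at h2
  linarith

private theorem step_sum_fract (N : ℕ) (hN : 0 < N) (t : ℝ) :
    |∑ j ∈ range N, Int.fract (t + j / N) - N / 2| ≤ 1 / 2 := by
  have hN' : (0 : ℝ) < N := by exact_mod_cast hN
  have hper : Function.Periodic (fun t : ℝ => ∑ j ∈ range N, Int.fract (t + j / N)) (1 / N) :=
    fun t => step_sum_shift N hN t
  obtain ⟨m, hm⟩ : ∃ m : ℤ, m = ⌊(N : ℝ) * t⌋ := ⟨_, rfl⟩
  have h1 := hper.sub_zsmul_eq (x := t) m
  have hm1 : (m : ℝ) ≤ N * t := by rw [hm]; exact Int.floor_le _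
  have hm2 : (N : ℝ) * t < m + 1 := by rw [hm]; exact Int.lt_floor_add_one _
  obtain ⟨u, hu⟩ : ∃ u : ℝ, u = t - m • (1 / (N : ℝ)) := ⟨_, rfl⟩
  have hNu : (N : ℝ) * u = N * t - m := by
    rw [hu, zsmul_eq_mul]
    field_simp
  have hu0 : 0 ≤ N * u := by linarith
  have hu1 : N * u < 1 := by linarith
  have hu0' : 0 ≤ u := by
    by_contra h
    push Not at h
    nlinarith
  rw [← h1, ← hu]
  have h2 : ∀ j ∈ range N, Int.fract (u + (j : ℝ) / N) = u + (j : ℝ) / N := by
    intro j hj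
    rw [Int.fract_eq_self]
    refine ⟨by positivity, ?_⟩
    have hj' : (j : ℝ) + 1 ≤ N := by exact_mod_cast mem_range.1 hj
    rw [← mul_lt_mul_iff_right₀ hN', mul_add, mul_div_cancel₀ _ hN'.ne', mul_one]
    linarith
  rw [Finset.sum_congr rfl h2, Finset.sum_add_distrib, Finset.sum_const, card_range, nsmul_eq_mul,
    ← Finset.sum_div]
  have h3 : ∑ j ∈ range N, (j : ℝ) = N * (N - 1) / 2 := by
    clear h2 h1 hu hNu hm hm1 hm2 hper hu0 hu1 hu0' hN hN'
    induction N with
    | zero => simp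
    | succ n ih =>
      rw [Finset.sum_range_succ, ih]
      push_cast
      ring
  rw [h3]
  have h4 : (N : ℝ) * u + N * (N - 1) / 2 / N - N / 2 = N * u - 1 / 2 := by
    field_simp
    ring
  rw [h4, abs_le]
  constructor <;> linarith

end StepReal

section StepAng

/-- The angle of `ω`, in units of `2 π`. -/
noncomputable def stTh (ω : ℂˣ) : ℝ := Complex.arg (ω : ℂ) / (2 * Real.pi)

theorem step_exp_th {ω : ℂˣ} (h : ‖(ω : ℂ)‖ = 1) :
    (ω : ℂ) = Complex.exp (2 * Real.pi * Complex.I * (stTh ω : ℂ)) := by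
  have h1 := Complex.norm_mul_exp_arg_mul_I (ω : ℂ)
  rw [h, Complex.ofReal_one, one_mul] at h1
  conv_lhs => rw [← h1]
  congr 1
  unfold stTh
  have hpi : (Real.pi : ℂ) ≠ 0 := by exact_mod_cast Real.pi_ne_zero
  push_cast
  field_simp

theorem step_ang_eq {ω : ℂˣ} (h : ‖(ω : ℂ)‖ = 1) {z : ℂ} (hz : ‖z‖ = 1) (k : ℤ) :
    ang (((ω ^ k : ℂˣ) : ℂ) * z) = Int.fract (ang z + k * stTh ω) := by
  have h1 : ((ω ^ k : ℂˣ) : ℂ) * z =
      Complex.exp (2 * Real.pi * Complex.I * ((ang z + k * stTh ω : ℝ) : ℂ)) := by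
    rw [Units.val_zpow_eq_zpow_val]
    conv_lhs => rw [step_exp_th h, ← exp_ang hz]
    rw [← Complex.exp_int_mul, ← Complex.exp_add]
    congr 1
    push_cast
    ring
  rw [h1, ang_exp]

theorem step_th_inv {ω : ℂˣ} (h : |Complex.arg (ω : ℂ)| < Real.pi) : stTh ω⁻¹ = - stTh ω := by
  unfold stTh
  rw [Units.val_inv_eq_inv_val, Complex.arg_inv, if_neg]
  · ring
  · intro h1
    rw [h1, abs_of_pos Real.pi_pos] at h
    exact lt_irrefl _ h

end StepAng

section StepRoots

open Polynomial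

variable {d : ℕ}

theorem step_card_roots (A : Matrix (Fin d) (Fin d) ℂ) : A.charpoly.roots.card = d := by
  rw [← (IsAlgClosed.splits A.charpoly).natDegree_eq_card_roots, Matrix.charpoly_natDegree_eq_dim,
    Fintype.card_fin]

theorem step_roots_smul (A : Matrix (Fin d) (Fin d) ℂ) (c : ℂ) :
    (c • A).charpoly.roots = A.charpoly.roots.map fun z => c * z := by
  have h : (c • A).charpoly = ((A.charpoly.roots.map fun z => c * z).map fun z => X - C z).prod := by
    refine Polynomial.funext fun t => ?_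
    rw [eval_multiset_prod, Multiset.map_map, Multiset.map_map, Matrix.eval_charpoly]
    have h := det_aeval A (C t - C c * X)
    rw [map_sub, aeval_C, map_mul, aeval_C, aeval_X, Algebra.algebraMap_eq_smul_one c,
      smul_one_mul] at h
    rw [show (Matrix.scalar (Fin d) t : Matrix (Fin d) (Fin d) ℂ) =
      algebraMap ℂ (Matrix (Fin d) (Fin d) ℂ) t from rfl, h]
    congr 1
    refine Multiset.map_congr rfl fun z _ => ?_
    simp
  rw [h, roots_multiset_prod_X_sub_C]

theorem step_root_norm {H : Type} [Group H] [Fintype H] (R : H →* Matrix (Fin d) (Fin d) ℂ) (u : H)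
    {z : ℂ} (hz : z ∈ (R u).charpoly.roots) : ‖z‖ = 1 := by
  have h1 : R u ^ Fintype.card H = 1 := by
    rw [← map_pow, pow_card_eq_one, map_one]
  exact Complex.norm_eq_one_of_pow_eq_one (root_pow _ h1 hz) Fintype.card_ne_zero

theorem step_norm {H : Type} [Group H] [Finite H] (α : H →* ℂˣ) (u : H) :
    ‖((α u : ℂˣ) : ℂ)‖ = 1 := by
  have h1 : α u ^ Nat.card H = 1 := by
    rw [← map_pow, pow_card_eq_one', map_one]
  refine Complex.norm_eq_one_of_pow_eq_one (n := Nat.card H) ?_ Nat.card_pos.ne'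
  rw [← Units.val_pow_eq_pow_val, h1, Units.val_one]

theorem step_age_twk {H : Type} [Group H] [Fintype H] (R : H →* Matrix (Fin d) (Fin d) ℂ)
    (α : H →* ℂˣ) (k : ℤ) (u : H) :
    age (twk R α k u) =
      ((R u).charpoly.roots.map fun z => Int.fract (ang z + k * stTh (α u))).sum := by
  have h0 : ‖((α u : ℂˣ) : ℂ)‖ = 1 := by
    have h1 : α u ^ Fintype.card H = 1 := by
      rw [← map_pow, pow_card_eq_one, map_one]
    refine Complex.norm_eq_one_of_pow_eq_one (n := Fintype.card H) ?_ Fintype.card_ne_zero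
    rw [← Units.val_pow_eq_pow_val, h1, Units.val_one]
  unfold age
  rw [show twk R α k u = ((α u ^ k : ℂˣ) : ℂ) • R u from rfl, step_roots_smul, Multiset.map_map]
  congr 1
  refine Multiset.map_congr rfl fun z hz => ?_
  exact step_ang_eq h0 (step_root_norm R u hz) k

theorem step_age_triv {H : Type} [Group H] [Fintype H] (α : H →* ℂˣ) (k : ℤ) (u : H) :
    age (twk (trivR H) α k u) = Int.fract (k * stTh (α u)) := by
  rw [step_age_twk, show trivR H u = (1 : Matrix (Fin 1) (Fin 1) ℂ) from rfl, Matrix.charpoly_one,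
    Fintype.card_fin, pow_one, show (X - 1 : ℂ[X]) = X - C 1 by simp, roots_X_sub_C,
    Multiset.map_singleton, Multiset.sum_singleton, ang_one, zero_add]

end StepRoots

section StepPts

variable {G : Type} [Group G] [Fintype G] {r : ℕ} (C : Subgroup G) [C.Normal] (x : Fin r → G)

theorem step_oC_pos (i : Fin r) : 0 < oC C x i := orderOf_pos _

theorem step_coef_pos (i : Fin r) : 0 < 1 / ((oC C x i : ℝ) * (Nat.card C : ℝ)) := by
  have h1 : (0 : ℝ) < (oC C x i : ℝ) := by exact_mod_cast step_oC_pos C x i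
  have h2 : (0 : ℝ) < (Nat.card C : ℝ) := by exact_mod_cast Nat.card_pos
  positivity

theorem st_pts_add (s : Finset (Fin r)) (f f' : Fin r → G → ℝ) :
    pts C x s (fun i g => f i g + f' i g) = pts C x s f + pts C x s f' := by
  unfold pts
  rw [← Finset.sum_add_distrib]
  refine Finset.sum_congr rfl fun i _ => ?_
  rw [Finset.sum_add_distrib, mul_add]

theorem st_pts_mul (s : Finset (Fin r)) (c : ℝ) (f : Fin r → G → ℝ) :
    pts C x s (fun i g => c * f i g) = c * pts C x s f := by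
  unfold pts
  rw [Finset.mul_sum]
  refine Finset.sum_congr rfl fun i _ => ?_
  rw [← Finset.mul_sum]
  ring

theorem st_pts_sub (s : Finset (Fin r)) (f f' : Fin r → G → ℝ) :
    pts C x s (fun i g => f i g - f' i g) = pts C x s f - pts C x s f' := by
  have h := st_pts_add C x s f (fun i g => (-1) * f' i g)
  rw [st_pts_mul] at h
  rw [show (fun i g => f i g - f' i g) = fun i g => f i g + (-1) * f' i g by
    funext i g; ring, h]
  ring

theorem st_pts_congr {s : Finset (Fin r)} {f f' : Fin r → G → ℝ} (h : ∀ i ∈ s, ∀ g, f i g = f' i g) :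
    pts C x s f = pts C x s f' := by
  unfold pts
  refine Finset.sum_congr rfl fun i hi => ?_
  rw [Finset.sum_congr rfl fun g _ => h i hi g]

theorem st_pts_mono {s : Finset (Fin r)} {f f' : Fin r → G → ℝ} (h : ∀ i ∈ s, ∀ g, f i g ≤ f' i g) :
    pts C x s f ≤ pts C x s f' := by
  unfold pts
  refine Finset.sum_le_sum fun i hi => ?_
  exact mul_le_mul_of_nonneg_left (Finset.sum_le_sum fun g _ => h i hi g) (step_coef_pos C x i).le

theorem st_pts_zero (s : Finset (Fin r)) : pts C x s (fun _ _ => 0) = 0 := by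
  unfold pts
  simp

theorem st_pts_nonneg {s : Finset (Fin r)} {f : Fin r → G → ℝ} (h : ∀ i ∈ s, ∀ g, 0 ≤ f i g) :
    0 ≤ pts C x s f := by
  rw [← st_pts_zero C x s]
  exact st_pts_mono C x h

theorem st_pts_split (Bd : Finset (Fin r)) (f : Fin r → G → ℝ) :
    pts C x univ f = pts C x Bd f + pts C x Bdᶜ f := by
  unfold pts
  exact (Finset.sum_add_sum_compl Bd _).symm

theorem st_pts_const (s : Finset (Fin r)) (c : ℝ) :
    pts C x s (fun _ _ => c) = c * ∑ i ∈ s, (C.index : ℝ) / (oC C x i : ℝ) := by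
  unfold pts
  rw [Finset.mul_sum]
  refine Finset.sum_congr rfl fun i _ => ?_
  rw [Finset.sum_const, card_univ, nsmul_eq_mul, ← Nat.card_eq_fintype_card, ← C.card_mul_index]
  have h1 : (oC C x i : ℝ) ≠ 0 := by exact_mod_cast (step_oC_pos C x i).ne'
  have h2 : (Nat.card C : ℝ) ≠ 0 := by exact_mod_cast Nat.card_pos.ne'
  push_cast
  field_simp

theorem st_pts_sum {ι : Type} (s : Finset (Fin r)) (S : Finset ι) (f : ι → Fin r → G → ℝ) :
    pts C x s (fun i g => ∑ k ∈ S, f k i g) = ∑ k ∈ S, pts C x s (f k) := by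
  unfold pts
  rw [Finset.sum_comm]
  refine Finset.sum_congr rfl fun i _ => ?_
  rw [Finset.sum_comm, Finset.mul_sum]

theorem st_pts_abs {s : Finset (Fin r)} {f : Fin r → G → ℝ} {c : ℝ} (h : ∀ i ∈ s, ∀ g, |f i g| ≤ c) :
    |pts C x s f| ≤ c * ∑ i ∈ s, (C.index : ℝ) / (oC C x i : ℝ) := by
  rw [abs_le, ← st_pts_const C x s c, neg_eq_neg_one_mul, ← st_pts_mul]
  constructor
  · refine st_pts_mono C x fun i hi g => ?_
    have := (abs_le.1 (h i hi g)).1
    linarith
  · exact st_pts_mono C x fun i hi g => (abs_le.1 (h i hi g)).2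

theorem step_index_div_le (s : Finset (Fin r)) :
    ∑ i ∈ s, (C.index : ℝ) / (oC C x i : ℝ) ≤ r * C.index := by
  calc ∑ i ∈ s, (C.index : ℝ) / (oC C x i : ℝ) ≤ ∑ i ∈ s, (C.index : ℝ) := by
        refine Finset.sum_le_sum fun i _ => ?_
        have h1 : (1 : ℝ) ≤ (oC C x i : ℝ) := by exact_mod_cast step_oC_pos C x i
        exact div_le_self (by positivity) h1
    _ = s.card * C.index := by rw [Finset.sum_const, nsmul_eq_mul]
    _ ≤ r * C.index := by
        have h2 : s.card ≤ r := by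
          simpa using Finset.card_le_univ s
        have h3 : (s.card : ℝ) ≤ r := by exact_mod_cast h2
        exact mul_le_mul_of_nonneg_right h3 (by positivity)

theorem st_pts_pos {s : Finset (Fin r)} {f : Fin r → G → ℝ} (h : ∀ i ∈ s, ∀ g, 0 ≤ f i g)
    {i₀ : Fin r} (hi₀ : i₀ ∈ s) {g₀ : G} (h0 : 0 < f i₀ g₀) : 0 < pts C x s f := by
  unfold pts
  refine Finset.sum_pos' (fun i hi => mul_nonneg (step_coef_pos C x i).le
    (Finset.sum_nonneg fun g _ => h i hi g)) ⟨i₀, hi₀, mul_pos (step_coef_pos C x i₀) ?_⟩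
  exact Finset.sum_pos' (fun g _ => h i₀ hi₀ g) ⟨g₀, mem_univ _, h0⟩

/-- The group `⟨x i⟩ C`. -/
noncomputable def stHC (i : Fin r) : Subgroup G :=
  (Subgroup.zpowers (QuotientGroup.mk' C (x i))).comap (QuotientGroup.mk' C)

theorem st_card_HC (i : Fin r) : Nat.card (stHC C x i) = oC C x i * Nat.card C := by
  have h1 : (stHC C x i).index = (Subgroup.zpowers (QuotientGroup.mk' C (x i))).index :=
    Subgroup.index_comap_of_surjective _ (QuotientGroup.mk'_surjective C)
  have h2 := (stHC C x i).card_mul_index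
  have h3 := (Subgroup.zpowers (QuotientGroup.mk' C (x i))).card_mul_index
  have h4 : Nat.card (Subgroup.zpowers (QuotientGroup.mk' C (x i))) = oC C x i :=
    Nat.card_zpowers _
  have h5 := C.card_mul_index
  have h6 : Nat.card (G ⧸ C) = C.index := rfl
  have h7 : 0 < (stHC C x i).index := Nat.pos_of_ne_zero Subgroup.index_ne_zero_of_finite
  rw [← h1, h4, h6] at h3
  rw [← h3, ← h2] at h5
  have h8 : Nat.card C * oC C x i * (stHC C x i).index = Nat.card (stHC C x i) * (stHC C x i).index := by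
    rw [← h5]
    ring
  rw [← Nat.eq_of_mul_eq_mul_right h7 h8]
  ring

omit [Fintype G] in
theorem st_mem_HC {i : Fin r} {h : G} (hh : h ∈ stHC C x i) : ∃ (k : ℤ) (c : G), c ∈ C ∧ h = x i ^ k * c := by
  obtain ⟨k, hk⟩ := Subgroup.mem_zpowers_iff.1 (Subgroup.mem_comap.1 hh)
  refine ⟨k, (x i ^ k)⁻¹ * h, ?_, by group⟩
  rw [← map_zpow] at hk
  exact QuotientGroup.eq.1 hk

theorem step_sum_coset (H : Subgroup G) (f : G → ℝ) (hf : ∀ g, ∀ h ∈ H, f (g * h) = f g) :
    ∑ g, f g = Nat.card H * ∑ᶠ q : G ⧸ H, f q.out := by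
  classical
  have : Fintype H := Fintype.ofFinite _
  have : Fintype (G ⧸ H) := Fintype.ofFinite _
  rw [finsum_eq_sum_of_fintype,
    ← Finset.sum_fiberwise univ (fun g : G => (QuotientGroup.mk g : G ⧸ H)) f, Finset.mul_sum]
  refine Finset.sum_congr rfl fun q _ => ?_
  have h1 : ∀ g : G, (QuotientGroup.mk g : G ⧸ H) = q → q.out⁻¹ * g ∈ H := by
    intro g hg
    rw [← QuotientGroup.eq, hg]
    exact Quotient.out_eq' q
  have h2 : ∑ g ∈ univ.filter (fun g : G => (QuotientGroup.mk g : G ⧸ H) = q), f g =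
      ∑ h : H, f (q.out * h) := by
    refine Finset.sum_bij' (fun g hg => (⟨q.out⁻¹ * g, h1 g (Finset.mem_filter.1 hg).2⟩ : H))
      (fun h _ => q.out * (h : G)) (fun _ _ => mem_univ _) ?_ ?_ ?_ ?_
    · intro h _
      rw [Finset.mem_filter]
      refine ⟨mem_univ _, ?_⟩
      have h3 : (QuotientGroup.mk q.out : G ⧸ H) = q := Quotient.out_eq' q
      conv_rhs => rw [← h3]
      exact (QuotientGroup.eq.2 (by simp))
    · intro g _
      simp
    · intro h _
      simp
    · intro g _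
      simp
  rw [h2, Finset.sum_congr rfl fun h _ => hf _ _ (Subtype.prop h), Finset.sum_const, card_univ,
    nsmul_eq_mul, Nat.card_eq_fintype_card]

end StepPts

section StepAl

variable {G : Type} [Group G] [Fintype G] {r d : ℕ} (C : Subgroup G) [C.Normal] (x : Fin r → G)

omit [Fintype G] in
theorem st_yg_coe (i : Fin r) (g : G) : (yg C x i g : G) = g * x i ^ oC C x i * g⁻¹ := by
  unfold yg
  rw [MulAut.conjNormal_apply]
  rfl

omit [Fintype G] in
theorem st_yg_mul_mem {i : Fin r} (g : G) {h : G} (hh : h ∈ stHC C x i) :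
    ∃ c : C, yg C x i (g * h) = c * yg C x i g * c⁻¹ := by
  obtain ⟨k, c, hc, rfl⟩ := st_mem_HC C x hh
  have h1 : (g * x i ^ k) * c * (g * x i ^ k)⁻¹ ∈ C := Subgroup.Normal.conj_mem inferInstance c hc _
  refine ⟨⟨_, h1⟩, ?_⟩
  apply Subtype.ext
  rw [st_yg_coe, Subgroup.coe_mul, Subgroup.coe_mul, st_yg_coe, Subgroup.coe_inv]
  have h2 : x i ^ k * x i ^ oC C x i * (x i ^ k)⁻¹ = x i ^ oC C x i := by
    rw [← _root_.zpow_natCast, ← _root_.zpow_add, ← _root_.zpow_neg, ← _root_.zpow_add]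
    congr 1
    ring
  have h3 : (g * x i ^ k) * c * (g * x i ^ k)⁻¹ * (g * x i ^ oC C x i * g⁻¹) *
      ((g * x i ^ k) * c * (g * x i ^ k)⁻¹)⁻¹ = g * x i ^ k * c *
        ((x i ^ k)⁻¹ * x i ^ oC C x i * x i ^ k) * (g * x i ^ k * c)⁻¹ := by
    group
  have h4 : (x i ^ k)⁻¹ * x i ^ oC C x i * x i ^ k = x i ^ oC C x i := by
    conv_lhs => rw [← h2]
    group
  rw [h3, h4]
  group

omit [Fintype G] in
theorem st_alpha_yg_mul {A : Type} [CommGroup A] (α : C →* A) {i : Fin r} (g : G) {h : G}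
    (hh : h ∈ stHC C x i) : α (yg C x i (g * h)) = α (yg C x i g) := by
  obtain ⟨c, hc⟩ := st_yg_mul_mem C x g hh
  rw [hc, map_mul, map_mul, map_inv, mul_comm (α c), mul_inv_cancel_right]

theorem st_age_conj' {H : Type} [Group H] (R : H →* Matrix (Fin d) (Fin d) ℂ) (c u : H) :
    age (R (c * u * c⁻¹)) = age (R u) := by
  rw [map_mul, map_mul]
  exact age_conj (A := R u) (by rw [← map_mul, inv_mul_cancel, map_one])

omit [Fintype G] in
theorem st_age_yg_mul (R : C →* Matrix (Fin d) (Fin d) ℂ) {i : Fin r} (g : G) {h : G}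
    (hh : h ∈ stHC C x i) : age (R (yg C x i (g * h))) = age (R (yg C x i g)) := by
  obtain ⟨c, hc⟩ := st_yg_mul_mem C x g hh
  rw [hc, st_age_conj']

omit [Fintype G] in
theorem st_age_yg_mul_inv (R : C →* Matrix (Fin d) (Fin d) ℂ) {i : Fin r} (g : G) {h : G}
    (hh : h ∈ stHC C x i) : age (R (yg C x i (g * h))⁻¹) = age (R (yg C x i g)⁻¹) := by
  obtain ⟨c, hc⟩ := st_yg_mul_mem C x g hh
  rw [hc, show (c * yg C x i g * c⁻¹)⁻¹ = c * (yg C x i g)⁻¹ * c⁻¹ by group, st_age_conj']

theorem st_pts_coset (s : Finset (Fin r)) (f : Fin r → G → ℝ)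
    (hf : ∀ i ∈ s, ∀ g, ∀ h ∈ stHC C x i, f i (g * h) = f i g) :
    pts C x s f = ∑ i ∈ s, ∑ᶠ q : G ⧸ stHC C x i, f i q.out := by
  unfold pts
  refine Finset.sum_congr rfl fun i hi => ?_
  rw [step_sum_coset (stHC C x i) (f i) (hf i hi), st_card_HC]
  have h1 : (oC C x i : ℝ) ≠ 0 := by exact_mod_cast (step_oC_pos C x i).ne'
  have h2 : (Nat.card C : ℝ) ≠ 0 := by exact_mod_cast Nat.card_pos.ne'
  push_cast
  field_simp

theorem st_pts_nat (s : Finset (Fin r)) (f : Fin r → G → ℝ)
    (hf : ∀ i ∈ s, ∀ g, ∀ h ∈ stHC C x i, f i (g * h) = f i g)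
    (hn : ∀ i ∈ s, ∀ g, ∃ n : ℕ, f i g = n) : ∃ n : ℕ, pts C x s f = n := by
  classical
  rw [st_pts_coset C x s f hf]
  have h1 : ∀ i ∈ s, ∃ n : ℕ, ∑ᶠ q : G ⧸ stHC C x i, f i q.out = n := by
    intro i hi
    have : Fintype (G ⧸ stHC C x i) := Fintype.ofFinite _
    rw [finsum_eq_sum_of_fintype]
    choose n h using hn i hi
    exact ⟨∑ q : G ⧸ stHC C x i, n q.out, by
      push_cast
      exact Finset.sum_congr rfl fun q _ => h _⟩
  choose! n h using h1
  exact ⟨∑ i ∈ s, n i, by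
    push_cast
    exact Finset.sum_congr rfl fun i hi => h i hi⟩

theorem st_pts_ge (s : Finset (Fin r)) (f : Fin r → G → ℝ)
    (hf : ∀ i ∈ s, ∀ g, ∀ h ∈ stHC C x i, f i (g * h) = f i g) (h0 : ∀ i ∈ s, ∀ g, 0 ≤ f i g)
    {i₀ : Fin r} (hi₀ : i₀ ∈ s) (g₀ : G) : f i₀ g₀ ≤ pts C x s f := by
  classical
  rw [st_pts_coset C x s f hf]
  have : Fintype (G ⧸ stHC C x i₀) := Fintype.ofFinite _
  have h1 : f i₀ g₀ ≤ ∑ᶠ q : G ⧸ stHC C x i₀, f i₀ q.out := by
    rw [finsum_eq_sum_of_fintype]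
    have h2 : f i₀ g₀ = f i₀ (QuotientGroup.mk g₀ : G ⧸ stHC C x i₀).out := by
      have h3 : g₀⁻¹ * (QuotientGroup.mk g₀ : G ⧸ stHC C x i₀).out ∈ stHC C x i₀ := by
        rw [← QuotientGroup.eq]
        exact (Quotient.out_eq' _).symm
      have h4 := hf i₀ hi₀ g₀ _ h3
      rw [mul_inv_cancel_left] at h4
      exact h4.symm
    rw [h2]
    exact Finset.single_le_sum (f := fun q : G ⧸ stHC C x i₀ => f i₀ q.out)
      (fun q _ => h0 i₀ hi₀ _) (mem_univ _)
  refine h1.trans (Finset.single_le_sum (f := fun i => ∑ᶠ q : G ⧸ stHC C x i, f i q.out)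
    (fun i hi => ?_) hi₀)
  exact finsum_nonneg fun q => h0 i hi _

end StepAl

section StepFrame

variable {G : Type} [Group G] [Fintype G] {d : ℕ} {x : Fin 4 → G} {b K : ℕ} {C : Subgroup G}
  [C.Normal] {T : Subgroup G} {α : C →* ℂˣ} {I : Set G} {Bd : Finset (Fin 4)}

theorem st_index_le (hF : IsFrame x b K C T α I Bd) : C.index ≤ b :=
  (Nat.le_of_dvd (Nat.pos_of_ne_zero Subgroup.index_ne_zero_of_finite)
    (Subgroup.index_dvd_of_le hF.le)).trans hF.index_le

omit [Fintype G] in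
theorem st_th_lt (hF : IsFrame x b K C T α I Bd) {i : Fin 4} (hi : i ∉ Bd) (g : G) :
    |stTh (α (yg C x i g))| * (4 * K) < 1 := by
  have h := (hF.ub i hi g).2
  have hpi := Real.two_pi_pos
  unfold stTh
  rw [abs_div, abs_of_pos hpi, div_mul_eq_mul_div, div_lt_one hpi]
  exact h

omit [Fintype G] in
theorem st_arg_lt (hF : IsFrame x b K C T α I Bd) (hK1 : 1 < K) {i : Fin 4} (hi : i ∉ Bd) (g : G) :
    |Complex.arg ((α (yg C x i g) : ℂˣ) : ℂ)| < Real.pi := by
  have h := (hF.ub i hi g).2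
  have hpi := Real.pi_pos
  have hK : (1 : ℝ) < K := by exact_mod_cast hK1
  have h0 := abs_nonneg (Complex.arg ((α (yg C x i g) : ℂˣ) : ℂ))
  nlinarith

omit [Fintype G] in
theorem st_th_inv (hF : IsFrame x b K C T α I Bd) (hK1 : 1 < K) {i : Fin 4} (hi : i ∉ Bd) (g : G) :
    stTh (α (yg C x i g)⁻¹) = - stTh (α (yg C x i g)) := by
  rw [map_inv]
  exact step_th_inv (st_arg_lt hF hK1 hi g)

theorem st_th_ne (hF : IsFrame x b K C T α I Bd) (hK1 : 1 < K) {i : Fin 4} (hi : i ∉ Bd) (g : G) :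
    stTh (α (yg C x i g)) ≠ 0 := by
  intro h
  have h1 := step_exp_th (step_norm α (yg C x i g))
  rw [h, Complex.ofReal_zero, mul_zero, Complex.exp_zero] at h1
  have h2 : α (yg C x i g) = 1 := Units.ext h1
  have h3 := (hF.ub i hi g).1
  rw [h2, orderOf_one] at h3
  omega

omit [Fintype G] in
theorem st_pos_iff (ω : ℂˣ) : 0 < Complex.arg (ω : ℂ) ↔ 0 < stTh ω := by
  unfold stTh
  rw [div_pos_iff_of_pos_right Real.two_pi_pos]

omit [Fintype G] in
theorem st_neg_iff (ω : ℂˣ) : Complex.arg (ω : ℂ) < 0 ↔ stTh ω < 0 := by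
  unfold stTh
  rw [div_neg_iff]
  have := Real.two_pi_pos
  constructor
  · intro h
    exact Or.inr ⟨h, this⟩
  · rintro (h | h)
    · exact absurd h.2 (not_lt.2 this.le)
    · exact h.1

omit [Fintype G] in
theorem st_th_one : stTh 1 = 0 := by
  unfold stTh
  simp

omit [Fintype G] in
theorem st_fract (θ : ℝ) (k : ℤ) (hk : 1 ≤ k) (hk' : (k : ℝ) * |θ| < 1) :
    Int.fract (k * θ) = k * θ + if θ < 0 then 1 else 0 := by
  have hkr : (1 : ℝ) ≤ k := by exact_mod_cast hk
  have h2 := abs_mul (k : ℝ) θ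
  rw [abs_of_pos (by linarith : (0 : ℝ) < k)] at h2
  rw [← h2, abs_lt] at hk'
  split_ifs with h
  · have h1 : (k : ℝ) * θ < 0 := mul_neg_of_pos_of_neg (by linarith) h
    rw [← Int.fract_add_one, Int.fract_eq_self]
    exact ⟨by linarith [hk'.1], by linarith⟩
  · have h1 : 0 ≤ (k : ℝ) * θ := mul_nonneg (by linarith) (not_lt.1 h)
    rw [add_zero, Int.fract_eq_self]
    exact ⟨h1, hk'.2⟩

theorem st_triv_aux (hF : IsFrame x b K C T α I Bd) (hK1 : 1 < K) (k : ℤ) (hk : 1 ≤ k)
    (hk' : k ≤ K) :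
    Fa C x (twk (trivR C) α k) = nup C x Bd α - k * pts C x Bdᶜ (fun i g => stTh (α (yg C x i g))) ∧
    Fb C x (twk (trivR C) α k) = num C x Bd α + k * pts C x Bdᶜ (fun i g => stTh (α (yg C x i g))) := by
  classical
  have : Fintype C := Fintype.ofFinite _
  have hKr : (k : ℝ) ≤ K := by exact_mod_cast hk'
  have hk1 : (1 : ℝ) ≤ k := by exact_mod_cast hk
  have hsm : ∀ i ∉ Bd, ∀ g, (k : ℝ) * |stTh (α (yg C x i g))| < 1 := by
    intro i hi g
    have h1 := st_th_lt hF hi g
    have h2 := abs_nonneg (stTh (α (yg C x i g)))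
    nlinarith
  constructor
  · unfold Fa nup
    rw [st_pts_split C x Bd, ← st_pts_mul, ← st_pts_sub,
      st_pts_congr C x (s := Bd) (f' := fun _ _ => 0), st_pts_zero, zero_add]
    · refine st_pts_congr C x fun i hi g => ?_
      have hi' : i ∉ Bd := Finset.mem_compl.1 hi
      rw [step_age_triv, st_th_inv hF hK1 hi' g, st_fract _ k hk
        (by rw [abs_neg]; exact hsm i hi' g)]
      simp only [st_pos_iff, neg_lt_zero]
      ring
    · intro i hi g
      rw [step_age_triv, map_inv, (hF.bd i hi).2 g, inv_one, st_th_one, mul_zero, Int.fract_zero]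
  · unfold Fb num
    rw [st_pts_split C x Bd, ← st_pts_mul, ← st_pts_add,
      st_pts_congr C x (s := Bd) (f' := fun _ _ => 0), st_pts_zero, zero_add]
    · refine st_pts_congr C x fun i hi g => ?_
      have hi' : i ∉ Bd := Finset.mem_compl.1 hi
      rw [step_age_triv, st_fract _ k hk (hsm i hi' g)]
      simp only [st_neg_iff]
      ring
    · intro i hi g
      rw [step_age_triv, (hF.bd i hi).2 g, st_th_one, mul_zero, Int.fract_zero]

omit [Fintype G] [C.Normal] in
theorem st_triv_trace (k : ℤ) (c : C) : (twk (trivR C) α k c).trace = ((α c ^ k : ℂˣ) : ℂ) := by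
  show (((α c ^ k : ℂˣ) : ℂ) • (1 : Matrix (Fin 1) (Fin 1) ℂ)).trace = _
  rw [Matrix.trace_smul, Matrix.trace_one]
  simp

theorem st_int (hx : IsGenVec x) : ∃ n : ℤ, Fa C x (twk (trivR C) α 1) = n := by
  classical
  have : Fintype C := Fintype.ofFinite _
  obtain ⟨a, ha⟩ := mC_nat C x hx (twk (trivR C) α 1) (irr_twk irr_triv α 1)
  obtain ⟨h, hh⟩ := hh_nat C x hx
  have h1 := mC_formula C x (twk (trivR C) α 1)
  have h2 : ∃ δ : ℤ, 1 / (Fintype.card C : ℂ) * ∑ c : C, (twk (trivR C) α 1 c).trace = δ := by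
    simp only [st_triv_trace, zpow_one]
    have h3 := sum_hom_units ((Units.coeHom ℂ).comp α)
    simp only [MonoidHom.coe_comp, Function.comp_apply, Units.coeHom_apply] at h3
    rw [h3]
    split_ifs
    · refine ⟨1, ?_⟩
      have h4 : (Fintype.card C : ℂ) ≠ 0 := by exact_mod_cast Fintype.card_ne_zero
      push_cast
      field_simp
    · exact ⟨0, by simp⟩
  obtain ⟨δ, hδ⟩ := h2
  rw [ha, hδ, hh] at h1
  refine ⟨a - δ - h + 1, ?_⟩
  have h5 : ((Fa C x (twk (trivR C) α 1) : ℝ) : ℂ) = (((a : ℝ) - δ - h + 1 : ℝ) : ℂ) := by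
    push_cast at h1 ⊢
    linear_combination - h1
  have h6 := Complex.ofReal_injective h5
  rw [h6]
  push_cast
  ring

theorem st_nup_nat (α : C →* ℂˣ) : ∃ n : ℕ, nup C x Bd α = n := by
  unfold nup
  refine st_pts_nat C x _ _ (fun i _ g h hh => ?_) (fun i _ g => ?_)
  · simp only [st_alpha_yg_mul C x α g hh]
  · split_ifs
    · exact ⟨1, by simp⟩
    · exact ⟨0, by simp⟩

theorem st_num_nat (α : C →* ℂˣ) : ∃ n : ℕ, num C x Bd α = n := by
  unfold num
  refine st_pts_nat C x _ _ (fun i _ g h hh => ?_) (fun i _ g => ?_)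
  · simp only [st_alpha_yg_mul C x α g hh]
  · split_ifs
    · exact ⟨1, by simp⟩
    · exact ⟨0, by simp⟩

theorem st_sum_th (hF : IsFrame x b K C T α I Bd) (hx : IsGenVec x) (hK : b < K) (hK1 : 1 < K) :
    pts C x Bdᶜ (fun i g => stTh (α (yg C x i g))) = 0 := by
  obtain ⟨n, hn⟩ := st_int (C := C) (α := α) hx
  obtain ⟨m, hm⟩ := st_nup_nat (x := x) (Bd := Bd) α
  have h1 := (st_triv_aux hF hK1 1 le_rfl (by exact_mod_cast hK1.le)).1
  rw [hn, hm, Int.cast_one, one_mul] at h1
  obtain ⟨S, hS⟩ : ∃ S : ℝ, S = pts C x Bdᶜ (fun i g => stTh (α (yg C x i g))) := ⟨_, rfl⟩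
  rw [← hS] at h1 ⊢
  have hKpos : (0 : ℝ) < 4 * K := by
    have : (1 : ℝ) < K := by exact_mod_cast hK1
    linarith
  have h2 : |S| ≤ 1 / (4 * K) * (4 * C.index) := by
    rw [hS]
    refine (st_pts_abs C x (c := 1 / (4 * (K : ℝ))) fun i hi g => ?_).trans
      (mul_le_mul_of_nonneg_left ?_ (by positivity))
    · rw [le_div_iff₀ hKpos]
      exact (st_th_lt hF (Finset.mem_compl.1 hi) g).le
    · exact_mod_cast step_index_div_le C x Bdᶜ
  have h3 : (C.index : ℝ) < K := by exact_mod_cast (st_index_le hF).trans_lt hK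
  have h4 : |S| < 1 := by
    refine h2.trans_lt ?_
    rw [div_mul_eq_mul_div, div_lt_one hKpos]
    linarith
  have h5 : S = ((m - n : ℤ) : ℝ) := by
    push_cast
    linarith
  rw [h5] at h4 ⊢
  have h6 : |m - n| < 1 := by exact_mod_cast h4
  rw [Int.abs_lt_one_iff] at h6
  rw [h6, Int.cast_zero]

omit [Fintype G] [C.Normal] in
theorem st_age_step [Fintype C] (R : C →* Matrix (Fin d) (Fin d) ℂ) (α : C →* ℂˣ) (k l : ℤ)
    (hkl : k ≤ l) (u : C) (h : ((l : ℝ) - k) * |stTh (α u)| < 1) :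
    age (twk R α l u) - age (twk R α k u) ≤
      d * (((l : ℝ) - k) * stTh (α u) + if stTh (α u) < 0 then 1 else 0) := by
  have hkl' : (0 : ℝ) ≤ (l : ℝ) - k := by
    have : (k : ℝ) ≤ l := by exact_mod_cast hkl
    linarith
  rw [step_age_twk, step_age_twk, ← Multiset.sum_map_sub]
  have h1 : ∀ z ∈ (R u).charpoly.roots,
      Int.fract (ang z + l * stTh (α u)) - Int.fract (ang z + k * stTh (α u)) ≤
        ((l : ℝ) - k) * stTh (α u) + if stTh (α u) < 0 then 1 else 0 := by
    intro z _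
    have h2 := step_fract (ang z + k * stTh (α u)) (((l : ℝ) - k) * stTh (α u))
      (by rw [abs_mul, abs_of_nonneg hkl']; exact h)
    rw [show ang z + k * stTh (α u) + ((l : ℝ) - k) * stTh (α u) = ang z + l * stTh (α u) by ring] at h2
    refine h2.trans (add_le_add le_rfl ?_)
    split_ifs with h3 h4 h4
    · exact le_rfl
    · exact absurd (mul_nonneg hkl' (not_lt.1 h4)) (not_le.2 h3)
    · exact zero_le_one
    · exact le_rfl
  refine (Multiset.sum_map_le_sum_map _ _ h1).trans (le_of_eq ?_)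
  rw [Multiset.map_const', Multiset.sum_replicate, step_card_roots, nsmul_eq_mul]

omit [Fintype G] in
theorem st_avg_root {ω : ℂˣ} (hω : ‖(ω : ℂ)‖ = 1) {z : ℂ} (hz : ‖z‖ = 1) {K M : ℕ} (hK : 0 < K)
    (hKN : K ≤ orderOf ω) (hM : orderOf ω ∣ M) :
    |∑ k ∈ range M, Int.fract (ang z + ((k : ℤ) : ℝ) * stTh ω) - M / 2| ≤ M / (2 * K) := by
  obtain ⟨N, hN⟩ : ∃ N, N = orderOf ω := ⟨_, rfl⟩
  rw [← hN] at hKN hM
  obtain ⟨c, rfl⟩ := hM
  have hN0 : 0 < N := by omega
  have hNr : (0 : ℝ) < N := by exact_mod_cast hN0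
  have hKr : (0 : ℝ) < K := by exact_mod_cast hK
  have hKNr : (K : ℝ) ≤ N := by exact_mod_cast hKN
  have hp1 : IsPrimitiveRoot (ω : ℂ) N := by
    rw [hN, IsPrimitiveRoot.coe_units_iff]
    exact IsPrimitiveRoot.orderOf ω
  have hp2 : IsPrimitiveRoot (Complex.exp (2 * Real.pi * Complex.I / N)) N :=
    Complex.isPrimitiveRoot_exp N hN0.ne'
  have hsum : ∀ η : ℂ, IsPrimitiveRoot η N →
      ∑ k ∈ range N, ang (η ^ k * z) =
        ((Polynomial.nthRoots N (1 : ℂ)).map fun y => ang (y * z)).sum := by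
    intro η hη
    rw [hη.nthRoots_eq (one_pow N), Multiset.map_map]
    simp only [Function.comp_def, mul_one]
    rfl
  have hf : ∀ k : ℕ, Int.fract (ang z + ((k : ℤ) : ℝ) * stTh ω) = ang ((ω : ℂ) ^ k * z) := by
    intro k
    rw [← step_ang_eq hω hz, _root_.zpow_natCast, Units.val_pow_eq_pow_val]
  have hf2 : ∀ k : ℕ, ang (Complex.exp (2 * Real.pi * Complex.I / N) ^ k * z) =
      Int.fract (ang z + k / N) := by
    intro k
    have h1 : Complex.exp (2 * Real.pi * Complex.I / N) ^ k * z =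
        Complex.exp (2 * Real.pi * Complex.I * ((ang z + k / N : ℝ) : ℂ)) := by
      conv_lhs => rw [← exp_ang hz]
      rw [← Complex.exp_nat_mul, ← Complex.exp_add]
      congr 1
      push_cast
      ring
    rw [h1, ang_exp]
  have h1 : ∑ k ∈ range N, ang ((ω : ℂ) ^ k * z) = ∑ k ∈ range N, Int.fract (ang z + k / N) := by
    rw [hsum _ hp1, ← hsum _ hp2]
    exact Finset.sum_congr rfl fun k _ => hf2 k
  have h2 : ∀ c : ℕ, ∑ k ∈ range (N * c), ang ((ω : ℂ) ^ k * z) =
      c * ∑ k ∈ range N, ang ((ω : ℂ) ^ k * z) := by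
    intro c
    induction c with
    | zero => simp
    | succ c ih =>
      rw [Nat.mul_succ, Nat.add_comm, Finset.sum_range_add, Nat.cast_succ, add_mul, one_mul,
        add_comm]
      congr 1
      rw [← ih]
      refine Finset.sum_congr rfl fun k _ => ?_
      rw [pow_add, hp1.pow_eq_one, one_mul]
  rw [Finset.sum_congr rfl fun k _ => hf k, h2, h1]
  have h3 := step_sum_fract N hN0 (ang z)
  have h4 : (c : ℝ) * ∑ k ∈ range N, Int.fract (ang z + k / N) - ((N * c : ℕ) : ℝ) / 2 =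
      c * (∑ k ∈ range N, Int.fract (ang z + k / N) - N / 2) := by
    push_cast
    ring
  rw [h4, abs_mul, abs_of_nonneg (by positivity : (0 : ℝ) ≤ c)]
  refine (mul_le_mul_of_nonneg_left h3 (by positivity)).trans ?_
  rw [le_div_iff₀ (by positivity)]
  push_cast
  have hc : (0 : ℝ) ≤ c := by positivity
  nlinarith

omit [Fintype G] [C.Normal] in
theorem st_avg [Fintype C] (R : C →* Matrix (Fin d) (Fin d) ℂ) (α : C →* ℂˣ) (u : C) (K : ℕ)
    (hK : 0 < K) (hK2 : K ≤ orderOf (α u)) :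
    |∑ k ∈ range (Fintype.card C), age (twk R α k u) - (Fintype.card C * d / 2 : ℝ)| ≤
      Fintype.card C * (d / (2 * K)) := by
  have hdvd : orderOf (α u) ∣ Fintype.card C := by
    refine orderOf_dvd_of_pow_eq_one ?_
    rw [← map_pow, pow_card_eq_one, map_one]
  have h1 : ∑ k ∈ range (Fintype.card C), age (twk R α k u) - (Fintype.card C * d / 2 : ℝ) =
      ((R u).charpoly.roots.map fun z => ∑ k ∈ range (Fintype.card C),
        Int.fract (ang z + ((k : ℤ) : ℝ) * stTh (α u)) - (Fintype.card C / 2 : ℝ)).sum := by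
    rw [Multiset.sum_map_sub, Multiset.map_const', Multiset.sum_replicate, step_card_roots,
      nsmul_eq_mul]
    congr 1
    · simp only [step_age_twk]
      exact Multiset.sum_map_sum_map _ _
    · ring
  rw [h1]
  refine (Multiset.abs_sum_le_sum_abs).trans ?_
  rw [Multiset.map_map]
  refine (Multiset.sum_map_le_sum_map _ (fun _ => (Fintype.card C / (2 * K) : ℝ))
    fun z hz => ?_).trans (le_of_eq ?_)
  · exact st_avg_root (step_norm α u) (step_root_norm R u hz) hK hK2 hdvd
  · rw [Multiset.map_const', Multiset.sum_replicate, step_card_roots, nsmul_eq_mul]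
    ring

end StepFrame

section StepMain

variable {G : Type} [Group G] [Fintype G] {d : ℕ}

/-- the numbers of points with positive and with negative angle are natural numbers, positive if there
are points outside `Bd` -/
theorem nup_num (x : Fin 4 → G) (b K : ℕ) (C : Subgroup G) [C.Normal] (T : Subgroup G)
    (α : C →* ℂˣ) (I : Set G) (Bd : Finset (Fin 4)) (hF : IsFrame x b K C T α I Bd)
    (hx : IsGenVec x) (hK : b < K) (hK1 : 1 < K) :
    ∃ p m : ℕ, nup C x Bd α = p ∧ num C x Bd α = m ∧ Ja C x Bd = p + m ∧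
      (Bd ≠ univ → 0 < p ∧ 0 < m) := by
  classical
  obtain ⟨p, hp⟩ := st_nup_nat (x := x) (Bd := Bd) α
  obtain ⟨m, hm⟩ := st_num_nat (x := x) (Bd := Bd) α
  refine ⟨p, m, hp, hm, ?_, fun hBd => ?_⟩
  · rw [← hp, ← hm]
    unfold nup num Ja
    rw [← st_pts_add, ← one_mul (∑ i ∈ Bdᶜ, _), ← st_pts_const C x Bdᶜ 1]
    refine st_pts_congr C x fun i hi g => ?_
    have hn := st_th_ne hF hK1 (Finset.mem_compl.1 hi) g
    simp only [st_pos_iff, st_neg_iff]
    rcases lt_or_gt_of_ne hn with h | h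
    · rw [if_neg (not_lt.2 h.le), if_pos h, zero_add]
    · rw [if_pos h, if_neg (not_lt.2 h.le), add_zero]
  · obtain ⟨i₀, hi₀⟩ : ∃ i, i ∉ Bd := by
      by_contra h
      push Not at h
      exact hBd (Finset.eq_univ_iff_forall.2 h)
    have hi₀' : i₀ ∈ Bdᶜ := Finset.mem_compl.2 hi₀
    have hs := st_sum_th hF hx hK hK1
    have key : ∀ f : Fin 4 → G → ℝ, (∀ i g, 0 ≤ f i g) → pts C x Bdᶜ f = 0 →
        ∀ i ∈ Bdᶜ, ∀ g, f i g = 0 := by
      intro f hf h0 i hi g
      by_contra hne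
      have h1 := st_pts_pos C x (fun i _ g => hf i g) hi (lt_of_le_of_ne (hf i g) (Ne.symm hne))
      exact h1.ne' h0
    constructor
    · rw [Nat.pos_iff_ne_zero]
      rintro rfl
      unfold nup at hp
      have h1 := key _ (fun i g => ite_nonneg zero_le_one le_rfl) (hp.trans Nat.cast_zero)
      have h2 : ∀ i ∈ Bdᶜ, ∀ g, stTh (α (yg C x i g)) < 0 := by
        intro i hi g
        have h3 := h1 i hi g
        have hn := st_th_ne hF hK1 (Finset.mem_compl.1 hi) g
        simp only [st_pos_iff] at h3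
        split_ifs at h3 with h4
        · norm_num at h3
        · exact lt_of_le_of_ne (not_lt.1 h4) hn
      have h5 := st_pts_pos C x (s := Bdᶜ) (f := fun i g => (-1) * stTh (α (yg C x i g)))
        (fun i hi g => by have := h2 i hi g; linarith) hi₀' (g₀ := 1)
        (by have := h2 i₀ hi₀' 1; linarith)
      rw [st_pts_mul, hs] at h5
      simp at h5
    · rw [Nat.pos_iff_ne_zero]
      rintro rfl
      unfold num at hm
      have h1 := key _ (fun i g => ite_nonneg zero_le_one le_rfl) (hm.trans Nat.cast_zero)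
      have h2 : ∀ i ∈ Bdᶜ, ∀ g, 0 < stTh (α (yg C x i g)) := by
        intro i hi g
        have h3 := h1 i hi g
        have hn := st_th_ne hF hK1 (Finset.mem_compl.1 hi) g
        simp only [st_neg_iff] at h3
        split_ifs at h3 with h4
        · norm_num at h3
        · exact lt_of_le_of_ne (not_lt.1 h4) hn.symm
      have h5 := st_pts_pos C x (s := Bdᶜ) (f := fun i g => stTh (α (yg C x i g)))
        (fun i hi g => (h2 i hi g).le) hi₀' (g₀ := 1) (h2 i₀ hi₀' 1)
      rw [hs] at h5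
      exact lt_irrefl _ h5

theorem nup_eq_num (x : Fin 4 → G) (b K : ℕ) (C : Subgroup G) [C.Normal] (T : Subgroup G)
    (α : C →* ℂˣ) (I : Set G) (g₀ : G) (Bd : Finset (Fin 4)) (hF : IsFrame x b K C T α I Bd)
    (hI : IsInv C α I g₀) (hK1 : 1 < K) : nup C x Bd α = num C x Bd α := by
  unfold nup num pts
  refine Finset.sum_congr rfl fun i hi => ?_
  congr 1
  refine Fintype.sum_equiv (Equiv.mulLeft g₀) _ _ fun g => ?_
  have hi' := Finset.mem_compl.1 hi
  have h1 : yg C x i (g₀ * g) = MulAut.conjNormal g₀ (yg C x i g) := by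
    unfold yg
    rw [map_mul, MulAut.mul_apply]
  have h2 : stTh (α (yg C x i (g₀ * g))) = - stTh (α (yg C x i g)) := by
    rw [h1, hI.inv, ← map_inv]
    exact st_th_inv hF hK1 hi' g
  simp only [st_pos_iff, st_neg_iff, Equiv.coe_mulLeft, h2, neg_lt_zero]

/-- the trivial representation, small twists -/
theorem F_triv (x : Fin 4 → G) (b K : ℕ) (C : Subgroup G) [C.Normal] (T : Subgroup G)
    (α : C →* ℂˣ) (I : Set G) (Bd : Finset (Fin 4)) (hF : IsFrame x b K C T α I Bd)
    (hx : IsGenVec x) (hK : b < K) (hK1 : 1 < K) (k : ℤ) (hk : 1 ≤ k) (hk' : k ≤ K) :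
    Fa C x (twk (trivR C) α k) = nup C x Bd α ∧ Fb C x (twk (trivR C) α k) = num C x Bd α := by
  have h := st_triv_aux hF hK1 k hk hk'
  rw [st_sum_th hF hx hK hK1, mul_zero, sub_zero, add_zero] at h
  exact h

theorem F_period (x : Fin 4 → G) (C : Subgroup G) [C.Normal] [Fintype C] (α : C →* ℂˣ)
    (R : C →* Matrix (Fin d) (Fin d) ℂ) (k : ℤ) :
    Fa C x (twk R α (k + Fintype.card C)) = Fa C x (twk R α k) ∧
      Fb C x (twk R α (k + Fintype.card C)) = Fb C x (twk R α k) := by
  have h : twk R α (k + Fintype.card C) = twk R α k := by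
    refine MonoidHom.ext fun c => ?_
    show ((α c ^ (k + (Fintype.card C : ℤ)) : ℂˣ) : ℂ) • R c = ((α c ^ k : ℂˣ) : ℂ) • R c
    have h1 : α c ^ (Fintype.card C : ℤ) = 1 := by
      rw [_root_.zpow_natCast, ← map_pow, pow_card_eq_one, map_one]
    rw [_root_.zpow_add, h1, mul_one]
  rw [h]
  exact ⟨rfl, rfl⟩

theorem F_bound (x : Fin 4 → G) (C : Subgroup G) [C.Normal]
    (R : C →* Matrix (Fin d) (Fin d) ℂ) :
    0 ≤ Fa C x R ∧ Fa C x R ≤ 4 * C.index * d ∧ 0 ≤ Fb C x R ∧ Fb C x R ≤ 4 * C.index * d := by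
  have : Fintype C := Fintype.ofFinite _
  have h1 : pts C x univ (fun _ _ => (d : ℝ)) ≤ 4 * C.index * d := by
    rw [st_pts_const, mul_comm]
    exact mul_le_mul_of_nonneg_right (by exact_mod_cast step_index_div_le C x univ) (by positivity)
  refine ⟨st_pts_nonneg C x fun i _ g => (age_le R _).1, ?_, st_pts_nonneg C x fun i _ g => (age_le R _).1, ?_⟩
  · exact (st_pts_mono C x fun i _ g => (age_le R _).2).trans h1
  · exact (st_pts_mono C x fun i _ g => (age_le R _).2).trans h1

/-- the increments in a window -/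
theorem F_step (x : Fin 4 → G) (b K : ℕ) (C : Subgroup G) [C.Normal] (T : Subgroup G)
    (α : C →* ℂˣ) (I : Set G) (Bd : Finset (Fin 4)) (hF : IsFrame x b K C T α I Bd)
    (hx : IsGenVec x) (hK : b < K) (hK1 : 1 < K) (R : C →* Matrix (Fin d) (Fin d) ℂ)
    (k l : ℤ) (hkl : k ≤ l) (hlk : l ≤ k + K) :
    Fa C x (twk R α l) - Fa C x (twk R α k) ≤ d * nup C x Bd α ∧
      Fb C x (twk R α l) - Fb C x (twk R α k) ≤ d * num C x Bd α := by
  classical
  have : Fintype C := Fintype.ofFinite _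
  have hs := st_sum_th hF hx hK hK1
  have hlk' : (l : ℝ) ≤ k + K := by exact_mod_cast hlk
  have hkl' : (k : ℝ) ≤ l := by exact_mod_cast hkl
  have hsm : ∀ i ∉ Bd, ∀ g, ((l : ℝ) - k) * |stTh (α (yg C x i g))| < 1 := by
    intro i hi g
    have h1 := st_th_lt hF hi g
    have h2 := abs_nonneg (stTh (α (yg C x i g)))
    nlinarith
  have hone : ∀ u : C, α u = 1 → age (twk R α l u) = age (twk R α k u) := by
    intro u hu
    rw [step_age_twk, step_age_twk, hu, st_th_one, mul_zero, mul_zero]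
  constructor
  · unfold Fa nup
    rw [← st_pts_sub, st_pts_split C x Bd, st_pts_congr C x (s := Bd) (f' := fun _ _ => 0), st_pts_zero, zero_add]
    · have h1 : pts C x Bdᶜ (fun i g => age (twk R α l (yg C x i g)⁻¹) -
          age (twk R α k (yg C x i g)⁻¹)) ≤ pts C x Bdᶜ (fun i g => (-(d : ℝ) * (l - k)) *
            stTh (α (yg C x i g)) +
            d * (if 0 < Complex.arg ((α (yg C x i g) : ℂˣ) : ℂ) then 1 else 0)) := by
        refine st_pts_mono C x fun i hi g => ?_
        have hi' := Finset.mem_compl.1 hi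
        refine (st_age_step R α k l hkl _ (by
          rw [st_th_inv hF hK1 hi' g, abs_neg]; exact hsm i hi' g)).trans (le_of_eq ?_)
        rw [st_th_inv hF hK1 hi' g]
        simp only [st_pos_iff, neg_lt_zero]
        ring
      refine h1.trans (le_of_eq ?_)
      rw [st_pts_add, st_pts_mul, st_pts_mul, hs]
      ring
    · intro i hi g
      rw [hone _ (by rw [map_inv, (hF.bd i hi).2 g, inv_one]), sub_self]
  · unfold Fb num
    rw [← st_pts_sub, st_pts_split C x Bd, st_pts_congr C x (s := Bd) (f' := fun _ _ => 0), st_pts_zero, zero_add]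
    · have h1 : pts C x Bdᶜ (fun i g => age (twk R α l (yg C x i g)) -
          age (twk R α k (yg C x i g))) ≤ pts C x Bdᶜ (fun i g => ((d : ℝ) * (l - k)) *
            stTh (α (yg C x i g)) +
            d * (if Complex.arg ((α (yg C x i g) : ℂˣ) : ℂ) < 0 then 1 else 0)) := by
        refine st_pts_mono C x fun i hi g => ?_
        have hi' := Finset.mem_compl.1 hi
        refine (st_age_step R α k l hkl _ (hsm i hi' g)).trans (le_of_eq ?_)
        simp only [st_neg_iff]
        ring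
      refine h1.trans (le_of_eq ?_)
      rw [st_pts_add, st_pts_mul, st_pts_mul, hs]
      ring
    · intro i hi g
      rw [hone _ ((hF.bd i hi).2 g), sub_self]

/-- the averages over a period: `cA`, `cB` are the contributions of the points in `Bd` -/
theorem F_avg (x : Fin 4 → G) (b K : ℕ) (C : Subgroup G) [C.Normal] [Fintype C]
    (T : Subgroup G) (α : C →* ℂˣ) (I : Set G) (Bd : Finset (Fin 4))
    (hF : IsFrame x b K C T α I Bd) (hK1 : 1 < K) (R : C →* Matrix (Fin d) (Fin d) ℂ) :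
    ∃ cA cB : ℝ, cA + cB = mB C x Bd R ∧
      (cA = 0 ∧ mB C x Bd R = 0 ∨ 1 / (b : ℝ) ^ 2 ≤ cA) ∧
      (cB = 0 ∧ mB C x Bd R = 0 ∨ 1 / (b : ℝ) ^ 2 ≤ cB) ∧
      (Bd = univ → ∀ k, Fa C x (twk R α k) = cA ∧ Fb C x (twk R α k) = cB) ∧
      |∑ k ∈ range (Fintype.card C), Fa C x (twk R α k) -
        Fintype.card C * (cA + d * Ja C x Bd / 2)| ≤ Fintype.card C * (d * Ja C x Bd / (2 * K)) ∧
      |∑ k ∈ range (Fintype.card C), Fb C x (twk R α k) -
        Fintype.card C * (cB + d * Ja C x Bd / 2)| ≤ Fintype.card C * (d * Ja C x Bd / (2 * K)) := by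
  classical
  have hone : ∀ k, ∀ u : C, α u = 1 → age (twk R α k u) = age (R u) := by
    intro k u hu
    show age (((α u ^ k : ℂˣ) : ℂ) • R u) = _
    rw [hu, _root_.one_zpow, Units.val_one, one_smul]
  have honeI : ∀ k, ∀ u : C, α u = 1 → age (twk R α k u⁻¹) = age (R u⁻¹) := by
    intro k u hu
    exact hone k _ (by rw [map_inv, hu, inv_one])
  have hgap : ∀ f : Fin 4 → G → ℝ, (∀ i g, f i g = age (R (yg C x i g)) ∨
      f i g = age (R (yg C x i g)⁻¹)) →
      (∀ i ∈ Bd, ∀ g, ∀ h ∈ stHC C x i, f i (g * h) = f i g) →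
      (pts C x Bd f = 0 ∧ mB C x Bd R = 0 ∨ 1 / (b : ℝ) ^ 2 ≤ pts C x Bd f) := by
    intro f hf hinv
    by_cases hR : ∀ i ∈ Bd, ∀ g, R (yg C x i g) = 1
    · left
      constructor
      · rw [st_pts_congr C x (s := Bd) (f' := fun _ _ => 0), st_pts_zero]
        intro i hi g
        have h1 : R (yg C x i g)⁻¹ = 1 := by
          have h2 : R (yg C x i g) * R (yg C x i g)⁻¹ = 1 := by
            rw [← map_mul, mul_inv_cancel, map_one]
          rw [hR i hi g, one_mul] at h2
          exact h2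
        rcases hf i g with h | h
        · rw [h, hR i hi g, age_one]
        · rw [h, h1, age_one]
      · unfold mB
        rw [st_pts_congr C x (s := Bd) (f' := fun _ _ => 0), st_pts_zero]
        intro i hi g
        have h1 := age_add_inv R (yg C x i g)
        have h2 : R (yg C x i g)⁻¹ = 1 := by
          have h2 : R (yg C x i g) * R (yg C x i g)⁻¹ = 1 := by
            rw [← map_mul, mul_inv_cancel, map_one]
          rw [hR i hi g, one_mul] at h2
          exact h2
        rw [← h1, hR i hi g, h2, age_one, add_zero]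
    · right
      push Not at hR
      obtain ⟨i₀, hi₀, g₀, hR⟩ := hR
      have hord : orderOf (yg C x i₀ g₀) ≤ b := by
        have h1 : orderOf (yg C x i₀ g₀) = orderOf (yC C x i₀) :=
          MulEquiv.orderOf_eq (MulAut.conjNormal g₀ : C ≃* C) (yC C x i₀)
        rw [h1]
        exact (hF.bd i₀ hi₀).1
      have hpos : 0 < orderOf (yg C x i₀ g₀) := orderOf_pos _
      have hb : (1 : ℝ) ≤ b := by exact_mod_cast hpos.trans_le hord
      have hb1 : 1 / (b : ℝ) ≤ 1 / (orderOf (yg C x i₀ g₀) : ℝ) :=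
        one_div_le_one_div_of_le (by exact_mod_cast hpos) (by exact_mod_cast hord)
      have hb2 : 1 / (b : ℝ) ^ 2 ≤ 1 / (b : ℝ) :=
        one_div_le_one_div_of_le (by linarith) (by nlinarith)
      have h1 : R (yg C x i₀ g₀)⁻¹ ≠ 1 := by
        intro h2
        apply hR
        have h3 : R (yg C x i₀ g₀) * R (yg C x i₀ g₀)⁻¹ = 1 := by
          rw [← map_mul, mul_inv_cancel, map_one]
        rw [h2, mul_one] at h3
        exact h3
      have h4 : 1 / (orderOf (yg C x i₀ g₀) : ℝ) ≤ f i₀ g₀ := by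
        rcases hf i₀ g₀ with h | h
        · rw [h]
          exact (age_zero R (yg C x i₀ g₀)).resolve_left fun h => hR h.1
        · rw [h]
          have h5 := (age_zero R (yg C x i₀ g₀)⁻¹).resolve_left fun h => h1 h.1
          rw [orderOf_inv] at h5
          exact h5
      refine (hb2.trans hb1).trans (h4.trans (st_pts_ge C x Bd f hinv (fun i _ g => ?_) hi₀ g₀))
      rcases hf i g with h | h <;> rw [h] <;> exact (age_le R _).1
  have havg : ∀ (cX : ℝ) (u : Fin 4 → G → C), (∀ i g, u i g = yg C x i g ∨ u i g = (yg C x i g)⁻¹) →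
      pts C x Bd (fun i g => age (R (u i g))) = cX →
      |∑ k ∈ range (Fintype.card C), pts C x univ (fun i g => age (twk R α k (u i g))) -
        Fintype.card C * (cX + d * Ja C x Bd / 2)| ≤
          Fintype.card C * (d * Ja C x Bd / (2 * K)) := by
    intro cX u hu hcX
    have hKr : (1 : ℝ) < K := by exact_mod_cast hK1
    have h1 : ∑ k ∈ range (Fintype.card C), pts C x univ (fun i g => age (twk R α k (u i g))) -
        Fintype.card C * (cX + d * Ja C x Bd / 2) =
        pts C x Bdᶜ (fun i g => ∑ k ∈ range (Fintype.card C), age (twk R α k (u i g)) -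
          (Fintype.card C * d / 2 : ℝ)) := by
      have h2 : ∀ k ∈ range (Fintype.card C), pts C x univ (fun i g => age (twk R α k (u i g))) =
          cX + pts C x Bdᶜ (fun i g => age (twk R α k (u i g))) := by
        intro k _
        rw [st_pts_split C x Bd, ← hcX]
        congr 1
        refine st_pts_congr C x fun i hi g => ?_
        rcases hu i g with h | h
        · rw [h, hone _ _ ((hF.bd i hi).2 g)]
        · rw [h, honeI _ _ ((hF.bd i hi).2 g)]
      rw [Finset.sum_congr rfl h2, Finset.sum_add_distrib, Finset.sum_const, card_range,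
        nsmul_eq_mul, st_pts_sub, st_pts_sum, st_pts_const]
      unfold Ja
      ring
    rw [h1]
    refine (st_pts_abs C x (c := Fintype.card C * (d / (2 * K))) fun i hi g => ?_).trans
      (le_of_eq (by unfold Ja; ring))
    have hi' := Finset.mem_compl.1 hi
    have hK2 : K ≤ orderOf (α (u i g)) := by
      have h3 := (hF.ub i hi' g).1
      rcases hu i g with h | h
      · rw [h]; exact h3
      · rw [h, map_inv, orderOf_inv]; exact h3
    exact st_avg R α (u i g) K (by omega) hK2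
  refine ⟨pts C x Bd (fun i g => age (R (yg C x i g)⁻¹)), pts C x Bd (fun i g => age (R (yg C x i g))),
    ?_, hgap _ (fun i g => Or.inr rfl) (fun i _ g h hh => st_age_yg_mul_inv C x R g hh),
    hgap _ (fun i g => Or.inl rfl) (fun i _ g h hh => st_age_yg_mul C x R g hh), ?_,
    havg _ (fun i g => (yg C x i g)⁻¹) (fun i g => Or.inr rfl) rfl,
    havg _ (fun i g => yg C x i g) (fun i g => Or.inl rfl) rfl⟩
  · rw [← st_pts_add]
    unfold mB
    refine st_pts_congr C x fun i _ g => ?_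
    rw [add_comm]
    exact age_add_inv R (yg C x i g)
  · rintro rfl k
    constructor
    · exact st_pts_congr C x fun i _ g => honeI k _ ((hF.bd i (mem_univ _)).2 g)
    · exact st_pts_congr C x fun i _ g => hone k _ ((hF.bd i (mem_univ _)).2 g)

omit [Fintype G] in
theorem K_le_card (x : Fin 4 → G) (b K : ℕ) (C : Subgroup G) [C.Normal] [Fintype C]
    (T : Subgroup G) (α : C →* ℂˣ) (I : Set G) (Bd : Finset (Fin 4))
    (hF : IsFrame x b K C T α I Bd) (hBd : Bd ≠ univ) : K ≤ Fintype.card C := by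
  obtain ⟨i₀, hi₀⟩ : ∃ i, i ∉ Bd := by
    by_contra h
    push Not at h
    exact hBd (Finset.eq_univ_iff_forall.2 h)
  have h1 : orderOf (α (yg C x i₀ 1)) ∣ Fintype.card C := by
    refine orderOf_dvd_of_pow_eq_one ?_
    rw [← map_pow, pow_card_eq_one, map_one]
  exact (hF.ub i₀ hi₀ 1).1.trans (Nat.le_of_dvd Fintype.card_pos h1)

end StepMain

end Pool.Agent.CO30
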