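import Pool.Agent.CO30.Win
import Pool.Agent.CO30.Step
import Pool.Agent.CO30.Sm
import Pool.Agent.CO30.Jmp
import Pool.Agent.CO30.En

/-!
# Four branch points: inverting elements
-/

namespace Pool.Agent.CO30

open Matrix Finset Pool.Agent.CO75

section

variable {G : Type} [Group G] [Fintype G] {d : ℕ}

/-- The sets of good elements of a window are not empty. -/
private theorem inv_exists_good {K s : ℕ} (k₀ : ℤ) (P : ℤ → Prop) [DecidablePred P]
    (h : ((Finset.Ico k₀ (k₀ + K)).filter fun k => ¬ P k).card ≤ s) (hs : s < K) :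
    ∃ k, k₀ ≤ k ∧ k < k₀ + K ∧ P k := by
  by_contra hcon
  push Not at hcon
  have h1 : (Finset.Ico k₀ (k₀ + K)).filter (fun k => ¬ P k) = Finset.Ico k₀ (k₀ + K) := by
    refine Finset.filter_true_of_mem fun k hk => ?_
    rw [Finset.mem_Ico] at hk
    exact hcon k hk.1 hk.2
  rw [h1, Int.card_Ico] at h
  omega

omit [Fintype G] in
private theorem inv_fx_conj {C : Subgroup G} [Fintype C] (R : C →* Matrix (Fin d) (Fin d) ℂ) (a y : C) :
    fx (R (a * y * a⁻¹)) = fx (R y) := by
  have ho : orderOf (a * y * a⁻¹) = orderOf y := by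
    have h2 : a * y * a⁻¹ = MulAut.conj a y := by simp [MulAut.conj_apply]
    rw [h2, MulEquiv.orderOf_eq]
  have h1 := fx_eq R (a * y * a⁻¹)
  have h2 := fx_eq R y
  rw [ho] at h1
  have h3 : ∀ s, (R ((a * y * a⁻¹) ^ s)).trace = (R (y ^ s)).trace := by
    intro s
    rw [conj_pow, map_mul, map_mul, Matrix.trace_mul_comm, ← Matrix.mul_assoc, ← map_mul,
      inv_mul_cancel, map_one, Matrix.one_mul]
  simp only [h3] at h1
  rw [← h2] at h1
  exact_mod_cast h1

omit [Fintype G] in
private theorem inv_fx_one {C : Subgroup G} (R : C →* Matrix (Fin d) (Fin d) ℂ) :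
    fx (R 1) = d := by
  rw [map_one]
  unfold fx
  rw [Matrix.charpoly_one, Fintype.card_fin, ← Polynomial.C_1, Polynomial.rootMultiplicity_X_sub_C_pow]

private theorem inv_mB_single (C : Subgroup G) [C.Normal] [Fintype C] (x : Fin 4 → G)
    (hidx : C.index = 2) (ho : ∀ i, oC C x i = 2) (hxC : ∀ i, x i ∉ C) (i₀ : Fin 4)
    (hy : ∀ i, i ≠ i₀ → yC C x i = 1) (R : C →* Matrix (Fin d) (Fin d) ℂ) :
    mB C x univ R = (d : ℝ) - fx (R (yC C x i₀)) := by
  unfold mB pts
  rw [Finset.sum_eq_single i₀]
  · have h1 : ∀ g : G, fx (R (yg C x i₀ g)) = fx (R (yC C x i₀)) := by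
      intro g
      by_cases hg : g ∈ C
      · have : yg C x i₀ g = (⟨g, hg⟩ : C) * yC C x i₀ * (⟨g, hg⟩ : C)⁻¹ := by
          apply Subtype.ext
          simp [yg, MulAut.conjNormal_apply]
        rw [this, inv_fx_conj]
      · have hg' : g * (x i₀)⁻¹ ∈ C := by
          rw [Subgroup.mul_mem_iff_of_index_two hidx]
          constructor
          · intro h; exact absurd h hg
          · intro h; exact absurd (inv_mem_iff.1 h) (hxC i₀)
        have : yg C x i₀ g = (⟨_, hg'⟩ : C) * yC C x i₀ * (⟨_, hg'⟩ : C)⁻¹ := by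
          apply Subtype.ext
          simp only [yg, MulAut.conjNormal_apply, Subgroup.coe_mul, Subgroup.coe_inv, yC, ho]
          group
        rw [this, inv_fx_conj]
    have hn : (Fintype.card G : ℝ) = 2 * (Nat.card C : ℝ) := by
      rw [← Nat.card_eq_fintype_card, ← C.card_mul_index, hidx]
      push_cast
      ring
    have hC0 : (Nat.card C : ℝ) ≠ 0 := by
      exact_mod_cast Nat.card_pos.ne'
    simp only [h1, Finset.sum_const, Finset.card_univ, nsmul_eq_mul, hn, ho]
    push_cast
    field_simp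
  · intro i _ hi
    have h1 : ∀ g : G, yg C x i g = 1 := by
      intro g
      unfold yg
      rw [hy i hi, map_one]
    simp only [h1, inv_fx_one, sub_self, Finset.sum_const_zero, mul_zero]
  · intro h
    exact absurd (Finset.mem_univ _) h

end

theorem with_inv (b : ℕ) : ∃ K₀ : ℕ, ∀ K, K₀ ≤ K → ∀ (G : Type) [Group G] [Fintype G]
    (x : Fin 4 → G) (C : Subgroup G) [C.Normal] (T : Subgroup G) (α : C →* ℂˣ) (I : Set G)
    (g₀ : G) (Bd : Finset (Fin 4)), IsFrame x b K C T α I Bd → IsInv C α I g₀ → IsGenVec x →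
    0 < area x → (numN x).re ≤ 1 → False := by
  obtain ⟨K₀, hK₀⟩ := jump_main b
  refine ⟨K₀ + (4 * b ^ 2 + 4 * b) + b + 3, ?_⟩
  intro K hK G _ _ x C _ T α I g₀ Bd hF hI hx hA hN
  classical
  have : Fintype C := Fintype.ofFinite C
  obtain ⟨WC⟩ := exists_wedd C
  have hKs : 4 * b ^ 2 + 4 * b < K := by omega
  have hKb : b < K := by omega
  have hK1 : 1 < K := by omega
  have hq0 : C.index ≠ 0 := C.index_ne_zero_of_finite
  have hqpos : 0 < C.index := Nat.pos_of_ne_zero hq0
  have hq2 : 2 ≤ C.index := by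
    have h1 : C.index ≠ 1 := by
      rw [Ne, Subgroup.index_eq_one]
      intro h
      apply hI.not_mem
      rw [h]
      trivial
    omega
  have hcardC : (0 : ℝ) < (Fintype.card C : ℝ) := by exact_mod_cast Fintype.card_pos
  -- the orders
  have hoC := fun i => oC_facts x hx C i
  have hopos : ∀ i, (0 : ℝ) < (oC C x i : ℝ) := fun i => by exact_mod_cast (hoC i).2.1
  have hdiv : ∀ i, ((C.index / oC C x i : ℕ) : ℝ) = (C.index : ℝ) / (oC C x i : ℝ) := by
    intro i
    rw [Nat.cast_div (hoC i).1 (hopos i).ne']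
  have hyub : ∀ i, i ∉ Bd → yC C x i ≠ 1 := by
    intro i hi h1
    have h2 := (hF.ub i hi 1).1
    have h3 : yg C x i 1 = 1 := by
      unfold yg
      rw [h1, map_one]
    rw [h3, map_one, orderOf_one] at h2
    omega
  have hwpos : ∀ i, 0 < orderOf (yC C x i) := fun i => orderOf_pos _
  have hwnn : ∀ i, 0 ≤ 1 - 1 / (orderOf (yC C x i) : ℝ) := by
    intro i
    have h1 : (1 : ℝ) ≤ (orderOf (yC C x i) : ℝ) := by exact_mod_cast hwpos i
    have h2 : 1 / (orderOf (yC C x i) : ℝ) ≤ 1 := by
      rw [div_le_one (by linarith)]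
      exact h1
    linarith
  have hwhalf : ∀ i, yC C x i ≠ 1 → 1 / 2 ≤ 1 - 1 / (orderOf (yC C x i) : ℝ) := by
    intro i hi
    have h0 : orderOf (yC C x i) ≠ 1 := fun h => hi (orderOf_eq_one_iff.1 h)
    have h1 : 2 ≤ orderOf (yC C x i) := by have := hwpos i; omega
    have h1' : (2 : ℝ) ≤ (orderOf (yC C x i) : ℝ) := by exact_mod_cast h1
    have h2 : 1 / (orderOf (yC C x i) : ℝ) ≤ 1 / 2 :=
      one_div_le_one_div_of_le (by norm_num) h1'
    linarith
  -- the trivial representation
  obtain ⟨p, m, hp, hm, hJ, hpm⟩ := nup_num x b K C T α I Bd hF hx hKb hK1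
  have hnn := nup_eq_num x b K C T α I g₀ Bd hF hI hK1
  obtain ⟨h₀, hh₀⟩ := hh_nat C x hx
  obtain ⟨hsq, hαsq⟩ := hI.sq
  have htriv : hh C x = -(p : ℝ) ∧ hh C x = -(m : ℝ) := by
    obtain ⟨k, hk1, hk2, a, b', ha, hb', -, -, h1, -⟩ := inv_exists_good 1 _
      (window_I x b K C T α I g₀ Bd hF hI hx hN (trivR C) irr_triv 1) hKs
    obtain ⟨ha0, hb0⟩ := h1 (nuT_triv C g₀ hsq)
    obtain ⟨hFa, hFb⟩ := F_triv x b K C T α I Bd hF hx hKb hK1 k hk1 (by omega)
    rw [hFa, hp, ha0] at ha
    rw [hFb, hm, hb0] at hb'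
    push_cast at ha hb'
    constructor <;> linarith
  have hpm' : p = m := by
    have : (p : ℝ) = m := by linarith [htriv.1, htriv.2]
    exact_mod_cast this
  subst hpm'
  -- the indicators
  set ν : Fin WC.N → ℝ := fun j => (nuT C g₀ (WC.R j)).re with hν
  have hνc := fun j => nuT_cases C g₀ (WC.R j) (irr_wedd WC j)
  set I₀ : ℕ := (univ.filter fun c : C => (g₀ * c) ^ 2 = 1).card with hI₀
  have hsumν : ∑ j, (WC.d j : ℝ) * ν j = (I₀ : ℝ) := by
    have h1 := congrArg Complex.re (sum_nuT C WC g₀ hsq)
    rw [Complex.re_sum, Complex.natCast_re] at h1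
    rw [← h1]
    refine Finset.sum_congr rfl fun j _ => ?_
    rw [← Complex.ofReal_natCast, Complex.re_ofReal_mul]
  have hsumsq : ∑ j, (WC.d j : ℝ) ^ 2 = (Fintype.card C : ℝ) := by exact_mod_cast WC.sum_sq
  have hdpos : ∀ j, (1 : ℝ) ≤ (WC.d j : ℝ) := fun j => by exact_mod_cast WC.pos j
  set S : ℝ := ∑ i ∈ Bd, (C.index : ℝ) / (oC C x i : ℝ) * (1 - 1 / (orderOf (yC C x i) : ℝ)) with hS
  have hsumB : ∑ j, (WC.d j : ℝ) * mB C x Bd (WC.R j) = (Fintype.card C : ℝ) * S :=
    sum_mB x C WC Bd
  have hterm : ∀ i, 0 ≤ (C.index : ℝ) / (oC C x i : ℝ) * (1 - 1 / (orderOf (yC C x i) : ℝ)) :=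
    fun i => mul_nonneg (by positivity) (hwnn i)
  have hinvol : ∀ i, yC C x i = 1 → oC C x i = 2 → C.index = 2 → 1 ≤ I₀ := by
    intro i hi ho hidx
    have hxi : x i ∉ C := fun h => by
      have := (hoC i).2.2.1.2 h
      omega
    have hmem : g₀⁻¹ * x i ∈ C := by
      rw [Subgroup.mul_mem_iff_of_index_two hidx]
      constructor
      · intro h; exact absurd (inv_mem_iff.1 h) hI.not_mem
      · intro h; exact absurd h hxi
    rw [hI₀, Nat.one_le_iff_ne_zero, Finset.card_ne_zero]
    refine ⟨⟨_, hmem⟩, ?_⟩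
    rw [Finset.mem_filter]
    refine ⟨Finset.mem_univ _, ?_⟩
    have h1 : (yC C x i : G) = 1 := by rw [hi]; rfl
    have h2 : (yC C x i : G) = x i ^ 2 := by
      change x i ^ oC C x i = _
      rw [ho]
    have h3 : g₀ * (g₀⁻¹ * x i) = x i := by group
    change (g₀ * (g₀⁻¹ * x i)) ^ 2 = 1
    rw [h3, ← h2, h1]
  rcases Nat.lt_or_ge p 1 with hp0 | hp1
  · -- genus 1
    have hp0 : p = 0 := by omega
    subst hp0
    have hBd : Bd = univ := by
      by_contra h
      have := (hpm h).1
      omega
    subst hBd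
    have hh0 : hh C x = 0 := by rw [htriv.1]; simp
    have hJ0 : Ja C x univ = 0 := by rw [hJ]; simp
    -- the number of fixed vectors
    have hmB : ∀ j, (nuT C g₀ (WC.R j) ≠ -1 → mB C x univ (WC.R j) = 0) ∧
        (nuT C g₀ (WC.R j) = -1 → mB C x univ (WC.R j) = 0 ∨ mB C x univ (WC.R j) = 2) := by
      intro j
      obtain ⟨k, -, -, a, b', ha, hb', hab, hn0, hn1, hn2⟩ := inv_exists_good 0 _
        (window_I x b K C T α I g₀ univ hF hI hx hN (WC.R j) (irr_wedd WC j) 0) hKs
      rw [hh0, mul_zero, zero_add] at ha hb'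
      rw [hJ0, mul_zero, zero_add] at hab
      obtain ⟨cA, cB, -, hcA, hcB, hAB, -, -⟩ := F_avg x b K C T α I univ hF hK1 (WC.R j)
      obtain ⟨hA', hB'⟩ := hAB rfl k
      constructor
      · intro hne
        rcases hνc j with h | h | h
        · rcases Nat.mul_eq_zero.1 (hn0 h) with h0 | h0
          · rw [h0, Nat.cast_zero] at ha
            rcases hcA with h3 | h3
            · exact h3.2
            · exfalso
              rw [← hA', ← ha] at h3
              have hb0 : (0 : ℝ) < (b : ℝ) := by
                have h5 : 0 < T.index := Nat.pos_of_ne_zero T.index_ne_zero_of_finite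
                exact_mod_cast lt_of_lt_of_le h5 hF.index_le
              have : 0 < 1 / (b : ℝ) ^ 2 := by positivity
              linarith
          · rw [h0, Nat.cast_zero] at hb'
            rcases hcB with h3 | h3
            · exact h3.2
            · exfalso
              rw [← hB', ← hb'] at h3
              have hb0 : (0 : ℝ) < (b : ℝ) := by
                have h5 : 0 < T.index := Nat.pos_of_ne_zero T.index_ne_zero_of_finite
                exact_mod_cast lt_of_lt_of_le h5 hF.index_le
              have : 0 < 1 / (b : ℝ) ^ 2 := by positivity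
              linarith
        · obtain ⟨h3, h4⟩ := hn1 h
          rw [← hab, ← ha, ← hb', h3, h4]
          norm_num
        · exact absurd h hne
      · intro hn
        obtain ⟨h3, h4⟩ := hn2 hn
        rw [← hab, ← ha, ← hb', h3]
        interval_cases b'
        · left; norm_num
        · right; norm_num
    have hper : ∀ j, (WC.d j : ℝ) * mB C x univ (WC.R j) ≤ (WC.d j : ℝ) ^ 2 - (WC.d j : ℝ) * ν j := by
      intro j
      have hd := hdpos j
      rcases hνc j with h | h | h
      · rw [(hmB j).1 (by rw [h]; norm_num), hν]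
        simp only [h, Complex.zero_re]
        nlinarith
      · rw [(hmB j).1 (by rw [h]; norm_num), hν]
        simp only [h, Complex.one_re]
        nlinarith
      · rw [hν]
        simp only [h, Complex.neg_re, Complex.one_re]
        rcases (hmB j).2 h with h5 | h5
        · rw [h5]; nlinarith
        · rw [h5]; nlinarith
    have hSle : (Fintype.card C : ℝ) * S ≤ (Fintype.card C : ℝ) - I₀ := by
      rw [← hsumB, ← hsumν, ← hsumsq, ← Finset.sum_sub_distrib]
      exact Finset.sum_le_sum fun j _ => hper j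
    have hS1 : S ≤ 1 := by
      have h1 : (0 : ℝ) ≤ I₀ := Nat.cast_nonneg _
      nlinarith
    -- all the orders are 2
    have hall : ∀ i, oC C x i = 2 := by
      rcases arith_zero C.index hqpos (oC C x) (fun i => (hoC i).1) hh0 with h | ⟨h3, i, hi⟩
      · exact h
      · exfalso
        have h4 := (hoC i).2.2.2.1 hi
        have h5 := hwhalf i h4
        have h6 : (C.index : ℝ) / (oC C x i : ℝ) * (1 - 1 / (orderOf (yC C x i) : ℝ)) ≤ S :=
          Finset.single_le_sum (f := fun i => (C.index : ℝ) / (oC C x i : ℝ) *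
            (1 - 1 / (orderOf (yC C x i) : ℝ))) (fun i _ => hterm i) (Finset.mem_univ i)
        rw [hi, Nat.cast_one, div_one] at h6
        have h7 : (3 : ℝ) ≤ (C.index : ℝ) := by exact_mod_cast h3
        nlinarith
    have hidx : C.index = 2 := by
      have := index_two x hx b K C T α I univ hF (by omega) rfl hall
      omega
    have hxC : ∀ i, x i ∉ C := by
      intro i h
      have h1 := (hoC i).2.2.1.2 h
      have h2 := hall i
      omega
    have hSeq : S = ∑ i, (1 - 1 / (orderOf (yC C x i) : ℝ)) := by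
      rw [hS]
      refine Finset.sum_congr rfl fun i _ => ?_
      rw [hall i, hidx]
      norm_num
    -- some square is trivial
    obtain ⟨i₁, hi₁⟩ : ∃ i, yC C x i = 1 := by
      by_contra hcon
      push Not at hcon
      have h1 : (2 : ℝ) ≤ S := by
        rw [hSeq]
        calc (2 : ℝ) = ∑ _i : Fin 4, (1 / 2 : ℝ) := by
              rw [Finset.sum_const, Finset.card_univ, Fintype.card_fin]; norm_num
          _ ≤ _ := Finset.sum_le_sum fun i _ => hwhalf i (hcon i)
      linarith
    have hI1 : 1 ≤ I₀ := hinvol i₁ hi₁ (hall i₁) hidx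
    have hI1' : (1 : ℝ) ≤ I₀ := by exact_mod_cast hI1
    have hSlt : S < 1 := by nlinarith
    -- exactly one square is not trivial
    obtain ⟨i₀, hi₀⟩ : ∃ i, yC C x i ≠ 1 := by
      by_contra hcon
      push Not at hcon
      have h1 : ∀ i, orderOf (x i) = 2 := by
        intro i
        rw [(hoC i).2.2.2.2, hall i, hcon i, orderOf_one]
      have h2 : area x = 0 := by
        unfold area
        simp only [h1]
        rw [Finset.sum_const, Finset.card_univ, Fintype.card_fin]
        norm_num
      linarith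
    have huniq : ∀ i, i ≠ i₀ → yC C x i = 1 := by
      intro i hi
      by_contra hcon
      have h1 : (1 - 1 / (orderOf (yC C x i₀) : ℝ)) + (1 - 1 / (orderOf (yC C x i) : ℝ)) ≤ S := by
        rw [hSeq]
        calc _ = ∑ k ∈ ({i₀, i} : Finset (Fin 4)), (1 - 1 / (orderOf (yC C x k) : ℝ)) := by
              rw [Finset.sum_pair (fun h => hi h.symm)]
          _ ≤ _ := Finset.sum_le_sum_of_subset_of_nonneg (Finset.subset_univ _)
              fun k _ _ => hwnn k
      have h2 := hwhalf i₀ hi₀
      have h3 := hwhalf i hcon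
      linarith
    have hSone : S = 1 - 1 / (orderOf (yC C x i₀) : ℝ) := by
      rw [hSeq, Finset.sum_eq_single i₀]
      · intro i _ hi
        rw [huniq i hi, orderOf_one]
        norm_num
      · intro h; exact absurd (Finset.mem_univ _) h
    -- the quaternionic ones have degree at least two
    have hxi₁ : ∃ c : C, (g₀ * c) ^ 2 = 1 := by
      have : 0 < I₀ := hI1
      rw [hI₀, Finset.card_pos] at this
      obtain ⟨c, hc⟩ := this
      exact ⟨c, (Finset.mem_filter.1 hc).2⟩
    obtain ⟨c₁, hc₁⟩ := hxi₁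
    have hd2 : ∀ j, nuT C g₀ (WC.R j) = -1 → 2 ≤ WC.d j := by
      intro j hj
      by_contra hcon
      have hd1 : WC.d j = 1 := by have := WC.pos j; omega
      revert hj
      have key : ∀ (d : ℕ) (R : C →* Matrix (Fin d) (Fin d) ℂ), d = 1 → nuT C g₀ R ≠ -1 := by
        intro d R hd
        subst hd
        exact nuT_ne_neg C g₀ R c₁ hc₁
      exact key _ _ hd1
    have hper2 : ∀ j, 3 * ((WC.d j : ℝ) * mB C x univ (WC.R j)) ≤
        2 * ((WC.d j : ℝ) ^ 2 - (WC.d j : ℝ) * ν j) := by
      intro j
      have hd := hdpos j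
      rcases hνc j with h | h | h
      · rw [(hmB j).1 (by rw [h]; norm_num), hν]
        simp only [h, Complex.zero_re]
        nlinarith
      · rw [(hmB j).1 (by rw [h]; norm_num), hν]
        simp only [h, Complex.one_re]
        nlinarith
      · have hd' : (2 : ℝ) ≤ (WC.d j : ℝ) := by exact_mod_cast hd2 j h
        rw [hν]
        simp only [h, Complex.neg_re, Complex.one_re]
        rcases (hmB j).2 h with h5 | h5
        · rw [h5]; nlinarith
        · rw [h5]; nlinarith
    have hS2 : 3 * ((Fintype.card C : ℝ) * S) ≤ 2 * ((Fintype.card C : ℝ) - I₀) := by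
      rw [← hsumB, ← hsumν, ← hsumsq, ← Finset.sum_sub_distrib, Finset.mul_sum, Finset.mul_sum]
      exact Finset.sum_le_sum fun j _ => hper2 j
    have hw2 : orderOf (yC C x i₀) = 2 := by
      have h1 : S < 2 / 3 := by nlinarith
      rw [hSone] at h1
      have h0 : orderOf (yC C x i₀) ≠ 1 := fun h => hi₀ (orderOf_eq_one_iff.1 h)
      have h2 := hwpos i₀
      by_contra h3
      have h4 : 3 ≤ orderOf (yC C x i₀) := by omega
      have h4' : (3 : ℝ) ≤ (orderOf (yC C x i₀) : ℝ) := by exact_mod_cast h4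
      have h5 : 1 / (orderOf (yC C x i₀) : ℝ) ≤ 1 / 3 :=
        one_div_le_one_div_of_le (by norm_num) h4'
      linarith
    refine endgame x hx C hidx hxC i₀ ?_ ?_ WC (yC C x i₀) ?_ g₀ hI.not_mem ?_
    · rw [(hoC i₀).2.2.2.2, hall i₀, hw2]
    · intro i hi
      rw [(hoC i).2.2.2.2, hall i, huniq i hi, orderOf_one]
    · change x i₀ ^ oC C x i₀ = _
      rw [hall i₀]
    · intro j
      have h1 := inv_mB_single C x hidx hall hxC i₀ huniq (WC.R j)
      by_cases hj : nuT C g₀ (WC.R j) = -1
      · rcases (hmB j).2 hj with h2 | h2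
        · left
          rw [h1] at h2
          have : (fx (WC.R j (yC C x i₀)) : ℝ) = WC.d j := by linarith
          exact_mod_cast this
        · right
          refine ⟨hj, ?_⟩
          rw [h1] at h2
          have : (fx (WC.R j (yC C x i₀)) : ℝ) + 2 = WC.d j := by linarith
          exact_mod_cast this
      · left
        have h2 := (hmB j).1 hj
        rw [h1] at h2
        have : (fx (WC.R j (yC C x i₀)) : ℝ) = WC.d j := by linarith
        exact_mod_cast this
  · -- genus 0
    have hp1 : p = 1 := by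
      have h1 := htriv.1
      rw [hh₀] at h1
      have h2 : (p : ℝ) ≤ 1 := by
        have : (0 : ℝ) ≤ h₀ := Nat.cast_nonneg _
        linarith
      have : p ≤ 1 := by exact_mod_cast h2
      omega
    subst hp1
    have hh1 : hh C x = -1 := by rw [htriv.1]; simp
    have hJ2 : Ja C x Bd = 2 := by rw [hJ]; norm_num
    have hbd : ∀ j, (nuT C g₀ (WC.R j) = 0 → mB C x Bd (WC.R j) ≤ WC.d j) ∧
        (nuT C g₀ (WC.R j) = 1 → mB C x Bd (WC.R j) = 0) ∧
        (nuT C g₀ (WC.R j) = -1 → mB C x Bd (WC.R j) ≤ 2) := by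
      intro j
      have hwin := window_I x b K C T α I g₀ Bd hF hI hx hN (WC.R j) (irr_wedd WC j)
      refine ⟨fun h => ?_, fun h => ?_, fun h => ?_⟩
      · have h1 := hK₀ K (by omega) G x C T α I Bd hF hx (Or.inl (by rw [hp]; simp)) (WC.d j)
          (WC.R j) (irr_wedd WC j) (by
            intro k₀
            refine le_trans (Finset.card_le_card ?_) (hwin k₀)
            intro k hk
            rw [Finset.mem_filter] at hk ⊢
            refine ⟨hk.1, fun hg => hk.2 ?_⟩
            obtain ⟨a, b', ha, hb', hab, hn0, -, -⟩ := hg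
            refine ⟨hab, ?_⟩
            rw [hh1] at ha hb'
            rcases Nat.mul_eq_zero.1 (hn0 h) with h0 | h0
            · left
              rw [h0, Nat.cast_zero] at ha
              linarith
            · right
              rw [h0, Nat.cast_zero] at hb'
              linarith)
        rw [hJ2] at h1
        linarith
      · obtain ⟨k, -, -, a, b', ha, hb', hab, -, hn1, -⟩ := inv_exists_good 0 _ (hwin 0) hKs
        obtain ⟨h3, h4⟩ := hn1 h
        rw [h3, hh1, Nat.cast_zero] at ha
        rw [h4, hh1, Nat.cast_zero] at hb'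
        rw [hJ2] at hab
        linarith
      · obtain ⟨k, -, -, a, b', ha, hb', hab, -, -, hn2⟩ := inv_exists_good 0 _ (hwin 0) hKs
        obtain ⟨h3, h4⟩ := hn2 h
        rw [h3, hh1] at ha
        rw [hh1] at hb'
        rw [hJ2] at hab
        have h5 : (b' : ℝ) ≤ 1 := by exact_mod_cast h4
        linarith
    have hper : ∀ j, (WC.d j : ℝ) * mB C x Bd (WC.R j) ≤ (WC.d j : ℝ) ^ 2 - (WC.d j : ℝ) * ν j := by
      intro j
      have hd := hdpos j
      rcases hνc j with h | h | h
      · rw [hν]
        simp only [h, Complex.zero_re]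
        nlinarith [(hbd j).1 h]
      · rw [(hbd j).2.1 h, hν]
        simp only [h, Complex.one_re]
        nlinarith
      · rw [hν]
        simp only [h, Complex.neg_re, Complex.one_re]
        nlinarith [(hbd j).2.2 h]
    have hSle : (Fintype.card C : ℝ) * S ≤ (Fintype.card C : ℝ) - I₀ := by
      rw [← hsumB, ← hsumν, ← hsumsq, ← Finset.sum_sub_distrib]
      exact Finset.sum_le_sum fun j _ => hper j
    have hI0 : (0 : ℝ) ≤ I₀ := Nat.cast_nonneg _
    have hS1 : S ≤ 1 := by nlinarith
    -- count the points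
    set U : Finset (Fin 4) := univ.filter fun i => yC C x i ≠ 1 with hU
    have hUo : ∀ i, oC C x i = 1 → i ∈ U := by
      intro i hi
      rw [hU, Finset.mem_filter]
      exact ⟨Finset.mem_univ _, (hoC i).2.2.2.1 hi⟩
    have hsplit : ∑ i ∈ U, C.index / oC C x i =
        ∑ i ∈ Bdᶜ, C.index / oC C x i + ∑ i ∈ U ∩ Bd, C.index / oC C x i := by
      rw [← Finset.sum_union]
      · congr 1
        ext i
        simp only [hU, Finset.mem_filter, Finset.mem_univ, true_and, Finset.mem_union,
          Finset.mem_compl, Finset.mem_inter]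
        constructor
        · intro h
          by_cases hi : i ∈ Bd
          · exact Or.inr ⟨h, hi⟩
          · exact Or.inl hi
        · rintro (h | h)
          · exact hyub i h
          · exact h.1
      · rw [Finset.disjoint_left]
        intro i hi hi'
        rw [Finset.mem_compl] at hi
        exact hi (Finset.mem_inter.1 hi').2
    have hJn : ∑ i ∈ Bdᶜ, C.index / oC C x i = 2 := by
      have h1 : ((∑ i ∈ Bdᶜ, C.index / oC C x i : ℕ) : ℝ) = 2 := by
        push_cast
        rw [← hJ2]
        unfold Ja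
        refine Finset.sum_congr rfl fun i _ => ?_
        rw [← hdiv i]
      exact_mod_cast h1
    have hSge : (1 / 2 : ℝ) * ((∑ i ∈ U ∩ Bd, C.index / oC C x i : ℕ) : ℝ) ≤ S := by
      push_cast
      rw [Finset.mul_sum, hS]
      calc ∑ i ∈ U ∩ Bd, (1 / 2 : ℝ) * ((C.index / oC C x i : ℕ) : ℝ) ≤
          ∑ i ∈ U ∩ Bd, (C.index : ℝ) / (oC C x i : ℝ) * (1 - 1 / (orderOf (yC C x i) : ℝ)) := by
            refine Finset.sum_le_sum fun i hi => ?_
            rw [hdiv i, mul_comm]
            refine mul_le_mul_of_nonneg_left ?_ (by positivity)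
            rw [Finset.mem_inter, hU, Finset.mem_filter] at hi
            exact hwhalf i hi.1.2
        _ ≤ _ := Finset.sum_le_sum_of_subset_of_nonneg Finset.inter_subset_right
            fun i _ _ => hterm i
    have hle2 : ∑ i ∈ U ∩ Bd, C.index / oC C x i ≤ 2 := by
      have h1 : ((∑ i ∈ U ∩ Bd, C.index / oC C x i : ℕ) : ℝ) ≤ 2 := by linarith
      exact_mod_cast h1
    rcases arith_neg C.index hqpos (oC C x) (fun i => (hoC i).1) hh1 U hUo with h4 | ⟨h4, h5⟩
    · omega
    · have h6 : ∑ i ∈ U ∩ Bd, C.index / oC C x i = 2 := by omega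
      have hS1' : 1 ≤ S := by
        rw [h6] at hSge
        push_cast at hSge
        linarith
      have hI00 : I₀ = 0 := by
        have h7 : (I₀ : ℝ) ≤ 0 := by nlinarith
        have : (I₀ : ℝ) = 0 := le_antisymm h7 hI0
        exact_mod_cast this
      rcases h5 with h5 | ⟨h5, i, hi, hoi⟩ | ⟨h5, i, hi⟩
      · omega
      · have h7 : yC C x i = 1 := by
          by_contra h8
          exact hi (by rw [hU, Finset.mem_filter]; exact ⟨Finset.mem_univ _, h8⟩)
        have := hinvol i h7 hoi h5
        omega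
      · -- U = {i}
        have h7 : Bdᶜ ⊆ {i} := by
          intro k hk
          rw [← hi, hU, Finset.mem_filter]
          exact ⟨Finset.mem_univ _, hyub k (Finset.mem_compl.1 hk)⟩
        rw [hi, Finset.sum_singleton] at h4
        rcases Finset.subset_singleton_iff.1 h7 with h8 | h8
        · rw [h8] at hJn
          simp at hJn
        · rw [h8, Finset.sum_singleton] at hJn
          omega

end Pool.Agent.CO30
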