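import Pool.Agent.CO30.Win
import Pool.Agent.CO30.Step
import Pool.Agent.CO30.Sm
import Pool.Agent.CO30.Jmp

/-!
# Four branch points: no inverting elements
-/

namespace Pool.Agent.CO30

open Matrix Finset Pool.Agent.CO75

/-- The sets of good elements of a window are not empty. -/
private theorem noi_exists_good {K s : ℕ} (k₀ : ℤ) (P : ℤ → Prop) [DecidablePred P]
    (h : ((Finset.Ico k₀ (k₀ + K)).filter fun k => ¬ P k).card ≤ s) (hs : s < K) :
    ∃ k, k₀ ≤ k ∧ k < k₀ + K ∧ P k := by
  by_contra hcon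
  push Not at hcon
  have h1 : (Finset.Ico k₀ (k₀ + K)).filter (fun k => ¬ P k) = Finset.Ico k₀ (k₀ + K) := by
    refine Finset.filter_true_of_mem fun k hk => ?_
    rw [Finset.mem_Ico] at hk
    exact hcon k hk.1 hk.2
  rw [h1, Int.card_Ico] at h
  omega

theorem no_inv (b : ℕ) : ∃ K₀ : ℕ, ∀ K, K₀ ≤ K → ∀ (G : Type) [Group G] [Fintype G]
    (x : Fin 4 → G) (C : Subgroup G) [C.Normal] (T : Subgroup G) (α : C →* ℂˣ)
    (Bd : Finset (Fin 4)), IsFrame x b K C T α ∅ Bd → IsGenVec x → 0 < area x →
    (numN x).re ≤ 1 → False := by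
  obtain ⟨K₀, hK₀⟩ := jump_main b
  refine ⟨K₀ + (4 * b ^ 2 + 4 * b) + b + 3, ?_⟩
  intro K hK G _ _ x C _ T α Bd hF hx hA hN
  classical
  have : Fintype C := Fintype.ofFinite C
  obtain ⟨WC⟩ := exists_wedd C
  have hKs : 4 * b ^ 2 + 4 * b < K := by omega
  have hKb : b < K := by omega
  have hK1 : 1 < K := by omega
  have hq0 : C.index ≠ 0 := C.index_ne_zero_of_finite
  have hqpos : 0 < C.index := Nat.pos_of_ne_zero hq0
  have hcardC : (0 : ℝ) < (Fintype.card C : ℝ) := by exact_mod_cast Fintype.card_pos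
  have hb0 : (0 : ℝ) < (b : ℝ) := by
    have h5 : 0 < T.index := Nat.pos_of_ne_zero T.index_ne_zero_of_finite
    exact_mod_cast lt_of_lt_of_le h5 hF.index_le
  -- the orders
  have hoC := fun i => oC_facts x hx C i
  have hopos : ∀ i, (0 : ℝ) < (oC C x i : ℝ) := fun i => by exact_mod_cast (hoC i).2.1
  have hqo : ∀ i, (0 : ℝ) < (C.index : ℝ) / (oC C x i : ℝ) := fun i =>
    div_pos (by exact_mod_cast hqpos) (hopos i)
  have hdiv : ∀ i, ((C.index / oC C x i : ℕ) : ℝ) = (C.index : ℝ) / (oC C x i : ℝ) := by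
    intro i
    rw [Nat.cast_div (hoC i).1 (hopos i).ne']
  have hyub : ∀ i, i ∉ Bd → yC C x i ≠ 1 := by
    intro i hi h1
    have h2 := (hF.ub i hi 1).1
    have h3 : yg C x i 1 = 1 := by
      unfold yg
      rw [h1, map_one]
    rw [h3, map_one, orderOf_one] at h2
    omega
  have hwpos : ∀ i, 0 < orderOf (yC C x i) := fun i => orderOf_pos _
  have hwnn : ∀ i, 0 ≤ 1 - 1 / (orderOf (yC C x i) : ℝ) := by
    intro i
    have h1 : (1 : ℝ) ≤ (orderOf (yC C x i) : ℝ) := by exact_mod_cast hwpos i
    have h2 : 1 / (orderOf (yC C x i) : ℝ) ≤ 1 := by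
      rw [div_le_one (by linarith)]
      exact h1
    linarith
  have hwhalf : ∀ i, yC C x i ≠ 1 → 1 / 2 ≤ 1 - 1 / (orderOf (yC C x i) : ℝ) := by
    intro i hi
    have h0 : orderOf (yC C x i) ≠ 1 := fun h => hi (orderOf_eq_one_iff.1 h)
    have h1 : 2 ≤ orderOf (yC C x i) := by have := hwpos i; omega
    have h1' : (2 : ℝ) ≤ (orderOf (yC C x i) : ℝ) := by exact_mod_cast h1
    have h2 : 1 / (orderOf (yC C x i) : ℝ) ≤ 1 / 2 :=
      one_div_le_one_div_of_le (by norm_num) h1'
    linarith
  have hterm : ∀ i, 0 ≤ (C.index : ℝ) / (oC C x i : ℝ) * (1 - 1 / (orderOf (yC C x i) : ℝ)) :=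
    fun i => mul_nonneg (by positivity) (hwnn i)
  have hsumsq : ∑ j, (WC.d j : ℝ) ^ 2 = (Fintype.card C : ℝ) := by exact_mod_cast WC.sum_sq
  have hdpos : ∀ j, (1 : ℝ) ≤ (WC.d j : ℝ) := fun j => by exact_mod_cast WC.pos j
  -- the trivial representation
  obtain ⟨p, m, hp, hm, hJ, hpm⟩ := nup_num x b K C T α ∅ Bd hF hx hKb hK1
  obtain ⟨h₀, hh₀⟩ := hh_nat C x hx
  have htriv : (hh C x + p) * (hh C x + m) = 0 := by
    obtain ⟨k, hk1, hk2, a, b', ha, hb', -, h1⟩ := noi_exists_good 1 _
      (window_N x b K C T α Bd hF hx hN (trivR C) irr_triv 1) hKs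
    obtain ⟨hFa, hFb⟩ := F_triv x b K C T α ∅ Bd hF hx hKb hK1 k hk1 (by omega)
    rw [hFa, hp] at ha
    rw [hFb, hm] at hb'
    push_cast at ha hb'
    rw [one_mul] at ha hb'
    rw [← ha, ← hb']
    exact_mod_cast h1
  rw [hh₀] at htriv
  have hcases : h₀ = 0 ∨ (h₀ = 1 ∧ (p = 0 ∨ m = 0)) := by
    rcases mul_eq_zero.1 htriv with h | h
    · have h1 : ((h₀ + p : ℕ) : ℝ) = 1 := by push_cast; linarith
      have h2 : h₀ + p = 1 := by exact_mod_cast h1
      omega
    · have h1 : ((h₀ + m : ℕ) : ℝ) = 1 := by push_cast; linarith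
      have h2 : h₀ + m = 1 := by exact_mod_cast h1
      omega
  rcases hcases with hc0 | ⟨hc1, hpm0⟩
  · -- genus 0
    subst hc0
    have hh1 : hh C x = -1 := by rw [hh₀]; simp
    have hnum : nup C x Bd α = 1 ∨ num C x Bd α = 1 := by
      rcases mul_eq_zero.1 htriv with h | h
      · left; rw [hp]; push_cast at h; linarith
      · right; rw [hm]; push_cast at h; linarith
    have hBd : Bd ≠ univ := by
      rintro rfl
      rcases hnum with h | h
      · unfold nup pts at h
        simp at h
      · unfold num pts at h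
        simp at h
    obtain ⟨hp1, hm1⟩ := hpm hBd
    have hjump : ∀ (d : ℕ) (R : C →* Matrix (Fin d) (Fin d) ℂ), Irr R →
        (d : ℝ) * Ja C x Bd + mB C x Bd R - 2 * d ≤ d := by
      intro d R hR
      refine hK₀ K (by omega) G x C T α ∅ Bd hF hx hnum d R hR fun k₀ => ?_
      refine le_trans (Finset.card_le_card ?_) (window_N x b K C T α Bd hF hx hN R hR k₀)
      intro k hk
      rw [Finset.mem_filter] at hk ⊢
      refine ⟨hk.1, fun hg => hk.2 ?_⟩
      obtain ⟨a, b', ha, hb', hab, h0⟩ := hg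
      refine ⟨hab, ?_⟩
      rw [hh1] at ha hb'
      rcases Nat.mul_eq_zero.1 h0 with h0 | h0
      · left
        rw [h0, Nat.cast_zero] at ha
        linarith
      · right
        rw [h0, Nat.cast_zero] at hb'
        linarith
    have hmBnn : ∀ (d : ℕ) (R : C →* Matrix (Fin d) (Fin d) ℂ), 0 ≤ mB C x Bd R := by
      intro d R
      unfold mB pts
      refine Finset.sum_nonneg fun i _ => mul_nonneg (by positivity) (Finset.sum_nonneg fun g _ => ?_)
      have := fx_le R (yg C x i g)
      have h2 : (fx (R (yg C x i g)) : ℝ) ≤ d := by exact_mod_cast this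
      linarith
    have hJ3 : p + m ≤ 3 := by
      have h1 := hjump 1 (trivR C) irr_triv
      have h2 := hmBnn 1 (trivR C)
      rw [hJ] at h1
      push_cast at h1
      have h3 : ((p + m : ℕ) : ℝ) ≤ 3 := by push_cast; linarith
      exact_mod_cast h3
    -- the trivial representation is one of the `WC.R j`
    obtain ⟨j₀, hj₀, hj₀'⟩ := exists_index WC (trivR C) irr_triv
    have hmB0 : mB C x Bd (WC.R j₀) = 0 := by
      have key : ∀ c : C, (fx (WC.R j₀ c) : ℝ) = WC.d j₀ := by
        intro c
        have h1 := fx_eq (WC.R j₀) c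
        have h2 : ∀ s, (WC.R j₀ (c ^ s)).trace = 1 := by
          intro s
          rw [hj₀']
          change (1 : Matrix (Fin 1) (Fin 1) ℂ).trace = 1
          simp
        simp only [h2, Finset.sum_const, Finset.card_range, nsmul_eq_mul, mul_one] at h1
        have h3 : (orderOf c : ℂ) ≠ 0 := by exact_mod_cast (orderOf_pos c).ne'
        rw [one_div, inv_mul_cancel₀ h3] at h1
        have h4 : (fx (WC.R j₀ c) : ℝ) = 1 := by exact_mod_cast h1
        have h5 : ((WC.d j₀ : ℕ) : ℝ) = 1 := by rw [hj₀]; norm_num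
        rw [h4, h5]
      unfold mB pts
      simp only [key, sub_self, Finset.sum_const_zero, mul_zero]
    set S : ℝ := ∑ i ∈ Bd, (C.index : ℝ) / (oC C x i : ℝ) * (1 - 1 / (orderOf (yC C x i) : ℝ)) with hS
    have hsumB : ∑ j, (WC.d j : ℝ) * mB C x Bd (WC.R j) = (Fintype.card C : ℝ) * S :=
      sum_mB x C WC Bd
    -- count the points
    set U : Finset (Fin 4) := univ.filter fun i => yC C x i ≠ 1 with hU
    have hUo : ∀ i, oC C x i = 1 → i ∈ U := by
      intro i hi
      rw [hU, Finset.mem_filter]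
      exact ⟨Finset.mem_univ _, (hoC i).2.2.2.1 hi⟩
    have hsplit : ∑ i ∈ U, C.index / oC C x i =
        ∑ i ∈ Bdᶜ, C.index / oC C x i + ∑ i ∈ U ∩ Bd, C.index / oC C x i := by
      rw [← Finset.sum_union]
      · congr 1
        ext i
        simp only [hU, Finset.mem_filter, Finset.mem_univ, true_and, Finset.mem_union,
          Finset.mem_compl, Finset.mem_inter]
        constructor
        · intro h
          by_cases hi : i ∈ Bd
          · exact Or.inr ⟨h, hi⟩
          · exact Or.inl hi
        · rintro (h | h)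
          · exact hyub i h
          · exact h.1
      · rw [Finset.disjoint_left]
        intro i hi hi'
        rw [Finset.mem_compl] at hi
        exact hi (Finset.mem_inter.1 hi').2
    have hJn : ∑ i ∈ Bdᶜ, C.index / oC C x i = p + m := by
      have h1 : ((∑ i ∈ Bdᶜ, C.index / oC C x i : ℕ) : ℝ) = ((p + m : ℕ) : ℝ) := by
        push_cast
        rw [← hJ]
        unfold Ja
        refine Finset.sum_congr rfl fun i _ => ?_
        rw [← hdiv i]
      exact_mod_cast h1
    have hSge : (1 / 2 : ℝ) * ((∑ i ∈ U ∩ Bd, C.index / oC C x i : ℕ) : ℝ) ≤ S := by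
      push_cast
      rw [Finset.mul_sum, hS]
      calc ∑ i ∈ U ∩ Bd, (1 / 2 : ℝ) * ((C.index / oC C x i : ℕ) : ℝ) ≤
          ∑ i ∈ U ∩ Bd, (C.index : ℝ) / (oC C x i : ℝ) * (1 - 1 / (orderOf (yC C x i) : ℝ)) := by
            refine Finset.sum_le_sum fun i hi => ?_
            rw [hdiv i, mul_comm]
            refine mul_le_mul_of_nonneg_left ?_ (by positivity)
            rw [Finset.mem_inter, hU, Finset.mem_filter] at hi
            exact hwhalf i hi.1.2
        _ ≤ _ := Finset.sum_le_sum_of_subset_of_nonneg Finset.inter_subset_right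
            fun i _ _ => hterm i
    have hU4 : 4 ≤ ∑ i ∈ U, C.index / oC C x i := by
      rcases arith_neg C.index hqpos (oC C x) (fun i => (hoC i).1) hh1 U hUo with h4 | ⟨h4, -⟩
      · omega
      · omega
    -- upper bound for `S`
    have hper : ∀ j, (WC.d j : ℝ) * mB C x Bd (WC.R j) ≤ (3 - ((p + m : ℕ) : ℝ)) * (WC.d j : ℝ) ^ 2 := by
      intro j
      have h1 := hjump _ (WC.R j) (irr_wedd WC j)
      rw [hJ] at h1
      have hd := hdpos j
      push_cast
      nlinarith
    have hSlt : S < 3 - ((p + m : ℕ) : ℝ) ∨ (p + m = 3 ∧ S ≤ 0) := by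
      have h1 : (Fintype.card C : ℝ) * S ≤ (3 - ((p + m : ℕ) : ℝ)) * (Fintype.card C : ℝ) := by
        rw [← hsumB, ← hsumsq, Finset.mul_sum]
        exact Finset.sum_le_sum fun j _ => hper j
      rcases Nat.lt_or_ge (p + m) 3 with h3 | h3
      · left
        have h2 : (Fintype.card C : ℝ) * S < (3 - ((p + m : ℕ) : ℝ)) * (Fintype.card C : ℝ) := by
          rw [← hsumB, ← hsumsq, Finset.mul_sum]
          refine Finset.sum_lt_sum (fun j _ => hper j) ⟨j₀, Finset.mem_univ _, ?_⟩
          rw [hmB0, mul_zero]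
          have h4 : ((p + m : ℕ) : ℝ) < 3 := by exact_mod_cast h3
          have h5 := hdpos j₀
          exact mul_pos (by linarith) (by positivity)
        by_contra h4
        push Not at h4
        nlinarith
      · right
        have h3' : p + m = 3 := by omega
        refine ⟨h3', ?_⟩
        rw [h3'] at h1
        push_cast at h1
        by_contra h4
        push Not at h4
        nlinarith
    rcases hSlt with h | ⟨h, hS0⟩
    · -- `p + m = 2`
      have h2 : p + m = 2 := by
        by_contra h3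
        have h4 : p + m = 3 := by omega
        have h5 : (0 : ℝ) ≤ S := Finset.sum_nonneg fun i _ => hterm i
        rw [h4] at h
        push_cast at h
        linarith
      rw [h2] at h hJn
      have h3 : ((∑ i ∈ U ∩ Bd, C.index / oC C x i : ℕ) : ℝ) < 2 := by
        push_cast at h
        linarith
      have h4 : ∑ i ∈ U ∩ Bd, C.index / oC C x i < 2 := by exact_mod_cast h3
      omega
    · rw [h] at hJn
      have h3 : ((∑ i ∈ U ∩ Bd, C.index / oC C x i : ℕ) : ℝ) ≤ 0 := by linarith
      have h4 : ∑ i ∈ U ∩ Bd, C.index / oC C x i ≤ 0 := by exact_mod_cast h3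
      omega
  · -- genus 1
    have hBd : Bd = univ := by
      by_contra h
      have := hpm h
      omega
    subst hBd
    have hh0 : hh C x = 0 := by rw [hh₀, hc1]; simp
    -- some `y i` is not trivial
    obtain ⟨i, hi⟩ : ∃ i, yC C x i ≠ 1 := by
      by_contra hcon
      push Not at hcon
      have h1 : ∀ i, orderOf (x i) = oC C x i := by
        intro i
        rw [(hoC i).2.2.2.2, hcon i, orderOf_one, mul_one]
      have h2 : area x = 0 := by
        have h3 : area x = areaN (oC C x) := by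
          unfold area areaN
          simp only [h1]
        have h4 : (C.index : ℝ) / 2 * areaN (oC C x) = 0 := hh0
        rw [h3]
        rcases mul_eq_zero.1 h4 with h5 | h5
        · have : (0 : ℝ) < (C.index : ℝ) := by exact_mod_cast hqpos
          linarith
        · exact h5
      linarith
    obtain ⟨j, hj⟩ := exists_ne_one WC hi
    obtain ⟨k, -, -, a, b', ha, hb', hab, h0⟩ := noi_exists_good 0 _
      (window_N x b K C T α univ hF hx hN (WC.R j) (irr_wedd WC j) 0) hKs
    rw [hh0, mul_zero, zero_add] at ha hb'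
    obtain ⟨cA, cB, -, hcA, hcB, hAB, -, -⟩ := F_avg x b K C T α ∅ univ hF hK1 (WC.R j)
    obtain ⟨hA', hB'⟩ := hAB rfl k
    have hbb : 0 < 1 / (b : ℝ) ^ 2 := by positivity
    -- `mB ≠ 0`
    have hmB : 0 < mB C x univ (WC.R j) := by
      have hnn : ∀ i g, 0 ≤ (WC.d j : ℝ) - fx (WC.R j (yg C x i g)) := by
        intro i g
        have := fx_le (WC.R j) (yg C x i g)
        have h2 : (fx (WC.R j (yg C x i g)) : ℝ) ≤ WC.d j := by exact_mod_cast this
        linarith
      have hCpos : (0 : ℝ) < (Nat.card C : ℝ) := by exact_mod_cast Nat.card_pos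
      unfold mB pts
      refine Finset.sum_pos' (fun i _ => mul_nonneg (by positivity)
        (Finset.sum_nonneg fun g _ => hnn i g)) ⟨i, Finset.mem_univ _, ?_⟩
      refine mul_pos (div_pos one_pos (mul_pos (hopos i) hCpos)) ?_
      refine Finset.sum_pos' (fun g _ => hnn i g) ⟨1, Finset.mem_univ _, ?_⟩
      have h1 : yg C x i 1 = yC C x i := by
        unfold yg
        rw [map_one]
        rfl
      show 0 < (WC.d j : ℝ) - fx (WC.R j (yg C x i 1))
      rw [h1]
      have h2 := age_add_inv (WC.R j) (yC C x i)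
      rcases age_zero (WC.R j) (yC C x i) with h3 | h3
      · exact absurd h3.1 hj
      · have h4 := (age_le (WC.R j) (yC C x i)⁻¹).1
        have h5 : (0 : ℝ) < 1 / (orderOf (yC C x i) : ℝ) := by
          have : (0 : ℝ) < (orderOf (yC C x i) : ℝ) := by exact_mod_cast hwpos i
          positivity
        linarith
    rcases Nat.mul_eq_zero.1 h0 with h1 | h1
    · rw [h1, Nat.cast_zero] at ha
      rcases hcA with h3 | h3
      · linarith [h3.2]
      · rw [← hA', ← ha] at h3
        linarith
    · rw [h1, Nat.cast_zero] at hb'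
      rcases hcB with h3 | h3
      · linarith [h3.2]
      · rw [← hB', ← hb'] at h3
        linarith

end Pool.Agent.CO30
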