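import Pool.Agent.CO30.Abe
import Pool.Agent.CO30.Frm
import Pool.Agent.CO30.NoI
import Pool.Agent.CO30.Inv

/-!
# Finiteness: four branch points, and at least four branch points
-/

namespace Pool.Agent.CO30

open Matrix Finset Pool.Agent.CO75

variable {G : Type} [Group G] [Fintype G]

theorem area_pos_of_genus {r : ℕ} (x : Fin r → G) (hg : 1 < genus x) : 0 < area x := by
  rw [genus_eq] at hg
  by_contra h
  push Not at h
  have h1 : (0 : ℝ) ≤ (Fintype.card G : ℝ) / 2 := by positivity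
  nlinarith [mul_nonneg h1 (neg_nonneg.2 h)]

theorem area_le {r : ℕ} (x : Fin r → G) : area x ≤ (r : ℝ) - 2 := by
  unfold area
  have : 0 ≤ ∑ i, 1 / (orderOf (x i) : ℝ) := Finset.sum_nonneg fun i _ => by positivity
  linarith

theorem le_area {r : ℕ} (x : Fin r → G) (hx : IsGenVec x) : (r : ℝ) / 2 - 2 ≤ area x := by
  unfold area
  have : ∑ i, 1 / (orderOf (x i) : ℝ) ≤ ∑ _i : Fin r, (1 / 2 : ℝ) := by
    refine Finset.sum_le_sum fun i _ => ?_
    have h1 : (2 : ℝ) ≤ (orderOf (x i) : ℝ) := by exact_mod_cast two_le_order x hx i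
    exact one_div_le_one_div_of_le (by norm_num) h1
  rw [Finset.sum_const, Finset.card_univ, Fintype.card_fin, nsmul_eq_mul] at this
  linarith

/-- Four branch points. -/
theorem final : ∃ n₀ : ℕ, ∀ (G : Type) [Group G] [Fintype G] (x : Fin 4 → G), IsGenVec x →
    0 < area x → numN x = 1 → Fintype.card G ≤ n₀ := by
  obtain ⟨B, hB⟩ := exists_abelian
  choose K₁ hK₁ using no_inv
  choose K₂ hK₂ using with_inv
  obtain ⟨n₀, hn₀⟩ := exists_frame B fun b => max (K₁ b) (K₂ b)
  refine ⟨n₀, fun G _ _ x hx hA hN => ?_⟩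
  by_contra hn
  push Not at hn
  obtain ⟨b, C, hC, T, α, I, Bd, hF, hI⟩ := hn₀ G x hx.gen (hB G x hx hA hN) hn
  have hN' : (numN x).re ≤ 1 := by rw [hN]; simp
  rcases hI with rfl | ⟨g₀, hI⟩
  · exact hK₁ b _ (le_max_left _ _) G x C T α Bd hF hx hA hN'
  · exact hK₂ b _ (le_max_right _ _) G x C T α I g₀ Bd hF hI hx hA hN'

/-- Only finitely many data satisfy the numerical criterion. -/
theorem finiteness : ∃ B : ℕ, ∀ (G : Type) [Group G] [Fintype G] (r : ℕ) (x : Fin r → G),
    4 ≤ r → IsGenVec x → 1 < genus x → numN x = (r : ℂ) - 3 →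
    Fintype.card G ≤ B ∧ r ≤ B ∧ genus x ≤ B := by
  obtain ⟨n₀, hn₀⟩ := final
  refine ⟨n₀ + 130, ?_⟩
  intro G _ _ r x hr hx hg hN
  rcases Nat.lt_or_ge r 5 with h5 | h5
  · have hr4 : r = 4 := by omega
    subst hr4
    have hN1 : numN x = 1 := by
      rw [hN]
      norm_num
    have h1 := hn₀ G x hx (area_pos_of_genus x hg) hN1
    refine ⟨by omega, by omega, ?_⟩
    rw [genus_eq]
    have h2 := area_le x
    have h3 : (Fintype.card G : ℝ) ≤ n₀ := by exact_mod_cast h1
    have h4 : (0 : ℝ) ≤ (Fintype.card G : ℝ) / 2 := by positivity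
    push_cast at h2 ⊢
    nlinarith
  · obtain ⟨h1, h2⟩ := main h5 x hx hN
    have h3 := le_area x hx
    have hcard : 2 ≤ Fintype.card G := by
      have h0 : 0 < r := by omega
      have : Nontrivial G := ⟨⟨x ⟨0, h0⟩, 1, hx.ne_one _⟩⟩
      exact Fintype.one_lt_card
    have hcard' : (2 : ℝ) ≤ (Fintype.card G : ℝ) := by exact_mod_cast hcard
    have h4 : (r : ℝ) ≤ 130 := by
      rw [genus_eq] at h2
      have h5' : (5 : ℝ) ≤ r := by exact_mod_cast h5
      have h6 : (r : ℝ) / 2 - 2 ≤ (Fintype.card G : ℝ) / 2 * area x := by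
        have h7 : 0 ≤ area x := by linarith
        nlinarith
      linarith
    have h4' : r ≤ 130 := by exact_mod_cast h4
    refine ⟨by omega, by omega, ?_⟩
    push_cast
    have : (0 : ℝ) ≤ n₀ := Nat.cast_nonneg _
    linarith

end Pool.Agent.CO30
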