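import Pool.Agent.CO30.Wedd

/-!
# The Frobenius-Schur indicator
-/

namespace Pool.Agent.CO30

open Matrix Finset

variable {G : Type} [Group G] [Fintype G] {d : ℕ}

/-- A property that holds for the `R g` and is linear holds for all matrices. -/
theorem span_ind {R : G → Matrix (Fin d) (Fin d) ℂ} (hR : Submodule.span ℂ (Set.range R) = ⊤)
    (P : Matrix (Fin d) (Fin d) ℂ → Prop) (h1 : ∀ g, P (R g)) (h0 : P 0)
    (hadd : ∀ A B, P A → P B → P (A + B)) (hsmul : ∀ (c : ℂ) A, P A → P (c • A))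
    (M : Matrix (Fin d) (Fin d) ℂ) : P M := by
  have hM : M ∈ Submodule.span ℂ (Set.range R) := by rw [hR]; trivial
  induction hM using Submodule.span_induction with
  | mem x hx =>
    obtain ⟨g, rfl⟩ := hx
    exact h1 g
  | zero => exact h0
  | add x y _ _ hx hy => exact hadd x y hx hy
  | smul c x _ hx => exact hsmul c x hx

/-- Schur's lemma. -/
theorem scalar_of_comm {R : G → Matrix (Fin d) (Fin d) ℂ}
    (hR : Submodule.span ℂ (Set.range R) = ⊤) (M : Matrix (Fin d) (Fin d) ℂ)
    (hM : ∀ g, M * R g = R g * M) : ∃ c : ℂ, M = c • (1 : Matrix (Fin d) (Fin d) ℂ) := by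
  have h : ∀ A : Matrix (Fin d) (Fin d) ℂ, M * A = A * M := by
    refine span_ind hR (fun A => M * A = A * M) hM (by simp) ?_ ?_
    · intro A B hA hB
      rw [mul_add, add_mul, hA, hB]
    · intro c A hA
      rw [Matrix.mul_smul, Matrix.smul_mul, hA]
  obtain ⟨c, hc⟩ := Matrix.mem_range_scalar_of_commute_single (M := M)
    (fun i j _ => (h (Matrix.single i j 1)).symm)
  refine ⟨c, ?_⟩
  rw [← hc]
  ext i j
  simp [Matrix.scalar_apply, Matrix.diagonal_apply, Matrix.one_apply]

/-- The Frobenius-Schur indicator. -/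
noncomputable def nu (R : G →* Matrix (Fin d) (Fin d) ℂ) : ℂ :=
  (1 / (Fintype.card G : ℂ)) * ∑ g : G, (R (g ^ 2)).trace

/-- The average of the forms, times the order. -/
private noncomputable def avg (R : G →* Matrix (Fin d) (Fin d) ℂ) (X : Matrix (Fin d) (Fin d) ℂ) :
    Matrix (Fin d) (Fin d) ℂ := ∑ g : G, (R g)ᵀ * X * R g

private theorem avg_inv (R : G →* Matrix (Fin d) (Fin d) ℂ) (X : Matrix (Fin d) (Fin d) ℂ)
    (h : G) : (R h)ᵀ * avg R X * R h = avg R X := by
  unfold avg
  rw [Matrix.mul_sum, Matrix.sum_mul]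
  refine Fintype.sum_equiv (Equiv.mulRight h) _ _ fun g => ?_
  rw [Equiv.coe_mulRight, map_mul, Matrix.transpose_mul]
  simp only [Matrix.mul_assoc]

/-- `J` is an invariant form. -/
def IsForm (R : G →* Matrix (Fin d) (Fin d) ℂ) (J : Matrix (Fin d) (Fin d) ℂ) : Prop :=
  ∀ h, (R h)ᵀ * J * R h = J

private theorem R_mul_inv (R : G →* Matrix (Fin d) (Fin d) ℂ) (h : G) : R h * R h⁻¹ = 1 := by
  rw [← map_mul, mul_inv_cancel, map_one]

private theorem R_inv_mul (R : G →* Matrix (Fin d) (Fin d) ℂ) (h : G) : R h⁻¹ * R h = 1 := by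
  rw [← map_mul, inv_mul_cancel, map_one]

theorem IsForm.comm {R : G →* Matrix (Fin d) (Fin d) ℂ} {J : Matrix (Fin d) (Fin d) ℂ}
    (hJ : IsForm R J) (h : G) : J * R h = (R h⁻¹)ᵀ * J := by
  have h1 := hJ h
  have h2 : (R h⁻¹)ᵀ * (R h)ᵀ = 1 := by
    rw [← Matrix.transpose_mul, R_mul_inv, Matrix.transpose_one]
  calc J * R h = ((R h⁻¹)ᵀ * (R h)ᵀ) * J * R h := by rw [h2, Matrix.one_mul]
    _ = (R h⁻¹)ᵀ * ((R h)ᵀ * J * R h) := by simp only [Matrix.mul_assoc]
    _ = _ := by rw [h1]

theorem IsForm.det_ne {R : G →* Matrix (Fin d) (Fin d) ℂ}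
    (hR : Submodule.span ℂ (Set.range R) = ⊤) {J : Matrix (Fin d) (Fin d) ℂ}
    (hJ : IsForm R J) (h0 : J ≠ 0) : J.det ≠ 0 := by
  intro hdet
  obtain ⟨v, hv, hJv⟩ := Matrix.exists_mulVec_eq_zero_iff.2 hdet
  have key : ∀ M : Matrix (Fin d) (Fin d) ℂ, ∃ M' : Matrix (Fin d) (Fin d) ℂ, J * M = M' * J := by
    refine span_ind hR _ (fun g => ⟨_, hJ.comm g⟩) ⟨0, by simp⟩ ?_ ?_
    · rintro A B ⟨A', hA⟩ ⟨B', hB⟩
      exact ⟨A' + B', by rw [mul_add, add_mul, hA, hB]⟩
    · rintro c A ⟨A', hA⟩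
      exact ⟨c • A', by rw [Matrix.mul_smul, Matrix.smul_mul, hA]⟩
  apply h0
  obtain ⟨k, hk⟩ : ∃ k, v k ≠ 0 := Function.ne_iff.1 hv
  have hJz : ∀ w, J.mulVec w = 0 := by
    intro w
    obtain ⟨M', hM'⟩ := key (Matrix.vecMulVec w (Pi.single k (v k)⁻¹))
    have h1 : (Matrix.vecMulVec w (Pi.single k (v k)⁻¹)).mulVec v = w := by
      ext i
      simp [Matrix.mulVec, dotProduct, Matrix.vecMulVec_apply, Pi.single_apply, hk]
    rw [← h1, Matrix.mulVec_mulVec, hM', ← Matrix.mulVec_mulVec, hJv, Matrix.mulVec_zero]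
  ext i j
  have := congrFun (hJz (Pi.single j 1)) i
  simpa using this

theorem IsForm.unique {R : G →* Matrix (Fin d) (Fin d) ℂ}
    (hR : Submodule.span ℂ (Set.range R) = ⊤) {J K : Matrix (Fin d) (Fin d) ℂ}
    (hJ : IsForm R J) (h0 : J ≠ 0) (hK : IsForm R K) : ∃ c : ℂ, K = c • J := by
  have hu : IsUnit J.det := (hJ.det_ne hR h0).isUnit
  obtain ⟨c, hc⟩ := scalar_of_comm hR (J⁻¹ * K) (by
    intro g
    have h1 := hJ.comm g
    have h2 := hK.comm g
    have h3 : J⁻¹ * (R g⁻¹)ᵀ = R g * J⁻¹ := by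
      calc J⁻¹ * (R g⁻¹)ᵀ = J⁻¹ * ((R g⁻¹)ᵀ * J) * J⁻¹ := by
            rw [Matrix.mul_assoc, Matrix.mul_assoc, Matrix.mul_nonsing_inv J hu, Matrix.mul_one]
        _ = R g * J⁻¹ := by
            rw [← h1, ← Matrix.mul_assoc, Matrix.nonsing_inv_mul J hu, Matrix.one_mul]
    rw [Matrix.mul_assoc, h2, ← Matrix.mul_assoc, h3, Matrix.mul_assoc])
  refine ⟨c, ?_⟩
  calc K = J * (J⁻¹ * K) := by rw [← Matrix.mul_assoc, Matrix.mul_nonsing_inv J hu, Matrix.one_mul]
    _ = c • J := by rw [hc, Matrix.mul_smul, Matrix.mul_one]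

theorem IsForm.transpose {R : G →* Matrix (Fin d) (Fin d) ℂ} {J : Matrix (Fin d) (Fin d) ℂ}
    (hJ : IsForm R J) : IsForm R Jᵀ := by
  intro h
  have := congrArg Matrix.transpose (hJ h)
  rwa [Matrix.transpose_mul, Matrix.transpose_mul, Matrix.transpose_transpose,
    ← Matrix.mul_assoc] at this

theorem IsForm.trace_inv {R : G →* Matrix (Fin d) (Fin d) ℂ}
    (hR : Submodule.span ℂ (Set.range R) = ⊤) {J : Matrix (Fin d) (Fin d) ℂ}
    (hJ : IsForm R J) (h0 : J ≠ 0) (h : G) : (R h⁻¹).trace = (R h).trace := by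
  have hu : IsUnit J.det := (hJ.det_ne hR h0).isUnit
  have h1 := hJ.comm h
  calc (R h⁻¹).trace = ((R h⁻¹)ᵀ).trace := (Matrix.trace_transpose _).symm
    _ = ((R h⁻¹)ᵀ * J * J⁻¹).trace := by
        rw [Matrix.mul_assoc, Matrix.mul_nonsing_inv J hu, Matrix.mul_one]
    _ = (J * R h * J⁻¹).trace := by rw [h1]
    _ = (J⁻¹ * (J * R h)).trace := Matrix.trace_mul_comm _ _
    _ = (R h).trace := by rw [← Matrix.mul_assoc, Matrix.nonsing_inv_mul J hu, Matrix.one_mul]

private theorem sum_avg (R : G →* Matrix (Fin d) (Fin d) ℂ) :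
    ∑ g : G, (R (g ^ 2)).trace = ∑ p, ∑ q, avg R (Matrix.single p q 1) q p := by
  have h1 : ∀ g : G, (R (g ^ 2)).trace = ∑ p, ∑ q, R g p q * R g q p := by
    intro g
    rw [sq, map_mul, Matrix.trace]
    refine Finset.sum_congr rfl fun p _ => ?_
    rw [Matrix.diag_apply, Matrix.mul_apply]
  have h2 : ∀ p q, avg R (Matrix.single p q 1) q p = ∑ g : G, R g p q * R g q p := by
    intro p q
    unfold avg
    rw [Matrix.sum_apply]
    refine Finset.sum_congr rfl fun g _ => ?_
    rw [Matrix.mul_apply]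
    simp [Matrix.mul_apply, Matrix.single_apply, ite_and, Finset.sum_ite_eq]
  simp only [h1, h2]
  rw [Finset.sum_comm]
  refine Finset.sum_congr rfl fun p _ => ?_
  rw [Finset.sum_comm]

private theorem avg_add (R : G →* Matrix (Fin d) (Fin d) ℂ) (X Y : Matrix (Fin d) (Fin d) ℂ) :
    avg R (X + Y) = avg R X + avg R Y := by
  unfold avg
  rw [← Finset.sum_add_distrib]
  refine Finset.sum_congr rfl fun g _ => ?_
  rw [Matrix.mul_add, Matrix.add_mul]

private theorem avg_smul (R : G →* Matrix (Fin d) (Fin d) ℂ) (c : ℂ)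
    (X : Matrix (Fin d) (Fin d) ℂ) : avg R (c • X) = c • avg R X := by
  unfold avg
  rw [Finset.smul_sum]
  refine Finset.sum_congr rfl fun g _ => ?_
  rw [Matrix.mul_smul, Matrix.smul_mul]

private noncomputable def avgL (R : G →* Matrix (Fin d) (Fin d) ℂ) :
    Matrix (Fin d) (Fin d) ℂ →ₗ[ℂ] Matrix (Fin d) (Fin d) ℂ where
  toFun := avg R
  map_add' := avg_add R
  map_smul' := avg_smul R

private theorem avg_form (R : G →* Matrix (Fin d) (Fin d) ℂ) {J : Matrix (Fin d) (Fin d) ℂ}
    (hJ : IsForm R J) : avg R J = (Fintype.card G : ℂ) • J := by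
  unfold avg
  simp only [hJ _]
  rw [Finset.sum_const, Finset.card_univ, ← Nat.cast_smul_eq_nsmul ℂ]

/-- The Frobenius-Schur theorem. -/
theorem fs (R : G →* Matrix (Fin d) (Fin d) ℂ) (hR : Submodule.span ℂ (Set.range R) = ⊤) :
    nu R = 0 ∨ ∃ J : Matrix (Fin d) (Fin d) ℂ, IsForm R J ∧ J ≠ 0 ∧
      ((nu R = 1 ∧ Jᵀ = J) ∨ (nu R = -1 ∧ Jᵀ = -J)) := by
  have hn : (Fintype.card G : ℂ) ≠ 0 := by exact_mod_cast Fintype.card_ne_zero
  by_cases hall : ∀ X, avg R X = 0
  · left
    unfold nu
    rw [sum_avg]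
    simp [hall]
  · right
    push Not at hall
    obtain ⟨X₀, hX₀⟩ := hall
    set J := avg R X₀ with hJdef
    have hJ : IsForm R J := avg_inv R X₀
    have hJ0 : J ≠ 0 := hX₀
    obtain ⟨c, hc⟩ := hJ.unique hR hJ0 hJ.transpose
    have hcc : c * c = 1 := by
      have h1 : J = (c * c) • J := by
        calc J = Jᵀᵀ := (Matrix.transpose_transpose J).symm
          _ = (c • J)ᵀ := by rw [hc]
          _ = c • Jᵀ := Matrix.transpose_smul _ _
          _ = (c * c) • J := by rw [hc, smul_smul]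
      have h2 : (c * c - 1) • J = 0 := by
        rw [sub_smul, one_smul, ← h1, sub_self]
      rcases smul_eq_zero.1 h2 with h | h
      · exact sub_eq_zero.1 h
      · exact absurd h hJ0
    choose φ hφ using fun p q : Fin d => hJ.unique hR hJ0
      (show IsForm R (avg R (Matrix.single p q 1)) from avg_inv R _)
    have hkey : ∑ p, ∑ q, φ p q * J q p = (Fintype.card G : ℂ) * c := by
      have h1 : avg R Jᵀ = (∑ p, ∑ q, φ p q * J q p) • J := by
        have h2 : Jᵀ = ∑ p, ∑ q, (J q p) • Matrix.single p q (1 : ℂ) := by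
          conv_lhs => rw [Matrix.matrix_eq_sum_single Jᵀ]
          refine Finset.sum_congr rfl fun p _ => Finset.sum_congr rfl fun q _ => ?_
          rw [Matrix.transpose_apply, Matrix.smul_single, smul_eq_mul, mul_one]
        have h3 : avg R Jᵀ = ∑ p, ∑ q, (J q p) • avg R (Matrix.single p q 1) := by
          conv_lhs => rw [h2]
          change avgL R _ = _
          rw [map_sum]
          refine Finset.sum_congr rfl fun p _ => ?_
          rw [map_sum]
          refine Finset.sum_congr rfl fun q _ => ?_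
          rw [map_smul]
          rfl
        rw [h3, Finset.sum_smul]
        refine Finset.sum_congr rfl fun p _ => ?_
        rw [Finset.sum_smul]
        refine Finset.sum_congr rfl fun q _ => ?_
        rw [hφ p q, smul_smul, mul_comm]
      rw [avg_form R hJ.transpose, hc, smul_smul] at h1
      have h4 : (∑ p, ∑ q, φ p q * J q p - (Fintype.card G : ℂ) * c) • J = 0 := by
        rw [sub_smul, ← h1, sub_self]
      rcases smul_eq_zero.1 h4 with h | h
      · exact sub_eq_zero.1 h
      · exact absurd h hJ0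
    have hnu : nu R = c := by
      unfold nu
      rw [sum_avg]
      have h5 : ∀ p q, avg R (Matrix.single p q 1) q p = φ p q * J q p := by
        intro p q
        rw [hφ p q, Matrix.smul_apply, smul_eq_mul]
      simp only [h5]
      rw [hkey]
      field_simp
    refine ⟨J, hJ, hJ0, ?_⟩
    have h6 : (c - 1) * (c + 1) = 0 := by linear_combination hcc
    rcases mul_eq_zero.1 h6 with h | h
    · left
      have hc1 : c = 1 := sub_eq_zero.1 h
      exact ⟨by rw [hnu, hc1], by rw [hc, hc1, one_smul]⟩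
    · right
      have hc1 : c = -1 := eq_neg_of_add_eq_zero_left h
      exact ⟨by rw [hnu, hc1], by rw [hc, hc1, neg_one_smul]⟩

theorem nu_cases (R : G →* Matrix (Fin d) (Fin d) ℂ)
    (hR : Submodule.span ℂ (Set.range R) = ⊤) : nu R = 0 ∨ nu R = 1 ∨ nu R = -1 := by
  rcases fs R hR with h | ⟨_, _, _, h | h⟩
  · exact Or.inl h
  · exact Or.inr (Or.inl h.1)
  · exact Or.inr (Or.inr h.1)

theorem trace_inv_of_nu (R : G →* Matrix (Fin d) (Fin d) ℂ)
    (hR : Submodule.span ℂ (Set.range R) = ⊤) (h : nu R ≠ 0) (g : G) :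
    (R g⁻¹).trace = (R g).trace := by
  rcases fs R hR with h' | ⟨J, hJ, hJ0, _⟩
  · exact absurd h' h
  · exact hJ.trace_inv hR hJ0 g

theorem even_of_nu (R : G →* Matrix (Fin d) (Fin d) ℂ)
    (hR : Submodule.span ℂ (Set.range R) = ⊤) (h : nu R = -1) : Even d := by
  rcases fs R hR with h' | ⟨J, hJ, hJ0, h' | h'⟩
  · rw [h] at h'
    norm_num at h'
  · rw [h'.1] at h
    norm_num at h
  · have h1 := hJ.det_ne hR hJ0
    by_contra hodd
    have hodd' : Odd d := Nat.not_even_iff_odd.1 hodd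
    have h2 : J.det = -J.det := by
      calc J.det = (Jᵀ).det := (Matrix.det_transpose J).symm
        _ = (-J).det := by rw [h'.2]
        _ = -J.det := by rw [Matrix.det_neg, Fintype.card_fin, hodd'.neg_one_pow, neg_one_mul]
    apply h1
    have h3 : 2 * J.det = 0 := by linear_combination h2
    simpa using h3

/-- In a quaternionic representation of degree two an involution is a scalar. -/
theorem two_of_nu (R : G →* Matrix (Fin 2) (Fin 2) ℂ)
    (hR : Submodule.span ℂ (Set.range R) = ⊤) (h : nu R = -1) (g : G) (hg : g ^ 2 = 1) :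
    ∃ c : ℂ, R g = c • (1 : Matrix (Fin 2) (Fin 2) ℂ) := by
  rcases fs R hR with h' | ⟨J, hJ, hJ0, h' | h'⟩
  · rw [h] at h'
    norm_num at h'
  · rw [h'.1] at h
    norm_num at h
  · have hT := h'.2
    have h00 : J 0 0 = 0 := by
      have := congrFun (congrFun hT 0) 0
      simp only [Matrix.transpose_apply, Matrix.neg_apply] at this
      have h2 : 2 * J 0 0 = 0 := by linear_combination this
      simpa using h2
    have h11 : J 1 1 = 0 := by
      have := congrFun (congrFun hT 1) 1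
      simp only [Matrix.transpose_apply, Matrix.neg_apply] at this
      have h2 : 2 * J 1 1 = 0 := by linear_combination this
      simpa using h2
    have h10 : J 1 0 = -J 0 1 := by
      have := congrFun (congrFun hT 0) 1
      simpa only [Matrix.transpose_apply, Matrix.neg_apply] using this
    have h01 : J 0 1 ≠ 0 := by
      intro h01
      apply hJ0
      ext i j
      fin_cases i <;> fin_cases j <;> simp [h00, h11, h10, h01]
    have hdet : R g 0 0 * R g 1 1 - R g 0 1 * R g 1 0 = 1 := by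
      have h1 := congrFun (congrFun (hJ g) 0) 1
      simp only [Matrix.mul_apply, Fin.sum_univ_two, Matrix.transpose_apply, h00, h11, h10] at h1
      have h2 : J 0 1 * (R g 0 0 * R g 1 1 - R g 0 1 * R g 1 0 - 1) = 0 := by
        linear_combination h1
      rcases mul_eq_zero.1 h2 with h3 | h3
      · exact absurd h3 h01
      · exact sub_eq_zero.1 h3
    have hsq : R g * R g = 1 := by rw [← map_mul, ← sq, hg, map_one]
    have e00 := congrFun (congrFun hsq 0) 0
    have e01 := congrFun (congrFun hsq 0) 1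
    have e10 := congrFun (congrFun hsq 1) 0
    have e11 := congrFun (congrFun hsq 1) 1
    simp only [Matrix.mul_apply, Fin.sum_univ_two, Matrix.one_apply_eq] at e00 e01 e10 e11
    rw [Matrix.one_apply_ne (by decide)] at e01 e10
    generalize hp : R g 0 0 = p at *
    generalize hq : R g 0 1 = q at *
    generalize hr : R g 1 0 = r at *
    generalize hs : R g 1 1 = s at *
    have hps : p + s ≠ 0 := by
      intro h0
      have : (2 : ℂ) = 0 := by linear_combination (-1 : ℂ) * hdet - e00 + p * h0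
      norm_num at this
    have hq0 : q = 0 := by
      have : q * (p + s) = 0 := by linear_combination e01
      exact (mul_eq_zero.1 this).resolve_right hps
    have hr0 : r = 0 := by
      have : r * (p + s) = 0 := by linear_combination e10
      exact (mul_eq_zero.1 this).resolve_right hps
    have hpse : p = s := by
      have h5 : (p - s) * (p + s) = 0 := by linear_combination e00 - e11
      exact sub_eq_zero.1 ((mul_eq_zero.1 h5).resolve_right hps)
    refine ⟨p, ?_⟩
    ext i j
    fin_cases i <;> fin_cases j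
    · simp [hp]
    · simp [hq, hq0]
    · simp [hr, hr0]
    · simp [hs, hpse]

namespace Wedd

variable (W : Wedd G)

/-- The expansion of class functions. -/
theorem class_expand (f : G → ℂ) (hf : ∀ g h, f (h * g * h⁻¹) = f g) (g : G) :
    (Fintype.card G : ℂ) * f g =
      ∑ j, (W.R j g⁻¹).trace * ∑ h, f h * (W.R j h).trace := by
  classical
  have hS : ∀ j, ∃ c : ℂ, ∑ h, f h • W.R j h = c • (1 : Matrix (Fin (W.d j)) (Fin (W.d j)) ℂ) := by
    intro j
    refine scalar_of_comm (W.span_R j) _ fun k => ?_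
    rw [Matrix.sum_mul, Matrix.mul_sum]
    refine Fintype.sum_equiv (MulAut.conj k⁻¹).toEquiv _ _ fun h => ?_
    have h1 : (MulAut.conj k⁻¹).toEquiv h = k⁻¹ * h * k := by simp [MulAut.conj_apply]
    rw [h1, Matrix.smul_mul, Matrix.mul_smul, ← map_mul, ← map_mul]
    have h2 : f (k⁻¹ * h * k) = f h := by
      have := hf h k⁻¹
      rwa [inv_inv] at this
    rw [h2]
    congr 2
    group
  choose c hc using hS
  have htr : ∀ j, ∑ h, f h * (W.R j h).trace = c j * (W.d j : ℂ) := by
    intro j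
    have := congrArg Matrix.trace (hc j)
    rw [Matrix.trace_sum, Matrix.trace_smul, Matrix.trace_one, Fintype.card_fin, smul_eq_mul] at this
    rw [← this]
    refine Finset.sum_congr rfl fun h _ => ?_
    rw [Matrix.trace_smul, smul_eq_mul]
  have h1 : ∑ h, f h * ∑ j, (W.d j : ℂ) * (W.R j (g⁻¹ * h)).trace = (Fintype.card G : ℂ) * f g := by
    simp only [W.col]
    rw [Finset.sum_eq_single g]
    · rw [if_pos (inv_mul_cancel g), mul_comm]
    · intro h _ hne
      rw [if_neg, mul_zero]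
      intro h0
      exact hne (inv_mul_eq_one.1 h0).symm
    · intro h0
      exact absurd (Finset.mem_univ g) h0
  rw [← h1]
  simp only [Finset.mul_sum]
  rw [Finset.sum_comm]
  refine Finset.sum_congr rfl fun j _ => ?_
  rw [← Finset.mul_sum, htr j]
  have h2 : ∑ h, f h * ((W.d j : ℂ) * (W.R j (g⁻¹ * h)).trace) =
      (W.d j : ℂ) * (W.R j g⁻¹ * ∑ h, f h • W.R j h).trace := by
    rw [Matrix.mul_sum, Matrix.trace_sum, Finset.mul_sum]
    refine Finset.sum_congr rfl fun h _ => ?_
    rw [map_mul, Matrix.mul_smul, Matrix.trace_smul, smul_eq_mul]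
    ring
  rw [h2, hc j, Matrix.mul_smul, Matrix.mul_one, Matrix.trace_smul, smul_eq_mul]
  ring

end Wedd

end Pool.Agent.CO30
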