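import Pool.Agent.CO30.Defs

/-!
# The real inequalities: types of the branch data

`x = ∑ (1/2 - 1/m_i)`, `y = r/2 - 2`: `areaN = y + x`, `LamN ≤ (4/3) x ^ 2`.
-/

namespace Pool.Agent.CO30

open Pool.Agent.CO75 Finset

theorem ty_lam_nonneg (g : ℕ) : 0 ≤ lam g := le_max_left _ _

theorem ty_lam_le {a b : ℕ} (ha : 2 ≤ a) (hb : 2 ≤ b) :
    lam (Nat.gcd a b) ≤ ((a : ℝ) - 2) * ((b : ℝ) - 2) / 3 := by
  have ha' : (2 : ℝ) ≤ a := by exact_mod_cast ha
  have hb' : (2 : ℝ) ≤ b := by exact_mod_cast hb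
  have hga : ((Nat.gcd a b : ℕ) : ℝ) ≤ a := by
    exact_mod_cast Nat.gcd_le_left b (by omega)
  have hgb : ((Nat.gcd a b : ℕ) : ℝ) ≤ b := by
    exact_mod_cast Nat.gcd_le_right a (by omega)
  have hg1 : (1 : ℝ) ≤ ((Nat.gcd a b : ℕ) : ℝ) := by
    exact_mod_cast Nat.gcd_pos_of_pos_left b (by omega)
  set g : ℝ := ((Nat.gcd a b : ℕ) : ℝ) with hg
  have h0 : 0 ≤ ((a : ℝ) - 2) * ((b : ℝ) - 2) := mul_nonneg (by linarith) (by linarith)
  rw [lam, max_le_iff]
  refine ⟨by positivity, ?_⟩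
  rw [← hg]
  by_cases h5 : g ≤ 5
  · have : (g - 1) * (g - 5) ≤ 0 := mul_nonpos_of_nonneg_of_nonpos (by linarith) (by linarith)
    linarith
  · push Not at h5
    have h1 : (g - 2) * (g - 2) ≤ ((a : ℝ) - 2) * ((b : ℝ) - 2) :=
      mul_le_mul (by linarith) (by linarith) (by linarith) (by linarith)
    nlinarith

theorem ty_LamN_le {r : ℕ} (m : Fin r → ℕ) (hm : ∀ i, 2 ≤ m i) :
    LamN m ≤ 4 / 3 * (∑ i, (1 / 2 - 1 / (m i : ℝ))) ^ 2 := by
  have h1 : 4 / 3 * (∑ i, (1 / 2 - 1 / (m i : ℝ))) ^ 2 =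
      ∑ i, ∑ j, 4 / 3 * ((1 / 2 - 1 / (m i : ℝ)) * (1 / 2 - 1 / (m j : ℝ))) := by
    rw [sq, Finset.sum_mul_sum, Finset.mul_sum]
    exact Finset.sum_congr rfl fun i _ => by rw [Finset.mul_sum]
  rw [h1, LamN]
  refine Finset.sum_le_sum fun i _ => Finset.sum_le_sum fun j _ => ?_
  have hi : (2 : ℝ) ≤ m i := by exact_mod_cast hm i
  have hj : (2 : ℝ) ≤ m j := by exact_mod_cast hm j
  have hi0 : (0 : ℝ) < m i := by linarith
  have hj0 : (0 : ℝ) < m j := by linarith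
  rw [div_le_iff₀ (mul_pos hi0 hj0)]
  have := ty_lam_le (hm i) (hm j)
  have e : 4 / 3 * ((1 / 2 - 1 / (m i : ℝ)) * (1 / 2 - 1 / (m j : ℝ))) * ((m i : ℝ) * m j) =
      ((m i : ℝ) - 2) * ((m j : ℝ) - 2) / 3 := by
    field_simp
    ring
  rw [e]; exact this

theorem ty_area_eq {r : ℕ} (m : Fin r → ℕ) :
    areaN m = ((r : ℝ) / 2 - 2) + ∑ i, (1 / 2 - 1 / (m i : ℝ)) := by
  rw [areaN, Finset.sum_sub_distrib]
  simp
  ring

theorem ty_x_nonneg {r : ℕ} (m : Fin r → ℕ) (hm : ∀ i, 2 ≤ m i) :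
    0 ≤ ∑ i, (1 / 2 - 1 / (m i : ℝ)) := by
  refine Finset.sum_nonneg fun i _ => ?_
  have hi : (2 : ℝ) ≤ m i := by exact_mod_cast hm i
  have : 1 / (m i : ℝ) ≤ 1 / 2 := one_div_le_one_div_of_le (by norm_num) hi
  linarith

theorem ty_x_le {r : ℕ} (m : Fin r → ℕ) :
    ∑ i, (1 / 2 - 1 / (m i : ℝ)) ≤ (r : ℝ) / 2 := by
  rw [Finset.sum_sub_distrib]
  have : 0 ≤ ∑ i, 1 / (m i : ℝ) := Finset.sum_nonneg fun i _ => by positivity
  simp at this ⊢
  linarith

/-- The concave quadratic is nonnegative on an interval if it is so at the ends. -/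
theorem ty_concave {a b c w x : ℝ} (ha : 0 ≤ a) (hw : 0 < w) (hx0 : 0 ≤ x) (hxw : x ≤ w)
    (h0 : 0 ≤ c) (h1 : 0 ≤ -a * w ^ 2 + b * w + c) : 0 ≤ -a * x ^ 2 + b * x + c := by
  have e : w * (-a * x ^ 2 + b * x + c) =
      (w - x) * c + x * (-a * w ^ 2 + b * w + c) + a * (w * (x * (w - x))) := by ring
  have h2 : 0 ≤ w * (-a * x ^ 2 + b * x + c) := by
    rw [e]
    have := mul_nonneg (sub_nonneg.2 hxw) h0
    have := mul_nonneg hx0 h1
    have := mul_nonneg ha (mul_nonneg hw.le (mul_nonneg hx0 (sub_nonneg.2 hxw)))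
    linarith
  by_contra hcon
  push Not at hcon
  have := mul_neg_of_pos_of_neg hw hcon
  linarith

theorem types_ab {r : ℕ} (hr : 5 ≤ r) (m : Fin r → ℕ) (hm : ∀ i, 2 ≤ m i) (n : ℕ) (hn : 0 < n)
    (h1 : (n : ℝ) * (areaN m ^ 2 - LamN m) ≤ 12 * ((r : ℝ) - 3) + 4) :
    n ≤ 120 ∧ 1 + (n : ℝ) / 2 * areaN m ≤ 64 := by
  have hA := ty_area_eq m
  have hL := ty_LamN_le m hm
  have hx0 := ty_x_nonneg m hm
  have hx1 := ty_x_le m
  set x := ∑ i, (1 / 2 - 1 / (m i : ℝ)) with hx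
  have hr' : (5 : ℝ) ≤ r := by exact_mod_cast hr
  obtain ⟨y, hy⟩ : ∃ y : ℝ, y = (r : ℝ) / 2 - 2 := ⟨_, rfl⟩
  have hry : (r : ℝ) = 2 * y + 4 := by linarith
  have hy1 : 1 / 2 ≤ y := by linarith
  rw [← hy] at hA
  have hxy : x ≤ y + 2 := by linarith
  have hn0 : (0 : ℝ) < n := by exact_mod_cast hn
  have hF : y ^ 2 + 2 * x * y - x ^ 2 / 3 ≤ areaN m ^ 2 - LamN m := by
    rw [hA]; nlinarith
  have h2 : (n : ℝ) * (y ^ 2 + 2 * x * y - x ^ 2 / 3) ≤ 24 * y + 16 := by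
    have := mul_le_mul_of_nonneg_left hF hn0.le
    rw [hry] at h1
    linarith
  have hFpos : 0 < y ^ 2 + 2 * x * y - x ^ 2 / 3 := by nlinarith
  constructor
  · have h3 : (24 * y + 16) ≤ 120 * (y ^ 2 + 2 * x * y - x ^ 2 / 3) := by nlinarith
    have h4 : (n : ℝ) * (y ^ 2 + 2 * x * y - x ^ 2 / 3) ≤
        120 * (y ^ 2 + 2 * x * y - x ^ 2 / 3) := h2.trans h3
    have h5 := le_of_mul_le_mul_right h4 hFpos
    exact_mod_cast h5
  · have h3 : (24 * y + 16) * (y + x) ≤ 126 * (y ^ 2 + 2 * x * y - x ^ 2 / 3) := by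
      have := ty_concave (a := 42) (b := 252 * y - (24 * y + 16))
        (c := 126 * y ^ 2 - (24 * y + 16) * y) (w := y + 2) (x := x) (by norm_num) (by linarith)
        hx0 hxy (by nlinarith) (by nlinarith)
      nlinarith
    have h4 : (n : ℝ) * (y + x) * (y ^ 2 + 2 * x * y - x ^ 2 / 3) ≤
        126 * (y ^ 2 + 2 * x * y - x ^ 2 / 3) := by
      have := mul_le_mul_of_nonneg_right h2 (show 0 ≤ y + x by linarith)
      nlinarith
    have h5 := le_of_mul_le_mul_right h4 hFpos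
    rw [hA]
    linarith

theorem ty_five_small (s : ℕ) (n A L S B : ℝ) (hn : 0 < n) (hs : s ≤ 5)
    (hS0 : 0 ≤ S) (hS1 : S ≤ s / 6) (hS2 : 2 * s ≤ n * S) (hA : B - S ≤ A) (hA3 : A ≤ 3)
    (hB0 : s ≤ 3 → 1 + (s : ℝ) / 3 ≤ B) (hB4 : s = 4 → 5 / 2 ≤ B) (hB5 : s = 5 → 3 ≤ B)
    (hL : L ≤ (s - S) * (s - 5 * S) / 3)
    (h1 : n * (A ^ 2 - L) ≤ 28 + 2 / 3 * (n - 1)) : n ≤ 120 ∧ n * A ≤ 126 := by
  have hnL := mul_le_mul_of_nonneg_left hL hn.le
  interval_cases s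
  · -- s = 0
    have hS : S = 0 := by
      have : S ≤ 0 := by simpa using hS1
      linarith
    subst hS
    have hB := hB0 (by norm_num)
    have hA1 : 1 ≤ A := by norm_num at hB; linarith
    have hL0 : L ≤ 0 := by norm_num at hL; exact hL
    have hA2 : 1 ≤ A ^ 2 := by nlinarith
    have h3 : n * A ^ 2 ≤ 82 / 3 + 2 / 3 * n := by nlinarith
    have h4 : n ≤ n * A ^ 2 := by nlinarith
    have h5 : n * A ≤ n * A ^ 2 := by
      apply mul_le_mul_of_nonneg_left _ hn.le; nlinarith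
    constructor <;> linarith
  · -- s = 1
    have hB := hB0 (by norm_num)
    norm_num at hB hS1 hS2 hL
    have hA1 : 7 / 6 ≤ A := by linarith
    have hL0 : L ≤ 1 / 3 := by nlinarith
    have h3 : n * A ^ 2 ≤ 82 / 3 + n := by nlinarith
    have h4 : n * (49 / 36) ≤ n * A ^ 2 := by
      apply mul_le_mul_of_nonneg_left _ hn.le; nlinarith
    have h5 : n * A * (7 / 6) ≤ n * A ^ 2 := by
      have : n * A * (7 / 6) ≤ n * A * A := by
        apply mul_le_mul_of_nonneg_left hA1; positivity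
      nlinarith
    constructor <;> linarith
  · -- s = 2
    have hB := hB0 (by norm_num)
    norm_num at hB hS1 hS2 hL
    have hA1 : 5 / 3 - S ≤ A := by linarith
    have hA2 : (5 / 3 - S) ^ 2 ≤ A ^ 2 := by
      apply pow_le_pow_left₀ (by linarith) hA1
    have h3 : 13 / 9 ≤ A ^ 2 - L := by nlinarith
    have h4 : n * (13 / 9) ≤ n * (A ^ 2 - L) := mul_le_mul_of_nonneg_left h3 hn.le
    have h5 : n * A ≤ n * 3 := mul_le_mul_of_nonneg_left hA3 hn.le
    constructor <;> linarith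
  · -- s = 3
    have hB := hB0 (by norm_num)
    norm_num at hB hS1 hS2 hL
    have hA1 : 2 - S ≤ A := by linarith
    have hA2 : (2 - S) ^ 2 ≤ A ^ 2 := by
      apply pow_le_pow_left₀ (by linarith) hA1
    have h3 : 1 + 5 / 3 * S ≤ A ^ 2 - L := by nlinarith
    have h4 : n * (1 + 5 / 3 * S) ≤ n * (A ^ 2 - L) := mul_le_mul_of_nonneg_left h3 hn.le
    have h6 : n ≤ 52 := by linarith
    have hL1 : L ≤ 3 - 31 / 6 * S := by nlinarith
    have h7 : n * L ≤ n * (3 - 31 / 6 * S) := mul_le_mul_of_nonneg_left hL1 hn.le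
    have h8 : n * A ^ 2 ≤ 187 := by linarith
    have h5 : n * A * (3 / 2) ≤ n * A ^ 2 := by
      have : n * A * (3 / 2) ≤ n * A * A := by
        apply mul_le_mul_of_nonneg_left (by linarith)
        have : 0 ≤ A := by linarith
        positivity
      nlinarith
    constructor <;> linarith
  · -- s = 4
    have hB := hB4 rfl
    norm_num at hB hS1 hS2 hL
    have hA1 : 5 / 2 - S ≤ A := by linarith
    have hA2 : (5 / 2 - S) ^ 2 ≤ A ^ 2 := by
      apply pow_le_pow_left₀ (by linarith) hA1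
    have h3 : 11 / 12 + 23 / 9 * S ≤ A ^ 2 - L := by nlinarith
    have h4 : n * (11 / 12 + 23 / 9 * S) ≤ n * (A ^ 2 - L) := mul_le_mul_of_nonneg_left h3 hn.le
    have h5 : n * A ≤ n * 3 := mul_le_mul_of_nonneg_left hA3 hn.le
    constructor <;> linarith
  · -- s = 5
    have hB := hB5 rfl
    norm_num at hB hS1 hS2 hL
    have hA1 : 3 - S ≤ A := by linarith
    have hA2 : (3 - S) ^ 2 ≤ A ^ 2 := by
      apply pow_le_pow_left₀ (by linarith) hA1
    have h3 : 2 / 3 + 31 / 9 * S ≤ A ^ 2 - L := by nlinarith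
    have h4 : n * (2 / 3 + 31 / 9 * S) ≤ n * (A ^ 2 - L) := mul_le_mul_of_nonneg_left h3 hn.le
    exfalso
    linarith

theorem ty_five_big (s : ℕ) (n A L S B : ℝ) (hn : 0 < n) (hs : s ≤ 2)
    (hS0 : 0 ≤ S) (hS1 : S ≤ s / 6) (hA : B - S ≤ A) (hA3 : A ≤ 3)
    (hB0 : s = 0 → 2 / 3 ≤ B) (hB1 : s = 1 → 1 ≤ B) (hB2 : s = 2 → 3 / 2 ≤ B)
    (hL : L ≤ (s - S) * (s - 5 * S) / 3)
    (h1 : n * (A ^ 2 - L) ≤ 28 + 1 / 5 * (n - 1)) : n ≤ 120 ∧ n * A ≤ 126 := by
  interval_cases s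
  · have hS : S = 0 := by
      have : S ≤ 0 := by simpa using hS1
      linarith
    subst hS
    have hB := hB0 rfl
    have hA1 : 2 / 3 ≤ A := by linarith
    have hL0 : L ≤ 0 := by norm_num at hL; exact hL
    have h3 : n * A ^ 2 ≤ 139 / 5 + 1 / 5 * n := by nlinarith
    have h4 : n * (4 / 9) ≤ n * A ^ 2 := by
      apply mul_le_mul_of_nonneg_left _ hn.le; nlinarith
    have h5 : n * A * (2 / 3) ≤ n * A ^ 2 := by
      have : n * A * (2 / 3) ≤ n * A * A := by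
        apply mul_le_mul_of_nonneg_left hA1; positivity
      nlinarith
    constructor <;> linarith
  · have hB := hB1 rfl
    norm_num at hB hS1 hL
    have hA1 : 1 - S ≤ A := by linarith
    have hA2 : (1 - S) ^ 2 ≤ A ^ 2 := by
      apply pow_le_pow_left₀ (by linarith) hA1
    have h3 : 35 / 54 ≤ A ^ 2 - L := by nlinarith
    have h4 : n * (35 / 54) ≤ n * (A ^ 2 - L) := mul_le_mul_of_nonneg_left h3 hn.le
    have h6 : n ≤ 63 := by linarith
    have hL1 : L ≤ 1 / 3 := by nlinarith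
    have h7 : n * L ≤ n * (1 / 3) := mul_le_mul_of_nonneg_left hL1 hn.le
    have h5 : n * A * (5 / 6) ≤ n * A ^ 2 := by
      have : n * A * (5 / 6) ≤ n * A * A := by
        apply mul_le_mul_of_nonneg_left (by linarith)
        have : 0 ≤ A := by linarith
        positivity
      nlinarith
    constructor <;> linarith
  · have hB := hB2 rfl
    norm_num at hB hS1 hL
    have hA1 : 3 / 2 - S ≤ A := by linarith
    have hA2 : (3 / 2 - S) ^ 2 ≤ A ^ 2 := by
      apply pow_le_pow_left₀ (by linarith) hA1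
    have h3 : 11 / 12 ≤ A ^ 2 - L := by nlinarith
    have h4 : n * (11 / 12) ≤ n * (A ^ 2 - L) := mul_le_mul_of_nonneg_left h3 hn.le
    have h5 : n * A ≤ n * 3 := mul_le_mul_of_nonneg_left hA3 hn.le
    constructor <;> linarith

theorem types_six {r : ℕ} (hr : 6 ≤ r) (m : Fin r → ℕ) (hm : ∀ i, 2 ≤ m i) (n : ℕ) (hn : 0 < n)
    (h1 : (n : ℝ) * (areaN m ^ 2 - LamN m) ≤ 12 * ((r : ℝ) - 3) + 4 + 2 / 3 * ((n : ℝ) - 1)) :
    n ≤ 120 ∧ 1 + (n : ℝ) / 2 * areaN m ≤ 64 := by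
  have hA := ty_area_eq m
  have hL := ty_LamN_le m hm
  have hx0 := ty_x_nonneg m hm
  have hx1 := ty_x_le m
  set x := ∑ i, (1 / 2 - 1 / (m i : ℝ)) with hx
  have hr' : (6 : ℝ) ≤ r := by exact_mod_cast hr
  obtain ⟨y, hy⟩ : ∃ y : ℝ, y = (r : ℝ) / 2 - 2 := ⟨_, rfl⟩
  have hry : (r : ℝ) = 2 * y + 4 := by linarith
  have hy1 : 1 ≤ y := by linarith
  rw [← hy] at hA
  have hxy : x ≤ y + 2 := by linarith
  have hn0 : (0 : ℝ) < n := by exact_mod_cast hn
  have hF : y ^ 2 + 2 * x * y - x ^ 2 / 3 ≤ areaN m ^ 2 - LamN m := by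
    rw [hA]; nlinarith
  have h2 : (n : ℝ) * (y ^ 2 + 2 * x * y - x ^ 2 / 3 - 2 / 3) ≤ 24 * y + 46 / 3 := by
    have := mul_le_mul_of_nonneg_left hF hn0.le
    rw [hry] at h1
    linarith
  have hFpos : 0 < y ^ 2 + 2 * x * y - x ^ 2 / 3 - 2 / 3 := by nlinarith
  constructor
  · have h3 : (24 * y + 46 / 3) ≤ 120 * (y ^ 2 + 2 * x * y - x ^ 2 / 3 - 2 / 3) := by nlinarith
    have h4 : (n : ℝ) * (y ^ 2 + 2 * x * y - x ^ 2 / 3 - 2 / 3) ≤
        120 * (y ^ 2 + 2 * x * y - x ^ 2 / 3 - 2 / 3) := h2.trans h3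
    have h5 := le_of_mul_le_mul_right h4 hFpos
    exact_mod_cast h5
  · have h3 : (24 * y + 46 / 3) * (y + x) ≤
        126 * (y ^ 2 + 2 * x * y - x ^ 2 / 3 - 2 / 3) := by
      have := ty_concave (a := 42) (b := 252 * y - (24 * y + 46 / 3))
        (c := 126 * y ^ 2 - 84 - (24 * y + 46 / 3) * y) (w := y + 2) (x := x) (by norm_num)
        (by linarith) hx0 hxy (by nlinarith) (by nlinarith)
      nlinarith
    have h4 : (n : ℝ) * (y + x) * (y ^ 2 + 2 * x * y - x ^ 2 / 3 - 2 / 3) ≤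
        126 * (y ^ 2 + 2 * x * y - x ^ 2 / 3 - 2 / 3) := by
      have := mul_le_mul_of_nonneg_right h2 (show 0 ≤ y + x by linarith)
      nlinarith
    have h5 := le_of_mul_le_mul_right h4 hFpos
    rw [hA]
    linarith

theorem ty_lam_small {g : ℕ} (hg : g ≤ 5) (hg1 : 1 ≤ g) : lam g = 0 := by
  rw [lam, max_eq_left_iff]
  have h1 : (1 : ℝ) ≤ g := by exact_mod_cast hg1
  have h2 : (g : ℝ) ≤ 5 := by exact_mod_cast hg
  have : ((g : ℝ) - 1) * ((g : ℝ) - 5) ≤ 0 :=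
    mul_nonpos_of_nonneg_of_nonpos (by linarith) (by linarith)
  linarith

theorem ty_lam_big {a b : ℕ} (ha : 6 ≤ a) (hb : 6 ≤ b) :
    lam (Nat.gcd a b) ≤ ((a : ℝ) - 1) * ((b : ℝ) - 5) / 3 := by
  have ha' : (6 : ℝ) ≤ a := by exact_mod_cast ha
  have hb' : (6 : ℝ) ≤ b := by exact_mod_cast hb
  have hga : ((Nat.gcd a b : ℕ) : ℝ) ≤ a := by
    exact_mod_cast Nat.gcd_le_left b (by omega)
  have hgb : ((Nat.gcd a b : ℕ) : ℝ) ≤ b := by
    exact_mod_cast Nat.gcd_le_right a (by omega)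
  have hg1 : (1 : ℝ) ≤ ((Nat.gcd a b : ℕ) : ℝ) := by
    exact_mod_cast Nat.gcd_pos_of_pos_left b (by omega)
  set g : ℝ := ((Nat.gcd a b : ℕ) : ℝ) with hg
  have h0 : 0 ≤ ((a : ℝ) - 1) * ((b : ℝ) - 5) := mul_nonneg (by linarith) (by linarith)
  rw [lam, max_le_iff]
  refine ⟨by positivity, ?_⟩
  rw [← hg]
  by_cases h5 : g ≤ 5
  · have : (g - 1) * (g - 5) ≤ 0 := mul_nonpos_of_nonneg_of_nonpos (by linarith) (by linarith)
    linarith
  · push Not at h5
    have h1 : (g - 1) * (g - 5) ≤ ((a : ℝ) - 1) * ((b : ℝ) - 5) :=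
      mul_le_mul (by linarith) (by linarith) (by linarith) (by linarith)
    linarith

/-- The bound for `LamN` in terms of the orders at least `6`. -/
theorem ty_LamN_big {r : ℕ} (m : Fin r → ℕ) (hm : ∀ i, 2 ≤ m i) :
    LamN m ≤ (((univ.filter fun i => 6 ≤ m i).card : ℝ) -
        ∑ i ∈ univ.filter (fun i => 6 ≤ m i), 1 / (m i : ℝ)) *
      (((univ.filter fun i => 6 ≤ m i).card : ℝ) -
        5 * ∑ i ∈ univ.filter (fun i => 6 ≤ m i), 1 / (m i : ℝ)) / 3 := by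
  set T := univ.filter (fun i => 6 ≤ m i) with hT
  have e1 : ((T.card : ℝ) - ∑ i ∈ T, 1 / (m i : ℝ)) = ∑ i ∈ T, (1 - 1 / (m i : ℝ)) := by
    rw [Finset.sum_sub_distrib]; simp
  have e2 : ((T.card : ℝ) - 5 * ∑ i ∈ T, 1 / (m i : ℝ)) = ∑ i ∈ T, (1 - 5 / (m i : ℝ)) := by
    rw [Finset.sum_sub_distrib, Finset.mul_sum]
    simp [div_eq_mul_inv]
  rw [e1, e2, Finset.sum_mul_sum, Finset.sum_div]
  have h1 : LamN m = ∑ i ∈ T, ∑ j ∈ T, lam (Nat.gcd (m i) (m j)) / ((m i : ℝ) * (m j : ℝ)) := by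
    rw [LamN]
    symm
    rw [Finset.sum_subset (Finset.subset_univ T)]
    · refine Finset.sum_congr rfl fun i _ => ?_
      refine Finset.sum_subset (Finset.subset_univ T) fun j _ hj => ?_
      have hj' : m j ≤ 5 := by
        by_contra hcon; apply hj; simp [hT]; omega
      have hg : Nat.gcd (m i) (m j) ≤ 5 :=
        (Nat.gcd_le_right (m i) (by have := hm j; omega)).trans hj'
      rw [ty_lam_small hg (Nat.gcd_pos_of_pos_left _ (by have := hm i; omega)), zero_div]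
    · intro i _ hi
      have hi' : m i ≤ 5 := by
        by_contra hcon; apply hi; simp [hT]; omega
      refine Finset.sum_eq_zero fun j _ => ?_
      have hg : Nat.gcd (m i) (m j) ≤ 5 :=
        (Nat.gcd_le_left (m j) (by have := hm i; omega)).trans hi'
      rw [ty_lam_small hg (Nat.gcd_pos_of_pos_left _ (by have := hm i; omega)), zero_div]
  rw [h1]
  refine Finset.sum_le_sum fun i hi => ?_
  rw [Finset.sum_div]
  refine Finset.sum_le_sum fun j hj => ?_
  have hi6 : 6 ≤ m i := by simpa [hT] using hi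
  have hj6 : 6 ≤ m j := by simpa [hT] using hj
  have hi' : (6 : ℝ) ≤ m i := by exact_mod_cast hi6
  have hj' : (6 : ℝ) ≤ m j := by exact_mod_cast hj6
  have hi0 : (0 : ℝ) < m i := by linarith
  have hj0 : (0 : ℝ) < m j := by linarith
  rw [div_le_iff₀ (mul_pos hi0 hj0)]
  have := ty_lam_big hi6 hj6
  have e : (1 - 1 / (m i : ℝ)) * (1 - 5 / (m j : ℝ)) / 3 * ((m i : ℝ) * m j) =
      ((m i : ℝ) - 1) * ((m j : ℝ) - 5) / 3 := by
    field_simp
  rw [e]; exact this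

theorem types_nonab {r : ℕ} (hr : 5 ≤ r) (m : Fin r → ℕ) (hm : ∀ i, 2 ≤ m i) (n : ℕ)
    (hn : ∀ i, 2 * m i ≤ n) (hne : ¬ (r = 5 ∧ ∀ i, m i = 2))
    (h1 : (n : ℝ) * (areaN m ^ 2 - LamN m) ≤ 12 * ((r : ℝ) - 3) + 4 + 2 / 3 * ((n : ℝ) - 1))
    (h2 : r ≤ (univ.filter fun i => m i = 2).card + 2 →
      (n : ℝ) * (areaN m ^ 2 - LamN m) ≤ 12 * ((r : ℝ) - 3) + 4 + 1 / 5 * ((n : ℝ) - 1)) :
    n ≤ 120 ∧ 1 + (n : ℝ) / 2 * areaN m ≤ 64 := by
  have hn0 : 0 < n := by
    have := hn ⟨0, by omega⟩; have := hm ⟨0, by omega⟩; omega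
  have hn0' : (0 : ℝ) < n := by exact_mod_cast hn0
  by_cases hr6 : 6 ≤ r
  · exact types_six hr6 m hm n hn0 h1
  have hr5 : r = 5 := by omega
  subst hr5
  set T := univ.filter (fun i => 6 ≤ m i) with hT
  set U := univ.filter (fun i => m i = 2) with hU
  set V := univ.filter (fun i => 3 ≤ m i ∧ m i ≤ 5) with hV
  set S := ∑ i ∈ T, 1 / (m i : ℝ) with hS
  have hcard : U.card + V.card + T.card = 5 := by
    have hUV : Disjoint U V := by
      rw [Finset.disjoint_left]; intro i; simp [hU, hV]; omega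
    have hUVT : Disjoint (U ∪ V) T := by
      rw [Finset.disjoint_left]; intro i; simp [hU, hV, hT]; omega
    have hun : U ∪ V ∪ T = univ := by
      ext i; have := hm i; simp [hU, hV, hT]; omega
    rw [← Finset.card_union_of_disjoint hUV, ← Finset.card_union_of_disjoint hUVT, hun]
    simp
  have hsum : ∑ i, 1 / (m i : ℝ) = ∑ i ∈ U, 1 / (m i : ℝ) + ∑ i ∈ V, 1 / (m i : ℝ) + S := by
    have hUV : Disjoint U V := by
      rw [Finset.disjoint_left]; intro i; simp [hU, hV]; omega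
    have hUVT : Disjoint (U ∪ V) T := by
      rw [Finset.disjoint_left]; intro i; simp [hU, hV, hT]; omega
    have hun : U ∪ V ∪ T = univ := by
      ext i; have := hm i; simp [hU, hV, hT]; omega
    rw [hS, ← Finset.sum_union hUV, ← Finset.sum_union hUVT, hun]
  have hUs : ∑ i ∈ U, 1 / (m i : ℝ) = (U.card : ℝ) / 2 := by
    rw [Finset.sum_congr rfl (g := fun _ => (1 : ℝ) / 2) fun i hi => by
      have : m i = 2 := by simpa [hU] using hi
      rw [this]; norm_num]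
    simp; ring
  have hVs : ∑ i ∈ V, 1 / (m i : ℝ) ≤ (V.card : ℝ) / 3 := by
    have : ∑ i ∈ V, 1 / (m i : ℝ) ≤ ∑ i ∈ V, (1 : ℝ) / 3 := by
      refine Finset.sum_le_sum fun i hi => ?_
      have h3 : 3 ≤ m i := (by simpa [hV] using hi : 3 ≤ m i ∧ m i ≤ 5).1
      exact one_div_le_one_div_of_le (by norm_num) (by exact_mod_cast h3)
    refine this.trans ?_
    simp; linarith
  have hS0 : 0 ≤ S := Finset.sum_nonneg fun i _ => by positivity
  have hS1 : S ≤ (T.card : ℝ) / 6 := by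
    have : S ≤ ∑ i ∈ T, (1 : ℝ) / 6 := by
      refine Finset.sum_le_sum fun i hi => ?_
      have h3 : 6 ≤ m i := by simpa [hT] using hi
      exact one_div_le_one_div_of_le (by norm_num) (by exact_mod_cast h3)
    refine this.trans ?_
    simp; linarith
  have hS2 : 2 * (T.card : ℝ) ≤ n * S := by
    rw [hS, Finset.mul_sum]
    have : ∑ i ∈ T, (2 : ℝ) ≤ ∑ i ∈ T, (n : ℝ) * (1 / (m i : ℝ)) := by
      refine Finset.sum_le_sum fun i hi => ?_
      have h3 : (2 * m i : ℝ) ≤ n := by exact_mod_cast hn i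
      have h4 : (0 : ℝ) < m i := by
        have := hm i
        exact_mod_cast (by omega : 0 < m i)
      rw [mul_one_div, le_div_iff₀ h4]
      exact h3
    have h5 : ∑ i ∈ T, (2 : ℝ) = 2 * (T.card : ℝ) := by
      rw [Finset.sum_const, nsmul_eq_mul]; ring
    rw [h5] at this
    exact this
  have hL := ty_LamN_big m hm
  rw [← hT, ← hS] at hL
  have hAeq : areaN m = 3 - (∑ i ∈ U, 1 / (m i : ℝ) + ∑ i ∈ V, 1 / (m i : ℝ) + S) := by
    rw [areaN, hsum]; push_cast; ring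
  have hA3 : areaN m ≤ 3 := by
    have h3 : 0 ≤ ∑ i ∈ U, 1 / (m i : ℝ) := Finset.sum_nonneg fun i _ => by positivity
    have h4 : 0 ≤ ∑ i ∈ V, 1 / (m i : ℝ) := Finset.sum_nonneg fun i _ => by positivity
    rw [hAeq]; linarith
  have hA0 : (3 - (U.card : ℝ) / 2 - (V.card : ℝ) / 3) - S ≤ areaN m := by
    rw [hAeq, hUs]; linarith
  have hcardR : (U.card : ℝ) + V.card + T.card = 5 := by exact_mod_cast hcard
  have hU5 : U.card ≠ 5 := by
    intro hcon
    apply hne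
    refine ⟨rfl, fun i => ?_⟩
    have : U = univ := by
      apply Finset.eq_univ_of_card; rw [hcon]; simp
    have hi : i ∈ U := by rw [this]; simp
    simpa [hU] using hi
  have key : (n : ℝ) ≤ 120 ∧ (n : ℝ) * areaN m ≤ 126 := by
    by_cases h3 : 3 ≤ U.card
    · have h1' := h2 (by omega)
      refine ty_five_big T.card n (areaN m) (LamN m) S (3 - (U.card : ℝ) / 2 - (V.card : ℝ) / 3)
        hn0' (by omega) hS0 hS1 hA0 hA3 ?_ ?_ ?_ hL (by push_cast at h1'; linarith)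
      · intro hs
        have h4 : U.card + V.card = 5 := by omega
        have h5 : (U.card : ℝ) + V.card = 5 := by exact_mod_cast h4
        have h6 : (U.card : ℝ) ≤ 4 := by exact_mod_cast (by omega : U.card ≤ 4)
        linarith
      · intro hs
        have h4 : U.card + V.card = 4 := by omega
        have h5 : (U.card : ℝ) + V.card = 4 := by exact_mod_cast h4
        have h6 : (U.card : ℝ) ≤ 4 := by exact_mod_cast (by omega : U.card ≤ 4)
        linarith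
      · intro hs
        have h4 : U.card + V.card = 3 := by omega
        have h5 : (U.card : ℝ) + V.card = 3 := by exact_mod_cast h4
        have h6 : (U.card : ℝ) ≤ 3 := by exact_mod_cast (by omega : U.card ≤ 3)
        linarith
    · push Not at h3
      refine ty_five_small T.card n (areaN m) (LamN m) S (3 - (U.card : ℝ) / 2 - (V.card : ℝ) / 3)
        hn0' (by omega) hS0 hS1 hS2 hA0 hA3 ?_ ?_ ?_ hL (by push_cast at h1; linarith)
      · intro hs
        have h6 : (U.card : ℝ) ≤ 2 := by exact_mod_cast (by omega : U.card ≤ 2)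
        linarith
      · intro hs
        have h4 : U.card + V.card = 1 := by omega
        have h5 : (U.card : ℝ) + V.card = 1 := by exact_mod_cast h4
        have h6 : (U.card : ℝ) ≤ 1 := by exact_mod_cast (by omega : U.card ≤ 1)
        linarith
      · intro hs
        have h4 : U.card = 0 := by omega
        have h5 : V.card = 0 := by omega
        rw [h4, h5]; norm_num
  refine ⟨by exact_mod_cast key.1, by linarith [key.2]⟩

end Pool.Agent.CO30
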