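import Pool.Agent.CO30.Two
import Pool.Agent.CO30.Age
import Pool.Agent.CO30.ChW
import Pool.Agent.CO30.EBound
import Pool.Agent.CO30.Types

/-!
# All finite groups, at least five branch points
-/

namespace Pool.Agent.CO30

open Matrix Finset Pool.Agent.CO75

variable {G : Type} [Group G] [Fintype G] {r : ℕ}

theorem area_eq (x : Fin r → G) : area x = areaN (fun i => orderOf (x i)) := rfl

/-- Chevalley–Weil: the multiplicities of the irreducible representations are natural numbers. -/
theorem natMult (x : Fin r → G) (hx : IsGenVec x) : NatMult x :=
  fun _ R _ hR => mu_nat_of (fun X h1 h2 h3 => age_ge X h1 h2 h3) x hx R hR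

theorem two_le_order (x : Fin r → G) (hx : IsGenVec x) (i : Fin r) : 2 ≤ orderOf (x i) := by
  have h1 := orderOf_pos (x i)
  have h2 : orderOf (x i) ≠ 1 := fun h => hx.ne_one i (orderOf_eq_one_iff.1 h)
  omega

theorem main (hr : 5 ≤ r) (x : Fin r → G) (hx : IsGenVec x) (hN : numN x = (r : ℂ) - 3) :
    Fintype.card G ≤ 120 ∧ genus x ≤ 64 := by
  classical
  obtain ⟨W⟩ := exists_wedd G
  have hkey := key_ineq W x (natMult x hx) hN
  have hE := E_ge_all x
  have hm := two_le_order x hx
  have hnpos : 0 < Fintype.card G := Fintype.card_pos
  have hn0 : (0 : ℝ) < (Fintype.card G : ℝ) := by exact_mod_cast hnpos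
  have hmain : (Fintype.card G : ℝ) * (areaN (fun i => orderOf (x i)) ^ 2 -
      LamN (fun i => orderOf (x i))) ≤ 12 * ((r : ℝ) - 3) + 4 + 4 * W.Q.card := by
    rw [← area_eq]
    linarith
  rw [genus_eq, area_eq]
  by_cases hab : ∀ a b : G, a * b = b * a
  · have hQ := W.Q_comm hab
    rw [hQ] at hmain
    simp only [Finset.card_empty, Nat.cast_zero, mul_zero, add_zero] at hmain
    exact types_ab hr _ hm (Fintype.card G) hnpos hmain
  · -- the orders are at most half of the order of the group
    have hhalf : ∀ i, 2 * orderOf (x i) ≤ Fintype.card G := by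
      intro i
      obtain ⟨k, hk⟩ : orderOf (x i) ∣ Fintype.card G := orderOf_dvd_card
      have hk1 : k ≠ 1 := by
        rintro rfl
        rw [mul_one] at hk
        apply hab
        have htop : Subgroup.zpowers (x i) = ⊤ := by
          apply Subgroup.eq_top_of_card_eq
          rw [Nat.card_zpowers, Nat.card_eq_fintype_card, hk]
        intro a b
        have ha : a ∈ Subgroup.zpowers (x i) := by rw [htop]; trivial
        have hb : b ∈ Subgroup.zpowers (x i) := by rw [htop]; trivial
        obtain ⟨p, rfl⟩ := ha
        obtain ⟨q, rfl⟩ := hb
        simp only [← _root_.zpow_add, add_comm]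
      have hk0 : k ≠ 0 := by
        rintro rfl
        omega
      have : 2 ≤ k := by omega
      nlinarith [orderOf_pos (x i)]
    have hsix := W.six_card_Q
    have hsix' : 6 * (W.Q.card : ℝ) + 1 ≤ (Fintype.card G : ℝ) := by exact_mod_cast hsix
    have ht1 : 1 ≤ (univ.filter fun g : G => g ^ 2 = 1).card := by
      rw [Nat.one_le_iff_ne_zero, Finset.card_ne_zero]
      exact ⟨1, by simp⟩
    have htwenty : r ≤ (univ.filter fun i => orderOf (x i) = 2).card + 2 →
        4 * (4 + 1) * W.Q.card + (univ.filter fun g : G => g ^ 2 = 1).card ≤ Fintype.card G := by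
      intro hr2
      have hcompl : (univ.filter fun i => ¬ orderOf (x i) = 2).card ≤ 2 := by
        have := Finset.card_filter_add_card_filter_not (s := (univ : Finset (Fin r)))
          (fun i => orderOf (x i) = 2)
        rw [Finset.card_univ, Fintype.card_fin] at this
        omega
      obtain ⟨a, b, hab'⟩ : ∃ a b : Fin r, ∀ i, i ≠ a → i ≠ b → orderOf (x i) = 2 := by
        have i0 : Fin r := ⟨0, by omega⟩
        rcases (univ.filter fun i => ¬ orderOf (x i) = 2).eq_empty_or_nonempty with he | ⟨a, ha⟩
        · refine ⟨i0, i0, fun i _ _ => ?_⟩
          by_contra hi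
          have : i ∈ (univ.filter fun i => ¬ orderOf (x i) = 2) := by simp [hi]
          rw [he] at this
          simp at this
        · rcases ((univ.filter fun i => ¬ orderOf (x i) = 2).erase a).eq_empty_or_nonempty with
            he | ⟨b, hb⟩
          · refine ⟨a, a, fun i hia _ => ?_⟩
            by_contra hi
            have : i ∈ (univ.filter fun i => ¬ orderOf (x i) = 2).erase a := by simp [hi, hia]
            rw [he] at this
            simp at this
          · refine ⟨a, b, fun i hia hib => ?_⟩
            by_contra hi
            have hi' : i ∈ ((univ.filter fun i => ¬ orderOf (x i) = 2).erase a).erase b := by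
              simp [hi, hia, hib]
            have h3 : 0 < (((univ.filter fun i => ¬ orderOf (x i) = 2).erase a).erase b).card :=
              Finset.card_pos.2 ⟨i, hi'⟩
            rw [Finset.card_erase_of_mem hb, Finset.card_erase_of_mem ha] at h3
            omega
      exact W.card_Q_le 4 fun j hj => W.four_le_d x hx.prod_eq hx.gen a b (fun i hia hib => by
        rw [← hab' i hia hib, pow_orderOf_eq_one]) hj
    by_cases hne : r = 5 ∧ ∀ i, orderOf (x i) = 2
    · obtain ⟨hr5, hall⟩ := hne
      subst hr5
      have h20 := htwenty (by simp [hall])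
      have hET := E_two x hall
      have harea : area x = 1 / 2 := by
        unfold area
        simp only [hall]
        norm_num
      have hle : (Fintype.card G : ℝ) ≤ 120 := by
        have h20' : 20 * (W.Q.card : ℝ) + (((univ.filter fun g : G => g ^ 2 = 1).card : ℝ) - 1) + 1 ≤
            (Fintype.card G : ℝ) := by
          have : ((4 * (4 + 1) * W.Q.card + (univ.filter fun g : G => g ^ 2 = 1).card : ℕ) : ℝ) ≤
              (Fintype.card G : ℝ) := by exact_mod_cast h20
          push_cast at this
          linarith
        have ht1' : (1 : ℝ) ≤ ((univ.filter fun g : G => g ^ 2 = 1).card : ℝ) := by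
          exact_mod_cast ht1
        refine num_two _ (((univ.filter fun g : G => g ^ 2 = 1).card : ℝ) - 1) W.Q.card (E x)
          (by linarith) h20' ?_ ?_
        · rw [← harea]
          have := hkey
          push_cast at this
          linarith
        · have := hET
          rw [harea] at this
          norm_num at this ⊢
          linarith
      constructor
      · exact_mod_cast hle
      · rw [← area_eq, harea]
        linarith
    · refine types_nonab hr _ hm (Fintype.card G) hhalf hne ?_ ?_
      · linarith
      · intro hr2
        have h20 := htwenty hr2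
        have : ((4 * (4 + 1) * W.Q.card + (univ.filter fun g : G => g ^ 2 = 1).card : ℕ) : ℝ) ≤
            (Fintype.card G : ℝ) := by exact_mod_cast h20
        push_cast at this
        have ht1' : (1 : ℝ) ≤ ((univ.filter fun g : G => g ^ 2 = 1).card : ℝ) := by
          exact_mod_cast ht1
        linarith

end Pool.Agent.CO30
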