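import Pool.Agent.CO30.Rp

/-!
# Twisted Frobenius-Schur indicators
-/

namespace Pool.Agent.CO30

open Matrix Finset Pool.Agent.CO75

section twisted

variable {H : Type} [Group H] [Fintype H] {d : ℕ}

private noncomputable def tavg (R : H →* Matrix (Fin d) (Fin d) ℂ) (τ : MulAut H)
    (X : Matrix (Fin d) (Fin d) ℂ) :
    Matrix (Fin d) (Fin d) ℂ := ∑ g : H, (R (τ g))ᵀ * X * R g

private theorem tavg_inv (R : H →* Matrix (Fin d) (Fin d) ℂ) (τ : MulAut H)
    (X : Matrix (Fin d) (Fin d) ℂ) (h : H) :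
    (R (τ h))ᵀ * tavg R τ X * R h = tavg R τ X := by
  unfold tavg
  rw [Matrix.mul_sum, Matrix.sum_mul]
  refine Fintype.sum_equiv (Equiv.mulRight h) _ _ fun g => ?_
  rw [Equiv.coe_mulRight, map_mul, map_mul, map_mul, Matrix.transpose_mul]
  simp only [Matrix.mul_assoc]

private def TForm (R : H →* Matrix (Fin d) (Fin d) ℂ) (τ : MulAut H)
    (J : Matrix (Fin d) (Fin d) ℂ) : Prop :=
  ∀ h, (R (τ h))ᵀ * J * R h = J

omit [Fintype H] in
private theorem tR_mul_inv (R : H →* Matrix (Fin d) (Fin d) ℂ) (h : H) : R h * R h⁻¹ = 1 := by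
  rw [← map_mul, mul_inv_cancel, map_one]

omit [Fintype H] in
private theorem TForm.comm {R : H →* Matrix (Fin d) (Fin d) ℂ} {τ : MulAut H}
    {J : Matrix (Fin d) (Fin d) ℂ} (hJ : TForm R τ J) (h : H) :
    J * R h = (R (τ h⁻¹))ᵀ * J := by
  have h1 := hJ h
  have h2 : (R (τ h⁻¹))ᵀ * (R (τ h))ᵀ = 1 := by
    rw [← Matrix.transpose_mul, map_inv, tR_mul_inv, Matrix.transpose_one]
  calc J * R h = ((R (τ h⁻¹))ᵀ * (R (τ h))ᵀ) * J * R h := by rw [h2, Matrix.one_mul]
    _ = (R (τ h⁻¹))ᵀ * ((R (τ h))ᵀ * J * R h) := by simp only [Matrix.mul_assoc]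
    _ = _ := by rw [h1]

private theorem TForm.det_ne {R : H →* Matrix (Fin d) (Fin d) ℂ}
    (hR : Submodule.span ℂ (Set.range R) = ⊤) {τ : MulAut H} {J : Matrix (Fin d) (Fin d) ℂ}
    (hJ : TForm R τ J) (h0 : J ≠ 0) : J.det ≠ 0 := by
  intro hdet
  obtain ⟨v, hv, hJv⟩ := Matrix.exists_mulVec_eq_zero_iff.2 hdet
  have key : ∀ M : Matrix (Fin d) (Fin d) ℂ, ∃ M' : Matrix (Fin d) (Fin d) ℂ, J * M = M' * J := by
    refine span_ind hR _ (fun g => ⟨_, hJ.comm g⟩) ⟨0, by simp⟩ ?_ ?_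
    · rintro A B ⟨A', hA⟩ ⟨B', hB⟩
      exact ⟨A' + B', by rw [mul_add, add_mul, hA, hB]⟩
    · rintro c A ⟨A', hA⟩
      exact ⟨c • A', by rw [Matrix.mul_smul, Matrix.smul_mul, hA]⟩
  apply h0
  obtain ⟨k, hk⟩ : ∃ k, v k ≠ 0 := Function.ne_iff.1 hv
  have hJz : ∀ w, J.mulVec w = 0 := by
    intro w
    obtain ⟨M', hM'⟩ := key (Matrix.vecMulVec w (Pi.single k (v k)⁻¹))
    have h1 : (Matrix.vecMulVec w (Pi.single k (v k)⁻¹)).mulVec v = w := by
      ext i
      simp [Matrix.mulVec, dotProduct, Matrix.vecMulVec_apply, Pi.single_apply, hk]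
    rw [← h1, Matrix.mulVec_mulVec, hM', ← Matrix.mulVec_mulVec, hJv, Matrix.mulVec_zero]
  ext i j
  have := congrFun (hJz (Pi.single j 1)) i
  simpa using this

private theorem TForm.unique {R : H →* Matrix (Fin d) (Fin d) ℂ}
    (hR : Submodule.span ℂ (Set.range R) = ⊤) {τ : MulAut H} {J K : Matrix (Fin d) (Fin d) ℂ}
    (hJ : TForm R τ J) (h0 : J ≠ 0) (hK : TForm R τ K) : ∃ c : ℂ, K = c • J := by
  have hu : IsUnit J.det := (hJ.det_ne hR h0).isUnit
  obtain ⟨c, hc⟩ := scalar_of_comm hR (J⁻¹ * K) (by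
    intro g
    have h1 := hJ.comm g
    have h2 := hK.comm g
    have h3 : J⁻¹ * (R (τ g⁻¹))ᵀ = R g * J⁻¹ := by
      calc J⁻¹ * (R (τ g⁻¹))ᵀ = J⁻¹ * ((R (τ g⁻¹))ᵀ * J) * J⁻¹ := by
            rw [Matrix.mul_assoc, Matrix.mul_assoc, Matrix.mul_nonsing_inv J hu, Matrix.mul_one]
        _ = R g * J⁻¹ := by
            rw [← h1, ← Matrix.mul_assoc, Matrix.nonsing_inv_mul J hu, Matrix.one_mul]
    rw [Matrix.mul_assoc, h2, ← Matrix.mul_assoc, h3, Matrix.mul_assoc])
  refine ⟨c, ?_⟩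
  calc K = J * (J⁻¹ * K) := by rw [← Matrix.mul_assoc, Matrix.mul_nonsing_inv J hu, Matrix.one_mul]
    _ = c • J := by rw [hc, Matrix.mul_smul, Matrix.mul_one]

private theorem TForm.trace_inv {R : H →* Matrix (Fin d) (Fin d) ℂ}
    (hR : Submodule.span ℂ (Set.range R) = ⊤) {τ : MulAut H} {J : Matrix (Fin d) (Fin d) ℂ}
    (hJ : TForm R τ J) (h0 : J ≠ 0) (h : H) : (R (τ h)).trace = (R h⁻¹).trace := by
  have hu : IsUnit J.det := (hJ.det_ne hR h0).isUnit
  have h1 := hJ.comm h⁻¹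
  rw [inv_inv] at h1
  calc (R (τ h)).trace = ((R (τ h))ᵀ).trace := (Matrix.trace_transpose _).symm
    _ = ((R (τ h))ᵀ * J * J⁻¹).trace := by
        rw [Matrix.mul_assoc, Matrix.mul_nonsing_inv J hu, Matrix.mul_one]
    _ = (J * R h⁻¹ * J⁻¹).trace := by rw [h1]
    _ = (J⁻¹ * (J * R h⁻¹)).trace := Matrix.trace_mul_comm _ _
    _ = (R h⁻¹).trace := by rw [← Matrix.mul_assoc, Matrix.nonsing_inv_mul J hu, Matrix.one_mul]

private noncomputable def tavgL (R : H →* Matrix (Fin d) (Fin d) ℂ) (τ : MulAut H) :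
    Matrix (Fin d) (Fin d) ℂ →ₗ[ℂ] Matrix (Fin d) (Fin d) ℂ where
  toFun := tavg R τ
  map_add' X Y := by
    unfold tavg
    rw [← Finset.sum_add_distrib]
    refine Finset.sum_congr rfl fun g _ => ?_
    rw [Matrix.mul_add, Matrix.add_mul]
  map_smul' c X := by
    unfold tavg
    rw [RingHom.id_apply, Finset.smul_sum]
    refine Finset.sum_congr rfl fun g _ => ?_
    rw [Matrix.mul_smul, Matrix.smul_mul]

private theorem tavg_form {R : H →* Matrix (Fin d) (Fin d) ℂ} {τ : MulAut H}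
    {J : Matrix (Fin d) (Fin d) ℂ} (hJ : TForm R τ J) :
    tavg R τ J = (Fintype.card H : ℂ) • J := by
  unfold tavg
  simp only [hJ _]
  rw [Finset.sum_const, Finset.card_univ, ← Nat.cast_smul_eq_nsmul ℂ]

/-- the trace of the operator `X ↦ tavg X` composed with a transposition and a multiplication -/
private theorem tsum (R : H →* Matrix (Fin d) (Fin d) ℂ) (τ : MulAut H)
    (Z : Matrix (Fin d) (Fin d) ℂ) :
    ∑ g : H, (R (τ g) * Z * R g).trace =
      ∑ p, ∑ s, ∑ q, Z q s * tavg R τ (Matrix.single p s 1) q p := by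
  have h1 : ∀ g : H, (R (τ g) * Z * R g).trace =
      ∑ p, ∑ s, ∑ q, Z q s * (R (τ g) p q * R g s p) := by
    intro g
    rw [Matrix.trace]
    refine Finset.sum_congr rfl fun p _ => ?_
    rw [Matrix.diag_apply, Matrix.mul_apply]
    refine Finset.sum_congr rfl fun s _ => ?_
    rw [Matrix.mul_apply, Finset.sum_mul]
    refine Finset.sum_congr rfl fun q _ => ?_
    ring
  have h2 : ∀ p s q, tavg R τ (Matrix.single p s 1) q p = ∑ g : H, R (τ g) p q * R g s p := by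
    intro p s q
    unfold tavg
    rw [Matrix.sum_apply]
    refine Finset.sum_congr rfl fun g _ => ?_
    rw [Matrix.mul_apply]
    simp [Matrix.mul_apply, Matrix.single_apply, ite_and, Finset.sum_ite_eq]
  simp only [h1, h2]
  rw [Finset.sum_comm]
  refine Finset.sum_congr rfl fun p _ => ?_
  rw [Finset.sum_comm]
  refine Finset.sum_congr rfl fun s _ => ?_
  rw [Finset.sum_comm]
  refine Finset.sum_congr rfl fun q _ => ?_
  rw [Finset.mul_sum]

/-- The twisted Frobenius-Schur theorem. -/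
private theorem tfs (R : H →* Matrix (Fin d) (Fin d) ℂ)
    (hR : Submodule.span ℂ (Set.range R) = ⊤) (τ : MulAut H) (z : H) (hz : τ z = z)
    (hτ : ∀ h, τ (τ h) * z = z * h) :
    ∑ g : H, (R (τ g) * R z * R g).trace = 0 ∨
      ((∑ g : H, (R (τ g) * R z * R g).trace = (Fintype.card H : ℂ) ∨
        ∑ g : H, (R (τ g) * R z * R g).trace = -(Fintype.card H : ℂ)) ∧
      ∀ h, (R (τ h)).trace = (R h⁻¹).trace) := by
  have hn : (Fintype.card H : ℂ) ≠ 0 := by exact_mod_cast Fintype.card_ne_zero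
  by_cases hall : ∀ X, tavg R τ X = 0
  · left
    rw [tsum]
    simp [hall]
  · right
    push Not at hall
    obtain ⟨X₀, hX₀⟩ := hall
    set J := tavg R τ X₀ with hJdef
    have hJ : TForm R τ J := tavg_inv R τ X₀
    have hJ0 : J ≠ 0 := hX₀
    have hK : TForm R τ (Jᵀ * R z) := by
      intro h
      have h1 := congrArg Matrix.transpose (hJ (τ h))
      rw [Matrix.transpose_mul, Matrix.transpose_mul, Matrix.transpose_transpose] at h1
      have h2 : R (τ (τ h)) * R z = R z * R h := by rw [← map_mul, hτ, map_mul]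
      calc (R (τ h))ᵀ * (Jᵀ * R z) * R h = (R (τ h))ᵀ * Jᵀ * (R z * R h) := by
            simp only [Matrix.mul_assoc]
        _ = ((R (τ h))ᵀ * (Jᵀ * R (τ (τ h)))) * R z := by
            rw [← h2]; simp only [Matrix.mul_assoc]
        _ = Jᵀ * R z := by rw [h1]
    obtain ⟨c, hc⟩ := hJ.unique hR hJ0 hK
    have hcc : c * c = 1 := by
      have h1 : J = (c * c) • J := by
        have h2 := congrArg Matrix.transpose hc
        rw [Matrix.transpose_mul, Matrix.transpose_transpose, Matrix.transpose_smul] at h2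
        have h3 := hJ z
        rw [hz] at h3
        calc J = (R z)ᵀ * J * R z := h3.symm
          _ = (c • Jᵀ) * R z := by rw [h2]
          _ = (c * c) • J := by rw [Matrix.smul_mul, hc, smul_smul]
      have h2 : (c * c - 1) • J = 0 := by
        rw [sub_smul, one_smul, ← h1, sub_self]
      rcases smul_eq_zero.1 h2 with h | h
      · exact sub_eq_zero.1 h
      · exact absurd h hJ0
    choose φ hφ using fun p q : Fin d => hJ.unique hR hJ0
      (show TForm R τ (tavg R τ (Matrix.single p q 1)) from tavg_inv R τ _)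
    have hkey : ∑ p, ∑ s, φ p s * (Jᵀ * R z) p s = (Fintype.card H : ℂ) * c := by
      have h1 : tavg R τ (Jᵀ * R z) = (∑ p, ∑ s, φ p s * (Jᵀ * R z) p s) • J := by
        have h2 : Jᵀ * R z = ∑ p, ∑ s, ((Jᵀ * R z) p s) • Matrix.single p s (1 : ℂ) := by
          conv_lhs => rw [Matrix.matrix_eq_sum_single (Jᵀ * R z)]
          refine Finset.sum_congr rfl fun p _ => Finset.sum_congr rfl fun q _ => ?_
          rw [Matrix.smul_single, smul_eq_mul, mul_one]
        have h3 : tavg R τ (Jᵀ * R z) =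
            ∑ p, ∑ s, ((Jᵀ * R z) p s) • tavg R τ (Matrix.single p s 1) := by
          conv_lhs => rw [h2]
          change tavgL R τ _ = _
          rw [map_sum]
          refine Finset.sum_congr rfl fun p _ => ?_
          rw [map_sum]
          refine Finset.sum_congr rfl fun q _ => ?_
          rw [map_smul]
          rfl
        rw [h3, Finset.sum_smul]
        refine Finset.sum_congr rfl fun p _ => ?_
        rw [Finset.sum_smul]
        refine Finset.sum_congr rfl fun q _ => ?_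
        rw [hφ p q, smul_smul, mul_comm]
      rw [tavg_form hK, hc, smul_smul] at h1
      have h4 : (∑ p, ∑ s, φ p s * (c • J) p s - (Fintype.card H : ℂ) * c) • J = 0 := by
        rw [sub_smul, ← h1, sub_self]
      rw [hc]
      rcases smul_eq_zero.1 h4 with h | h
      · exact sub_eq_zero.1 h
      · exact absurd h hJ0
    have hnu : ∑ g : H, (R (τ g) * R z * R g).trace = (Fintype.card H : ℂ) * c := by
      rw [tsum, ← hkey]
      refine Finset.sum_congr rfl fun p _ => Finset.sum_congr rfl fun s _ => ?_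
      rw [Matrix.mul_apply, Finset.mul_sum]
      refine Finset.sum_congr rfl fun q _ => ?_
      rw [hφ p s, Matrix.smul_apply, smul_eq_mul, Matrix.transpose_apply]
      ring
    refine ⟨?_, fun h => hJ.trace_inv hR hJ0 h⟩
    have h6 : (c - 1) * (c + 1) = 0 := by linear_combination hcc
    rcases mul_eq_zero.1 h6 with h | h
    · left
      rw [hnu, sub_eq_zero.1 h, mul_one]
    · right
      rw [hnu, eq_neg_of_add_eq_zero_left h, mul_neg, mul_one]

end twisted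

variable {G : Type} [Group G] [Fintype G] {r d : ℕ}

omit [Fintype G] in
private theorem ftt_main (C : Subgroup G) [C.Normal] [Fintype C] (g₀ : G)
    (R : C →* Matrix (Fin d) (Fin d) ℂ) (hR : Irr R) :
    nuT C g₀ R = 0 ∨ ((nuT C g₀ R = 1 ∨ nuT C g₀ R = -1) ∧ CDual C R g₀) := by
  have hn : (Fintype.card C : ℂ) ≠ 0 := by exact_mod_cast Fintype.card_ne_zero
  by_cases h : g₀ ^ 2 ∈ C
  · have h1 : ∀ c : C, (⟨g₀ ^ 2, h⟩ : C) = ⟨g₀ ^ 2, h⟩ := fun _ => rfl
    have hmem : ∀ c : C, (g₀ * (c : G)) ^ 2 ∈ C := by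
      intro c
      have h1 : (g₀ * (c : G)) ^ 2 = (g₀ * c * g₀⁻¹) * g₀ ^ 2 * c := by
        rw [pow_two, pow_two]; group
      rw [h1]
      have h2 : g₀ * (c : G) * g₀⁻¹ ∈ C := Subgroup.Normal.conj_mem inferInstance _ c.2 _
      exact C.mul_mem (C.mul_mem h2 h) c.2
    have h2 : nuT C g₀ R = 1 / (Fintype.card C : ℂ) *
        ∑ c : C, (R (MulAut.conjNormal g₀ c) * R ⟨g₀ ^ 2, h⟩ * R c).trace := by
      unfold nuT
      congr 1
      refine Finset.sum_congr rfl fun c _ => ?_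
      rw [dif_pos (hmem c), ← map_mul, ← map_mul]
      congr 2
      apply Subtype.ext
      change (g₀ * (c : G)) ^ 2 = (g₀ * c * g₀⁻¹) * g₀ ^ 2 * c
      rw [pow_two, pow_two]; group
    have h3 := tfs R hR.2 (MulAut.conjNormal g₀) ⟨g₀ ^ 2, h⟩ (by
      apply Subtype.ext
      change g₀ * g₀ ^ 2 * g₀⁻¹ = g₀ ^ 2
      group) (by
      intro c
      apply Subtype.ext
      change g₀ * (g₀ * c * g₀⁻¹) * g₀⁻¹ * g₀ ^ 2 = g₀ ^ 2 * c
      rw [pow_two]
      group)
    rcases h3 with h3 | ⟨h3 | h3, h4⟩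
    · left
      rw [h2, h3, mul_zero]
    · right
      refine ⟨Or.inl ?_, h4⟩
      rw [h2, h3, one_div, inv_mul_cancel₀ hn]
    · right
      refine ⟨Or.inr ?_, h4⟩
      rw [h2, h3, one_div, mul_neg, inv_mul_cancel₀ hn]
  · left
    unfold nuT
    rw [Finset.sum_eq_zero, mul_zero]
    intro c _
    rw [dif_neg]
    intro h1
    apply h
    have h2 : g₀ ^ 2 = (g₀ * c * g₀⁻¹)⁻¹ * (g₀ * (c : G)) ^ 2 * (c : G)⁻¹ := by
      rw [pow_two, pow_two]; group
    rw [h2]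
    have h3 : g₀ * (c : G) * g₀⁻¹ ∈ C := Subgroup.Normal.conj_mem inferInstance _ c.2 _
    exact C.mul_mem (C.mul_mem (C.inv_mem h3) h1) (C.inv_mem c.2)

omit [Fintype G] in
theorem nuT_cases (C : Subgroup G) [C.Normal] [Fintype C] (g₀ : G)
    (R : C →* Matrix (Fin d) (Fin d) ℂ) (hR : Irr R) :
    nuT C g₀ R = 0 ∨ nuT C g₀ R = 1 ∨ nuT C g₀ R = -1 := by
  rcases ftt_main C g₀ R hR with h | ⟨h, _⟩
  · exact Or.inl h
  · exact Or.inr h

omit [Fintype G] in
theorem cdual_of_nuT (C : Subgroup G) [C.Normal] [Fintype C] (g₀ : G)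
    (R : C →* Matrix (Fin d) (Fin d) ℂ) (hR : Irr R) (h : nuT C g₀ R ≠ 0) : CDual C R g₀ := by
  rcases ftt_main C g₀ R hR with h1 | ⟨_, h1⟩
  · exact absurd h1 h
  · exact h1


omit [Fintype G] in
private theorem ft_sq_mem (C : Subgroup G) [C.Normal] (g₀ : G) (h : g₀ ^ 2 ∈ C) (c : C) :
    (g₀ * c) ^ 2 ∈ C := by
  have h1 : (g₀ * (c : G)) ^ 2 = (g₀ * c * g₀⁻¹) * g₀ ^ 2 * c := by
    rw [pow_two, pow_two]; group
  rw [h1]
  have h2 : g₀ * (c : G) * g₀⁻¹ ∈ C := Subgroup.Normal.conj_mem inferInstance _ c.2 _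
  exact C.mul_mem (C.mul_mem h2 h) c.2

omit [Fintype G] in
private theorem ft_nuT (C : Subgroup G) [C.Normal] [Fintype C] (g₀ : G) (h : g₀ ^ 2 ∈ C)
    (R : C →* Matrix (Fin d) (Fin d) ℂ) :
    nuT C g₀ R = 1 / (Fintype.card C : ℂ) *
      ∑ c : C, (R ⟨(g₀ * c) ^ 2, ft_sq_mem C g₀ h c⟩).trace := by
  unfold nuT
  congr 1
  refine Finset.sum_congr rfl fun c _ => ?_
  rw [dif_pos (ft_sq_mem C g₀ h c)]

omit [Fintype G] in
open Classical in
theorem sum_nuT (C : Subgroup G) [C.Normal] [Fintype C] (WC : Wedd C) (g₀ : G) (h : g₀ ^ 2 ∈ C) :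
    ∑ j, (WC.d j : ℂ) * nuT C g₀ (WC.R j) =
      ((univ.filter fun c : C => (g₀ * c) ^ 2 = 1).card : ℂ) := by
  have hn : (Fintype.card C : ℂ) ≠ 0 := by exact_mod_cast Fintype.card_ne_zero
  have h1 : ∀ j, (WC.d j : ℂ) * nuT C g₀ (WC.R j) = ∑ c : C, 1 / (Fintype.card C : ℂ) *
      ((WC.d j : ℂ) * (WC.R j ⟨(g₀ * c) ^ 2, ft_sq_mem C g₀ h c⟩).trace) := by
    intro j
    rw [ft_nuT C g₀ h, ← mul_assoc, Finset.mul_sum]
    exact Finset.sum_congr rfl fun c _ => by ring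
  rw [Finset.sum_congr rfl fun j _ => h1 j, Finset.sum_comm]
  have h2 : ∀ c : C, ∑ j, 1 / (Fintype.card C : ℂ) *
      ((WC.d j : ℂ) * (WC.R j ⟨(g₀ * c) ^ 2, ft_sq_mem C g₀ h c⟩).trace) =
      if (g₀ * (c : G)) ^ 2 = 1 then 1 else 0 := by
    intro c
    rw [← Finset.mul_sum, WC.col]
    by_cases h3 : (g₀ * (c : G)) ^ 2 = 1
    · have h4 : (⟨(g₀ * (c : G)) ^ 2, ft_sq_mem C g₀ h c⟩ : C) = 1 := Subtype.ext h3
      rw [if_pos h4, if_pos h3, one_div, inv_mul_cancel₀ hn]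
    · have h4 : ¬ (⟨(g₀ * (c : G)) ^ 2, ft_sq_mem C g₀ h c⟩ : C) = 1 := by
        intro h5
        exact h3 (congrArg Subtype.val h5)
      rw [if_neg h4, if_neg h3, mul_zero]
  rw [Finset.sum_congr rfl fun c _ => h2 c, Finset.sum_ite, Finset.sum_const_zero, add_zero,
    Finset.sum_const, nsmul_eq_mul, mul_one]

omit [Fintype G] in
theorem nuT_triv (C : Subgroup G) [C.Normal] [Fintype C] (g₀ : G) (h : g₀ ^ 2 ∈ C) :
    nuT C g₀ (trivR C) = 1 := by
  have hn : (Fintype.card C : ℂ) ≠ 0 := by exact_mod_cast Fintype.card_ne_zero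
  rw [ft_nuT C g₀ h]
  have h1 : ∀ c : C, (trivR C ⟨(g₀ * c) ^ 2, ft_sq_mem C g₀ h c⟩).trace = 1 := by
    intro c
    change (1 : Matrix (Fin 1) (Fin 1) ℂ).trace = 1
    simp
  rw [Finset.sum_congr rfl fun c _ => h1 c, Finset.sum_const, Finset.card_univ, nsmul_eq_mul,
    mul_one, one_div, inv_mul_cancel₀ hn]

omit [Fintype G] in
theorem nuT_twk (C : Subgroup G) [C.Normal] [Fintype C] (α : C →* ℂˣ) (I : Set G) (g₀ : G)
    (hI : IsInv C α I g₀) (R : C →* Matrix (Fin d) (Fin d) ℂ) (k : ℤ) :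
    nuT C g₀ (twk R α k) = nuT C g₀ R := by
  obtain ⟨h, hα⟩ := hI.sq
  rw [ft_nuT C g₀ h, ft_nuT C g₀ h]
  congr 1
  refine Finset.sum_congr rfl fun c _ => ?_
  have h1 : (⟨(g₀ * (c : G)) ^ 2, ft_sq_mem C g₀ h c⟩ : C) =
      MulAut.conjNormal g₀ c * ⟨g₀ ^ 2, h⟩ * c := by
    apply Subtype.ext
    change (g₀ * (c : G)) ^ 2 = (g₀ * c * g₀⁻¹) * g₀ ^ 2 * c
    rw [pow_two, pow_two]; group
  have h2 : α ⟨(g₀ * (c : G)) ^ 2, ft_sq_mem C g₀ h c⟩ = 1 := by
    rw [h1, map_mul, map_mul, hα, hI.inv, mul_one, inv_mul_cancel]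
  change (((α ⟨(g₀ * (c : G)) ^ 2, ft_sq_mem C g₀ h c⟩ ^ k : ℂˣ) : ℂ) •
    R ⟨(g₀ * (c : G)) ^ 2, ft_sq_mem C g₀ h c⟩).trace = _
  rw [h2, _root_.one_zpow, Units.val_one, one_smul]

/-- the multiplicities of `R` and of its dual agree if the indicator is not zero -/
theorem mC_dual_eq (C : Subgroup G) [C.Normal] [Fintype C] (x : Fin r → G) (g₀ : G)
    (R : C →* Matrix (Fin d) (Fin d) ℂ) (h : CDual C R g₀) : mC C x (dual R) = mC C x R := by
  unfold mC
  congr 1
  refine (Fintype.sum_equiv (MulAut.conjNormal g₀ : MulAut C).toEquiv _ _ fun c => ?_).symm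
  change eichler x (c : G) * (R c⁻¹).trace =
    eichler x ((MulAut.conjNormal g₀ c : C) : G) * ((R (MulAut.conjNormal g₀ c)⁻¹⁻¹)ᵀ).trace
  rw [inv_inv, Matrix.trace_transpose, h c, MulAut.conjNormal_apply, eichler_conj]

private noncomputable def ftChar (C : Subgroup G) [C.Normal] (s : G)
    (R : C →* Matrix (Fin 1) (Fin 1) ℂ) : C →* ℂ where
  toFun c := R (MulAut.conjNormal s c) 0 0 * R c 0 0
  map_one' := by simp
  map_mul' a b := by
    rw [map_mul, map_mul, map_mul, Matrix.mul_apply, Matrix.mul_apply]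
    simp only [Fin.sum_univ_one]
    ring

omit [Fintype G] in
theorem nuT_ne_neg (C : Subgroup G) [C.Normal] [Fintype C] (g₀ : G)
    (R : C →* Matrix (Fin 1) (Fin 1) ℂ) (c : C) (hc : (g₀ * c) ^ 2 = 1) : nuT C g₀ R ≠ -1 := by
  classical
  have hn : (Fintype.card C : ℂ) ≠ 0 := by exact_mod_cast Fintype.card_ne_zero
  have h : g₀ ^ 2 ∈ C := by
    have h1 : g₀ ^ 2 = (g₀ * c * g₀⁻¹)⁻¹ * (g₀ * (c : G)) ^ 2 * (c : G)⁻¹ := by
      rw [pow_two, pow_two]; group
    rw [h1, hc, mul_one]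
    have h2 : g₀ * (c : G) * g₀⁻¹ ∈ C := Subgroup.Normal.conj_mem inferInstance _ c.2 _
    exact C.mul_mem (C.inv_mem h2) (C.inv_mem c.2)
  have h3 : nuT C g₀ R = 1 / (Fintype.card C : ℂ) * ∑ c' : C, ftChar C (g₀ * c) R c' := by
    rw [ft_nuT C g₀ h]
    congr 1
    refine (Fintype.sum_equiv (Equiv.mulLeft c) _ _ fun c' => ?_).symm
    have hs : (g₀ * (c : G))⁻¹ = g₀ * c := inv_eq_of_mul_eq_one_left (by rw [← pow_two, hc])
    have h4 : (⟨(g₀ * ((Equiv.mulLeft c c' : C) : G)) ^ 2, ft_sq_mem C g₀ h _⟩ : C) =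
        MulAut.conjNormal (g₀ * (c : G)) c' * c' := by
      apply Subtype.ext
      change (g₀ * ((c : G) * (c' : G))) ^ 2 = (g₀ * c) * c' * (g₀ * c)⁻¹ * c'
      rw [hs, pow_two]
      simp only [mul_assoc]
    rw [h4, map_mul]
    change R (MulAut.conjNormal (g₀ * (c : G)) c') 0 0 * R c' 0 0 = _
    rw [Matrix.trace_fin_one, Matrix.mul_apply]
    simp only [Fin.sum_univ_one]
  rw [h3, sum_hom_units]
  split_ifs with h5
  · rw [one_div, inv_mul_cancel₀ hn]
    norm_num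
  · push_cast
    rw [mul_zero]
    norm_num


open Classical in
private noncomputable def fuF (C : Subgroup G) (R : C →* Matrix (Fin d) (Fin d) ℂ) (g : G) : ℂ :=
  if h : g ^ 2 ∈ C then (R ⟨g ^ 2, h⟩).trace else 0

private theorem fu_sum (C : Subgroup G) [Fintype C] (R : C →* Matrix (Fin d) (Fin d) ℂ) :
    nuC C R = 1 / (Fintype.card C : ℂ) * ∑ g : G, nuT C g R := by
  have hn : (Fintype.card C : ℂ) ≠ 0 := by exact_mod_cast Fintype.card_ne_zero
  have h1 : ∑ g : G, nuT C g R = 1 / (Fintype.card C : ℂ) * ∑ c : C, ∑ g : G, fuF C R (g * c) := by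
    rw [Finset.sum_comm, Finset.mul_sum]
    rfl
  have h2 : ∀ c : C, ∑ g : G, fuF C R (g * c) = ∑ g : G, fuF C R g := fun c =>
    Fintype.sum_equiv (Equiv.mulRight (c : G)) _ _ fun g => rfl
  have h3 : nuC C R = 1 / (Fintype.card C : ℂ) * ∑ g : G, fuF C R g := rfl
  rw [h1, Finset.sum_congr rfl fun c _ => h2 c, Finset.sum_const, Finset.card_univ, nsmul_eq_mul,
    ← mul_assoc (1 / (Fintype.card C : ℂ)) (Fintype.card C : ℂ), one_div, inv_mul_cancel₀ hn,
    one_mul, h3, one_div]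

omit [Fintype G] in
private theorem fu_coset (C : Subgroup G) [Fintype C] (R : C →* Matrix (Fin d) (Fin d) ℂ) (g : G)
    (c : G) (hc : c ∈ C) : nuT C (g * c) R = nuT C g R := by
  have h1 : ∀ g, nuT C g R = 1 / (Fintype.card C : ℂ) * ∑ c : C, fuF C R (g * c) := fun g => rfl
  rw [h1, h1]
  congr 1
  refine Fintype.sum_equiv (Equiv.mulLeft (⟨c, hc⟩ : C)) _ _ fun c' => ?_
  change fuF C R (g * c * c') = fuF C R (g * (c * c'))
  rw [mul_assoc]

/-- if `R` is not isomorphic to a conjugate of its dual by an element outside `I = g₀ C`, then the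
Frobenius-Schur indicator of the induced representation is the twisted one -/
theorem nuC_eq_nuT (C : Subgroup G) [C.Normal] [Fintype C] (g₀ : G)
    (R : C →* Matrix (Fin d) (Fin d) ℂ) (hR : Irr R)
    (h : ∀ g, g₀⁻¹ * g ∉ C → ¬ CDual C R g) : nuC C R = nuT C g₀ R := by
  classical
  have hn : (Fintype.card C : ℂ) ≠ 0 := by exact_mod_cast Fintype.card_ne_zero
  rw [fu_sum]
  have h1 : ∑ g : G, nuT C g R = ∑ g : G, nuT C (g₀ * g) R :=
    (Fintype.sum_equiv (Equiv.mulLeft g₀) _ _ fun g => rfl).symm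
  have h2 : ∀ g : G, nuT C (g₀ * g) R = if g ∈ C then nuT C g₀ R else 0 := by
    intro g
    by_cases hg : g ∈ C
    · rw [if_pos hg, fu_coset C R g₀ g hg]
    · rw [if_neg hg]
      by_contra h3
      refine h (g₀ * g) ?_ (cdual_of_nuT C (g₀ * g) R hR h3)
      rwa [inv_mul_cancel_left]
  rw [h1, Finset.sum_congr rfl fun g _ => h2 g, Finset.sum_ite, Finset.sum_const_zero, add_zero,
    Finset.sum_const, nsmul_eq_mul]
  have h3 : (univ.filter fun g : G => g ∈ C).card = Fintype.card C :=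
    (Fintype.card_subtype _).symm
  rw [h3, ← mul_assoc, one_div, inv_mul_cancel₀ hn, one_mul]

theorem nuC_eq_zero (C : Subgroup G) [C.Normal] [Fintype C]
    (R : C →* Matrix (Fin d) (Fin d) ℂ) (hR : Irr R) (h : ∀ g, ¬ CDual C R g) : nuC C R = 0 := by
  rw [fu_sum, Finset.sum_eq_zero, mul_zero]
  intro g _
  by_contra h3
  exact h g (cdual_of_nuT C g R hR h3)

end Pool.Agent.CO30
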