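import Pool.Agent.CO30.FS

/-!
# The number of quaternionic representations
-/

namespace Pool.Agent.CO30

open Matrix Finset

variable {G : Type} [Group G] [Fintype G]

theorem mem_of_prod {Q : Type} [Group Q] (Z : Subgroup Q) :
    ∀ {r : ℕ} (y : Fin r → Q), (List.ofFn y).prod ∈ Z → ∀ b : Fin r, (∀ i, i ≠ b → y i ∈ Z) →
      y b ∈ Z := by
  intro r
  induction r with
  | zero => intro y _ b; exact b.elim0
  | succ n ih =>
    intro y hp b hb
    rw [List.ofFn_succ, List.prod_cons] at hp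
    refine Fin.cases ?_ (fun b' => ?_) b (motive := fun b => (∀ i, i ≠ b → y i ∈ Z) → y b ∈ Z) hb
    · intro hb
      have h1 : (List.ofFn fun i : Fin n => y i.succ).prod ∈ Z := by
        refine Subgroup.list_prod_mem _ fun z hz => ?_
        rw [List.mem_ofFn] at hz
        obtain ⟨i, rfl⟩ := hz
        exact hb _ (Fin.succ_ne_zero i)
      exact (Subgroup.mul_mem_cancel_right Z h1).1 hp
    · intro hb
      have h0 : y 0 ∈ Z := hb 0 (Fin.succ_ne_zero b').symm
      have h1 := (Subgroup.mul_mem_cancel_left Z h0).1 hp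
      exact ih (fun i => y i.succ) h1 b' fun i hi => hb _ fun h => hi (Fin.succ_injective _ h)

namespace Wedd

variable (W : Wedd G)

open Classical in
/-- The indices of the quaternionic representations. -/
noncomputable def Q : Finset (Fin W.N) := univ.filter fun j => nu (W.R j) = -1

open Classical in
/-- The indices of the real representations. -/
noncomputable def P : Finset (Fin W.N) := univ.filter fun j => nu (W.R j) = 1

open Classical in
theorem sum_nu : ∑ j, (W.d j : ℂ) * nu (W.R j) =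
    ((univ.filter fun g : G => g ^ 2 = 1).card : ℂ) := by
  have hn : (Fintype.card G : ℂ) ≠ 0 := by exact_mod_cast Fintype.card_ne_zero
  have h1 : ∀ j, (W.d j : ℂ) * nu (W.R j) =
      (1 / (Fintype.card G : ℂ)) * ∑ g : G, (W.d j : ℂ) * (W.R j (g ^ 2)).trace := by
    intro j
    unfold nu
    rw [← Finset.mul_sum]
    ring
  rw [Finset.sum_congr rfl fun j _ => h1 j, ← Finset.mul_sum, Finset.sum_comm]
  simp only [W.col]
  rw [← Finset.sum_filter, Finset.sum_const, nsmul_eq_mul]
  field_simp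

theorem disj : Disjoint W.P W.Q := by
  classical
  unfold P Q
  rw [Finset.disjoint_filter]
  intro j _ h1 h2
  rw [h1] at h2
  norm_num at h2

open Classical in
theorem sum_pm : (∑ j ∈ W.P, (W.d j : ℤ)) - ∑ j ∈ W.Q, (W.d j : ℤ) =
    ((univ.filter fun g : G => g ^ 2 = 1).card : ℤ) := by
  have h := W.sum_nu
  have h1 : ∑ j, (W.d j : ℂ) * nu (W.R j) =
      ∑ j, ((if nu (W.R j) = 1 then (W.d j : ℂ) else 0) -
        (if nu (W.R j) = -1 then (W.d j : ℂ) else 0)) := by
    refine Finset.sum_congr rfl fun j _ => ?_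
    rcases nu_cases (W.R j) (W.span_R j) with h' | h' | h'
    · rw [h']
      norm_num
    · rw [h']
      norm_num
    · rw [h']
      norm_num
  rw [h1, Finset.sum_sub_distrib, ← Finset.sum_filter, ← Finset.sum_filter] at h
  have h2 : (((∑ j ∈ W.P, (W.d j : ℤ)) - ∑ j ∈ W.Q, (W.d j : ℤ) : ℤ) : ℂ) =
      (((univ.filter fun g : G => g ^ 2 = 1).card : ℤ) : ℂ) := by
    push_cast
    exact h
  exact_mod_cast h2

open Classical in
/-- The bound for the number of quaternionic representations. -/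
theorem card_Q_le (D : ℕ) (hD : ∀ j ∈ W.Q, D ≤ W.d j) :
    D * (D + 1) * W.Q.card + (univ.filter fun g : G => g ^ 2 = 1).card ≤ Fintype.card G := by
  have h1 := W.sum_pm
  have h2 := W.sum_sq
  have h3 : ∑ j ∈ W.P, (W.d j) ^ 2 + ∑ j ∈ W.Q, (W.d j) ^ 2 ≤ Fintype.card G := by
    rw [← h2, ← Finset.sum_union W.disj]
    exact Finset.sum_le_sum_of_subset (Finset.subset_univ _)
  have h4 : ∑ j ∈ W.P, W.d j ≤ ∑ j ∈ W.P, (W.d j) ^ 2 := by
    refine Finset.sum_le_sum fun j _ => ?_
    have := W.pos j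
    nlinarith
  have h5 : D * ∑ j ∈ W.Q, W.d j ≤ ∑ j ∈ W.Q, (W.d j) ^ 2 := by
    rw [Finset.mul_sum]
    refine Finset.sum_le_sum fun j hj => ?_
    have := hD j hj
    nlinarith
  have h6 : D * W.Q.card ≤ ∑ j ∈ W.Q, W.d j := by
    calc D * W.Q.card = ∑ _j ∈ W.Q, D := by rw [Finset.sum_const, smul_eq_mul, mul_comm]
      _ ≤ _ := Finset.sum_le_sum hD
  have h7 : ∑ j ∈ W.P, W.d j = ∑ j ∈ W.Q, W.d j + (univ.filter fun g : G => g ^ 2 = 1).card := by
    have h8 : ((∑ j ∈ W.P, W.d j : ℕ) : ℤ) =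
        ((∑ j ∈ W.Q, W.d j + (univ.filter fun g : G => g ^ 2 = 1).card : ℕ) : ℤ) := by
      push_cast
      linarith
    exact_mod_cast h8
  have h9 : (D + 1) * (D * W.Q.card) ≤ (D + 1) * ∑ j ∈ W.Q, W.d j := Nat.mul_le_mul_left _ h6
  nlinarith

theorem d_even {j : Fin W.N} (hj : j ∈ W.Q) : Even (W.d j) := by
  classical
  unfold Q at hj
  exact even_of_nu (W.R j) (W.span_R j) (Finset.mem_filter.1 hj).2

theorem two_le_d {j : Fin W.N} (hj : j ∈ W.Q) : 2 ≤ W.d j := by
  have h1 := W.d_even hj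
  have h2 := W.pos j
  obtain ⟨k, hk⟩ := h1
  omega

open Classical in
/-- The general bound: `6 k ≤ |G| - 1`. -/
theorem six_card_Q : 6 * W.Q.card + 1 ≤ Fintype.card G := by
  have h1 := W.card_Q_le 2 fun j hj => W.two_le_d hj
  have h2 : 1 ≤ (univ.filter fun g : G => g ^ 2 = 1).card := by
    rw [Nat.one_le_iff_ne_zero, Finset.card_ne_zero]
    exact ⟨1, by simp⟩
  omega

/-- For a commutative group there are none. -/
theorem Q_comm (hG : ∀ a b : G, a * b = b * a) : W.Q = ∅ := by
  classical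
  rw [Finset.eq_empty_iff_forall_notMem]
  intro j hj
  have h2 := W.two_le_d hj
  -- all matrices commute
  have hc : ∀ A : Matrix (Fin (W.d j)) (Fin (W.d j)) ℂ, ∀ g, A * W.R j g = W.R j g * A := by
    intro A g
    refine span_ind (W.span_R j) (fun A => A * W.R j g = W.R j g * A) ?_ (by simp) ?_ ?_ A
    · intro h
      rw [← map_mul, ← map_mul, hG]
    · intro A B hA hB
      rw [add_mul, mul_add, hA, hB]
    · intro c A hA
      rw [Matrix.smul_mul, Matrix.mul_smul, hA]
  obtain ⟨c, hc'⟩ := scalar_of_comm (W.span_R j)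
    (Matrix.single (⟨0, by omega⟩ : Fin (W.d j)) (⟨1, by omega⟩ : Fin (W.d j)) (1 : ℂ))
    (hc _)
  have := congrFun (congrFun hc' ⟨0, by omega⟩) ⟨1, by omega⟩
  simp at this

/-- If all but at most two of the generators `x i` are involutions, the quaternionic
representations have degree at least four. -/
theorem four_le_d {r : ℕ} (x : Fin r → G) (hprod : (List.ofFn x).prod = 1)
    (hgen : Subgroup.closure (Set.range x) = ⊤) (a b : Fin r)
    (hinv : ∀ i, i ≠ a → i ≠ b → x i ^ 2 = 1) {j : Fin W.N} (hj : j ∈ W.Q) : 4 ≤ W.d j := by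
  classical
  by_contra hlt
  have h2 := W.two_le_d hj
  have hd : W.d j = 2 := by
    obtain ⟨k, hk⟩ := W.d_even hj
    omega
  have hnu : nu (W.R j) = -1 := by
    unfold Q at hj
    exact (Finset.mem_filter.1 hj).2
  -- involutions are scalars
  have hsc : ∀ g : G, g ^ 2 = 1 →
      ∃ c : ℂ, W.R j g = c • (1 : Matrix (Fin (W.d j)) (Fin (W.d j)) ℂ) := by
    have hgenl : ∀ (n : ℕ) (hn : n = 2) (R : G →* Matrix (Fin n) (Fin n) ℂ),
        Submodule.span ℂ (Set.range R) = ⊤ → nu R = -1 → ∀ g : G, g ^ 2 = 1 →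
        ∃ c : ℂ, R g = c • (1 : Matrix (Fin n) (Fin n) ℂ) := by
      intro n hn
      subst hn
      intro R hR hnu g hg
      exact two_of_nu R hR hnu g hg
    exact hgenl _ hd (W.R j) (W.span_R j) hnu
  have hone : ∃ c : ℂ, W.R j 1 = c • (1 : Matrix (Fin (W.d j)) (Fin (W.d j)) ℂ) :=
    ⟨1, by rw [map_one, one_smul]⟩
  -- it suffices that all `R g` commute
  have hcomm : ∀ g h : G, W.R j g * W.R j h = W.R j h * W.R j g := by
    have hinvc : ∀ i, i ≠ a → i ≠ b → ∀ g : G, W.R j g * W.R j (x i) = W.R j (x i) * W.R j g := by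
      intro i hia hib g
      obtain ⟨c, hc⟩ := hsc (x i) (hinv i hia hib)
      rw [hc, Matrix.mul_smul, Matrix.smul_mul, Matrix.mul_one, Matrix.one_mul]
    -- the elements that commute with a given matrix
    have hZ : ∀ A : Matrix (Fin (W.d j)) (Fin (W.d j)) ℂ, ∃ Z : Subgroup G,
        ∀ g, g ∈ Z ↔ A * W.R j g = W.R j g * A := by
      intro A
      refine ⟨⟨⟨⟨{g | A * W.R j g = W.R j g * A}, ?_⟩, ?_⟩, ?_⟩, fun g => Iff.rfl⟩
      · intro g h hg hh
        simp only [Set.mem_setOf_eq] at hg hh ⊢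
        rw [map_mul, ← Matrix.mul_assoc, hg, Matrix.mul_assoc, hh, Matrix.mul_assoc]
      · simp
      · intro g hg
        simp only [Set.mem_setOf_eq] at hg ⊢
        have h1 : W.R j g * W.R j g⁻¹ = 1 := by rw [← map_mul, mul_inv_cancel, map_one]
        have h3 : W.R j g⁻¹ * W.R j g = 1 := by rw [← map_mul, inv_mul_cancel, map_one]
        calc A * W.R j g⁻¹ = (W.R j g⁻¹ * W.R j g) * A * W.R j g⁻¹ := by rw [h3, Matrix.one_mul]
          _ = W.R j g⁻¹ * (W.R j g * A) * W.R j g⁻¹ := by simp only [Matrix.mul_assoc]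
          _ = W.R j g⁻¹ * A * (W.R j g * W.R j g⁻¹) := by rw [← hg]; simp only [Matrix.mul_assoc]
          _ = _ := by rw [h1, Matrix.mul_one]
    have htop : ∀ Z : Subgroup G, (∀ i, x i ∈ Z) → Z = ⊤ := by
      intro Z hZ
      rw [eq_top_iff, ← hgen, Subgroup.closure_le]
      rintro _ ⟨i, rfl⟩
      exact hZ i
    -- everything commutes with `R (x a)`
    have hxa : ∀ g : G, W.R j (x a) * W.R j g = W.R j g * W.R j (x a) := by
      obtain ⟨Z, hZ1⟩ := hZ (W.R j (x a))
      have hne : ∀ i, i ≠ b → x i ∈ Z := by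
        intro i hib
        rw [hZ1]
        by_cases hia : i = a
        · rw [hia]
        · exact hinvc i hia hib _
      have hb : x b ∈ Z := mem_of_prod Z x (by rw [hprod]; exact Z.one_mem) b hne
      have := htop Z fun i => by
        by_cases hib : i = b
        · rw [hib]; exact hb
        · exact hne i hib
      intro g
      rw [← hZ1 g, this]
      trivial
    intro g h
    obtain ⟨Z, hZ1⟩ := hZ (W.R j g)
    have hne : ∀ i, i ≠ b → x i ∈ Z := by
      intro i hib
      rw [hZ1]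
      by_cases hia : i = a
      · rw [hia]; exact (hxa g).symm
      · exact hinvc i hia hib _
    have hb : x b ∈ Z := mem_of_prod Z x (by rw [hprod]; exact Z.one_mem) b hne
    have := htop Z fun i => by
      by_cases hib : i = b
      · rw [hib]; exact hb
      · exact hne i hib
    rw [← hZ1 h, this]
    trivial
  have hc : ∀ A : Matrix (Fin (W.d j)) (Fin (W.d j)) ℂ, ∀ g, A * W.R j g = W.R j g * A := by
    intro A g
    refine span_ind (W.span_R j) (fun A => A * W.R j g = W.R j g * A) ?_ (by simp) ?_ ?_ A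
    · intro h
      exact hcomm h g
    · intro A B hA hB
      rw [add_mul, mul_add, hA, hB]
    · intro c A hA
      rw [Matrix.smul_mul, Matrix.mul_smul, hA]
  obtain ⟨c, hc'⟩ := scalar_of_comm (W.span_R j)
    (Matrix.single (⟨0, by omega⟩ : Fin (W.d j)) (⟨1, by omega⟩ : Fin (W.d j)) (1 : ℂ))
    (hc _)
  have := congrFun (congrFun hc' ⟨0, by omega⟩) ⟨1, by omega⟩
  simp at this

end Wedd

end Pool.Agent.CO30
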