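import Mathlib

/-!
Groups with many commuting pairs, first part: there is a normal subgroup of bounded index all of whose
elements have centralisers of bounded index.
-/

namespace Pool.Agent.CO30

open Finset

namespace PN1
variable {G : Type} [Group G] [Fintype G]

/-- the index of the centraliser -/
noncomputable def kk (g : G) : ℕ := (Subgroup.centralizer {g}).index

theorem kk_mul (g h : G) : kk (g * h) ≤ kk g * kk h := by
  have h1 : Subgroup.centralizer {g} ⊓ Subgroup.centralizer {h} ≤ Subgroup.centralizer {g * h} := by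
    intro z hz
    obtain ⟨hz1, hz2⟩ := Subgroup.mem_inf.1 hz
    rw [Subgroup.mem_centralizer_singleton_iff] at hz1 hz2 ⊢
    rw [← mul_assoc, hz1, mul_assoc, hz2, mul_assoc]
  calc kk (g * h) ≤ (Subgroup.centralizer {g} ⊓ Subgroup.centralizer {h}).index :=
        Nat.le_of_dvd (Nat.pos_of_ne_zero Subgroup.FiniteIndex.index_ne_zero)
          (Subgroup.index_dvd_of_le h1)
    _ ≤ _ := Subgroup.index_inf_le

omit [Fintype G] in
theorem kk_inv (g : G) : kk g⁻¹ = kk g := by
  unfold kk
  congr 1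
  ext z
  rw [Subgroup.mem_centralizer_singleton_iff, Subgroup.mem_centralizer_singleton_iff]
  constructor
  · intro h
    have : (z * g⁻¹)⁻¹ = (g⁻¹ * z)⁻¹ := by rw [h]
    simp only [mul_inv_rev, inv_inv] at this
    have h2 := congrArg (fun t => z * t * z) this
    simp only [mul_assoc, inv_mul_cancel, mul_one, mul_inv_cancel_left] at h2
    exact h2
  · intro h
    have h2 := congrArg (fun t => g⁻¹ * t * g⁻¹) h
    simp only [mul_assoc, mul_inv_cancel, mul_one, inv_mul_cancel_left] at h2
    exact h2.symm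

omit [Fintype G] in
theorem kk_conj (x g : G) : kk (x * g * x⁻¹) = kk g := by
  unfold kk
  have : Subgroup.centralizer {x * g * x⁻¹} =
      (Subgroup.centralizer {g}).map (MulAut.conj x).toMonoidHom := by
    ext z
    rw [Subgroup.mem_map, Subgroup.mem_centralizer_singleton_iff]
    constructor
    · intro h
      refine ⟨x⁻¹ * z * x, ?_, ?_⟩
      · rw [Subgroup.mem_centralizer_singleton_iff]
        have h2 := congrArg (fun t => x⁻¹ * t * x) h
        simp only [mul_assoc, inv_mul_cancel, mul_one, inv_mul_cancel_left] at h2 ⊢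
        exact h2
      · simp [mul_assoc]
    · rintro ⟨y, hy, rfl⟩
      rw [Subgroup.mem_centralizer_singleton_iff] at hy
      simp only [MulEquiv.coe_toMonoidHom, MulAut.conj_apply]
      simp only [mul_assoc, inv_mul_cancel_left]
      rw [← mul_assoc y g, hy, mul_assoc]
  rw [this]
  exact Subgroup.index_map_equiv _ (MulAut.conj x)

omit [Fintype G] in
theorem kk_one : kk (1 : G) = 1 := by
  unfold kk
  rw [Subgroup.index_eq_one]
  ext z
  simp [Subgroup.mem_centralizer_singleton_iff]

/-- the elements with centraliser of index at most `M` -/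
noncomputable def DD (G : Type) [Group G] [Fintype G] (M : ℕ) : Finset G :=
  open Classical in univ.filter fun g => kk g ≤ M

theorem mem_DD {M : ℕ} {g : G} : g ∈ DD G M ↔ kk g ≤ M := by
  simp [DD]

theorem DD_mono {M M' : ℕ} (h : M ≤ M') : DD G M ⊆ DD G M' := by
  intro g hg
  rw [mem_DD] at hg ⊢
  omega

open Classical in
theorem pairs_eq : (univ.filter fun p : G × G => p.1 * p.2 = p.2 * p.1).card =
    ∑ g : G, Nat.card (Subgroup.centralizer {g}) := by
  rw [Finset.card_filter, Fintype.sum_prod_type]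
  refine Finset.sum_congr rfl fun g _ => ?_
  rw [← Finset.card_filter]
  rw [← Fintype.card_subtype, ← Nat.card_eq_fintype_card]
  refine Nat.card_congr (Equiv.subtypeEquivRight fun z => ?_)
  rw [Subgroup.mem_centralizer_singleton_iff]
  exact eq_comm

theorem card_mul_kk (g : G) : (Nat.card (Subgroup.centralizer {g}) : ℝ) * kk g = Fintype.card G := by
  have := Subgroup.card_mul_index (Subgroup.centralizer {g})
  rw [Nat.card_eq_fintype_card (α := G)] at this
  exact_mod_cast this

theorem kk_pos (g : G) : 0 < kk g := Nat.pos_of_ne_zero Subgroup.FiniteIndex.index_ne_zero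

theorem D_large (c : ℝ) (M : ℕ) (hM : 2 / c ≤ M) (hc : 0 < c)
    (h : c * (Fintype.card G : ℝ) ^ 2 ≤ ∑ g : G, (Nat.card (Subgroup.centralizer {g}) : ℝ)) :
    c / 2 * Fintype.card G ≤ (DD G M).card := by
  classical
  have hn : (0 : ℝ) < Fintype.card G := by exact_mod_cast Fintype.card_pos
  have h1 : ∑ g : G, (Nat.card (Subgroup.centralizer {g}) : ℝ) ≤
      ∑ g : G, ((if g ∈ DD G M then (Fintype.card G : ℝ) else 0) + Fintype.card G * (c / 2)) := by
    refine Finset.sum_le_sum fun g _ => ?_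
    have h2 := card_mul_kk g
    have h3 : (1 : ℝ) ≤ kk g := by exact_mod_cast kk_pos g
    have h4 : (0 : ℝ) ≤ Nat.card (Subgroup.centralizer {g}) := Nat.cast_nonneg _
    split_ifs with h5
    · nlinarith
    · rw [mem_DD, not_le] at h5
      have h6 : (M : ℝ) ≤ kk g := by exact_mod_cast h5.le
      have h7 : 2 / c ≤ kk g := hM.trans h6
      have h8 : 2 ≤ kk g * c := by
        rwa [div_le_iff₀ hc] at h7
      rw [← h2]
      nlinarith
  rw [Finset.sum_add_distrib, Finset.sum_ite_mem, Finset.univ_inter, Finset.sum_const,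
    Finset.sum_const, Finset.card_univ, nsmul_eq_mul, nsmul_eq_mul] at h1
  have h9 := h.trans h1
  have h10 : (Fintype.card G : ℝ) * (c / 2 * Fintype.card G) ≤
      (Fintype.card G : ℝ) * (DD G M).card := by nlinarith
  exact le_of_mul_le_mul_left h10 hn

theorem D_step (M : ℕ) (i : ℕ) (hM : 1 ≤ M)
    (hne : DD G (M ^ 2 ^ (i + 1)) ≠ DD G (M ^ 2 ^ (i + 2))) :
    (DD G (M ^ 2 ^ i)).card + (DD G (M ^ 2 ^ i)).card ≤ (DD G (M ^ 2 ^ (i + 3))).card := by
  classical
  have hmono : ∀ a b : ℕ, a ≤ b → M ^ 2 ^ a ≤ M ^ 2 ^ b := fun a b hab =>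
    Nat.pow_le_pow_right hM (Nat.pow_le_pow_right (by norm_num) hab)
  have hsub : DD G (M ^ 2 ^ (i + 1)) ⊆ DD G (M ^ 2 ^ (i + 2)) := DD_mono (hmono _ _ (by omega))
  obtain ⟨x, hx1, hx2⟩ : ∃ x, x ∈ DD G (M ^ 2 ^ (i + 2)) ∧ x ∉ DD G (M ^ 2 ^ (i + 1)) := by
    by_contra hcon
    push Not at hcon
    exact hne (Finset.Subset.antisymm hsub hcon)
  have hinj : ((DD G (M ^ 2 ^ i)).image fun a => x * a).card = (DD G (M ^ 2 ^ i)).card :=
    Finset.card_image_of_injective _ (mul_right_injective x)
  have hdisj : Disjoint ((DD G (M ^ 2 ^ i)).image fun a => x * a) (DD G (M ^ 2 ^ i)) := by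
    rw [Finset.disjoint_left]
    intro y hy hy2
    obtain ⟨a, ha, rfl⟩ := Finset.mem_image.1 hy
    apply hx2
    rw [mem_DD] at ha hy2 ⊢
    have h3 : kk x ≤ kk (x * a) * kk a⁻¹ := by
      have := kk_mul (x * a) a⁻¹
      rwa [mul_inv_cancel_right] at this
    rw [kk_inv] at h3
    calc kk x ≤ kk (x * a) * kk a := h3
      _ ≤ M ^ 2 ^ i * M ^ 2 ^ i := Nat.mul_le_mul hy2 ha
      _ = M ^ 2 ^ (i + 1) := by rw [← pow_add]; congr 1; rw [pow_succ]; ring
  calc (DD G (M ^ 2 ^ i)).card + (DD G (M ^ 2 ^ i)).card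
      = (((DD G (M ^ 2 ^ i)).image fun a => x * a) ∪ DD G (M ^ 2 ^ i)).card := by
        rw [Finset.card_union_of_disjoint hdisj, hinj]
    _ ≤ _ := by
        refine Finset.card_le_card (Finset.union_subset ?_ (DD_mono (hmono _ _ (by omega))))
        intro y hy
        obtain ⟨a, ha, rfl⟩ := Finset.mem_image.1 hy
        rw [mem_DD] at ha hx1 ⊢
        calc kk (x * a) ≤ kk x * kk a := kk_mul _ _
          _ ≤ M ^ 2 ^ (i + 2) * M ^ 2 ^ (i + 2) :=
            Nat.mul_le_mul hx1 (ha.trans (hmono _ _ (by omega)))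
          _ = M ^ 2 ^ (i + 3) := by rw [← pow_add]; congr 1; rw [pow_succ 2 (i + 2)]; ring

end PN1

open PN1

open Classical in
theorem pn_closed (c : ℝ) (hc : 0 < c) : ∃ M B1 : ℕ, ∀ (G : Type) [Group G] [Fintype G],
    c * (Fintype.card G : ℝ) ^ 2 ≤
      ((univ.filter fun p : G × G => p.1 * p.2 = p.2 * p.1).card : ℝ) →
    ∃ H : Subgroup G, H.Normal ∧ H.index ≤ B1 ∧ ∀ h ∈ H, (Subgroup.centralizer {h}).index ≤ M := by
  obtain ⟨N, hN⟩ := exists_nat_ge (2 / c)
  have hN0 : 1 ≤ N := by
    have : (0 : ℝ) < N := lt_of_lt_of_le (by positivity) hN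
    exact_mod_cast this
  refine ⟨N ^ 2 ^ (3 * N + 1), N, ?_⟩
  intro G _ _ h
  rw [pairs_eq] at h
  push_cast at h
  have hn : (0 : ℝ) < Fintype.card G := by exact_mod_cast Fintype.card_pos
  have hD0 : c / 2 * Fintype.card G ≤ (DD G (N ^ 2 ^ 0)).card := by
    rw [pow_zero, pow_one]
    exact D_large c N hN hc h
  have hmono : ∀ a b : ℕ, a ≤ b → N ^ 2 ^ a ≤ N ^ 2 ^ b := fun a b hab =>
    Nat.pow_le_pow_right hN0 (Nat.pow_le_pow_right (by norm_num) hab)
  have hex : ∃ k, k < N ∧ DD G (N ^ 2 ^ (3 * k + 1)) = DD G (N ^ 2 ^ (3 * k + 2)) := by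
    by_contra hcon
    push Not at hcon
    have hgrow : ∀ k, k ≤ N → (k + 1) * (DD G (N ^ 2 ^ 0)).card ≤ (DD G (N ^ 2 ^ (3 * k))).card := by
      intro k
      induction k with
      | zero => intro _; simp
      | succ k ih =>
        intro hk
        have h1 := ih (by omega)
        have h2 := D_step (G := G) N (3 * k) hN0 (hcon k (by omega))
        have h3 : (DD G (N ^ 2 ^ 0)).card ≤ (DD G (N ^ 2 ^ (3 * k))).card :=
          Finset.card_le_card (DD_mono (hmono _ _ (by omega)))
        have h4 : 3 * (k + 1) = 3 * k + 3 := by ring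
        rw [h4]
        nlinarith
    have h5 := hgrow N le_rfl
    have h6 : (DD G (N ^ 2 ^ (3 * N))).card ≤ Fintype.card G := Finset.card_le_univ _
    have h7 : ((N : ℝ) + 1) * (DD G (N ^ 2 ^ 0)).card ≤ Fintype.card G := by
      exact_mod_cast h5.trans h6
    have h8 : (2 / c + 1) * (c / 2 * Fintype.card G) ≤ Fintype.card G := by
      refine le_trans ?_ h7
      exact mul_le_mul (by linarith) hD0 (by positivity) (by positivity)
    have h9 : (2 / c + 1) * (c / 2 * Fintype.card G) =
        Fintype.card G + c / 2 * Fintype.card G := by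
      field_simp
    have h10 : 0 < c / 2 * (Fintype.card G : ℝ) := by positivity
    linarith
  obtain ⟨k, hk, hDk⟩ := hex
  have hle1 : 1 ≤ N ^ 2 ^ (3 * k + 1) := Nat.one_le_pow _ _ hN0
  let H : Subgroup G :=
    { carrier := {g | kk g ≤ N ^ 2 ^ (3 * k + 1)}
      mul_mem' := by
        intro a b ha hb
        have h1 : a * b ∈ DD G (N ^ 2 ^ (3 * k + 2)) := by
          rw [mem_DD]
          calc kk (a * b) ≤ kk a * kk b := kk_mul _ _
            _ ≤ N ^ 2 ^ (3 * k + 1) * N ^ 2 ^ (3 * k + 1) := Nat.mul_le_mul ha hb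
            _ = N ^ 2 ^ (3 * k + 2) := by rw [← pow_add]; congr 1; rw [pow_succ 2 (3 * k + 1)]; ring
        rw [← hDk, mem_DD] at h1
        exact h1
      one_mem' := by
        change kk (1 : G) ≤ _
        rw [kk_one]
        exact hle1
      inv_mem' := by
        intro a ha
        change kk a⁻¹ ≤ _
        rw [kk_inv]
        exact ha }
  have hmem : ∀ g, g ∈ H ↔ kk g ≤ N ^ 2 ^ (3 * k + 1) := fun g => Iff.rfl
  refine ⟨H, ⟨fun g hg x => ?_⟩, ?_, fun g hg => ?_⟩
  · rw [hmem] at hg ⊢
    rw [kk_conj]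
    exact hg
  · have h1 : (DD G (N ^ 2 ^ 0)).card ≤ Nat.card H := by
      have h2 : (DD G (N ^ 2 ^ 0)) ⊆ DD G (N ^ 2 ^ (3 * k + 1)) := DD_mono (hmono _ _ (by omega))
      have h3 : Nat.card H = (DD G (N ^ 2 ^ (3 * k + 1))).card := by
        rw [← Nat.card_eq_finsetCard]
        exact Nat.card_congr (Equiv.subtypeEquivRight fun g => by rw [hmem, mem_DD])
      rw [h3]
      exact Finset.card_le_card h2
    have h4 : (Nat.card H : ℝ) * H.index = Fintype.card G := by
      have := Subgroup.card_mul_index H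
      rw [Nat.card_eq_fintype_card (α := G)] at this
      exact_mod_cast this
    have h5 : c / 2 * Fintype.card G ≤ (Nat.card H : ℝ) := hD0.trans (by exact_mod_cast h1)
    have h6 : (H.index : ℝ) ≤ 2 / c := by
      have h7 : c / 2 * Fintype.card G * H.index ≤ Fintype.card G := by
        calc c / 2 * Fintype.card G * H.index ≤ (Nat.card H : ℝ) * H.index :=
              mul_le_mul_of_nonneg_right h5 (Nat.cast_nonneg _)
          _ = _ := h4
      have h8 : c / 2 * H.index ≤ 1 := by
        have h9 : (Fintype.card G : ℝ) * (c / 2 * H.index) ≤ Fintype.card G * 1 := by nlinarith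
        exact le_of_mul_le_mul_left h9 hn
      rw [le_div_iff₀ hc]
      linarith
    exact_mod_cast h6.trans hN
  · exact ((hmem g).1 hg).trans (hmono _ _ (by omega))

end Pool.Agent.CO30
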