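import Pool.Agent.CO30.Spec

/-!
# A unitary matrix as a product of commuting rank-one rotations
-/

namespace Pool.Agent.CO30

open Finset Matrix

theorem prod_one_add {R : Type} [Ring R] : ∀ L : List R,
    L.Pairwise (fun a b => a * b = 0) → (L.map fun a => 1 + a).prod = 1 + L.sum
  | [], _ => by simp
  | a :: L, h => by
    rw [List.pairwise_cons] at h
    rw [List.map_cons, List.prod_cons, prod_one_add L h.2, List.sum_cons]
    have h0 : ∀ M : List R, (∀ b ∈ M, a * b = 0) → a * M.sum = 0 := by
      intro M
      induction M with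
      | nil => intro _; simp
      | cons b M ih =>
        intro hM
        rw [List.sum_cons, mul_add, hM b (by simp), ih fun c hc => hM c (by simp [hc]), add_zero]
    have h1 : a * L.sum = 0 := h0 L h.1
    rw [mul_add, mul_one, add_mul, h1, one_mul, add_zero, add_assoc]

theorem rank_one {d : ℕ} (X : Matrix (Fin d) (Fin d) ℂ)
    (hX : X ∈ Matrix.unitaryGroup (Fin d) ℂ) :
    ∃ V : Fin d → (Fin d → ℂ), ∃ l : Fin d → ℂ,
      (∀ j k, star (V j) ⬝ᵥ V k = if j = k then 1 else 0) ∧ (∀ k, ‖l k‖ = 1) ∧
      age X = ∑ k, ang (l k) ∧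
      X = (List.ofFn fun k => 1 + (l k - 1) • Matrix.vecMulVec (V k) (star (V k))).prod ∧
      ∀ u : Fin d → ℂ,
        (∀ k, (1 + (l k - 1) • Matrix.vecMulVec (V k) (star (V k))).mulVec u = u) ↔
          X.mulVec u = u := by
  obtain ⟨U, hU, l, hl, rfl⟩ := spec_exists_diag X hX
  have hUs : U * star U = 1 := Matrix.mem_unitaryGroup_iff.1 hU
  have hsU : star U * U = 1 := Matrix.mem_unitaryGroup_iff'.1 hU
  set V : Fin d → (Fin d → ℂ) := fun k i => U i k with hV
  have hort : ∀ j k, star (V j) ⬝ᵥ V k = if j = k then 1 else 0 := by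
    intro j k
    have := congrFun (congrFun hsU j) k
    rw [Matrix.mul_apply, Matrix.one_apply] at this
    rw [← this]
    rfl
  have hsum : ∀ c : Fin d → ℂ, ∑ k, c k • Matrix.vecMulVec (V k) (star (V k)) =
      U * Matrix.diagonal c * star U := by
    intro c
    ext i j
    rw [Matrix.sum_apply, Matrix.mul_apply]
    refine Finset.sum_congr rfl fun k _ => ?_
    rw [Matrix.mul_diagonal]
    simp only [Matrix.smul_apply, Matrix.vecMulVec_apply, hV, Pi.star_apply, smul_eq_mul,
      Matrix.star_apply]
    ring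
  have hone : U * Matrix.diagonal (fun _ => (1 : ℂ)) * star U = 1 := by
    rw [Matrix.diagonal_one, mul_one, hUs]
  have hsub : U * Matrix.diagonal (fun k => l k - 1) * star U =
      U * Matrix.diagonal l * star U - 1 := by
    rw [← hone, ← hsum, ← hsum, ← hsum, ← Finset.sum_sub_distrib]
    exact Finset.sum_congr rfl fun k _ => by rw [sub_smul]
  have hPP : ∀ j k, j ≠ k → ((l j - 1) • Matrix.vecMulVec (V j) (star (V j))) *
      ((l k - 1) • Matrix.vecMulVec (V k) (star (V k))) = 0 := by
    intro j k hjk
    rw [smul_mul_smul_comm, Matrix.vecMulVec_mul_vecMulVec, hort j k, if_neg hjk]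
    simp
  refine ⟨V, l, hort, hl, spec_age_diag U hU l, ?_, ?_⟩
  · have h1 := prod_one_add (List.ofFn fun k => (l k - 1) • Matrix.vecMulVec (V k) (star (V k)))
      (by
        rw [List.pairwise_ofFn]
        intro i j hij
        exact hPP i j (ne_of_lt hij))
    rw [List.map_ofFn] at h1
    have h2 : (List.ofFn fun k => (l k - 1) • Matrix.vecMulVec (V k) (star (V k))).sum =
        U * Matrix.diagonal l * star U - 1 := by
      rw [List.sum_ofFn, hsum (fun k => l k - 1), hsub]
    rw [h2] at h1
    rw [show (List.ofFn fun k => 1 + (l k - 1) • Matrix.vecMulVec (V k) (star (V k))) =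
      List.ofFn ((fun a => 1 + a) ∘ fun k => (l k - 1) • Matrix.vecMulVec (V k) (star (V k)))
      from rfl, h1]
    abel
  · intro u
    have hR : ∀ k, (1 + (l k - 1) • Matrix.vecMulVec (V k) (star (V k))).mulVec u =
        u + ((l k - 1) * (star (V k) ⬝ᵥ u)) • V k := by
      intro k
      rw [Matrix.add_mulVec, Matrix.one_mulVec, Matrix.smul_mulVec, Matrix.vecMulVec_mulVec]
      rw [← smul_smul]
      simp
    have hX' : (U * Matrix.diagonal l * star U).mulVec u =
        u + ∑ k, ((l k - 1) * (star (V k) ⬝ᵥ u)) • V k := by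
      have : U * Matrix.diagonal l * star U =
          1 + ∑ k, (l k - 1) • Matrix.vecMulVec (V k) (star (V k)) := by
        rw [hsum (fun k => l k - 1), hsub]; abel
      rw [this, Matrix.add_mulVec, Matrix.one_mulVec, Matrix.sum_mulVec]
      congr 1
      refine Finset.sum_congr rfl fun k _ => ?_
      rw [Matrix.smul_mulVec, Matrix.vecMulVec_mulVec, ← smul_smul]
      simp
    constructor
    · intro h
      rw [hX']
      have : ∀ k, ((l k - 1) * (star (V k) ⬝ᵥ u)) • V k = 0 := by
        intro k
        have h1 := h k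
        rw [hR k] at h1
        exact add_eq_left.1 h1
      simp [this]
    · intro h k
      rw [hX'] at h
      have h0 : ∑ j, ((l j - 1) * (star (V j) ⬝ᵥ u)) • V j = 0 := add_eq_left.1 h
      have h1 := congrArg (fun w => star (V k) ⬝ᵥ w) h0
      simp only [dotProduct_sum, dotProduct_smul, hort, dotProduct_zero] at h1
      simp only [smul_eq_mul, mul_ite, mul_one, mul_zero, Finset.sum_ite_eq, Finset.mem_univ,
        if_true] at h1
      rw [hR k, h1, zero_smul, add_zero]

end Pool.Agent.CO30
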