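import Pool.Agent.CO30.Defs
import Mathlib.Analysis.Matrix.Spectrum

/-!
# Unitary matrices: diagonalisation, age, rank-one rotations
-/

namespace Pool.Agent.CO30

open Finset Matrix

theorem spec_ang_nonneg (z : ℂ) : 0 ≤ ang z := Int.fract_nonneg _

theorem spec_ang_lt_one (z : ℂ) : ang z < 1 := Int.fract_lt_one _

theorem spec_exp_ang {z : ℂ} (hz : ‖z‖ = 1) : Complex.exp (2 * Real.pi * Complex.I * (ang z : ℂ)) = z := by
  have h1 : Complex.exp ((Complex.arg z : ℂ) * Complex.I) = z := by
    have := Complex.norm_mul_exp_arg_mul_I z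
    rw [hz] at this
    simpa using this
  have h2 : (ang z : ℂ) = (Complex.arg z : ℂ) / (2 * Real.pi) -
      ((⌊Complex.arg z / (2 * Real.pi)⌋ : ℤ) : ℂ) := by
    rw [ang, Int.fract]; push_cast; ring
  have hpi : (Real.pi : ℂ) ≠ 0 := by exact_mod_cast Real.pi_ne_zero
  have h3 : 2 * Real.pi * Complex.I * (ang z : ℂ) = (Complex.arg z : ℂ) * Complex.I +
      ((-⌊Complex.arg z / (2 * Real.pi)⌋ : ℤ) : ℂ) * (2 * Real.pi * Complex.I) := by
    rw [h2]; push_cast; field_simp
    ring
  rw [h3, Complex.exp_add, Complex.exp_int_mul_two_pi_mul_I, mul_one, h1]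

theorem spec_circle_inf : {z : ℂ | ‖z‖ = 1}.Infinite := by
  have h : Set.InjOn (fun t : ℝ => Complex.exp ((t : ℂ) * Complex.I)) (Set.Ioo (0 : ℝ) 1) := by
    intro a ha b hb hab
    have h1 := congrArg Complex.arg hab
    have e : ∀ t : ℝ, t ∈ Set.Ioo (0 : ℝ) 1 →
        (Complex.exp ((t : ℂ) * Complex.I)).arg = t := by
      intro t ht
      rw [Complex.arg_exp_mul_I, toIocMod_eq_self]
      have := Real.pi_gt_three
      constructor <;> [linarith [ht.1]; linarith [ht.2]]
    simp only at h1
    rw [e a ha, e b hb] at h1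
    exact h1
  have h2 : ((fun t : ℝ => Complex.exp ((t : ℂ) * Complex.I)) '' (Set.Ioo (0 : ℝ) 1)).Infinite :=
    (Set.Ioo_infinite (by norm_num)).image h
  refine h2.mono ?_
  rintro _ ⟨t, _, rfl⟩
  show ‖Complex.exp ((t : ℂ) * Complex.I)‖ = 1
  rw [Complex.norm_exp_ofReal_mul_I]

theorem spec_exists_circle {d : ℕ} (X : Matrix (Fin d) (Fin d) ℂ) :
    ∃ z : ℂ, ‖z‖ = 1 ∧ (z • (1 : Matrix (Fin d) (Fin d) ℂ) - X).det ≠ 0 := by
  have h1 : ({z : ℂ | ‖z‖ = 1} \ (X.charpoly.roots.toFinset : Set ℂ)).Infinite :=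
    spec_circle_inf.sdiff (Finset.finite_toSet _)
  obtain ⟨z, hz, hz'⟩ := h1.nonempty
  refine ⟨z, hz, fun h => hz' ?_⟩
  simp only [Finset.mem_coe, Multiset.mem_toFinset]
  rw [Polynomial.mem_roots X.charpoly_monic.ne_zero, Polynomial.IsRoot.def, Matrix.eval_charpoly]
  rw [← h]
  congr 2
  ext i j
  simp [Matrix.scalar_apply, Matrix.smul_apply, Matrix.diagonal_apply, Matrix.one_apply]

theorem spec_exists_diag {d : ℕ} (X : Matrix (Fin d) (Fin d) ℂ)
    (hX : X ∈ Matrix.unitaryGroup (Fin d) ℂ) :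
    ∃ U ∈ Matrix.unitaryGroup (Fin d) ℂ, ∃ l : Fin d → ℂ, (∀ k, ‖l k‖ = 1) ∧
      X = U * Matrix.diagonal l * star U := by
  obtain ⟨z, hz, hdet⟩ := spec_exists_circle X
  set M : Matrix (Fin d) (Fin d) ℂ := z • 1 - X with hM
  have hXs : X * star X = 1 := Matrix.mem_unitaryGroup_iff.1 hX
  have hsX : star X * X = 1 := Matrix.mem_unitaryGroup_iff'.1 hX
  have hzz : z * star z = 1 := by
    rw [Complex.star_def, Complex.mul_conj, Complex.normSq_eq_norm_sq, hz]; norm_num
  have hzz' : star z * z = 1 := by rw [mul_comm, hzz]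
  have hMu : IsUnit M.det := isUnit_iff_ne_zero.2 hdet
  have hMM : M * M⁻¹ = 1 := Matrix.mul_nonsing_inv _ hMu
  have hMM' : M⁻¹ * M = 1 := Matrix.nonsing_inv_mul _ hMu
  -- the Cayley transform
  set A : Matrix (Fin d) (Fin d) ℂ := Complex.I • ((z • 1 + X) * M⁻¹) with hA
  have hAM : A * M = Complex.I • (z • 1 + X) := by
    rw [hA, smul_mul_assoc, mul_assoc, hMM', mul_one]
  have hcomm : (z • 1 + X) * M = M * (z • 1 + X) := by
    rw [hM]
    simp only [mul_add, add_mul, mul_sub, sub_mul, smul_mul_assoc, mul_smul_comm, one_mul, mul_one,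
      smul_add, smul_sub]
    abel
  have hMA : M * A = Complex.I • (z • 1 + X) := by
    rw [hA, mul_smul_comm, ← mul_assoc, ← hcomm, mul_assoc, hMM, mul_one]
  have hstarM : star M = star z • 1 - star X := by
    rw [hM, star_sub, star_smul, star_one]
  have h1 : (z • X) * star M = - M := by
    rw [hstarM, hM, mul_sub, smul_mul_assoc, mul_smul_comm, smul_smul, hzz, mul_one, one_smul,
      smul_mul_assoc, hXs]
    abel
  have h2 : (z • X) * (star z • 1 + star X) = z • 1 + X := by
    rw [mul_add, smul_mul_assoc, mul_smul_comm, smul_smul, hzz, mul_one, one_smul,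
      smul_mul_assoc, hXs, add_comm]
  have h3 : star M * star A = (-Complex.I) • (star z • 1 + star X) := by
    rw [← star_mul, hAM, star_smul, star_add, star_smul, star_one]
    congr 1
    simp
  have h4 : M * star A = M * A := by
    have : M * star A = -((z • X) * (star M * star A)) := by
      rw [← mul_assoc, h1]; simp
    rw [this, h3, hMA, mul_smul_comm, h2, neg_smul, neg_neg]
  have hherm : A.IsHermitian := by
    have : M⁻¹ * (M * star A) = M⁻¹ * (M * A) := by rw [h4]
    rw [← mul_assoc, ← mul_assoc, hMM', one_mul, one_mul] at this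
    exact this
  set U : Matrix (Fin d) (Fin d) ℂ := (hherm.eigenvectorUnitary : Matrix (Fin d) (Fin d) ℂ) with hU
  have hUm : U ∈ Matrix.unitaryGroup (Fin d) ℂ := hherm.eigenvectorUnitary.2
  have hUs : U * star U = 1 := Matrix.mem_unitaryGroup_iff.1 hUm
  have hsU : star U * U = 1 := Matrix.mem_unitaryGroup_iff'.1 hUm
  set D : Fin d → ℂ := fun k => (hherm.eigenvalues k : ℂ) with hD
  have hspec : A = U * Matrix.diagonal D * star U := by
    have := hherm.spectral_theorem
    rw [Unitary.conjStarAlgAut_apply] at this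
    exact this
  -- the conjugated matrix
  set Z : Matrix (Fin d) (Fin d) ℂ := star U * X * U with hZ
  have hXZ : X = U * Z * star U := by
    rw [hZ]
    calc X = (U * star U) * X * (U * star U) := by rw [hUs, one_mul, mul_one]
      _ = _ := by simp only [mul_assoc]
  have hDZ : Matrix.diagonal D * (z • 1 - Z) = Complex.I • (z • 1 + Z) := by
    have e1 : star U * (A * M) * U = Matrix.diagonal D * (z • 1 - Z) := by
      rw [hspec, hM, hZ]
      calc star U * (U * Matrix.diagonal D * star U * (z • 1 - X)) * U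
          = (star U * U) * Matrix.diagonal D * (star U * (z • 1 - X) * U) := by
            simp only [mul_assoc]
        _ = _ := by
            rw [hsU, one_mul, mul_sub, sub_mul, mul_smul_comm, smul_mul_assoc, mul_one, hsU]
    rw [← e1, hAM, mul_smul_comm, smul_mul_assoc, mul_add, add_mul, mul_smul_comm,
      smul_mul_assoc, mul_one, hsU]
  have hent : ∀ j k, j ≠ k → Z j k = 0 := by
    intro j k hjk
    have := congrFun (congrFun hDZ j) k
    simp only [Matrix.diagonal_mul, Matrix.sub_apply, Matrix.smul_apply, Matrix.one_apply_ne hjk,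
      Matrix.add_apply, smul_eq_mul, mul_zero, zero_sub, zero_add] at this
    have h5 : (D j + Complex.I) * Z j k = 0 := by linear_combination -this
    rcases mul_eq_zero.1 h5 with h6 | h6
    · exfalso
      have := congrArg Complex.im h6
      simp [hD] at this
    · exact h6
  have hZd : Z = Matrix.diagonal (fun k => Z k k) := by
    ext j k
    by_cases hjk : j = k
    · subst hjk; simp
    · rw [Matrix.diagonal_apply_ne _ hjk, hent j k hjk]
  have hZu : Z * star Z = 1 := by
    rw [hZ]
    simp only [star_mul, star_star]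
    calc star U * X * U * (star U * (star X * U)) = star U * X * (U * star U) * star X * U := by
          simp only [mul_assoc]
      _ = 1 := by rw [hUs, mul_one, mul_assoc (star U), hXs, mul_one, hsU]
  refine ⟨U, hUm, fun k => Z k k, fun k => ?_, ?_⟩
  · rw [hZd] at hZu
    have := congrFun (congrFun hZu k) k
    rw [Matrix.star_eq_conjTranspose, Matrix.diagonal_conjTranspose,
      Matrix.diagonal_mul_diagonal, Matrix.diagonal_apply_eq, Matrix.one_apply_eq] at this
    simp only [Pi.star_apply, Complex.star_def, Complex.mul_conj, Complex.normSq_eq_norm_sq] at this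
    have h7 : ‖Z k k‖ ^ 2 = 1 := by exact_mod_cast this
    have h8 := norm_nonneg (Z k k)
    nlinarith
  · rw [← hZd]; exact hXZ

theorem spec_charpoly_diag {d : ℕ} (U : Matrix (Fin d) (Fin d) ℂ)
    (hU : U ∈ Matrix.unitaryGroup (Fin d) ℂ) (l : Fin d → ℂ) :
    (U * Matrix.diagonal l * star U).charpoly =
      ∏ k, (Polynomial.X - Polynomial.C (l k)) := by
  rw [Matrix.charpoly_mul_comm, ← mul_assoc, Matrix.mem_unitaryGroup_iff'.1 hU, one_mul,
    Matrix.charpoly_diagonal]

theorem spec_age_diag {d : ℕ} (U : Matrix (Fin d) (Fin d) ℂ)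
    (hU : U ∈ Matrix.unitaryGroup (Fin d) ℂ) (l : Fin d → ℂ) :
    age (U * Matrix.diagonal l * star U) = ∑ k, ang (l k) := by
  rw [age, spec_charpoly_diag U hU l]
  have : (∏ k, (Polynomial.X - Polynomial.C (l k))) =
      (((Finset.univ : Finset (Fin d)).val.map l).map fun a => Polynomial.X - Polynomial.C a).prod := by
    rw [Multiset.map_map]; rfl
  rw [this, Polynomial.roots_multiset_prod_X_sub_C, Multiset.map_map]
  rfl

theorem exp_age {d : ℕ} (X : Matrix (Fin d) (Fin d) ℂ)
    (hX : X ∈ Matrix.unitaryGroup (Fin d) ℂ) :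
    Complex.exp (2 * Real.pi * Complex.I * (age X : ℂ)) = X.det := by
  obtain ⟨U, hU, l, hl, rfl⟩ := spec_exists_diag X hX
  rw [spec_age_diag U hU l]
  push_cast
  rw [Finset.mul_sum, Complex.exp_sum]
  rw [Matrix.det_mul_comm, ← mul_assoc, Matrix.mem_unitaryGroup_iff'.1 hU, one_mul,
    Matrix.det_diagonal]
  exact Finset.prod_congr rfl fun k _ => spec_exp_ang (hl k)

theorem spec_integral_ind {x : ℝ} (h0 : 0 ≤ x) (h1 : x ≤ 1) :
    ∫ s in (0 : ℝ)..1, (if s < x then (1 : ℝ) else 0) = x := by
  rw [intervalIntegral.integral_of_le zero_le_one]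
  have : (fun s : ℝ => if s < x then (1 : ℝ) else 0) = (Set.Iio x).indicator (fun _ => (1 : ℝ)) := by
    ext s; simp [Set.indicator_apply]
  rw [this, MeasureTheory.setIntegral_indicator measurableSet_Iio]
  have h2 : Set.Ioc (0 : ℝ) 1 ∩ Set.Iio x = Set.Ioo 0 x := by
    ext s; simp only [Set.mem_inter_iff, Set.mem_Ioc, Set.mem_Iio, Set.mem_Ioo]
    constructor
    · rintro ⟨⟨a, b⟩, c⟩; exact ⟨a, c⟩
    · rintro ⟨a, b⟩; exact ⟨⟨a, by linarith⟩, b⟩
  rw [h2, MeasureTheory.setIntegral_const]
  simp [h0]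

theorem spec_integrable_ind (x : ℝ) :
    IntervalIntegrable (fun s : ℝ => if s < x then (1 : ℝ) else 0) MeasureTheory.volume 0 1 := by
  have : (fun s : ℝ => if s < x then (1 : ℝ) else 0) = (Set.Iio x).indicator (fun _ => (1 : ℝ)) := by
    ext s; simp [Set.indicator_apply]
  rw [this]
  constructor
  · exact (MeasureTheory.integrable_const (1 : ℝ)).indicator measurableSet_Iio |>.mono_measure
      le_rfl
  · exact (MeasureTheory.integrable_const (1 : ℝ)).indicator measurableSet_Iio |>.mono_measure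
      le_rfl

theorem spec_cnt_eq {d : ℕ} (l : Fin d → ℂ) (s : ℝ) :
    (((Finset.univ.filter fun k => s < ang (l k)).card : ℕ) : ℝ) =
      ∑ k, (if s < ang (l k) then (1 : ℝ) else 0) := by
  rw [Finset.card_filter]; push_cast; rfl

theorem spec_sum_ang_eq {d : ℕ} (l : Fin d → ℂ) :
    ∑ k, ang (l k) =
      ∫ s in (0 : ℝ)..1, (((Finset.univ.filter fun k => s < ang (l k)).card : ℕ) : ℝ) := by
  have : (fun s : ℝ => (((Finset.univ.filter fun k => s < ang (l k)).card : ℕ) : ℝ)) =
      fun s => ∑ k, (if s < ang (l k) then (1 : ℝ) else 0) := by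
    ext s; exact spec_cnt_eq l s
  rw [this, intervalIntegral.integral_finsetSum fun k _ => spec_integrable_ind _]
  exact Finset.sum_congr rfl fun k _ => (spec_integral_ind (spec_ang_nonneg _) (spec_ang_lt_one _).le).symm

theorem spec_integrable_cnt {d : ℕ} (l : Fin d → ℂ) :
    IntervalIntegrable (fun s : ℝ => (((Finset.univ.filter fun k => s < ang (l k)).card : ℕ) : ℝ))
      MeasureTheory.volume 0 1 := by
  have : (fun s : ℝ => (((Finset.univ.filter fun k => s < ang (l k)).card : ℕ) : ℝ)) =
      fun s => ∑ k, (if s < ang (l k) then (1 : ℝ) else 0) := by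
    ext s; exact spec_cnt_eq l s
  rw [this]
  have h := IntervalIntegrable.sum (Finset.univ : Finset (Fin d))
    fun k _ => spec_integrable_ind (ang (l k))
  have e : (fun s : ℝ => ∑ k, (if s < ang (l k) then (1 : ℝ) else 0)) =
      ∑ k : Fin d, fun s : ℝ => (if s < ang (l k) then (1 : ℝ) else 0) := by
    ext s; rw [Finset.sum_apply]
  rw [e]
  exact h

theorem sum_ang_le {d : ℕ} (l m : Fin d → ℂ) (c : ℕ)
    (h : ∀ s : ℝ, 0 < s → s < 1 →
      (Finset.univ.filter fun k => s < ang (l k)).card ≤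
        (Finset.univ.filter fun k => s < ang (m k)).card + c) :
    ∑ k, ang (l k) ≤ ∑ k, ang (m k) + c := by
  rw [spec_sum_ang_eq, spec_sum_ang_eq]
  have h1 : ∫ s in (0 : ℝ)..1, ((((Finset.univ.filter fun k => s < ang (m k)).card : ℕ) : ℝ) + c) =
      (∫ s in (0 : ℝ)..1, (((Finset.univ.filter fun k => s < ang (m k)).card : ℕ) : ℝ)) + c := by
    rw [intervalIntegral.integral_add (spec_integrable_cnt m) intervalIntegrable_const]
    simp
  rw [← h1]
  refine intervalIntegral.integral_mono_on_of_le_Ioo zero_le_one (spec_integrable_cnt l)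
    ((spec_integrable_cnt m).add intervalIntegrable_const) ?_
  intro s hs
  exact_mod_cast h s hs.1 hs.2

end Pool.Agent.CO30
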