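import Pool.Agent.CO30.Count

/-!
# Type (2, ..., 2): `E` is large
-/

namespace Pool.Agent.CO30

open Matrix Finset Pool.Agent.CO75

variable {G : Type} [Group G] [Fintype G] {r : ℕ}

theorem T_two (x : Fin r → G) (h : ∀ i, orderOf (x i) = 2) (γ : G) : T x γ = 0 := by
  classical
  unfold T
  refine Finset.sum_eq_zero fun i _ => ?_
  rw [h i]
  have h1 : Finset.Ico 1 2 = {1} := by decide
  have h2 : ct 2 1 = 0 := by
    unfold ct
    have : Real.pi * ((1 : ℕ) : ℝ) / ((2 : ℕ) : ℝ) = Real.pi / 2 := by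
      push_cast
      ring
    rw [this, Real.cos_pi_div_two, zero_div]
  rw [h1]
  simp [h2]

theorem F_two (x : Fin r → G) (h : ∀ i, orderOf (x i) = 2) (γ : G) (hγ : γ ^ 2 ≠ 1) :
    F x γ = 0 := by
  classical
  unfold F
  refine Finset.sum_eq_zero fun i _ => ?_
  have : Phi (x i) γ = 0 := by
    unfold Phi
    rw [Finset.card_eq_zero, Finset.filter_eq_empty_iff]
    intro g _ hg
    apply hγ
    have h1 := orderOf_dvd_of_mem_zpowers hg
    rw [h i] at h1
    have h2 : (g⁻¹ * γ * g) ^ 2 = 1 := orderOf_dvd_iff_pow_eq_one.1 h1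
    have h3 : γ ^ 2 = g * (g⁻¹ * γ * g) ^ 2 * g⁻¹ := by
      rw [sq, sq]
      group
    rw [h3, h2]
    group
  rw [this]
  simp

open Classical in
theorem E_two (x : Fin r → G) (h : ∀ i, orderOf (x i) = 2) :
    (Fintype.card G : ℝ) * (area x + 2) ^ 2 ≤
      (((univ.filter fun g : G => g ^ 2 = 1).card : ℝ) - 1) * E x := by
  have hn : (0 : ℝ) < (Fintype.card G : ℝ) := by exact_mod_cast (Fintype.card_pos (α := G))
  set I : Finset G := (univ.filter fun g : G => g ^ 2 = 1).erase 1 with hI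
  have hsub : I ⊆ univ.erase 1 := Finset.erase_subset_erase _ (Finset.filter_subset _ _)
  have hcard : (I.card : ℝ) = ((univ.filter fun g : G => g ^ 2 = 1).card : ℝ) - 1 := by
    rw [hI, Finset.card_erase_of_mem (by simp)]
    rw [Nat.cast_sub, Nat.cast_one]
    rw [Nat.one_le_iff_ne_zero, Finset.card_ne_zero]
    exact ⟨1, by simp⟩
  have h1 : ∑ γ ∈ I, F x γ = (Fintype.card G : ℝ) * (area x + 2) := by
    rw [← sum_F x]
    refine Finset.sum_subset hsub ?_
    intro γ hγ hγI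
    refine F_two x h γ fun h2 => hγI ?_
    rw [hI, Finset.mem_erase, Finset.mem_filter]
    exact ⟨Finset.ne_of_mem_erase hγ, Finset.mem_univ _, h2⟩
  have h2 : E x = 1 / (Fintype.card G : ℝ) * ∑ γ ∈ I, F x γ ^ 2 := by
    unfold E
    congr 1
    symm
    have h3 : ∑ γ ∈ univ.erase (1 : G), (F x γ ^ 2 - T x γ ^ 2) =
        ∑ γ ∈ univ.erase (1 : G), F x γ ^ 2 := by
      refine Finset.sum_congr rfl fun γ _ => ?_
      rw [T_two x h γ]
      ring
    rw [h3]
    refine Finset.sum_subset hsub ?_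
    intro γ hγ hγI
    rw [F_two x h γ fun h2 => hγI ?_]
    · ring
    · rw [hI, Finset.mem_erase, Finset.mem_filter]
      exact ⟨Finset.ne_of_mem_erase hγ, Finset.mem_univ _, h2⟩
  have h4 : (∑ γ ∈ I, F x γ) ^ 2 ≤ (I.card : ℝ) * ∑ γ ∈ I, F x γ ^ 2 := sq_sum_le_card_mul_sum_sq
  rw [h1] at h4
  rw [← hcard, h2]
  have h5 : (I.card : ℝ) * (1 / (Fintype.card G : ℝ) * ∑ γ ∈ I, F x γ ^ 2) =
      (1 / (Fintype.card G : ℝ)) * ((I.card : ℝ) * ∑ γ ∈ I, F x γ ^ 2) := by ring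
  rw [h5]
  calc (Fintype.card G : ℝ) * (area x + 2) ^ 2 =
      (1 / (Fintype.card G : ℝ)) * (((Fintype.card G : ℝ) * (area x + 2)) ^ 2) := by
        field_simp
    _ ≤ _ := mul_le_mul_of_nonneg_left h4 (by positivity)

/-- The numerical part for type `(2, 2, 2, 2, 2)`. -/
theorem num_two (n t k E : ℝ) (ht : 0 ≤ t) (hk : 20 * k + t + 1 ≤ n)
    (h1 : n * (1 / 2) ^ 2 + E ≤ 28 + 4 * k) (h2 : n * (5 / 2) ^ 2 ≤ t * E) : n ≤ 120 := by
  by_contra hn
  push Not at hn
  have h3 : n / 20 + E + t / 5 ≤ 27.8 := by linarith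
  have h4 : E ≤ 27.8 - n / 20 - t / 5 := by linarith
  have h5 : t * E ≤ t * (27.8 - n / 20 - t / 5) := mul_le_mul_of_nonneg_left h4 ht
  have h6 : t * (27.8 - n / 20 - t / 5) ≤ t * (21.8 - t / 5) := by
    apply mul_le_mul_of_nonneg_left _ ht
    linarith
  nlinarith [sq_nonneg (t - 54.5)]

end Pool.Agent.CO30
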