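import Mathlib

/-!
# The Wedderburn decomposition of the complex group algebra in terms of matrices
-/

namespace Pool.Agent.CO30

open Matrix Finset

/-- A Wedderburn decomposition of `ℂ[G]`. -/
structure Wedd (G : Type) [Group G] [Fintype G] where
  N : ℕ
  d : Fin N → ℕ
  pos : ∀ i, 0 < d i
  e : MonoidAlgebra ℂ G ≃ₐ[ℂ] (Π i, Matrix (Fin (d i)) (Fin (d i)) ℂ)

theorem exists_wedd (G : Type) [Group G] [Fintype G] : Nonempty (Wedd G) := by
  have : NeZero (Nat.card G : ℂ) := ⟨by
    rw [Nat.card_eq_fintype_card]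
    exact_mod_cast Fintype.card_ne_zero⟩
  have : FiniteDimensional ℂ (MonoidAlgebra ℂ G) :=
    Module.Finite.of_basis (MonoidAlgebra.basis G ℂ)
  obtain ⟨n, d, hd, ⟨e⟩⟩ :=
    IsSemisimpleRing.exists_algEquiv_pi_matrix_of_isAlgClosed ℂ (MonoidAlgebra ℂ G)
  exact ⟨⟨n, d, fun i => Nat.pos_of_ne_zero (hd i).out, e⟩⟩

variable {G : Type} [Group G] [Fintype G]

namespace Wedd

variable (W : Wedd G)

/-- The `i`-th matrix representation. -/
noncomputable def R (i : Fin W.N) : G →* Matrix (Fin (W.d i)) (Fin (W.d i)) ℂ where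
  toFun g := W.e (MonoidAlgebra.single g 1) i
  map_one' := by
    have : (MonoidAlgebra.single (1 : G) (1 : ℂ)) = 1 := rfl
    rw [this, map_one, Pi.one_apply]
  map_mul' g h := by
    have : (MonoidAlgebra.single (g * h) (1 : ℂ)) =
        MonoidAlgebra.single g 1 * MonoidAlgebra.single h 1 := by
      rw [MonoidAlgebra.single_mul_single, mul_one]
    rw [this, map_mul, Pi.mul_apply]

theorem R_apply (i : Fin W.N) (g : G) : W.R i g = W.e (MonoidAlgebra.single g 1) i := rfl

theorem exists_coeff (a : MonoidAlgebra ℂ G) :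
    ∃ f : G → ℂ, a = ∑ h, f h • MonoidAlgebra.single h (1 : ℂ) := by
  refine ⟨fun h => (MonoidAlgebra.basis G ℂ).repr a h, ?_⟩
  have h := (MonoidAlgebra.basis G ℂ).sum_repr a
  simp only [MonoidAlgebra.basis_apply] at h
  exact h.symm

theorem e_sum (f : G → ℂ) (i : Fin W.N) :
    W.e (∑ h, f h • MonoidAlgebra.single h (1 : ℂ)) i = ∑ h, f h • W.R i h := by
  rw [map_sum, Finset.sum_apply]
  refine Finset.sum_congr rfl fun h _ => ?_
  rw [map_smul, Pi.smul_apply]
  rfl

/-- Every family of matrices is a combination of the `R i h`. -/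
theorem exists_family (M : Π i, Matrix (Fin (W.d i)) (Fin (W.d i)) ℂ) :
    ∃ f : G → ℂ, ∀ i, ∑ h, f h • W.R i h = M i := by
  obtain ⟨f, hf⟩ := exists_coeff (W.e.symm M)
  refine ⟨f, fun i => ?_⟩
  rw [← e_sum, ← hf, AlgEquiv.apply_symm_apply]

theorem exists_comb (i : Fin W.N) (M : Matrix (Fin (W.d i)) (Fin (W.d i)) ℂ) :
    ∃ f : G → ℂ, ∑ h, f h • W.R i h = M := by
  obtain ⟨f, hf⟩ := W.exists_family (Function.update (fun _ => 0) i M)
  refine ⟨f, ?_⟩
  rw [hf i, Function.update_self]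

theorem span_R (i : Fin W.N) : Submodule.span ℂ (Set.range (W.R i)) = ⊤ := by
  rw [eq_top_iff]
  rintro M -
  obtain ⟨f, hf⟩ := W.exists_comb i M
  rw [← hf]
  exact Submodule.sum_mem _ fun h _ => Submodule.smul_mem _ _ (Submodule.subset_span ⟨h, rfl⟩)

theorem sum_sq : ∑ i, (W.d i) ^ 2 = Fintype.card G := by
  have h1 : Module.finrank ℂ (MonoidAlgebra ℂ G) = Fintype.card G :=
    Module.finrank_eq_card_basis (MonoidAlgebra.basis G ℂ)
  rw [← h1, W.e.toLinearEquiv.finrank_eq, Module.finrank_pi_fintype]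
  refine Finset.sum_congr rfl fun i _ => ?_
  rw [Module.finrank_matrix]
  simp [sq]

private theorem trace_mulLeft_pi {N : ℕ} (d : Fin N → ℕ)
    (M : Π i, Matrix (Fin (d i)) (Fin (d i)) ℂ) :
    LinearMap.trace ℂ (Π i, Matrix (Fin (d i)) (Fin (d i)) ℂ) (LinearMap.mulLeft ℂ M) =
      ∑ i, (d i : ℂ) * (M i).trace := by
  classical
  set b := Pi.basis (fun i => Matrix.stdBasis ℂ (Fin (d i)) (Fin (d i))) with hb
  rw [LinearMap.trace_eq_matrix_trace ℂ b, Matrix.trace, Fintype.sum_sigma]
  refine Finset.sum_congr rfl fun i _ => ?_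
  rw [Fintype.sum_prod_type]
  have key : ∀ p q : Fin (d i), (LinearMap.toMatrix b b (LinearMap.mulLeft ℂ M)).diag ⟨i, (p, q)⟩ =
      M i p p := by
    intro p q
    rw [Matrix.diag_apply, LinearMap.toMatrix_apply, LinearMap.mulLeft_apply]
    rw [hb, Pi.basis_apply, Pi.basis_repr, Pi.mul_apply, Pi.single_eq_same,
      Matrix.stdBasis_eq_single]
    change (M i * (Matrix.single p q (1 : ℂ) : Matrix (Fin (d i)) (Fin (d i)) ℂ)) p q = M i p p
    simp [Matrix.mul_apply, Matrix.single_apply]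
  simp only [key]
  rw [Finset.sum_comm]
  simp [Matrix.trace]

private theorem trace_mulLeft_single (g : G) :
    LinearMap.trace ℂ (MonoidAlgebra ℂ G) (LinearMap.mulLeft ℂ (MonoidAlgebra.single g 1)) =
      (open Classical in if g = 1 then (Fintype.card G : ℂ) else 0) := by
  classical
  rw [LinearMap.trace_eq_matrix_trace ℂ (MonoidAlgebra.basis G ℂ), Matrix.trace]
  have key : ∀ h : G, (LinearMap.toMatrix (MonoidAlgebra.basis G ℂ) (MonoidAlgebra.basis G ℂ)
      (LinearMap.mulLeft ℂ (MonoidAlgebra.single g 1))).diag h = if g = 1 then 1 else 0 := by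
    intro h
    rw [Matrix.diag_apply, LinearMap.toMatrix_apply, LinearMap.mulLeft_apply,
      MonoidAlgebra.basis_apply, MonoidAlgebra.single_mul_single, mul_one,
      ← MonoidAlgebra.basis_apply, Module.Basis.repr_self, Finsupp.single_apply]
    by_cases hg : g = 1
    · simp [hg]
    · rw [if_neg hg, if_neg]
      intro h'
      exact hg (mul_eq_right.1 h')
  simp only [key]
  split_ifs
  · simp
  · simp

open Classical in
/-- The second orthogonality relation at `1`. -/
theorem col (g : G) :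
    ∑ i, (W.d i : ℂ) * (W.R i g).trace = if g = 1 then (Fintype.card G : ℂ) else 0 := by
  rw [← trace_mulLeft_single g, ← LinearMap.trace_conj' _ W.e.toLinearEquiv]
  have h : W.e.toLinearEquiv.conj (LinearMap.mulLeft ℂ (MonoidAlgebra.single g 1)) =
      LinearMap.mulLeft ℂ (W.e (MonoidAlgebra.single g 1)) := by
    refine LinearMap.ext fun M => ?_
    rw [LinearEquiv.conj_apply_apply, LinearMap.mulLeft_apply, LinearMap.mulLeft_apply]
    change W.e (MonoidAlgebra.single g 1 * W.e.symm M) = _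
    rw [map_mul, AlgEquiv.apply_symm_apply]
  rw [h, trace_mulLeft_pi]
  rfl

end Wedd

end Pool.Agent.CO30
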