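import Pool.Agent.CO30.Rp

/-!
# Windows: the eigenvalue one
-/

namespace Pool.Agent.CO30

open Matrix Finset Pool.Agent.CO75

section WeRoots

open Polynomial

variable {d : ℕ}

theorem we_card_roots (A : Matrix (Fin d) (Fin d) ℂ) : A.charpoly.roots.card = d := by
  rw [← (IsAlgClosed.splits A.charpoly).natDegree_eq_card_roots, Matrix.charpoly_natDegree_eq_dim,
    Fintype.card_fin]

theorem we_roots_smul (A : Matrix (Fin d) (Fin d) ℂ) (c : ℂ) :
    (c • A).charpoly.roots = A.charpoly.roots.map fun z => c * z := by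
  have h : (c • A).charpoly = ((A.charpoly.roots.map fun z => c * z).map fun z => X - C z).prod := by
    refine Polynomial.funext fun t => ?_
    rw [eval_multiset_prod, Multiset.map_map, Multiset.map_map, Matrix.eval_charpoly]
    have h := det_aeval A (C t - C c * X)
    rw [map_sub, aeval_C, map_mul, aeval_C, aeval_X, Algebra.algebraMap_eq_smul_one c,
      smul_one_mul] at h
    rw [show (Matrix.scalar (Fin d) t : Matrix (Fin d) (Fin d) ℂ) =
      algebraMap ℂ (Matrix (Fin d) (Fin d) ℂ) t from rfl, h]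
    congr 1
    refine Multiset.map_congr rfl fun z _ => ?_
    simp
  rw [h, roots_multiset_prod_X_sub_C]

end WeRoots

section WePts

variable {G : Type} [Group G] [Fintype G] {r : ℕ} (C : Subgroup G) [C.Normal] (x : Fin r → G)

theorem we_oC_pos (i : Fin r) : 0 < oC C x i := orderOf_pos _

theorem we_pts_add (s : Finset (Fin r)) (f f' : Fin r → G → ℝ) :
    pts C x s (fun i g => f i g + f' i g) = pts C x s f + pts C x s f' := by
  unfold pts
  rw [← Finset.sum_add_distrib]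
  refine Finset.sum_congr rfl fun i _ => ?_
  rw [Finset.sum_add_distrib, mul_add]

theorem we_pts_congr {s : Finset (Fin r)} {f f' : Fin r → G → ℝ} (h : ∀ i ∈ s, ∀ g, f i g = f' i g) :
    pts C x s f = pts C x s f' := by
  unfold pts
  refine Finset.sum_congr rfl fun i hi => ?_
  rw [Finset.sum_congr rfl fun g _ => h i hi g]

theorem we_pts_split (Bd : Finset (Fin r)) (f : Fin r → G → ℝ) :
    pts C x univ f = pts C x Bd f + pts C x Bdᶜ f := by
  unfold pts
  exact (Finset.sum_add_sum_compl Bd _).symm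

theorem we_pts_const (s : Finset (Fin r)) (c : ℝ) :
    pts C x s (fun _ _ => c) = c * ∑ i ∈ s, (C.index : ℝ) / (oC C x i : ℝ) := by
  unfold pts
  rw [Finset.mul_sum]
  refine Finset.sum_congr rfl fun i _ => ?_
  rw [Finset.sum_const, card_univ, nsmul_eq_mul, ← Nat.card_eq_fintype_card, ← C.card_mul_index]
  have h1 : (oC C x i : ℝ) ≠ 0 := by exact_mod_cast (we_oC_pos C x i).ne'
  have h2 : (Nat.card C : ℝ) ≠ 0 := by exact_mod_cast Nat.card_pos.ne'
  push_cast
  field_simp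

/-- The group `⟨x i⟩ C`. -/
noncomputable def weHC (i : Fin r) : Subgroup G :=
  (Subgroup.zpowers (QuotientGroup.mk' C (x i))).comap (QuotientGroup.mk' C)

omit [Fintype G] in
theorem we_mem_HC {i : Fin r} {h : G} (hh : h ∈ weHC C x i) : ∃ (k : ℤ) (c : G), c ∈ C ∧ h = x i ^ k * c := by
  obtain ⟨k, hk⟩ := Subgroup.mem_zpowers_iff.1 (Subgroup.mem_comap.1 hh)
  refine ⟨k, (x i ^ k)⁻¹ * h, ?_, by group⟩
  rw [← map_zpow] at hk
  exact QuotientGroup.eq.1 hk

omit [Fintype G] in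
theorem we_yg_coe (i : Fin r) (g : G) : (yg C x i g : G) = g * x i ^ oC C x i * g⁻¹ := by
  unfold yg
  rw [MulAut.conjNormal_apply]
  rfl

omit [Fintype G] in
theorem we_yg_mul_mem {i : Fin r} (g : G) {h : G} (hh : h ∈ weHC C x i) :
    ∃ c : C, yg C x i (g * h) = c * yg C x i g * c⁻¹ := by
  obtain ⟨k, c, hc, rfl⟩ := we_mem_HC C x hh
  have h1 : (g * x i ^ k) * c * (g * x i ^ k)⁻¹ ∈ C := Subgroup.Normal.conj_mem inferInstance c hc _
  refine ⟨⟨_, h1⟩, ?_⟩
  apply Subtype.ext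
  rw [we_yg_coe, Subgroup.coe_mul, Subgroup.coe_mul, we_yg_coe, Subgroup.coe_inv]
  have h2 : x i ^ k * x i ^ oC C x i * (x i ^ k)⁻¹ = x i ^ oC C x i := by
    rw [← _root_.zpow_natCast, ← _root_.zpow_add, ← _root_.zpow_neg, ← _root_.zpow_add]
    congr 1
    ring
  have h3 : (g * x i ^ k) * c * (g * x i ^ k)⁻¹ * (g * x i ^ oC C x i * g⁻¹) *
      ((g * x i ^ k) * c * (g * x i ^ k)⁻¹)⁻¹ = g * x i ^ k * c *
        ((x i ^ k)⁻¹ * x i ^ oC C x i * x i ^ k) * (g * x i ^ k * c)⁻¹ := by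
    group
  have h4 : (x i ^ k)⁻¹ * x i ^ oC C x i * x i ^ k = x i ^ oC C x i := by
    conv_lhs => rw [← h2]
    group
  rw [h3, h4]
  group

end WePts

variable {G : Type} [Group G] [Fintype G] {d : ℕ}

theorem we_fx_conj {H : Type} [Group H] (R : H →* Matrix (Fin d) (Fin d) ℂ) (c u : H) :
    fx (R (c * u * c⁻¹)) = fx (R u) := by
  unfold fx
  rw [map_mul, map_mul, Matrix.mul_assoc, Matrix.charpoly_mul_comm, Matrix.mul_assoc, ← map_mul,
    inv_mul_cancel, map_one, Matrix.mul_one]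

omit [Fintype G] in
theorem we_mem_HC0 (C : Subgroup G) [C.Normal] (x : Fin 4 → G) (i : Fin 4) {h : G} (hh : h ∈ C) :
    h ∈ weHC C x i := by
  unfold weHC
  rw [Subgroup.mem_comap]
  have h1 : QuotientGroup.mk' C h = 1 := (QuotientGroup.eq_one_iff h).2 hh
  rw [h1]
  exact Subgroup.one_mem _

open Classical in
theorem we_card (C : Subgroup G) (α : C →* ℂˣ) (R : C →* Matrix (Fin d) (Fin d) ℂ) (u : C) (K : ℕ)
    (hK : K ≤ orderOf (α u)) (k₀ : ℤ) :
    ((Finset.Ico k₀ (k₀ + K)).filter fun k => fx (twk R α k u) ≠ 0).card ≤ d := by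
  have h1 : ((R u).charpoly.roots.toFinset).card ≤ d :=
    (Multiset.toFinset_card_le _).trans (le_of_eq (we_card_roots (R u)))
  refine le_trans (Finset.card_le_card_of_injOn (fun k : ℤ => (((α u ^ k)⁻¹ : ℂˣ) : ℂ)) ?_ ?_) h1
  · intro k hk
    have hk2 := (Finset.mem_filter.1 hk).2
    rw [Finset.mem_coe, Multiset.mem_toFinset]
    have h2 : (1 : ℂ) ∈ (twk R α k u).charpoly.roots := by
      unfold fx at hk2
      rw [← Polynomial.count_roots] at hk2
      exact Multiset.count_ne_zero.1 hk2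
    rw [show twk R α k u = ((α u ^ k : ℂˣ) : ℂ) • R u from rfl, we_roots_smul,
      Multiset.mem_map] at h2
    obtain ⟨z, hz, hz1⟩ := h2
    have h3 : (((α u ^ k)⁻¹ : ℂˣ) : ℂ) = z := by
      rw [Units.val_inv_eq_inv_val]
      exact inv_eq_of_mul_eq_one_right hz1
    simp only
    rw [h3]
    exact hz
  · intro k hk l hl hkl
    have hk1 := Finset.mem_Ico.1 (Finset.mem_filter.1 hk).1
    have hl1 := Finset.mem_Ico.1 (Finset.mem_filter.1 hl).1
    have h2 : α u ^ k = α u ^ l := inv_injective (Units.ext hkl)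
    rw [zpow_eq_zpow_iff_modEq, Int.modEq_iff_dvd] at h2
    have h3 := Int.eq_zero_of_abs_lt_dvd h2 (by
      rw [abs_lt]
      have : (K : ℤ) ≤ orderOf (α u) := by exact_mod_cast hK
      constructor <;> omega)
    omega

open Classical in
theorem win_eig (x : Fin 4 → G) (b K : ℕ) (C : Subgroup G) [C.Normal] (T : Subgroup G)
    (α : C →* ℂˣ) (I : Set G) (Bd : Finset (Fin 4)) (hF : IsFrame x b K C T α I Bd)
    (R : C →* Matrix (Fin d) (Fin d) ℂ) (k₀ : ℤ) :
    ((Finset.Ico k₀ (k₀ + K)).filter fun k => ∃ i, i ∉ Bd ∧ ∃ g,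
      fx (twk R α k (yg C x i g)) ≠ 0).card ≤ 4 * C.index * d := by
  have : Fintype (G ⧸ C) := Fintype.ofFinite _
  have h1 : ((Finset.Ico k₀ (k₀ + K)).filter fun k => ∃ i, i ∉ Bd ∧ ∃ g,
      fx (twk R α k (yg C x i g)) ≠ 0) ⊆
      (Bdᶜ ×ˢ (univ : Finset (G ⧸ C))).biUnion fun p =>
        (Finset.Ico k₀ (k₀ + K)).filter fun k => fx (twk R α k (yg C x p.1 p.2.out)) ≠ 0 := by
    intro k hk
    rw [Finset.mem_filter] at hk
    obtain ⟨hk1, i, hi, g, hg⟩ := hk
    rw [Finset.mem_biUnion]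
    refine ⟨(i, QuotientGroup.mk g), ?_, ?_⟩
    · rw [Finset.mem_product]
      exact ⟨Finset.mem_compl.2 hi, mem_univ _⟩
    · rw [Finset.mem_filter]
      refine ⟨hk1, ?_⟩
      have h2 : (QuotientGroup.mk g : G ⧸ C).out⁻¹ * g ∈ C := by
        rw [← QuotientGroup.eq]
        exact Quotient.out_eq' _
      obtain ⟨c, hc⟩ := we_yg_mul_mem C x (QuotientGroup.mk g : G ⧸ C).out (we_mem_HC0 C x i h2)
      rw [mul_inv_cancel_left] at hc
      rw [hc, we_fx_conj] at hg
      exact hg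
  refine (Finset.card_le_card h1).trans ((Finset.card_biUnion_le_card_mul _ _ d
    fun p hp => ?_).trans ?_)
  · have hi : p.1 ∉ Bd := Finset.mem_compl.1 (Finset.mem_product.1 hp).1
    exact we_card C α R _ K (hF.ub p.1 hi _).1 k₀
  · rw [Finset.card_product, card_univ, ← Nat.card_eq_fintype_card]
    have h3 : (Bdᶜ).card ≤ 4 := by
      simpa using Finset.card_le_univ (Bdᶜ)
    exact Nat.mul_le_mul_right _ (Nat.mul_le_mul_right _ h3)

theorem win_sum (x : Fin 4 → G) (b K : ℕ) (C : Subgroup G) [C.Normal] (T : Subgroup G)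
    (α : C →* ℂˣ) (I : Set G) (Bd : Finset (Fin 4)) (hF : IsFrame x b K C T α I Bd)
    (R : C →* Matrix (Fin d) (Fin d) ℂ) (k : ℤ)
    (h : ∀ i ∉ Bd, ∀ g, fx (twk R α k (yg C x i g)) = 0) :
    Fa C x (twk R α k) + Fb C x (twk R α k) = d * Ja C x Bd + mB C x Bd R := by
  classical
  have : Fintype C := Fintype.ofFinite _
  unfold Fa Fb
  rw [← we_pts_add, we_pts_split C x Bd, add_comm]
  congr 1
  · unfold Ja
    rw [← we_pts_const]
    refine we_pts_congr C x fun i hi g => ?_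
    rw [add_comm, age_add_inv, h i (Finset.mem_compl.1 hi) g, Nat.cast_zero, sub_zero]
  · unfold mB
    refine we_pts_congr C x fun i hi g => ?_
    rw [add_comm, age_add_inv]
    have h1 : twk R α k (yg C x i g) = R (yg C x i g) := by
      show ((α (yg C x i g) ^ k : ℂˣ) : ℂ) • R (yg C x i g) = _
      rw [(hF.bd i hi).2 g, _root_.one_zpow, Units.val_one, one_smul]
    rw [h1]

end Pool.Agent.CO30
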