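import Pool.Agent.CO30.Cli
import Pool.Agent.CO30.AgC
import Pool.Agent.CO30.FsT
import Pool.Agent.CO30.WinE

/-!
# All but boundedly many twists in a window are good (`MP_7f2cd4_ag`, four branch points)
-/

namespace Pool.Agent.CO30

open Matrix Finset Pool.Agent.CO75

variable {G : Type} [Group G] [Fintype G] {d : ℕ}

omit [Fintype G] in
private theorem win_tr (C : Subgroup G) (R : C →* Matrix (Fin d) (Fin d) ℂ) (α : C →* ℂˣ) (k : ℤ)
    (c : C) : (twk R α k c).trace = ((α c ^ k : ℂˣ) : ℂ) * (R c).trace := by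
  show (((α c ^ k : ℂˣ) : ℂ) • R c).trace = _
  rw [Matrix.trace_smul, smul_eq_mul]

omit [Fintype G] in
private theorem win_conj (C : Subgroup G) (R : C →* Matrix (Fin d) (Fin d) ℂ) (u c : C) :
    (R (u⁻¹ * c * u)).trace = (R c).trace := by
  rw [map_mul, map_mul, Matrix.trace_mul_cycle, ← map_mul, mul_inv_cancel, map_one, Matrix.one_mul]

private theorem win_ne (C T : Subgroup G) (hcen : ∀ t ∈ T, ∀ c ∈ C, t * c = c * t)
    (R : C →* Matrix (Fin d) (Fin d) ℂ) (hR : Irr R) (t : C) (ht : (t : G) ∈ T) :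
    (R t).trace ≠ 0 := by
  have h1 : ∀ h : C, t * h = h * t := fun h => Subtype.ext (hcen t ht h h.2)
  have : Fintype C := Fintype.ofFinite _
  obtain ⟨c, hc⟩ := scalar_central hR h1
  have hd : 0 < d := hR.1
  have : NeZero d := ⟨hd.ne'⟩
  rw [hc, Matrix.trace_smul, Matrix.trace_one, Fintype.card_fin, smul_eq_mul]
  have hdc : (d : ℂ) ≠ 0 := by exact_mod_cast hd.ne'
  refine mul_ne_zero ?_ hdc
  rintro rfl
  have h2 : R t * R t⁻¹ = 1 := by rw [← map_mul, mul_inv_cancel, map_one]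
  rw [hc, zero_smul, Matrix.zero_mul] at h2
  exact zero_ne_one h2

private theorem win_ratio (a b : ℂˣ) (u v : ℂ) (hu : u ≠ 0) (k l : ℤ)
    (h1 : ((a ^ k : ℂˣ) : ℂ) * u = ((b ^ k : ℂˣ) : ℂ) * v)
    (h2 : ((a ^ l : ℂˣ) : ℂ) * u = ((b ^ l : ℂˣ) : ℂ) * v) (n : ℕ) (hn : l - k = n) :
    a ^ n = b ^ n := by
  have hl : l = n + k := by omega
  rw [hl, _root_.zpow_add, _root_.zpow_add, Units.val_mul, Units.val_mul, mul_assoc, mul_assoc,
    ← h1] at h2
  have h3 : ((a ^ k : ℂˣ) : ℂ) * u ≠ 0 := mul_ne_zero (Units.ne_zero _) hu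
  have h4 := mul_right_cancel₀ h3 h2
  rw [zpow_natCast, zpow_natCast] at h4
  exact Units.ext h4

private theorem win_eq_of (K : ℕ) (k₀ k l : ℤ) (hk : k ∈ Finset.Ico k₀ (k₀ + K))
    (hl : l ∈ Finset.Ico k₀ (k₀ + K)) (P : ℤ → Prop) (hPk : P k) (hPl : P l)
    (h : ∀ k l : ℤ, P k → P l → ∀ n : ℕ, 0 < n → n < K → l - k = n → False) : k = l := by
  rw [Finset.mem_Ico] at hk hl
  by_contra hne
  rcases lt_or_gt_of_ne hne with h1 | h1
  · exact h k l hPk hPl (l - k).toNat (by omega) (by omega) (by omega)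
  · exact h l k hPl hPk (k - l).toNat (by omega) (by omega) (by omega)

section core

variable (x : Fin 4 → G) (b K : ℕ) (C : Subgroup G) [C.Normal] (T : Subgroup G)
    (α : C →* ℂˣ) (I : Set G) (Bd : Finset (Fin 4)) (hF : IsFrame x b K C T α I Bd)
    (R : C →* Matrix (Fin d) (Fin d) ℂ) (hR : Irr R)

include hF in
omit [Fintype G] in
private theorem win_mem (g : G) (t : C) (ht : (t : G) ∈ T) : ((MulAut.conjNormal g t : C) : G) ∈ T := by
  rw [MulAut.conjNormal_apply]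
  exact Subgroup.Normal.conj_mem hF.normal _ ht g

include hF hR in
private theorem win_a (g : G) (hg : g ∉ C) (k l : ℤ)
    (h1 : ∀ c : C, (twk R α k (MulAut.conjNormal g c)).trace = (twk R α k c).trace)
    (h2 : ∀ c : C, (twk R α l (MulAut.conjNormal g c)).trace = (twk R α l c).trace)
    (n : ℕ) (hn : 0 < n) (hnK : n < K) (hkl : l - k = n) : False := by
  obtain ⟨t, ht, hne⟩ := hF.sep g hg n hn hnK
  have hs := win_mem x b K C T α I Bd hF g t ht
  have e1 := h1 t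
  have e2 := h2 t
  rw [win_tr, win_tr] at e1 e2
  exact hne (win_ratio _ _ _ _ (win_ne C T hF.central R hR _ hs) k l e1 e2 n hkl)

include hF hR in
private theorem win_b (g : G) (hg : g ∉ I) (k l : ℤ)
    (h1 : ∀ c : C, (twk R α k (MulAut.conjNormal g c)).trace = (twk R α k c⁻¹).trace)
    (h2 : ∀ c : C, (twk R α l (MulAut.conjNormal g c)).trace = (twk R α l c⁻¹).trace)
    (n : ℕ) (hn : 0 < n) (hnK : n < K) (hkl : l - k = n) : False := by
  obtain ⟨t, ht, hne⟩ := hF.sepI g hg n hn hnK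
  have hs := win_mem x b K C T α I Bd hF g t ht
  have e1 := h1 t
  have e2 := h2 t
  rw [win_tr, win_tr] at e1 e2
  have h3 := win_ratio _ _ _ _ (win_ne C T hF.central R hR _ hs) k l e1 e2 n hkl
  apply hne
  rw [mul_pow, h3, ← mul_pow, map_inv, inv_mul_cancel, one_pow]

include hF hR in
private theorem win_c (h1I : (1 : G) ∉ I) (k l : ℤ)
    (h1 : ∀ c : C, (twk R α k c).trace = (twk R α l c).trace)
    (n : ℕ) (hn : 0 < n) (hnK : n < K) (hkl : l - k = n) : False := by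
  obtain ⟨t, ht, hne⟩ := hF.sepI 1 h1I n hn hnK
  have e1 := h1 t
  rw [win_tr, win_tr] at e1
  have h3 := mul_right_cancel₀ (win_ne C T hF.central R hR _ ht) e1
  have h4 : α t ^ k = α t ^ l := Units.ext h3
  have hl : l = n + k := by omega
  rw [hl, _root_.zpow_add, zpow_natCast] at h4
  have h5 : α t ^ n = 1 := by
    exact mul_eq_right.1 h4.symm
  apply hne
  rw [map_one, MulAut.one_apply, mul_pow, h5, one_mul]

end core

section count

open Classical in
private theorem win_cA (x : Fin 4 → G) (b K : ℕ) (C : Subgroup G) [C.Normal] (T : Subgroup G)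
    (α : C →* ℂˣ) (I : Set G) (Bd : Finset (Fin 4)) (hF : IsFrame x b K C T α I Bd)
    (R : C →* Matrix (Fin d) (Fin d) ℂ) (hR : Irr R) (k₀ : ℤ) :
    ((Finset.Ico k₀ (k₀ + K)).filter fun k => ¬ Gen C (twk R α k)).card ≤ C.index - 1 := by
  have h0 : ∀ k : ℤ, ∃ g : G, ¬ Gen C (twk R α k) → g ∉ C ∧
      ∀ c : C, (twk R α k (MulAut.conjNormal g c)).trace = (twk R α k c).trace := by
    intro k
    by_cases h : Gen C (twk R α k)
    · exact ⟨1, fun h' => absurd h h'⟩
    · have h' := h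
      unfold Gen at h'
      push Not at h'
      obtain ⟨g, hg, hgc⟩ := h'
      exact ⟨g, fun _ => ⟨hg, hgc⟩⟩
  choose f hf using h0
  have hcard : ((univ : Finset (G ⧸ C)).erase 1).card = C.index - 1 := by
    rw [Finset.card_erase_of_mem (Finset.mem_univ _), Finset.card_univ, Subgroup.index_eq_card,
      Nat.card_eq_fintype_card]
  rw [← hcard]
  refine Finset.card_le_card_of_injOn (fun k => (QuotientGroup.mk (f k) : G ⧸ C)) ?_ ?_
  · intro k hk
    rw [Finset.mem_coe, Finset.mem_filter] at hk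
    rw [Finset.mem_coe, Finset.mem_erase]
    refine ⟨fun h => ?_, Finset.mem_univ _⟩
    exact (hf k hk.2).1 ((QuotientGroup.eq_one_iff _).1 h)
  · intro k hk l hl hkl
    rw [Finset.mem_coe, Finset.mem_filter] at hk hl
    have hc0 : (f k)⁻¹ * f l ∈ C := QuotientGroup.eq.1 hkl
    have hfl : ∀ c : C, (twk R α l (MulAut.conjNormal (f k) c)).trace = (twk R α l c).trace := by
      intro c
      have h1 := (hf l hl.2).2 (⟨_, hc0⟩⁻¹ * c * ⟨_, hc0⟩)
      rw [win_conj] at h1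
      rw [← h1]
      congr 2
      apply Subtype.ext
      rw [MulAut.conjNormal_apply, MulAut.conjNormal_apply]
      simp only [Subgroup.coe_mul, Subgroup.coe_inv]
      group
    exact win_eq_of K k₀ k l hk.1 hl.1
      (fun m => ∀ c : C, (twk R α m (MulAut.conjNormal (f k) c)).trace = (twk R α m c).trace)
      (hf k hk.2).2 hfl
      (fun k' l' h1 h2 n hn hnK he =>
        win_a x b K C T α I Bd hF R hR (f k) (hf k hk.2).1 k' l' h1 h2 n hn hnK he)

open Classical in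
private theorem win_cB (x : Fin 4 → G) (b K : ℕ) (C : Subgroup G) [C.Normal] (T : Subgroup G)
    (α : C →* ℂˣ) (I : Set G) (Bd : Finset (Fin 4)) (hF : IsFrame x b K C T α I Bd)
    (R : C →* Matrix (Fin d) (Fin d) ℂ) (hR : Irr R) (k₀ : ℤ) :
    ((Finset.Ico k₀ (k₀ + K)).filter fun k => ∃ g, g ∉ I ∧ CDual C (twk R α k) g).card ≤
      C.index := by
  have h0 : ∀ k : ℤ, ∃ g : G, (∃ g, g ∉ I ∧ CDual C (twk R α k) g) → g ∉ I ∧
      CDual C (twk R α k) g := by
    intro k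
    by_cases h : ∃ g, g ∉ I ∧ CDual C (twk R α k) g
    · obtain ⟨g, hg⟩ := h
      exact ⟨g, fun _ => hg⟩
    · exact ⟨1, fun h' => absurd h' h⟩
  choose f hf using h0
  have hcard : (univ : Finset (G ⧸ C)).card = C.index := by
    rw [Finset.card_univ, Subgroup.index_eq_card, Nat.card_eq_fintype_card]
  rw [← hcard]
  refine Finset.card_le_card_of_injOn (fun k => (QuotientGroup.mk (f k) : G ⧸ C)) ?_ ?_
  · intro k hk
    exact Finset.mem_coe.2 (Finset.mem_univ _)
  · intro k hk l hl hkl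
    rw [Finset.mem_coe, Finset.mem_filter] at hk hl
    have hc0 : (f k)⁻¹ * f l ∈ C := QuotientGroup.eq.1 hkl
    have hfl : ∀ c : C, (twk R α l (MulAut.conjNormal (f k) c)).trace =
        (twk R α l c⁻¹).trace := by
      intro c
      have h1 := (hf l hl.2).2 (⟨_, hc0⟩⁻¹ * c * ⟨_, hc0⟩)
      have h2 : ((⟨_, hc0⟩ : C)⁻¹ * c * ⟨_, hc0⟩)⁻¹ = (⟨_, hc0⟩ : C)⁻¹ * c⁻¹ * ⟨_, hc0⟩ := by
        group
      rw [h2, win_conj] at h1
      rw [← h1]
      congr 2
      apply Subtype.ext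
      rw [MulAut.conjNormal_apply, MulAut.conjNormal_apply]
      simp only [Subgroup.coe_mul, Subgroup.coe_inv]
      group
    exact win_eq_of K k₀ k l hk.1 hl.1
      (fun m => ∀ c : C, (twk R α m (MulAut.conjNormal (f k) c)).trace = (twk R α m c⁻¹).trace)
      (hf k hk.2).2 hfl
      (fun k' l' h1 h2 n hn hnK he =>
        win_b x b K C T α I Bd hF R hR (f k) (hf k hk.2).1 k' l' h1 h2 n hn hnK he)

private theorem win_inj (x : Fin 4 → G) (b K : ℕ) (C : Subgroup G) [C.Normal] (T : Subgroup G)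
    (α : C →* ℂˣ) (I : Set G) (Bd : Finset (Fin 4)) (hF : IsFrame x b K C T α I Bd)
    (R : C →* Matrix (Fin d) (Fin d) ℂ) (hR : Irr R) (h1I : (1 : G) ∉ I) (k₀ k l : ℤ)
    (hk : k ∈ Finset.Ico k₀ (k₀ + K)) (hl : l ∈ Finset.Ico k₀ (k₀ + K))
    (h : ∀ c : C, (twk R α k c).trace = (twk R α l c).trace) : k = l :=
  win_eq_of K k₀ k l hk hl (fun m => ∀ c : C, (twk R α m c).trace = (twk R α k c).trace)
    (fun _ => rfl) (fun c => (h c).symm)
    (fun k' l' h1 h2 n hn hnK he =>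
      win_c x b K C T α I Bd hF R hR h1I k' l' (fun c => (h1 c).trans (h2 c).symm) n hn hnK he)

open Classical in
private theorem win_cC (x : Fin 4 → G) (b K : ℕ) (C : Subgroup G) [C.Normal] [Fintype C]
    (T : Subgroup G)
    (α : C →* ℂˣ) (I : Set G) (Bd : Finset (Fin 4)) (hF : IsFrame x b K C T α I Bd)
    (R : C →* Matrix (Fin d) (Fin d) ℂ) (hR : Irr R) (h1I : (1 : G) ∉ I) (k₀ : ℤ) :
    ((Finset.Ico k₀ (k₀ + K)).filter fun k => ∑ c : C, (twk R α k c).trace ≠ 0).card ≤ 1 := by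
  have h0 : ∀ k : ℤ, (∑ c : C, (twk R α k c).trace ≠ 0) → ∀ c : C, (twk R α k c).trace = 1 := by
    intro k hk
    by_contra hne
    push Not at hne
    obtain ⟨c, hc⟩ := hne
    apply hk
    have ht : ∀ c : C, (trivR C c).trace = 1 := by
      intro c
      show (1 : Matrix (Fin 1) (Fin 1) ℂ).trace = 1
      rw [Matrix.trace_one, Fintype.card_fin, Nat.cast_one]
    have h1 := orth (twk R α k) (trivR C) (irr_twk hR α k) irr_triv ⟨c, by rw [ht]; exact hc⟩
    rw [← h1]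
    refine Finset.sum_congr rfl fun c _ => ?_
    rw [ht, mul_one]
  rw [Finset.card_le_one]
  intro k hk l hl
  rw [Finset.mem_filter] at hk hl
  exact win_inj x b K C T α I Bd hF R hR h1I k₀ k l hk.1 hl.1
    (fun c => (h0 k hk.2 c).trans (h0 l hl.2 c).symm)

open Classical in
private theorem win_cD (x : Fin 4 → G) (b K : ℕ) (C : Subgroup G) [C.Normal] [Fintype C]
    (T : Subgroup G)
    (α : C →* ℂˣ) (I : Set G) (Bd : Finset (Fin 4)) (hF : IsFrame x b K C T α I Bd)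
    (hx : IsGenVec x) (hN : (numN x).re ≤ 1)
    (R : C →* Matrix (Fin d) (Fin d) ℂ) (hR : Irr R) (h1I : (1 : G) ∉ I) (k₀ : ℤ) :
    ((Finset.Ico k₀ (k₀ + K)).filter fun k => Gen C (twk R α k) ∧
      mC C x (dual (twk R α k)) * (mC C x (twk R α k) + nuC C (twk R α k)) ≠ 0).card ≤
      2 * C.index := by
  obtain ⟨WC⟩ := exists_wedd C
  refine le_trans ?_ (generic_count C x hx hN WC)
  have h0 : ∀ k : ℤ, ∃ j, WC.d j = d ∧ ∀ h, (WC.R j h).trace = (twk R α k h).trace :=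
    fun k => exists_index WC (twk R α k) (irr_twk hR α k)
  choose f hfd hf using h0
  refine Finset.card_le_card_of_injOn f ?_ ?_
  · intro k hk
    rw [Finset.mem_coe, Finset.mem_filter] at hk
    rw [Finset.mem_coe, Finset.mem_filter]
    refine ⟨Finset.mem_univ _, ?_, ?_⟩
    · intro g hg
      obtain ⟨c, hc⟩ := hk.2.1 g hg
      exact ⟨c, by rw [hf, hf]; exact hc⟩
    · have e1 : mC C x (WC.R (f k)) = mC C x (twk R α k) := by
        unfold mC
        simp only [hf]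
      have e2 : mC C x (dual (WC.R (f k))) = mC C x (dual (twk R α k)) := by
        unfold mC
        have e3 : ∀ c : C, (dual (WC.R (f k)) c⁻¹).trace = (dual (twk R α k) c⁻¹).trace := by
          intro c
          show ((WC.R (f k)) c⁻¹⁻¹)ᵀ.trace = ((twk R α k) c⁻¹⁻¹)ᵀ.trace
          rw [Matrix.trace_transpose, Matrix.trace_transpose, hf]
        simp only [e3]
      have e4 : nuC C (WC.R (f k)) = nuC C (twk R α k) := by
        unfold nuC
        simp only [hf]
      rw [e1, e2, e4]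
      exact hk.2.2
  · intro k hk l hl hkl
    rw [Finset.mem_coe, Finset.mem_filter] at hk hl
    refine win_inj x b K C T α I Bd hF R hR h1I k₀ k l hk.1 hl.1 fun c => ?_
    rw [← hf k c, ← hf l c]
    exact congrArg (fun j => (WC.R j c).trace) hkl

/-- the good twists -/
def WOk (C : Subgroup G) [C.Normal] [Fintype C] (x : Fin 4 → G) (α : C →* ℂˣ) (I : Set G)
    (Bd : Finset (Fin 4)) (R : C →* Matrix (Fin d) (Fin d) ℂ) (k : ℤ) : Prop :=
  Gen C (twk R α k) ∧ (∀ g, g ∉ I → ¬ CDual C (twk R α k) g) ∧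
    (∑ c : C, (twk R α k c).trace = 0) ∧
    mC C x (dual (twk R α k)) * (mC C x (twk R α k) + nuC C (twk R α k)) = 0 ∧
    ∀ i ∉ Bd, ∀ g, fx (twk R α k (yg C x i g)) = 0

open Classical in
theorem win_count (x : Fin 4 → G) (b K : ℕ) (C : Subgroup G) [C.Normal] [Fintype C]
    (T : Subgroup G)
    (α : C →* ℂˣ) (I : Set G) (Bd : Finset (Fin 4)) (hF : IsFrame x b K C T α I Bd)
    (hx : IsGenVec x) (hN : (numN x).re ≤ 1)
    (R : C →* Matrix (Fin d) (Fin d) ℂ) (hR : Irr R) (h1I : (1 : G) ∉ I) (k₀ : ℤ) :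
    ((Finset.Ico k₀ (k₀ + K)).filter fun k => ¬ WOk C x α I Bd R k).card ≤
      4 * b ^ 2 + 4 * b := by
  have hq0 : 0 < C.index := Nat.pos_of_ne_zero (Subgroup.index_ne_zero_of_finite)
  have hTq : (T.subgroupOf C).index * C.index = T.index := Subgroup.relIndex_mul_index hF.le
  have hT0 : 0 < T.index := Nat.pos_of_ne_zero (Subgroup.index_ne_zero_of_finite)
  have hm : d ^ 2 ≤ (T.subgroupOf C).index :=
    sq_le_index hR (T.subgroupOf C)
      (fun t ht h => Subtype.ext (hF.central t (Subgroup.mem_subgroupOf.1 ht) h h.2))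
  have hb : T.index ≤ b := hF.index_le
  have hdm : d ≤ (T.subgroupOf C).index := le_trans (Nat.le_self_pow (by norm_num) d) hm
  have hm0 : 0 < (T.subgroupOf C).index := lt_of_lt_of_le hR.1 hdm
  have hqd : C.index * d ≤ b := by
    calc C.index * d ≤ C.index * (T.subgroupOf C).index := Nat.mul_le_mul_left _ hdm
      _ = T.index := by rw [← hTq, mul_comm]
      _ ≤ b := hb
  have hqb : C.index ≤ b := by
    calc C.index = 1 * C.index := (one_mul _).symm
      _ ≤ (T.subgroupOf C).index * C.index := Nat.mul_le_mul_right _ hm0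
      _ = T.index := hTq
      _ ≤ b := hb
  have hsub : ((Finset.Ico k₀ (k₀ + K)).filter fun k => ¬ WOk C x α I Bd R k) ⊆
      ((Finset.Ico k₀ (k₀ + K)).filter fun k => ¬ Gen C (twk R α k)) ∪
      (((Finset.Ico k₀ (k₀ + K)).filter fun k => ∃ g, g ∉ I ∧ CDual C (twk R α k) g) ∪
      (((Finset.Ico k₀ (k₀ + K)).filter fun k => ∑ c : C, (twk R α k c).trace ≠ 0) ∪
      (((Finset.Ico k₀ (k₀ + K)).filter fun k => Gen C (twk R α k) ∧
        mC C x (dual (twk R α k)) * (mC C x (twk R α k) + nuC C (twk R α k)) ≠ 0) ∪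
      ((Finset.Ico k₀ (k₀ + K)).filter fun k =>
        ∃ i, i ∉ Bd ∧ ∃ g, fx (twk R α k (yg C x i g)) ≠ 0)))) := by
    intro k hk
    rw [Finset.mem_filter] at hk
    simp only [Finset.mem_union, Finset.mem_filter]
    by_contra hne
    push Not at hne
    obtain ⟨h1, h2, h3, h4, h5⟩ := hne
    exact hk.2 ⟨h1 hk.1, h2 hk.1, h3 hk.1, h4 hk.1 (h1 hk.1), h5 hk.1⟩
  have hA := win_cA x b K C T α I Bd hF R hR k₀
  have hB := win_cB x b K C T α I Bd hF R hR k₀
  have hC := win_cC x b K C T α I Bd hF R hR h1I k₀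
  have hD := win_cD x b K C T α I Bd hF hx hN R hR h1I k₀
  have hE := win_eig x b K C T α I Bd hF R k₀
  have h1 := Finset.card_le_card hsub
  have h2 := le_trans h1 (Finset.card_union_le _ _)
  have h3 := Finset.card_union_le
      ((Finset.Ico k₀ (k₀ + K)).filter fun k => ∃ g, g ∉ I ∧ CDual C (twk R α k) g)
      (((Finset.Ico k₀ (k₀ + K)).filter fun k => ∑ c : C, (twk R α k c).trace ≠ 0) ∪
      (((Finset.Ico k₀ (k₀ + K)).filter fun k => Gen C (twk R α k) ∧
        mC C x (dual (twk R α k)) * (mC C x (twk R α k) + nuC C (twk R α k)) ≠ 0) ∪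
      ((Finset.Ico k₀ (k₀ + K)).filter fun k =>
        ∃ i, i ∉ Bd ∧ ∃ g, fx (twk R α k (yg C x i g)) ≠ 0)))
  have h4 := Finset.card_union_le
      ((Finset.Ico k₀ (k₀ + K)).filter fun k => ∑ c : C, (twk R α k c).trace ≠ 0)
      (((Finset.Ico k₀ (k₀ + K)).filter fun k => Gen C (twk R α k) ∧
        mC C x (dual (twk R α k)) * (mC C x (twk R α k) + nuC C (twk R α k)) ≠ 0) ∪
      ((Finset.Ico k₀ (k₀ + K)).filter fun k =>
        ∃ i, i ∉ Bd ∧ ∃ g, fx (twk R α k (yg C x i g)) ≠ 0))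
  have h5 := Finset.card_union_le
      ((Finset.Ico k₀ (k₀ + K)).filter fun k => Gen C (twk R α k) ∧
        mC C x (dual (twk R α k)) * (mC C x (twk R α k) + nuC C (twk R α k)) ≠ 0)
      ((Finset.Ico k₀ (k₀ + K)).filter fun k =>
        ∃ i, i ∉ Bd ∧ ∃ g, fx (twk R α k (yg C x i g)) ≠ 0)
  have hqd' : 4 * C.index * d = 4 * (C.index * d) := by ring
  rw [hqd'] at hE
  have hb1 : b ≤ b ^ 2 := Nat.le_self_pow (by norm_num) b
  omega

end count

/-- the good twists, without inverting elements -/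
def GoodN (C : Subgroup G) [C.Normal] (x : Fin 4 → G) (α : C →* ℂˣ) (Bd : Finset (Fin 4))
    (R : C →* Matrix (Fin d) (Fin d) ℂ) (k : ℤ) : Prop :=
  ∃ a b : ℕ, (a : ℝ) = d * hh C x + Fa C x (twk R α k) ∧
    (b : ℝ) = d * hh C x + Fb C x (twk R α k) ∧
    Fa C x (twk R α k) + Fb C x (twk R α k) = d * Ja C x Bd + mB C x Bd R ∧ a * b = 0

/-- the good twists, with inverting elements -/
def GoodI (C : Subgroup G) [C.Normal] [Fintype C] (x : Fin 4 → G) (α : C →* ℂˣ)
    (Bd : Finset (Fin 4)) (g₀ : G) (R : C →* Matrix (Fin d) (Fin d) ℂ) (k : ℤ) : Prop :=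
  ∃ a b : ℕ, (a : ℝ) = d * hh C x + Fa C x (twk R α k) ∧
    (b : ℝ) = d * hh C x + Fb C x (twk R α k) ∧
    Fa C x (twk R α k) + Fb C x (twk R α k) = d * Ja C x Bd + mB C x Bd R ∧
    (nuT C g₀ R = 0 → a * b = 0) ∧ (nuT C g₀ R = 1 → a = 0 ∧ b = 0) ∧
    (nuT C g₀ R = -1 → a = b ∧ b ≤ 1)

private theorem win_nat (x : Fin 4 → G) (C : Subgroup G) [C.Normal] [Fintype C]
    (α : C →* ℂˣ) (hx : IsGenVec x) (R : C →* Matrix (Fin d) (Fin d) ℂ) (hR : Irr R) (k : ℤ)
    (h0 : ∑ c : C, (twk R α k c).trace = 0) :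
    ∃ a b : ℕ, mC C x (twk R α k) = a ∧ mC C x (dual (twk R α k)) = b ∧
      (a : ℝ) = d * hh C x + Fa C x (twk R α k) ∧
      (b : ℝ) = d * hh C x + Fb C x (twk R α k) := by
  obtain ⟨a, ha⟩ := mC_nat C x hx (twk R α k) (irr_twk hR α k)
  obtain ⟨b, hb⟩ := mC_nat C x hx (dual (twk R α k)) (irr_dual (irr_twk hR α k))
  refine ⟨a, b, ha, hb, ?_, ?_⟩
  · have h1 := mC_formula C x (twk R α k)
    rw [ha, h0, mul_zero, zero_add] at h1
    exact_mod_cast h1
  · have h1 := mC_dual_formula C x (twk R α k)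
    rw [hb, h0, mul_zero, zero_add] at h1
    exact_mod_cast h1

theorem win_goodN (x : Fin 4 → G) (b K : ℕ) (C : Subgroup G) [C.Normal] [Fintype C]
    (T : Subgroup G) (α : C →* ℂˣ) (Bd : Finset (Fin 4)) (hF : IsFrame x b K C T α ∅ Bd)
    (hx : IsGenVec x) (R : C →* Matrix (Fin d) (Fin d) ℂ) (hR : Irr R) (k : ℤ)
    (h : WOk C x α ∅ Bd R k) : GoodN C x α Bd R k := by
  obtain ⟨-, h2, h3, h4, h5⟩ := h
  obtain ⟨a, c, ha, hc, ha', hc'⟩ := win_nat x C α hx R hR k h3
  refine ⟨a, c, ha', hc', win_sum x b K C T α ∅ Bd hF R k h5, ?_⟩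
  rw [nuC_eq_zero C _ (irr_twk hR α k) (fun g => h2 g (Set.notMem_empty g)), add_zero, ha, hc] at h4
  have h6 : ((c * a : ℕ) : ℂ) = 0 := by
    rw [Nat.cast_mul]
    exact h4
  have h7 : c * a = 0 := by exact_mod_cast h6
  rw [mul_comm]
  exact h7

theorem win_goodI (x : Fin 4 → G) (b K : ℕ) (C : Subgroup G) [C.Normal] [Fintype C]
    (T : Subgroup G) (α : C →* ℂˣ) (I : Set G) (g₀ : G) (Bd : Finset (Fin 4))
    (hF : IsFrame x b K C T α I Bd) (hI : IsInv C α I g₀)
    (hx : IsGenVec x) (R : C →* Matrix (Fin d) (Fin d) ℂ) (hR : Irr R) (k : ℤ)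
    (h : WOk C x α I Bd R k) : GoodI C x α Bd g₀ R k := by
  obtain ⟨-, h2, h3, h4, h5⟩ := h
  obtain ⟨a, c, ha, hc, ha', hc'⟩ := win_nat x C α hx R hR k h3
  refine ⟨a, c, ha', hc', win_sum x b K C T α I Bd hF R k h5, ?_⟩
  have hnu : nuC C (twk R α k) = nuT C g₀ R := by
    rw [nuC_eq_nuT C g₀ (twk R α k) (irr_twk hR α k)
      (fun g hg => h2 g (fun hgI => hg ((hI.mem_iff g).1 hgI))), nuT_twk C α I g₀ hI R k]
  have hac : nuT C g₀ R ≠ 0 → a = c := by
    intro hne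
    rw [← nuT_twk C α I g₀ hI R k] at hne
    have h6 := mC_dual_eq C x g₀ (twk R α k) (cdual_of_nuT C g₀ _ (irr_twk hR α k) hne)
    rw [ha, hc] at h6
    exact_mod_cast h6.symm
  rw [hnu, ha, hc] at h4
  refine ⟨fun h0 => ?_, fun h1 => ?_, fun h1 => ?_⟩
  · rw [h0, add_zero] at h4
    have h6 : ((c * a : ℕ) : ℂ) = 0 := by
      rw [Nat.cast_mul]
      exact h4
    have h7 : c * a = 0 := by exact_mod_cast h6
    rw [mul_comm]
    exact h7
  · have hac' := hac (by rw [h1]; exact one_ne_zero)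
    subst hac'
    rw [h1] at h4
    have h6 : ((a * (a + 1) : ℕ) : ℂ) = 0 := by
      push_cast
      exact h4
    have h7 : a * (a + 1) = 0 := by exact_mod_cast h6
    rcases Nat.mul_eq_zero.1 h7 with h8 | h8
    · exact ⟨h8, h8⟩
    · omega
  · have hac' := hac (by rw [h1]; norm_num)
    subst hac'
    rw [h1] at h4
    refine ⟨rfl, ?_⟩
    rcases mul_eq_zero.1 h4 with h8 | h8
    · have h9 : a = 0 := by exact_mod_cast h8
      omega
    · have h9 : (a : ℂ) = ((1 : ℕ) : ℂ) := by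
        rw [Nat.cast_one]
        exact add_neg_eq_zero.1 h8
      have h10 : a = 1 := by exact_mod_cast h9
      omega

open Classical in
theorem window_N (x : Fin 4 → G) (b K : ℕ) (C : Subgroup G) [C.Normal] (T : Subgroup G)
    (α : C →* ℂˣ) (Bd : Finset (Fin 4)) (hF : IsFrame x b K C T α ∅ Bd) (hx : IsGenVec x)
    (hN : (numN x).re ≤ 1) (R : C →* Matrix (Fin d) (Fin d) ℂ) (hR : Irr R) (k₀ : ℤ) :
    ((Finset.Ico k₀ (k₀ + K)).filter fun k => ¬ GoodN C x α Bd R k).card ≤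
      4 * b ^ 2 + 4 * b := by
  have : Fintype C := Fintype.ofFinite _
  refine le_trans (Finset.card_le_card ?_)
    (win_count x b K C T α ∅ Bd hF hx hN R hR (Set.notMem_empty 1) k₀)
  intro k hk
  rw [Finset.mem_filter] at hk ⊢
  exact ⟨hk.1, fun h => hk.2 (win_goodN x b K C T α Bd hF hx R hR k h)⟩

open Classical in
theorem window_I (x : Fin 4 → G) (b K : ℕ) (C : Subgroup G) [C.Normal] [Fintype C]
    (T : Subgroup G) (α : C →* ℂˣ) (I : Set G) (g₀ : G) (Bd : Finset (Fin 4))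
    (hF : IsFrame x b K C T α I Bd) (hI : IsInv C α I g₀) (hx : IsGenVec x)
    (hN : (numN x).re ≤ 1) (R : C →* Matrix (Fin d) (Fin d) ℂ) (hR : Irr R) (k₀ : ℤ) :
    ((Finset.Ico k₀ (k₀ + K)).filter fun k => ¬ GoodI C x α Bd g₀ R k).card ≤
      4 * b ^ 2 + 4 * b := by
  have h1I : (1 : G) ∉ I := by
    intro h
    have h1 := (hI.mem_iff 1).1 h
    rw [mul_one] at h1
    exact hI.not_mem ((Subgroup.inv_mem_iff C).1 h1)
  refine le_trans (Finset.card_le_card ?_) (win_count x b K C T α I Bd hF hx hN R hR h1I k₀)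
  intro k hk
  rw [Finset.mem_filter] at hk ⊢
  exact ⟨hk.1, fun h => hk.2 (win_goodI x b K C T α I g₀ Bd hF hI hx R hR k h)⟩

end Pool.Agent.CO30
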